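import Pool.Agent.Lib.MP_24b811_al.Cocycle

/-!
In a diagram group, an element with a positive power in the kernel of every homomorphism to an
abelian group lies itself in the kernel of every such homomorphism (the abelianisation of a diagram
group is torsion-free).
-/

open CategoryTheory

namespace Pool.Agent.Lib.MP_24b811_al

universe u

variable {S : Type u} {P : SemigroupPresentation S}

/-- A vertex as an object of the fundamental groupoid. -/
abbrev vtx (v : SqVertex P) : SquierGroupoid P := ⟨(Quiver.FreeGroupoid.of (SqVertex P)).obj v⟩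

/-- An edge as a morphism of the fundamental groupoid. -/
def edgeHom {v w : SqVertex P} (e : v ⟶ w) : vtx v ⟶ vtx w :=
  (CategoryTheory.Quotient.functor (SquareRel P)).map ((Quiver.FreeGroupoid.of (SqVertex P)).map e)

/-- The word of an object of the fundamental groupoid. -/
def objWord (X : SquierGroupoid P) : List S := (show SqVertex P from X.as.as).word

theorem hom_induction {Pr : ∀ {X Y : SquierGroupoid P}, (X ⟶ Y) → Prop}
    (hid : ∀ X, Pr (𝟙 X))
    (hpos : ∀ (X : SquierGroupoid P) (v w : SqVertex P) (f : X ⟶ vtx v) (e : v ⟶ w),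
      Pr f → Pr (f ≫ edgeHom e))
    (hneg : ∀ (X : SquierGroupoid P) (v w : SqVertex P) (f : X ⟶ vtx v) (e : w ⟶ v),
      Pr f → Pr (f ≫ Groupoid.inv (edgeHom e))) :
    ∀ {X Y : SquierGroupoid P} (f : X ⟶ Y), Pr f := by
  have key : ∀ (x y : Quiver.Symmetrify (SqVertex P)) (p : Quiver.Path x y),
      Pr (X := ⟨⟨x⟩⟩) (Y := ⟨⟨y⟩⟩) (Quot.mk _ (Quot.mk _ p)) := by
    intro x y p
    induction p with
    | nil => exact hid ⟨⟨x⟩⟩
    | cons p e ih =>
      rcases e with e | e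
      · exact hpos ⟨⟨x⟩⟩ _ _ _ e ih
      · exact hneg ⟨⟨x⟩⟩ _ _ _ e ih
  rintro ⟨⟨x⟩⟩ ⟨⟨y⟩⟩ ⟨⟨p⟩⟩
  exact key x y p

theorem src_ne_nil (e : SqEdge P) : e.src ≠ [] := by
  have := P.lhs_ne_nil _ e.rel.2
  simp [SqEdge.src, this]

theorem tgt_ne_nil (e : SqEdge P) : e.tgt ≠ [] := by
  have := P.rhs_ne_nil _ e.rel.2
  simp [SqEdge.tgt, this]

/-- An edge as an arrow between its end points. -/
def SqEdge.arrow (e : SqEdge P) :
    (⟨e.src, src_ne_nil e⟩ : SqVertex P) ⟶ ⟨e.tgt, tgt_ne_nil e⟩ := ⟨e, rfl, rfl⟩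

variable {A : Type*} [AddCommGroup A]

/-- The prefunctor defined by a function on edges. -/
def preF (c : SqEdge P → A) : SqVertex P ⥤q SingleObj (Multiplicative A) where
  obj _ := SingleObj.star _
  map e := Multiplicative.ofAdd (c e.1)

theorem lift_preF (c : SqEdge P → A) {v w : SqVertex P} (e : v ⟶ w) :
    (Quiver.FreeGroupoid.lift (preF c)).map ((Quiver.FreeGroupoid.of (SqVertex P)).map e) =
      Multiplicative.ofAdd (c e.1) :=
  congrArg (fun F : SqVertex P ⥤q SingleObj (Multiplicative A) =>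
    (show Multiplicative A from F.map e)) (Quiver.FreeGroupoid.lift_spec (preF c))

/-- The functor defined by a cocycle. -/
noncomputable def evF (c : SqEdge P → A) (hc : IsCocycle c) :
    SquierGroupoid P ⥤ SingleObj (Multiplicative A) :=
  CategoryTheory.Quotient.lift _ (Quiver.FreeGroupoid.lift (preF c)) (by
    rintro _ _ _ _ ⟨a, b, d, r, s, v₁, v₂, v₃, v₄, e₁, e₂, e₃, e₄, h₁, h₂, h₃, h₄⟩
    rw [Functor.map_comp, Functor.map_comp]
    rw [lift_preF, lift_preF, lift_preF, lift_preF]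
    change Multiplicative.ofAdd (c e₂.1) * Multiplicative.ofAdd (c e₁.1) =
      Multiplicative.ofAdd (c e₄.1) * Multiplicative.ofAdd (c e₃.1)
    rw [← ofAdd_add, ← ofAdd_add, h₁, h₂, h₃, h₄]
    have := hc ⟨a, r, []⟩ ⟨b, s, d⟩
    simp only [SqEdge.mulL, SqEdge.mulR, SqEdge.src, SqEdge.tgt, List.nil_append,
      List.append_nil] at this
    rw [add_comm, this, add_comm])

/-- The value of a cocycle on a morphism of the fundamental groupoid. -/
noncomputable def ev (c : SqEdge P → A) (hc : IsCocycle c) {X Y : SquierGroupoid P}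
    (f : X ⟶ Y) : A :=
  Multiplicative.toAdd (show Multiplicative A from (evF c hc).map f)

theorem ev_comp (c : SqEdge P → A) (hc : IsCocycle c) {X Y Z : SquierGroupoid P}
    (f : X ⟶ Y) (g : Y ⟶ Z) : ev c hc (f ≫ g) = ev c hc f + ev c hc g := by
  unfold ev
  rw [Functor.map_comp, add_comm]
  rfl

theorem ev_edge (c : SqEdge P → A) (hc : IsCocycle c) {v w : SqVertex P} (e : v ⟶ w) :
    ev c hc (edgeHom e) = c e.1 :=
  congrArg Multiplicative.toAdd (lift_preF c e)

section additive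

variable (C : ∀ {X Y : SquierGroupoid P}, (X ⟶ Y) → A)
  (hC : ∀ {X Y Z : SquierGroupoid P} (f : X ⟶ Y) (g : Y ⟶ Z), C (f ≫ g) = C f + C g)

include hC

theorem add_id (X : SquierGroupoid P) : C (𝟙 X) = 0 := by
  have := hC (𝟙 X) (𝟙 X)
  rw [Category.id_comp] at this
  exact left_eq_add.1 this

theorem add_inv {X Y : SquierGroupoid P} (f : X ⟶ Y) : C (Groupoid.inv f) = -C f := by
  have := hC f (Groupoid.inv f)
  rw [Groupoid.comp_inv, add_id C hC] at this
  exact (neg_eq_of_add_eq_zero_right this.symm).symm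

omit hC [AddCommGroup A] in
theorem add_edge {v w : SqVertex P} (e : v ⟶ w) :
    C (edgeHom e) = C (edgeHom e.1.arrow) := by
  obtain ⟨v, hv⟩ := v
  obtain ⟨w, hw⟩ := w
  obtain ⟨e, h1, h2⟩ := e
  dsimp only at h1 h2
  subst h1 h2
  rfl

theorem add_isCocycle : IsCocycle (fun e : SqEdge P => C (edgeHom e.arrow)) := by
  intro e f
  let v₁ : SqVertex P := ⟨e.src ++ f.src, by simp [src_ne_nil]⟩
  let v₂ : SqVertex P := ⟨e.tgt ++ f.src, by simp [src_ne_nil]⟩
  let v₃ : SqVertex P := ⟨e.tgt ++ f.tgt, by simp [tgt_ne_nil]⟩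
  let v₄ : SqVertex P := ⟨e.src ++ f.tgt, by simp [tgt_ne_nil]⟩
  let e₁ : v₁ ⟶ v₂ := ⟨e.mulR f.src, by simp [v₁], by simp [v₂]⟩
  let e₂ : v₂ ⟶ v₃ := ⟨f.mulL e.tgt, by simp [v₂], by simp [v₃]⟩
  let e₃ : v₁ ⟶ v₄ := ⟨f.mulL e.src, by simp [v₁], by simp [v₄]⟩
  let e₄ : v₄ ⟶ v₃ := ⟨e.mulR f.tgt, by simp [v₄], by simp [v₃]⟩
  have hsq := CategoryTheory.Quotient.sound (SquareRel P)
    (SquareRel.square e.left (e.right ++ f.left) f.right e.rel f.rel v₁ v₂ v₃ v₄ e₁ e₂ e₃ e₄
      (by simp [e₁, SqEdge.mulR, SqEdge.src]) (by simp [e₂, SqEdge.mulL, SqEdge.tgt])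
      (by simp [e₃, SqEdge.mulL, SqEdge.src]) (by simp [e₄, SqEdge.mulR, SqEdge.tgt]))
  rw [Functor.map_comp, Functor.map_comp] at hsq
  have h : C (edgeHom e₁ ≫ edgeHom e₂) = C (edgeHom e₃ ≫ edgeHom e₄) := congrArg C hsq
  rw [hC, hC, add_edge C e₁, add_edge C e₂, add_edge C e₃, add_edge C e₄] at h
  exact h

end additive

/-- The universal cocycle. -/
noncomputable def rho {X Y : SquierGroupoid P} (f : X ⟶ Y) : (Cls P × P.rels × Cls P) →₀ ℤ :=
  ev (fun e : SqEdge P => Finsupp.single (edgeCls e) (1 : ℤ))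
    (isCocycle_edgeCls (fun t => Finsupp.single t (1 : ℤ))) f

theorem rho_comp {X Y Z : SquierGroupoid P} (f : X ⟶ Y) (g : Y ⟶ Z) :
    rho (f ≫ g) = rho f + rho g := ev_comp _ _ f g

theorem add_eq_zero_of_rho (C : ∀ {X Y : SquierGroupoid P}, (X ⟶ Y) → A)
    (hC : ∀ {X Y Z : SquierGroupoid P} (f : X ⟶ Y) (g : Y ⟶ Z), C (f ≫ g) = C f + C g)
    {X : SquierGroupoid P} (γ : X ⟶ X) (hγ : rho γ = 0) : C γ = 0 := by
  obtain ⟨h, ψ, hψ⟩ := exists_normalised (add_isCocycle C hC)
  let L : ((Cls P × P.rels × Cls P) →₀ ℤ) →ₗ[ℤ] A := Finsupp.linearCombination ℤ ψ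
  have hedge : ∀ {v w : SqVertex P} (e : v ⟶ w),
      C (edgeHom e) = L (rho (edgeHom e)) + h v.word - h w.word := by
    intro v w e
    rw [add_edge C e, hψ e.1, e.2.1, e.2.2]
    have : rho (edgeHom e) = Finsupp.single (edgeCls e.1) (1 : ℤ) := ev_edge _ _ e
    rw [this]
    simp [L]
  have key : ∀ {X Y : SquierGroupoid P} (f : X ⟶ Y),
      C f = L (rho f) + h (objWord X) - h (objWord Y) := by
    intro X Y f
    induction f using hom_induction with
    | hid X => rw [add_id C hC, add_id rho rho_comp]; simp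
    | hpos X v w f e ih =>
      rw [hC, rho_comp, ih, hedge, map_add]
      change _ = _ + _ - h w.word
      change _ + _ - h v.word + _ = _
      abel
    | hneg X v w f e ih =>
      rw [hC, rho_comp, ih, add_inv C hC, add_inv rho rho_comp, hedge, map_add, map_neg]
      change _ = _ + _ - h w.word
      change _ + _ - h v.word + _ = _
      abel
  rw [key γ, hγ]
  simp

/-- If `g ^ 2` is a commutator in a diagram group, every homomorphism to an abelian group
kills `g`. -/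
theorem diagramGroup_no_two_torsion (w : SqVertex P) {B : Type*} [CommGroup B]
    (φ : DiagramGroup P w →* B) (g x y : DiagramGroup P w)
    (hg : g * g = x * y * x⁻¹ * y⁻¹) : φ g = 1 := by
  classical
  let ρ : DiagramGroup P w →* Multiplicative ((Cls P × P.rels × Cls P) →₀ ℤ) :=
    MonoidHom.mk' (fun g => Multiplicative.ofAdd (rho (X := vtx w) (Y := vtx w) g)) (by
      intro a b
      change Multiplicative.ofAdd (rho (b ≫ a)) = _
      rw [rho_comp, add_comm]
      rfl)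
  have h1 : ρ g * ρ g = 1 := by
    rw [← map_mul, hg]
    simp only [map_mul, map_inv]
    rw [mul_comm (ρ x) (ρ y)]
    simp
  have h2 : rho (X := vtx w) (Y := vtx w) g = 0 := by
    have h3 : rho (X := vtx w) (Y := vtx w) g + rho (X := vtx w) (Y := vtx w) g = 0 := h1
    ext t
    have h4 := congrArg (fun F : (Cls P × P.rels × Cls P) →₀ ℤ => F t) h3
    simp only [Finsupp.add_apply, Finsupp.zero_apply] at h4 ⊢
    omega
  let p : ∀ X : SquierGroupoid P, Nonempty (vtx w ⟶ X) → (vtx w ⟶ X) :=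
    fun X hX => Classical.choice hX
  let C : ∀ {X Y : SquierGroupoid P}, (X ⟶ Y) → Additive B := fun {X Y} f =>
    if hX : Nonempty (vtx w ⟶ X) then
      Additive.ofMul (φ (p X hX ≫ f ≫ Groupoid.inv (p Y ⟨p X hX ≫ f⟩)))
    else 0
  have hmul : ∀ a b : vtx w ⟶ vtx w, φ (a ≫ b) = φ a * φ b := by
    intro a b
    rw [mul_comm]
    exact map_mul φ (show DiagramGroup P w from b) (show DiagramGroup P w from a)
  have hC : ∀ {X Y Z : SquierGroupoid P} (f : X ⟶ Y) (g : Y ⟶ Z), C (f ≫ g) = C f + C g := by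
    intro X Y Z f g
    by_cases hX : Nonempty (vtx w ⟶ X)
    · have hY : Nonempty (vtx w ⟶ Y) := ⟨p X hX ≫ f⟩
      simp only [C, dif_pos hX, dif_pos hY]
      rw [← ofMul_mul, ← hmul]
      simp
    · have hY : ¬ Nonempty (vtx w ⟶ Y) := fun ⟨q⟩ => hX ⟨q ≫ Groupoid.inv f⟩
      simp only [C, dif_neg hX, dif_neg hY, add_zero]
  have h5 := add_eq_zero_of_rho C hC (X := vtx w) g h2
  have hw : Nonempty (vtx w ⟶ vtx w) := ⟨𝟙 _⟩
  simp only [C, dif_pos hw] at h5
  have h6 : φ (p _ hw ≫ (show vtx w ⟶ vtx w from g) ≫ Groupoid.inv (p _ hw)) = 1 := h5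
  rw [hmul, hmul, mul_comm (φ g), ← mul_assoc, ← hmul, Groupoid.comp_inv] at h6
  have h7 : φ (𝟙 (vtx w)) = 1 := map_one φ
  rw [h7, one_mul] at h6
  exact h6

end Pool.Agent.Lib.MP_24b811_al
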