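import Pool.Agent.Lib.MP_24b811_al.Defs

/-!
Every 1-cocycle of the Squier complex with values in an abelian group is cohomologous to one whose
value on the edge `(a, r, b)` depends only on `r` and on the classes of `a` and `b` modulo the
presentation.
-/

namespace Pool.Agent.Lib.MP_24b811_al

universe u

variable {S : Type u} {P : SemigroupPresentation S}

/-- Multiply an edge by a word on the left. -/
def SqEdge.mulL (e : SqEdge P) (a : List S) : SqEdge P := ⟨a ++ e.left, e.rel, e.right⟩

/-- Multiply an edge by a word on the right. -/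
def SqEdge.mulR (e : SqEdge P) (b : List S) : SqEdge P := ⟨e.left, e.rel, e.right ++ b⟩

@[simp] theorem SqEdge.src_mulL (e : SqEdge P) (a : List S) : (e.mulL a).src = a ++ e.src := by
  simp [SqEdge.src, SqEdge.mulL]

@[simp] theorem SqEdge.tgt_mulL (e : SqEdge P) (a : List S) : (e.mulL a).tgt = a ++ e.tgt := by
  simp [SqEdge.tgt, SqEdge.mulL]

@[simp] theorem SqEdge.src_mulR (e : SqEdge P) (b : List S) : (e.mulR b).src = e.src ++ b := by
  simp [SqEdge.src, SqEdge.mulR]

@[simp] theorem SqEdge.tgt_mulR (e : SqEdge P) (b : List S) : (e.mulR b).tgt = e.tgt ++ b := by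
  simp [SqEdge.tgt, SqEdge.mulR]

theorem SqEdge.mulR_mulR (e : SqEdge P) (a b : List S) :
    (e.mulR a).mulR b = e.mulR (a ++ b) := by
  simp [SqEdge.mulR]

theorem SqEdge.mulL_mulL (e : SqEdge P) (a b : List S) :
    (e.mulL a).mulL b = e.mulL (b ++ a) := by
  simp [SqEdge.mulL]

/-- One rewriting step. -/
def Step (P : SemigroupPresentation S) (s t : List S) : Prop :=
  ∃ e : SqEdge P, e.src = s ∧ e.tgt = t

/-- Equality of words modulo the presentation. -/
def Conn (P : SemigroupPresentation S) : List S → List S → Prop := Relation.EqvGen (Step P)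

theorem Conn.refl (a : List S) : Conn P a a := Relation.EqvGen.refl a

theorem Conn.symm {a b : List S} (h : Conn P a b) : Conn P b a := Relation.EqvGen.symm _ _ h

theorem Conn.trans {a b c : List S} (h : Conn P a b) (h' : Conn P b c) : Conn P a c :=
  Relation.EqvGen.trans _ _ _ h h'

theorem Conn.edge (e : SqEdge P) : Conn P e.src e.tgt := Relation.EqvGen.rel _ _ ⟨e, rfl, rfl⟩

theorem Conn.append_left {a b : List S} (h : Conn P a b) (z : List S) :
    Conn P (z ++ a) (z ++ b) := by
  induction h with
  | rel x y h =>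
    obtain ⟨e, rfl, rfl⟩ := h
    simpa using Conn.edge (e.mulL z)
  | refl x => exact Conn.refl _
  | symm x y _ ih => exact ih.symm
  | trans x y w _ _ ih1 ih2 => exact ih1.trans ih2

theorem Conn.append_right {a b : List S} (h : Conn P a b) (z : List S) :
    Conn P (a ++ z) (b ++ z) := by
  induction h with
  | rel x y h =>
    obtain ⟨e, rfl, rfl⟩ := h
    simpa using Conn.edge (e.mulR z)
  | refl x => exact Conn.refl _
  | symm x y _ ih => exact ih.symm
  | trans x y w _ _ ih1 ih2 => exact ih1.trans ih2

/-- The monoid presented by `P`, as a set. -/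
def Cls (P : SemigroupPresentation S) : Type u := Quot (Step P)

/-- The class of a word. -/
def cls (P : SemigroupPresentation S) (w : List S) : Cls P := Quot.mk _ w

theorem cls_eq_iff {a b : List S} : cls P a = cls P b ↔ Conn P a b := Quot.eq

/-- A chosen normal form of a word. -/
noncomputable def nf (P : SemigroupPresentation S) (w : List S) : List S :=
  Quot.out (cls P w)

theorem conn_nf (w : List S) : Conn P w (nf P w) := by
  rw [← cls_eq_iff]
  exact (Quot.out_eq _).symm

theorem nf_eq {a b : List S} (h : Conn P a b) : nf P a = nf P b := by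
  unfold nf
  rw [cls_eq_iff.2 h]

/-- The class of an edge. -/
def edgeCls (e : SqEdge P) : Cls P × P.rels × Cls P := (cls P e.left, e.rel, cls P e.right)

variable {A : Type*} [AddCommGroup A]

/-- The cocycle condition on squares. -/
def IsCocycle (c : SqEdge P → A) : Prop :=
  ∀ e f : SqEdge P, c (e.mulR f.src) + c (f.mulL e.tgt) = c (f.mulL e.src) + c (e.mulR f.tgt)

/-- `κ` records the values of `c` on the left translates of a path from `b` to `b'`. -/
def Good (c : SqEdge P → A) (b b' : List S) (κ : List S → A) : Prop :=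
  ∀ e : SqEdge P, c (e.mulR b) + κ e.tgt = κ e.src + c (e.mulR b')

theorem Good.trans {c : SqEdge P → A} {b b' b'' : List S} {κ κ' : List S → A}
    (h : Good c b b' κ) (h' : Good c b' b'' κ') : Good c b b'' (fun a => κ a + κ' a) := by
  intro e
  have h1 := h e
  have h2 := h' e
  dsimp only
  calc c (e.mulR b) + (κ e.tgt + κ' e.tgt) = (c (e.mulR b) + κ e.tgt) + κ' e.tgt := by abel
    _ = κ e.src + (c (e.mulR b') + κ' e.tgt) := by rw [h1]; abel
    _ = κ e.src + κ' e.src + c (e.mulR b'') := by rw [h2]; abel

theorem Good.cons {c : SqEdge P → A} {b b' : List S} {κ : List S → A}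
    (h : Good c b b' κ) (x : S) : Good c (x :: b) (x :: b') (fun a => κ (a ++ [x])) := by
  intro e
  have h1 := h (e.mulR [x])
  simpa [SqEdge.mulR_mulR] using h1

theorem exists_good {c : SqEdge P → A} (hc : IsCocycle c) {b b' : List S} (h : Conn P b b') :
    ∃ κ, Good c b b' κ := by
  induction h with
  | rel x y h =>
    obtain ⟨f, rfl, rfl⟩ := h
    exact ⟨fun a => c (f.mulL a), fun e => hc e f⟩
  | refl x => exact ⟨fun _ => 0, fun e => by simp⟩
  | symm x y _ ih =>
    obtain ⟨κ, hκ⟩ := ih
    refine ⟨fun a => -κ a, fun e => ?_⟩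
    have := hκ e
    dsimp only
    calc c (e.mulR y) + -κ e.tgt = -κ e.src + (κ e.src + c (e.mulR y)) + -κ e.tgt := by abel
      _ = -κ e.src + c (e.mulR x) := by rw [← this]; abel
  | trans x y w _ _ ih1 ih2 =>
    obtain ⟨κ, hκ⟩ := ih1
    obtain ⟨κ', hκ'⟩ := ih2
    exact ⟨_, hκ.trans hκ'⟩

/-- A chosen `κ` from `w` to its normal form. -/
noncomputable def kap0 {c : SqEdge P → A} (hc : IsCocycle c) (w : List S) : List S → A :=
  Classical.choose (exists_good hc (conn_nf (P := P) w))

theorem good_kap0 {c : SqEdge P → A} (hc : IsCocycle c) (w : List S) :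
    Good c w (nf P w) (kap0 hc w) :=
  Classical.choose_spec (exists_good hc (conn_nf (P := P) w))

/-- The canonical `κ` from `w` to its normal form, built letter by letter from the right. -/
noncomputable def kap {c : SqEdge P → A} (hc : IsCocycle c) : List S → List S → A
  | [] => kap0 hc []
  | x :: w => fun a => kap hc w (a ++ [x]) + kap0 hc (x :: nf P w) a

theorem good_kap {c : SqEdge P → A} (hc : IsCocycle c) (w : List S) :
    Good c w (nf P w) (kap hc w) := by
  induction w with
  | nil => exact good_kap0 hc []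
  | cons x w ih =>
    have h1 := (ih.cons x).trans (good_kap0 hc (x :: nf P w))
    have h2 : nf P (x :: nf P w) = nf P (x :: w) :=
      nf_eq ((conn_nf (P := P) w).symm.append_left [x])
    rw [h2] at h1
    exact h1

theorem kap_append {c : SqEdge P → A} (hc : IsCocycle c) {b b' : List S} (h : Conn P b b')
    (a z : List S) :
    kap hc (a ++ b) z - kap hc b (z ++ a) = kap hc (a ++ b') z - kap hc b' (z ++ a) := by
  induction a generalizing z with
  | nil => simp
  | cons x a ih =>
    have h1 := ih (z ++ [x])
    have h2 : nf P (a ++ b) = nf P (a ++ b') := nf_eq (h.append_left a)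
    simp only [List.cons_append, kap, h2]
    simp only [List.append_assoc, List.cons_append, List.nil_append] at h1
    calc _ = (kap hc (a ++ b) (z ++ [x]) - kap hc b (z ++ x :: a))
          + kap0 hc (x :: nf P (a ++ b')) z := by abel
      _ = _ := by rw [h1]; abel

theorem exists_normalised {c : SqEdge P → A} (hc : IsCocycle c) :
    ∃ (h : List S → A) (ψ : Cls P × P.rels × Cls P → A),
      ∀ e : SqEdge P, c e = ψ (edgeCls e) + h e.src - h e.tgt := by
  let h : List S → A := fun w => kap hc w []
  let c' : SqEdge P → A := fun e => c e - h e.src + h e.tgt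
  have hR : ∀ (e : SqEdge P) (b b' : List S), Conn P b b' → c' (e.mulR b) = c' (e.mulR b') := by
    intro e b b' hb
    have h1 := good_kap hc b e
    have h2 := good_kap hc b' e
    have h3 := kap_append hc hb e.src []
    have h4 := kap_append hc hb e.tgt []
    rw [← nf_eq hb] at h2
    simp only [List.nil_append] at h3 h4
    simp only [c', h, SqEdge.src_mulR, SqEdge.tgt_mulR]
    calc _ = (c (e.mulR b) + kap hc b e.tgt) - kap hc b e.src
            - (kap hc (e.src ++ b) [] - kap hc b e.src)
            + (kap hc (e.tgt ++ b) [] - kap hc b e.tgt) := by abel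
      _ = (kap hc b' e.src + c (e.mulR (nf P b))) - kap hc b' e.src
            - (kap hc (e.src ++ b') [] - kap hc b' e.src)
            + (kap hc (e.tgt ++ b') [] - kap hc b' e.tgt) := by rw [h1, h3, h4]; abel
      _ = _ := by rw [← h2]; abel
  have hc' : IsCocycle c' := by
    intro e f
    have h1 := hc e f
    simp only [c', SqEdge.src_mulR, SqEdge.tgt_mulR, SqEdge.src_mulL, SqEdge.tgt_mulL]
    calc _ = (c (e.mulR f.src) + c (f.mulL e.tgt)) - h (e.src ++ f.src) + h (e.tgt ++ f.tgt) := by
          abel
      _ = _ := by rw [h1]; abel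
  have hL : ∀ (f : SqEdge P) (a a' : List S), Conn P a a' → c' (f.mulL a) = c' (f.mulL a') := by
    intro f a a' ha
    induction ha with
    | rel x y hxy =>
      obtain ⟨e, rfl, rfl⟩ := hxy
      have h1 := hc' e f
      rw [hR e _ _ (Conn.edge f), add_comm] at h1
      exact (add_right_cancel h1).symm
    | refl x => rfl
    | symm x y _ ih => exact ih.symm
    | trans x y w _ _ ih1 ih2 => exact ih1.trans ih2
  refine ⟨h, fun t => c' ⟨Quot.out t.1, t.2.1, Quot.out t.2.2⟩, fun e => ?_⟩
  have h1 : c' ⟨nf P e.left, e.rel, nf P e.right⟩ = c' e := by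
    have h2 := hL ⟨[], e.rel, nf P e.right⟩ _ _ (conn_nf (P := P) e.left)
    have h3 := hR ⟨e.left, e.rel, []⟩ _ _ (conn_nf (P := P) e.right)
    simp only [SqEdge.mulL, SqEdge.mulR, List.append_nil, List.nil_append] at h2 h3
    rw [← h2, ← h3]
  change c e = c' ⟨nf P e.left, e.rel, nf P e.right⟩ + h e.src - h e.tgt
  rw [h1]
  simp only [c']
  abel

theorem isCocycle_edgeCls {B : Type*} [AddCommGroup B] (χ : Cls P × P.rels × Cls P → B) :
    IsCocycle (fun e : SqEdge P => χ (edgeCls e)) := by
  intro e f
  have h1 : edgeCls (e.mulR f.src) = edgeCls (e.mulR f.tgt) := by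
    simp only [edgeCls, SqEdge.mulR]
    rw [cls_eq_iff.2 ((Conn.edge f).append_left e.right)]
  have h2 : edgeCls (f.mulL e.src) = edgeCls (f.mulL e.tgt) := by
    simp only [edgeCls, SqEdge.mulL]
    rw [cls_eq_iff.2 ((Conn.edge e).append_right f.left)]
  dsimp only
  rw [h1, h2, add_comm]

end Pool.Agent.Lib.MP_24b811_al
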