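import Mathlib

/-!
Definitions for the problem: semigroup presentations, the Squier square complex, diagram groups
(as the edge-path fundamental group of the Squier complex) and Thompson's group F (as a group of
piecewise linear homeomorphisms of the unit interval).
-/

open CategoryTheory

namespace Pool.Agent.Lib.MP_24b811_al

universe u

/-- A semigroup presentation over the alphabet `S`: a set of relations `u = v`, recorded as pairs
`(u, v)` of nonempty words. Neither `S` nor the set of relations need be finite. -/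
structure SemigroupPresentation (S : Type u) : Type u where
  rels : Set (List S × List S)
  lhs_ne_nil : ∀ r ∈ rels, r.1 ≠ []
  rhs_ne_nil : ∀ r ∈ rels, r.2 ≠ []

variable {S : Type u}

/-- The vertices of the Squier complex: the nonempty words. -/
structure SqVertex (P : SemigroupPresentation S) : Type u where
  word : List S
  ne_nil : word ≠ []

/-- The edges of the Squier complex: triples `(a, u = v, b)` with `a, b` words (possibly empty)
and `u = v` a relation. -/
structure SqEdge (P : SemigroupPresentation S) : Type u where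
  left : List S
  rel : P.rels
  right : List S

/-- The edge `(a, u = v, b)` starts at the word `a u b`. -/
def SqEdge.src {P : SemigroupPresentation S} (e : SqEdge P) : List S :=
  e.left ++ e.rel.1.1 ++ e.right

/-- The edge `(a, u = v, b)` ends at the word `a v b`. -/
def SqEdge.tgt {P : SemigroupPresentation S} (e : SqEdge P) : List S :=
  e.left ++ e.rel.1.2 ++ e.right

/-- The 1-skeleton of the Squier complex, as a quiver on the nonempty words. -/
instance sqQuiver (P : SemigroupPresentation S) : Quiver.{u} (SqVertex P) where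
  Hom s t := {e : SqEdge P // e.src = s.word ∧ e.tgt = t.word}

/-- The 2-cells of the Squier complex. For words `a, b, c` and relations `r = (u = v)`,
`s = (p = q)`, the two edge paths `aubpc → avbpc → avbqc` and `aubpc → aubqc → avbqc` around the
square are related. They are morphisms of the free groupoid on the 1-skeleton, that is, edge paths
(edges may be crossed backwards) up to backtracking. -/
inductive SquareRel (P : SemigroupPresentation S) :
    ∀ ⦃X Y : Quiver.FreeGroupoid (SqVertex P)⦄, (X ⟶ Y) → (X ⟶ Y) → Prop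
  | square (a b c : List S) (r s : P.rels) (v₁ v₂ v₃ v₄ : SqVertex P)
      (e₁ : v₁ ⟶ v₂) (e₂ : v₂ ⟶ v₃) (e₃ : v₁ ⟶ v₄) (e₄ : v₄ ⟶ v₃)
      (h₁ : e₁.1 = ⟨a, r, b ++ s.1.1 ++ c⟩) (h₂ : e₂.1 = ⟨a ++ r.1.2 ++ b, s, c⟩)
      (h₃ : e₃.1 = ⟨a ++ r.1.1 ++ b, s, c⟩) (h₄ : e₄.1 = ⟨a, r, b ++ s.1.2 ++ c⟩) :
      SquareRel P
        ((Quiver.FreeGroupoid.of (SqVertex P)).map e₁ ≫
          (Quiver.FreeGroupoid.of (SqVertex P)).map e₂)
        ((Quiver.FreeGroupoid.of (SqVertex P)).map e₃ ≫
          (Quiver.FreeGroupoid.of (SqVertex P)).map e₄)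

/-- The fundamental groupoid of the Squier square complex: edge paths up to backtracking and up to
pushing across squares. -/
abbrev SquierGroupoid (P : SemigroupPresentation S) : Type u :=
  CategoryTheory.Quotient (C := Quiver.FreeGroupoid (SqVertex P)) (SquareRel P)

/-- The diagram group `D(P, w)`: the fundamental group of the Squier complex based at `w`, that is,
the group of endomorphisms of `w` in the fundamental groupoid. -/
abbrev DiagramGroup (P : SemigroupPresentation S) (w : SqVertex P) : Type u :=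
  End (C := SquierGroupoid P) ⟨(Quiver.FreeGroupoid.of (SqVertex P)).obj w⟩

/-- A real number is dyadic if it lies in `ℤ[1/2]`. -/
def IsDyadic (x : ℝ) : Prop := ∃ (m : ℤ) (k : ℕ), x = m / 2 ^ k

/-- A homeomorphism `g` of `[0,1]` belongs to Thompson's group F if it preserves the orientation
and there is a finite set `B` of dyadic breakpoints such that on every interval `[x, y]` with no
point of `B` strictly inside, `g` is affine with slope an integer power of `2`. -/
def IsThompsonF (g : unitInterval ≃ₜ unitInterval) : Prop :=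
  StrictMono g ∧ ∃ B : Finset ℝ, (∀ b ∈ B, IsDyadic b) ∧
    ∀ x y : unitInterval, x < y → (∀ b ∈ B, ¬ ((x : ℝ) < b ∧ b < (y : ℝ))) →
      ∃ k : ℤ, ∀ z : unitInterval, x ≤ z → z ≤ y →
        (g z : ℝ) = (g x : ℝ) + (2 : ℝ) ^ k * ((z : ℝ) - (x : ℝ))

theorem isDyadic_zero : IsDyadic 0 := ⟨0, 0, by simp⟩

theorem IsDyadic.add {x y : ℝ} (hx : IsDyadic x) (hy : IsDyadic y) : IsDyadic (x + y) := by
  obtain ⟨m, k, rfl⟩ := hx
  obtain ⟨n, l, rfl⟩ := hy
  refine ⟨m * 2 ^ l + n * 2 ^ k, k + l, ?_⟩
  push_cast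
  rw [pow_add]
  field_simp

theorem IsDyadic.neg {x : ℝ} (hx : IsDyadic x) : IsDyadic (-x) := by
  obtain ⟨m, k, rfl⟩ := hx
  exact ⟨-m, k, by push_cast; ring⟩

theorem IsDyadic.sub {x y : ℝ} (hx : IsDyadic x) (hy : IsDyadic y) : IsDyadic (x - y) := by
  rw [sub_eq_add_neg]; exact hx.add hy.neg

theorem IsDyadic.zpow_mul {x : ℝ} (hx : IsDyadic x) (j : ℤ) : IsDyadic ((2 : ℝ) ^ j * x) := by
  obtain ⟨m, k, rfl⟩ := hx
  obtain ⟨n, rfl | rfl⟩ := Int.eq_nat_or_neg j
  · refine ⟨2 ^ n * m, k, ?_⟩
    push_cast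
    rw [zpow_natCast]; ring
  · refine ⟨m, k + n, ?_⟩
    rw [zpow_neg, zpow_natCast, pow_add]
    field_simp

theorem apply_zero_of_strictMono {g : unitInterval ≃ₜ unitInterval} (hg : StrictMono g) :
    g 0 = 0 := by
  obtain ⟨x, hx⟩ := g.surjective 0
  have h : g 0 ≤ g x := hg.monotone (unitInterval.nonneg x)
  rw [hx] at h
  exact le_antisymm h (unitInterval.nonneg _)

/-- Below a point `x > 0` there is a last point of `B ∪ {0}`. -/
theorem exists_last_below (B : Finset ℝ) (hB : ∀ b ∈ B, IsDyadic b) (x : unitInterval)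
    (hx : 0 < x) : ∃ p : unitInterval, p < x ∧ IsDyadic p ∧
      (∀ b ∈ B, ¬ ((p : ℝ) < b ∧ b < (x : ℝ))) ∧ (p = 0 ∨ ((p : ℝ) ∈ B ∧ 0 < (p : ℝ))) := by
  classical
  by_cases hne : (B.filter (fun b => 0 < b ∧ b < (x : ℝ))).Nonempty
  · obtain ⟨p, hp, hmax⟩ := Finset.exists_max_image _ id hne
    rw [Finset.mem_filter] at hp
    refine ⟨⟨p, hp.2.1.le, hp.2.2.le.trans x.2.2⟩, hp.2.2, hB p hp.1, ?_, Or.inr ⟨hp.1, hp.2.1⟩⟩
    rintro b hb ⟨h1, h2⟩
    have := hmax b (Finset.mem_filter.2 ⟨hb, hp.2.1.trans h1, h2⟩)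
    exact absurd h1 (not_lt.2 this)
  · refine ⟨0, hx, isDyadic_zero, ?_, Or.inl rfl⟩
    rintro b hb ⟨h1, h2⟩
    exact hne ⟨b, Finset.mem_filter.2 ⟨hb, h1, h2⟩⟩

theorem IsThompsonF.dyadic_apply {g : unitInterval ≃ₜ unitInterval} (hg : IsThompsonF g)
    (x : unitInterval) (hx : IsDyadic x) : IsDyadic (g x) := by
  classical
  obtain ⟨hmono, B, hB, hlin⟩ := hg
  induction hn : (B.filter (fun b => 0 < b ∧ b < (x : ℝ))).card using Nat.strong_induction_on
    generalizing x with
  | _ n ih =>
    rcases (unitInterval.nonneg' (t := x)).eq_or_lt with h0 | h0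
    · rw [← h0, apply_zero_of_strictMono hmono]; exact isDyadic_zero
    · obtain ⟨p, hpx, hpd, hpB, hp⟩ := exists_last_below B hB x h0
      obtain ⟨k, hk⟩ := hlin p x hpx hpB
      rw [hk x hpx.le le_rfl]
      refine IsDyadic.add ?_ ((hx.sub hpd).zpow_mul k)
      rcases hp with rfl | ⟨hp1, hp2⟩
      · rw [apply_zero_of_strictMono hmono]; exact isDyadic_zero
      · refine ih _ ?_ p hpd rfl
        rw [← hn]
        apply Finset.card_lt_card
        refine ⟨?_, ?_⟩
        · intro b hb
          rw [Finset.mem_filter] at hb ⊢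
          exact ⟨hb.1, hb.2.1, hb.2.2.trans hpx⟩
        · intro hsub
          have := hsub (Finset.mem_filter.2 ⟨hp1, hp2, hpx⟩)
          rw [Finset.mem_filter] at this
          exact lt_irrefl _ this.2.2

theorem IsThompsonF.dyadic_of_apply {g : unitInterval ≃ₜ unitInterval} (hg : IsThompsonF g)
    (x : unitInterval) (hx : IsDyadic (g x)) : IsDyadic x := by
  have hg' := hg
  obtain ⟨hmono, B, hB, hlin⟩ := hg
  rcases (unitInterval.nonneg' (t := x)).eq_or_lt with h0 | h0
  · rw [← h0]; exact isDyadic_zero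
  · obtain ⟨p, hpx, hpd, hpB, -⟩ := exists_last_below B hB x h0
    obtain ⟨k, hk⟩ := hlin p x hpx hpB
    have h1 := hk x hpx.le le_rfl
    have h2 : (x : ℝ) = p + (2 : ℝ) ^ (-k) * ((g x : ℝ) - g p) := by
      rw [h1, zpow_neg]
      have : (2 : ℝ) ^ k ≠ 0 := by positivity
      field_simp
      ring
    rw [h2]
    exact hpd.add ((hx.sub (hg'.dyadic_apply p hpd)).zpow_mul _)

theorem isThompsonF_one : IsThompsonF 1 :=
  ⟨fun _ _ h => h, ∅, by simp, fun x y _ _ => ⟨0, fun z _ _ => by simp⟩⟩

theorem IsThompsonF.mul {f g : unitInterval ≃ₜ unitInterval} (hf : IsThompsonF f)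
    (hg : IsThompsonF g) : IsThompsonF (f * g) := by
  classical
  have hg' := hg
  obtain ⟨hfm, Bf, hBf, hlf⟩ := hf
  obtain ⟨hgm, Bg, hBg, hlg⟩ := hg
  refine ⟨fun x y h => hfm (hgm h), Bg ∪ Bf.image (fun b =>
    if h : b ∈ unitInterval then ((g.symm ⟨b, h⟩ : unitInterval) : ℝ) else 0), ?_, ?_⟩
  · intro b hb
    rcases Finset.mem_union.1 hb with hb | hb
    · exact hBg b hb
    · obtain ⟨b', hb', rfl⟩ := Finset.mem_image.1 hb
      split_ifs with h
      · apply hg'.dyadic_of_apply
        rw [Homeomorph.apply_symm_apply]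
        exact hBf b' hb'
      · exact isDyadic_zero
  · intro x y hxy hB
    obtain ⟨k, hk⟩ := hlg x y hxy (fun b hb => hB b (Finset.mem_union_left _ hb))
    obtain ⟨l, hl⟩ := hlf (g x) (g y) (hgm hxy) (by
      rintro b hb ⟨h1, h2⟩
      have hbI : b ∈ unitInterval := ⟨(g x).2.1.trans h1.le, h2.le.trans (g y).2.2⟩
      refine hB _ (Finset.mem_union_right _ (Finset.mem_image_of_mem _ hb)) ?_
      simp only [dif_pos hbI]
      constructor
      · have : x < g.symm ⟨b, hbI⟩ := by
          rw [← hgm.lt_iff_lt, Homeomorph.apply_symm_apply]; exact h1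
        exact this
      · have : g.symm ⟨b, hbI⟩ < y := by
          rw [← hgm.lt_iff_lt, Homeomorph.apply_symm_apply]; exact h2
        exact this)
    refine ⟨l + k, fun z hxz hzy => ?_⟩
    have h1 := hl (g z) (hgm.monotone hxz) (hgm.monotone hzy)
    have h2 := hk z hxz hzy
    change (f (g z) : ℝ) = (f (g x) : ℝ) + _
    rw [h1, h2, zpow_add₀ (by norm_num : (2 : ℝ) ≠ 0)]
    ring

theorem IsThompsonF.inv {g : unitInterval ≃ₜ unitInterval} (hg : IsThompsonF g) :
    IsThompsonF g⁻¹ := by
  classical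
  have hg' := hg
  obtain ⟨hgm, B, hB, hl⟩ := hg
  have hsm : StrictMono g.symm := by
    intro x y h
    rw [← hgm.lt_iff_lt, Homeomorph.apply_symm_apply, Homeomorph.apply_symm_apply]; exact h
  refine ⟨hsm, B.image (fun b =>
    if h : b ∈ unitInterval then ((g ⟨b, h⟩ : unitInterval) : ℝ) else 0), ?_, ?_⟩
  · intro b hb
    obtain ⟨b', hb', rfl⟩ := Finset.mem_image.1 hb
    split_ifs with h
    · exact hg'.dyadic_apply _ (hB b' hb')
    · exact isDyadic_zero
  · intro x y hxy hBxy
    obtain ⟨k, hk⟩ := hl (g.symm x) (g.symm y) (hsm hxy) (by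
      rintro b hb ⟨h1, h2⟩
      have hbI : b ∈ unitInterval :=
        ⟨(g.symm x).2.1.trans h1.le, h2.le.trans (g.symm y).2.2⟩
      refine hBxy _ (Finset.mem_image_of_mem _ hb) ?_
      simp only [dif_pos hbI]
      constructor
      · have : x < g ⟨b, hbI⟩ := by
          rw [← hsm.lt_iff_lt, Homeomorph.symm_apply_apply]; exact h1
        exact this
      · have : g ⟨b, hbI⟩ < y := by
          rw [← hsm.lt_iff_lt, Homeomorph.symm_apply_apply]; exact h2
        exact this)
    refine ⟨-k, fun z hxz hzy => ?_⟩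
    have h1 := hk (g.symm z) (hsm.monotone hxz) (hsm.monotone hzy)
    rw [Homeomorph.apply_symm_apply, Homeomorph.apply_symm_apply] at h1
    change (g.symm z : ℝ) = (g.symm x : ℝ) + _
    rw [h1, zpow_neg]
    have : (2 : ℝ) ^ k ≠ 0 := by positivity
    field_simp
    ring

/-- Thompson's group F, as a subgroup of the group of homeomorphisms of `[0,1]` under
composition. -/
def ThompsonF : Subgroup (unitInterval ≃ₜ unitInterval) where
  carrier := {g | IsThompsonF g}
  one_mem' := isThompsonF_one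
  mul_mem' := IsThompsonF.mul
  inv_mem' := IsThompsonF.inv

end Pool.Agent.Lib.MP_24b811_al
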