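import Mathlib

/-!
A group acting faithfully by order preserving maps on a linear order, with a translation-like
element `t` and an element `a` supported in a fundamental domain of `t`, has a 3-generated subgroup
whose abelianisation has 2-torsion.
-/

namespace Pool.Agent.Lib.MP_24b811_al

/-- Shift of a finitely supported function. -/
noncomputable def shift (k : ℤ) (f : ℤ →₀ ℤ) : ℤ →₀ ℤ := Finsupp.mapDomain (fun n => n - k) f

theorem shift_apply (k : ℤ) (f : ℤ →₀ ℤ) (n : ℤ) : shift k f n = f (n + k) := by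
  have h : Function.Injective (fun n : ℤ => n - k) := fun x y h => by simpa using h
  have := Finsupp.mapDomain_apply h f (n + k)
  simpa [shift] using this

/-- The sum of the values. -/
noncomputable def tot : (ℤ →₀ ℤ) →ₗ[ℤ] ℤ := Finsupp.linearCombination ℤ (fun _ => (1 : ℤ))

/-- The first moment. -/
noncomputable def mom : (ℤ →₀ ℤ) →ₗ[ℤ] ℤ := Finsupp.linearCombination ℤ (fun n => n)

theorem tot_shift (k : ℤ) (f : ℤ →₀ ℤ) : tot (shift k f) = tot f := by
  induction f using Finsupp.induction_linear with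
  | zero => simp [shift]
  | add f g hf hg =>
    unfold shift at *
    rw [Finsupp.mapDomain_add, map_add, map_add, hf, hg]
  | single n v => simp [shift, tot]

theorem mom_shift (k : ℤ) (f : ℤ →₀ ℤ) : mom (shift k f) = mom f - k * tot f := by
  induction f using Finsupp.induction_linear with
  | zero => simp [shift]
  | add f g hf hg =>
    unfold shift at *
    rw [Finsupp.mapDomain_add, map_add, map_add, map_add, hf, hg]; ring
  | single n v => simp [shift, tot, mom]; ring

section

variable {G X : Type*} [Group G] [LinearOrder X] [MulAction G X]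

/-- The points `t ^ n a ^ m q`. -/
def pt (t a : G) (q : X) (n m : ℤ) : X := t ^ n • a ^ m • q

/-- `g` acts on the points `pt n m` as the lamplighter element `(f, k)`. -/
def Rel (t a : G) (q : X) (g : G) (k : ℤ) (f : ℤ →₀ ℤ) : Prop :=
  ∀ n m, g • pt t a q n m = pt t a q (n + k) (m + f n)

omit [LinearOrder X] in
theorem Rel.mul {t a : G} {q : X} {g g' : G} {k k' : ℤ} {f f' : ℤ →₀ ℤ}
    (h : Rel t a q g k f) (h' : Rel t a q g' k' f') :
    Rel t a q (g * g') (k' + k) (f' + shift k' f) := by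
  intro n m
  rw [mul_smul, h', h, Finsupp.add_apply, shift_apply, add_assoc, add_assoc]

omit [LinearOrder X] in
theorem Rel.inv {t a : G} {q : X} {g : G} {k : ℤ} {f : ℤ →₀ ℤ}
    (h : Rel t a q g k f) : Rel t a q g⁻¹ (-k) (-shift (-k) f) := by
  intro n m
  rw [inv_smul_eq_iff, h, Finsupp.neg_apply, shift_apply]
  congr 1 <;> ring

omit [LinearOrder X] in
theorem rel_one (t a : G) (q : X) : Rel t a q 1 0 0 := by
  intro n m
  simp

omit [LinearOrder X] in
theorem rel_t (t a : G) (q : X) : Rel t a q t 1 0 := by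
  intro n m
  simp only [pt, Finsupp.zero_apply, add_zero]
  rw [← mul_smul, add_comm n 1, zpow_add, zpow_one]

theorem exists_subgroup_two_torsion [FaithfulSMul G X]
    (hmono : ∀ g : G, StrictMono (fun x : X => g • x)) (t a : G) (p q : X)
    (hpq : p < q) (hqt : q < t • p) (hqa : q < a • q)
    (ha : ∀ x : X, x ≤ p ∨ t • p ≤ x → a • x = x) :
    ∃ H : Subgroup G, H.FG ∧ ∃ (φ : H →* Multiplicative (ZMod 2)) (g x y : H),
      g * g = x * y * x⁻¹ * y⁻¹ ∧ φ g ≠ 1 := by
  classical
  have hfix : ∀ (x : X), a • x = x → ∀ m : ℤ, a ^ m • x = x := fun x hx m =>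
    (MulAction.mem_stabilizer_iff).1
      (Subgroup.zpow_mem (MulAction.stabilizer G x) ((MulAction.mem_stabilizer_iff).2 hx) m)
  have hlow : ∀ m : ℤ, p < a ^ m • q := fun m => by
    have := hmono (a ^ m) hpq
    simpa [hfix p (ha p (Or.inl le_rfl)) m] using this
  have hhigh : ∀ m : ℤ, a ^ m • q < t • p := fun m => by
    have := hmono (a ^ m) hqt
    simpa [hfix (t • p) (ha _ (Or.inr le_rfl)) m] using this
  have hstep : ∀ (g : G) (x : X), x < g • x → StrictMono (fun n : ℤ => g ^ n • x) := by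
    intro g x hx
    apply strictMono_int_of_lt_succ
    intro n
    have := hmono (g ^ n) hx
    simpa [zpow_add, mul_smul] using this
  have hA := hstep a q hqa
  have hT := hstep t p (hpq.trans hqt)
  have hlo : ∀ n m, t ^ n • p < pt t a q n m := fun n m => hmono (t ^ n) (hlow m)
  have hhi : ∀ n m, pt t a q n m < t ^ (n + 1) • p := fun n m => by
    have := hmono (t ^ n) (hhigh m)
    simpa [zpow_add, mul_smul, pt] using this
  have hinj : ∀ n m n' m', pt t a q n m = pt t a q n' m' → n = n' ∧ m = m' := by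
    intro n m n' m' h
    have h1 : n < n' + 1 := hT.lt_iff_lt.1 ((hlo n m).trans (h ▸ hhi n' m'))
    have h2 : n' < n + 1 := hT.lt_iff_lt.1 ((hlo n' m').trans (h ▸ hhi n m))
    have h3 : n = n' := by omega
    subst h3
    exact ⟨rfl, hA.injective (MulAction.injective (t ^ n) h)⟩
  have huniq : ∀ {g : G} {k k' : ℤ} {f f' : ℤ →₀ ℤ}, Rel t a q g k f → Rel t a q g k' f' →
      f = f' := by
    intro g k k' f f' h h'
    ext n
    have := (hinj _ _ _ _ ((h n 0).symm.trans (h' n 0))).2
    simpa using this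
  have hrela : Rel t a q a 0 (Finsupp.single 0 1) := by
    intro n m
    rcases lt_trichotomy n 0 with hn | rfl | hn
    · rw [ha _ (Or.inl _), Finsupp.single_eq_of_ne hn.ne, add_zero, add_zero]
      have h1 := hT.monotone (show n + 1 ≤ 0 by omega)
      simp only [zpow_zero, one_smul] at h1
      exact (hhi n m).le.trans h1
    · simp only [pt, zpow_zero, one_smul, add_zero, Finsupp.single_eq_same]
      rw [← mul_smul, add_comm m 1, zpow_add, zpow_one]
    · rw [ha _ (Or.inr _), Finsupp.single_eq_of_ne hn.ne', add_zero, add_zero]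
      have h1 := hT.monotone (show 1 ≤ n by omega)
      simp only [zpow_one] at h1
      exact h1.trans (hlo n m).le
  let H₀ : Subgroup G :=
    { carrier := {g | ∃ k f, Rel t a q g k f ∧ Even (tot f)}
      one_mem' := ⟨0, 0, rel_one t a q, by simp⟩
      mul_mem' := by
        rintro g g' ⟨k, f, h, he⟩ ⟨k', f', h', he'⟩
        refine ⟨_, _, h.mul h', ?_⟩
        rw [map_add, tot_shift]
        exact he'.add he
      inv_mem' := by
        rintro g ⟨k, f, h, he⟩
        refine ⟨_, _, h.inv, ?_⟩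
        rw [map_neg, tot_shift]
        exact he.neg }
  have hmem : ∀ g : H₀, ∃ f, ∃ k, Rel t a q g k f ∧ Even (tot f) := fun g => by
    obtain ⟨k, f, h⟩ := g.2
    exact ⟨f, k, h⟩
  choose F K hFK hEv using hmem
  let φ₀ : H₀ →* Multiplicative (ZMod 2) :=
    MonoidHom.mk' (fun g => Multiplicative.ofAdd ((mom (F g) : ℤ) : ZMod 2)) (by
      intro g g'
      have h1 : F (g * g') = F g' + shift (K g') (F g) :=
        huniq (hFK (g * g')) ((hFK g).mul (hFK g'))
      obtain ⟨r, hr⟩ := hEv g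
      rw [← ofAdd_add, h1, map_add, mom_shift, hr]
      congr 1
      push_cast
      have h2 : (2 : ZMod 2) = 0 := rfl
      linear_combination (-(K g' : ZMod 2) * r) * h2)
  have hb := (((rel_t t a q).mul hrela).mul (rel_t t a q).inv).mul hrela.inv
  have hbtot : tot (-shift (-0) (Finsupp.single 0 1) + shift (-0)
      (-shift (-1) 0 + shift (-1) (Finsupp.single 0 1 + shift 0 0))) = 0 := by
    simp only [map_add, map_neg, tot_shift, map_zero]
    simp [tot]
  have hbmom : mom (-shift (-0) (Finsupp.single 0 1) + shift (-0)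
      (-shift (-1) 0 + shift (-1) (Finsupp.single 0 1 + shift 0 0))) = 1 := by
    simp only [map_add, map_neg, mom_shift, tot_shift, map_zero]
    simp [tot, mom]
  have hbmem : t * a * t⁻¹ * a⁻¹ ∈ H₀ := ⟨_, _, hb, by rw [hbtot]; simp⟩
  have htmem : t ∈ H₀ := ⟨_, _, rel_t t a q, by simp⟩
  have ha2mem : a * a ∈ H₀ := ⟨_, _, hrela.mul hrela, by
    rw [map_add, tot_shift]; exact ⟨_, rfl⟩⟩
  have hcomm : (t * a * t⁻¹) * a = a * (t * a * t⁻¹) := by
    have ha' : ∀ x : X, x ≤ t • p → (t * a * t⁻¹) • x = x := by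
      intro x hx
      have h1 : t⁻¹ • x ≤ p := by
        have := (hmono t⁻¹).monotone hx
        simpa using this
      rw [mul_smul, mul_smul, ha _ (Or.inl h1), smul_inv_smul]
    apply FaithfulSMul.eq_of_smul_eq_smul (α := X)
    intro x
    rw [mul_smul, mul_smul a]
    rcases le_total x (t • p) with hx | hx
    · have h1 : a • x ≤ t • p := by
        have := (hmono a).monotone hx
        simpa [ha _ (Or.inr le_rfl)] using this
      rw [ha' _ h1, ha' _ hx]
    · have h1 : t • p ≤ (t * a * t⁻¹) • x := by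
        have : (t * a * t⁻¹) • t • p ≤ (t * a * t⁻¹) • x := (hmono (t * a * t⁻¹)).monotone hx
        rwa [ha' _ le_rfl] at this
      rw [ha _ (Or.inr hx), ha _ (Or.inr h1)]
  let H : Subgroup G := Subgroup.closure {t, a * a, t * a * t⁻¹ * a⁻¹}
  have hle : H ≤ H₀ := by
    rw [Subgroup.closure_le]
    rintro g (rfl | rfl | rfl)
    · exact htmem
    · exact ha2mem
    · exact hbmem
  refine ⟨H, ⟨{t, a * a, t * a * t⁻¹ * a⁻¹}, by simp [H]⟩, φ₀.comp (Subgroup.inclusion hle),
    ⟨t * a * t⁻¹ * a⁻¹, Subgroup.subset_closure (by simp)⟩,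
    ⟨t, Subgroup.subset_closure (by simp)⟩, ⟨a * a, Subgroup.subset_closure (by simp)⟩, ?_, ?_⟩
  · apply Subtype.ext
    change t * a * t⁻¹ * a⁻¹ * (t * a * t⁻¹ * a⁻¹) = t * (a * a) * t⁻¹ * (a * a)⁻¹
    have h1 : a⁻¹ * (t * a * t⁻¹) = (t * a * t⁻¹) * a⁻¹ := by
      rw [inv_mul_eq_iff_eq_mul, ← mul_assoc, ← hcomm, mul_inv_cancel_right]
    calc t * a * t⁻¹ * a⁻¹ * (t * a * t⁻¹ * a⁻¹)
        = t * a * t⁻¹ * (a⁻¹ * (t * a * t⁻¹)) * a⁻¹ := by group
      _ = t * a * t⁻¹ * ((t * a * t⁻¹) * a⁻¹) * a⁻¹ := by rw [h1]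
      _ = t * (a * a) * t⁻¹ * (a * a)⁻¹ := by group
  · change Multiplicative.ofAdd ((mom (F ⟨t * a * t⁻¹ * a⁻¹, hbmem⟩) : ℤ) : ZMod 2) ≠ 1
    rw [huniq (hFK ⟨t * a * t⁻¹ * a⁻¹, hbmem⟩) hb, hbmom]
    decide

end

end Pool.Agent.Lib.MP_24b811_al
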