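import Pool.Agent.Lib.MP_24b811_al.Defs
import Pool.Agent.Lib.MP_24b811_al.Lamp

/-!
Two explicit elements of Thompson's group F and the resulting subgroup with 2-torsion in its
abelianisation.
-/

namespace Pool.Agent.Lib.MP_24b811_al

open unitInterval

/-- The restriction to `[0,1]` of a monotone function fixing `0` and `1`. -/
def restr (f : ℝ → ℝ) (hm : StrictMono f) (h0 : f 0 = 0) (h1 : f 1 = 1) (x : I) : I :=
  ⟨f x, by rw [← h0]; exact hm.monotone x.2.1, by rw [← h1]; exact hm.monotone x.2.2⟩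

theorem restr_strictMono (f : ℝ → ℝ) (hm : StrictMono f) (h0 : f 0 = 0) (h1 : f 1 = 1) :
    StrictMono (restr f hm h0 h1) := fun _ _ h => hm h

theorem restr_surjective (f : ℝ → ℝ) (hm : StrictMono f) (hc : Continuous f) (h0 : f 0 = 0)
    (h1 : f 1 = 1) : Function.Surjective (restr f hm h0 h1) := by
  intro y
  have h := intermediate_value_Icc (zero_le_one' ℝ) hc.continuousOn
  rw [h0, h1] at h
  obtain ⟨x, hx, hxy⟩ := h y.2
  exact ⟨⟨x, hx⟩, Subtype.ext hxy⟩

/-- The homeomorphism of `[0,1]` defined by such a function. -/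
noncomputable def mkHomeo (f : ℝ → ℝ) (hm : StrictMono f) (hc : Continuous f) (h0 : f 0 = 0)
    (h1 : f 1 = 1) : I ≃ₜ I :=
  ((restr_strictMono f hm h0 h1).orderIsoOfSurjective _
    (restr_surjective f hm hc h0 h1)).toHomeomorph

theorem mkHomeo_apply (f : ℝ → ℝ) (hm : StrictMono f) (hc : Continuous f) (h0 : f 0 = 0)
    (h1 : f 1 = 1) (x : I) : (mkHomeo f hm hc h0 h1 x : ℝ) = f x := rfl

/-- The function defining `t`. -/
noncomputable def tf (x : ℝ) : ℝ := min (2 * x) (min (x + 1 / 4) (x / 2 + 1 / 2))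

/-- The function defining `a`. -/
noncomputable def af (x : ℝ) : ℝ :=
  max x (min (2 * x - 1 / 4) (min (x + 1 / 16) (x / 2 + 1 / 4)))

theorem tf_strictMono : StrictMono tf := fun x y h =>
  min_lt_min (by linarith) (min_lt_min (by linarith) (by linarith))

theorem af_strictMono : StrictMono af := fun x y h =>
  max_lt_max h (min_lt_min (by linarith) (min_lt_min (by linarith) (by linarith)))

theorem tf_continuous : Continuous tf := by unfold tf; fun_prop

theorem af_continuous : Continuous af := by unfold af; fun_prop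

theorem tf_1 {x : ℝ} (h : x ≤ 1 / 4) : tf x = 2 * x :=
  min_eq_left (le_min (by linarith) (by linarith))

theorem tf_2 {x : ℝ} (h : 1 / 4 ≤ x) (h' : x ≤ 1 / 2) : tf x = x + 1 / 4 := by
  unfold tf
  rw [min_eq_left (show x + 1 / 4 ≤ x / 2 + 1 / 2 by linarith), min_eq_right (by linarith)]

theorem tf_3 {x : ℝ} (h : 1 / 2 ≤ x) : tf x = x / 2 + 1 / 2 := by
  unfold tf
  rw [min_eq_right (show x / 2 + 1 / 2 ≤ x + 1 / 4 by linarith), min_eq_right (by linarith)]

theorem af_1 {x : ℝ} (h : x ≤ 1 / 4) : af x = x :=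
  max_eq_left ((min_le_left _ _).trans (by linarith))

theorem af_2 {x : ℝ} (h : 1 / 4 ≤ x) (h' : x ≤ 5 / 16) : af x = 2 * x - 1 / 4 := by
  unfold af
  rw [min_eq_left (le_min (by linarith) (by linarith)), max_eq_right (by linarith)]

theorem af_3 {x : ℝ} (h : 5 / 16 ≤ x) (h' : x ≤ 3 / 8) : af x = x + 1 / 16 := by
  unfold af
  rw [min_eq_left (show x + 1 / 16 ≤ x / 2 + 1 / 4 by linarith), min_eq_right (by linarith),
    max_eq_right (by linarith)]

theorem af_4 {x : ℝ} (h : 3 / 8 ≤ x) (h' : x ≤ 1 / 2) : af x = x / 2 + 1 / 4 := by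
  unfold af
  rw [min_eq_right (show x / 2 + 1 / 4 ≤ x + 1 / 16 by linarith), min_eq_right (by linarith),
    max_eq_right (by linarith)]

theorem af_5 {x : ℝ} (h : 1 / 2 ≤ x) : af x = x :=
  max_eq_left ((min_le_right _ _).trans ((min_le_right _ _).trans (by linarith)))

/-- The element `t` as a homeomorphism. -/
noncomputable def tH : I ≃ₜ I :=
  mkHomeo tf tf_strictMono tf_continuous (by rw [tf_1 (by norm_num)]; norm_num)
    (by rw [tf_3 (by norm_num)]; norm_num)

/-- The element `a` as a homeomorphism. -/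
noncomputable def aH : I ≃ₜ I :=
  mkHomeo af af_strictMono af_continuous (af_1 (by norm_num)) (af_5 (by norm_num))

theorem tH_apply (x : I) : (tH x : ℝ) = tf x := rfl

theorem aH_apply (x : I) : (aH x : ℝ) = af x := rfl

theorem tH_mem : IsThompsonF tH := by
  refine ⟨fun _ _ h => tf_strictMono h, {1 / 4, 1 / 2}, ?_, ?_⟩
  · intro b hb
    simp only [Finset.mem_insert, Finset.mem_singleton] at hb
    rcases hb with rfl | rfl
    · exact ⟨1, 2, by norm_num⟩
    · exact ⟨1, 1, by norm_num⟩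
  · intro x y hxy hB
    have hxy' : (x : ℝ) < y := hxy
    have h1 := hB (1 / 4) (by simp)
    have h2 := hB (1 / 2) (by simp)
    simp only [not_and_or, not_lt] at h1 h2
    simp only [tH_apply, ← Subtype.coe_le_coe]
    rcases h1 with h1 | h1
    · rcases h2 with h2 | h2
      · refine ⟨-1, fun z hxz hzy => ?_⟩
        rw [tf_3 h2, tf_3 (h2.trans hxz)]; norm_num; ring
      · refine ⟨0, fun z hxz hzy => ?_⟩
        rw [tf_2 h1 (by linarith), tf_2 (h1.trans hxz) (by linarith)]; norm_num; ring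
    · refine ⟨1, fun z hxz hzy => ?_⟩
      rw [tf_1 (x := x) (by linarith), tf_1 (x := z) (by linarith)]; norm_num; ring

theorem aH_mem : IsThompsonF aH := by
  refine ⟨fun _ _ h => af_strictMono h, {1 / 4, 5 / 16, 3 / 8, 1 / 2}, ?_, ?_⟩
  · intro b hb
    simp only [Finset.mem_insert, Finset.mem_singleton] at hb
    rcases hb with rfl | rfl | rfl | rfl
    · exact ⟨1, 2, by norm_num⟩
    · exact ⟨5, 4, by norm_num⟩
    · exact ⟨3, 3, by norm_num⟩
    · exact ⟨1, 1, by norm_num⟩
  · intro x y hxy hB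
    have hxy' : (x : ℝ) < y := hxy
    have h1 := hB (1 / 4) (by simp)
    have h2 := hB (5 / 16) (by simp)
    have h3 := hB (3 / 8) (by simp)
    have h4 := hB (1 / 2) (by simp)
    simp only [not_and_or, not_lt] at h1 h2 h3 h4
    simp only [aH_apply, ← Subtype.coe_le_coe]
    rcases h1 with h1 | h1
    · rcases h2 with h2 | h2
      · rcases h3 with h3 | h3
        · rcases h4 with h4 | h4
          · refine ⟨0, fun z hxz hzy => ?_⟩
            rw [af_5 h4, af_5 (h4.trans hxz)]; norm_num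
          · refine ⟨-1, fun z hxz hzy => ?_⟩
            rw [af_4 h3 (by linarith), af_4 (h3.trans hxz) (by linarith)]; norm_num; ring
        · refine ⟨0, fun z hxz hzy => ?_⟩
          rw [af_3 h2 (by linarith), af_3 (h2.trans hxz) (by linarith)]; norm_num; ring
      · refine ⟨1, fun z hxz hzy => ?_⟩
        rw [af_2 h1 (by linarith), af_2 (h1.trans hxz) (by linarith)]; norm_num; ring
    · refine ⟨0, fun z hxz hzy => ?_⟩
      rw [af_1 (x := x) (by linarith), af_1 (x := z) (by linarith)]; norm_num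

/-- The action of F on `[0,1]`. -/
@[reducible] def thompsonAction : MulAction ThompsonF I where
  smul g x := g.1 x
  one_smul _ := rfl
  mul_smul _ _ _ := rfl

theorem exists_subgroup_thompson :
    ∃ H : Subgroup ThompsonF, H.FG ∧ ∃ (φ : H →* Multiplicative (ZMod 2)) (g x y : H),
      g * g = x * y * x⁻¹ * y⁻¹ ∧ φ g ≠ 1 := by
  let _ := thompsonAction
  have : FaithfulSMul ThompsonF I :=
    ⟨fun {g h} hgh => Subtype.ext (Homeomorph.ext hgh)⟩
  have ht : ((⟨tH, tH_mem⟩ : ThompsonF) • (⟨1 / 4, by norm_num, by norm_num⟩ : I) : I) =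
      ⟨1 / 2, by norm_num, by norm_num⟩ := by
    apply Subtype.ext
    change tf (1 / 4) = 1 / 2
    rw [tf_1 le_rfl]; norm_num
  refine exists_subgroup_two_torsion (X := I) (fun g => g.2.1) ⟨tH, tH_mem⟩ ⟨aH, aH_mem⟩
    ⟨1 / 4, by norm_num, by norm_num⟩ ⟨3 / 8, by norm_num, by norm_num⟩ ?_ ?_ ?_ ?_
  · change (1 / 4 : ℝ) < 3 / 8
    norm_num
  · rw [ht]
    change (3 / 8 : ℝ) < 1 / 2
    norm_num
  · change (3 / 8 : ℝ) < af (3 / 8)
    rw [af_4 le_rfl (by norm_num)]; norm_num
  · intro x hx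
    rw [ht] at hx
    apply Subtype.ext
    change af x = x
    rcases hx with hx | hx
    · exact af_1 hx
    · exact af_5 hx

end Pool.Agent.Lib.MP_24b811_al
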