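import Pool.Agent.Lib.MP_3e9be7_al.H96Pres

/-!
# Algebraic lemmas: quotients of the presented group, free subgroups, splittings over characters
-/

set_option autoImplicit false

namespace Pool.Agent.Lib.MP_24b811_al.Fp

open Pool.Agent.Lib.MP_3e9be7_al

section quot

variable {G : Type*} [Group G] {x : ℕ → G}

lemma shift_pow (hx : ∀ i j, i < j → (x i)⁻¹ * x j * x i = x (j + 1)) {i j : ℕ} (h : i < j)
    (n : ℕ) : (x i ^ n)⁻¹ * x j * x i ^ n = x (j + n) := by
  induction n with
  | zero => simp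
  | succ n ih =>
    rw [← add_assoc, ← hx i (j + n) (by omega), ← ih, pow_succ]
    group

lemma split_pos (i : ℕ) (l : List ℕ) (hs : l.Pairwise (· ≤ ·)) (hl : ∀ j ∈ l, i ≤ j) :
    ∃ (c : ℕ) (m : List ℕ), pos x l = x i ^ c * pos x m ∧ ∀ j ∈ m, i < j := by
  induction l with
  | nil => exact ⟨0, [], by simp, by simp⟩
  | cons j l ih =>
    rw [List.pairwise_cons] at hs
    rcases (hl j (by simp)).eq_or_lt with rfl | h
    · obtain ⟨c, m, h1, h2⟩ := ih hs.2 hs.1
      exact ⟨c + 1, m, by rw [pos_cons, h1, pow_succ', mul_assoc], h2⟩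
    · refine ⟨0, j :: l, by simp, fun k hk => ?_⟩
      rcases List.mem_cons.1 hk with rfl | hk
      · exact h
      · exact h.trans_le (hs.1 k hk)

lemma commute_pos {y : G} (l : List ℕ) (h : ∀ j ∈ l, Commute y (x j)) : Commute y (pos x l) := by
  induction l with
  | nil => exact Commute.one_right y
  | cons j l ih =>
    rw [pos_cons]
    exact (h j (by simp)).mul_right (ih fun k hk => h k (by simp [hk]))

lemma commute_of_head (hx : ∀ i j, i < j → (x i)⁻¹ * x j * x i = x (j + 1)) {i : ℕ}
    {l l' : List ℕ} (hs : (i :: l).Pairwise (· ≤ ·)) (hl : ∀ j ∈ l', i < j)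
    (e : pos x (i :: l) = pos x l') : Commute (x 0) (x 1) := by
  rw [List.pairwise_cons] at hs
  obtain ⟨c, m, h1, h2⟩ := split_pos (x := x) i l hs.2 hs.1
  have hy : ∀ j, i < j → Commute (x i * (x i * (x (i + 1))⁻¹) * (x i)⁻¹) (x j) := by
    intro j hj
    have e1 := hx i j hj
    have e2 := hx i (j + 1) (by omega)
    have e3 := hx (i + 1) (j + 1) (by omega)
    have e4 : (x (i + 1))⁻¹ * x (j + 1) = (x i)⁻¹ * x (j + 1) * x i * (x (i + 1))⁻¹ := by
      rw [e2, ← e3]
      group
    have e5 : x j = x i * x (j + 1) * (x i)⁻¹ := by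
      rw [← e1]
      group
    change _ = _
    calc x i * (x i * (x (i + 1))⁻¹) * (x i)⁻¹ * x j
        = x i * x i * ((x (i + 1))⁻¹ * x (j + 1)) * (x i)⁻¹ := by rw [e5]; group
      _ = x j * (x i * (x i * (x (i + 1))⁻¹) * (x i)⁻¹) := by rw [e4, e5]; group
  have e1 : x i ^ (c + 1) = pos x l' * (pos x m)⁻¹ := by
    rw [← e, pos_cons, h1, pow_succ']
    group
  have c1 : Commute (x i * (x i * (x (i + 1))⁻¹) * (x i)⁻¹) (x i ^ (c + 1)) := by
    rw [e1]
    exact (commute_pos l' fun j hj => hy j (hl j hj)).mul_right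
      (commute_pos m fun j hj => hy j (h2 j hj)).inv_right
  have c0 : Commute (x i) (x i ^ (c + 1)) := (Commute.refl _).pow_right _
  have c2 : Commute (x (i + 1)) (x i ^ (c + 1)) := by
    have := (((c0.inv_left.mul_left c0.inv_left).mul_left c1).mul_left c0).inv_left
    have e : ((x i)⁻¹ * (x i)⁻¹ * (x i * (x i * (x (i + 1))⁻¹) * (x i)⁻¹) * x i)⁻¹ =
        x (i + 1) := by group
    rwa [e] at this
  have p1 : x (i + 1 + (c + 1)) = x (i + 1) := by
    rw [← shift_pow hx (Nat.lt_succ_self i), mul_assoc, c2.eq]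
    group
  have p2 : x (i + 1 + (c + 1) + (c + 1)) = x (i + 1) := by
    rw [← shift_pow hx (i := i) (by omega), p1, shift_pow hx (Nat.lt_succ_self i), p1]
  have p3 : x (i + 1 + (c + 1) + (c + 1) + 1) = x (i + 2) := by
    rw [← hx i _ (by omega), p2, hx i _ (Nat.lt_succ_self i)]
  have p4 := hx (i + 2) (i + 1 + (c + 1) + (c + 1)) (by omega)
  rw [p3, p2] at p4
  have p5 : x (1 + i) = x (2 + i) := by
    rw [add_comm 1, add_comm 2]
    calc x (i + 1) = x (i + 2) * ((x (i + 2))⁻¹ * x (i + 1) * x (i + 2)) * (x (i + 2))⁻¹ := by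
          group
      _ = x (i + 2) := by rw [p4]; group
  rw [← shift_pow hx (i := 0) (by omega), ← shift_pow hx (i := 0) (by omega), mul_left_inj,
    mul_right_inj, ← hx 0 1 (by omega)] at p5
  change _ = _
  calc x 0 * x 1 = x 0 * ((x 0)⁻¹ * x 1 * x 0) := by rw [← p5]
    _ = x 1 * x 0 := by group

lemma pos_inj (hx : ∀ i j, i < j → (x i)⁻¹ * x j * x i = x (j + 1)) (hn : ¬ Commute (x 0) (x 1))
    (l : List ℕ) : ∀ l' : List ℕ, l.Pairwise (· ≤ ·) → l'.Pairwise (· ≤ ·) →
      pos x l = pos x l' → l = l' := by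
  induction l with
  | nil =>
    intro l' _ h2 e
    cases l' with
    | nil => rfl
    | cons j l' => exact absurd (commute_of_head hx h2 (by simp) e.symm) hn
  | cons i l ih =>
    intro l' h1 h2 e
    cases l' with
    | nil => exact absurd (commute_of_head hx h1 (by simp) e) hn
    | cons j l' =>
      have key : ∀ {i j : ℕ} {l' : List ℕ}, i < j → (j :: l').Pairwise (· ≤ ·) →
          ∀ k ∈ j :: l', i < k := fun h h2 k hk => by
        rcases List.mem_cons.1 hk with rfl | hk
        · exact h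
        · exact h.trans_le ((List.pairwise_cons.1 h2).1 k hk)
      rcases lt_trichotomy i j with h | rfl | h
      · exact absurd (commute_of_head hx h1 (key h h2) e) hn
      · rw [pos_cons, pos_cons, mul_right_inj] at e
        rw [ih l' (List.pairwise_cons.1 h1).2 (List.pairwise_cons.1 h2).2 e]
      · exact absurd (commute_of_head hx h2 (key h h1) e.symm) hn

/-- Two elements that do not commute and satisfy the two relations generate a copy of the
presented group. -/
theorem exists_embed {A B : G} (hn : ¬ Commute A B) (h1 : Commute A (B * A * B * (B * A)⁻¹))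
    (h2 : Commute A (B * A * (B * A * B * (B * A)⁻¹) * (B * A)⁻¹)) :
    ∃ f : MP_3e9be7_al.ThompsonF →* G, Function.Injective f := by
  let a : G := (B * A)⁻¹
  let b : G := B⁻¹
  have k1 : (a * b⁻¹) * (a⁻¹ * b * a) * (a * b⁻¹)⁻¹ * (a⁻¹ * b * a)⁻¹ = 1 := by
    have e1 : a * b⁻¹ = A⁻¹ := by simp only [a, b]; group
    have e2 : a⁻¹ * b * a = (B * A * B * (B * A)⁻¹)⁻¹ := by simp only [a, b]; group
    rw [e1, e2, h1.inv_inv.eq]
    group
  have k2 : (a * b⁻¹) * (a⁻¹ * a⁻¹ * b * a * a) * (a * b⁻¹)⁻¹ * (a⁻¹ * a⁻¹ * b * a * a)⁻¹ = 1 := by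
    have e1 : a * b⁻¹ = A⁻¹ := by simp only [a, b]; group
    have e2 : a⁻¹ * a⁻¹ * b * a * a = (B * A * (B * A * B * (B * A)⁻¹) * (B * A)⁻¹)⁻¹ := by
      simp only [a, b]; group
    rw [e1, e2, h2.inv_inv.eq]
    group
  have hr : ∀ r ∈ thompsonRels, FreeGroup.lift (fun i : Fin 2 => if i = 0 then a else b) r = 1 := by
    intro r hr
    rcases hr with rfl | rfl
    · simpa using k1
    · simpa using k2
  have hg : ∀ n, PresentedGroup.toGroup hr (xF n) = gen a b n := by
    intro n
    cases n <;> simp [xF, gen, PresentedGroup.toGroup.of]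
  have hp : ∀ l, PresentedGroup.toGroup hr (pos xF l) = pos (gen a b) l := by
    intro l
    induction l with
    | nil => simp [pos]
    | cons i l ih => rw [pos_cons, pos_cons, map_mul, hg, ih]
  refine ⟨PresentedGroup.toGroup hr, (injective_iff_map_eq_one _).2 fun g hg' => ?_⟩
  obtain ⟨l, l', s1, s2, rfl⟩ := normal_form g
  rw [map_mul, map_inv, hp, hp, mul_inv_eq_one] at hg'
  rw [pos_inj (gen_rel k1 k2) ?_ l l' s1 s2 hg', mul_inv_cancel]
  intro c
  apply hn
  have c' : Commute a b := by simpa [gen] using c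
  have := (c'.mul_left (Commute.refl b).inv_left).inv_inv
  have e1 : (a * b⁻¹)⁻¹ = A := by simp only [a, b]; group
  have e2 : b⁻¹ = B := inv_inv B
  rwa [e1, e2] at this

end quot

/-- Two commuting elements of a free group have a common power. -/
lemma free_commute {α : Type} {x y : FreeGroup α} (h : Commute x y) (hy : y ≠ 1) :
    ∃ i j : ℤ, i ≠ 0 ∧ x ^ i = y ^ j := by
  classical
  let K : Subgroup (FreeGroup α) := Subgroup.closure {x, y}
  have hK : ∀ a ∈ K, ∀ b ∈ K, a * b = b * a := by
    intro a ha b hb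
    have h1 : K ≤ Subgroup.centralizer {x, y} := by
      rw [Subgroup.closure_le]
      rintro p (rfl | rfl) q (rfl | rfl)
      exacts [rfl, h.eq.symm, h.eq, rfl]
    have h2 : K ≤ Subgroup.centralizer {b} := by
      rw [Subgroup.closure_le]
      intro p hp q hq
      rw [Set.mem_singleton_iff.1 hq]
      exact (h1 hb p hp).symm
    exact (h2 ha b rfl).symm
  have hs : Subsingleton (IsFreeGroup.Generators K) := by
    refine ⟨fun p q => ?_⟩
    by_contra hpq
    let f : K →* Equiv.Perm (Fin 3) :=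
      IsFreeGroup.lift fun r => if r = p then Equiv.swap 0 1 else Equiv.swap 1 2
    have e : (IsFreeGroup.of p : K) * IsFreeGroup.of q = IsFreeGroup.of q * IsFreeGroup.of p :=
      Subtype.ext (hK _ (Subtype.property _) _ (Subtype.property _))
    have := congrArg f e
    simp only [f, map_mul, IsFreeGroup.lift_of, if_pos, if_neg (Ne.symm hpq)] at this
    exact absurd this (by decide)
  have hc : ∃ g : K, ∀ k : K, ∃ n : ℤ, k = g ^ n := by
    rcases isEmpty_or_nonempty (IsFreeGroup.Generators K) with he | ⟨⟨p⟩⟩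
    · refine ⟨1, fun k => ⟨0, ?_⟩⟩
      have : MonoidHom.id K = 1 := IsFreeGroup.ext_hom fun a => he.elim a
      simpa using DFunLike.congr_fun this k
    · refine ⟨IsFreeGroup.of p, fun k => ?_⟩
      let f : K →* Multiplicative ℤ := IsFreeGroup.lift fun _ => Multiplicative.ofAdd 1
      have : MonoidHom.id K = (zpowersHom K (IsFreeGroup.of p)).comp f :=
        IsFreeGroup.ext_hom fun a => by simp [f, Subsingleton.elim a p]
      exact ⟨(f k).toAdd, by simpa using DFunLike.congr_fun this k⟩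
  obtain ⟨g, hg⟩ := hc
  obtain ⟨i, hi⟩ := hg ⟨x, Subgroup.subset_closure (by simp)⟩
  obtain ⟨j, hj⟩ := hg ⟨y, Subgroup.subset_closure (by simp)⟩
  have hi' : x = (g : FreeGroup α) ^ i := congrArg Subtype.val hi
  have hj' : y = (g : FreeGroup α) ^ j := congrArg Subtype.val hj
  refine ⟨j, i, fun e => hy (by rw [hj', e, zpow_zero]), ?_⟩
  rw [hi', hj', ← zpow_mul, ← zpow_mul, mul_comm]

section britton

open HNNExtension HNNExtension.NormalWord

variable {G : Type*} [Group G] {A B : Subgroup G} (φ : A ≃* B)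

/-- The letters of the reduced word attached to a word in `t` and `g t g⁻¹`. -/
def wl (g : G) : List (Bool × Bool) → List (ℤˣ × G)
  | [] => []
  | [p] => [(cond p.2 1 (-1), (cond p.1 g 1)⁻¹)]
  | p :: q :: l => (cond p.2 1 (-1), (cond p.1 g 1)⁻¹ * cond q.1 g 1) :: wl g (q :: l)

lemma wl_prod (g : G) (p : Bool × Bool) (l : List (Bool × Bool)) :
    (of (cond p.1 g 1) : HNNExtension G A B φ) *
      ((wl g (p :: l)).map fun x => t ^ (x.1 : ℤ) * of x.2).prod =
    ((p :: l).map fun x => cond x.2 (of (cond x.1 g 1) * t * (of (cond x.1 g 1))⁻¹)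
      (of (cond x.1 g 1) * t * (of (cond x.1 g 1))⁻¹ : HNNExtension G A B φ)⁻¹).prod := by
  induction l generalizing p with
  | nil =>
    obtain ⟨p1, p2⟩ := p
    cases p2 <;> simp [wl, mul_assoc]
  | cons q l ih =>
    rw [wl, List.map_cons, List.prod_cons, List.map_cons, List.prod_cons, ← ih q]
    obtain ⟨p1, p2⟩ := p
    cases p2 <;> simp [mul_assoc]

lemma wl_chain {g : G} (hA : g ∉ A) (hB : g ∉ B) (l : List (Bool × Bool))
    (h : FreeGroup.IsReduced l) :
    (wl g l).IsChain fun a b => a.2 ∈ toSubgroup A B a.1 → a.1 = b.1 := by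
  have hg : ∀ u : ℤˣ, g ∉ toSubgroup A B u := fun u => by
    rcases Int.units_eq_one_or u with rfl | rfl
    exacts [hA, hB]
  induction l with
  | nil => exact List.isChain_nil
  | cons p l ih =>
    cases l with
    | nil => exact List.isChain_singleton _
    | cons q l =>
      rw [FreeGroup.isReduced_cons_cons] at h
      have k : (cond p.1 g 1)⁻¹ * cond q.1 g 1 ∈ toSubgroup A B (cond p.2 1 (-1)) →
          (cond p.2 1 (-1) : ℤˣ) = cond q.2 1 (-1) := by
        intro hm
        obtain ⟨p1, p2⟩ := p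
        obtain ⟨q1, q2⟩ := q
        cases p1 <;> cases q1
        · rw [show p2 = q2 from h.1 rfl]
        · exact absurd (by simpa using hm) (hg _)
        · exact absurd (by simpa using hm) (hg _)
        · rw [show p2 = q2 from h.1 rfl]
      have ih' := ih h.2
      cases l with
      | nil => exact List.isChain_cons_cons.2 ⟨k, ih'⟩
      | cons r l => exact List.isChain_cons_cons.2 ⟨k, ih'⟩

lemma free_hnn {g : G} (hA : g ∉ A) (hB : g ∉ B) : Function.Injective
    (FreeGroup.lift fun i : Bool =>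
      (of (cond i g 1) * t * (of (cond i g 1))⁻¹ : HNNExtension G A B φ)) := by
  refine (injective_iff_map_eq_one _).2 fun w hw => ?_
  by_contra hne
  obtain ⟨p, l, e⟩ := List.exists_cons_of_ne_nil (mt FreeGroup.toWord_eq_nil_iff.1 hne)
  have hr : FreeGroup.IsReduced (p :: l) := e ▸ FreeGroup.isReduced_toWord
  let W : ReducedWord G A B := ⟨cond p.1 g 1, wl g (p :: l), wl_chain hA hB _ hr⟩
  have h1 : W.prod φ = 1 := by
    rw [← hw, ← FreeGroup.mk_toWord (x := w), e, FreeGroup.lift_mk]
    exact wl_prod φ g p l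
  have := ReducedWord.toList_eq_nil_of_mem_of_range φ W (h1 ▸ one_mem _)
  cases l <;> simp [W, wl] at this

end britton

end Pool.Agent.Lib.MP_24b811_al.Fp
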