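import Pool.Agent.Lib.MP_24b811_al.GcRect

/-!
# The arithmetic step: slopes along an orbit of a finitely generated subgroup of F
-/

set_option autoImplicit false

namespace Pool.Agent.Lib.MP_24b811_al.Fp

open unitInterval Filter Topology Set Gc

lemma dy_ev {d : ℝ} (h : IsDyadic d) : ∀ᶠ N : ℕ in atTop, ∃ m : ℤ, d = m / 2 ^ N := by
  obtain ⟨m, k, rfl⟩ := h
  filter_upwards [eventually_ge_atTop k] with N hN
  obtain ⟨j, rfl⟩ := Nat.exists_eq_add_of_le hN
  refine ⟨m * 2 ^ j, ?_⟩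
  push_cast
  rw [pow_add]
  field_simp

/-- Slopes are bounded and the affine pieces have bounded denominators. -/
def Pc (g : ThompsonF) (N : ℕ) : Prop :=
  ∀ x : I, 0 < x → sl false x g ≤ N ∧
    ∃ m : ℤ, ((g • x : I) : ℝ) - (2 : ℝ) ^ (sl false x g) * x = m / 2 ^ N

lemma piece (g : ThompsonF) : ∀ᶠ N : ℕ in atTop, Pc g N := by
  obtain ⟨-, B, hB, hlin⟩ := g.2
  have hP : {p : I | p = 0 ∨ (p : ℝ) ∈ B}.Finite :=
    (finite_singleton (0 : I)).union (B.finite_toSet.preimage Subtype.val_injective.injOn)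
  have hE : ∀ᶠ N : ℕ in atTop, ∀ p ∈ {p : I | p = 0 ∨ (p : ℝ) ∈ B},
      sl true p g ≤ N ∧
        ∃ m : ℤ, ((g • p : I) : ℝ) - (2 : ℝ) ^ (sl true p g) * p = m / 2 ^ N := by
    rw [eventually_all_finite hP]
    intro p hp
    have hd : IsDyadic (p : ℝ) := by
      rcases hp with rfl | hp
      · exact isDyadic_zero
      · exact hB _ hp
    have h2 := dy_ev ((IsThompsonF.dyadic_apply g.2 p hd).sub (hd.zpow_mul (sl true p g)))
    filter_upwards [h2, eventually_ge_atTop (sl true p g).natAbs] with N k1 k2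
    exact ⟨by omega, k1⟩
  filter_upwards [hE] with N hN x hx
  obtain ⟨p, p1, -, p3, p4⟩ := exists_last_below B hB x hx
  obtain ⟨k, hk⟩ := hlin p x p1 p3
  have e1 : sl false x g = k := (gm_left (f := g) p1 le_rfl hk).sl_eq (nb_left hx)
  have e2 : sl true p g = k :=
    (gm_right (f := g) le_rfl p1 hk).sl_eq (nb_right (p1.trans_le x.2.2))
  obtain ⟨k1, m, k2⟩ := hN p (p4.imp id And.left)
  rw [e2] at k1 k2
  rw [e1]
  refine ⟨k1, m, ?_⟩
  rw [← k2, smul_def, smul_def, hk x p1.le le_rfl]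
  ring

/-- `q x` is an integer multiple of `2 ^ k`. -/
def Dv (q : ℕ) (x : I) (k : ℤ) : Prop := ∃ m : ℤ, (q : ℝ) * x = m * (2 : ℝ) ^ k

lemma zpow_int {k l : ℤ} (h : l ≤ k) : ∃ j : ℤ, (2 : ℝ) ^ k = j * (2 : ℝ) ^ l := by
  obtain ⟨n, rfl⟩ := Int.le.dest h
  exact ⟨2 ^ n, by
    rw [zpow_add₀ (by norm_num : (2 : ℝ) ≠ 0), zpow_natCast]
    push_cast
    ring⟩

lemma Dv.mono {q : ℕ} {x : I} {k l : ℤ} (h : Dv q x k) (hl : l ≤ k) : Dv q x l := by
  obtain ⟨m, hm⟩ := h
  obtain ⟨j, hj⟩ := zpow_int hl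
  exact ⟨m * j, by rw [hm, hj]; push_cast; ring⟩

lemma Dv.finite {q : ℕ} (hq : 0 < q) (k : ℤ) : {x : I | Dv q x k}.Finite := by
  have hq' : (0 : ℝ) < q := by exact_mod_cast hq
  have h2 : (0 : ℝ) < (2 : ℝ) ^ k := by positivity
  have hinj : Function.Injective fun x : I => (q : ℝ) * x / (2 : ℝ) ^ k := fun x y h =>
    Subtype.ext (mul_left_cancel₀ hq'.ne' ((div_left_inj' h2.ne').1 h))
  refine (((finite_Icc (0 : ℤ) ⌈(q : ℝ) / (2 : ℝ) ^ k⌉).image (fun m : ℤ => (m : ℝ))).preimage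
    hinj.injOn).subset ?_
  rintro x ⟨m, hm⟩
  have e : (m : ℝ) = (q : ℝ) * x / (2 : ℝ) ^ k := by rw [hm]; field_simp
  refine ⟨m, ⟨?_, ?_⟩, e⟩
  · have : (0 : ℝ) ≤ m := e ▸ div_nonneg (mul_nonneg hq'.le x.2.1) h2.le
    exact_mod_cast this
  · have : (m : ℝ) ≤ ⌈(q : ℝ) / (2 : ℝ) ^ k⌉ := by
      refine le_trans ?_ (Int.le_ceil _)
      rw [e]
      exact div_le_div_of_nonneg_right (mul_le_of_le_one_right hq'.le x.2.2) h2.le
    exact_mod_cast this

lemma smul_pos (g : ThompsonF) {x : I} (hx : 0 < x) : 0 < g • x := by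
  have := g.2.1 hx
  rwa [← smul_def, fix_zero] at this

/-- Along the orbit of `c`, the denominator is controlled by the accumulated slope. -/
lemma orbit_bound {S : Set ThompsonF} (hS : S.Finite) {c : I} (hc : 0 < c) {q : ℕ} (hq : 0 < q)
    (hqc : Dv q c 0) (hw : ∀ b ∈ Subgroup.closure S, b • c = c → sl false c b = 0) :
    ∃ E : ℤ, ∀ b ∈ Subgroup.closure S, Dv q (b • c) (sl false c b - E) := by
  have hn := nb_left hc
  obtain ⟨N, hN⟩ : ∃ N : ℕ, ∀ g ∈ S, Pc g N ∧ Pc g⁻¹ N :=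
    ((eventually_all_finite hS).2 fun g _ => (piece g).and (piece g⁻¹)).exists
  obtain ⟨P, hP0, hP⟩ : ∃ P : ℤ, 0 ≤ P ∧ ∀ x ∈ {x : I | Dv q x (-2 * N)},
      ∀ b ∈ Subgroup.closure S, b • c = x → sl false c b ≤ P := by
    refine ((eventually_ge_atTop 0).and
      ((eventually_all_finite (Dv.finite hq (-2 * N))).2 fun x _ => ?_)).exists
    by_cases h : ∃ b0 ∈ Subgroup.closure S, b0 • c = x
    · obtain ⟨b0, h0, h1⟩ := h
      filter_upwards [eventually_ge_atTop (sl false c b0)] with P hP b hb h2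
      have e1 : (b0⁻¹ * b) • c = c := by rw [mul_smul, h2, ← h1, inv_smul_smul]
      have e2 := hw _ (Subgroup.mul_mem _ (Subgroup.inv_mem _ h0) hb) e1
      have e3 := sl_mul hn b0 (b0⁻¹ * b)
      rw [mul_inv_cancel_left, e1, e2] at e3
      omega
    · exact Eventually.of_forall fun P b hb h2 => absurd ⟨b, hb, h2⟩ h
  have step : ∀ g b : ThompsonF, Pc g N → b ∈ Subgroup.closure S →
      Dv q (b • c) (sl false c b - (P + 2 * N)) →
      Dv q ((g * b) • c) (sl false c (g * b) - (P + 2 * N)) := by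
    intro g b hg hb hD
    obtain ⟨k1, m, k2⟩ := hg (b • c) (smul_pos b hc)
    rw [sl_mul hn, mul_smul]
    have hle : sl false (b • c) g + sl false c b - (P + 2 * N) ≤ -(N : ℤ) := by
      by_contra hlt
      have := hP (b • c) (hD.mono (by omega)) b hb rfl
      omega
    obtain ⟨M, hM⟩ := hD
    obtain ⟨j, hj⟩ := zpow_int hle
    refine ⟨M + q * m * j, ?_⟩
    have e : ((g • b • c : I) : ℝ) =
        (2 : ℝ) ^ (sl false (b • c) g) * (b • c : I) + m * (2 : ℝ) ^ (-(N : ℤ)) := by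
      rw [zpow_neg, zpow_natCast, ← div_eq_mul_inv, ← k2]
      ring
    rw [e, hj, mul_add, mul_left_comm, hM, add_sub_assoc,
      zpow_add₀ (by norm_num : (2 : ℝ) ≠ 0)]
    push_cast
    ring
  refine ⟨P + 2 * N, fun b hb => ?_⟩
  induction hb using Subgroup.closure_induction_left with
  | one =>
    rw [one_smul, sl_one hn]
    exact hqc.mono (by omega)
  | mul_left g hg b hb ih => exact step g b (hN g hg).1 hb ih
  | inv_mul_cancel g hg b hb ih => exact step g⁻¹ b (hN g hg).2 hb ih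

lemma pow_between {t : ThompsonF} {a c y : I} (htc : t • c = c)
    (ht : ∀ y, a < y → y < c → y < t • y) (h1 : a < y) (h2 : y < c) (n : ℕ) :
    y ≤ t ^ n • y ∧ t ^ n • y < c := by
  induction n with
  | zero => simpa using h2
  | succ n ih =>
    rw [pow_succ', mul_smul]
    refine ⟨ih.1.trans (ht _ (h1.trans_le ih.1) ih.2).le, ?_⟩
    have := t.2.1 ih.2
    rwa [← smul_def, ← smul_def t c, htc] at this

lemma pow_beyond {t : ThompsonF} {a c y p : I} (ht : ∀ y, a < y → y < c → y < t • y)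
    (h1 : a < y) (hp : p < c) : ∃ n : ℕ, p < t ^ n • y := by
  by_contra h
  push Not at h
  have k1 : ∀ n : ℕ, t ^ n • y ≤ ⨆ n : ℕ, t ^ n • y := fun n =>
    le_iSup (fun n : ℕ => t ^ n • y) n
  have k2 : (⨆ n : ℕ, t ^ n • y) ≤ p := iSup_le h
  have k3 : a < ⨆ n : ℕ, t ^ n • y := h1.trans_le (by simpa using k1 0)
  have k4 := ht _ k3 (k2.trans_lt hp)
  have k5 : (⨆ n : ℕ, t ^ n • y) ≤ t⁻¹ • ⨆ n : ℕ, t ^ n • y := iSup_le fun n => by
    have := (t⁻¹).2.1.monotone (k1 (n + 1))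
    rwa [← smul_def, ← smul_def, pow_succ', mul_smul, inv_smul_smul] at this
  have k6 := t.2.1.monotone k5
  rw [← smul_def, ← smul_def, smul_inv_smul] at k6
  exact absurd k4 (not_lt.2 k6)

lemma conj_pow_mem {S : Set ThompsonF} {t b : ThompsonF}
    (hB : ∀ b ∈ Subgroup.closure S, t * b * t⁻¹ ∈ Subgroup.closure S)
    (hb : b ∈ Subgroup.closure S) (n : ℕ) : t ^ n * b * (t ^ n)⁻¹ ∈ Subgroup.closure S := by
  induction n with
  | zero => simpa using hb
  | succ n ih =>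
    have := hB _ ih
    rwa [show t * (t ^ n * b * (t ^ n)⁻¹) * t⁻¹ = t ^ (n + 1) * b * (t ^ (n + 1))⁻¹ by
      rw [pow_succ']; group] at this

lemma conj_smul {t b : ThompsonF} {c : I} (htc : t • c = c) (n : ℕ) :
    (t ^ n * b * (t ^ n)⁻¹) • c = t ^ n • b • c := by
  have h : t ^ n • c = c := by simpa using fix_zpow htc n
  rw [mul_smul, mul_smul, fix_inv h]

theorem arith {S : Set ThompsonF} (hS : S.Finite) {t β : ThompsonF} {a c : I} (htc : t • c = c)
    (ht : ∀ y, a < y → y < c → y < t • y)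
    (hB : ∀ b ∈ Subgroup.closure S, t * b * t⁻¹ ∈ Subgroup.closure S)
    (hw : ∀ b ∈ Subgroup.closure S, b • c = c → sl false c b = 0)
    (hβ : β ∈ Subgroup.closure S) (h1 : a < β • c) (h2 : β • c < c) : False := by
  have hc : 0 < c := (unitInterval.nonneg' (t := β • c)).trans_lt h2
  have hn := nb_left hc
  obtain ⟨p, p1, p2⟩ := (nhdsLT_basis_of_exists_lt ⟨0, hc⟩).mem_iff.1 (gm_sl false c t)
  have hsl : ∀ z : I, p < z → z < c → sl false z t = sl false c t := by
    intro z z1 z2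
    refine Gm.sl_eq (nb_left ((unitInterval.nonneg' (t := p)).trans_lt z1)) ?_
    filter_upwards [Ioo_mem_nhdsLT z1] with w hw
    rw [p2 ⟨hw.1, hw.2.trans z2⟩, p2 ⟨z1, z2⟩]
    ring
  obtain ⟨n0, hn0⟩ := pow_beyond ht h1 p1
  have hb0 := conj_pow_mem hB hβ n0
  have hy := pow_between htc ht h1 h2 n0
  rw [← conj_smul htc] at hn0 hy
  have h1' := h1.trans_le hy.1
  have h2' := hy.2
  generalize t ^ n0 * β * (t ^ n0)⁻¹ = b at hn0 hb0 h1' h2'
  clear hy
  have hτ : sl false c t ≠ 0 := by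
    intro h
    have k1 : ((t • b • c : I) : ℝ) = _ := p2 ⟨hn0, h2'⟩
    have k2 : ((b • c : I) : ℝ) < (t • b • c : I) := ht _ h1' h2'
    rw [h, htc] at k1
    simp at k1
    exact absurd k2 (by rw [k1]; exact lt_irrefl _)
  obtain ⟨q, hq, hqc⟩ : ∃ q : ℕ, 0 < q ∧ Dv q c 0 := by
    obtain ⟨N, hN⟩ := (piece t).exists
    obtain ⟨-, m, hm⟩ := hN c hc
    rw [htc] at hm
    have k1 : (1 : ℝ) - (2 : ℝ) ^ (sl false c t) ≠ 0 := fun e => hτ
      (zpow_right_injective₀ (by norm_num : (0 : ℝ) < 2) (by norm_num)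
        (show (2 : ℝ) ^ (sl false c t) = 2 ^ (0 : ℤ) by rw [zpow_zero]; linarith))
    have k2 : (c : ℝ) = (((m / 2 ^ N) / (1 - 2 ^ (sl false c t)) : ℚ) : ℝ) := by
      push_cast
      rw [eq_div_iff k1, ← hm]
      ring
    generalize ((m / 2 ^ N) / (1 - 2 ^ (sl false c t)) : ℚ) = r at k2
    refine ⟨r.den, r.den_pos, r.num, ?_⟩
    rw [k2, zpow_zero, mul_one]
    exact_mod_cast Rat.den_mul_eq_num r
  obtain ⟨E, hE⟩ := orbit_bound hS hc hq hqc hw
  have hpow : ∀ n : ℕ, sl false (b • c) (t ^ n) = n * sl false c t := by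
    intro n
    have hbn := nb_left (smul_pos b hc)
    induction n with
    | zero => simp [sl_one hbn]
    | succ n ih =>
      have k := pow_between htc ht h1' h2' n
      rw [pow_succ', sl_mul hbn, ih, hsl _ (hn0.trans_le k.1) k.2]
      push_cast
      ring
  have hconst : ∀ n : ℕ, sl false c (t ^ n * b * (t ^ n)⁻¹) = sl false c b := by
    intro n
    have h : t ^ n • c = c := by simpa using fix_zpow htc n
    have k := sl_zpow hn htc (-(n : ℤ))
    rw [zpow_neg, zpow_natCast] at k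
    rw [sl_mul hn, fix_inv h, sl_mul hn, hpow, k]
    ring
  have hmono : StrictMono fun n : ℕ => t ^ n • b • c := strictMono_nat_of_lt_succ fun n => by
    have k := pow_between htc ht h1' h2' n
    rw [pow_succ', mul_smul]
    exact ht _ (h1'.trans_le k.1) k.2
  refine infinite_of_injective_forall_mem hmono.injective (fun n => ?_)
    (Dv.finite hq (sl false c b - E))
  have := hE _ (conj_pow_mem hB hb0 n)
  rwa [conj_smul htc, hconst] at this

end Pool.Agent.Lib.MP_24b811_al.Fp
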