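import Pool.Agent.Lib.MP_24b811_al.FpAlg

/-!
# A finitely presented group without free subgroups is an ascending extension over each character
-/

set_option autoImplicit false

namespace Pool.Agent.Lib.MP_24b811_al.Fp

open HNNExtension Multiplicative

variable {H : Type} [Group H]

/-- The elements of `B` that `s` conjugates into `B`. -/
def asso (B : Subgroup H) (s : H) : Subgroup B :=
  B.comap ((MulAut.conj s).toMonoidHom.comp B.subtype)

lemma mem_asso {B : Subgroup H} {s : H} {b : B} : b ∈ asso B s ↔ s * b * s⁻¹ ∈ B := Iff.rfl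

/-- Conjugation by `s`. -/
def assoEquiv (B : Subgroup H) (s : H) : asso B s ≃* asso B s⁻¹ where
  toFun b := ⟨⟨s * b.1 * s⁻¹, b.2⟩, mem_asso.2 (by simp [mul_assoc])⟩
  invFun b := ⟨⟨s⁻¹ * b.1 * s⁻¹⁻¹, b.2⟩, mem_asso.2 (by simp [mul_assoc])⟩
  left_inv b := by ext; simp [mul_assoc]
  right_inv b := by ext; simp [mul_assoc]
  map_mul' b c := by ext; simp [mul_assoc]

/-- The extension of `B` that models conjugation by `s`. -/
abbrev HN (B : Subgroup H) (s : H) : Type := HNNExtension B (asso B s) (asso B s⁻¹) (assoEquiv B s)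

/-- The projection to the group. -/
def proj (B : Subgroup H) (s : H) : HN B s →* H :=
  HNNExtension.lift B.subtype s fun a => by simp [assoEquiv]

lemma proj_t (B : Subgroup H) (s : H) : proj B s t = s := lift_t _ _ _

lemma proj_of (B : Subgroup H) (s : H) (b : B) : proj B s (of b) = b := lift_of _ _ _ _

lemma conj_of {B : Subgroup H} {s x : H} (k : ℤ)
    (h : ∀ j : ℤ, |j| ≤ |k| → s ^ j * x * s ^ (-j) ∈ B) (hx : x ∈ B) :
    (t ^ k * of ⟨x, hx⟩ * t ^ (-k) : HN B s) = of ⟨s ^ k * x * s ^ (-k), h k le_rfl⟩ := by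
  induction k using Int.induction_on with
  | zero => simp
  | succ n ih =>
    have h1 : ∀ j : ℤ, |j| ≤ |(n : ℤ)| → s ^ j * x * s ^ (-j) ∈ B := fun j hj =>
      h j (hj.trans (by rw [abs_of_nonneg (by omega), abs_of_nonneg (by omega)]; omega))
    have h2 : s * (s ^ (n : ℤ) * x * s ^ (-(n : ℤ))) * s⁻¹ ∈ B := by
      have := h (n + 1) le_rfl
      convert this using 1
      group
    have := equiv_eq_conj (φ := assoEquiv B s) ⟨⟨_, h1 n le_rfl⟩, mem_asso.2 h2⟩
    rw [← ih h1] at this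
    refine Eq.trans ?_ (this.symm.trans (congrArg of (Subtype.ext ?_)))
    · group
    · simp only [assoEquiv, MulEquiv.coe_mk, Equiv.coe_fn_mk]
      group
  | pred n ih =>
    have h1 : ∀ j : ℤ, |j| ≤ |(-n : ℤ)| → s ^ j * x * s ^ (-j) ∈ B := fun j hj =>
      h j (hj.trans (by rw [abs_of_nonpos (by omega), abs_of_nonpos (by omega)]; omega))
    have h2 : s⁻¹ * (s ^ (-n : ℤ) * x * s ^ (-(-n : ℤ))) * s⁻¹⁻¹ ∈ B := by
      have := h (-n - 1) le_rfl
      convert this using 1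
      group
    have := equiv_symm_eq_conj (φ := assoEquiv B s) ⟨⟨_, h1 (-n) le_rfl⟩, mem_asso.2 h2⟩
    rw [← ih h1] at this
    refine Eq.trans ?_ (this.symm.trans (congrArg of (Subtype.ext ?_)))
    · group
    · simp only [assoEquiv, MulEquiv.symm_mk, MulEquiv.coe_mk, Equiv.coe_fn_symm_mk]
      group

lemma asc {ι : Type} (φ : FreeGroup ι →* H) (hφ : Function.Surjective φ)
    (deg : H →* Multiplicative ℤ) {τ : H} (hτ : deg τ ≠ 1) {B : Subgroup H}
    (h1 : ∀ b ∈ B, deg b = 1) (h2 : ∀ b ∈ B, τ * b * τ⁻¹ ∈ B)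
    (h3 : ∀ i, ∃ k : ℤ, φ (FreeGroup.of i) * τ ^ (-k) ∈ B) (h : H) (hh : deg h = 1) :
    ∃ n : ℕ, τ ^ n * h * (τ ^ n)⁻¹ ∈ B := by
  have up : ∀ (n : ℕ), ∀ b ∈ B, τ ^ n * b * (τ ^ n)⁻¹ ∈ B := by
    intro n b hb
    induction n with
    | zero => simpa using hb
    | succ n ih =>
      have := h2 _ ih
      convert this using 1
      group
  let N : Subgroup H :=
    { carrier := {h | ∃ n : ℕ, τ ^ n * h * (τ ^ n)⁻¹ ∈ B}
      one_mem' := ⟨0, by simp⟩
      inv_mem' := fun ⟨n, hn⟩ => ⟨n, by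
        have := B.inv_mem hn
        convert this using 1
        group⟩
      mul_mem' := fun ⟨n, hn⟩ ⟨m, hm⟩ => ⟨n + m, by
        have := B.mul_mem (up m _ hn) (up n _ hm)
        convert this using 1
        group⟩ }
  have cj : ∀ (k : ℤ), ∀ h ∈ N, τ ^ k * h * τ ^ (-k) ∈ N := by
    rintro k h ⟨n, hn⟩
    obtain ⟨m, rfl | rfl⟩ := Int.eq_nat_or_neg k
    · refine ⟨n, ?_⟩
      have := up m _ hn
      convert this using 1
      group
    · refine ⟨n + m, ?_⟩
      convert hn using 1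
      group
  have key : ∀ w, ∃ k : ℤ, φ w * τ ^ (-k) ∈ N := by
    intro w
    induction w using FreeGroup.induction_on with
    | C1 => exact ⟨0, by simp⟩
    | of i => exact (h3 i).imp fun k hk => ⟨0, by simpa using hk⟩
    | inv_of i ih =>
      obtain ⟨k, hk⟩ := ih
      refine ⟨-k, ?_⟩
      have := cj (-k) _ (N.inv_mem hk)
      convert this using 1
      rw [map_inv]
      group
    | mul x y hx hy =>
      obtain ⟨k, hk⟩ := hx
      obtain ⟨l, hl⟩ := hy
      refine ⟨k + l, ?_⟩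
      have := N.mul_mem hk (cj k _ hl)
      convert this using 1
      rw [map_mul]
      group
  obtain ⟨w, rfl⟩ := hφ h
  obtain ⟨k, n, hn⟩ := key w
  have e := h1 _ hn
  rw [map_mul, map_mul, map_mul, hh, map_inv, mul_inv_eq_one, one_mul, mul_eq_left,
    map_zpow] at e
  have e' : -k * (deg τ).toAdd = 0 := by simpa using congrArg toAdd e
  have hk : k = 0 := by
    rcases mul_eq_zero.1 e' with r | r
    · omega
    · exact absurd (congrArg ofAdd r) hτ
  exact ⟨n, by simpa [hk] using hn⟩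

section lift

variable {n : ℕ} (φ : FreeGroup (Fin n) →* H) (deg : H →* Multiplicative ℤ) (s : H)

/-- The part of a generator that lies in the kernel of the character. -/
def ga (i : Fin n) : H := φ (FreeGroup.of i) * s ^ (-(deg (φ (FreeGroup.of i))).toAdd)

/-- The lift of the presentation to the extension. -/
def psi (B : Subgroup H) (ha : ∀ i, ga φ deg s i ∈ B) : FreeGroup (Fin n) →* HN B s :=
  FreeGroup.lift fun i => of ⟨_, ha i⟩ * t ^ (deg (φ (FreeGroup.of i))).toAdd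

lemma proj_psi (B : Subgroup H) (ha : ∀ i, ga φ deg s i ∈ B) (w : FreeGroup (Fin n)) :
    proj B s (psi φ deg s B ha w) = φ w := by
  have : (proj B s).comp (psi φ deg s B ha) = φ := FreeGroup.ext_hom _ _ fun i => by
    simp [psi, proj_of, proj_t, ga]
  exact DFunLike.congr_fun this w

lemma psi_mem (w : FreeGroup (Fin n)) : ∃ m : ℕ, ∀ (B : Subgroup H) (ha : ∀ i, ga φ deg s i ∈ B)
    (k : ℤ), (∀ i (j : ℤ), |j| ≤ |k| + m → s ^ j * ga φ deg s i * s ^ (-j) ∈ B) →
    ∃ b : B, t ^ k * (psi φ deg s B ha w * t ^ (-(deg (φ w)).toAdd)) * t ^ (-k) = of b := by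
  induction w using FreeGroup.induction_on with
  | C1 => exact ⟨0, fun B ha k _ => ⟨1, by simp⟩⟩
  | of i =>
    refine ⟨0, fun B ha k h => ⟨_, Eq.trans ?_
      (conj_of k (fun j hj => h i j (by simpa using hj)) (ha i))⟩⟩
    simp [psi, mul_assoc]
  | inv_of i ih =>
    obtain ⟨m, hm⟩ := ih
    refine ⟨m + (deg (φ (FreeGroup.of i))).toAdd.natAbs, fun B ha k h => ?_⟩
    obtain ⟨b, hb⟩ := hm B ha (k - (deg (φ (FreeGroup.of i))).toAdd) fun i' j hj =>
      h i' j (hj.trans (by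
        have := abs_sub k (deg (φ (FreeGroup.of i))).toAdd
        push_cast
        linarith))
    refine ⟨b⁻¹, ?_⟩
    rw [map_inv (psi φ deg s B ha), map_inv φ, map_inv deg, toAdd_inv, map_inv of, ← hb]
    group
  | mul x y hx hy =>
    obtain ⟨m, hm⟩ := hx
    obtain ⟨l, hl⟩ := hy
    refine ⟨m + l + (deg (φ x)).toAdd.natAbs, fun B ha k h => ?_⟩
    obtain ⟨b, hb⟩ := hm B ha k fun i j hj => h i j (hj.trans (by
      push_cast
      linarith [abs_nonneg (deg (φ x)).toAdd]))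
    obtain ⟨c, hc⟩ := hl B ha (k + (deg (φ x)).toAdd) fun i j hj => h i j (hj.trans (by
      have := abs_add_le k (deg (φ x)).toAdd
      push_cast
      linarith))
    refine ⟨b * c, ?_⟩
    rw [map_mul (psi φ deg s B ha), map_mul φ, map_mul deg, toAdd_mul, map_mul of, ← hb, ← hc]
    group

end lift

/-- The theorem of Bieri and Strebel, for groups without free subgroups of rank two. -/
theorem bieri_strebel [hH : Group.IsFinitelyPresented H] (deg : H →* Multiplicative ℤ) {s : H}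
    (hs : deg s = ofAdd 1) (hf : ∀ f : FreeGroup Bool →* H, ¬ Function.Injective f) :
    ∃ (τ : H) (S : Set H), deg τ ≠ 1 ∧ S.Finite ∧ (∀ x ∈ S, deg x = 1) ∧
      (∀ b ∈ Subgroup.closure S, τ * b * τ⁻¹ ∈ Subgroup.closure S) ∧
      ∀ h, deg h = 1 → ∃ n : ℕ, τ ^ n * h * (τ ^ n)⁻¹ ∈ Subgroup.closure S := by
  obtain ⟨n, φ, hφ, R, hR, hk⟩ := hH
  obtain ⟨w0, rfl⟩ := hφ s
  choose m hm using psi_mem φ deg (φ w0)
  obtain ⟨M, hM⟩ := ((hR.insert w0).image m).bddAbove
  have hM' : ∀ w ∈ insert w0 R, m w ≤ M := fun w hw => hM (Set.mem_image_of_mem m hw)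
  let S : Set H := (fun p : Fin n × ℤ => φ w0 ^ p.2 * ga φ deg (φ w0) p.1 * φ w0 ^ (-p.2)) ''
    (Set.univ ×ˢ Set.Icc (-(M : ℤ)) M)
  have hS : S.Finite := (Set.finite_univ.prod (Set.finite_Icc _ _)).image _
  let B := Subgroup.closure S
  have hB : ∀ i (j : ℤ), |j| ≤ M → φ w0 ^ j * ga φ deg (φ w0) i * φ w0 ^ (-j) ∈ B :=
    fun i j hj => Subgroup.subset_closure ⟨(i, j), ⟨trivial, abs_le.1 hj⟩, rfl⟩
  have ha : ∀ i, ga φ deg (φ w0) i ∈ B := fun i => by simpa using hB i 0 (by simp)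
  have hd : ∀ x ∈ S, deg x = 1 := by
    rintro _ ⟨⟨i, j⟩, -, rfl⟩
    apply toAdd.injective
    simp [ga, hs]
  have hd' : ∀ x ∈ B, deg x = 1 := fun x hx =>
    (Subgroup.closure_le deg.ker).2 (fun y hy => hd y hy) hx
  have h1 : deg (φ w0) ≠ 1 := by rw [hs]; decide
  by_cases c1 : asso B (φ w0) = ⊤
  · have c : ∀ b ∈ B, φ w0 * b * (φ w0)⁻¹ ∈ B := fun b hb =>
      mem_asso.1 (show (⟨b, hb⟩ : B) ∈ asso B (φ w0) from c1 ▸ trivial)
    exact ⟨_, S, h1, hS, hd, c, asc φ hφ deg h1 hd' c fun i => ⟨_, ha i⟩⟩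
  by_cases c2 : asso B (φ w0)⁻¹ = ⊤
  · have c : ∀ b ∈ B, (φ w0)⁻¹ * b * (φ w0)⁻¹⁻¹ ∈ B := fun b hb =>
      mem_asso.1 (show (⟨b, hb⟩ : B) ∈ asso B (φ w0)⁻¹ from c2 ▸ trivial)
    have h2 : deg (φ w0)⁻¹ ≠ 1 := by rwa [map_inv, inv_ne_one]
    refine ⟨_, S, h2, hS, hd, c, asc φ hφ deg h2 hd' c fun i =>
      ⟨-(deg (φ (FreeGroup.of i))).toAdd, ?_⟩⟩
    have := ha i
    rwa [neg_neg, inv_zpow']
  exfalso
  obtain ⟨g, g1, g2⟩ : ∃ g : B, g ∉ asso B (φ w0) ∧ g ∉ asso B (φ w0)⁻¹ := by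
    obtain ⟨p, hp⟩ := not_forall.1 (mt (Subgroup.eq_top_iff' _).2 c1)
    obtain ⟨q, hq⟩ := not_forall.1 (mt (Subgroup.eq_top_iff' _).2 c2)
    by_cases d1 : p ∈ asso B (φ w0)⁻¹
    · by_cases d2 : q ∈ asso B (φ w0)
      · exact ⟨p * q, fun e => hp ((Subgroup.mul_mem_cancel_right _ d2).1 e),
          fun e => hq ((Subgroup.mul_mem_cancel_left _ d1).1 e)⟩
      · exact ⟨q, d2, hq⟩
    · exact ⟨p, hp, d1⟩
  have key : ∀ w ∈ insert w0 R,
      psi φ deg (φ w0) B ha w * t ^ (-(deg (φ w)).toAdd) = 1 ∨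
        φ w * φ w0 ^ (-(deg (φ w)).toAdd) ≠ 1 := by
    intro w hw
    obtain ⟨b, hb⟩ := hm w B ha 0 fun i j hj => hB i j (hj.trans (by simpa using hM' w hw))
    rw [neg_zero, zpow_zero, one_mul, mul_one] at hb
    have := congrArg (proj B (φ w0)) hb
    rw [map_mul, proj_psi, map_zpow, proj_t, proj_of] at this
    refine or_iff_not_imp_right.2 fun e => ?_
    rw [hb, show b = 1 from Subtype.ext (this.symm.trans (not_not.1 e)), map_one]
  have hker : φ.ker ≤ (psi φ deg (φ w0) B ha).ker := by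
    rw [← hk]
    refine Subgroup.normalClosure_le_normal fun r hr => ?_
    have e : φ r = 1 := by
      rw [← MonoidHom.mem_ker, ← hk]
      exact Subgroup.subset_normalClosure hr
    simpa [e] using key r (Set.mem_insert_of_mem _ hr)
  let σ : H →* HN B (φ w0) := φ.liftOfSurjective hφ ⟨_, hker⟩
  have hσ : ∀ w, σ (φ w) = psi φ deg (φ w0) B ha w := fun w =>
    φ.liftOfRightInverse_comp_apply _ _ ⟨_, hker⟩ w
  have σt : σ (φ w0) = t := by
    have := key w0 (Set.mem_insert _ _)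
    rw [hσ]
    simpa [hs, mul_inv_eq_one] using this
  have σa : ∀ i, σ (ga φ deg (φ w0) i) = of ⟨_, ha i⟩ := fun i => by
    have : σ (ga φ deg (φ w0) i) = σ (φ (FreeGroup.of i)) *
        σ (φ w0) ^ (-(deg (φ (FreeGroup.of i))).toAdd) := by rw [← map_zpow, ← map_mul]; rfl
    rw [this, σt, hσ]
    simp [psi]
  have σb : ∀ b (hb : b ∈ B), σ b = of ⟨b, hb⟩ := by
    intro b hb
    induction hb using Subgroup.closure_induction with
    | mem x hx =>
      obtain ⟨⟨i, j⟩, ⟨-, hj⟩, rfl⟩ := hx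
      simp only [map_mul, map_zpow, σt, σa]
      exact conj_of j (fun k hk => hB i k (hk.trans (abs_le.2 hj))) (ha i)
    | one => rw [map_one]; exact (map_one of).symm
    | mul x y hx hy ihx ihy => rw [map_mul, ihx, ihy, ← map_mul]; rfl
    | inv x hx ih => rw [map_inv, ih, ← map_inv]; rfl
  refine hf (FreeGroup.lift fun i : Bool =>
    ((cond i g 1 : B) : H) * φ w0 * ((cond i g 1 : B) : H)⁻¹) ?_
  refine Function.Injective.of_comp (f := σ) ?_
  have := free_hnn (assoEquiv B (φ w0)) g1 g2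
  convert this using 1
  rw [← MonoidHom.coe_comp]
  congr 1
  refine FreeGroup.ext_hom _ _ fun i => ?_
  simp only [MonoidHom.comp_apply, FreeGroup.lift_apply_of, map_mul, map_inv, σt]
  rw [σb _ (Subtype.property _)]

end Pool.Agent.Lib.MP_24b811_al.Fp
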