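import Pool.Agent.Lib.MP_24b811_al.GcThree

/-!
# Locally moving groups of increasing bijections of an interval
-/

set_option autoImplicit false

namespace Pool.Agent.Lib.MP_24b811_al.Gc

open scoped commutatorElement

universe u v

variable {G : Type v} {X : Type u} [Group G] [MulAction G X]

lemma commute_of_disj (hf : ∀ g : G, (∀ x : X, g • x = x) → g = 1) {f g : G}
    (h : ∀ y : X, f • y = y ∨ g • y = y) : Commute f g := by
  have key : ∀ {f g : G}, (∀ y : X, f • y = y ∨ g • y = y) → ∀ y : X, f • y = y →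
      f • g • y = g • f • y := by
    intro f g h y hy
    rw [hy]
    rcases h (g • y) with h1 | h1
    · exact h1
    · rw [smul_left_cancel g h1, hy]
  have h2 : ∀ y : X, f • g • y = g • f • y := fun y =>
    (h y).elim (key h y) fun h1 => (key (fun y => (h y).symm) y h1).symm
  have h3 : (g * f)⁻¹ * (f * g) = 1 := hf _ fun x => by
    rw [mul_smul, mul_smul, h2, ← mul_smul g, inv_smul_smul]
  exact (inv_mul_eq_one.1 h3).symm

lemma fix_inv {g : G} {x : X} (h : g • x = x) : g⁻¹ • x = x := inv_smul_eq_iff.2 h.symm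

lemma fix_zpow {g : G} {x : X} (h : g • x = x) (n : ℤ) : g ^ n • x = x :=
  (MulAction.stabilizer G x).zpow_mem (x := g) h n

lemma _root_.Commute.smul_comm' {f g : G} (h : Commute f g) (x : X) : f • g • x = g • f • x := by
  rw [← mul_smul, h.eq, mul_smul]

/-- Two commuting subgroups whose product is the centraliser of `g`. -/
structure Pair (g : G) (A B : Subgroup G) : Prop where
  comm : ∀ l ∈ A, ∀ q ∈ B, Commute l q
  cA : ∀ l ∈ A, Commute l g
  cB : ∀ q ∈ B, Commute q g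
  factor : ∀ h, Commute h g → ∃ l ∈ A, ∃ q ∈ B, h = l * q

lemma Pair.symm {g : G} {A B : Subgroup G} (h : Pair g A B) : Pair g B A where
  comm l hl q hq := (h.comm q hq l hl).symm
  cA := h.cB
  cB := h.cA
  factor f hf := by
    obtain ⟨l, hl, q, hq, rfl⟩ := h.factor f hf
    exact ⟨q, hq, l, hl, (h.comm l hl q hq).eq⟩

lemma Pair.conj {g f l : G} {A B : Subgroup G} (h : Pair g A B) (hf : Commute f g) (hl : l ∈ A) :
    f * l * f⁻¹ ∈ A := by
  obtain ⟨l', hl', q, hq, rfl⟩ := h.factor f hf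
  have : l' * q * l * (l' * q)⁻¹ = l' * l * l'⁻¹ := by
    rw [mul_assoc l' q l, ← (h.comm l hl q hq).eq]; group
  rw [this]
  exact A.mul_mem (A.mul_mem hl' hl) (A.inv_mem hl')

lemma CutPair.pair {g : G} {L Q : Subgroup G} (h : CutPair g L Q) :
    Pair g L (Q ⊓ Subgroup.centralizer {g}) where
  comm l hl q hq := h.comm l hl q hq.1
  cA l hl := h.comm l hl g h.mem
  cB q hq := Subgroup.mem_centralizer_singleton_iff.1 hq.2
  factor f hf := by
    obtain ⟨l, hl, q, hq, rfl⟩ := h.factor f hf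
    refine ⟨l, hl, q, ⟨hq, Subgroup.mem_centralizer_singleton_iff.2 ?_⟩, rfl⟩
    have := (h.comm l hl g h.mem).inv_left.mul_left hf
    rw [inv_mul_cancel_left] at this
    exact this

variable [CompleteLinearOrder X]

/-- `p` fixes every point outside the open interval from `a` to `b`. -/
def Sup (p : G) (a b : X) : Prop := ∀ y, y ≤ a ∨ b ≤ y → p • y = y

lemma Sup.inv {p : G} {a b : X} (h : Sup p a b) : Sup p⁻¹ a b := fun y hy => fix_inv (h y hy)

lemma Sup.mul {p q : G} {a b : X} (h : Sup p a b) (h' : Sup q a b) : Sup (p * q) a b :=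
  fun y hy => by rw [mul_smul, h' y hy, h y hy]

lemma Sup.one (a b : X) : Sup (1 : G) a b := fun y _ => one_smul G y

lemma Sup.mono {p : G} {a b a' b' : X} (h : Sup p a b) (ha : a' ≤ a) (hb : b ≤ b') :
    Sup p a' b' := fun y hy => h y (hy.imp (·.trans ha) hb.trans)

lemma Sup.comm {p q : G} {a b : X} (h : Sup p a b) (h' : Sup q a b) : Sup ⁅p, q⁆ a b :=
  ((h.mul h').mul h.inv).mul h'.inv

variable (G X) in
/-- A faithful, increasing and locally moving action. -/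
structure LM : Prop where
  mono : ∀ (g : G) {x y : X}, x < y → g • x < g • y
  faith : ∀ g : G, (∀ x : X, g • x = x) → g = 1
  move : ∀ a x b : X, a < x → x < b → ∃ h : G, Sup h a b ∧ h • x ≠ x

/-- The infimum of the points that are moved. -/
def lo (X : Type u) [CompleteLinearOrder X] [MulAction G X] (p : G) : X := sInf {x | p • x ≠ x}

namespace LM

variable (H : LM G X)
include H

lemma dual : LM G Xᵒᵈ where
  mono g _ _ h := H.mono g h
  faith := H.faith
  move a x b h1 h2 := by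
    obtain ⟨h, k1, k2⟩ := H.move b x a h2 h1
    exact ⟨h, fun y hy => k1 y hy.symm, k2⟩

lemma lt_iff (g : G) {x y : X} : g • x < g • y ↔ x < y :=
  StrictMono.lt_iff_lt (f := fun x : X => g • x) fun _ _ h => H.mono g h

lemma le_iff (g : G) {x y : X} : g • x ≤ g • y ↔ x ≤ y :=
  StrictMono.le_iff_le (f := fun x : X => g • x) fun _ _ h => H.mono g h

lemma lt_of_fix {g : G} {x a : X} (ha : g • a = a) (h : x < a) : g • x < a := ha ▸ H.mono g h

lemma gt_of_fix {g : G} {x a : X} (ha : g • a = a) (h : a < x) : a < g • x := ha ▸ H.mono g h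

lemma le_of_fix {g : G} {x a : X} (ha : g • a = a) (h : x ≤ a) : g • x ≤ a :=
  ha ▸ (H.le_iff g).2 h

lemma ge_of_fix {g : G} {x a : X} (ha : g • a = a) (h : a ≤ x) : a ≤ g • x :=
  ha ▸ (H.le_iff g).2 h

lemma inv_lt {g : G} {x y : X} : g⁻¹ • x < y ↔ x < g • y := by
  rw [← H.lt_iff g, smul_inv_smul]

lemma lt_inv {g : G} {x y : X} : x < g⁻¹ • y ↔ g • x < y := by
  rw [← H.lt_iff g, smul_inv_smul]

lemma fix_bot (g : G) : g • (⊥ : X) = ⊥ :=
  le_bot_iff.1 (not_lt.1 fun h => not_lt_bot (H.inv_lt.2 h))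

lemma up {g : G} {x : X} (h : g • x ≠ x) : x < g • x ∨ x < g⁻¹ • x :=
  h.lt_or_gt.symm.imp id H.lt_inv.2

lemma lt_pow {g : G} {x : X} (h : x < g • x) (n : ℕ) : x < g ^ (n + 1) • x := by
  induction n with
  | zero => simpa using h
  | succ n ih => rw [pow_succ', mul_smul]; exact h.trans (H.mono g ih)

lemma fix_of_zpow {g : G} {x : X} {n : ℤ} (hn : n ≠ 0) (h : g ^ n • x = x) : g • x = x := by
  by_contra h1
  have h2 : g ^ n.natAbs • x = x := by
    rcases Int.natAbs_eq n with h3 | h3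
    · rwa [h3, zpow_natCast] at h
    · rw [h3, zpow_neg, zpow_natCast] at h
      simpa using fix_inv h
  obtain ⟨m, hm⟩ := Nat.exists_eq_succ_of_ne_zero (Int.natAbs_ne_zero.2 hn)
  rw [hm] at h2
  rcases H.up h1 with h3 | h3
  · exact (H.lt_pow h3 m).ne' h2
  · refine (H.lt_pow h3 m).ne' ?_
    rw [inv_pow]
    exact fix_inv h2

lemma sup_conj {p : G} {a b : X} (h : Sup p a b) (k : G) : Sup (k * p * k⁻¹) (k • a) (k • b) := by
  intro y hy
  rw [mul_smul, mul_smul, h, smul_inv_smul]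
  refine hy.imp (fun h1 => ?_) fun h1 => ?_
  · rwa [← H.le_iff k, smul_inv_smul]
  · rwa [← H.le_iff k, smul_inv_smul]

lemma move_up {a x b : X} (h1 : a < x) (h2 : x < b) : ∃ h : G, Sup h a b ∧ x < h • x := by
  obtain ⟨h, k1, k2⟩ := H.move a x b h1 h2
  exact (H.up k2).elim (fun k => ⟨h, k1, k⟩) fun k => ⟨h⁻¹, k1.inv, k⟩

lemma down {a x b v : X} (h2 : x < b) (h3 : a < v) : ∃ h : G, Sup h a b ∧ h • x < v := by
  by_contra hcon
  push Not at hcon
  have k1 : v ≤ sInf {y | ∃ h : G, Sup h a b ∧ h • x = y} :=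
    le_sInf fun y ⟨h, k1, k2⟩ => k2 ▸ hcon h k1
  have k2 : sInf {y | ∃ h : G, Sup h a b ∧ h • x = y} ≤ x :=
    sInf_le ⟨1, Sup.one a b, one_smul G x⟩
  obtain ⟨k, k3, k4⟩ := H.move_up (h3.trans_le k1) (k2.trans_lt h2)
  obtain ⟨_, ⟨h, k5, rfl⟩, k6⟩ := sInf_lt_iff.1 k4
  refine (H.inv_lt.2 k6).not_ge (sInf_le ⟨k⁻¹ * h, k3.inv.mul k5, mul_smul _ _ _⟩)

lemma dense {a x b u v : X} (h1 : a < x) (h2 : x < b) (h3 : a ≤ u) (h4 : u < v) (h5 : v ≤ b) :
    ∃ h : G, Sup h a b ∧ u < h • x ∧ h • x < v := by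
  by_contra hcon
  push Not at hcon
  obtain ⟨h0, k0, k0'⟩ := H.down h2 (h3.trans_lt h4)
  have k1 : sSup {y | y < v ∧ ∃ h : G, Sup h a b ∧ h • x = y} ≤ u :=
    sSup_le fun y ⟨k, h, k1, k2⟩ => not_lt.1 fun k3 => by
      subst k2; exact (hcon h k1 k3).not_gt k
  have k2 : h0 • x ≤ sSup {y | y < v ∧ ∃ h : G, Sup h a b ∧ h • x = y} :=
    le_sSup ⟨k0', h0, k0, rfl⟩
  obtain ⟨k, k3, k4⟩ := H.move_up ((H.gt_of_fix (k0 a (Or.inl le_rfl)) h1).trans_le k2)
    (k1.trans_lt h4)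
  obtain ⟨_, ⟨k7, h, k5, rfl⟩, k6⟩ := lt_sSup_iff.1 (H.inv_lt.2 k4)
  refine (H.inv_lt.1 k6).not_ge (le_sSup ⟨H.lt_of_fix (k3 v (Or.inr le_rfl)) k7, k * h,
    (k3.mono le_rfl h5).mul k5, mul_smul _ _ _⟩)

lemma smul_lo_le (k p : G) : k • lo X p ≤ lo X (k * p * k⁻¹) := by
  refine le_sInf fun y hy => ?_
  rw [← smul_inv_smul k y, H.le_iff]
  refine sInf_le fun h => hy ?_
  rw [mul_smul, mul_smul, h, smul_inv_smul]

lemma smul_lo (k p : G) : k • lo X p = lo X (k * p * k⁻¹) := by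
  refine (H.smul_lo_le k p).antisymm ?_
  have := H.smul_lo_le k⁻¹ (k * p * k⁻¹)
  rw [← H.le_iff k, smul_inv_smul] at this
  convert this using 3
  group

lemma fix_lo {k p : G} (h : Commute k p) : k • lo X p = lo X p := by
  rw [H.smul_lo, h.eq, mul_inv_cancel_right]

lemma fix_le_lo {p : G} {y : X} (h : y ≤ lo X p) : p • y = y := by
  rcases h.eq_or_lt with rfl | h
  · exact H.fix_lo (Commute.refl p)
  · by_contra h1
    exact h.not_ge (sInf_le h1)

omit H in
lemma le_lo {p : G} {a b : X} (h : ∀ y ≤ a, p • y = y) : a ≤ lo X p :=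
  le_sInf fun y hy => not_lt.1 fun h1 => hy (h y h1.le)

/-- An element supported between `x` and `k x` that commutes with `k` there is trivial. -/
lemma nc {f k : G} {x : X} (hf : Sup f x (k • x))
    (hc : ∀ y, x < y → y < k • x → f • k • y = k • f • y) : f = 1 := by
  refine H.faith f fun y => ?_
  by_cases h1 : y ≤ x ∨ k • x ≤ y
  · exact hf y h1
  push Not at h1
  have := hc y h1.1 h1.2
  rw [hf _ (Or.inr (H.mono k h1.1).le)] at this
  exact (smul_left_cancel k this).symm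

variable [DenselyOrdered X]

lemma exists_ne {a b : X} (h : a < b) :
    ∃ f : G, Sup f a b ∧ ∃ x, a < x ∧ x < b ∧ f • x ≠ x := by
  obtain ⟨x, h1, h2⟩ := exists_between h
  obtain ⟨f, h3, h4⟩ := H.move a x b h1 h2
  exact ⟨f, h3, x, h1, h2, h4⟩

lemma exists_comm {a b : X} (h : a < b) :
    ∃ f f' : G, Sup f a b ∧ Sup f' a b ∧ ⁅f, f'⁆ ≠ 1 := by
  obtain ⟨x, h1, h2⟩ := exists_between h
  obtain ⟨k, h3, h4⟩ := H.move_up h1 h2
  obtain ⟨f, h5, y, -, -, h6⟩ := H.exists_ne h4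
  refine ⟨f, k, h5.mono h1.le (H.le_of_fix (h3 b (Or.inr le_rfl)) h2.le), h3, fun h7 => h6 ?_⟩
  rw [H.nc h5 fun y _ _ => (commutatorElement_eq_one_iff_commute.1 h7).smul_comm' y, one_smul]

/-- One of the two factors acts trivially to the left of the support of `g`. -/
lemma left {g : G} {A B : Subgroup G} {a : X} (hp : Pair g A B) (ha : ∀ y ≤ a, g • y = y)
    (hN : ∀ h, Commute h g → h • a = a) :
    (∀ l ∈ A, ∀ y ≤ a, l • y = y) ∨ ∀ q ∈ B, ∀ y ≤ a, q • y = y := by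
  rw [or_iff_not_imp_left]
  intro hA
  push Not at hA
  obtain ⟨l, hl, y, hy, hm⟩ : ∃ l ∈ A, ∃ y ≤ a, y < l • y := by
    obtain ⟨l, hl, y, hy, hm⟩ := hA
    exact (H.up hm).elim (fun k => ⟨l, hl, y, hy, k⟩) fun k => ⟨l⁻¹, A.inv_mem hl, y, hy, k⟩
  have cm : ∀ k : G, Sup k ⊥ a → Commute k g := fun k hk =>
    commute_of_disj H.faith fun y : X => (le_total a y).imp (fun h => hk y (Or.inr h)) (ha y)
  have la := hN l (hp.cA l hl)
  have h1 : l • y ≤ a := H.le_of_fix la hy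
  obtain ⟨f, h2, x, h3, h4, h5⟩ := H.exists_ne hm
  have h6 := H.sup_conj h2.inv l
  have h7 : f * (l * f⁻¹ * l⁻¹) ∈ A := by
    have := A.mul_mem (hp.conj (cm f (h2.mono bot_le h1)) hl) (A.inv_mem hl)
    convert this using 1
    group
  have h8 : lo X (f * (l * f⁻¹ * l⁻¹)) < a := by
    refine lt_of_le_of_lt (sInf_le ?_) (h4.trans_le h1)
    rw [Set.mem_ofPred_eq, mul_smul, h6 x (Or.inl h4.le)]
    exact h5
  have h9 : ⊥ < lo X (f * (l * f⁻¹ * l⁻¹)) := by
    refine lt_of_lt_of_le (b := y) (bot_lt_iff_ne_bot.2 ?_) (le_lo (b := a) fun z hz => ?_)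
    · rintro rfl
      exact hm.ne' (H.fix_bot l)
    · rw [mul_smul, h6 z (Or.inl (hz.trans hm.le)), h2 z (Or.inl hz)]
  have key : ∀ q ∈ B, ∀ z ≤ a, ¬ z < q • z := by
    intro q hq z hz h
    obtain ⟨k, k1, k2, k3⟩ := H.dense h9 h8 bot_le h (H.le_of_fix (hN q (hp.cB q hq)) hz)
    rw [H.smul_lo] at k2 k3
    exact k3.not_gt (H.lt_of_fix (H.fix_lo (hp.comm _ (hp.conj (cm k k1) h7) q hq).symm) k2)
  intro q hq z hz
  by_contra h
  exact (H.up h).elim (key q hq z hz) (key q⁻¹ (B.inv_mem hq) z hz)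

omit [DenselyOrdered X] in
/-- If one factor lives on the hull of the support of `g`, then commutators of elements that are
trivial on the hull lie in the other factor. -/
lemma same {g f f' : G} {A B : Subgroup G} {a b : X} (hp : Pair g A B) (hg : Sup g a b)
    (hB : ∀ q ∈ B, Sup q a b) (hf : ∀ y, a ≤ y → y ≤ b → f • y = y)
    (hf' : ∀ y, a ≤ y → y ≤ b → f' • y = y) : ⁅f, f'⁆ ∈ A := by
  have cm : ∀ k : G, (∀ y, a ≤ y → y ≤ b → k • y = y) → Commute k g := fun k hk =>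
    commute_of_disj H.faith fun y : X => by
      by_cases h : y ≤ a ∨ b ≤ y
      · exact Or.inr (hg y h)
      · push Not at h
        exact Or.inl (hk y h.1.le h.2.le)
  obtain ⟨l, hl, q, hq, rfl⟩ := hp.factor f (cm f hf)
  obtain ⟨l', hl', q', hq', rfl⟩ := hp.factor f' (cm f' hf')
  have h1 : Commute q q' := by
    have h2 : ∀ y : X, q • q' • y = q' • q • y := fun y => by
      by_cases h : y ≤ a ∨ b ≤ y
      · rw [hB q hq y h, hB q' hq' y h, hB q hq y h]
      push Not at h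
      apply smul_left_cancel l
      rw [(hp.comm l hl q' hq').smul_comm', ← mul_smul l q y, hf y h.1.le h.2.le, ← mul_smul l q,
        hf _ (H.ge_of_fix (hB q' hq' a (Or.inl le_rfl)) h.1.le)
          (H.le_of_fix (hB q' hq' b (Or.inr le_rfl)) h.2.le)]
    have h3 : (q' * q)⁻¹ * (q * q') = 1 := H.faith _ fun x => by
      rw [mul_smul, mul_smul, h2, ← mul_smul q', inv_smul_smul]
    exact (inv_mul_eq_one.1 h3).symm
  have e1 := hp.comm l hl q hq
  have e2 := hp.comm l' hl' q hq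
  have e3 := hp.comm l hl q' hq'
  have e4 := hp.comm l' hl' q' hq'
  have h4 : ⁅l * q, l' * q'⁆ = ⁅l, l'⁆ := by
    have c1 : l * q * (l' * q') = l * l' * (q * q') := by
      rw [mul_assoc, ← mul_assoc q, ← e2.eq]; group
    have c2 : l' * q' * (l * q) = l' * l * (q * q') := by
      rw [mul_assoc, ← mul_assoc q', ← e3.eq, h1.eq]; group
    rw [commutatorElement_def, commutatorElement_def, mul_assoc _ (l * q)⁻¹, ← mul_inv_rev, c1, c2]
    group
  rw [h4]
  exact A.mul_mem (A.mul_mem (A.mul_mem hl hl') (A.inv_mem hl)) (A.inv_mem hl')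

omit [DenselyOrdered X] in
lemma exists_hull {g : G} {u v : X} (hg : Sup g u v) :
    ∃ a b : X, (u ≤ a ∧ b ≤ v) ∧ Sup g a b ∧ (∀ h, Commute h g → h • a = a) ∧
      ∀ h, Commute h g → h • b = b :=
  ⟨lo X g, OrderDual.ofDual (lo Xᵒᵈ g),
    ⟨le_lo (b := u) fun y hy => hg y (Or.inl hy),
      le_lo (X := Xᵒᵈ) (b := u) fun y hy => hg y (Or.inr hy)⟩,
    fun y hy => hy.elim H.fix_le_lo H.dual.fix_le_lo, fun _ h => H.fix_lo h,
    fun _ h => H.dual.fix_lo h⟩

/-- The two outer regions are moved by different factors. -/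
theorem exists_cut (T : ThreeProp G) {α β : X} (h : α < β) :
    ∃ (g : G) (L Q : Subgroup G) (a b : X), CutPair g L Q ∧ α ≤ a ∧ b ≤ β ∧ Sup g a b ∧
      (∀ h, Commute h g → h • a = a) ∧ (∀ h, Commute h g → h • b = b) ∧
      (((∀ l ∈ L, ∀ y ≤ a, l • y = y) ∧ ∀ q ∈ Q, Commute q g → ∀ y, b ≤ y → q • y = y) ∨
        ((∀ q ∈ Q, Commute q g → ∀ y ≤ a, q • y = y) ∧ ∀ l ∈ L, ∀ y, b ≤ y → l • y = y)) := by
  obtain ⟨c, h1, h2⟩ := exists_between h
  obtain ⟨d, h3, h4⟩ := exists_between h2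
  have huv : ∀ i : Fin 3, ![α, c, d] i < ![c, d, β] i := by
    intro i; fin_cases i <;> assumption
  have hdis : ∀ i j : Fin 3, i ≠ j → ![c, d, β] i ≤ ![α, c, d] j ∨ ![c, d, β] j ≤ ![α, c, d] i := by
    intro i j hij
    fin_cases i <;> fin_cases j <;> simp [h3.le] at hij ⊢
  have hα : ∀ i : Fin 3, α ≤ ![α, c, d] i := by
    intro i; fin_cases i <;> simp [h1.le, (h1.trans h3).le]
  have hβ : ∀ i : Fin 3, ![c, d, β] i ≤ β := by
    intro i; fin_cases i <;> simp [h2.le, h4.le]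
  generalize ![α, c, d] = u at *
  generalize ![c, d, β] = v at *
  choose f f' s1 s2 hne using fun i => H.exists_comm (huv i)
  have out : ∀ i j, i ≠ j → ∀ y, u i ≤ y → y ≤ v i → y ≤ u j ∨ v j ≤ y := fun i j hij y k1 k2 =>
    (hdis i j hij).imp k2.trans (·.trans k1)
  have cm : ∀ i j, i ≠ j → ∀ k : G, Sup k (u j) (v j) → Commute k ⁅f i, f' i⁆ :=
    fun i j hij k hk => commute_of_disj H.faith fun y : X => by
      by_cases h : y ≤ u i ∨ v i ≤ y
      · exact Or.inr ((s1 i).comm (s2 i) y h)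
      · push Not at h
        exact Or.inl (hk y (out i j hij y h.1.le h.2.le))
  obtain ⟨i, L, Q, cp, n1, n2⟩ := T (fun i => ⁅f i, f' i⁆) hne fun i j hij =>
    ⟨f j, f' j, cm i j hij _ (s1 j), cm i j hij _ (s2 j), rfl⟩
  obtain ⟨a, b, ⟨k1, k2⟩, k3, k4, k5⟩ := H.exists_hull ((s1 i).comm (s2 i))
  refine ⟨_, L, Q, a, b, cp, (hα i).trans k1, k2.trans (hβ i), k3, k4, k5, ?_⟩
  have t1 : ∀ j, i ≠ j → ∀ y, a ≤ y → y ≤ b → f j • y = y := fun j hij y r1 r2 =>
    s1 j y (out i j hij y (k1.trans r1) (r2.trans k2))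
  have t2 : ∀ j, i ≠ j → ∀ y, a ≤ y → y ≤ b → f' j • y = y := fun j hij y r1 r2 =>
    s2 j y (out i j hij y (k1.trans r1) (r2.trans k2))
  have mk : ∀ q ∈ Q, Commute q ⁅f i, f' i⁆ → q ∈ Q ⊓ Subgroup.centralizer {⁅f i, f' i⁆} :=
    fun q hq hc => ⟨hq, Subgroup.mem_centralizer_singleton_iff.2 hc⟩
  rcases H.left cp.pair (fun y hy => k3 y (Or.inl hy)) k4 with l1 | l1 <;>
    rcases H.dual.left (a := OrderDual.toDual b) cp.pair (fun y hy => k3 y (Or.inr hy)) k5
      with r1 | r1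
  · exact absurd (fun j hij => (H.same cp.pair.symm k3
      (fun q hq y hy => hy.elim (l1 q hq y) (r1 q hq y)) (t1 j hij) (t2 j hij)).1) n2
  · exact Or.inl ⟨l1, fun q hq hc => r1 q (mk q hq hc)⟩
  · exact Or.inr ⟨fun q hq hc => l1 q (mk q hq hc), r1⟩
  · exact absurd (fun j hij => H.same cp.pair k3
      (fun q hq y hy => hy.elim (l1 q hq y) (r1 q hq y)) (t1 j hij) (t2 j hij)) n1

end LM

end Pool.Agent.Lib.MP_24b811_al.Gc
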