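import Pool.Agent.Lib.MP_24b811_al.FpAlg
import Pool.Agent.Lib.MP_24b811_al.GcInterval

/-!
# Actions on an interval with tame germs: displacement, orbitals, no free subgroups
-/

set_option autoImplicit false

namespace Pool.Agent.Lib.MP_24b811_al.Fp

open Gc

variable {G X : Type} [Group G] [CompleteLinearOrder X] [MulAction G X]

variable (G X) in
/-- The action is by increasing maps. -/
def Inc : Prop := ∀ (g : G) (x y : X), x < y → g • x < g • y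

namespace Inc

variable (H : Inc G X)
include H

lemma dual : Inc G Xᵒᵈ := fun g x y h => H g y x h

lemma lt_iff (g : G) {x y : X} : g • x < g • y ↔ x < y :=
  StrictMono.lt_iff_lt (f := fun x : X => g • x) fun _ _ h => H g _ _ h

lemma le_iff (g : G) {x y : X} : g • x ≤ g • y ↔ x ≤ y :=
  StrictMono.le_iff_le (f := fun x : X => g • x) fun _ _ h => H g _ _ h

lemma lt_of_fix {g : G} {x a : X} (ha : g • a = a) (h : x < a) : g • x < a := ha ▸ H g _ _ h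

lemma gt_of_fix {g : G} {x a : X} (ha : g • a = a) (h : a < x) : a < g • x := ha ▸ H g _ _ h

lemma le_of_fix {g : G} {x a : X} (ha : g • a = a) (h : x ≤ a) : g • x ≤ a :=
  ha ▸ (H.le_iff g).2 h

lemma ge_of_fix {g : G} {x a : X} (ha : g • a = a) (h : a ≤ x) : a ≤ g • x :=
  ha ▸ (H.le_iff g).2 h

lemma inv_lt {g : G} {x y : X} : g⁻¹ • x < y ↔ x < g • y := by
  rw [← H.lt_iff g, smul_inv_smul]

lemma lt_inv {g : G} {x y : X} : x < g⁻¹ • y ↔ g • x < y := by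
  rw [← H.lt_iff g, smul_inv_smul]

lemma inv_le {g : G} {x y : X} : g⁻¹ • x ≤ y ↔ x ≤ g • y := by
  rw [← H.le_iff g, smul_inv_smul]

lemma le_inv {g : G} {x y : X} : x ≤ g⁻¹ • y ↔ g • x ≤ y := by
  rw [← H.le_iff g, smul_inv_smul]

lemma fix_sSup {S : Set X} {g : G} (h1 : ∀ x ∈ S, g • x ≤ sSup S)
    (h2 : ∀ x ∈ S, g⁻¹ • x ≤ sSup S) : g • sSup S = sSup S :=
  le_antisymm (H.le_inv.1 (sSup_le fun x hx => H.le_inv.2 (h1 x hx)))
    (sSup_le fun x hx => H.inv_le.1 (h2 x hx))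

lemma fix_sInf {S : Set X} {g : G} (h1 : ∀ x ∈ S, sInf S ≤ g • x)
    (h2 : ∀ x ∈ S, sInf S ≤ g⁻¹ • x) : g • sInf S = sInf S := H.dual.fix_sSup (S := S) h1 h2

lemma le_pow {g : G} {x : X} (h : x ≤ g • x) (n : ℕ) : x ≤ g ^ n • x := by
  induction n with
  | zero => simp
  | succ n ih => rw [pow_succ', mul_smul]; exact h.trans ((H.le_iff g).2 ih)

lemma lt_pow {g : G} {x : X} (h : x < g • x) (n : ℕ) : x < g ^ (n + 1) • x := by
  rw [pow_succ', mul_smul]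
  exact h.trans_le ((H.le_iff g).2 (H.le_pow h.le n))

lemma fix_of_zpow {g : G} {x : X} {n : ℤ} (hn : n ≠ 0) (h : g ^ n • x = x) : g • x = x := by
  by_contra h1
  have h2 : g ^ n.natAbs • x = x := by
    rcases Int.natAbs_eq n with h3 | h3
    · rwa [h3, zpow_natCast] at h
    · rw [h3, zpow_neg, zpow_natCast] at h
      simpa using fix_inv h
  obtain ⟨m, hm⟩ := Nat.exists_eq_succ_of_ne_zero (Int.natAbs_ne_zero.2 hn)
  rw [hm] at h2
  rcases lt_or_gt_of_ne h1 with h3 | h3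
  · exact (H.dual.lt_pow (x := x) h3 m).ne' h2
  · exact (H.lt_pow h3 m).ne' h2

lemma cof {t : G} {y c w : X} (h : y ≤ t • y) (hno : ∀ x, y ≤ x → x < c → t • x ≠ x)
    (hw : w < c) : ∃ n : ℕ, w < t ^ n • y := by
  by_contra hc
  push Not at hc
  have hm : ∀ n : ℕ, t ^ n • y ≤ sSup (Set.range fun n : ℕ => t ^ n • y) := fun n =>
    le_sSup ⟨n, rfl⟩
  refine hno (sSup (Set.range fun n : ℕ => t ^ n • y)) (by simpa using hm 0)
    ((sSup_le (by rintro _ ⟨n, rfl⟩; exact hc n)).trans_lt hw) (H.fix_sSup ?_ ?_)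
  · rintro _ ⟨n, rfl⟩
    have := hm (n + 1)
    rwa [pow_succ', mul_smul] at this
  · rintro _ ⟨n, rfl⟩
    refine le_trans (H.inv_le.2 ?_) (hm n)
    change t ^ n • y ≤ t • t ^ n • y
    rw [← mul_smul, ← pow_succ', pow_succ, mul_smul]
    exact (H.le_iff _).2 h

lemma orbit_up {Γ : Subgroup G} {p q u v : X} (h : ∀ x, p < x → x < q → ∃ g ∈ Γ, g • x ≠ x)
    (hu : p < u) (hv : v < q) : ∃ g ∈ Γ, v < g • u := by
  by_contra hc
  push Not at hc
  have hm : ∀ g ∈ Γ, g • u ≤ sSup {x | ∃ g ∈ Γ, g • u = x} := fun g hg => le_sSup ⟨g, hg, rfl⟩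
  obtain ⟨g, hg, hne⟩ := h (sSup {x | ∃ g ∈ Γ, g • u = x})
    (hu.trans_le (by simpa using hm 1 Γ.one_mem))
    ((sSup_le (by rintro _ ⟨k, hk, rfl⟩; exact hc k hk)).trans_lt hv)
  refine hne (H.fix_sSup ?_ ?_)
  · rintro _ ⟨k, hk, rfl⟩
    rw [← mul_smul]
    exact hm _ (Γ.mul_mem hg hk)
  · rintro _ ⟨k, hk, rfl⟩
    rw [← mul_smul]
    exact hm _ (Γ.mul_mem (Γ.inv_mem hg) hk)

/-- Simultaneous displacement on finitely many intervals. -/
lemma displace {Γ : Subgroup G} {O : Set (X × X)} (hO : O.Finite)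
    (h : ∀ o ∈ O, (∀ g ∈ Γ, g • o.1 = o.1 ∧ g • o.2 = o.2) ∧
      ∀ x, o.1 < x → x < o.2 → ∃ g ∈ Γ, g • x ≠ x) :
    ∀ u v : X × X → X, (∀ o ∈ O, o.1 < u o ∧ v o < o.2) →
      ∃ k ∈ Γ, ∀ o ∈ O, v o < k • u o ∨ k • v o < u o := by
  induction O, hO using Set.Finite.induction_on with
  | empty => exact fun _ _ _ => ⟨1, Γ.one_mem, by simp⟩
  | @insert o0 O _ _ ih =>
    intro u v huv
    obtain ⟨g, hg, g1⟩ := H.orbit_up (h o0 (by simp)).2 (huv o0 (by simp)).1 (huv o0 (by simp)).2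
    obtain ⟨k, hk, k1⟩ := ih (fun o ho => h o (Set.mem_insert_of_mem _ ho))
      (fun o => min (u o) (g⁻¹ • u o)) (fun o => max (v o) (g⁻¹ • v o)) fun o ho => by
        have a1 := (h o (Set.mem_insert_of_mem _ ho)).1 _ (Γ.inv_mem hg)
        have a2 := huv o (Set.mem_insert_of_mem _ ho)
        exact ⟨lt_min a2.1 (H.gt_of_fix a1.1 a2.1), max_lt a2.2 (H.lt_of_fix a1.2 a2.2)⟩
    obtain ⟨l, hl, l1, l2⟩ : ∃ l ∈ Γ, u o0 ≤ l • u o0 ∧ ∀ o ∈ O,
        max (v o) (g⁻¹ • v o) < l • min (u o) (g⁻¹ • u o) ∨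
          l • max (v o) (g⁻¹ • v o) < min (u o) (g⁻¹ • u o) := by
      rcases le_total (u o0) (k • u o0) with r | r
      · exact ⟨k, hk, r, k1⟩
      · exact ⟨k⁻¹, Γ.inv_mem hk, H.le_inv.2 r, fun o ho =>
          (k1 o ho).symm.imp H.lt_inv.2 H.inv_lt.2⟩
    refine ⟨g * l, Γ.mul_mem hg hl, fun o ho => ?_⟩
    rw [mul_smul, mul_smul]
    rcases ho with rfl | ho
    · exact Or.inl (g1.trans_le ((H.le_iff g).2 l1))
    · refine (l2 o ho).imp (fun r => H.inv_lt.1 ?_) fun r => H.lt_inv.1 ?_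
      · exact (le_max_right _ _).trans_lt (r.trans_le ((H.le_iff l).2 (min_le_left _ _)))
      · exact (((H.le_iff l).2 (le_max_left _ _)).trans_lt r).trans_le (min_le_right _ _)

end Inc

/-- Points fixed by a subgroup. -/
def Fx (K : Subgroup G) (x : X) : Prop := ∀ g ∈ K, g • x = x

/-- Components of the set of points moved by a subgroup. -/
def Orb (K : Subgroup G) (o : X × X) : Prop :=
  o.1 < o.2 ∧ Fx K o.1 ∧ Fx K o.2 ∧ ∀ x, o.1 < x → x < o.2 → ¬ Fx K x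

/-- `g` has no fixed point just to the right of `p`. -/
def Mv (g : G) (p : X) : Prop := ∃ e, p < e ∧ ∀ y, p < y → y ≤ e → g • y ≠ y

omit [CompleteLinearOrder X] in
lemma fx_closure {S : Set G} {x : X} (h : ∀ g ∈ S, g • x = x) : Fx (Subgroup.closure S) x :=
  fun _ hg => (Subgroup.closure_le (MulAction.stabilizer G x)).2 h hg

lemma Inc.exists_orb (H : Inc G X) {K : Subgroup G} {x : X} (hx : ¬ Fx K x) :
    ∃ o : X × X, Orb K o ∧ o.1 < x ∧ x < o.2 := by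
  have f1 : Fx K (sSup {y | Fx K y ∧ y ≤ x}) := fun g hg => H.fix_sSup
    (fun y hy => by rw [hy.1 g hg]; exact le_sSup hy)
    fun y hy => by rw [hy.1 _ (K.inv_mem hg)]; exact le_sSup hy
  have f2 : Fx K (sInf {y | Fx K y ∧ x ≤ y}) := fun g hg => H.fix_sInf
    (fun y hy => by rw [hy.1 g hg]; exact sInf_le hy)
    fun y hy => by rw [hy.1 _ (K.inv_mem hg)]; exact sInf_le hy
  have l1 : sSup {y | Fx K y ∧ y ≤ x} < x :=
    lt_of_le_of_ne (sSup_le fun y hy => hy.2) fun e => hx (e ▸ f1)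
  have l2 : x < sInf {y | Fx K y ∧ x ≤ y} :=
    lt_of_le_of_ne (le_sInf fun y hy => hy.2) fun e => hx (e ▸ f2)
  refine ⟨(_, _), ⟨l1.trans l2, f1, f2, fun y r1 r2 hy => ?_⟩, l1, l2⟩
  rcases le_total y x with r | r
  · exact r1.not_ge (le_sSup ⟨hy, r⟩)
  · exact r2.not_ge (sInf_le ⟨hy, r⟩)

variable (G X) in
/-- A faithful increasing action with tame germs at fixed points. -/
structure PLA : Prop where
  inc : Inc G X
  faith : ∀ g : G, (∀ x : X, g • x = x) → g = 1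
  isoR : ∀ (g : G) (c d : X), g • c = c → c < d →
    (∃ e, c < e ∧ ∀ y, c ≤ y → y ≤ e → g • y = y) ∨ Mv g c
  isoL : ∀ (g : G) (c d : X), g • c = c → d < c →
    (∃ e, e < c ∧ ∀ y, e ≤ y → y ≤ c → g • y = y) ∨ ∃ e, e < c ∧ ∀ y, e ≤ y → y < c → g • y ≠ y
  comR : ∀ (f g : G) (c d : X), f • c = c → g • c = c → c < d →
    ∃ e, c < e ∧ ∀ y, c ≤ y → y ≤ e → f • g • y = g • f • y
  comL : ∀ (f g : G) (c d : X), f • c = c → g • c = c → d < c →
    ∃ e, e < c ∧ ∀ y, e ≤ y → y ≤ c → f • g • y = g • f • y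
  fin : ∀ g : G, {p : X | g • p = p ∧ Mv g p}.Finite

namespace PLA

variable [DenselyOrdered X] (H : PLA G X)
include H

lemma germ_orb {α β : G} {o : X × X} (ho : Orb (Subgroup.closure {α, β}) o) :
    Mv α o.1 ∨ Mv β o.1 := by
  obtain ⟨h1, h2, -, h4⟩ := ho
  rcases H.isoR α _ _ (h2 α (Subgroup.subset_closure (by simp))) h1 with ⟨e, e1, e2⟩ | r
  · rcases H.isoR β _ _ (h2 β (Subgroup.subset_closure (by simp))) h1 with ⟨d, d1, d2⟩ | r
    · obtain ⟨y, y1, y2⟩ := exists_between (lt_min h1 (lt_min e1 d1))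
      rw [lt_min_iff, lt_min_iff] at y2
      refine absurd (fx_closure ?_) (h4 y y1 y2.1)
      rintro g (rfl | rfl)
      exacts [e2 y y1.le y2.2.1.le, d2 y y1.le y2.2.2.le]
    · exact Or.inr r
  · exact Or.inl r

lemma finite_orb (α β : G) : {o : X × X | Orb (Subgroup.closure {α, β}) o}.Finite := by
  refine Set.Finite.of_finite_image (f := Prod.fst) (((H.fin α).union (H.fin β)).subset ?_) ?_
  · rintro _ ⟨o, ho, rfl⟩
    exact (H.germ_orb ho).imp (fun r => ⟨ho.2.1 α (Subgroup.subset_closure (by simp)), r⟩)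
      fun r => ⟨ho.2.1 β (Subgroup.subset_closure (by simp)), r⟩
  · rintro ⟨p, q⟩ h1 ⟨p', q'⟩ h2 (rfl : p = p')
    rcases lt_trichotomy q q' with r | rfl | r
    · exact absurd h1.2.2.1 (h2.2.2.2 q h1.1 r)
    · rfl
    · exact absurd h2.2.2.1 (h1.2.2.2 q' h2.1 r)

omit [DenselyOrdered X] in
lemma ends {K : Subgroup G} {o : X × X} (ho : Orb K o) {f g : G} (hf : f ∈ K) (hg : g ∈ K) :
    ∃ u v, o.1 < u ∧ v < o.2 ∧ ∀ y, o.1 < y → y < o.2 → y ≤ u ∨ v ≤ y →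
      (f * g * f⁻¹ * g⁻¹) • y = y := by
  obtain ⟨h1, h2, h3, -⟩ := ho
  obtain ⟨u, u1, u2⟩ := H.comR f⁻¹ g⁻¹ _ _ (h2 _ (K.inv_mem hf)) (h2 _ (K.inv_mem hg)) h1
  obtain ⟨v, v1, v2⟩ := H.comL f⁻¹ g⁻¹ _ _ (h3 _ (K.inv_mem hf)) (h3 _ (K.inv_mem hg)) h1
  refine ⟨u, v, u1, v1, fun y y1 y2 hy => ?_⟩
  rw [mul_smul, mul_smul, mul_smul, hy.elim (u2 y y1.le) fun r => v2 y r y2.le, smul_inv_smul,
    smul_inv_smul]

/-- Two commutators can be pushed off one another on a set of orbitals. -/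
lemma push {α β : G} {Γ : Subgroup G} (hΓ : Γ ≤ Subgroup.closure {α, β}) {D : Set (X × X)}
    (hD : ∀ o ∈ D, Orb (Subgroup.closure {α, β}) o ∧
      ∀ x, o.1 < x → x < o.2 → ∃ g ∈ Γ, g • x ≠ x) {f g f' g' : G}
    (hf : f ∈ Subgroup.closure {α, β}) (hg : g ∈ Subgroup.closure {α, β})
    (hf' : f' ∈ Subgroup.closure {α, β}) (hg' : g' ∈ Subgroup.closure {α, β}) :
    ∃ k ∈ Γ, ∀ o ∈ D, ∃ Q : X → Prop, (∀ y, o.1 < y → y < o.2 → ¬ Q y →
      (f * g * f⁻¹ * g⁻¹) • y = y) ∧ ∀ y, o.1 < y → y < o.2 → Q y →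
        (k * (f' * g' * f'⁻¹ * g'⁻¹) * k⁻¹) • y = y := by
  have key : ∀ o : X × X, ∃ u v, o ∈ D → (o.1 < u ∧ v < o.2) ∧ ∀ y, o.1 < y → y < o.2 →
      y ≤ u ∨ v ≤ y → (f * g * f⁻¹ * g⁻¹) • y = y ∧ (f' * g' * f'⁻¹ * g'⁻¹) • y = y := by
    intro o
    by_cases ho : o ∈ D
    · obtain ⟨u, v, a1, a2, a3⟩ := H.ends (hD o ho).1 hf hg
      obtain ⟨u', v', b1, b2, b3⟩ := H.ends (hD o ho).1 hf' hg'
      exact ⟨min u u', max v v', fun _ => ⟨⟨lt_min a1 b1, max_lt a2 b2⟩, fun y y1 y2 hy =>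
        ⟨a3 y y1 y2 (hy.imp (fun r => r.trans (min_le_left _ _)) (le_max_left _ _).trans),
          b3 y y1 y2 (hy.imp (fun r => r.trans (min_le_right _ _)) (le_max_right _ _).trans)⟩⟩⟩
    · exact ⟨o.1, o.1, fun r => absurd r ho⟩
  choose u v huv using key
  obtain ⟨k, hk, k1⟩ := H.inc.displace (Γ := Γ)
    ((H.finite_orb α β).subset fun o ho => (hD o ho).1)
    (fun o ho => ⟨fun g hg => ⟨(hD o ho).1.2.1 g (hΓ hg), (hD o ho).1.2.2.1 g (hΓ hg)⟩,
      (hD o ho).2⟩) u v fun o ho => (huv o ho).1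
  refine ⟨k, hk, fun o ho => ⟨fun y => u o < y ∧ y < v o, fun y y1 y2 hy =>
    ((huv o ho).2 y y1 y2 (by simpa only [not_and_or, not_lt] using hy)).1, fun y y1 y2 hy => ?_⟩⟩
  have hk' := hΓ (Γ.inv_mem hk)
  rw [mul_smul, mul_smul, ((huv o ho).2 _ (H.inc.gt_of_fix ((hD o ho).1.2.1 _ hk') y1)
    (H.inc.lt_of_fix ((hD o ho).1.2.2.1 _ hk') y2) ?_).2, smul_inv_smul]
  exact (k1 o ho).imp (fun r => (H.inc.inv_lt.2 (hy.2.trans r)).le)
    fun r => (H.inc.lt_inv.2 (r.trans hy.1)).le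

/-- The theorem of Brin and Squier. -/
theorem no_free (f : FreeGroup Bool →* G) : ¬ Function.Injective f := by
  intro hf
  let a : FreeGroup Bool := FreeGroup.of false
  let b : FreeGroup Bool := FreeGroup.of true
  have ha : f a ∈ Subgroup.closure {f a, f b} := Subgroup.subset_closure (by simp)
  have hb : f b ∈ Subgroup.closure {f a, f b} := Subgroup.subset_closure (by simp)
  obtain ⟨k, hk, k1⟩ := H.push (D := {o | Orb (Subgroup.closure {f a, f b}) o}) le_rfl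
    (fun o ho => ⟨ho, fun x x1 x2 => by simpa [Fx] using ho.2.2.2 x x1 x2⟩) ha hb ha hb
  obtain ⟨w, rfl⟩ : k ∈ f.range :=
    (Subgroup.closure_le f.range).2 (by rintro _ (rfl | rfl) <;> simp) hk
  have hx : f a * f b * (f a)⁻¹ * (f b)⁻¹ ∈ Subgroup.closure {f a, f b} :=
    mul_mem (mul_mem (mul_mem ha hb) (inv_mem ha)) (inv_mem hb)
  have disj : ∀ y : X, (f a * f b * (f a)⁻¹ * (f b)⁻¹) • y = y ∨
      (f w * (f a * f b * (f a)⁻¹ * (f b)⁻¹) * (f w)⁻¹) • y = y := by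
    intro y
    by_cases hy : Fx (Subgroup.closure {f a, f b}) y
    · exact Or.inl (hy _ hx)
    · obtain ⟨o, o1, o2, o3⟩ := H.inc.exists_orb hy
      obtain ⟨Q, q1, q2⟩ := k1 o o1
      exact (em (Q y)).symm.imp (q1 y o2 o3) (q2 y o2 o3)
  have hne : a * b * a⁻¹ * b⁻¹ ≠ 1 := by decide
  have hc : Commute (a * b * a⁻¹ * b⁻¹) (w * (a * b * a⁻¹ * b⁻¹) * w⁻¹) := by
    apply hf
    simpa only [map_mul, map_inv] using (commute_of_disj H.faith disj).eq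
  obtain ⟨i, j, hi, e⟩ := free_commute hc (by simpa using hne)
  have e' := congrArg f e
  simp only [map_zpow, map_mul, map_inv] at e'
  refine hne (hf ?_)
  simp only [map_mul, map_inv, map_one]
  refine H.faith _ fun y => (disj y).elim id fun r => H.inc.fix_of_zpow hi ?_
  rw [e']
  exact fix_zpow r j

end PLA

end Pool.Agent.Lib.MP_24b811_al.Fp
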