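import Pool.Agent.Lib.MP_24b811_al.FrClosed
import Pool.Agent.Lib.MP_3e9be7_al.H96PL

/-!
# The piecewise linear group F embeds in the group given by the finite presentation
-/

set_option autoImplicit false

namespace Pool.Agent.Lib.MP_24b811_al.Fp

open unitInterval Gc Fr

theorem closed_top : Closed (⊤ : Subgroup ThompsonF) := by
  classical
  rintro t - a ha hta
  have hm : StrictMono fun y : I => t • y := t.2.1
  let s : I → I := fun y => if y ≤ a then t • y else y
  have s1 : ∀ y, y ≤ a → s y = t • y := fun y hy => if_pos hy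
  have s2 : ∀ y, a ≤ y → s y = y := fun y hy => by
    by_cases h : y ≤ a
    · rw [s1 y h, le_antisymm h hy, hta]
    · exact if_neg h
  have sm : StrictMono s := fun x y h => by
    rcases le_total y a with r | r
    · rw [s1 y r, s1 x (h.le.trans r)]
      exact hm h
    rcases le_total a x with r' | r'
    · rwa [s2 y r, s2 x r']
    · rw [s2 y r, s1 x r']
      rcases r'.eq_or_lt with rfl | r''
      · rwa [hta]
      · exact ((hm r'').trans_eq hta).trans_le r
  have ss : Function.Surjective s := fun y => by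
    rcases le_total y a with r | r
    · refine ⟨t⁻¹ • y, ?_⟩
      rw [s1, smul_inv_smul]
      rw [← hm.le_iff_le]
      simpa only [smul_inv_smul, hta] using r
    · exact ⟨y, s2 y r⟩
  obtain ⟨B, hB, hl⟩ := t.2.2
  refine ⟨⟨(sm.orderIsoOfSurjective s ss).toHomeomorph, sm, insert (a : ℝ) B, fun b hb => ?_,
    fun x y hxy h => ?_⟩, trivial, fun y => ⟨s1 y, s2 y⟩⟩
  · rcases Finset.mem_insert.1 hb with rfl | hb
    exacts [ha, hB b hb]
  · have k := h a (Finset.mem_insert_self _ _)
    rw [not_and_or, not_lt, not_lt] at k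
    rcases k with k | k
    · refine ⟨0, fun z r _ => ?_⟩
      change (s z : ℝ) = s x + _
      rw [s2 x k, s2 z (le_trans k r)]
      simp
    · obtain ⟨j, hj⟩ := hl x y hxy fun b hb => h b (Finset.mem_insert_of_mem hb)
      refine ⟨j, fun z r r' => ?_⟩
      change (s z : ℝ) = s x + _
      rw [s1 x (hxy.le.trans k), s1 z (r'.trans k)]
      exact hj z r r'

/-- The presented group as a group of permutations of the line. -/
noncomputable def tau : MP_3e9be7_al.ThompsonF →* Equiv.Perm ℝ :=
  MonoidHom.mk' (fun g => (MP_3e9be7_al.rho g).toEquiv) fun f g => by rw [map_mul]; rfl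

lemma tau_inj : Function.Injective tau := fun _ _ h =>
  MP_3e9be7_al.rho_injective (RelIso.toEquiv_injective h)

lemma yy_mem_tau (i : ℕ) : yy 1 i ∈ tau.range := by
  refine ⟨(MP_3e9be7_al.xF i)⁻¹, ?_⟩
  rw [map_inv, inv_eq_iff_eq_inv]
  ext t
  change MP_3e9be7_al.rho (MP_3e9be7_al.xF i) t = min t (max ((t + i) / 2) (t - 1))
  rw [MP_3e9be7_al.rho_xF, MP_3e9be7_al.XX_apply]
  simp only [max_def, min_def]
  split_ifs <;> linarith

lemma vx_mem_tau (z : Pt (w0.{0} (⊤ : Subgroup ThompsonF))) : vx z.2 ∈ tau.range := by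
  refine ux_conn (fun z => vx z.2 ∈ tau.range) ?_ (fun i z hi => ?_) z
  · exact (show vx _ = 1 from vx_id _) ▸ tau.range.one_mem
  · have e : vx (ux i z).2 = yy 1 i * vx z.2 := (fx closed_top).ev_up hi
    rw [e, tau.range.mul_mem_cancel_left (yy_mem_tau i)]

theorem exists_F_embed :
    ∃ f : ThompsonF →* MP_3e9be7_al.ThompsonF, Function.Injective f := by
  obtain ⟨e⟩ := diagram_of_closed.{0} closed_top
  let V : DiagramGroup (pres.{0} (⊤ : Subgroup ThompsonF)) (w0 ⊤) →* tau.range :=
    MonoidHom.mk' (fun f => ⟨vx f, vx_mem_tau ⟨w0 ⊤, f⟩⟩) fun f g => Subtype.ext (vx_comp g f)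
  have hV : Function.Injective V := fun f g h => rx_inj closed_top
    (Subtype.ext (Homeomorph.ext fun x => Subtype.ext
      (congrArg (fun p : tau.range => p.1 x) h)))
  exact ⟨(MonoidHom.ofInjective tau_inj).symm.toMonoidHom.comp
      (V.comp (Subgroup.topEquiv.symm.trans e).toMonoidHom),
    (MonoidHom.ofInjective tau_inj).symm.injective.comp
      (hV.comp (Subgroup.topEquiv.symm.trans e).injective)⟩

end Pool.Agent.Lib.MP_24b811_al.Fp
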