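import Pool.Agent.Lib.MP_24b811_al.FpUb
import Pool.Agent.Lib.MP_24b811_al.FpBS
import Pool.Agent.Lib.MP_24b811_al.FpArith

/-!
# A finitely presented subgroup of F is abelian or contains a copy of F
-/

set_option autoImplicit false

namespace Pool.Agent.Lib.MP_24b811_al.Fp

open unitInterval Gc Filter Topology Set

lemma ne_of_gm {g : ThompsonF} {c y : I} {k : ℤ} (hg : g • c = c) (hk : k ≠ 0) (hy : y ≠ c)
    (h : ((g • y : I) : ℝ) = (g • c : I) + (2 : ℝ) ^ k * ((y : ℝ) - c)) : g • y ≠ y := by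
  intro e
  rw [e, hg] at h
  have h1 : (y : ℝ) - c ≠ 0 := sub_ne_zero.2 fun r => hy (Subtype.ext r)
  have h2 : (2 : ℝ) ^ k = 2 ^ (0 : ℤ) := mul_right_cancel₀ h1 (by rw [zpow_zero]; linarith)
  exact hk (zpow_right_injective₀ (by norm_num) (by norm_num) h2)

lemma mv_right {g : ThompsonF} {c : I} (hc : c < 1) (hg : g • c = c) (h : sl true c g ≠ 0) :
    Mv g c := by
  obtain ⟨p, k1, k2⟩ := (nhdsGT_basis_of_exists_gt ⟨1, hc⟩).mem_iff.1 (gm_sl true c g)
  obtain ⟨d, d1, d2⟩ := exists_between k1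
  exact ⟨d, d1, fun y r1 r2 => ne_of_gm hg h r1.ne' (k2 ⟨r1, r2.trans_lt d2⟩)⟩

lemma mv_left {g : ThompsonF} {c : I} (hc : 0 < c) (hg : g • c = c) (h : sl false c g ≠ 0) :
    ∃ e, e < c ∧ ∀ y, e ≤ y → y < c → g • y ≠ y := by
  obtain ⟨p, k1, k2⟩ := (nhdsLT_basis_of_exists_lt ⟨0, hc⟩).mem_iff.1 (gm_sl false c g)
  obtain ⟨d, d1, d2⟩ := exists_between k1
  exact ⟨d, d2, fun y r1 r2 => ne_of_gm hg h r2.ne (k2 ⟨d1.trans_le r1, r2⟩)⟩

lemma id_right {g : ThompsonF} {c : I} (hc : c < 1) (hg : g • c = c) (h : sl true c g = 0) :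
    ∃ e, c < e ∧ ∀ y, c ≤ y → y ≤ e → g • y = y := by
  simpa using agree_right hc (hg.trans (one_smul _ c).symm) (h.trans (sl_one (nb_right hc)).symm)

lemma id_left {g : ThompsonF} {c : I} (hc : 0 < c) (hg : g • c = c) (h : sl false c g = 0) :
    ∃ e, e < c ∧ ∀ y, e ≤ y → y ≤ c → g • y = y := by
  simpa using agree_left hc (hg.trans (one_smul _ c).symm) (h.trans (sl_one (nb_left hc)).symm)

theorem plaF : PLA ThompsonF I where
  inc g _ _ h := lmF.mono g h
  faith := lmF.faith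
  isoR g c d hg h := (em (sl true c g = 0)).imp (id_right (h.trans_le d.2.2) hg)
    (mv_right (h.trans_le d.2.2) hg)
  isoL g c d hg h := (em (sl false c g = 0)).imp (id_left (lt_of_le_of_lt d.2.1 h) hg)
    (mv_left (lt_of_le_of_lt d.2.1 h) hg)
  comR f g c d hf hg h := by
    have hc : c < 1 := h.trans_le d.2.2
    simpa only [mul_smul] using agree_right hc (f := f * g) (g := g * f)
      (by rw [mul_smul, mul_smul, hf, hg, hf])
      (by rw [sl_mul (nb_right hc), sl_mul (nb_right hc), hf, hg, add_comm])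
  comL f g c d hf hg h := by
    have hc : 0 < c := lt_of_le_of_lt d.2.1 h
    simpa only [mul_smul] using agree_left hc (f := f * g) (g := g * f)
      (by rw [mul_smul, mul_smul, hf, hg, hf])
      (by rw [sl_mul (nb_left hc), sl_mul (nb_left hc), hf, hg, add_comm])
  fin g := by
    classical
    obtain ⟨-, B, -, hB⟩ := g.2
    have key : ∀ p q : I, g • p = p ∧ Mv g p → g • q = q → p < q →
        B.filter (fun b => b ≤ (p : ℝ)) ≠ B.filter (fun b => b ≤ (q : ℝ)) := by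
      rintro p q ⟨h1, e, e1, e2⟩ h2 h3 h4
      obtain ⟨k, hk⟩ := hB p q h3 fun b hb ⟨r1, r2⟩ => by
        have : b ∈ B.filter (fun b => b ≤ (q : ℝ)) := Finset.mem_filter.2 ⟨hb, r2.le⟩
        rw [← h4, Finset.mem_filter] at this
        exact r1.not_ge this.2
      have k0 : k = 0 := by_contra fun r => ne_of_gm h1 r h3.ne' (hk q h3.le le_rfl) h2
      refine e2 (min e q) (lt_min e1 h3) (min_le_left _ _) (Subtype.ext ?_)
      have := hk (min e q) (lt_min e1 h3).le (min_le_right _ _)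
      change ((g • min e q : I) : ℝ) = (g • p : I) + _ at this
      rw [this, h1, k0, zpow_zero]
      ring
    refine Set.Finite.of_finite_image (f := fun p : I => B.filter (fun b => b ≤ (p : ℝ)))
      (B.powerset.finite_toSet.subset ?_) fun p hp q hq e => ?_
    · rintro _ ⟨p, -, rfl⟩
      exact Finset.mem_powerset.2 (Finset.filter_subset _ _)
    · rcases lt_trichotomy p q with r | r | r
      exacts [absurd e (key p q hp hq.1 r), r, absurd e.symm (key q p hq hp.1 r)]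

lemma unif_right {S : Set ThompsonF} (hS : S.Finite) {a : I} (ha : a < 1)
    (h : ∀ g ∈ S, g • a = a ∧ sl true a g = 0) :
    ∃ e, a < e ∧ ∀ y, a ≤ y → y ≤ e → Fx (Subgroup.closure S) y := by
  suffices ∃ e, a < e ∧ ∀ y, a ≤ y → y ≤ e → ∀ g ∈ S, g • y = y from
    this.imp fun e he => ⟨he.1, fun y y1 y2 => fx_closure (he.2 y y1 y2)⟩
  induction S, hS using Set.Finite.induction_on with
  | empty => exact ⟨1, ha, by simp⟩
  | @insert g S _ _ ih =>
    obtain ⟨e, e1, e2⟩ := ih fun k hk => h k (Set.mem_insert_of_mem _ hk)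
    obtain ⟨d, d1, d2⟩ := id_right ha (h g (by simp)).1 (h g (by simp)).2
    refine ⟨min e d, lt_min e1 d1, fun y y1 y2 k hk => ?_⟩
    rcases hk with rfl | hk
    exacts [d2 y y1 (y2.trans (min_le_right _ _)), e2 y y1 (y2.trans (min_le_left _ _)) k hk]

lemma unif_left {S : Set ThompsonF} (hS : S.Finite) {a : I} (ha : 0 < a)
    (h : ∀ g ∈ S, g • a = a ∧ sl false a g = 0) :
    ∃ e, e < a ∧ ∀ y, e ≤ y → y ≤ a → Fx (Subgroup.closure S) y := by
  suffices ∃ e, e < a ∧ ∀ y, e ≤ y → y ≤ a → ∀ g ∈ S, g • y = y from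
    this.imp fun e he => ⟨he.1, fun y y1 y2 => fx_closure (he.2 y y1 y2)⟩
  induction S, hS using Set.Finite.induction_on with
  | empty => exact ⟨0, ha, by simp⟩
  | @insert g S _ _ ih =>
    obtain ⟨e, e1, e2⟩ := ih fun k hk => h k (Set.mem_insert_of_mem _ hk)
    obtain ⟨d, d1, d2⟩ := id_left ha (h g (by simp)).1 (h g (by simp)).2
    refine ⟨max e d, max_lt e1 d1, fun y y1 y2 k hk => ?_⟩
    rcases hk with rfl | hk
    exacts [d2 y ((le_max_right _ _).trans y1) y2, e2 y ((le_max_left _ _).trans y1) y2 k hk]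

/-- In a subgroup without a copy of F, an element that is trivial near one end of a bump is
trivial near the other end. -/
lemma balanced {H : Subgroup ThompsonF}
    (hF : ∀ f : MP_3e9be7_al.ThompsonF →* H, ¬ Function.Injective f) {t h : ThompsonF}
    (htH : t ∈ H) (hh : h ∈ H) {a c : I} (hac : a < c) (ta : t • a = a) (tc : t • c = c)
    (ht : ∀ y, a < y → y < c → y < t • y) (ha : h • a = a) (hc : h • c = c)
    (h0 : sl true a h = 0) : sl false c h = 0 := by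
  by_contra h1
  have c0 : 0 < c := lt_of_le_of_lt a.2.1 hac
  have a1 : a < 1 := hac.trans_le c.2.2
  obtain ⟨m, hm⟩ := Nat.exists_eq_succ_of_ne_zero (Int.natAbs_ne_zero.2 h1)
  obtain ⟨r, r1, r2⟩ := agree_left c0 (f := h ^ ((sl false c h).sign * sl false c t))
    (g := t ^ ((sl false c h).natAbs : ℤ)) (by rw [fix_zpow hc, fix_zpow tc]) (by
      rw [sl_zpow (nb_left c0) hc, sl_zpow (nb_left c0) tc, mul_right_comm, Int.sign_mul_self])
  obtain ⟨s, s1, s2⟩ := id_right a1 ha h0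
  obtain ⟨f, hf⟩ := plaF.ubiq (H.zpow_mem htH _) (H.zpow_mem hh _) (fix_zpow ta _) (fix_zpow tc _)
    (fun y y1 y2 => by
      rw [hm, zpow_natCast]
      exact plaF.inc.lt_pow (ht y y1 y2) m) hac r1 s1 r2 fun y y1 y2 => fix_zpow (s2 y y1 y2) _
  exact hF f hf

theorem comm_of_fp (H : Subgroup ThompsonF) [hH : Group.IsFinitelyPresented H]
    (hF : ∀ f : MP_3e9be7_al.ThompsonF →* H, ¬ Function.Injective f) (hfg : H.FG) (x y : H) :
    x * y = y * x := by
  have I' := plaF.inc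
  by_contra hxy
  let Z : Set I := {z | ∃ f ∈ H, ∃ g ∈ H, (f * g * f⁻¹ * g⁻¹) • z ≠ z}
  have Zinv : ∀ k ∈ H, ∀ z ∈ Z, k • z ∈ Z := by
    rintro k hk z ⟨f, hf, g, hg, hz⟩
    refine ⟨k * f * k⁻¹, H.mul_mem (H.mul_mem hk hf) (H.inv_mem hk), k * g * k⁻¹,
      H.mul_mem (H.mul_mem hk hg) (H.inv_mem hk), fun e => hz ?_⟩
    rw [show k * f * k⁻¹ * (k * g * k⁻¹) * (k * f * k⁻¹)⁻¹ * (k * g * k⁻¹)⁻¹ =
      k * (f * g * f⁻¹ * g⁻¹) * k⁻¹ by group, mul_smul, mul_smul, inv_smul_smul] at e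
    exact smul_left_cancel k e
  have fa : Fx H (sInf Z) := fun k hk => I'.fix_sInf (fun z hz => sInf_le (Zinv k hk z hz))
    fun z hz => sInf_le (Zinv _ (H.inv_mem hk) z hz)
  have mem : ∀ f ∈ H, ∀ g ∈ H, f * g * f⁻¹ * g⁻¹ ∈ H := fun f hf g hg =>
    H.mul_mem (H.mul_mem (H.mul_mem hf hg) (H.inv_mem hf)) (H.inv_mem hg)
  have aZ : ∀ z ∈ Z, sInf Z < z := fun z hz => lt_of_le_of_ne (sInf_le hz) fun e => by
    obtain ⟨f, hf, g, hg, hz⟩ := hz
    exact hz (e ▸ fa _ (mem f hf g hg))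
  have low : ∀ e, sInf Z < e → ∃ z ∈ Z, z < e := fun e he => sInf_lt_iff.1 he
  obtain ⟨z0, hz0⟩ : Z.Nonempty := by
    by_contra hne
    refine hxy (Subtype.ext ?_)
    have : x.1 * y.1 * x.1⁻¹ * y.1⁻¹ = 1 := lmF.faith _ fun z =>
      by_contra fun r => hne ⟨z, _, x.2, _, y.2, r⟩
    rw [mul_inv_eq_one, mul_inv_eq_iff_eq_mul] at this
    exact this
  have a1 : sInf Z < 1 := (aZ z0 hz0).trans_le z0.2.2
  generalize sInf Z = a at fa aZ low a1
  let χ : H →* Multiplicative ℤ := MonoidHom.mk' (fun h => Multiplicative.ofAdd (sl true a h.1))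
    fun f g => by rw [← ofAdd_add, Subgroup.coe_mul, sl_mul (nb_right a1), fa _ g.2]
  obtain ⟨m, hm⟩ := exists_gen ⊤ χ
  have dv : ∀ h : H, m ∣ sl true a h.1 := fun h => (hm _).2 ⟨h, trivial, rfl⟩
  have m0 : m ≠ 0 := by
    rintro rfl
    obtain ⟨S, hS⟩ := hfg
    obtain ⟨e, e1, e2⟩ := unif_right S.finite_toSet a1 fun g hg =>
      have hg' : g ∈ H := hS ▸ Subgroup.subset_closure hg
      ⟨fa g hg', zero_dvd_iff.1 (dv ⟨g, hg'⟩)⟩
    obtain ⟨z, hz, z1⟩ := low e e1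
    obtain ⟨f, hf, g, hg, z2⟩ := id hz
    exact z2 (e2 z (aZ z hz).le z1.le _ (hS ▸ mem f hf g hg))
  let deg : H →* Multiplicative ℤ :=
    MonoidHom.mk' (fun h => Multiplicative.ofAdd (sl true a h.1 / m)) fun f g => by
      rw [← ofAdd_add, Subgroup.coe_mul, sl_mul (nb_right a1), fa _ g.2,
        Int.add_ediv_of_dvd_left (dv f)]
  have hdeg : ∀ h : H, deg h = 1 ↔ sl true a h.1 = 0 := fun h => by
    change Multiplicative.ofAdd (sl true a h.1 / m) = 1 ↔ _
    obtain ⟨j, hj⟩ := dv h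
    rw [ofAdd_eq_one, hj, Int.mul_ediv_cancel_left _ m0, mul_eq_zero, or_iff_right m0]
  obtain ⟨s, -, hs⟩ := (hm m).1 dvd_rfl
  obtain ⟨τ, S, t1, hS, s1, s2, s3⟩ := bieri_strebel deg (s := s) (by
    change Multiplicative.ofAdd (sl true a s.1 / m) = _
    rw [show sl true a s.1 = m from hs, Int.ediv_self m0]) fun f hf =>
      plaF.no_free (H.subtype.comp f) (Subtype.val_injective.comp hf)
  have hcl : ∀ b, b ∈ Subgroup.closure (H.subtype '' S) ↔
      ∃ b' ∈ Subgroup.closure S, b'.1 = b := fun b => by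
    rw [← MonoidHom.map_closure]
    rfl
  have hS' : (H.subtype '' S).Finite := hS.image _
  have b0 : ∀ b ∈ Subgroup.closure (H.subtype '' S), b ∈ H ∧ sl true a b = 0 := fun b hb => by
    obtain ⟨b', h1, rfl⟩ := (hcl b).1 hb
    exact ⟨b'.2, (hdeg b').1 ((Subgroup.closure_le deg.ker).2 (fun y hy => s1 y hy) h1)⟩
  have b1 : ∀ b ∈ Subgroup.closure (H.subtype '' S),
      τ.1 * b * τ.1⁻¹ ∈ Subgroup.closure (H.subtype '' S) := fun b hb => by
    obtain ⟨b', h1, rfl⟩ := (hcl b).1 hb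
    exact (hcl _).2 ⟨_, s2 b' h1, rfl⟩
  have b2 : ∀ h ∈ H, sl true a h = 0 →
      ∃ n : ℕ, τ.1 ^ n * h * (τ.1 ^ n)⁻¹ ∈ Subgroup.closure (H.subtype '' S) := fun h hh h0 =>
    (s3 ⟨h, hh⟩ ((hdeg _).2 h0)).imp fun n hn => (hcl _).2 ⟨_, hn, rfl⟩
  have t2 : sl true a τ.1 ≠ 0 := mt (hdeg τ).2 t1
  obtain ⟨t, htH⟩ := τ
  dsimp only at b1 b2 t2
  generalize H.subtype '' S = S' at hS' b0 b1 b2
  have ta := fa t htH
  have fw : ∀ (n : ℕ) (y : I), ¬ Fx (Subgroup.closure S') y →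
      ¬ Fx (Subgroup.closure S') (t ^ n • y) := by
    intro n y hy
    induction n with
    | zero => simpa using hy
    | succ n ih =>
      refine fun h => ih fun b hb => ?_
      have := h _ (b1 b hb)
      rw [pow_succ', mul_smul, mul_smul, mul_smul, inv_smul_smul] at this
      exact smul_left_cancel t this
  obtain ⟨d, d1, d2⟩ := mv_right a1 ta t2
  have tc : t • sInf {x | a < x ∧ t • x = x} = sInf {x | a < x ∧ t • x = x} := I'.fix_sInf
    (fun x hx => by rw [hx.2]; exact sInf_le hx) fun x hx => by rw [fix_inv hx.2]; exact sInf_le hx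
  have hac : a < sInf {x | a < x ∧ t • x = x} :=
    d1.trans_le (le_sInf fun x hx => not_lt.1 fun r => d2 x hx.1 r.le hx.2)
  have hno : ∀ x, a < x → x < sInf {x | a < x ∧ t • x = x} → t • x ≠ x := fun x x1 x2 e =>
    x2.not_ge (sInf_le ⟨x1, e⟩)
  generalize sInf {x | a < x ∧ t • x = x} = c at tc hac hno
  have c0 : 0 < c := lt_of_le_of_lt a.2.1 hac
  obtain ⟨y, y1, y2, y3⟩ : ∃ y, a < y ∧ y < c ∧ ¬ Fx (Subgroup.closure S') y := by
    obtain ⟨z, hz, z1⟩ := low c hac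
    obtain ⟨f, hf, g, hg, z2⟩ := id hz
    obtain ⟨n, hn⟩ := b2 _ (mem f hf g hg) ((hdeg ⟨_, mem f hf g hg⟩).1 (by
      change deg (⟨f, hf⟩ * ⟨g, hg⟩ * ⟨f, hf⟩⁻¹ * ⟨g, hg⟩⁻¹) = 1
      rw [map_mul, map_mul, map_mul, map_inv, map_inv, mul_inv_cancel_comm, mul_inv_cancel]))
    refine ⟨t ^ n • z, I'.gt_of_fix (by simpa using fix_zpow ta n) (aZ z hz),
      I'.lt_of_fix (by simpa using fix_zpow tc n) z1, fun h => z2 ?_⟩
    have := h _ hn
    rw [mul_smul, mul_smul, inv_smul_smul] at this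
    exact smul_left_cancel _ this
  obtain ⟨e, e1, e2⟩ := unif_right hS' a1 fun g hg =>
    ⟨fa g (b0 g (Subgroup.subset_closure hg)).1, (b0 g (Subgroup.subset_closure hg)).2⟩
  have dn : ∀ x w, x < c → t • x < x → a < w → ∃ n : ℕ, t ^ n • x < w := fun x w x1 x2 w1 =>
    I'.dual.cof (t := t) (y := x) (c := a) (w := w) x2.le
      (fun v v1 v2 => hno v v2 (lt_of_le_of_lt v1 x1)) w1
  have ty : y < t • y := lt_of_le_of_ne (not_lt.1 fun r => by
    obtain ⟨n, hn⟩ := dn y e y2 r e1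
    exact fw n y y3 (e2 _ (I'.ge_of_fix (by simpa using fix_zpow ta n) y1.le) hn.le))
      (hno y y1 y2).symm
  have ht : ∀ x, a < x → x < c → x < t • x := fun x x1 x2 => lt_of_le_of_ne (not_lt.1 fun r => by
    obtain ⟨l, hl⟩ := I'.dual.cof (t := t⁻¹) (y := y) (c := a) (w := x) (I'.inv_le.2 ty.le)
      (fun v v1 v2 e => hno v v2 (lt_of_le_of_lt v1 y2) (inv_smul_eq_iff.1 e).symm) x1
    obtain ⟨n, hn⟩ := I'.cof ty.le (fun v v1 v2 => hno v (y1.trans_le v1) v2) x2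
    have k1 : y < t ^ l • x := I'.inv_lt.1 (by rw [← inv_pow]; exact hl)
    have k2 : t ^ (n + l) • x ≤ x := I'.dual.le_pow (x := x) r.le (n + l)
    rw [pow_add, mul_smul] at k2
    exact lt_irrefl _ ((hn.trans (I' _ _ _ k1)).trans_le k2)) (hno x x1 x2).symm
  have hw : ∀ b ∈ Subgroup.closure S', b • c = c → sl false c b = 0 := fun b hb e =>
    balanced hF htH (b0 b hb).1 hac ta tc ht (fa b (b0 b hb).1) e (b0 b hb).2
  by_cases hc : Fx (Subgroup.closure S') c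
  · obtain ⟨v, v1, v2⟩ := unif_left hS' c0 fun g hg =>
      ⟨hc g (Subgroup.subset_closure hg), hw g (Subgroup.subset_closure hg)
        (hc g (Subgroup.subset_closure hg))⟩
    obtain ⟨n, hn⟩ := I'.cof ty.le (fun v v1 v2 => hno v (y1.trans_le v1) v2) v1
    exact fw n y y3 (v2 _ hn.le (I'.le_of_fix (by simpa using fix_zpow tc n) y2.le))
  · obtain ⟨β, hβ, β1⟩ : ∃ β ∈ Subgroup.closure S', β • c < c := by
      unfold Fx at hc
      push Not at hc
      obtain ⟨g, g1, g2⟩ := hc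
      rcases lt_or_gt_of_ne g2 with r | r
      exacts [⟨g, g1, r⟩, ⟨g⁻¹, inv_mem g1, I'.inv_lt.2 r⟩]
    exact arith hS' tc ht b1 hw hβ (I'.gt_of_fix (fa β (b0 β hβ).1) hac) β1

end Pool.Agent.Lib.MP_24b811_al.Fp
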