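import Pool.Agent.Lib.MP_24b811_al.FpDyn

/-!
# The ubiquity theorem of Brin, for a bump and an element that approaches one end of it
-/

set_option autoImplicit false

namespace Pool.Agent.Lib.MP_24b811_al.Fp

open Gc

variable {G X : Type} [Group G] [CompleteLinearOrder X] [MulAction G X]

/-- An equivariant monotone family of cuts of an orbital. -/
structure Cuts (K : Subgroup G) (P : X → Prop) (le : X → X → Prop) (α β : G) (o : X × X)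
    (A C : X → X → Prop) : Prop where
  cover : ∀ w x, o.1 < x → x < o.2 → A w x ∨ C w x
  eqA : ∀ g ∈ K, ∀ w x, A w x → A (g • w) (g • x)
  eqC : ∀ g ∈ K, ∀ w x, C w x → C (g • w) (g • x)
  monoA : ∀ w w' x, le w w' → A w x → A w' x
  monoC : ∀ w w' x, le w w' → C w' x → C w x
  idA : ∃ s, P s ∧ ∀ x, A s x → β • x = x
  idC : ∃ r, P r ∧ ∀ x, C r x → α • x = x

lemma Cuts.flip {K : Subgroup G} {P : X → Prop} {le : X → X → Prop} {α β : G} {o : X × X}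
    {A C : X → X → Prop} (h : Cuts K P le α β o A C) : Cuts K P (fun x y => le y x) β α o C A :=
  ⟨fun w x h1 h2 => (h.cover w x h1 h2).symm, h.eqC, h.eqA, fun w w' x => h.monoC w' w x,
    fun w w' x => h.monoA w' w x, h.idC, h.idA⟩

omit [CompleteLinearOrder X] in
lemma pow_agree {t β : G} {Q : X → Prop} (hQ : ∀ x, Q x → Q (t • x))
    (h : ∀ x, Q x → β • x = t • x) (n : ℕ) : ∀ x, Q x → β ^ n • x = t ^ n • x := by
  induction n with
  | zero => simp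
  | succ n ih =>
    intro x hx
    rw [pow_succ, pow_succ, mul_smul, mul_smul, h x hx, ih _ (hQ x hx)]

namespace PLA

variable (H : PLA G X)
include H

lemma cuts {K : Subgroup G} {P : X → Prop} {le : X → X → Prop}
    (tot : ∀ w w', le w w' ∨ le w' w) {L : X → G → Prop}
    (Pinv : ∀ g ∈ K, ∀ w, P w → P (g • w)) (Lmono : ∀ w w' g, le w w' → L w g → L w' g)
    (Leq : ∀ h ∈ K, ∀ w g, L w g → L (h • w) (h * g * h⁻¹)) {α β : G} (hαK : α ∈ K)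
    (hβK : β ∈ K) {r0 s0 : X} (pr : P r0) (ps : P s0) (hr : L r0 α)
    (hα : ∀ w, P w → ∃ h ∈ K, L w (h * α * h⁻¹)) (hβ : ∀ w, P w → le w s0 → β • w = w)
    {o : X × X} (ho : Orb K o)
    (hfix : ∀ w, P w → ∃ x, o.1 < x ∧ x < o.2 ∧ ∀ g, L w g → g • x = x) (hm : Mv α o.1) :
    ∃ A C, Cuts K P le α β o A C := by
  obtain ⟨p, q⟩ := o
  obtain ⟨hpq, fp, fq, hno⟩ := ho
  dsimp only at *
  have I := H.inc
  let F : X → X → Prop := fun w x => p < x ∧ x < q ∧ ∀ g, L w g → g • x = x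
  have Feq : ∀ h ∈ K, ∀ w x, F w x → F (h • w) (h • x) := by
    rintro h hh w x ⟨x1, x2, x3⟩
    refine ⟨I.gt_of_fix (fp h hh) x1, I.lt_of_fix (fq h hh) x2, fun g hg => ?_⟩
    have := Leq _ (K.inv_mem hh) _ _ hg
    rw [inv_smul_smul] at this
    have := x3 _ this
    rw [inv_inv, mul_smul, mul_smul, inv_smul_eq_iff] at this
    exact this
  have Fmono : ∀ w w' x, le w w' → F w' x → F w x := fun w w' x h hx =>
    ⟨hx.1, hx.2.1, fun g hg => hx.2.2 g (Lmono _ _ _ h hg)⟩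
  let A : X → X → Prop := fun w x => p < x ∧ ∀ x', F w x' → x ≤ x'
  have Aeq : ∀ g ∈ K, ∀ w x, A w x → A (g • w) (g • x) := by
    rintro g hg w x ⟨x1, x2⟩
    refine ⟨I.gt_of_fix (fp g hg) x1, fun x' hx' => I.le_inv.1 (x2 _ ?_)⟩
    simpa using Feq _ (K.inv_mem hg) _ _ hx'
  have Ane : ∀ w, P w → ∃ e, A w e := by
    intro w hw
    obtain ⟨h, hh, h1⟩ := hα w hw
    obtain ⟨e, e1, e2⟩ := hm
    refine ⟨h • e, I.gt_of_fix (fp h hh) e1, fun x' hx' => not_lt.1 fun r => ?_⟩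
    have := hx'.2.2 _ h1
    rw [mul_smul, mul_smul, ← eq_inv_smul_iff] at this
    exact e2 _ (I.gt_of_fix (fp _ (K.inv_mem hh)) hx'.1) (I.inv_lt.2 r).le this
  have both : ∀ w w', P w → P w' → ∃ v, P v ∧ le v w ∧ le v w' := fun w w' h h' =>
    (tot w w').elim (fun r => ⟨w, h, (tot w w).elim id id, r⟩)
      fun r => ⟨w', h', r, (tot w' w').elim id id⟩
  have both' : ∀ w w', P w → P w' → ∃ v, P v ∧ le w v ∧ le w' v := fun w w' h h' =>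
    (tot w w').elim (fun r => ⟨w', h', r, (tot w' w').elim id id⟩)
      fun r => ⟨w, h, (tot w w).elim id id, r⟩
  have low : ∀ e, p < e → ∃ w, P w ∧ ∃ x, F w x ∧ x < e := by
    intro e he
    by_contra hc
    push Not at hc
    obtain ⟨x0, x1, x2, x3⟩ := hfix _ ps
    have inv : ∀ g ∈ K, ∀ x ∈ {x | ∃ w, P w ∧ F w x}, sInf {x | ∃ w, P w ∧ F w x} ≤ g • x :=
      fun g hg x ⟨w, w1, w2⟩ => sInf_le ⟨_, Pinv g hg w w1, Feq g hg w x w2⟩
    exact hno (sInf {x | ∃ w, P w ∧ F w x})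
      (he.trans_le (le_sInf fun x ⟨w, w1, w2⟩ => hc w w1 x w2))
      ((sInf_le (s := {x | ∃ w, P w ∧ F w x}) ⟨s0, ps, x1, x2, x3⟩).trans_lt x2)
      fun g hg => I.fix_sInf (inv g hg) (inv _ (K.inv_mem hg))
  have high : ∀ e, e < q → ∃ w, P w ∧ ∃ x, A w x ∧ e < x := by
    intro e he
    by_contra hc
    push Not at hc
    obtain ⟨x0, x1⟩ := Ane _ ps
    have inv : ∀ g ∈ K, ∀ x ∈ {x | ∃ w, P w ∧ A w x}, g • x ≤ sSup {x | ∃ w, P w ∧ A w x} :=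
      fun g hg x ⟨w, w1, w2⟩ => le_sSup ⟨_, Pinv g hg w w1, Aeq g hg w x w2⟩
    exact hno (sSup {x | ∃ w, P w ∧ A w x}) (x1.1.trans_le (le_sSup ⟨s0, ps, x1⟩))
      ((sSup_le (s := {x | ∃ w, P w ∧ A w x}) fun x ⟨w, w1, w2⟩ => hc w w1 x w2).trans_lt he)
      fun g hg => I.fix_sSup (inv g hg) (inv _ (K.inv_mem hg))
  refine ⟨A, fun w x => x < q ∧ ∃ x', F w x' ∧ x' ≤ x, fun w x x1 x2 => ?_, Aeq, ?_,
    fun w w' x h hx => ⟨hx.1, fun x' hx' => hx.2 x' (Fmono _ _ _ h hx')⟩,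
    fun w w' x h ⟨x1, x', x2, x3⟩ => ⟨x1, x', Fmono _ _ _ h x2, x3⟩, ?_, ?_⟩
  · by_cases h : ∃ x', F w x' ∧ x' ≤ x
    · exact Or.inr ⟨x2, h⟩
    · exact Or.inl ⟨x1, fun x' hx' => not_lt.1 fun r => h ⟨x', hx', r.le⟩⟩
  · rintro g hg w x ⟨x1, x', x2, x3⟩
    exact ⟨I.lt_of_fix (fq g hg) x1, g • x', Feq g hg _ _ x2, (I.le_iff g).2 x3⟩
  · rcases H.isoR β p q (fp β hβK) hpq with ⟨e, e1, e2⟩ | ⟨e, e1, e2⟩
    · obtain ⟨w, w1, x, x1, x2⟩ := low e e1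
      exact ⟨w, w1, fun y hy => e2 y hy.1.le ((hy.2 x x1).trans x2.le)⟩
    · exfalso
      obtain ⟨w, w1, x, x1, x2⟩ := low e e1
      obtain ⟨v, v1, v2, v3⟩ := both w s0 w1 ps
      obtain ⟨d, d1, d2⟩ := Ane v v1
      have b1 := hβ v v1 v3
      refine e2 (sInf {x | F v x}) (d1.trans_le (le_sInf d2))
        ((sInf_le (s := {x | F v x}) (Fmono _ _ _ v2 x1)).trans x2.le) (I.fix_sInf ?_ ?_)
      · exact fun y hy => sInf_le (show F v (β • y) from b1 ▸ Feq β hβK v y hy)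
      · exact fun y hy => sInf_le (show F v (β⁻¹ • y) from
          fix_inv b1 ▸ Feq _ (K.inv_mem hβK) v y hy)
  · rcases H.isoL α q p (fq α hαK) hpq with ⟨e, e1, e2⟩ | ⟨e, e1, e2⟩
    · obtain ⟨w, w1, x, x1, x2⟩ := high e e1
      exact ⟨w, w1, fun y ⟨y1, y', y2, y3⟩ => e2 y (x2.le.trans ((x1.2 y' y2).trans y3)) y1.le⟩
    · exfalso
      obtain ⟨w, w1, x, x1, x2⟩ := high e e1
      obtain ⟨v, v1, v2, v3⟩ := both' w r0 w1 pr
      obtain ⟨y, y1⟩ := hfix v v1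
      exact e2 y (x2.le.trans (x1.2 y (Fmono _ _ _ v2 y1))) y1.2.1 (y1.2.2 α (Lmono _ _ _ v3 hr))

variable [DenselyOrdered X]

lemma cuts_of_fix {α β : G} {a c r0 s0 : X} (ha : Fx (Subgroup.closure {α, β}) a)
    (hc : Fx (Subgroup.closure {α, β}) c) (ht : ∀ y, a < y → y < c → y < (β * α) • y)
    (pr : a < r0 ∧ r0 < c) (ps : a < s0 ∧ s0 < c) (hα : ∀ y, r0 ≤ y → y ≤ c → α • y = y)
    (hβ : ∀ y, a ≤ y → y ≤ s0 → β • y = y) {o : X × X} (ho : Orb (Subgroup.closure {α, β}) o)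
    {y0 z0 x0 : X} (y1 : a < y0) (y2 : y0 ≤ z0) (y3 : z0 < c) (x1 : o.1 < x0) (x2 : x0 < o.2)
    (x3 : ∀ g ∈ Subgroup.closure {α, β}, (∀ w, y0 ≤ w → w ≤ z0 → g • w = w) → g • x0 = x0) :
    ∃ A C, Cuts (Subgroup.closure {α, β}) (fun w => a < w ∧ w < c) (· ≤ ·) α β o A C := by
  have I := H.inc
  have hαK : α ∈ Subgroup.closure {α, β} := Subgroup.subset_closure (by simp)
  have hβK : β ∈ Subgroup.closure {α, β} := Subgroup.subset_closure (by simp)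
  generalize hK : Subgroup.closure {α, β} = K at *
  have htK : β * α ∈ K := K.mul_mem hβK hαK
  have Pinv : ∀ g ∈ K, ∀ w, a < w ∧ w < c → a < g • w ∧ g • w < c := fun g hg w hw =>
    ⟨I.gt_of_fix (ha g hg) hw.1, I.lt_of_fix (hc g hg) hw.2⟩
  have up : ∀ y w, a < y → y < c → w < c → ∃ h ∈ K, w ≤ h • y := fun y w r1 r2 r3 => by
    obtain ⟨n, hn⟩ := I.cof (ht y r1 r2).le
      (fun x k1 k2 => (ht x (r1.trans_le k1) k2).ne') r3
    exact ⟨_, K.pow_mem htK n, hn.le⟩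
  have down : ∀ y w, y < c → a < w → w < c → ∃ h ∈ K, h • y ≤ w := fun y w r1 r2 r3 => by
    obtain ⟨h, h1, h2⟩ := up w y r2 r3 r1
    exact ⟨_, K.inv_mem h1, I.inv_le.2 h2⟩
  have Leq : ∀ h ∈ K, ∀ (w : X) (g : G), (g ∈ K ∧ ∀ y, w ≤ y → y ≤ c → g • y = y) →
      h * g * h⁻¹ ∈ K ∧ ∀ y, h • w ≤ y → y ≤ c → (h * g * h⁻¹) • y = y := by
    refine fun h hh w g hg => ⟨K.mul_mem (K.mul_mem hh hg.1) (K.inv_mem hh), fun y r1 r2 => ?_⟩
    rw [mul_smul, mul_smul, hg.2 _ (I.le_inv.2 r1) (I.le_of_fix (hc _ (K.inv_mem hh)) r2),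
      smul_inv_smul]
  have Req : ∀ h ∈ K, ∀ (w : X) (g : G), (g ∈ K ∧ ∀ y, a ≤ y → y ≤ w → g • y = y) →
      h * g * h⁻¹ ∈ K ∧ ∀ y, a ≤ y → y ≤ h • w → (h * g * h⁻¹) • y = y := by
    refine fun h hh w g hg => ⟨K.mul_mem (K.mul_mem hh hg.1) (K.inv_mem hh), fun y r1 r2 => ?_⟩
    rw [mul_smul, mul_smul, hg.2 _ (I.ge_of_fix (ha _ (K.inv_mem hh)) r1) (I.inv_le.2 r2),
      smul_inv_smul]
  have move : ∀ h ∈ K, ∀ g ∈ K, (∀ w, y0 ≤ w → w ≤ z0 → (h⁻¹ * g * h⁻¹⁻¹) • w = w) →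
      g • h • x0 = h • x0 := fun h hh g hg k => by
    have := x3 _ (K.mul_mem (K.mul_mem (K.inv_mem hh) hg) (K.inv_mem (K.inv_mem hh))) k
    rwa [inv_inv, mul_smul, mul_smul, inv_smul_eq_iff] at this
  rcases H.germ_orb (hK ▸ ho) with hm | hm
  · refine H.cuts (L := fun w g => g ∈ K ∧ ∀ y, w ≤ y → y ≤ c → g • y = y) le_total Pinv
      (fun w w' g r hg => ⟨hg.1, fun y r1 r2 => hg.2 y (r.trans r1) r2⟩) Leq hαK hβK pr ps
      ⟨hαK, hα⟩ (fun w hw => ?_) (fun w hw r => hβ w hw.1.le r) ho (fun w hw => ?_) hm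
    · obtain ⟨h, h1, h2⟩ := down r0 w pr.2 hw.1 hw.2
      have := Leq h h1 r0 α ⟨hαK, hα⟩
      exact ⟨h, h1, this.1, fun y r1 r2 => this.2 y (h2.trans r1) r2⟩
    · obtain ⟨h, h1, h2⟩ := up y0 w y1 (y2.trans_lt y3) hw.2
      refine ⟨h • x0, I.gt_of_fix (ho.2.1 h h1) x1, I.lt_of_fix (ho.2.2.1 h h1) x2,
        fun g hg => move h h1 g hg.1 fun v v1 v2 => ?_⟩
      exact (Leq _ (K.inv_mem h1) w g hg).2 v ((I.inv_le.2 h2).trans v1) (v2.trans y3.le)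
  · obtain ⟨A, C, h⟩ := H.cuts (le := fun x y => y ≤ x)
      (L := fun w g => g ∈ K ∧ ∀ y, a ≤ y → y ≤ w → g • y = y) (fun x y => le_total y x) Pinv
      (fun w w' g r hg => ⟨hg.1, fun y r1 r2 => hg.2 y r1 (r2.trans r)⟩) Req hβK hαK ps pr
      ⟨hβK, hβ⟩ (fun w hw => by
        obtain ⟨h, h1, h2⟩ := up s0 w ps.1 ps.2 hw.2
        have := Req h h1 s0 β ⟨hβK, hβ⟩
        exact ⟨h, h1, this.1, fun y r1 r2 => this.2 y r1 (r2.trans h2)⟩)
      (fun w hw r => hα w r hw.2.le) ho (fun w hw => by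
        obtain ⟨h, h1, h2⟩ := down z0 w y3 hw.1 hw.2
        refine ⟨h • x0, I.gt_of_fix (ho.2.1 h h1) x1, I.lt_of_fix (ho.2.2.1 h h1) x2,
          fun g hg => move h h1 g hg.1 fun v v1 v2 => ?_⟩
        exact (Req _ (K.inv_mem h1) w g hg).2 v (y1.le.trans v1) (v2.trans (I.le_inv.2 h2))) hm
    exact ⟨C, A, h.flip⟩

theorem ubiq_aux {α β : G} {K : Subgroup G} (hK : Subgroup.closure {α, β} = K) {a c r0 s0 : X}
    (ha : Fx K a) (hc : Fx K c) (ht : ∀ y, a < y → y < c → y < (β * α) • y)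
    (pr : a < r0 ∧ r0 < c) (ps : a < s0 ∧ s0 < c) (hsr : s0 < r0)
    (hα : ∀ y, r0 ≤ y → y ≤ c → α • y = y) (hβ : ∀ y, a ≤ y → y ≤ s0 → β • y = y) :
    ∃ A ∈ K, ∃ B ∈ K, ¬ Commute A B ∧ Commute A (B * A * B * (B * A)⁻¹) ∧
      Commute A (B * A * (B * A * B * (B * A)⁻¹) * (B * A)⁻¹) := by
  have I := H.inc
  have hαK : α ∈ K := hK ▸ Subgroup.subset_closure (by simp)
  have hβK : β ∈ K := hK ▸ Subgroup.subset_closure (by simp)
  let TC : X × X → Prop := fun o => ∃ y z, a < y ∧ y ≤ z ∧ z < c ∧ ∃ x, o.1 < x ∧ x < o.2 ∧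
    ∀ g ∈ K, (∀ w, y ≤ w → w ≤ z → g • w = w) → g • x = x
  have key : ∀ o : X × X, ∃ (A C : X → X → Prop) (s r : X), Orb K o ∧ TC o →
      Cuts K (fun w => a < w ∧ w < c) (· ≤ ·) α β o A C ∧
        (a < s ∧ ∀ x, A s x → β • x = x) ∧ r < c ∧ ∀ x, C r x → α • x = x := by
    intro o
    by_cases ho : Orb K o ∧ TC o
    · obtain ⟨h0, y, z, y1, y2, y3, x, x1, x2, x3⟩ := ho
      subst hK
      obtain ⟨A, C, h⟩ := H.cuts_of_fix ha hc ht pr ps hα hβ h0 y1 y2 y3 x1 x2 x3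
      obtain ⟨s, s1, s2⟩ := h.idA
      obtain ⟨r, r1, r2⟩ := h.idC
      exact ⟨A, C, s, r, fun _ => ⟨h, ⟨s1.1, s2⟩, r1.2, r2⟩⟩
    · exact ⟨⊥, ⊥, a, a, fun r => absurd r ho⟩
  choose A C sf rf hcut using key
  have hfin : {o : X × X | Orb K o ∧ TC o}.Finite :=
    (H.finite_orb α β).subset fun o ho => hK ▸ ho.1
  obtain ⟨s, s1, s2⟩ := Set.exists_min_image _ id ((hfin.image sf).insert s0)
    (Set.insert_nonempty _ _)
  obtain ⟨r, r1, r2⟩ := Set.exists_max_image _ id ((hfin.image rf).insert r0)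
    (Set.insert_nonempty _ _)
  have ss : s ≤ s0 := s2 _ (Set.mem_insert _ _)
  have rr : r0 ≤ r := r2 _ (Set.mem_insert _ _)
  have as : a < s := by
    rcases s1 with rfl | ⟨o, ho, rfl⟩
    exacts [ps.1, (hcut o ho).2.1.1]
  have rc : r < c := by
    rcases r1 with rfl | ⟨o, ho, rfl⟩
    exacts [pr.2, (hcut o ho).2.2.1]
  have sr : s < r := ss.trans_lt (hsr.trans_le rr)
  have sc := sr.trans rc
  have ar := as.trans sr
  obtain ⟨n, hn⟩ := I.cof (ht s as sc).le (fun x k1 k2 => (ht x (as.trans_le k1) k2).ne') rc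
  have push := @PLA.push G X _ _ _ _ H α β
  rw [hK] at push
  have htK : β * α ∈ K := K.mul_mem hβK hαK
  generalize hT : (β * α) ^ n = T at hn
  have hTK : T ∈ K := hT ▸ K.pow_mem htK n
  have hBK : β ^ n ∈ K := K.pow_mem hβK n
  have hAK : (β ^ n)⁻¹ * T ∈ K := K.mul_mem (K.inv_mem hBK) hTK
  have Tr : r ≤ T • r := hT ▸ I.le_pow (ht r ar rc).le n
  have Ts : T⁻¹ • s ≤ s := I.inv_le.2 (sr.trans hn).le
  have idA : ∀ Q : X → Prop, (∀ x, Q x → Q ((β * α) • x)) → (∀ x, Q x → α • x = x) →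
      ∀ x, Q x → ((β ^ n)⁻¹ * T) • x = x := fun Q q1 q2 x hx => by
    rw [mul_smul, ← hT, ← pow_agree (β := β) q1 (fun y hy => by rw [mul_smul, q2 y hy]) n x hx,
      inv_smul_smul]
  generalize hA : (β ^ n)⁻¹ * T = A0 at *
  have hBA : β ^ n * A0 = T := by rw [← hA, mul_inv_cancel_left]
  have idB : ∀ x : X, β • x = x → β ^ n • x = x := fun x hx => by simpa using fix_zpow hx n
  generalize β ^ n = B0 at *
  have A1 : ∀ x, r ≤ x → x ≤ c → A0 • x = x := fun x x1 x2 =>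
    idA (fun x => r ≤ x ∧ x ≤ c) (fun y hy => ⟨(ht r ar rc).le.trans ((I.le_iff _).2 hy.1),
      I.le_of_fix (hc _ htK) hy.2⟩) (fun y hy => hα y (rr.trans hy.1) hy.2) x ⟨x1, x2⟩
  have B1 : ∀ x, a ≤ x → x ≤ s → B0 • x = x := fun x x1 x2 => idB x (hβ x x1 (x2.trans ss))
  have As : A0 • s < r := I.lt_of_fix (A1 r le_rfl rc.le) sr
  have aAs : a < A0 • s := I.gt_of_fix (ha _ hAK) as
  have Tsc : T • s < c := I.lt_of_fix (hc _ hTK) sc
  let Γ : Subgroup G := K ⊓ fixingSubgroup G (Set.Icc (min s (A0 • s)) (T • s))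
  have mΓ : ∀ g, g ∈ Γ ↔ g ∈ K ∧ ∀ w, min s (A0 • s) ≤ w → w ≤ T • s → g • w = w := fun g => by
    simp only [Γ, Subgroup.mem_inf, mem_fixingSubgroup_iff, Set.mem_Icc, and_imp]
  obtain ⟨k, hk, k1⟩ := push (Γ := Γ) inf_le_left (D := {o | Orb K o ∧ ¬ TC o})
    (fun o ho => ⟨ho.1, fun x x1 x2 => by
      by_contra hx
      push Not at hx
      exact ho.2 ⟨_, _, lt_min as aAs, (min_le_left _ _).trans (sr.trans hn).le, Tsc, x, x1, x2,
        fun g g1 g2 => hx g ((mΓ g).2 ⟨g1, g2⟩)⟩⟩) hAK (K.inv_mem hTK) hBK hTK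
  obtain ⟨hkK, k2⟩ := (mΓ k).1 hk
  have ks : k • s = s := k2 s (min_le_left _ _) (sr.trans hn).le
  have kA : k • A0 • s = A0 • s := k2 _ (min_le_right _ _) (As.trans hn).le
  have kT : k • T • s = T • s := k2 _ ((min_le_left _ _).trans (sr.trans hn).le) le_rfl
  have hA'K : A0 * T⁻¹ * A0⁻¹ * T⁻¹⁻¹ ∈ K := K.mul_mem (K.mul_mem (K.mul_mem hAK
    (K.inv_mem hTK)) (K.inv_mem hAK)) (K.inv_mem (K.inv_mem hTK))
  have hB'K : k * (B0 * T * B0⁻¹ * T⁻¹) * k⁻¹ ∈ K := K.mul_mem (K.mul_mem hkK (K.mul_mem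
    (K.mul_mem (K.mul_mem hBK hTK) (K.inv_mem hBK)) (K.inv_mem hTK))) (K.inv_mem hkK)
  have A2 : ∀ x : X, A0 • T • x = T • x → (A0 * T⁻¹ * A0⁻¹ * T⁻¹⁻¹) • x = A0 • x := fun x hx => by
    rw [inv_inv, mul_smul, mul_smul, mul_smul, fix_inv hx, inv_smul_smul]
  have B2 : ∀ x : X, B0 • T⁻¹ • k⁻¹ • x = T⁻¹ • k⁻¹ • x →
      (k * (B0 * T * B0⁻¹ * T⁻¹) * k⁻¹) • x = k • B0 • k⁻¹ • x := fun x hx => by
    rw [mul_smul, mul_smul, mul_smul, mul_smul, mul_smul, fix_inv hx, smul_inv_smul]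
  have A3 : (A0 * T⁻¹ * A0⁻¹ * T⁻¹⁻¹) • s = A0 • s := A2 s (A1 _ hn.le Tsc.le)
  have B3 : (k * (B0 * T * B0⁻¹ * T⁻¹) * k⁻¹) • A0 • s = T • s := by
    rw [B2, fix_inv kA, ← mul_smul B0, hBA, kT]
    rw [fix_inv kA]
    exact B1 _ (I.ge_of_fix (ha _ (K.inv_mem hTK)) aAs.le) (I.inv_le.2 (As.trans hn).le)
  have B4 : ∀ x, a ≤ x → x ≤ s → (k * (B0 * T * B0⁻¹ * T⁻¹) * k⁻¹) • x = x := fun x x1 x2 => by
    have y1 := I.ge_of_fix (ha _ (K.inv_mem hkK)) x1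
    have y2 := I.le_of_fix (fix_inv ks) x2
    rw [B2 x (B1 _ (I.ge_of_fix (ha _ (K.inv_mem hTK)) y1)
      (((I.le_iff _).2 y2).trans Ts)), B1 _ y1 y2, smul_inv_smul]
  have AC : ∀ o, Orb K o ∧ TC o → ∀ x, C o r x → (A0 * T⁻¹ * A0⁻¹ * T⁻¹⁻¹) • x = x := by
    intro o ho x hx
    obtain ⟨h, -, -, h2⟩ := hcut o ho
    have e := idA (C o r) (fun y hy => h.monoC _ _ _ (ht r ar rc).le (h.eqC _ htK _ _ hy))
      fun y hy => h2 y (h.monoC _ _ _ (r2 _ (Set.mem_insert_of_mem _ ⟨o, ho, rfl⟩)) hy)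
    rw [A2 x (e _ (h.monoC _ _ _ Tr (h.eqC _ hTK _ _ hx))), e x hx]
  have BA : ∀ o, Orb K o ∧ TC o → ∀ x, A o s x →
      (k * (B0 * T * B0⁻¹ * T⁻¹) * k⁻¹) • x = x := by
    intro o ho x hx
    obtain ⟨h, ⟨-, h2⟩, -⟩ := hcut o ho
    have e : ∀ y, A o s y → B0 • y = y := fun y hy =>
      idB y (h2 y (h.monoA _ _ _ (s2 _ (Set.mem_insert_of_mem _ ⟨o, ho, rfl⟩)) hy))
    have x1 : A o s (k⁻¹ • x) := fix_inv ks ▸ h.eqA _ (K.inv_mem hkK) _ _ hx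
    rw [B2 x (e _ (h.monoA _ _ _ Ts (h.eqA _ (K.inv_mem hTK) _ _ x1))), e _ x1, smul_inv_smul]
  generalize A0 * T⁻¹ * A0⁻¹ * T⁻¹⁻¹ = A' at *
  generalize k * (B0 * T * B0⁻¹ * T⁻¹) * k⁻¹ = B' at *
  have hSK : B' * A' ∈ K := K.mul_mem hB'K hA'K
  have Ss : (B' * A') • s = T • s := by rw [mul_smul, A3, B3]
  have main : ∀ S ∈ K, r ≤ S • s → (∀ Q : X → Prop, (∀ y, Q y → Q ((B' * A')⁻¹ • y)) →
      ∀ y, Q y → Q (S⁻¹ • y)) → Commute A' (S * B' * S⁻¹) := by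
    intro S hS S1 S2
    refine commute_of_disj H.faith fun y => ?_
    by_cases hy : Fx K y
    · exact Or.inl (hy _ hA'K)
    obtain ⟨o, o1, o2, o3⟩ := I.exists_orb hy
    rw [mul_smul, mul_smul, ← eq_inv_smul_iff (g := S)]
    by_cases ho : TC o
    · obtain ⟨h, -⟩ := hcut o ⟨o1, ho⟩
      exact (h.cover r y o2 o3).symm.imp (AC o ⟨o1, ho⟩ y) fun e => BA o ⟨o1, ho⟩ _
        (h.monoA _ _ _ (I.inv_le.2 S1) (h.eqA _ (K.inv_mem hS) _ _ e))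
    · obtain ⟨Q, q1, q2⟩ := k1 o ⟨o1, ho⟩
      refine (em (Q y)).symm.imp (q1 y o2 o3) fun e => ?_
      have := S2 (fun y => o.1 < y ∧ y < o.2 ∧ Q y) (fun z ⟨z1, z2, z3⟩ => by
        have a1 := I.gt_of_fix (o1.2.1 _ (K.inv_mem hA'K)) z1
        have a2 := I.lt_of_fix (o1.2.2.1 _ (K.inv_mem hA'K)) z2
        rw [mul_inv_rev, mul_smul, fix_inv (q2 z z1 z2 z3)]
        refine ⟨a1, a2, by_contra fun hq => hq ?_⟩
        have := q1 _ a1 a2 hq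
        rw [smul_inv_smul] at this
        exact this ▸ z3) y ⟨o2, o3, e⟩
      exact q2 _ this.1 this.2.1 this.2.2
  refine ⟨A', hA'K, B', hB'K, fun hcm => ?_, main _ hSK (Ss ▸ hn.le) fun Q q => q, ?_⟩
  · have e : B' * A' * B' * (B' * A')⁻¹ = B' := by
      rw [((Commute.refl B').mul_left hcm).eq, mul_inv_cancel_right]
    have : B' • A0 • s = A0 • s := by
      rw [← e, mul_smul, mul_smul (B' * A'), B4 _ (I.ge_of_fix (ha _ (K.inv_mem hSK)) aAs.le)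
        (I.inv_le.2 (Ss ▸ (As.trans hn).le)), smul_inv_smul]
    exact (As.trans hn).ne (this.symm.trans B3)
  · have := main _ (K.mul_mem hSK hSK) (by
      rw [mul_smul]
      exact hn.le.trans (Ss ▸ (I.le_iff _).2 (Ss ▸ (sr.trans hn).le))) fun Q q y hy => by
        rw [mul_inv_rev, mul_smul]
        exact q _ (q _ hy)
    convert this using 1
    group

/-- The ubiquity theorem for a bump `t` and an element that is trivial near one end of it and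
agrees with `t` near the other end. -/
theorem ubiq {K : Subgroup G} {t β : G} (htK : t ∈ K) (hβK : β ∈ K) {a c r0 s0 : X}
    (ta : t • a = a) (tc : t • c = c) (ht : ∀ y, a < y → y < c → y < t • y) (hac : a < c)
    (hr : r0 < c) (hs : a < s0) (h1 : ∀ y, r0 ≤ y → y ≤ c → β • y = t • y)
    (h2 : ∀ y, a ≤ y → y ≤ s0 → β • y = y) :
    ∃ f : MP_3e9be7_al.ThompsonF →* K, Function.Injective f := by
  obtain ⟨m, m1, m2⟩ := exists_between hac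
  obtain ⟨l, l1, l2⟩ := exists_between m1
  have βa := h2 a le_rfl hs.le
  have βc := (h1 c hr.le le_rfl).trans tc
  obtain ⟨A, hA, B, hB, e1, e2, e3⟩ := H.ubiq_aux (α := β⁻¹ * t) (β := β) rfl (a := a) (c := c)
    (r0 := max r0 m) (s0 := min s0 l)
    (fx_closure (by rintro _ (rfl | rfl); exacts [by rw [mul_smul, ta, fix_inv βa], βa]))
    (fx_closure (by rintro _ (rfl | rfl); exacts [by rw [mul_smul, tc, fix_inv βc], βc]))
    (by rwa [mul_inv_cancel_left]) ⟨lt_max_of_lt_right m1, max_lt hr m2⟩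
    ⟨lt_min hs l1, min_lt_of_right_lt (l2.trans m2)⟩
    (min_lt_of_right_lt (lt_max_of_lt_right l2))
    (fun y y1 y2 => by rw [mul_smul, ← h1 y ((le_max_left _ _).trans y1) y2, inv_smul_smul])
    fun y y1 y2 => h2 y y1 (y2.trans (min_le_left _ _))
  have hK : Subgroup.closure {β⁻¹ * t, β} ≤ K := (Subgroup.closure_le K).2 (by
    rintro _ (rfl | rfl)
    exacts [K.mul_mem (K.inv_mem hβK) htK, hβK])
  exact exists_embed (A := (⟨A, hK hA⟩ : K)) (B := ⟨B, hK hB⟩)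
    (fun e => e1 (congrArg Subtype.val e)) (Subtype.ext e2) (Subtype.ext e3)

end PLA

end Pool.Agent.Lib.MP_24b811_al.Fp
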