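import Pool.Agent.Lib.MP_24b811_al.FrClosed

/-!
# Finitely generated abelian subgroups of F are diagram groups
-/

set_option autoImplicit false

namespace Pool.Agent.Lib.MP_24b811_al.Fp

open unitInterval Gc Fr

universe u

lemma exists_bumps (n : ℕ) : ∃ (b : Fin n → ThompsonF) (c d : Fin n → ℝ),
    (∀ i (y : I), b i • y ≠ y ↔ c i < y ∧ (y : ℝ) < d i) ∧ (∀ i, ∃ y : I, b i • y ≠ y) ∧
      ∀ i j, i < j → d i ≤ c j := by
  have he : (0 : ℝ) < 1 / 2 ^ (n + 2) := by positivity
  have hn : (n : ℝ) ≤ 2 ^ n := by exact_mod_cast Nat.lt_two_pow_self.le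
  have hb : ∀ i : Fin n, (4 * i : ℝ) * (1 / 2 ^ (n + 2)) + (2 + 1) * (1 / 2 ^ (n + 2)) ≤ 1 := by
    intro i
    have : ((i : ℕ) : ℝ) + 1 ≤ n := by exact_mod_cast i.2
    rw [← add_mul, mul_one_div, div_le_one (by positivity), pow_add]
    linarith
  have key : ∀ i : Fin n, ∃ f : ThompsonF, ∀ x : I, ((f • x : I) : ℝ) =
      bf 2 (4 * i * (1 / 2 ^ (n + 2))) (1 / 2 ^ (n + 2)) x := fun i =>
    (exists_bump (Or.inl rfl) he ⟨4 * (i : ℕ), n + 2, by push_cast; ring⟩ ⟨1, n + 2, by simp⟩
      (by positivity) (hb i)).imp fun _ h => h.1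
  choose b hb' using key
  have k : ∀ i (y : I), b i • y ≠ y ↔ (4 * i : ℝ) * (1 / 2 ^ (n + 2)) < y ∧
      (y : ℝ) < 4 * i * (1 / 2 ^ (n + 2)) + (2 + 1) * (1 / 2 ^ (n + 2)) := fun i y => by
    constructor
    · intro h
      by_contra r
      refine h (Subtype.ext ?_)
      rw [hb']
      rcases not_and_or.1 r with r | r
      exacts [bf_1 (Or.inl rfl) (not_lt.1 r), bf_4 (Or.inl rfl) (not_lt.1 r)]
    · rintro ⟨r1, r2⟩ e
      have := lt_bf (Or.inl rfl) r1 r2
      rw [← hb', e] at this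
      exact lt_irrefl _ this
  refine ⟨b, _, _, k, fun i => ⟨⟨4 * i * (1 / 2 ^ (n + 2)) + 1 / 2 ^ (n + 2), by positivity,
    by linarith [hb i]⟩, (k _ _).2 ⟨by simp, by dsimp only; linarith⟩⟩, fun i j h => ?_⟩
  have : ((i : ℕ) : ℝ) + 1 ≤ (j : ℕ) := by exact_mod_cast h
  rw [← add_mul]
  exact mul_le_mul_of_nonneg_right (by linarith) he.le

lemma zn_diagram (n : ℕ) : ∃ (S : Type u) (P : SemigroupPresentation S) (w : SqVertex P),
    Nonempty (Multiplicative (Fin n → ℤ) ≃* DiagramGroup P w) := by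
  classical
  obtain ⟨b, c, d, h1, h2, h3⟩ := exists_bumps n
  have uq : ∀ i j (y : I), b i • y ≠ y → j ≠ i → b j • y = y := fun i j y hy hj => by
    by_contra r
    rw [h1] at hy
    have r' := (h1 j y).1 r
    rcases lt_or_gt_of_ne hj with k | k <;> linarith [h3 _ _ k, hy.1, hy.2, r'.1, r'.2]
  have cm : Pairwise fun i j => ∀ (x y : Multiplicative ℤ),
      Commute (zpowersHom _ (b i) x) (zpowersHom _ (b j) y) := fun i j hij x y =>
    (commute_of_disj lmF.faith fun z => (em (b i • z = z)).imp id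
      fun r => uq i j z r hij.symm).zpow_zpow _ _
  let θ := MonoidHom.noncommPiCoprod (fun i => zpowersHom ThompsonF (b i)) cm
  have fx : ∀ (v : Fin n → Multiplicative ℤ) (y : I), (∀ j, b j ^ (v j).toAdd • y = y) →
      θ v • y = y := fun v y h =>
    Subgroup.noncommProd_mem (MulAction.stabilizer ThompsonF y) _ fun j _ => h j
  have ev : ∀ (v : Fin n → Multiplicative ℤ) (y : I) i, b i • y ≠ y →
      θ v • y = b i ^ (v i).toAdd • y := fun v y i hy => by
    have e : v = Pi.mulSingle i (v i) * Function.update v i 1 := by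
      ext j
      by_cases r : j = i
      · subst r; simp
      · simp [r]
    conv_lhs => rw [e, map_mul, mul_smul, fx _ y fun j => by
      by_cases r : j = i
      · subst r; simp
      · exact fix_zpow (uq i j y hy r) _]
    rw [MonoidHom.noncommPiCoprod_mulSingle]
    rfl
  have inj : Function.Injective θ := (injective_iff_map_eq_one _).2 fun v hv => funext fun i => by
    obtain ⟨y, hy⟩ := h2 i
    by_contra r
    exact hy (lmF.fix_of_zpow (n := (v i).toAdd) r (by rw [← ev v y i hy, hv, one_smul]))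
  have cl : Closed θ.range := by
    rintro _ ⟨v, rfl⟩ a - ha
    refine ⟨_, ⟨fun j => if c j < a then v j else 1, rfl⟩, fun y => ?_⟩
    by_cases hy : ∃ i, b i • y ≠ y
    · obtain ⟨i, hi⟩ := hy
      have hi' := (h1 i y).1 hi
      rw [ev _ y i hi, ev _ y i hi]
      refine ⟨fun r => by rw [if_pos (hi'.1.trans_le r)], fun r => ?_⟩
      split_ifs with r'
      · have ha' := (h1 i a).2 ⟨r', lt_of_le_of_lt r hi'.2⟩
        have : (v i).toAdd = 0 := by_contra fun k =>
          ha' (lmF.fix_of_zpow k (by rw [← ev v a i ha', ha]))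
        rw [this, zpow_zero, one_smul]
      · simp
    · push Not at hy
      rw [fx _ y fun j => fix_zpow (hy j) _, fx _ y fun j => fix_zpow (hy j) _]
      exact ⟨fun _ => rfl, fun _ => rfl⟩
  obtain ⟨e⟩ := diagram_of_closed.{u} cl
  exact ⟨_, _, _, ⟨((MulEquiv.funMultiplicative (Fin n) ℤ).trans
    (MonoidHom.ofInjective inj)).trans e⟩⟩

theorem abelian_case (H : Subgroup ThompsonF) (hfg : Group.FG H) (hc : ∀ x y : H, x * y = y * x) :
    (∃ n : ℕ, Nonempty (H ≃* Multiplicative (Fin n → ℤ))) ∧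
      ∃ (S : Type u) (P : SemigroupPresentation S) (w : SqVertex P),
        Nonempty (H ≃* DiagramGroup P w) := by
  letI : CommGroup H := { (inferInstance : Group H) with mul_comm := hc }
  haveI : Module.Finite ℤ (Additive H) := Module.Finite.iff_addGroup_fg.2 inferInstance
  haveI : NoZeroSMulDivisors ℤ (Additive H) := ⟨fun {k x} h => or_iff_not_imp_left.2 fun hk => by
    have h1 : x.toMul.1 ^ k = 1 := congrArg Subtype.val (congrArg Additive.toMul h)
    exact congrArg Additive.ofMul (Subtype.ext (lmF.faith _ fun y =>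
      lmF.fix_of_zpow hk (by rw [h1, one_smul])) : x.toMul = 1)⟩
  let e : H ≃* Multiplicative (Fin (Module.finrank ℤ (Additive H)) → ℤ) :=
    AddEquiv.toMultiplicativeRight (Module.finBasis ℤ (Additive H)).equivFun.toAddEquiv
  obtain ⟨S, P, w, ⟨f⟩⟩ := zn_diagram.{u} (Module.finrank ℤ (Additive H))
  exact ⟨⟨_, ⟨e⟩⟩, S, P, w, ⟨e.trans f⟩⟩

end Pool.Agent.Lib.MP_24b811_al.Fp
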