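import Pool.Agent.Lib.MP_24b811_al.FrMove

/-!
# Subgroups of F that satisfy the cutting condition are diagram groups
-/

set_option autoImplicit false

namespace Pool.Agent.Lib.MP_24b811_al.Fr

open CategoryTheory unitInterval Gc List Relation

universe u

variable {H : Subgroup ThompsonF} {Λ : Lev H}

/-- The element maps the intervals of one list affinely to those of the other. -/
abbrev Pr (g : ThompsonF) : List Nd → List Nd → Prop :=
  Forall₂ fun u v => ∀ τ, g • pt u τ = pt v τ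

lemma right_pos (u : Nd) : 0 < pt u 1 := lt_of_le_of_lt (pt u 0).2.1 (pt_lt u)

lemma lev_eq {g : ThompsonF} (hg : g ∈ H) {u v : Nd} (h : ∀ τ, g • pt u τ = pt v τ)
    (h1 : pt u 1 < 1) (m m' : ℕ) : lev Λ u m = lev Λ v m' ↔
      Λ.B (pt u 1) * sl true (pt u 1) g = Λ.B (pt u 1) * (m - m') := by
  rw [lev, lev, ← h, Λ.A_smul g hg, Λ.B_smul g hg, Λ.C_smul g hg _ (right_pos u) h1,
    (sl_aff h).2]
  constructor <;> intro k <;> linarith

lemma lev_one {u : Nd} (h : pt u 1 = 1) (m : ℕ) : lev Λ u m = 0 := by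
  rw [lev, h, Λ.A1, (Λ.zero _ Λ.A1).1, (Λ.zero _ Λ.A1).2]
  simp

lemma sig_eq {g : ThompsonF} (hg : g ∈ H) {us vs : List Nd} (h : Pr g us vs) {x : I}
    (hc : Ch x us) : sig.{u} Λ 0 us = sig Λ 0 vs := by
  induction h generalizing x with
  | nil => rfl
  | @cons u v us vs h h' ih =>
    rw [sig, sig, ih hc.2, cls_eq.2 ⟨g, hg, h⟩]
    congr 2
    cases h' with
    | nil => rw [lev_one hc.2, lev_one (by rw [← h, show pt u 1 = 1 from hc.2, fix_one])]
    | cons k _ =>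
      rw [lev_eq hg h (hc.2.1 ▸ left_lt _), ← hc.2.1, (sl_aff k).1]
      rfl

lemma mem_of_sig {G : ThompsonF} {us : List Nd} : ∀ {u v : Nd} {vs : List Nd},
    Pr G (u :: us) (v :: vs) → Ch (pt u 1) us → Ch (pt v 1) vs →
    sig.{u} Λ 0 (u :: us) = sig Λ 0 (v :: vs) →
    (∃ g ∈ H, ∀ y ≤ pt u 1, g • y = G • y) → G ∈ H := by
  induction us with
  | nil =>
    rintro u v vs - hc - - ⟨g, hg, h⟩
    have : g⁻¹ * G = 1 := lmF.faith _ fun y => by
      rw [mul_smul, ← h y (le_of_le_of_eq le_one' (Eq.symm hc)), inv_smul_smul]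
    rwa [← inv_mul_eq_one.1 this]
  | cons w us ih =>
    rintro u v vs hp hc hc' hs ⟨g, hg, h⟩
    obtain ⟨p1, hp⟩ := forall₂_cons.1 hp
    obtain ⟨w', vs, p2, -, rfl⟩ := forall₂_cons_left_iff.1 hp
    obtain ⟨s1, hs⟩ := cons.inj hs
    obtain ⟨k, hk, k1⟩ := cls_eq.1 (Prod.mk.inj (cons.inj hs).1).1
    have a1 : pt u 1 < 1 := hc.1 ▸ left_lt _
    obtain ⟨s, s2, s3⟩ := Λ.glue g hg k hk (pt u 1) a1
      (by rw [h _ le_rfl, ← hc.1, k1, p2])
      (by
        rw [(lev_eq hg (fun τ => (h _ (pt_mono u τ.2.2)).trans (p1 τ)) a1 _ _).1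
          (Prod.mk.inj s1).2, ← hc.1, (sl_aff k1).1]
        rfl)
    refine ih hp hc.2 hc'.2 hs ⟨s, s2, fun y hy => ?_⟩
    rcases le_total y (pt u 1) with r | r
    · rw [(s3 y).1 r, h y r]
    · obtain ⟨τ, rfl⟩ := exists_pt (hc.1 ▸ r) hy
      rw [(s3 _).2 r, k1, p2]

lemma pr_of_af {g : ThompsonF} {N : ℕ} {us : List Nd} : ∀ {x : I} {vs : List Nd}, Ch x us →
    Ch (g • x) vs → (∀ u ∈ us, Af g N u) → (∀ v ∈ vs, Af 1 N v) → Pr g us vs := by
  induction us with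
  | nil =>
    intro x vs h h' _ _
    cases vs with
    | nil => exact .nil
    | cons v vs =>
      rw [show x = 1 from h, fix_one] at h'
      exact absurd h'.1 (left_lt v).ne
  | cons u us ih =>
    intro x vs h h' a a'
    obtain ⟨w, w1, w2⟩ := a u mem_cons_self
    cases vs with
    | nil => exact absurd ((w2 0).symm.trans (h.1 ▸ h')) (left_lt w).ne
    | cons v vs =>
      obtain ⟨w', w3, w4⟩ := a' v mem_cons_self
      have e : (pt w 0 : ℝ) = pt w' 0 := by rw [← w2, ← w4, h.1, one_smul, h'.1]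
      rw [pt_val, pt_val, w1, w3, div_left_inj' (by positivity), add_left_inj] at e
      have k : ∀ τ, g • pt u τ = pt v τ := fun τ => by
        rw [w2, ← one_smul ThompsonF (pt v τ), w4]
        exact Subtype.ext (by rw [pt_val, pt_val, w1, w3, e])
      exact .cons k (ih h.2 (k 1 ▸ h'.2) (fun _ r => a _ (mem_cons_of_mem _ r))
        fun _ r => a' _ (mem_cons_of_mem _ r))

lemma Pr.ev {g : ThompsonF} {us vs : List Nd} (h : Pr g us vs) {D D' : Equiv.Perm ℝ} :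
    ∀ {x : I} {j : ℕ}, Ch x us → Ti D j us → Ti D' j vs →
      ∀ y : I, x < y → D y = D' (g • y : I) := by
  induction h with
  | nil => exact fun h _ _ y hy => absurd (lt_of_eq_of_lt (Eq.symm h) hy) (not_lt.2 le_one')
  | @cons u v us vs h _ ih =>
    intro x j k1 k2 k3 y hy
    rcases le_or_gt y (pt u 1) with r | r
    · obtain ⟨τ, rfl⟩ := exists_pt (k1.1 ▸ hy.le) r
      rw [h, k2.1, k3.1]
    · exact ih k1.2 k2.2 k3.2 y r

lemma pr_of_ti {G : ThompsonF} {D D' : Equiv.Perm ℝ} (h : ∀ y : I, D y = D' (G • y : I))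
    {us : List Nd} : ∀ {vs : List Nd} {j : ℕ}, Ti D j us → Ti D' j vs →
      sig.{u} Λ 0 us = sig Λ 0 vs → Pr G us vs := by
  induction us with
  | nil =>
    rintro (_ | _) _ _ _ e
    exacts [.nil, nomatch e]
  | cons u us ih =>
    rintro (_ | ⟨v, vs⟩) _ k1 k2 e
    · exact nomatch e
    exact .cons (fun τ => Subtype.ext (D'.injective (by rw [← h, k1.1, k2.1])))
      (ih k1.2 k2.2 (cons.inj e).2)

variable (Λ) in
/-- A subdivision with a diagram to its canonical word. -/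
def Sta (us : List Nd) (D : Equiv.Perm ℝ) : Prop :=
  Mo Λ [T.{u} H root, .M] (enc (sig Λ 0 us)) D ∧ Ch 0 us ∧ Ti D 0 us

lemma ch_root : Ch 0 [root] := ⟨pt_root 0, pt_root 1⟩

lemma ti_root : Ti 1 0 [root] := ⟨fun τ => by simp [pt_root], trivial⟩

lemma sig_root : sig.{u} Λ 0 [root] = [(cls H root, 0)] := by
  rw [sig, lev_one (pt_root 1)]
  rfl

lemma sta_sub {p : Nd → Prop} {u : Nd} (h : Sub p u) : ∀ a b D, Sta.{u} Λ (a ++ u :: b) D →
    ∃ m D', (∀ v ∈ m, p v) ∧ Sta.{u} Λ (a ++ (m ++ b)) D' := by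
  induction h with
  | @base u hu => exact fun a b D h => ⟨[u], D, by simpa using hu, h⟩
  | @node u _ _ ih0 ih1 =>
    intro a b D h
    obtain ⟨m, D1, k1, k2⟩ := ih0 a (c1 u :: b) _
      ⟨h.1.trans (mo_up h.2.1), h.2.1.up, by simpa using h.2.2.up⟩
    obtain ⟨m', D2, k3, k4⟩ := ih1 (a ++ m) b D1 (by rwa [append_assoc])
    exact ⟨m ++ m', D2, fun v hv => (mem_append.1 hv).elim (k1 v) (k3 v),
      by simpa only [append_assoc] using k4⟩

lemma exists_loop {g : ThompsonF} (hg : g ∈ H) : ∃ D : Equiv.Perm ℝ,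
    Mo Λ [T.{u} H root, .M] [T H root, .M] D ∧ ∀ y : I, 0 < y → D y = (g • y : I) := by
  obtain ⟨a, ha⟩ := sub_root g
  obtain ⟨b, hb⟩ := sub_root 1
  have h0 : Sta.{u} Λ ([] ++ [root]) 1 :=
    ⟨by rw [nil_append, sig_root]; exact .refl (by simp), ch_root, ti_root⟩
  obtain ⟨us, D, k1, k2, k3, k4⟩ := sta_sub (ha _ (le_max_left a b)) _ _ _ h0
  obtain ⟨vs, D', m1, m2, m3, m4⟩ := sta_sub (hb _ (le_max_right a b)) _ _ _ h0
  rw [nil_append, append_nil] at k2 k3 k4 m2 m3 m4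
  have hp := pr_of_af k3 ((fix_zero g).symm ▸ m3) k1 m1
  rw [sig_eq hg hp k3] at k2
  exact ⟨_, k2.trans m2.symm, fun y hy => by
    rw [Equiv.Perm.mul_apply, Equiv.Perm.inv_eq_iff_eq, hp.ev k3 k4 m4 y hy]⟩

/-- The weight of a counter. -/
def wt : Lz.{u} H → ℤ
  | .e => 1
  | .f => 1
  | .eb => -1
  | _ => 0

/-- Classes and levels of a word. -/
def sg : List (Lz.{u} H) → ℤ × List (Lt.{u} H × ℤ)
  | [] => (0, [])
  | .tile s :: l => (0, (s, (sg l).1) :: (sg l).2)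
  | x :: l => ((sg l).1 + wt x, (sg l).2)

lemma sg_tok {x : Lz.{u} H} (h : x.isT = false) (l : List (Lz.{u} H)) :
    sg (x :: l) = ((sg l).1 + wt x, (sg l).2) := by
  cases x <;> first | rfl | exact nomatch h

lemma sg_rep {x : Lz.{u} H} (h : x.isT = false) (n : ℕ) (l : List (Lz.{u} H)) :
    sg (replicate n x ++ l) = ((sg l).1 + n * wt x, (sg l).2) := by
  induction n with
  | zero => simp
  | succ n ih =>
    rw [replicate_succ, cons_append, sg_tok h, ih]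
    push_cast
    ring_nf

lemma sg_congr {x y : List (Lz.{u} H)} (h : sg x = sg y) (a : List (Lz.{u} H)) :
    sg (a ++ x) = sg (a ++ y) := by
  induction a with
  | nil => exact h
  | cons t a ih => cases t <;> simp only [cons_append, sg, ih]

lemma Rz.sg {z y : Pt (wz.{u} Λ)} (h : Rz z y) : sg y.1.word = sg z.1.word := by
  obtain ⟨a, b, r, h1, h2, rfl⟩ := h
  rw [fw_wd h2, h2, append_assoc, append_assoc]
  refine sg_congr ?_ a
  rcases cases0 h1 with rfl | rfl <;> simp [r1, r2, Fr.sg, wt]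

lemma sg_rhs (u : Nd) (b : List (Lz.{u} H)) : sg (rhs Λ u ++ b) = (Λ.B (pt u 0),
    (cls H (c0 u), cr Λ u) :: (cls H (c1 u), (sg b).1 + Λ.A (pt u 1)) :: (sg b).2) := by
  have := Λ.A_nonneg (pt u 1)
  simp only [rhs, append_assoc, cons_append, T, sg, wt, sg_rep (x := Lz.e) rfl,
    sg_rep (x := Lz.eb) rfl, sg_rep (x := Lz.f) rfl, Prod.mk.injEq, cons.injEq, true_and, and_true]
  omega

lemma sg_up {v : Nd} {b a : List (Lz.{u} H)} : ∀ {us : List Nd} {l : ℤ} {x : I},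
    sg (a ++ T H v :: b) = (l, sig Λ 0 us) → Ch x us → ∃ a' u b', us = a' ++ u :: b' ∧
      a'.length = nt a ∧ sg (a ++ (rhs Λ v ++ b)) =
        (l + Λ.B x * (hd 0 (a' ++ c0 u :: c1 u :: b') - hd 0 us),
          sig Λ 0 (a' ++ c0 u :: c1 u :: b')) := by
  induction a with
  | nil =>
    rintro (_ | ⟨u, us⟩) l x h hc <;> obtain ⟨rfl, h'⟩ := Prod.mk.inj h
    · exact nomatch h'
    obtain ⟨h1, h2⟩ := cons.inj h'
    obtain ⟨h1, h3⟩ := Prod.mk.inj h1
    refine ⟨[], u, us, rfl, rfl, ?_⟩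
    rw [nil_append, rhs_congr Λ h1, sg_rhs, h2, h3, hc.1]
    simp only [sig, hd, lev_c0, lev_c1, nil_append]
    simp [c0]
  | cons t a ih =>
    intro us l x h hc
    by_cases ht : t.isT = false
    · rw [cons_append, sg_tok ht] at h
      obtain ⟨rfl, h'⟩ := Prod.mk.inj h
      obtain ⟨a', u, b', k1, k2, k3⟩ := ih (Prod.ext rfl h') hc
      refine ⟨a', u, b', k1, by simp [k2, nt, ht], ?_⟩
      rw [cons_append, sg_tok ht, k3, add_right_comm]
    obtain ⟨s, rfl⟩ : ∃ s, t = .tile s := by cases t <;> first | exact ⟨_, rfl⟩ | exact absurd rfl ht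
    rcases us with _ | ⟨w, us⟩ <;> obtain ⟨rfl, h'⟩ := Prod.mk.inj h
    · exact nomatch h'
    obtain ⟨h1, h2⟩ := cons.inj h'
    obtain ⟨rfl, h3⟩ := Prod.mk.inj h1
    obtain ⟨a', u, b', rfl, k2, k3⟩ := ih (Prod.ext h3 h2) hc.2
    refine ⟨w :: a', u, b', rfl, (congrArg (· + 1) k2).trans (nt_T w a).symm, ?_⟩
    simp only [cons_append, sg, k3, sig, hd, sub_self, mul_zero, add_zero, lev]
    congr 3
    ring

lemma st_inv (f : vtx (wz.{u} Λ) ⟶ vtx (wz Λ)) {y : Pt (wz.{u} Λ)}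
    (h : ReflTransGen (fz Λ).St ⟨wz Λ, f⟩ y) : ∃ us, (sg y.1.word).2 = sig Λ 0 us ∧ Ch 0 us ∧
      Ti (vz y.2 * (vz f)⁻¹) 0 us := by
  induction h with
  | refl => exact ⟨[root], by rw [sig_root]; rfl, ch_root, by simpa using ti_root⟩
  | @tail y _ _ k ih =>
    obtain ⟨i, hi, rfl⟩ := k
    obtain ⟨us, k1, k2, k3⟩ := ih
    obtain ⟨a, v, b, e, rfl⟩ := splitT hi
    change y.1.word = _ at e
    obtain ⟨a', u, b', rfl, k4, k5⟩ := sg_up (Prod.ext rfl (e ▸ k1)) k2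
    refine ⟨_, ?_, k2.up, ?_⟩
    · change (sg (uz _ y).1.word).2 = _
      rw [uz_wd e, append_assoc, k5]
    · change Ti (vz (uz _ y).2 * _) _ _
      rw [uz_ev e, mul_assoc, ← k4]
      simpa using k3.up

lemma vz_prop (f : DiagramGroup (prez.{u} Λ) (wz Λ)) :
    vz f ∈ PL ∧ (∀ t ≤ 0, vz f t = t) ∧ ∀ t, 1 ≤ t → vz f t = t := by
  obtain ⟨h1, h2, h3⟩ := (fz Λ).ev_prop ⟨wz Λ, f⟩
  exact ⟨h1, h2, fun t ht => (h3 t ht).trans (by simp [fz, wz])⟩

variable (Λ) in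
/-- The embedding of the diagram group in F. -/
noncomputable def rz : DiagramGroup (prez.{u} Λ) (wz Λ) →* ThompsonF :=
  MonoidHom.mk' (fun f => toF (vz f) (vz_prop f).1 ((vz_prop f).2.1 0 le_rfl)
    ((vz_prop f).2.2 1 le_rfl)) fun f g =>
      Subtype.ext (Homeomorph.ext fun x => Subtype.ext
        (congrArg (fun p : Equiv.Perm ℝ => p x) (vz_comp g f)))

lemma rz_smul (f : DiagramGroup (prez.{u} Λ) (wz Λ)) (x : I) :
    ((rz Λ f • x : I) : ℝ) = vz f x := rfl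

lemma rz_inj : Function.Injective (rz.{u} Λ) := by
  refine (injective_iff_map_eq_one _).2 fun f hf => ?_
  have h1 : vz f = 1 := by
    ext t
    rcases le_total t 0 with h | h
    · exact (vz_prop f).2.1 t h
    rcases le_total 1 t with h' | h'
    · exact (vz_prop f).2.2 t h'
    · rw [← rz_smul f ⟨t, h, h'⟩, hf, one_smul]
      rfl
  have h2 : (⟨wz Λ, f⟩ : Pt (wz Λ)) = ⟨wz Λ, 𝟙 _⟩ :=
    Fp.ev_inj (F := fz Λ) rfl (h1.trans (fz Λ).ev0.symm)
  exact eq_of_heq (Sigma.mk.inj h2).2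

lemma rz_mem (f : DiagramGroup (prez.{u} Λ) (wz Λ)) : rz Λ f ∈ H := by
  obtain ⟨c, h, h'⟩ := (fz Λ).join ⟨wz Λ, 𝟙 _⟩ ⟨wz Λ, f⟩
  obtain ⟨y, y1, y2⟩ := Fp.std h
  obtain ⟨y', y3, y4⟩ := Fp.std h'
  have key : ∀ {y c : Pt (wz.{u} Λ)}, ReflTransGen (fz Λ).R y c → sg c.1.word = sg y.1.word :=
    fun h => by
      induction h with
      | refl => rfl
      | tail _ k ih => exact (Rz.sg k).trans ih
  obtain ⟨us, k1, k2, k3⟩ := st_inv _ y1
  obtain ⟨vs, m1, m2, m3⟩ := st_inv _ y3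
  have e : sig.{u} Λ 0 us = sig Λ 0 vs := by rw [← k1, ← m1, ← key y2, key y4]
  have e' : vz y.2 = vz y'.2 := (Fp.R_star y2).2.symm.trans (Fp.R_star y4).2
  have hp := pr_of_ti (G := rz Λ f) (fun x => by
    rw [rz_smul, vz_id, e']
    simp) k3 m3 e
  cases hp with
  | nil => exact absurd (show (0 : I) = 1 from k2) zero_ne_one
  | @cons u v us vs p1 p2 =>
    obtain ⟨g, hg, g1⟩ := cls_eq.1 (Prod.mk.inj (cons.inj e).1).1
    refine mem_of_sig (.cons p1 p2) k2.2 m2.2 e ⟨g, hg, fun x hx => ?_⟩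
    obtain ⟨τ, rfl⟩ := exists_pt (k2.1.le.trans nonneg') hx
    rw [g1, p1]

lemma rz_range : MonoidHom.range (G := DiagramGroup (prez.{u} Λ) (wz Λ)) (rz Λ) = H := by
  refine le_antisymm (by rintro _ ⟨f, rfl⟩; exact rz_mem f) fun g hg => ?_
  obtain ⟨_, ⟨_, _, f, rfl⟩, h⟩ := exists_loop.{u} (Λ := Λ) hg
  refine ⟨f, Subtype.ext (Homeomorph.ext fun x => ?_)⟩
  change rz Λ f • x = g • x
  rcases (show 0 ≤ x from x.2.1).eq_or_lt with rfl | r
  · rw [fix_zero, fix_zero]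
  · exact Subtype.ext (h x r)

/-- A subgroup of F that satisfies the cutting condition is a diagram group. -/
theorem diagram_of_cond (hH : Cond H) : ∃ (S : Type u) (P : SemigroupPresentation S)
    (w : SqVertex P), Nonempty (H ≃* DiagramGroup P w) := by
  obtain ⟨Λ⟩ := exists_lev hH
  exact ⟨_, _, wz Λ, ⟨((MonoidHom.ofInjective (G := DiagramGroup (prez.{u} Λ) (wz Λ))
    rz_inj).trans (MulEquiv.subgroupCongr rz_range)).symm⟩⟩

end Pool.Agent.Lib.MP_24b811_al.Fr
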