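import Pool.Agent.Lib.MP_24b811_al.FrNode

/-!
# Closed subgroups of F are diagram groups
-/

set_option autoImplicit false

namespace Pool.Agent.Lib.MP_24b811_al.Fr

open CategoryTheory unitInterval Gc

universe u

variable (H : Subgroup ThompsonF)

/-- The letters: classes of standard dyadic intervals. -/
abbrev Lt : Type u := ULift.{u} (Quotient (sd H))

/-- The class of an interval. -/
def cls (v : Nd) : Lt.{u} H := ⟨Quotient.mk _ v⟩

variable {H}

lemma cls_eq {v v' : Nd} : cls.{u} H v = cls H v' ↔ sd H v v' :=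
  ⟨fun h => Quotient.exact (congrArg ULift.down h), fun h => congrArg ULift.up (Quotient.sound h)⟩

lemma cls_surj (s : Lt.{u} H) : ∃ v, s = cls H v := by
  obtain ⟨⟨v⟩⟩ := s
  exact ⟨v, rfl⟩

variable (H)

/-- The presentation: an interval is the product of its halves. -/
def pres : SemigroupPresentation (Lt.{u} H) where
  rels := {r | ∃ v, r = ([cls H v], [cls H (c0 v), cls H (c1 v)])}
  lhs_ne_nil := by rintro _ ⟨v, rfl⟩; simp
  rhs_ne_nil := by rintro _ ⟨v, rfl⟩; simp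

/-- The relation of an interval. -/
def rel (v : Nd) : (pres.{u} H).rels := ⟨_, v, rfl⟩

/-- The base word. -/
def w0 : SqVertex (pres.{u} H) := ⟨[cls H root], by simp⟩

/-- An edge is sent to the doubling map at its place. -/
noncomputable def preX : SqVertex (pres.{u} H) ⥤q SingleObj (Equiv.Perm ℝ) where
  obj _ := SingleObj.star _
  map e := yy 1 e.1.left.length

variable {H}

lemma rel_surj (r : (pres.{u} H).rels) : ∃ v, r = rel H v := by
  obtain ⟨_, v, rfl⟩ := r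
  exact ⟨v, rfl⟩

lemma rel_congr {v v' : Nd} (h : cls.{u} H v = cls H v') : rel.{u} H v = rel H v' :=
  Subtype.ext (by
    simp only [rel, h, cls_eq.2 (sd_c0 (cls_eq.1 h)), cls_eq.2 (sd_c1 (cls_eq.1 h))])

lemma lift_preX {v w : SqVertex (pres.{u} H)} (e : v ⟶ w) :
    (Quiver.FreeGroupoid.lift (preX H)).map
      ((Quiver.FreeGroupoid.of (SqVertex (pres H))).map e) = yy 1 e.1.left.length :=
  congrArg (fun F : SqVertex (pres H) ⥤q SingleObj (Equiv.Perm ℝ) =>
    (show Equiv.Perm ℝ from F.map e)) (Quiver.FreeGroupoid.lift_spec (preX H))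

variable (H) in
/-- The functor to the maps of the line. -/
noncomputable def evX : SquierGroupoid (pres.{u} H) ⥤ SingleObj (Equiv.Perm ℝ) :=
  CategoryTheory.Quotient.lift _ (Quiver.FreeGroupoid.lift (preX H)) (by
    rintro _ _ _ _ ⟨a, b, d, r, s, v₁, v₂, v₃, v₄, e₁, e₂, e₃, e₄, h₁, h₂, h₃, h₄⟩
    rw [Functor.map_comp, Functor.map_comp]
    rw [lift_preX, lift_preX, lift_preX, lift_preX]
    change yy 1 _ * yy 1 _ = yy 1 _ * yy 1 _
    obtain ⟨v, rfl⟩ := rel_surj r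
    rw [h₁, h₂, h₃, h₄]
    have := yy_rel' 1 1 (i := a.length) (j := a.length + 1 + b.length) (by omega)
    simp only [rel, List.length_append, List.length_cons, List.length_nil]
    rwa [show a.length + (0 + 1 + 1) + b.length = a.length + 1 + b.length + 1 by omega])

/-- The value on a morphism. -/
noncomputable def vx {X Y : SquierGroupoid (pres.{u} H)} (f : X ⟶ Y) : Equiv.Perm ℝ :=
  (evX H).map f

lemma vx_comp {X Y Z : SquierGroupoid (pres.{u} H)} (f : X ⟶ Y) (g : Y ⟶ Z) :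
    vx (f ≫ g) = vx g * vx f := (evX H).map_comp f g

lemma vx_id (X : SquierGroupoid (pres.{u} H)) : vx (𝟙 X) = 1 := (evX H).map_id X

lemma vx_edge {v w : SqVertex (pres.{u} H)} (e : v ⟶ w) :
    vx (edgeHom e) = yy 1 e.1.left.length := lift_preX e

lemma vx_inv {X Y : SquierGroupoid (pres.{u} H)} (f : X ⟶ Y) :
    vx (Groupoid.inv f) = (vx f)⁻¹ := by
  rw [eq_inv_iff_mul_eq_one, ← vx_comp, Groupoid.comp_inv, vx_id]

/-- Expansion of a letter, in the universal cover. -/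
noncomputable def ux (i : ℕ) (z : Pt (w0.{u} H)) : Pt (w0 H) :=
  pext z (i, (rel H (cls_surj (z.1.word.getD i (cls H root))).choose, true))

lemma ux_eq {z : Pt (w0.{u} H)} {a b : List (Lt H)} {v : Nd} (h : z.1.word = a ++ cls H v :: b) :
    ux a.length z = pext z (a.length, (rel H v, true)) := by
  have h1 := (cls_surj (z.1.word.getD a.length (cls H root))).choose_spec
  rw [ux, ← rel_congr (v := v) (Eq.trans (by simp [h]) h1)]

lemma src_eq {z : Pt (w0.{u} H)} {a b : List (Lt H)} {v : Nd} (h : z.1.word = a ++ cls H v :: b) :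
    z.1.word = a ++ (sys (pres H)).src (rel H v, true) ++ b := by simp [h, sys, rel]

lemma split {l : List (Lt.{u} H)} {i : ℕ} (h : i < l.length) :
    ∃ a v b, l = a ++ cls H v :: b ∧ a.length = i := by
  obtain ⟨v, hv⟩ := cls_surj l[i]
  exact ⟨l.take i, v, l.drop (i + 1), by rw [← hv, ← List.drop_eq_getElem_cons,
    List.take_append_drop], by simp [h.le]⟩

lemma wd_ux {z : Pt (w0.{u} H)} {a b : List (Lt H)} {v : Nd} (h : z.1.word = a ++ cls H v :: b) :
    (ux a.length z).1.word = a ++ cls H (c0 v) :: cls H (c1 v) :: b := by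
  rw [ux_eq h]
  exact ((ptSet _).wd_ext trivial (src_eq h)).trans (by simp [sys, rel])

lemma vx_ux {z : Pt (w0.{u} H)} {a b : List (Lt H)} {v : Nd} (h : z.1.word = a ++ cls H v :: b) :
    vx (ux a.length z).2 = yy 1 a.length * vx z.2 := by
  rw [ux_eq h, pext_eq z rfl (src_eq h) (nv a b _) rfl]
  exact (vx_comp _ _).trans (congrArg (· * _) (vx_edge _))

lemma ux_edge {v v' : SqVertex (pres.{u} H)} (e : v ⟶ v') (g : vtx (w0 H) ⟶ vtx v) :
    e.1.left.length < v.word.length ∧ ux e.1.left.length ⟨v, g⟩ = ⟨v', g ≫ edgeHom e⟩ := by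
  obtain ⟨x, hx⟩ := rel_surj e.1.rel
  have h : v.word = e.1.left ++ cls H x :: e.1.right := by
    have := e.2.1.symm
    rw [SqEdge.src, hx] at this
    simpa [rel] using this
  refine ⟨by have := congrArg List.length h; simp at this; omega, ?_⟩
  rw [ux_eq (z := ⟨v, g⟩) h, ← hx]
  exact pext_eq (⟨v, g⟩ : Pt _) (m := (e.1.rel, true)) rfl e.2.1.symm v' e.2.2.symm

lemma ux_conn (Q : Pt (w0.{u} H) → Prop) (h0 : Q ⟨w0 H, 𝟙 _⟩)
    (h : ∀ i z, i < z.1.word.length → (Q z ↔ Q (ux i z))) (z : Pt (w0 H)) : Q z := by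
  have key : ∀ {X Y : SquierGroupoid (pres.{u} H)} (f : X ⟶ Y) (g : vtx (w0 H) ⟶ X),
      Q ⟨X.as.as, g⟩ → Q ⟨Y.as.as, g ≫ f⟩ := by
    intro X Y f
    induction f using hom_induction with
    | hid X =>
      exact fun g k => (congrArg (fun f => Q ⟨X.as.as, f⟩) (Category.comp_id g)).mpr k
    | hpos X v v' f e ih =>
      intro g k
      obtain ⟨k1, k2⟩ := ux_edge e (g ≫ f)
      have := (h _ ⟨v, g ≫ f⟩ k1).1 (ih g k)
      rwa [k2, Category.assoc] at this
    | hneg X v v' f e ih =>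
      intro g k
      obtain ⟨k1, k2⟩ := ux_edge e (g ≫ f ≫ Groupoid.inv (edgeHom e))
      refine (h _ ⟨v', g ≫ f ≫ Groupoid.inv (edgeHom e)⟩ k1).2 ?_
      rw [k2, Category.assoc, Category.assoc, Groupoid.inv_comp, Category.comp_id]
      exact ih g k
  have := key z.2 (𝟙 _) h0
  rwa [Category.id_comp] at this

lemma ux_sq {i j : ℕ} {z : Pt (w0.{u} H)} (h : i < j) (hj : j < z.1.word.length) :
    ux (j + 1) (ux i z) = ux i (ux j z) := by
  obtain ⟨a', v', c, h1, rfl⟩ := split hj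
  obtain ⟨a, v, b, rfl, rfl⟩ := split h
  have e1 := wd_ux (z := z) (a := a) (b := b ++ cls H v' :: c) (v := v) (by simp [h1])
  have e2 := wd_ux h1
  have e3 := ux_eq (z := ux a.length z) (a := a ++ cls H (c0 v) :: cls H (c1 v) :: b) (b := c)
    (v := v') (by simp [e1])
  have e4 := ux_eq (z := ux (a ++ cls H v :: b).length z) (a := a)
    (b := b ++ cls H (c0 v') :: cls H (c1 v') :: c) (v := v) (by rw [e2]; simp)
  have e5 := (ptSet (w0 H)).square (z := z) (a := a) (b := b) (c := c) (m := (rel H v, true))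
    (m' := (rel H v', true)) trivial (by
      change z.1.word = _
      simp [h1, sys, rel])
  have l1 : ((sys (pres H)).src ((sys (pres H)).inv (rel H v, true))).length = 2 := rfl
  have l2 : ((sys (pres H)).src (rel H v, true)).length = 1 := rfl
  rw [l1, l2] at e5
  rw [show (a ++ cls H v :: b).length + 1 = (a ++ cls H (c0 v) :: cls H (c1 v) :: b).length by
    simp [add_assoc], e3, e4, ux_eq h1, ux_eq (b := b ++ cls H v' :: c) (v := v) (by simp [h1]),
    show (a ++ cls H (c0 v) :: cls H (c1 v) :: b).length = a.length + 2 + b.length by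
      simp; omega,
    show (a ++ cls H v :: b).length = a.length + 1 + b.length by simp; omega]
  exact e5

lemma ux_inj (hH : Closed H) {i : ℕ} {z z' : Pt (w0.{u} H)} (h : i < z.1.word.length)
    (h1 : z.1.word.length = z'.1.word.length) (h2 : ux i z = ux i z') : z = z' := by
  obtain ⟨a, v, b, e, rfl⟩ := split h
  obtain ⟨a', v', b', e', hl⟩ := split (h1 ▸ h)
  have k1 := wd_ux e'
  rw [hl, ← h2, wd_ux e] at k1
  obtain ⟨rfl, k2⟩ := List.append_inj k1 hl.symm
  simp only [List.cons.injEq] at k2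
  have k3 : rel.{u} H v = rel H v' :=
    rel_congr (cls_eq.2 (hH.sd_up (cls_eq.1 k2.1) (cls_eq.1 k2.2.1)))
  rw [ux_eq e, ux_eq e', ← k3] at h2
  have c1 := (ptSet _).cancel trivial (src_eq e)
  have c2 := (ptSet _).cancel trivial (k3 ▸ src_eq e')
  exact c1.symm.trans ((congrArg (fun x => pext x _) h2).trans c2)

/-- The universal cover as a set of forests. -/
noncomputable def fx (hH : Closed H) : Fo (0 + 1) (Pt (w0.{u} H)) where
  len z := z.1.word.length
  up := ux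
  len_up h := by
    obtain ⟨a, v, b, e, rfl⟩ := split h
    rw [wd_ux e, e]
    simp [add_assoc]
  sq := ux_sq
  inj := ux_inj hH
  ev z := vx z.2
  ev_up h := by
    obtain ⟨a, v, b, e, rfl⟩ := split h
    exact vx_ux e
  z0 := ⟨w0 H, 𝟙 _⟩
  len0 := rfl
  ev0 := vx_id _
  conn := ux_conn

/-- The letter `j` of `z` is the image under `g` of the interval `v`. -/
def Lf (z : Pt (w0.{u} H)) (j : ℕ) (v : Nd) (g : ThompsonF) : Prop :=
  z.1.word[j]? = some (cls H v) ∧ ∀ τ : I, vx z.2 (g • pt v τ : I) = j + τ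

lemma yy_one (i : ℕ) (t : ℝ) : yy 1 i t = xe i t := rfl

lemma lf_aux {z : Pt (w0.{u} H)} {i : ℕ} (hi : i < z.1.word.length) {x s s' : ℝ}
    (h : xe i s = s') : vx (ux i z).2 x = s' ↔ vx z.2 x = s := by
  obtain ⟨a, v, b, e, rfl⟩ := split hi
  rw [vx_ux e, Equiv.Perm.mul_apply, yy_one, ← h, (xe _).injective.eq_iff]

lemma lf_lo {z : Pt (w0.{u} H)} {i j : ℕ} (hi : i < z.1.word.length) (hj : j < i) {v : Nd}
    {g : ThompsonF} : Lf (ux i z) j v g ↔ Lf z j v g := by
  have hj' : (j : ℝ) + 1 ≤ i := by exact_mod_cast hj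
  refine and_congr ?_ (forall_congr' fun τ => lf_aux hi (xe_1 (by linarith [τ.2.2])))
  obtain ⟨a, x, b, e, rfl⟩ := split hi
  rw [wd_ux e, e, List.getElem?_append_left hj, List.getElem?_append_left hj]

lemma lf_hi {z : Pt (w0.{u} H)} {i j : ℕ} (hi : i < z.1.word.length) (hj : i < j) {v : Nd}
    {g : ThompsonF} : Lf (ux i z) (j + 1) v g ↔ Lf z j v g := by
  have hj' : (i : ℝ) + 1 ≤ j := by exact_mod_cast hj
  refine and_congr ?_ (forall_congr' fun τ => lf_aux hi
    ((xe_3 (by linarith [τ.2.1])).trans (by push_cast; ring)))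
  obtain ⟨a, x, b, e, rfl⟩ := split hi
  obtain ⟨n, rfl⟩ := Nat.exists_eq_add_of_lt hj
  rw [wd_ux e, e, List.getElem?_append_right (by omega), List.getElem?_append_right (by omega),
    show a.length + n + 1 + 1 - a.length = n + 1 + 1 by omega,
    show a.length + n + 1 - a.length = n + 1 by omega]
  rfl

lemma lf_mid {z : Pt (w0.{u} H)} {i : ℕ} {v : Nd} (hv : z.1.word[i]? = some (cls H v))
    {g : ThompsonF} : (Lf (ux i z) i (c0 v) g ∧ Lf (ux i z) (i + 1) (c1 v) g ↔ Lf z i v g) ∧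
      (ux i z).1.word[i]? = some (cls H (c0 v)) ∧
      (ux i z).1.word[i + 1]? = some (cls H (c1 v)) := by
  have hi : i < z.1.word.length := (List.getElem?_eq_some_iff.1 hv).1
  have w : (ux i z).1.word[i]? = some (cls H (c0 v)) ∧
      (ux i z).1.word[i + 1]? = some (cls H (c1 v)) := by
    obtain ⟨a, x, b, e, rfl⟩ := split hi
    have h : cls H x = cls H v := by simpa [e] using hv
    rw [wd_ux (v := v) (h ▸ e)]
    simp
  have a0 : ∀ τ : I, vx (ux i z).2 (g • pt (c0 v) τ : I) = i + τ ↔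
      vx z.2 (g • pt v (hf0 τ) : I) = i + hf0 τ := fun τ => by
    rw [pt_c0]
    refine lf_aux hi ?_
    rw [xe_2 (by linarith [(hf0 τ).2.1]) (by linarith [(hf0 τ).2.2])]
    simp only [hf0]
    ring
  have a1 : ∀ τ : I, vx (ux i z).2 (g • pt (c1 v) τ : I) = (i + 1 : ℕ) + τ ↔
      vx z.2 (g • pt v (hf1 τ) : I) = i + hf1 τ := fun τ => by
    rw [pt_c1]
    refine lf_aux hi ?_
    rw [xe_2 (by linarith [(hf1 τ).2.1]) (by linarith [(hf1 τ).2.2])]
    simp only [hf1]
    push_cast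
    ring
  refine ⟨⟨fun h => ⟨hv, fun τ => ?_⟩, fun h =>
    ⟨⟨w.1, fun τ => (a0 τ).2 (h.2 _)⟩, w.2, fun τ => (a1 τ).2 (h.2 _)⟩⟩, w⟩
  rcases hf_cases τ with ⟨ν, rfl⟩ | ⟨ν, rfl⟩
  exacts [(a0 ν).1 (h.1.2 ν), (a1 ν).1 (h.2.2 ν)]

lemma Lf.rep {z : Pt (w0.{u} H)} {j : ℕ} {v v' : Nd} {g : ThompsonF} (h : Lf z j v g)
    (hg : g ∈ H) (hv : z.1.word[j]? = some (cls H v')) : ∃ g' ∈ H, Lf z j v' g' := by
  obtain ⟨k, k1, k2⟩ := cls_eq.1 (Option.some.inj (hv.symm.trans h.1))
  exact ⟨g * k, H.mul_mem hg k1, hv, fun τ => by rw [mul_smul, k2, h.2]⟩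

lemma lf_root : Lf (H := H) ⟨w0.{u} H, 𝟙 _⟩ 0 root 1 :=
  ⟨rfl, fun τ => by rw [one_smul, pt_root, show vx (𝟙 (vtx (w0 H))) = 1 from vx_id _]; simp⟩

/-- Every letter is the image of a standard interval under an element of `H`. -/
lemma all_lf (hH : Closed H) (z : Pt (w0.{u} H)) :
    ∀ j < z.1.word.length, ∃ v, ∃ g ∈ H, Lf z j v g := by
  refine ux_conn (fun z => ∀ j < z.1.word.length, ∃ v, ∃ g ∈ H, Lf z j v g) ?_
    (fun i z hi => ?_) z
  · intro j hj
    obtain rfl : j = 0 := Nat.lt_one_iff.1 hj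
    exact ⟨root, 1, H.one_mem, lf_root⟩
  have hl : (ux i z).1.word.length = z.1.word.length + 1 := (fx hH).len_up hi
  refine ⟨fun h j hj => ?_, fun h j hj => ?_⟩
  · rcases lt_or_ge j i with r | r
    · obtain ⟨v, g, k1, k2⟩ := h j (r.trans hi)
      exact ⟨v, g, k1, (lf_lo hi r).2 k2⟩
    obtain ⟨v, g, k1, k2⟩ := h i hi
    have k3 := (lf_mid k2.1).1.2 k2
    rcases r.eq_or_lt with rfl | r
    · exact ⟨_, g, k1, k3.1⟩
    obtain ⟨j, rfl⟩ := Nat.exists_eq_succ_of_ne_zero (n := j) (by omega)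
    rcases (Nat.le_of_lt_succ r).eq_or_lt with rfl | r
    · exact ⟨_, g, k1, k3.2⟩
    · obtain ⟨v, g, k1, k2⟩ := h j (by omega)
      exact ⟨v, g, k1, (lf_hi hi r).2 k2⟩
  · rcases lt_trichotomy j i with r | rfl | r
    · obtain ⟨v, g, k1, k2⟩ := h j (by omega)
      exact ⟨v, g, k1, (lf_lo hi r).1 k2⟩
    · obtain ⟨v, hv⟩ := cls_surj z.1.word[j]
      have hv' : z.1.word[j]? = some (cls H v) := List.getElem?_eq_some_iff.2 ⟨hi, hv⟩
      obtain ⟨_, g, k1, k2⟩ := h j (by omega)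
      obtain ⟨_, g', k3, k4⟩ := h (j + 1) (by omega)
      obtain ⟨g, k1, k2⟩ := k2.rep k1 (lf_mid (g := 1) hv').2.1
      obtain ⟨g', k3, k4⟩ := k4.rep k3 (lf_mid (g := 1) hv').2.2
      obtain ⟨s, s1, s2, s3⟩ := hH.glue' k1 k3 (u := v) (Subtype.ext
        ((vx (ux j z).2).injective (by rw [k2.2, k4.2]; simp)))
      exact ⟨v, s, s1, (lf_mid hv').1.1 ⟨⟨k2.1, fun τ => by rw [s2, k2.2]⟩,
        k4.1, fun τ => by rw [s3, k4.2]⟩⟩
    · obtain ⟨v, g, k1, k2⟩ := h (j + 1) (by omega)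
      exact ⟨v, g, k1, (lf_hi hi r).1 k2⟩

lemma refine (hH : Closed H) {p : Nd → Prop} {v : Nd} (h : Sub p v) :
    ∀ (z : Pt (w0.{u} H)) (j : ℕ), Lf z j v 1 → ∃ (z' : Pt (w0.{u} H)) (c : ℕ),
      z'.1.word.length = z.1.word.length + c ∧ (∀ i < j, ∀ x, Lf z i x 1 → Lf z' i x 1) ∧
      (∀ i, j < i → ∀ x, Lf z i x 1 → Lf z' (i + c) x 1) ∧
      ∀ i, j ≤ i → i ≤ j + c → ∃ x, p x ∧ Lf z' i x 1 := by
  induction h with
  | @base v hv =>
    refine fun z j h => ⟨z, 0, rfl, fun _ _ _ k => k, fun _ _ _ k => k, fun i r1 r2 => ?_⟩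
    obtain rfl : i = j := by omega
    exact ⟨v, hv, h⟩
  | @node v _ _ ih0 ih1 =>
    intro z j h
    have hj : j < z.1.word.length := (List.getElem?_eq_some_iff.1 h.1).1
    have hl : (ux j z).1.word.length = z.1.word.length + 1 := (fx hH).len_up hj
    obtain ⟨k0, k1⟩ := (lf_mid h.1).1.2 h
    obtain ⟨z2, d, a1, a2, a3, a4⟩ := ih1 _ _ k1
    obtain ⟨z3, e, b1, b2, b3, b4⟩ := ih0 _ _ (a2 j (by omega) _ k0)
    refine ⟨z3, 1 + d + e, by omega,
      fun i r x k => b2 i r x (a2 i (by omega) x ((lf_lo hj r).2 k)), fun i r x k => ?_,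
      fun i r1 r2 => ?_⟩
    · have := b3 _ (by omega) x (a3 _ (by omega) x ((lf_hi hj r).2 k))
      rwa [show i + 1 + d + e = i + (1 + d + e) by omega] at this
    · rcases le_or_gt i (j + e) with r | r
      · exact b4 i r1 r
      · obtain ⟨x, k, k'⟩ := a4 (i - e) (by omega) (by omega)
        have := b3 _ (by omega) x k'
        rw [show i - e + e = i by omega] at this
        exact ⟨x, k, this⟩

lemma exists_state (hH : Closed H) {g : ThompsonF} (hg : g ∈ H) {N : ℕ} (h : Sub (Af g N) root) :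
    ∃ z : Pt (w0.{u} H), (∀ x : I, vx z.2 x = 2 ^ N * (g • x : I)) ∧ z.1.word.length = 2 ^ N ∧
      ∀ j < z.1.word.length, ∃ v : Nd, v.k = j ∧ v.n = N ∧ z.1.word[j]? = some (cls H v) := by
  obtain ⟨z, c, h1, -, -, h2⟩ := refine hH h _ 0 lf_root
  have h3 : ∀ j < z.1.word.length, ∃ x, Af g N x ∧ Lf z j x 1 := fun j hj =>
    h2 j (Nat.zero_le _) (by change _ = 1 + c at h1; omega)
  obtain ⟨p1, p2, p3⟩ := (fx hH).ev_prop z
  change vx z.2 ∈ PL at p1
  have p2' : vx z.2 0 = 0 := p2 0 le_rfl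
  have p3' : vx z.2 1 = z.1.word.length := (p3 1 le_rfl).trans (by simp [fx])
  have hp : (0 : ℝ) < 2 ^ N := by positivity
  have step : ∀ j < z.1.word.length, (∀ x : I, vx z.2 x = j → ((g • x : I) : ℝ) = j / 2 ^ N) →
      ∃ v v' : Nd, v'.k = j ∧ v'.n = N ∧ Lf z j v 1 ∧ ∀ τ, g • pt v τ = pt v' τ := by
    intro j hj hx
    obtain ⟨v, ⟨v', k1, k2⟩, k3⟩ := h3 j hj
    have := hx (pt v 0) (by simpa using k3.2 0)
    rw [k2, pt_val, k1, div_left_inj' hp.ne'] at this
    exact ⟨v, v', by simpa using this, k1, k3, k2⟩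
  have A : ∀ j ≤ z.1.word.length, ∀ x : I, vx z.2 x = j → ((g • x : I) : ℝ) = j / 2 ^ N := by
    intro j
    induction j with
    | zero =>
      intro _ x hx
      obtain rfl : x = 0 := Subtype.ext ((vx z.2).injective (by simpa [p2'] using hx))
      simp [fix_zero]
    | succ j ih =>
      intro hj x hx
      obtain ⟨v, v', k1, k2, k3, k4⟩ := step j hj (ih (by omega))
      obtain rfl : x = pt v 1 := Subtype.ext ((vx z.2).injective (by
        rw [hx, ← one_smul ThompsonF (pt v 1), k3.2]; simp))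
      rw [k4, pt_val, k1, k2]
      simp
  have hlen : z.1.word.length = 2 ^ N := by
    have := A _ le_rfl 1 p3'
    rw [fix_one, eq_div_iff hp.ne'] at this
    simp only [Set.Icc.coe_one, one_mul] at this
    exact_mod_cast this.symm
  refine ⟨z, fun x => ?_, hlen, fun j hj => ?_⟩
  · have x0 : 0 ≤ vx z.2 x := p2' ▸ p1.1.monotone x.2.1
    have x1 : vx z.2 x ≤ z.1.word.length := p3' ▸ p1.1.monotone x.2.2
    rcases x1.eq_or_lt with r | r
    · rw [A _ le_rfl x r, r]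
      field_simp
    have hj : ⌊vx z.2 x⌋₊ < z.1.word.length := (Nat.floor_lt x0).2 r
    obtain ⟨v, v', k1, k2, k3, k4⟩ := step _ hj (A _ hj.le)
    let τ : I := ⟨vx z.2 x - ⌊vx z.2 x⌋₊, sub_nonneg.2 (Nat.floor_le x0),
      by linarith [Nat.lt_floor_add_one (vx z.2 x)]⟩
    have e : x = pt v τ := Subtype.ext ((vx z.2).injective (by
      rw [← one_smul ThompsonF (pt v τ), k3.2]; simp [τ]))
    conv_rhs => rw [e, k4, pt_val, k1, k2]
    simp only [τ]
    field_simp
    ring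
  · obtain ⟨v, v', k1, k2, k3, k4⟩ := step j hj (A j hj.le)
    exact ⟨v', k1, k2, k3.1.trans (congrArg some (cls_eq.2 ⟨g, hg, k4⟩))⟩

lemma vx_prop (hH : Closed H) (f : DiagramGroup (pres.{u} H) (w0 H)) :
    vx f ∈ PL ∧ (∀ t ≤ 0, vx f t = t) ∧ ∀ t, 1 ≤ t → vx f t = t := by
  obtain ⟨h1, h2, h3⟩ := (fx hH).ev_prop ⟨w0 H, f⟩
  exact ⟨h1, h2, fun t ht => (h3 t ht).trans (by simp [fx, w0])⟩

/-- The embedding of the diagram group in F. -/
noncomputable def rx (hH : Closed H) : DiagramGroup (pres.{u} H) (w0 H) →* ThompsonF :=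
  MonoidHom.mk' (fun f => toF (vx f) (vx_prop hH f).1 ((vx_prop hH f).2.1 0 le_rfl)
    ((vx_prop hH f).2.2 1 le_rfl)) fun f g =>
      Subtype.ext (Homeomorph.ext fun x => Subtype.ext
        (congrArg (fun p : Equiv.Perm ℝ => p x) (vx_comp g f)))

lemma rx_smul (hH : Closed H) (f : DiagramGroup (pres.{u} H) (w0 H)) (x : I) :
    ((rx hH f • x : I) : ℝ) = vx f x := rfl

lemma rx_inj (hH : Closed H) : Function.Injective (rx.{u} hH) := by
  refine (injective_iff_map_eq_one _).2 fun f hf => ?_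
  have h1 : vx f = 1 := by
    ext t
    rcases le_total t 0 with h | h
    · exact (vx_prop hH f).2.1 t h
    rcases le_total 1 t with h' | h'
    · exact (vx_prop hH f).2.2 t h'
    · rw [← rx_smul hH f ⟨t, h, h'⟩, hf, one_smul]
      rfl
  have h2 : (⟨w0 H, f⟩ : Pt (w0 H)) = ⟨w0 H, 𝟙 _⟩ :=
    Fo.ev_inj (F := fx hH) rfl (h1.trans (fx hH).ev0.symm)
  exact eq_of_heq (Sigma.mk.inj h2).2

lemma rx_range (hH : Closed H) :
    MonoidHom.range (G := DiagramGroup (pres.{u} H) (w0 H)) (rx hH) = H := by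
  refine le_antisymm ?_ fun g hg => ?_
  · rintro _ ⟨f, rfl⟩
    obtain ⟨v, g, k1, k2⟩ := all_lf hH ⟨w0 H, f⟩ 0 Nat.one_pos
    obtain ⟨g, k1, k2⟩ := k2.rep k1 (v' := root) rfl
    have : rx hH f * g = 1 := lmF.faith _ fun x => Subtype.ext (by
      rw [mul_smul, rx_smul, ← pt_root x, k2.2, pt_root]; simp)
    rw [eq_inv_of_mul_eq_one_left this]
    exact H.inv_mem k1
  · obtain ⟨a, ha⟩ := sub_root g
    obtain ⟨b, hb⟩ := sub_root 1
    obtain ⟨⟨⟨l, hl⟩, f⟩, k1, k2, k3⟩ := exists_state.{u} hH hg (ha _ (le_max_left a b))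
    obtain ⟨⟨⟨l', hl'⟩, f'⟩, m1, m2, m3⟩ := exists_state.{u} hH H.one_mem (hb _ (le_max_right a b))
    dsimp only at k1 k2 k3 m1 m2 m3
    obtain rfl : l = l' := List.ext_getElem? fun j => by
      rcases lt_or_ge j l.length with r | r
      · obtain ⟨⟨_, _, _⟩, rfl, rfl, e⟩ := k3 j r
        obtain ⟨⟨_, _, _⟩, rfl, rfl, e'⟩ := m3 _ (by rwa [m2, ← k2])
        exact e.trans e'.symm
      · rw [List.getElem?_eq_none r, List.getElem?_eq_none (by rwa [m2, ← k2])]
    refine ⟨f ≫ Groupoid.inv f', Subtype.ext (Homeomorph.ext fun x => Subtype.ext ?_)⟩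
    change vx (f ≫ Groupoid.inv f') x = (g • x : I)
    rw [vx_comp, vx_inv, Equiv.Perm.mul_apply, Equiv.Perm.inv_eq_iff_eq, k1, m1, one_smul]

/-- A closed subgroup of F is a diagram group. -/
theorem diagram_of_closed (hH : Closed H) : Nonempty (H ≃* DiagramGroup (pres.{u} H) (w0 H)) :=
  ⟨((MonoidHom.ofInjective (G := DiagramGroup (pres.{u} H) (w0 H)) (rx_inj hH)).trans
    (MulEquiv.subgroupCongr (rx_range hH))).symm⟩

end Pool.Agent.Lib.MP_24b811_al.Fr
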