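import Pool.Agent.Lib.MP_24b811_al.GcThree
import Pool.Agent.Lib.MP_24b811_al.Abelianisation

/-!
# The universal cover of a Squier complex
-/

set_option autoImplicit false

namespace Pool.Agent.Lib.MP_24b811_al.Gc

open List CategoryTheory

universe u v

variable {S : Type u} (P : SemigroupPresentation S)

/-- The moves of a presentation: relations with a direction. -/
def sys : Sys S (P.rels × Bool) where
  src m := bif m.2 then m.1.1.1 else m.1.1.2
  inv m := (m.1, !m.2)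
  inv_inv m := by simp
  inv_ne m h := by simpa using congrArg Prod.snd h
  src_ne := by
    rintro ⟨r, _ | _⟩
    exacts [P.rhs_ne_nil _ r.2, P.lhs_ne_nil _ r.2]

variable {P}

/-- The morphism of a move. -/
def mv (a b : List S) : ∀ (m : P.rels × Bool) (v v' : SqVertex P),
    v.word = a ++ (sys P).src m ++ b → v'.word = a ++ (sys P).src ((sys P).inv m) ++ b →
    (vtx v ⟶ vtx v')
  | (r, true), _, _, h, h' => edgeHom ⟨⟨a, r, b⟩, h.symm, h'.symm⟩
  | (r, false), _, _, h, h' => Groupoid.inv (edgeHom ⟨⟨a, r, b⟩, h'.symm, h.symm⟩)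

lemma sq_edge (a b c : List S) (r s : P.rels) {v₁ v₂ v₃ v₄ : SqVertex P}
    (e₁ : v₁ ⟶ v₂) (e₂ : v₂ ⟶ v₃) (e₃ : v₁ ⟶ v₄) (e₄ : v₄ ⟶ v₃)
    (h₁ : e₁.1 = ⟨a, r, b ++ s.1.1 ++ c⟩) (h₂ : e₂.1 = ⟨a ++ r.1.2 ++ b, s, c⟩)
    (h₃ : e₃.1 = ⟨a ++ r.1.1 ++ b, s, c⟩) (h₄ : e₄.1 = ⟨a, r, b ++ s.1.2 ++ c⟩) :
    edgeHom e₁ ≫ edgeHom e₂ = edgeHom e₃ ≫ edgeHom e₄ := by
  have hsq := CategoryTheory.Quotient.sound (SquareRel P)
    (SquareRel.square a b c r s v₁ v₂ v₃ v₄ e₁ e₂ e₃ e₄ h₁ h₂ h₃ h₄)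
  rw [Functor.map_comp, Functor.map_comp] at hsq
  exact hsq

lemma mv_cancel (a b : List S) (m : P.rels × Bool) (v v' : SqVertex P) (h h' k') :
    mv a b m v v' h h' ≫ mv a b ((sys P).inv m) v' v h' k' = 𝟙 _ := by
  rcases m with ⟨r, _ | _⟩
  exacts [Groupoid.inv_comp _, Groupoid.comp_inv _]

lemma mv_square (a b c : List S) (m m' : P.rels × Bool) (v₁ v₂ v₃ v₄ : SqVertex P)
    (h1 h2 h3 h4 h5 h6 h7 h8) :
    mv a (b ++ (sys P).src m' ++ c) m v₁ v₂ h1 h2 ≫
        mv (a ++ (sys P).src ((sys P).inv m) ++ b) c m' v₂ v₃ h3 h4 =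
      mv (a ++ (sys P).src m ++ b) c m' v₁ v₄ h5 h6 ≫
        mv a (b ++ (sys P).src ((sys P).inv m') ++ c) m v₄ v₃ h7 h8 := by
  rcases m with ⟨r, _ | _⟩ <;> rcases m' with ⟨s, _ | _⟩
  · have := sq_edge a b c r s (v₁ := v₃) (v₂ := v₄) (v₃ := v₁) (v₄ := v₂)
      ⟨⟨_, _, _⟩, h8.symm, h7.symm⟩ ⟨⟨_, _, _⟩, h6.symm, h5.symm⟩ ⟨⟨_, _, _⟩, h4.symm, h3.symm⟩
      ⟨⟨_, _, _⟩, h2.symm, h1.symm⟩ rfl rfl rfl rfl
    change Groupoid.inv _ ≫ Groupoid.inv _ = Groupoid.inv _ ≫ Groupoid.inv _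
    simp only [Groupoid.inv_eq_inv, ← IsIso.inv_comp]
    exact IsIso.inv_eq_inv.2 this.symm
  · have := sq_edge a b c r s (v₁ := v₂) (v₂ := v₁) (v₃ := v₄) (v₄ := v₃)
      ⟨⟨_, _, _⟩, h2.symm, h1.symm⟩ ⟨⟨_, _, _⟩, h5.symm, h6.symm⟩ ⟨⟨_, _, _⟩, h3.symm, h4.symm⟩
      ⟨⟨_, _, _⟩, h8.symm, h7.symm⟩ rfl rfl rfl rfl
    change Groupoid.inv _ ≫ _ = _ ≫ Groupoid.inv _
    simp only [Groupoid.inv_eq_inv]
    rw [IsIso.inv_comp_eq, ← Category.assoc, IsIso.eq_comp_inv]
    exact this.symm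
  · have := sq_edge a b c r s (v₁ := v₄) (v₂ := v₃) (v₃ := v₂) (v₄ := v₁)
      ⟨⟨_, _, _⟩, h7.symm, h8.symm⟩ ⟨⟨_, _, _⟩, h4.symm, h3.symm⟩ ⟨⟨_, _, _⟩, h6.symm, h5.symm⟩
      ⟨⟨_, _, _⟩, h1.symm, h2.symm⟩ rfl rfl rfl rfl
    change _ ≫ Groupoid.inv _ = Groupoid.inv _ ≫ _
    simp only [Groupoid.inv_eq_inv]
    rw [IsIso.eq_inv_comp, ← Category.assoc, IsIso.comp_inv_eq]
    exact this.symm
  · exact sq_edge a b c r s (v₁ := v₁) (v₂ := v₂) (v₃ := v₃) (v₄ := v₄)
      ⟨⟨_, _, _⟩, h1.symm, h2.symm⟩ ⟨⟨_, _, _⟩, h3.symm, h4.symm⟩ ⟨⟨_, _, _⟩, h5.symm, h6.symm⟩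
      ⟨⟨_, _, _⟩, h7.symm, h8.symm⟩ rfl rfl rfl rfl

/-- The points of the universal cover. -/
abbrev Pt (w : SqVertex P) : Type u := Σ v : SqVertex P, (vtx w ⟶ vtx v)

open Classical in
/-- A move in the universal cover. -/
noncomputable def pext {w : SqVertex P} (z : Pt w) (e : ℕ × (P.rels × Bool)) : Pt w :=
  if h : ∃ ab : List S × List S, ab.1.length = e.1 ∧ z.1.word = ab.1 ++ (sys P).src e.2 ++ ab.2 then
    ⟨⟨h.choose.1 ++ (sys P).src ((sys P).inv e.2) ++ h.choose.2, by simp [(sys P).src_ne]⟩,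
      z.2 ≫ mv h.choose.1 h.choose.2 e.2 _ _ h.choose_spec.2 rfl⟩
  else z

lemma pext_eq {w : SqVertex P} (z : Pt w) {a b : List S} {m : P.rels × Bool} {n : ℕ}
    (hn : n = a.length) (h : z.1.word = a ++ (sys P).src m ++ b) (v' : SqVertex P)
    (h' : v'.word = a ++ (sys P).src ((sys P).inv m) ++ b) :
    pext z (n, m) = ⟨v', z.2 ≫ mv a b m z.1 v' h h'⟩ := by
  have h1 : ∃ ab : List S × List S, ab.1.length = n ∧ z.1.word = ab.1 ++ (sys P).src m ++ ab.2 :=
    ⟨(a, b), hn.symm, h⟩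
  rw [pext, dif_pos h1]
  obtain ⟨k1, -, k2⟩ := blk_unique (h1.choose_spec.2.symm.trans h) (h1.choose_spec.1.trans hn) rfl
  have key : ∀ (a' b' : List S) (k : z.1.word = a' ++ (sys P).src m ++ b') (hv), a' = a → b' = b →
      (⟨⟨a' ++ (sys P).src ((sys P).inv m) ++ b', hv⟩, z.2 ≫ mv a' b' m _ _ k rfl⟩ : Pt w) =
        ⟨v', z.2 ≫ mv a b m z.1 v' h h'⟩ := by
    rintro _ _ _ _ rfl rfl
    obtain ⟨v', hv'⟩ := v'
    dsimp only at h'
    subst h'
    rfl
  exact key _ _ _ _ k1 k2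

/-- The vertex after a move. -/
def nv (a b : List S) (m : P.rels × Bool) : SqVertex P :=
  ⟨a ++ (sys P).src m ++ b, by simp [(sys P).src_ne]⟩

/-- The universal cover as a Squier set. -/
noncomputable def ptSet (w : SqVertex P) : SqSet (sys P) where
  Z := Pt w
  ok _ := True
  wd z := z.1.word
  ext := pext
  ok_ext _ _ := trivial
  wd_ext := fun {z a b m} _ h => by rw [pext_eq z rfl h (nv a b _) rfl]; rfl
  cancel := fun {z a b m} _ h => by
    rw [pext_eq z rfl h (nv a b _) rfl, pext_eq _ rfl rfl z.1 (by rw [(sys P).inv_inv, h]),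
      Category.assoc, mv_cancel, Category.comp_id]
  square := fun {z a b c m m'} _ h => by
    rw [pext_eq z (a := a) (b := b ++ (sys P).src m' ++ c) rfl (by simp [h]) (nv a _ _) rfl,
      pext_eq z (a := a ++ (sys P).src m ++ b) (b := c) (by simp [add_assoc]) h (nv _ c _) rfl,
      pext_eq _ (a := a ++ (sys P).src ((sys P).inv m) ++ b) (b := c) (by simp [add_assoc])
        (by simp [nv]) (nv _ c _) rfl,
      pext_eq _ (a := a) (b := b ++ (sys P).src ((sys P).inv m') ++ c) rfl (by simp [nv])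
        (nv (a ++ (sys P).src ((sys P).inv m) ++ b) c ((sys P).inv m')) (by simp [nv]),
      Category.assoc, Category.assoc, mv_square]

/-- Types with bijections. -/
structure EqvObj : Type (u + 1) where
  T : Type u

instance : Groupoid.{u} EqvObj.{u} where
  Hom A B := A.T ≃ B.T
  id A := Equiv.refl _
  comp f g := f.trans g
  inv f := f.symm
  inv_comp f := Equiv.symm_trans_self f
  comp_inv f := Equiv.self_trans_symm f

/-- A Squier set gives bijections between its fibres. -/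
def fibPre (X : SqSet (sys P)) : SqVertex P ⥤q EqvObj.{u} where
  obj v := ⟨{x : X.Z // X.ok x ∧ X.wd x = v.word}⟩
  map e :=
    { toFun := fun x => ⟨X.ext x.1 (e.1.left.length, (e.1.rel, true)),
        X.ok_ext x.2.1 (x.2.2.trans e.2.1.symm),
        (X.wd_ext x.2.1 (x.2.2.trans e.2.1.symm)).trans e.2.2⟩
      invFun := fun x => ⟨X.ext x.1 (e.1.left.length, (e.1.rel, false)),
        X.ok_ext x.2.1 (x.2.2.trans e.2.2.symm),
        (X.wd_ext x.2.1 (x.2.2.trans e.2.2.symm)).trans e.2.1⟩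
      left_inv := fun x => Subtype.ext (X.cancel (m := (e.1.rel, true)) x.2.1
        (x.2.2.trans e.2.1.symm))
      right_inv := fun x => Subtype.ext (X.cancel (m := (e.1.rel, false)) x.2.1
        (x.2.2.trans e.2.2.symm)) }

lemma lift_fibPre (X : SqSet (sys P)) {v w : SqVertex P} (e : v ⟶ w) :
    (Quiver.FreeGroupoid.lift (fibPre X)).map ((Quiver.FreeGroupoid.of (SqVertex P)).map e) =
      (fibPre X).map e :=
  eq_of_heq (congrArg (fun F : SqVertex P ⥤q EqvObj.{u} => (⟨_, F.map e⟩ : Σ T : Type u, T))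
    (Quiver.FreeGroupoid.lift_spec (fibPre X)) |> Sigma.mk.inj |>.2)

/-- The functor defined by a Squier set. -/
noncomputable def fibF (W : SqSet (sys P)) : SquierGroupoid P ⥤ EqvObj.{u} :=
  CategoryTheory.Quotient.lift _ (Quiver.FreeGroupoid.lift (fibPre W)) (by
    rintro _ _ _ _ ⟨a, b, d, r, s, v₁, v₂, v₃, v₄, e₁, e₂, e₃, e₄, h₁, h₂, h₃, h₄⟩
    rw [Functor.map_comp, Functor.map_comp, lift_fibPre, lift_fibPre, lift_fibPre, lift_fibPre]
    refine Equiv.ext fun x => Subtype.ext ?_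
    change W.ext (W.ext x.1 (e₁.1.left.length, (e₁.1.rel, true)))
        (e₂.1.left.length, (e₂.1.rel, true)) =
      W.ext (W.ext x.1 (e₃.1.left.length, (e₃.1.rel, true))) (e₄.1.left.length, (e₄.1.rel, true))
    rw [h₁, h₂, h₃, h₄]
    have := W.square (a := a) (b := b) (c := d) (m := (r, true)) (m' := (s, true)) x.2.1
      (x.2.2.trans (e₁.2.1.symm.trans (by rw [h₁]; simp [SqEdge.src, sys])))
    simpa [sys, add_assoc] using this)

/-- The bijection between fibres defined by a morphism. -/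
noncomputable def fibE (X : SqSet (sys P)) {v w : SqVertex P} (f : vtx v ⟶ vtx w) :
    {x : X.Z // X.ok x ∧ X.wd x = v.word} ≃ {x : X.Z // X.ok x ∧ X.wd x = w.word} :=
  (fibF X).map f

lemma fibE_comp (X : SqSet (sys P)) {u v w : SqVertex P} (f : vtx u ⟶ vtx v) (g : vtx v ⟶ vtx w) :
    fibE X (f ≫ g) = (fibE X f).trans (fibE X g) := (fibF X).map_comp f g

lemma fibE_edge (X : SqSet (sys P)) {v w : SqVertex P} (e : v ⟶ w) :
    fibE X (edgeHom e) = (fibPre X).map e := lift_fibPre X e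

lemma fibE_inv (X : SqSet (sys P)) {v w : SqVertex P} (f : vtx v ⟶ vtx w) :
    fibE X (Groupoid.inv f) = (fibE X f).symm := by
  have h1 : fibE X (f ≫ Groupoid.inv f) = Equiv.refl _ :=
    (congrArg (fibE X) (Groupoid.comp_inv f)).trans ((fibF X).map_id _)
  rw [fibE_comp] at h1
  refine Equiv.ext fun x => ?_
  obtain ⟨y, rfl⟩ := (fibE X f).surjective x
  rw [Equiv.symm_apply_apply]
  exact Equiv.congr_fun h1 y

lemma fibE_mv (X : SqSet (sys P)) (a b : List S) (m : P.rels × Bool) (v v' : SqVertex P) (h h')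
    (x : {x : X.Z // X.ok x ∧ X.wd x = v.word}) :
    (fibE X (mv a b m v v' h h') x).1 = X.ext x.1 (a.length, m) := by
  rcases m with ⟨r, _ | _⟩
  · unfold mv
    rw [fibE_inv, fibE_edge]
    rfl
  · unfold mv
    rw [fibE_edge]
    rfl

lemma fibE_run (X : SqSet (sys P)) {w : SqVertex P} (x : {x : X.Z // X.ok x ∧ X.wd x = w.word})
    {u u' : List S} {p : Path (P.rels × Bool)} (h : Valid (sys P) u p u') (z : Pt w)
    (hz : z.1.word = u) : (fibE X ((ptSet w).run z p).2 x).1 = X.run (fibE X z.2 x).1 p := by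
  induction h generalizing z with
  | nil => rfl
  | cons a b m hw he _ ih =>
    subst hw he
    refine (ih _ ((ptSet w).wd_ext trivial hz)).trans ?_
    rw [SqSet.run_cons]
    congr 1
    change (fibE X (pext z _).2 x).1 = _
    rw [pext_eq z rfl hz (nv a b _) rfl]
    dsimp only
    rw [fibE_comp, Equiv.trans_apply, fibE_mv]

lemma Valid.cast' {u u' t t' : List S} {p : Path (P.rels × Bool)} (h : Valid (sys P) u p u')
    (k : u = t) (k' : u' = t') : Valid (sys P) t p t' := k ▸ k' ▸ h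

lemma exists_path_of_hom (w : SqVertex P) {X Y : SquierGroupoid P} (f : X ⟶ Y) :
    ∃ p, Valid (sys P) (objWord X) p (objWord Y) ∧
      ∀ g : vtx w ⟶ X, (ptSet w).run ⟨X.as.as, g⟩ p = ⟨Y.as.as, g ≫ f⟩ := by
  induction f using hom_induction with
  | hid X =>
    exact ⟨[], .nil _, fun g => congrArg (Sigma.mk _) (Category.comp_id g).symm⟩
  | hpos X v v' f e ih =>
    obtain ⟨p, h1, h2⟩ := ih
    have h3 := Valid.single (R := sys P) e.1.left e.1.right (e.1.rel, true)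
    have h4 : Valid (sys P) v.word [(e.1.left.length, (e.1.rel, true))] v'.word :=
      h3.cast' e.2.1 e.2.2
    refine ⟨p ++ [(e.1.left.length, (e.1.rel, true))], h1.append h4, fun g => ?_⟩
    rw [SqSet.run_append, h2]
    exact (pext_eq (⟨v, g ≫ f⟩ : Pt w) (m := (e.1.rel, true)) rfl e.2.1.symm v' e.2.2.symm).trans
      (congrArg (Sigma.mk _) (Category.assoc _ _ _))
  | hneg X v v' f e ih =>
    obtain ⟨p, h1, h2⟩ := ih
    have h3 := Valid.single (R := sys P) e.1.left e.1.right (e.1.rel, false)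
    have h4 : Valid (sys P) v.word [(e.1.left.length, (e.1.rel, false))] v'.word :=
      h3.cast' e.2.2 e.2.1
    refine ⟨p ++ [(e.1.left.length, (e.1.rel, false))], h1.append h4, fun g => ?_⟩
    rw [SqSet.run_append, h2]
    exact (pext_eq (⟨v, g ≫ f⟩ : Pt w) (m := (e.1.rel, false)) rfl e.2.2.symm v' e.2.1.symm).trans
      (congrArg (Sigma.mk _) (Category.assoc _ _ _))

/-- Composition on the left in the universal cover. -/
def pre {w : SqVertex P} (f : vtx w ⟶ vtx w) (z : Pt w) : Pt w := ⟨z.1, f ≫ z.2⟩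

lemma pre_run {w : SqVertex P} (f : vtx w ⟶ vtx w) {u u' : List S} {p : Path (P.rels × Bool)}
    (h : Valid (sys P) u p u') (z : Pt w) (hz : z.1.word = u) :
    pre f ((ptSet w).run z p) = (ptSet w).run (pre f z) p := by
  induction h generalizing z with
  | nil => rfl
  | cons a b m hw he _ ih =>
    subst hw he
    refine (ih _ ((ptSet w).wd_ext trivial hz)).trans ?_
    rw [SqSet.run_cons]
    congr 1
    change pre f (pext z _) = pext (pre f z) _
    rw [pext_eq z rfl hz (nv a b _) rfl, pext_eq (pre f z) rfl hz (nv a b _) rfl]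
    exact congrArg (Sigma.mk _) (Category.assoc _ _ _).symm

/-- A group isomorphic to a diagram group acts on the universal cover. -/
noncomputable def cover {G : Type v} [Group G] {w : SqVertex P} (e : G ≃* DiagramGroup P w) :
    Cover (sys P) G where
  X := ptSet w
  act :=
    { smul := fun γ z => pre (e γ⁻¹) z
      one_smul := fun z => by
        change pre (e 1⁻¹) z = z
        rw [inv_one, map_one]
        exact congrArg (Sigma.mk z.1) (Category.id_comp _)
      mul_smul := fun a b z => by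
        change pre (e (a * b)⁻¹) z = pre (e a⁻¹) (pre (e b⁻¹) z)
        rw [mul_inv_rev, map_mul]
        exact congrArg (Sigma.mk z.1) (Category.assoc _ _ _) }
  ok _ := trivial
  conn z y := by
    obtain ⟨p, h1, h2⟩ := exists_path_of_hom w (Groupoid.inv z.2 ≫ y.2)
    refine ⟨p, h1, (h2 z.2).trans (congrArg (Sigma.mk y.1) ?_)⟩
    exact (Category.assoc _ _ _).symm.trans
      ((congrArg (· ≫ y.2) (Groupoid.comp_inv z.2)).trans (Category.id_comp _))
  univ := fun {z p p' u u'} h h' he X x k1 k2 => by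
    have h1 : (fibE X z.2 ((fibE X z.2).symm ⟨x, k1, k2⟩)).1 = x :=
      congrArg Subtype.val (Equiv.apply_symm_apply _ _)
    have h2 := fibE_run X ((fibE X z.2).symm ⟨x, k1, k2⟩) h z rfl
    have h3 := fibE_run X ((fibE X z.2).symm ⟨x, k1, k2⟩) h' z rfl
    rw [h1] at h2 h3
    rw [← h2, ← h3, he]
  wd_act _ _ := rfl
  run_act := fun γ {z p u} h => pre_run _ h z rfl
  free γ z h := by
    have h1 : (show vtx w ⟶ vtx w from e γ⁻¹) ≫ z.2 = z.2 := eq_of_heq (Sigma.mk.inj h).2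
    have h2 : e γ⁻¹ = 1 := (cancel_mono z.2).1 (h1.trans (Category.id_comp _).symm)
    exact inv_eq_one.1 (e.injective (h2.trans (map_one e).symm))
  trans := by
    rintro ⟨⟨v, hv⟩, f⟩ ⟨⟨v', hv'⟩, f'⟩ h
    obtain rfl : v = v' := h
    refine ⟨(e.symm (f' ≫ Groupoid.inv f))⁻¹, ?_⟩
    change pre (e _⁻¹) _ = _
    rw [inv_inv, MulEquiv.apply_symm_apply]
    exact congrArg (Sigma.mk _) ((Category.assoc _ _ _).trans
      ((congrArg (f' ≫ ·) (Groupoid.inv_comp f)).trans (Category.comp_id _)))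

theorem threeProp_of_equiv {G : Type v} [Group G] {w : SqVertex P} (e : G ≃* DiagramGroup P w) :
    ThreeProp G := (cover e).three ⟨w, 𝟙 _⟩

end Pool.Agent.Lib.MP_24b811_al.Gc
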