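import Pool.Agent.Lib.MP_24b811_al.FrForest
import Pool.Agent.Lib.MP_24b811_al.GcSquier

/-!
# The diagram group of the presentation with one relation `x = x ^ (m + 1)` inside F
-/

set_option autoImplicit false

namespace Pool.Agent.Lib.MP_24b811_al.Fr

open CategoryTheory unitInterval Gc

variable {m : ℕ} {P : SemigroupPresentation Unit}

section val

variable {Γ : Type} [Group Γ] (y : ℕ → Γ)

/-- An edge is sent to the element given by its place. -/
def preY (P : SemigroupPresentation Unit) : SqVertex P ⥤q SingleObj Γ where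
  obj _ := SingleObj.star _
  map e := y e.1.left.length

lemma lift_preY {v w : SqVertex P} (e : v ⟶ w) :
    (Quiver.FreeGroupoid.lift (preY y P)).map ((Quiver.FreeGroupoid.of (SqVertex P)).map e) =
      y e.1.left.length :=
  congrArg (fun F : SqVertex P ⥤q SingleObj Γ => (show Γ from F.map e))
    (Quiver.FreeGroupoid.lift_spec (preY y P))

variable (hP : P.rels = {([()], List.replicate (m + 1) ())})
  (hy : ∀ i j, i < j → y (j + m) * y i = y i * y j)

include hP in
lemma rel_eq (r : P.rels) : r.1 = ([()], List.replicate (m + 1) ()) := by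
  obtain ⟨r, hr⟩ := r
  rwa [hP] at hr

/-- The functor defined by elements that satisfy the relations of the forest monoid. -/
noncomputable def evY : SquierGroupoid P ⥤ SingleObj Γ :=
  CategoryTheory.Quotient.lift _ (Quiver.FreeGroupoid.lift (preY y P)) (by
    rintro _ _ _ _ ⟨a, b, d, r, s, v₁, v₂, v₃, v₄, e₁, e₂, e₃, e₄, h₁, h₂, h₃, h₄⟩
    rw [Functor.map_comp, Functor.map_comp]
    rw [lift_preY, lift_preY, lift_preY, lift_preY]
    change y _ * y _ = y _ * y _
    rw [h₁, h₂, h₃, h₄, rel_eq hP r]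
    have := hy a.length (a.length + 1 + b.length) (by omega)
    simp only [List.length_append, List.length_replicate, List.length_singleton]
    rwa [show a.length + (m + 1) + b.length = a.length + 1 + b.length + m by omega])

/-- The value on a morphism. -/
noncomputable def val {X Y : SquierGroupoid P} (f : X ⟶ Y) : Γ := (evY y hP hy).map f

lemma val_comp {X Y Z : SquierGroupoid P} (f : X ⟶ Y) (g : Y ⟶ Z) :
    val y hP hy (f ≫ g) = val y hP hy g * val y hP hy f := (evY y hP hy).map_comp f g

lemma val_id (X : SquierGroupoid P) : val y hP hy (𝟙 X) = 1 := (evY y hP hy).map_id X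

lemma val_edge {v w : SqVertex P} (e : v ⟶ w) : val y hP hy (edgeHom e) = y e.1.left.length :=
  lift_preY y e

lemma val_inv {X Y : SquierGroupoid P} (f : X ⟶ Y) :
    val y hP hy (Groupoid.inv f) = (val y hP hy f)⁻¹ := by
  rw [eq_inv_iff_mul_eq_one, ← val_comp, Groupoid.comp_inv, val_id]

/-- The value as a homomorphism on a diagram group. -/
noncomputable def valHom (w : SqVertex P) : DiagramGroup P w →* Γ :=
  MonoidHom.mk' (fun f => val y hP hy f) fun f g => val_comp y hP hy g f

end val

lemma unit_ext {a b : List Unit} (h : a.length = b.length) : a = b :=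
  List.ext_getElem h fun _ _ _ => rfl

variable (hP : P.rels = {([()], List.replicate (m + 1) ())})

/-- The relation. -/
def rel0 : P.rels := ⟨([()], List.replicate (m + 1) ()), by rw [hP]; rfl⟩

/-- Expansion of a letter, in the universal cover. -/
noncomputable def up {w : SqVertex P} (i : ℕ) (z : Pt w) : Pt w := pext z (i, (rel0 hP, true))

lemma up_edge {w v v' : SqVertex P} (e : v ⟶ v') (g : vtx w ⟶ vtx v) :
    e.1.left.length < v.word.length ∧
      up hP e.1.left.length ⟨v, g⟩ = ⟨v', g ≫ edgeHom e⟩ := by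
  have h : rel0 hP = e.1.rel := Subtype.ext (rel_eq hP e.1.rel).symm
  constructor
  · have h1 := congrArg List.length e.2.1
    rw [SqEdge.src, rel_eq hP] at h1
    simp only [List.length_append, List.length_singleton] at h1
    omega
  · rw [up, h]
    exact pext_eq (⟨v, g⟩ : Pt w) (m := (e.1.rel, true)) rfl e.2.1.symm v' e.2.2.symm

include hP in
lemma exists_edge {v : SqVertex P} {i : ℕ} (h : i < v.word.length) :
    ∃ (v' : SqVertex P) (e : v ⟶ v'), e.1.left.length = i ∧ v'.word.length = v.word.length + m := by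
  let e : SqEdge P := ⟨List.replicate i (), rel0 hP, List.replicate (v.word.length - i - 1) ()⟩
  refine ⟨⟨e.tgt, tgt_ne_nil e⟩, ⟨e, unit_ext ?_, rfl⟩, by simp [e], ?_⟩
  · simp only [e, SqEdge.src, rel0, List.length_append, List.length_replicate,
      List.length_singleton]
    omega
  · simp only [e, SqEdge.tgt, rel0, List.length_append, List.length_replicate]
    omega

lemma up_spec {w : SqVertex P} {i : ℕ} {z : Pt w} (h : i < z.1.word.length) :
    (up hP i z).1.word.length = z.1.word.length + m ∧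
      ∀ {Γ : Type} [Group Γ] (y : ℕ → Γ) (hy : ∀ i j, i < j → y (j + m) * y i = y i * y j),
        val y hP hy (up hP i z).2 = y i * val y hP hy z.2 := by
  obtain ⟨v, g⟩ := z
  obtain ⟨v', e, rfl, h2⟩ := exists_edge hP h
  rw [(up_edge hP e g).2]
  exact ⟨h2, fun y hy => by rw [val_comp, val_edge]⟩

lemma up_cancel {w : SqVertex P} {i : ℕ} {z : Pt w} (h : i < z.1.word.length) :
    pext (up hP i z) (i, (rel0 hP, false)) = z := by
  have := (ptSet w).cancel (z := z) (a := List.replicate i ())
    (b := List.replicate (z.1.word.length - i - 1) ()) (m := (rel0 hP, true)) trivial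
    (unit_ext (by
      simp only [ptSet, sys, rel0, List.length_append, List.length_replicate, cond_true,
        List.length_singleton]
      omega))
  rw [List.length_replicate] at this
  exact this

lemma up_sq {w : SqVertex P} {i j : ℕ} {z : Pt w} (h : i < j) (hj : j < z.1.word.length) :
    up hP (j + m) (up hP i z) = up hP i (up hP j z) := by
  have := (ptSet w).square (z := z) (a := List.replicate i ()) (b := List.replicate (j - i - 1) ())
    (c := List.replicate (z.1.word.length - j - 1) ()) (m := (rel0 hP, true))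
    (m' := (rel0 hP, true)) trivial
    (unit_ext (by
      simp only [ptSet, sys, rel0, List.length_append, List.length_replicate, cond_true,
        List.length_singleton]
      omega))
  have e1 : ((sys P).src ((sys P).inv (rel0 hP, true))).length = m + 1 := by simp [sys, rel0]
  have e2 : ((sys P).src (rel0 hP, true)).length = 1 := by simp [sys, rel0]
  rw [e1, e2, List.length_replicate, List.length_replicate,
    show i + (m + 1) + (j - i - 1) = j + m by omega, show i + 1 + (j - i - 1) = j by omega] at this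
  exact this

lemma up_conn {w : SqVertex P} (Q : Pt w → Prop) (h0 : Q ⟨w, 𝟙 _⟩)
    (h : ∀ i z, i < z.1.word.length → (Q z ↔ Q (up hP i z))) (z : Pt w) : Q z := by
  have key : ∀ {X Y : SquierGroupoid P} (f : X ⟶ Y) (g : vtx w ⟶ X),
      Q ⟨X.as.as, g⟩ → Q ⟨Y.as.as, g ≫ f⟩ := by
    intro X Y f
    induction f using hom_induction with
    | hid X =>
      exact fun g k => (congrArg (fun f => Q ⟨X.as.as, f⟩) (Category.comp_id g)).mpr k
    | hpos X v v' f e ih =>
      intro g k
      obtain ⟨k1, k2⟩ := up_edge hP e (g ≫ f)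
      have := (h _ ⟨v, g ≫ f⟩ k1).1 (ih g k)
      rwa [k2, Category.assoc] at this
    | hneg X v v' f e ih =>
      intro g k
      obtain ⟨k1, k2⟩ := up_edge hP e (g ≫ f ≫ Groupoid.inv (edgeHom e))
      refine (h _ ⟨v', g ≫ f ≫ Groupoid.inv (edgeHom e)⟩ k1).2 ?_
      rw [k2, Category.assoc, Category.assoc, Groupoid.inv_comp, Category.comp_id]
      exact ih g k
  have := key z.2 (𝟙 _) h0
  rwa [Category.id_comp] at this

/-- The universal cover as a set of forests. -/
noncomputable def fo (w : SqVertex P) (hw : w.word = [()]) : Fo m (Pt w) where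
  len z := z.1.word.length
  up := up hP
  len_up h := (up_spec hP h).1
  sq := up_sq hP
  inj := fun {i z z'} h h1 h2 => by rw [← up_cancel hP h, h2, up_cancel hP (h1 ▸ h)]
  ev z := val (yy m) hP (fun _ _ => yy_rel' m m) z.2
  ev_up h := (up_spec hP h).2 _ _
  z0 := ⟨w, 𝟙 _⟩
  len0 := by rw [hw]; rfl
  ev0 := val_id _ _ _ _
  conn := up_conn hP

lemma exists_elt {w : SqVertex P} (z z' : Pt w) (h : z.1.word.length = z'.1.word.length) :
    ∃ f : DiagramGroup P w, ∀ {Γ : Type} [Group Γ] (y : ℕ → Γ)
      (hy : ∀ i j, i < j → y (j + m) * y i = y i * y j),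
      valHom y hP hy w f = (val y hP hy z'.2)⁻¹ * val y hP hy z.2 := by
  obtain ⟨⟨v, hv⟩, g⟩ := z
  obtain ⟨⟨v', hv'⟩, g'⟩ := z'
  obtain rfl : v = v' := unit_ext h
  exact ⟨g ≫ Groupoid.inv g', fun y hy => (val_comp y hP hy _ _).trans (by rw [val_inv])⟩

/-- The element of F defined by a map of the line that fixes `0` and `1`. -/
noncomputable def toF (g : Equiv.Perm ℝ) (hg : g ∈ PL) (h0 : g 0 = 0) (h1 : g 1 = 1) :
    ThompsonF :=
  ⟨mkHomeo g hg.1 (hg.1.orderIsoOfSurjective g g.surjective).continuous h0 h1,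
    fun _ _ h => hg.1 h, by
      obtain ⟨B, k1, k2⟩ := hg.2.2
      refine ⟨B, k1, fun x y hxy hB => ?_⟩
      obtain ⟨k, hk⟩ := k2 x y hxy hB
      exact ⟨k, fun z r1 r2 => hk z r1 r2⟩⟩

variable {P : SemigroupPresentation Unit} (hP : P.rels = {([()], List.replicate (m + 1 + 1) ())})
  (w : SqVertex P) (hw : w.word = [()])

/-- The map of the line defined by an element of the diagram group. -/
noncomputable def lin : DiagramGroup P w →* Equiv.Perm ℝ :=
  valHom (yy (m + 1)) hP (fun _ _ => yy_rel' _ _) w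

include hw in
lemma lin_prop (f : DiagramGroup P w) : lin hP w f ∈ PL ∧ (∀ t ≤ 0, lin hP w f t = t) ∧
    ∀ t, 1 ≤ t → lin hP w f t = t := by
  obtain ⟨h1, h2, h3⟩ := (fo hP w hw).ev_prop ⟨w, f⟩
  refine ⟨h1, h2, fun t ht => (h3 t ht).trans ?_⟩
  change t + (w.word.length : ℝ) - 1 = t
  simp [hw]

/-- The embedding of the diagram group in F. -/
noncomputable def rho : DiagramGroup P w →* ThompsonF :=
  MonoidHom.mk' (fun f => toF (lin hP w f) (lin_prop hP w hw f).1
    ((lin_prop hP w hw f).2.1 0 le_rfl) ((lin_prop hP w hw f).2.2 1 le_rfl)) fun f g =>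
      Subtype.ext (Homeomorph.ext fun x => Subtype.ext (by
        change lin hP w (f * g) x = lin hP w f (lin hP w g x)
        rw [map_mul, Equiv.Perm.mul_apply]))

lemma rho_smul (f : DiagramGroup P w) (x : I) : ((rho hP w hw f • x : I) : ℝ) = lin hP w f x := rfl

theorem rho_inj : Function.Injective (rho hP w hw) := by
  refine (injective_iff_map_eq_one _).2 fun f hf => ?_
  have h1 : lin hP w f = 1 := by
    ext t
    rcases le_total t 0 with h | h
    · exact (lin_prop hP w hw f).2.1 t h
    rcases le_total 1 t with h' | h'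
    · exact (lin_prop hP w hw f).2.2 t h'
    · rw [← rho_smul hP w hw f ⟨t, h, h'⟩, hf, one_smul]
      rfl
  have h2 : (⟨w, f⟩ : Pt w) = ⟨w, 𝟙 _⟩ :=
    Fo.ev_inj (F := fo hP w hw) rfl (h1.trans (fo hP w hw).ev0.symm)
  exact eq_of_heq (Sigma.mk.inj h2).2

/-- The sum of the places of the cells, modulo `m + 1`. -/
noncomputable def phi : DiagramGroup P w →* Multiplicative (ZMod (m + 1)) :=
  valHom (fun i : ℕ => Multiplicative.ofAdd (i : ZMod (m + 1))) hP (fun i j _ => by
    rw [← ofAdd_add, ← ofAdd_add, Nat.cast_add, ZMod.natCast_self, add_zero,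
      add_comm (j : ZMod (m + 1))]) w

theorem exists_bump {a x b : I} (h1 : a < x) (h2 : x < b) : ∃ f : DiagramGroup P w,
    Sup (rho hP w hw f) a b ∧ rho hP w hw f • x ≠ x ∧ phi hP w f = Multiplicative.ofAdd (-1) := by
  have h1' : (0 : ℝ) < x - a := sub_pos.2 h1
  have h2' : (0 : ℝ) < b - x := sub_pos.2 h2
  obtain ⟨n, hn⟩ := pow_unbounded_of_one_lt (max (1 / ((x : ℝ) - a)) (2 / ((b : ℝ) - x)))
    (one_lt_two (α := ℝ))
  obtain ⟨n1, n2⟩ := max_lt_iff.1 hn
  rw [div_lt_iff₀ h1'] at n1
  rw [div_lt_iff₀ h2'] at n2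
  obtain ⟨z, hz⟩ := (fo hP w hw).fine n
  obtain ⟨p1, p2, p3⟩ := (fo hP w hw).ev_prop z
  have k1 := hz a x a.2.1 h1.le x.2.2
  have k2 := hz x b x.2.1 h2.le b.2.2
  have k3 : 0 ≤ (fo hP w hw).ev z a := by simpa [p2 0 le_rfl] using p1.1.monotone a.2.1
  have k4 : (fo hP w hw).ev z b ≤ (fo hP w hw).len z := by
    simpa [p3 1 le_rfl] using p1.1.monotone b.2.2
  obtain ⟨i, hi⟩ : ∃ i, ⌈(fo hP w hw).ev z x⌉₊ = i + 1 :=
    Nat.exists_eq_succ_of_ne_zero (Nat.ceil_pos.2 (by linarith)).ne'
  have i1 : (i : ℝ) < (fo hP w hw).ev z x := Nat.lt_ceil.1 (by omega)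
  have i2 : (fo hP w hw).ev z x ≤ i + 1 := by exact_mod_cast Nat.ceil_le.1 hi.le
  have i3 : i + 1 < z.1.word.length := by
    have : ((i + 1 : ℕ) : ℝ) < (fo hP w hw).len z := by push_cast; linarith
    exact_mod_cast this
  have i4 : i < z.1.word.length := by omega
  obtain ⟨f, hf⟩ := exists_elt hP (up hP i z) (up hP (i + 1) z)
    (by rw [(up_spec hP i3).1, (up_spec hP i4).1])
  have e : ∀ t : I, rho hP w hw f • t = t ↔
      yy (m + 1) i ((fo hP w hw).ev z t) = yy (m + 1) (i + 1) ((fo hP w hw).ev z t) := by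
    intro t
    rw [Subtype.ext_iff, rho_smul, lin, hf, (up_spec hP i3).2, (up_spec hP i4).2,
      Equiv.Perm.mul_apply, Equiv.Perm.inv_eq_iff_eq]
    rfl
  refine ⟨f, fun t ht => (e t).2 ?_, fun h => ?_, ?_⟩
  · rcases ht with ht | ht
    · have := p1.1.monotone (show (t : ℝ) ≤ a from ht)
      rw [yy_1 _ (by linarith), yy_1 _ (by push_cast; linarith)]
    · have := p1.1.monotone (show (b : ℝ) ≤ t from ht)
      rw [yy_3 _ (by linarith), yy_3 _ (by push_cast; linarith)]
  · have := (e x).1 h
    rw [yy_1 _ (i := i + 1) (by push_cast; linarith)] at this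
    exact (lt_yy m i1).ne' this
  · rw [phi, hf, (up_spec hP i3).2, (up_spec hP i4).2, mul_inv_rev, mul_comm, mul_assoc,
      ← mul_assoc _ _⁻¹, mul_inv_cancel, one_mul, ← ofAdd_neg, ← ofAdd_add]
    congr 1
    push_cast
    ring

/-- The image in F. -/
noncomputable def img : Subgroup ThompsonF := MonoidHom.range (G := DiagramGroup P w) (rho hP w hw)

/-- The diagram group is isomorphic to its image. -/
noncomputable def imgEquiv : DiagramGroup P w ≃* img hP w hw :=
  MonoidHom.ofInjective (G := DiagramGroup P w) (rho_inj hP w hw)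

theorem lm_range : LM (img hP w hw) I := lmF.sub _ fun _ _ _ h1 h2 => by
  obtain ⟨f, k1, k2, -⟩ := exists_bump hP w hw h1 h2
  exact ⟨_, ⟨f, rfl⟩, k1, k2⟩

theorem not_three_range (hm : 1 ≤ m) : ¬ ThreeProp (commutator (img hP w hw)) := by
  intro T
  obtain ⟨x, x1, x2⟩ := exists_between (zero_lt_one (α := I))
  obtain ⟨a, a1, a2⟩ := exists_between x1
  obtain ⟨b, b1, b2⟩ := exists_between x2
  obtain ⟨f, k1, -, k2⟩ := exists_bump hP w hw a2 b1
  have h5 := (lm_range hP w hw).component (germF.sub _) (K := commutator _)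
    (Subgroup.commutator_mono le_top le_top) T (one_mem _) (f₀ := ⟨_, f, rfl⟩) a1 b2
    (fun y hy => (k1 y (Or.inl hy)).trans (one_smul _ y).symm) fun y hy => k1 y (Or.inr hy)
  have h6 := MonoidHom.mem_ker.1 (Abelianization.commutator_subset_ker
    ((phi hP w).comp (imgEquiv hP w hw).symm.toMonoidHom) h5)
  have h7 : (imgEquiv hP w hw).symm ⟨_, f, rfl⟩ = f :=
    (imgEquiv hP w hw).symm_apply_apply f
  rw [MonoidHom.comp_apply, MulEquiv.coe_toMonoidHom, h7, k2] at h6
  have h8 : (-1 : ZMod (m + 1)) = 0 := h6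
  have : Fact (1 < m + 1) := ⟨by omega⟩
  exact one_ne_zero (neg_eq_zero.1 h8)

end Pool.Agent.Lib.MP_24b811_al.Fr
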