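import Pool.Agent.Lib.MP_24b811_al.FrLine

/-!
# Connected sets of forests and their maps of the line
-/

set_option autoImplicit false

namespace Pool.Agent.Lib.MP_24b811_al.Fr

open Relation

universe u

/-- A connected set with expansions that satisfy the relations of the forest monoid. -/
structure Fo (m : ℕ) (Z : Type u) where
  len : Z → ℕ
  up : ℕ → Z → Z
  len_up : ∀ {i z}, i < len z → len (up i z) = len z + m
  sq : ∀ {i j z}, i < j → j < len z → up (j + m) (up i z) = up i (up j z)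
  inj : ∀ {i z z'}, i < len z → len z = len z' → up i z = up i z' → z = z'
  ev : Z → Equiv.Perm ℝ
  ev_up : ∀ {i z}, i < len z → ev (up i z) = yy m i * ev z
  z0 : Z
  len0 : len z0 = 1
  ev0 : ev z0 = 1
  conn : ∀ Q : Z → Prop, Q z0 → (∀ i z, i < len z → (Q z ↔ Q (up i z))) → ∀ z, Q z

namespace Fo

variable {m : ℕ} {Z : Type u} (F : Fo m Z)

/-- One expansion. -/
def St (z z' : Z) : Prop := ∃ i, i < F.len z ∧ z' = F.up i z

lemma equiv : Equivalence (Join (ReflTransGen F.St)) := by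
  refine equivalence_join_reflTransGen ?_
  rintro a _ _ ⟨i, hi, rfl⟩ ⟨j, hj, rfl⟩
  rcases lt_trichotomy i j with h | rfl | h
  · refine ⟨_, .single ⟨j + m, by rw [F.len_up hi]; omega, rfl⟩, .single ⟨i, ?_, F.sq h hj⟩⟩
    rw [F.len_up hj]
    omega
  · exact ⟨_, .refl, .refl⟩
  · refine ⟨_, .single ⟨j, by rw [F.len_up hi]; omega, rfl⟩, .single ⟨i + m, ?_, (F.sq h hi).symm⟩⟩
    rw [F.len_up hj]
    omega

lemma join (z z' : Z) : Join (ReflTransGen F.St) z z' := by
  have key := F.conn (fun z => Join (ReflTransGen F.St) F.z0 z) (F.equiv.refl _) fun i z hi => by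
    have h : Join (ReflTransGen F.St) z (F.up i z) := ⟨_, .single ⟨i, hi, rfl⟩, .refl⟩
    exact ⟨fun k => F.equiv.trans k h, fun k => F.equiv.trans k (F.equiv.symm h)⟩
  exact F.equiv.trans (F.equiv.symm (key z)) (key z')

/-- Sequences of expansions from left to right, at places at least `i`. -/
inductive Srt : ℕ → Z → Z → Prop
  | refl (i : ℕ) (z : Z) : Srt i z z
  | step {i j : ℕ} {z c : Z} : i ≤ j → j < F.len z → Srt j (F.up j z) c → Srt i z c

variable {F}

lemma Srt.ins {i : ℕ} {u c : Z} (h : F.Srt i u c) :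
    ∀ j z, j < F.len z → u = F.up j z → F.Srt (min i j) z c := by
  induction h with
  | refl i u =>
    rintro j z hj rfl
    exact .step (min_le_right _ _) hj (.refl _ _)
  | @step i k u c hik hk hs ih =>
    rintro j z hj rfl
    rcases le_or_gt j k with h | h
    · exact .step (min_le_right _ _) hj (.step h hk hs)
    · have h1 : k < F.len z := h.trans hj
      have h2 := ih (j + m) (F.up k z) (by rw [F.len_up h1]; omega) (F.sq h hj).symm
      rw [min_eq_left (by omega)] at h2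
      exact .step ((min_le_left _ _).trans hik) h1 h2

lemma srt_of {z c : Z} (h : ReflTransGen F.St z c) : F.Srt 0 z c := by
  induction h using ReflTransGen.head_induction_on with
  | refl => exact .refl _ _
  | head h _ ih =>
    obtain ⟨j, hj, rfl⟩ := h
    simpa using ih.ins j _ hj rfl

lemma D_up {j : ℕ} {z : Z} (hj : j < F.len z) (c : Z) (t : ℝ) :
    (F.ev c * (F.ev z)⁻¹) t = (F.ev c * (F.ev (F.up j z))⁻¹) (yy m j t) := by
  rw [F.ev_up hj, ← Equiv.Perm.mul_apply _ (yy m j)]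
  congr 1
  group

lemma Srt.prop {i : ℕ} {z c : Z} (h : F.Srt i z c) : F.len z ≤ F.len c ∧
    (∀ t : ℝ, t ≤ i → (F.ev c * (F.ev z)⁻¹) t = t) ∧ ∀ t : ℝ, t ≤ (F.ev c * (F.ev z)⁻¹) t := by
  induction h with
  | refl i z => simp
  | @step i j z c hij hj _ ih =>
    obtain ⟨h1, h2, h3⟩ := ih
    have hij' : (i : ℝ) ≤ j := by exact_mod_cast hij
    refine ⟨by rw [F.len_up hj] at h1; omega, fun t ht => ?_, fun t => ?_⟩
    · rw [D_up hj, yy_1 m (ht.trans hij'), h2 t (ht.trans hij')]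
    · rw [D_up hj]
      exact (le_yy m j t).trans (h3 _)

variable {F : Fo (m + 1) Z}

lemma not_lt_step {j j' : ℕ} {z z' c : Z} (hj : j < F.len z) (hj' : j' < F.len z')
    (h : F.Srt j (F.up j z) c) (h' : F.Srt j' (F.up j' z') c) (he : F.ev z = F.ev z') :
    ¬ j < j' := by
  intro hlt
  have h1 := (Srt.step le_rfl hj' h').prop.2.1 j' le_rfl
  rw [← he, D_up hj] at h1
  have h2 := h.prop.2.2 (yy (m + 1) j j')
  have h3 := lt_yy m (i := j) (t := j') (by exact_mod_cast hlt)
  linarith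

lemma Srt.eq {i : ℕ} {z c : Z} (h : F.Srt i z c) :
    ∀ i' z', F.Srt i' z' c → F.len z = F.len z' → F.ev z = F.ev z' → z = z' := by
  induction h with
  | refl i z =>
    intro i' z' h' hl _
    cases h' with
    | refl => rfl
    | step _ hj hs =>
      have := hs.prop.1
      rw [F.len_up hj] at this
      omega
  | @step i j z c _ hj hs ih =>
    intro i' z' h' hl he
    cases h' with
    | refl =>
      have := hs.prop.1
      rw [F.len_up hj] at this
      omega
    | @step _ j' _ _ _ hj' hs' =>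
      obtain rfl : j = j' := le_antisymm (not_lt.1 (not_lt_step hj' hj hs' hs he.symm))
        (not_lt.1 (not_lt_step hj hj' hs hs' he))
      refine F.inj hj hl (ih _ _ hs' ?_ ?_)
      · rw [F.len_up hj, F.len_up hj', hl]
      · rw [F.ev_up hj, F.ev_up hj', he]

/-- A point is determined by its length and its map. -/
theorem ev_inj {z z' : Z} (hl : F.len z = F.len z') (he : F.ev z = F.ev z') : z = z' := by
  obtain ⟨c, h, h'⟩ := F.join z z'
  exact (srt_of h).eq _ _ (srt_of h') hl he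

variable (F)

lemma ev_prop (z : Z) : F.ev z ∈ PL ∧ (∀ t ≤ 0, F.ev z t = t) ∧
    ∀ t, 1 ≤ t → F.ev z t = t + F.len z - 1 := by
  refine F.conn (fun z => F.ev z ∈ PL ∧ (∀ t ≤ 0, F.ev z t = t) ∧
    ∀ t, 1 ≤ t → F.ev z t = t + F.len z - 1) ?_ (fun i z hi => ?_) z
  · rw [F.ev0, F.len0]
    exact ⟨PL.one_mem, fun _ _ => rfl, fun t _ => by simp⟩
  · have hi' : (i : ℝ) + 1 ≤ F.len z := by exact_mod_cast hi
    have h0 : ∀ t : ℝ, t ≤ 0 → yy (m + 1) i t = t := fun t ht =>
      yy_1 _ (ht.trans (Nat.cast_nonneg i))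
    have h1 : ∀ t : ℝ, 1 ≤ t → yy (m + 1) i (t + F.len z - 1) =
        t + (F.len z + (m + 1) : ℕ) - 1 := fun t ht => by
      rw [yy_3 _ (by linarith)]
      push_cast
      ring
    rw [F.ev_up hi, F.len_up hi, PL.mul_mem_cancel_left (yy_mem _ _)]
    refine and_congr_right fun _ => and_congr (forall₂_congr fun t ht => ?_)
      (forall₂_congr fun t ht => ?_)
    · rw [Equiv.Perm.mul_apply]
      conv_rhs => rw [← h0 t ht]
      rw [h0 t ht, ← (yy (m + 1) i).injective.eq_iff, h0 t ht]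
    · rw [Equiv.Perm.mul_apply, ← h1 t ht, (yy (m + 1) i).injective.eq_iff]

lemma expand (k : ℕ) : ∀ z, k ≤ F.len z → ∃ z', ∀ s t : ℝ, s ≤ t →
    t - s ≤ (F.ev z' * (F.ev z)⁻¹) t - (F.ev z' * (F.ev z)⁻¹) s ∧
    (0 ≤ s → t ≤ k → 2 * (t - s) ≤ (F.ev z' * (F.ev z)⁻¹) t - (F.ev z' * (F.ev z)⁻¹) s) := by
  induction k with
  | zero =>
    refine fun z _ => ⟨z, fun s t h => ⟨by simp, fun h1 h2 => ?_⟩⟩
    have : t - s = 0 := by push_cast at h2; linarith
    simp [this]
  | succ k ih =>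
    intro z hk
    have hk' : k < F.len z := hk
    obtain ⟨z', h⟩ := ih (F.up k z) (by rw [F.len_up hk']; omega)
    refine ⟨z', fun s t hst => ?_⟩
    simp only [D_up hk' z']
    generalize F.ev z' * (F.ev (F.up k z))⁻¹ = g at h
    have e1 := fun {s t : ℝ} (hst : s ≤ t) => yy_exp (m + 1) k hst
    have a1 : ∀ s t : ℝ, 0 ≤ s → s ≤ t → t ≤ k →
        2 * (t - s) ≤ g (yy (m + 1) k t) - g (yy (m + 1) k s) := fun s t h1 h2 h3 => by
      rw [yy_1 _ h3, yy_1 _ (h2.trans h3)]
      exact (h s t h2).2 h1 h3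
    have a2 : ∀ s t : ℝ, k ≤ s → s ≤ t → t ≤ k + 1 →
        2 * (t - s) ≤ g (yy (m + 1) k t) - g (yy (m + 1) k s) := fun s t h1 h2 h3 =>
      (yy_two m k h1 h2 h3).trans (h _ _ (by linarith [e1 h2])).1
    refine ⟨(e1 hst).trans (h _ _ (by linarith [e1 hst])).1, fun h1 h2 => ?_⟩
    push_cast at h2
    rcases le_total t k with r1 | r1
    · exact a1 s t h1 hst r1
    rcases le_total s k with r2 | r2
    · linarith [a1 s k h1 r2 le_rfl, a2 k t le_rfl r1 h2]
    · exact a2 s t r2 hst h2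

lemma fine (n : ℕ) : ∃ z, ∀ s t : ℝ, 0 ≤ s → s ≤ t → t ≤ 1 →
    2 ^ n * (t - s) ≤ F.ev z t - F.ev z s := by
  induction n with
  | zero => exact ⟨F.z0, fun s t _ _ _ => by simp [F.ev0]⟩
  | succ n ih =>
    obtain ⟨z, hz⟩ := ih
    obtain ⟨z', h⟩ := F.expand _ z le_rfl
    obtain ⟨p1, p2, p3⟩ := F.ev_prop z
    refine ⟨z', fun s t h1 h2 h3 => ?_⟩
    have k1 := (h _ _ (p1.1.monotone h2)).2 (by simpa [p2 0 le_rfl] using p1.1.monotone h1)
      (by simpa [p3 1 le_rfl] using p1.1.monotone h3)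
    simp only [Equiv.Perm.mul_apply, Equiv.Perm.coe_inv, Equiv.symm_apply_apply] at k1
    have k2 := hz s t h1 h2 h3
    rw [pow_succ]
    linarith

end Fo

end Pool.Agent.Lib.MP_24b811_al.Fr
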