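import Pool.Agent.Lib.MP_24b811_al.FrLine

/-!
# Connected sets of forests with additional terminating moves
-/

set_option autoImplicit false

namespace Pool.Agent.Lib.MP_24b811_al.Fr

open Relation

universe u

/-- Expansions as in the forest monoid, together with terminating moves that commute with them. -/
structure Fp (Z W : Type u) where
  wd : Z → W
  len : W → ℕ
  mu : W → ℕ
  up : ℕ → Z → Z
  R : Z → Z → Prop
  ev : Z → Equiv.Perm ℝ
  len_up : ∀ {i z}, i < len (wd z) → len (wd (up i z)) = len (wd z) + 1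
  sq : ∀ {i j z}, i < j → j < len (wd z) → up (j + 1) (up i z) = up i (up j z)
  inj : ∀ {i z z'}, i < len (wd z) → wd z = wd z' →
    wd (up i z) = wd (up i z') ∧ (up i z = up i z' → z = z')
  ev_up : ∀ {i z}, i < len (wd z) → ev (up i z) = xe i * ev z
  R_len : ∀ {z y}, R z y → len (wd y) = len (wd z) ∧ ev y = ev z ∧ mu (wd y) < mu (wd z)
  R_up : ∀ {z y i}, R z y → i < len (wd z) → R (up i z) (up i y)
  R_dia : ∀ {z a b}, R z a → R z b → a = b ∨ ∃ c, R a c ∧ R b c
  R_wd : ∀ {z z' y}, wd z = wd z' → R z y → ∃ y', R z' y' ∧ wd y = wd y' ∧ (y = y' → z = z')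
  z0 : Z
  len0 : len (wd z0) = 1
  ev0 : ev z0 = 1
  conn : ∀ Q : Z → Prop, Q z0 → (∀ i z, i < len (wd z) → (Q z ↔ Q (up i z))) →
    (∀ z y, R z y → (Q z ↔ Q y)) → ∀ z, Q z

namespace Fp

variable {Z W : Type u} (F : Fp Z W)

/-- One expansion. -/
def St (z z' : Z) : Prop := ∃ i, i < F.len (F.wd z) ∧ z' = F.up i z

/-- One move. -/
def Mv (z z' : Z) : Prop := F.St z z' ∨ F.R z z'

lemma equivR : Equivalence (Join (ReflTransGen F.R)) := by
  refine equivalence_join_reflTransGen fun a b c h h' => ?_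
  rcases F.R_dia h h' with rfl | ⟨d, h1, h2⟩
  exacts [⟨_, .refl, .refl⟩, ⟨d, .single h1, .single h2⟩]

lemma equiv : Equivalence (Join (ReflTransGen F.Mv)) := by
  refine equivalence_join_reflTransGen ?_
  rintro a b c (⟨i, hi, rfl⟩ | h) (⟨j, hj, rfl⟩ | h')
  · rcases lt_trichotomy i j with h | rfl | h
    · refine ⟨_, .single (Or.inl ⟨j + 1, by rw [F.len_up hi]; omega, rfl⟩),
        .single (Or.inl ⟨i, ?_, F.sq h hj⟩)⟩
      rw [F.len_up hj]
      omega
    · exact ⟨_, .refl, .refl⟩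
    · refine ⟨_, .single (Or.inl ⟨j, by rw [F.len_up hi]; omega, rfl⟩),
        .single (Or.inl ⟨i + 1, ?_, (F.sq h hi).symm⟩)⟩
      rw [F.len_up hj]
      omega
  · exact ⟨_, .single (Or.inr (F.R_up h' hi)), .single (Or.inl ⟨i, (F.R_len h').1 ▸ hi, rfl⟩)⟩
  · exact ⟨_, .single (Or.inl ⟨j, (F.R_len h).1 ▸ hj, rfl⟩), .single (Or.inr (F.R_up h hj))⟩
  · rcases F.R_dia h h' with rfl | ⟨d, h1, h2⟩
    exacts [⟨_, .refl, .refl⟩, ⟨d, .single (Or.inr h1), .single (Or.inr h2)⟩]

lemma join (z z' : Z) : Join (ReflTransGen F.Mv) z z' := by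
  have k : ∀ z y, F.Mv z y →
      (Join (ReflTransGen F.Mv) F.z0 z ↔ Join (ReflTransGen F.Mv) F.z0 y) := fun z y m => by
    have h : Join (ReflTransGen F.Mv) z y := ⟨_, .single m, .refl⟩
    exact ⟨fun k => F.equiv.trans k h, fun k => F.equiv.trans k (F.equiv.symm h)⟩
  have key := F.conn (fun z => Join (ReflTransGen F.Mv) F.z0 z) (F.equiv.refl _)
    (fun i z hi => k _ _ (Or.inl ⟨i, hi, rfl⟩)) fun z y h => k _ _ (Or.inr h)
  exact F.equiv.trans (F.equiv.symm (key z)) (key z')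

variable {F}

lemma R_star {z y : Z} (h : ReflTransGen F.R z y) :
    F.len (F.wd y) = F.len (F.wd z) ∧ F.ev y = F.ev z := by
  induction h with
  | refl => exact ⟨rfl, rfl⟩
  | tail _ h ih => exact ⟨(F.R_len h).1.trans ih.1, (F.R_len h).2.1.trans ih.2⟩

lemma R_push {z y c : Z} (h : F.R z y) (h' : ReflTransGen F.St y c) :
    ∃ d, ReflTransGen F.St z d ∧ F.R d c := by
  induction h' with
  | refl => exact ⟨z, .refl, h⟩
  | tail _ k ih =>
    obtain ⟨d, d1, d2⟩ := ih
    obtain ⟨i, hi, rfl⟩ := k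
    have hi' := (F.R_len d2).1 ▸ hi
    exact ⟨_, d1.tail ⟨i, hi', rfl⟩, F.R_up d2 hi'⟩

/-- Expansions can be done first. -/
lemma std {z c : Z} (h : ReflTransGen F.Mv z c) :
    ∃ y, ReflTransGen F.St z y ∧ ReflTransGen F.R y c := by
  induction h using ReflTransGen.head_induction_on with
  | refl => exact ⟨c, .refl, .refl⟩
  | head h _ ih =>
    obtain ⟨y, y1, y2⟩ := ih
    rcases h with h | h
    · exact ⟨y, y1.head h, y2⟩
    · obtain ⟨d, d1, d2⟩ := R_push h y1
      exact ⟨d, d1, y2.head d2⟩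

lemma eq_of_joinR : ∀ (n : ℕ) (z z' : Z), F.mu (F.wd z) < n → F.wd z = F.wd z' →
    Join (ReflTransGen F.R) z z' → z = z' := by
  intro n
  induction n with
  | zero => exact fun _ _ h => absurd h (Nat.not_lt_zero _)
  | succ n ih =>
    intro z z' hn hw hj
    by_cases h : ∃ y, F.R z y
    · obtain ⟨y, hy⟩ := h
      obtain ⟨y', h1, h2, h3⟩ := F.R_wd hw hy
      refine h3 (ih y y' (by have := (F.R_len hy).2.2; omega) h2 ?_)
      exact F.equivR.trans (F.equivR.symm ⟨y, .single hy, .refl⟩)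
        (F.equivR.trans hj ⟨y', .single h1, .refl⟩)
    · obtain ⟨c, c1, c2⟩ := hj
      rcases c1.cases_head with rfl | ⟨y, hy, -⟩
      · rcases c2.cases_head with rfl | ⟨y, hy, -⟩
        · rfl
        · obtain ⟨y', h1, -⟩ := F.R_wd hw.symm hy
          exact absurd ⟨y', h1⟩ h
      · exact absurd ⟨y, hy⟩ h

variable (F) in
/-- Sequences of expansions from left to right, at places at least `i`. -/
inductive Srt : ℕ → Z → Z → Prop
  | refl (i : ℕ) (z : Z) : Srt i z z
  | step {i j : ℕ} {z c : Z} : i ≤ j → j < F.len (F.wd z) → Srt j (F.up j z) c → Srt i z c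

lemma Srt.ins {i : ℕ} {u c : Z} (h : F.Srt i u c) :
    ∀ j z, j < F.len (F.wd z) → u = F.up j z → F.Srt (min i j) z c := by
  induction h with
  | refl i u =>
    rintro j z hj rfl
    exact .step (min_le_right _ _) hj (.refl _ _)
  | @step i k u c hik hk hs ih =>
    rintro j z hj rfl
    rcases le_or_gt j k with h | h
    · exact .step (min_le_right _ _) hj (.step h hk hs)
    · have h1 : k < F.len (F.wd z) := h.trans hj
      have h2 := ih (j + 1) (F.up k z) (by rw [F.len_up h1]; omega) (F.sq h hj).symm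
      rw [min_eq_left (by omega)] at h2
      exact .step ((min_le_left _ _).trans hik) h1 h2

lemma srt_of {z c : Z} (h : ReflTransGen F.St z c) : F.Srt 0 z c := by
  induction h using ReflTransGen.head_induction_on with
  | refl => exact .refl _ _
  | head h _ ih =>
    obtain ⟨j, hj, rfl⟩ := h
    simpa using ih.ins j _ hj rfl

lemma D_up {j : ℕ} {z : Z} (hj : j < F.len (F.wd z)) (c : Z) (t : ℝ) :
    (F.ev c * (F.ev z)⁻¹) t = (F.ev c * (F.ev (F.up j z))⁻¹) (xe j t) := by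
  rw [F.ev_up hj, ← Equiv.Perm.mul_apply _ (xe j)]
  congr 1
  group

lemma Srt.prop {i : ℕ} {z c : Z} (h : F.Srt i z c) : F.len (F.wd z) ≤ F.len (F.wd c) ∧
    (∀ t : ℝ, t ≤ i → (F.ev c * (F.ev z)⁻¹) t = t) ∧ ∀ t : ℝ, t ≤ (F.ev c * (F.ev z)⁻¹) t := by
  induction h with
  | refl i z => simp
  | @step i j z c hij hj _ ih =>
    obtain ⟨h1, h2, h3⟩ := ih
    have hij' : (i : ℝ) ≤ j := by exact_mod_cast hij
    refine ⟨by rw [F.len_up hj] at h1; omega, fun t ht => ?_, fun t => ?_⟩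
    · rw [D_up hj, xe_1 (ht.trans hij'), h2 t (ht.trans hij')]
    · rw [D_up hj]
      exact (le_max_left _ _).trans (h3 _)

lemma not_lt_step {j j' : ℕ} {z z' c c' : Z} (hj : j < F.len (F.wd z))
    (hj' : j' < F.len (F.wd z')) (h : F.Srt j (F.up j z) c) (h' : F.Srt j' (F.up j' z') c')
    (he : F.ev z = F.ev z') (hc : F.ev c = F.ev c') : ¬ j < j' := by
  intro hlt
  have h1 := (Srt.step le_rfl hj' h').prop.2.1 j' le_rfl
  rw [← he, ← hc, D_up hj] at h1
  have h2 := h.prop.2.2 (xe j j')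
  have h3 := lt_xe (i := j) (t := j') (by exact_mod_cast hlt)
  linarith

lemma Srt.eq {i : ℕ} {z c : Z} (h : F.Srt i z c) :
    ∀ i' z' c', F.Srt i' z' c' → F.wd z = F.wd z' → F.ev z = F.ev z' →
      F.len (F.wd c) = F.len (F.wd c') → F.ev c = F.ev c' →
      F.wd c = F.wd c' ∧ (c = c' → z = z') := by
  induction h with
  | refl i z =>
    intro i' z' c' h' hw _ hl _
    cases h' with
    | refl => exact ⟨hw, id⟩
    | step _ hj hs =>
      have := hs.prop.1
      rw [F.len_up hj, ← hw] at this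
      omega
  | @step i j z c _ hj hs ih =>
    intro i' z' c' h' hw he hl hc
    cases h' with
    | refl =>
      have := hs.prop.1
      rw [F.len_up hj, hw] at this
      omega
    | @step _ j' _ _ _ hj' hs' =>
      obtain rfl : j = j' := le_antisymm (not_lt.1 (not_lt_step hj' hj hs' hs he.symm hc.symm))
        (not_lt.1 (not_lt_step hj hj' hs hs' he hc))
      obtain ⟨k1, k2⟩ := ih _ _ _ hs' (F.inj hj hw).1 (by rw [F.ev_up hj, F.ev_up hj', he]) hl hc
      exact ⟨k1, fun e => (F.inj hj hw).2 (k2 e)⟩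

/-- A point is determined by its word and its map. -/
theorem ev_inj {z z' : Z} (hw : F.wd z = F.wd z') (he : F.ev z = F.ev z') : z = z' := by
  obtain ⟨c, h, h'⟩ := F.join z z'
  obtain ⟨y, y1, y2⟩ := std h
  obtain ⟨y', y3, y4⟩ := std h'
  obtain ⟨k1, k2⟩ := (srt_of y1).eq _ _ _ (srt_of y3) hw he
    ((R_star y2).1.symm.trans (R_star y4).1) ((R_star y2).2.symm.trans (R_star y4).2)
  exact k2 (eq_of_joinR _ _ _ (Nat.lt_succ_self _) k1 ⟨c, y2, y4⟩)

variable (F)

lemma ev_prop (z : Z) : F.ev z ∈ PL ∧ (∀ t ≤ 0, F.ev z t = t) ∧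
    ∀ t, 1 ≤ t → F.ev z t = t + F.len (F.wd z) - 1 := by
  refine F.conn (fun z => F.ev z ∈ PL ∧ (∀ t ≤ 0, F.ev z t = t) ∧
    ∀ t, 1 ≤ t → F.ev z t = t + F.len (F.wd z) - 1) ?_ (fun i z hi => ?_) (fun z y h => ?_) z
  · rw [F.ev0, F.len0]
    exact ⟨PL.one_mem, fun _ _ => rfl, fun t _ => by simp⟩
  · have hi' : (i : ℝ) + 1 ≤ F.len (F.wd z) := by exact_mod_cast hi
    have h0 : ∀ t : ℝ, t ≤ 0 → xe i t = t := fun t ht => xe_1 (ht.trans (Nat.cast_nonneg i))
    have h1 : ∀ t : ℝ, 1 ≤ t → xe i (t + F.len (F.wd z) - 1) =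
        t + (F.len (F.wd z) + 1 : ℕ) - 1 := fun t ht => by
      rw [xe_3 (by linarith)]
      push_cast
      ring
    rw [F.ev_up hi, F.len_up hi, PL.mul_mem_cancel_left (xe_mem _)]
    refine and_congr_right fun _ => and_congr (forall₂_congr fun t ht => ?_)
      (forall₂_congr fun t ht => ?_)
    · rw [Equiv.Perm.mul_apply]
      conv_rhs => rw [← h0 t ht]
      rw [h0 t ht, ← (xe i).injective.eq_iff, h0 t ht]
    · rw [Equiv.Perm.mul_apply, ← h1 t ht, (xe i).injective.eq_iff]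
  · rw [(F.R_len h).1, (F.R_len h).2.1]

end Fp

end Pool.Agent.Lib.MP_24b811_al.Fr
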