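import Pool.Agent.Lib.MP_24b811_al.GcSlope

/-!
# A simple subgroup of F without the property of diagram groups
-/

set_option autoImplicit false

namespace Pool.Agent.Lib.MP_24b811_al.Gc

open unitInterval Filter Topology Set

/-- The elements of F that preserve the set of points `x` with `x / 3` dyadic. -/
def stab : Subgroup ThompsonF where
  carrier := {f | ∀ x : I, IsDyadic (((f • x : I) : ℝ) / 3) ↔ IsDyadic ((x : ℝ) / 3)}
  one_mem' x := by rw [one_smul]
  mul_mem' := fun {f g} hf hg x => by rw [mul_smul, hf, hg]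
  inv_mem' := fun {f} hf x => by rw [← hf, smul_inv_smul]

lemma dy_iff {x c : ℝ} (j : ℤ) (hc : IsDyadic c) : IsDyadic ((2 : ℝ) ^ j * x + c) ↔ IsDyadic x := by
  refine ⟨fun h => ?_, fun h => (h.zpow_mul j).add hc⟩
  have := (h.sub hc).zpow_mul (-j)
  rwa [add_sub_cancel_right, ← mul_assoc, ← zpow_add₀ (by norm_num), neg_add_cancel, zpow_zero,
    one_mul] at this

lemma bump_mem_stab {f : ThompsonF} {c e : ℝ} (hc : IsDyadic c) (hd : IsDyadic e)
    (hf : ∀ x : I, ((f • x : I) : ℝ) = bf 4 c e x) : f ∈ stab := by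
  intro x
  rw [hf]
  rcases le_total (x : ℝ) c with h1 | h1
  · rw [bf_1 (Or.inr rfl) h1]
  rcases le_total (x : ℝ) (c + e) with h2 | h2
  · rw [bf_2 (Or.inr rfl) h1 h2, ← dy_iff (x := (x : ℝ) / 3) 2 hc.neg]
    norm_num
    ring_nf
  rcases le_total (x : ℝ) (c + (4 + 1) * e) with h3 | h3
  · rw [bf_3 (Or.inr rfl) h2 h3, ← dy_iff (x := (x : ℝ) / 3) (-2)
      ((hc.add (hd.add (hd.zpow_mul 2))).zpow_mul (-2))]
    norm_num
    ring_nf
  · rw [bf_4 (Or.inr rfl) h3]

open Classical in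
/-- The jump of the slope at a point `x` with `x / 3` dyadic. -/
noncomputable def jump (f : ThompsonF) (x : I) : ℤ :=
  if 0 < x ∧ x < 1 ∧ IsDyadic ((x : ℝ) / 3) then sl true x f - sl false x f else 0

lemma jump_mul (f : ThompsonF) {g : ThompsonF} (hg : g ∈ stab) (x : I) :
    jump (f * g) x = jump f (g • x) + jump g x := by
  have h0 : 0 < g • x ↔ 0 < x := by
    rw [← lmF.lt_iff g (x := 0) (y := x), show g • (0 : I) = 0 from lmF.fix_bot g]
  have h1 : g • x < 1 ↔ x < 1 := by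
    rw [← lmF.lt_iff g (x := x) (y := 1), show g • (1 : I) = 1 from lmF.dual.fix_bot g]
  have h2 := and_congr h0 (and_congr h1 (hg x))
  unfold jump
  by_cases h : 0 < x ∧ x < 1 ∧ IsDyadic ((x : ℝ) / 3)
  · rw [if_pos h, if_pos h, if_pos (h2.2 h), sl_mul (nb_right h.2.1), sl_mul (nb_left h.1)]
    ring
  · rw [if_neg h, if_neg h, if_neg (fun k => h (h2.1 k))]
    rfl

lemma Lin.jump_eq {f : ThompsonF} {B : Finset ℝ} (h : Lin f B) {x : I} (hx : (x : ℝ) ∉ B) :
    Gc.jump f x = 0 := by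
  unfold Gc.jump
  split_ifs with h1
  · rw [h.jump h1.1 h1.2.1 hx, sub_self]
  · rfl

lemma jump_finite (f : ThompsonF) : Function.HasFiniteSupport (jump f) := by
  obtain ⟨-, B, -, hB⟩ := f.2
  refine (B.finite_toSet.preimage Subtype.val_injective.injOn).subset fun x hx => ?_
  by_contra h
  exact hx (Lin.jump_eq hB h)

/-- The sum of the jumps is a homomorphism. -/
noncomputable def jumpHom : stab →* Multiplicative ℤ :=
  MonoidHom.mk' (fun f => Multiplicative.ofAdd (∑ᶠ x, jump f.1 x)) fun f g => by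
    rw [← ofAdd_add, ← finsum_comp_equiv (MulAction.toPerm g.1) (f := jump f.1),
      ← finsum_add_distrib _ (jump_finite _)]
    · exact congrArg _ (finsum_congr fun x => jump_mul f.1 g.2 x)
    · exact (jump_finite f.1).preimage (MulAction.toPerm g.1).injective.injOn

lemma not_dyadic_third : ¬ IsDyadic (1 / 3) := by
  rintro ⟨m, k, h⟩
  have h1 : (2 : ℝ) ^ k = 3 * m := by
    field_simp at h
    linarith
  have h2 : (2 : ℤ) ^ k = 3 * m := by exact_mod_cast h1
  have h3 := Int.prime_three.dvd_of_dvd_pow ⟨m, h2⟩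
  omega

lemma exists_sigma : ∃ ρ : stab, ρ.1 ∈ cpt ThompsonF I ∧ jumpHom ρ ≠ 1 := by
  have hc : IsDyadic (3 / 16) := ⟨3, 4, by norm_num⟩
  have hd : IsDyadic (1 / 16) := ⟨1, 4, by norm_num⟩
  obtain ⟨f, f1, f2⟩ := exists_bump (Or.inr rfl) (by norm_num) hc hd (by norm_num) (by norm_num)
  let c : I := ⟨3 / 16, by norm_num, by norm_num⟩
  let d : I := ⟨1 / 4, by norm_num, by norm_num⟩
  have c0 : 0 < c := by change (0 : ℝ) < 3 / 16; norm_num
  have c1 : c < 1 := by change (3 / 16 : ℝ) < 1; norm_num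
  have cd : c < d := by change (3 / 16 : ℝ) < 1 / 4; norm_num
  refine ⟨⟨f, bump_mem_stab hc hd f1⟩, ⟨c, ⟨1 / 2, by norm_num, by norm_num⟩, c0,
    by change (1 / 2 : ℝ) < 1; norm_num, sup_of_bf (Or.inr rfl) f1 le_rfl (by norm_num)⟩, ?_⟩
  have h1 : ∑ᶠ x, jump f x = jump f c := by
    refine finsum_eq_single _ _ fun x hx => ?_
    by_cases h : (x : ℝ) ∈ ({3 / 16, 3 / 16 + 1 / 16, 3 / 16 + (4 + 1) * (1 / 16)} : Finset ℝ)
    · simp only [Finset.mem_insert, Finset.mem_singleton] at h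
      rcases h with h | h | h
      · exact absurd (Subtype.ext h) hx
      · refine if_neg fun k => not_dyadic_third ?_
        convert k.2.2.zpow_mul 2 using 1
        rw [h]; norm_num
      · refine if_neg fun k => not_dyadic_third ?_
        convert k.2.2.zpow_mul 1 using 1
        rw [h]; norm_num
    · exact f2.jump_eq h
  have h2 : sl true c f = 2 := by
    refine (gm_right le_rfl cd fun z r1 r2 => ?_).sl_eq (nb_right c1)
    rw [f1, f1, bf_2 (Or.inr rfl) r1 (le_trans r2 (by norm_num [d])), bf_1 (Or.inr rfl) le_rfl]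
    norm_num [c]
  have h3 : sl false c f = 0 := by
    refine (gm_left c0 le_rfl fun z r1 r2 => ?_).sl_eq (nb_left c0)
    rw [f1, f1, bf_1 (Or.inr rfl) r2, bf_1 (Or.inr rfl) (by norm_num)]
    simp
  intro h
  have h4 : ∑ᶠ x, jump f x = 0 := congrArg Multiplicative.toAdd h
  rw [h1, jump, if_pos ⟨c0, c1, 1, 4, by norm_num [c]⟩, h2, h3] at h4
  omega

/-- The compactly supported elements of the stabiliser. -/
noncomputable def cstab : Subgroup ThompsonF := cpt ThompsonF I ⊓ stab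

lemma lm_cstab : LM cstab I := lmF.sub _ fun a x b h1 h2 => by
  obtain ⟨f, c, e, k1, k2, k3, k4, k5, k6, k7⟩ := exists_move h1 h2
  have h0 : (0 : ℝ) < c := a.2.1.trans_lt k4
  have h3 : c + 5 * e < 1 := k5.trans_le b.2.2
  refine ⟨f, ⟨⟨⟨c, h0.le, by linarith⟩, ⟨c + 5 * e, by linarith, h3.le⟩, h0, h3,
    sup_of_bf (Or.inr rfl) k6 le_rfl (by norm_num)⟩, bump_mem_stab k1 k2 k6⟩,
    sup_of_bf (Or.inr rfl) k6 k4.le (by linarith), k7⟩

lemma cpt_cstab : cpt cstab I = ⊤ := eq_top_iff.2 fun g _ => g.2.1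

theorem simple_cstab : IsSimpleGroup (commutator cstab) := lm_cstab.simple cpt_cstab

theorem not_three : ¬ ThreeProp (commutator cstab) := by
  intro T
  obtain ⟨ρ, ⟨a, b, h1, h2, h3⟩, h4⟩ := exists_sigma
  have h5 := lm_cstab.component (germF.sub _) (K := commutator cstab)
    (by rw [cpt_cstab]; exact le_rfl) T (one_mem _) (f₀ := ⟨ρ.1, ⟨a, b, h1, h2, h3⟩, ρ.2⟩) h1 h2
    (fun y hy => (h3 y (Or.inl hy)).trans (one_smul _ y).symm) fun y hy => h3 y (Or.inr hy)
  have h6 := MonoidHom.mem_ker.1 (Abelianization.commutator_subset_ker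
    (jumpHom.comp (Subgroup.inclusion (inf_le_right : cstab ≤ stab))) h5)
  rw [MonoidHom.comp_apply] at h6
  exact h4 ((congrArg jumpHom (Subtype.ext rfl)).trans h6)

end Pool.Agent.Lib.MP_24b811_al.Gc
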