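import Pool.Agent.Lib.MP_24b811_al.GcSquier
import Pool.Agent.Lib.MP_24b811_al.GcJump

/-!
# Two commuting elements of a diagram group, and cutting at a point with a one-sided germ
-/

set_option autoImplicit false

namespace Pool.Agent.Lib.MP_24b811_al.Gc

universe u v

section two

variable {S M : Type u} {R : Sys S M} {G : Type v} [Group G]

variable (G) in
/-- A second property of diagram groups. -/
def TwoProp : Prop := ∀ x y : G, Commute x y → ∃ a b : ℤ, (a ≠ 0 ∨ b ≠ 0) ∧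
  (x ^ a * y ^ b = 1 ∨ ∃ L Q, CutPair (x ^ a * y ^ b) L Q ∧ ¬ (x ∈ Q ∧ y ∈ Q))

namespace Cover

lemma cutPair {C : Cover R G} {z : C.X.Z} {g : G} (ar : C.AR z g) (hne : g ≠ 1) :
    ∃ i, ∃ h : C.PQ z i (g • z), ¬ C.PQ z (i + 1) (g • z) ∧ C.Touch z g i ∧
      CutPair g (C.Lg z i h.le) (C.Qg z i h.le) := by
  obtain ⟨i, -, h2, h3, h4⟩ := exists_touch (l := 1) (i := 0)
    (by simpa using PL.refl (Nat.zero_le _)) (PQ.all z _) hne
  rw [one_mul] at h4
  refine ⟨i, h2, h3, h4, fun l hl q hq => commute_of hl hq,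
    fun l hl q hq h hc => commute_of_sum hl hq hc, h2, fun h hc => ?_⟩
  obtain ⟨l, q, k1, k2, k3⟩ := (cut_fix ar h4 hc).factor
  exact ⟨l, k1, q, k2, k3⟩

theorem two (C : Cover R G) (z0 : C.X.Z) : TwoProp G := by
  intro x y hc
  by_cases hx : x = 1
  · exact ⟨1, 0, Or.inl one_ne_zero, Or.inl (by simp [hx])⟩
  obtain ⟨z, -, -, -, ar⟩ := rebase (PQ.all z0 _)
    (by simpa [C.wd_act] using PL.all z0 (x • z0)) (Nat.zero_le _)
  obtain ⟨i, h1, h2, ⟨-, s1, ρ, s2, hb, hi, hρ⟩, cp⟩ := cutPair ar hx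
  by_cases hy : y ∈ C.Qg z i h1.le
  swap
  · exact ⟨1, 0, Or.inl one_ne_zero, Or.inr ⟨_, _, by simpa using cp, fun h => hy h.2⟩⟩
  let φ : (C.Qg z i h1.le ⊓ Subgroup.centralizer {x} : Subgroup G) →* Multiplicative ℤ :=
    MonoidHom.mk' (fun a => Multiplicative.ofAdd (C.kap z i x z (a.1 • z))) fun a b => by
      rw [← ofAdd_add, ← kap_smul ar a.2.1 (Subgroup.mem_centralizer_singleton_iff.1 a.2.2) z
        (b.1 • z), kap_add, ← mul_smul]
      rfl
  let x' : (C.Qg z i h1.le ⊓ Subgroup.centralizer {x} : Subgroup G) :=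
    ⟨x, h1, Subgroup.mem_centralizer_singleton_iff.2 rfl⟩
  let y' : (C.Qg z i h1.le ⊓ Subgroup.centralizer {x} : Subgroup G) :=
    ⟨y, hy, Subgroup.mem_centralizer_singleton_iff.2 hc.symm⟩
  have k1 : (φ x').toAdd ≠ 0 := kap_ne ar hb hi hρ h1 (Commute.refl x) hρ
  have k2 : (φ (x' ^ (-(φ y').toAdd) * y' ^ (φ x').toAdd)).toAdd = 0 := by
    rw [map_mul, map_zpow, map_zpow, toAdd_mul, toAdd_zpow, toAdd_zpow, smul_eq_mul, smul_eq_mul]
    ring
  refine ⟨-(φ y').toAdd, (φ x').toAdd, Or.inr k1, or_iff_not_imp_left.2 fun hne => ?_⟩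
  have k3 := (x' ^ (-(φ y').toAdd) * y' ^ (φ x').toAdd).2
  change C.kap z i x z ((x ^ (-(φ y').toAdd) * y ^ (φ x').toAdd) • z) = 0 at k2
  change x ^ (-(φ y').toAdd) * y ^ (φ x').toAdd ∈ _ at k3
  generalize x ^ (-(φ y').toAdd) * y ^ (φ x').toAdd = w at k2 k3 hne
  have k4 : C.PQ z (i + 1) (w • z) := keep (PL.refl h1.le) k3.1 hb hi (by_contra fun hn =>
    kap_ne ar hb hi hρ k3.1 (Subgroup.mem_centralizer_singleton_iff.1 k3.2) hn k2)
  obtain ⟨z2, -, a1, -, a3⟩ := rebase k4 (by simpa [C.wd_act] using PL.all z (w • z)) k4.le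
  obtain ⟨j, b1, b2, -, cp'⟩ := cutPair a3 hne
  have hj : i + 1 ≤ j := by_contra fun h => b2 ((k4.move' a1).mono (by omega))
  exact ⟨_, _, cp', fun h => h2 ((PQ.mono h.1 hj).move' a1.symm)⟩

end Cover

end two

theorem twoProp_of_equiv {S : Type u} {P : SemigroupPresentation S} {G : Type v} [Group G]
    {w : SqVertex P} (e : G ≃* DiagramGroup P w) : TwoProp G := (cover e).two ⟨w, CategoryTheory.CategoryStruct.id _⟩

variable {G : Type v} {X : Type u} [Group G] [MulAction G X] [CompleteLinearOrder X]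

/-- The element is the identity just to the right of the point. -/
def IdR (g : G) (α : X) : Prop := ∃ d, α < d ∧ ∀ y, α ≤ y → y ≤ d → g • y = y

/-- The element is the identity just to the left of the point. -/
def IdL (g : G) (α : X) : Prop := ∃ c, c < α ∧ ∀ y, c ≤ y → y ≤ α → g • y = y

namespace LM

variable (H : LM G X) [DenselyOrdered X]
include H

/-- An element that commutes with all elements supported on an interval fixes the interval. -/
lemma fix_of_comm {q : G} {a b : X} (h : ∀ f : G, Sup f a b → Commute f q) {y : X} (h1 : a < y)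
    (h2 : y < b) : q • y = y := by
  have key : ∀ m : G, (∀ f : G, Sup f a b → Commute f m) → ¬ y < m • y := fun m hm hy => by
    obtain ⟨f, f1, z, -, -, f2⟩ := H.exists_ne (lt_min hy h2)
    refine f2 ?_
    rw [H.nc (f1.mono le_rfl (min_le_left _ _)) fun t _ _ =>
      (hm f (f1.mono h1.le (min_le_right _ _))).smul_comm' t, one_smul]
  by_contra hn
  exact (H.up hn).elim (key q h) (key q⁻¹ fun f hf => (h f hf).inv_right)

lemma fix_ge {q : G} {α : X} (hα : q • α = α) (h : ∀ f : G, Sup f α ⊤ → Commute f q) (y : X)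
    (hy : α ≤ y) : q • y = y := by
  rcases hy.eq_or_lt with rfl | h1
  · exact hα
  rcases (le_top (a := y)).eq_or_lt with rfl | h2
  · exact H.dual.fix_bot q
  · exact H.fix_of_comm h h1 h2

omit [DenselyOrdered X] in
lemma fix_point {y h : G} {α : X} (h1 : ∀ t ≤ α, y • t = t) (h2 : ¬ IdR y α) (hc : Commute h y) :
    h • α = α := by
  have : lo X y = α := le_antisymm (not_lt.1 fun k => h2 ⟨_, k, fun t _ r => H.fix_le_lo r⟩)
    (le_lo (b := α) h1)
  rw [← this]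
  exact H.fix_lo hc

omit [DenselyOrdered X] in
lemma idR_zpow {y : G} {α : X} {n : ℤ} (hn : n ≠ 0) (h : IdR (y ^ n) α) : IdR y α :=
  h.imp fun _ k => ⟨k.1, fun t r1 r2 => H.fix_of_zpow hn (k.2 t r1 r2)⟩

/-- The step that uses the cut pair. -/
lemma cut_step (T : ThreeProp G) (P : Germ G X) {w l t : G} {L Q : Subgroup G} {α : X}
    (hα : α < ⊤) (cp : CutPair w L Q) (h1 : ∀ s ≤ α, w • s = s) (h2 : ¬ IdR w α) (hl : l ∈ L)
    (h3 : ¬ ∀ s ≤ α, l • s = s) (hc : Commute t w) :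
    ∃ σ : G, ∀ s, (s ≤ α → σ • s = t • s) ∧ (α ≤ s → σ • s = s) := by
  have hQ := (H.left cp.pair h1 fun h hh => H.fix_point h1 h2 hh).resolve_left fun h => h3 (h l hl)
  obtain ⟨l', hl', q, hq, rfl⟩ := cp.pair.factor t hc
  have k1 : l' • α = α := H.fix_point h1 h2 (cp.pair.cA l' hl')
  obtain ⟨s, r, hsr, d, d1, d2⟩ := P w l' α ⊤ (h1 α le_rfl) k1 hα
  have hr : r = 0 := by
    by_contra hr
    refine h2 (H.idR_zpow hr ?_)
    obtain ⟨d', r1, r2⟩ := exists_between d1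
    refine ⟨d', r1, fun y y1 y2 => ?_⟩
    rcases y1.eq_or_lt with rfl | y1
    · exact fix_zpow (h1 _ le_rfl) r
    refine H.fix_of_comm (a := α) (b := d) (fun f hf => ?_) y1 (y2.trans_lt r2)
    refine Commute.inv_right_iff.1 (cp.sum _ (L.zpow_mem hl' s) _
      (Q.inv_mem (Q.zpow_mem cp.mem r)) f (commute_of_disj H.faith fun y : X => ?_))
    by_cases h : y ≤ α ∨ d ≤ y
    · exact Or.inl (hf y h)
    · push Not at h
      refine Or.inr ?_
      rw [(((cp.comm l' hl' w cp.mem).zpow_zpow s r).inv_right).eq, mul_smul,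
        d2 y h.1.le h.2.le, inv_smul_smul]
  subst hr
  obtain ⟨σ, hσ⟩ := H.gap T P d1 (τ := l') fun y r1 r2 =>
    H.fix_of_zpow (hsr.resolve_right fun h => h rfl) (by rw [d2 y r1 r2]; simp)
  exact ⟨σ, fun y => ⟨fun hy => by rw [(hσ y).1 hy, mul_smul, hQ q hq y hy], (hσ y).2⟩⟩

omit [DenselyOrdered X] in
lemma other {t σ : G} {α : X} (ht : t • α = α)
    (h : ∀ s, (α ≤ s → σ • s = t • s) ∧ (s ≤ α → σ • s = s)) (s : X) :
    (s ≤ α → (σ⁻¹ * t) • s = t • s) ∧ (α ≤ s → (σ⁻¹ * t) • s = s) :=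
  ⟨fun hs => by rw [mul_smul, inv_smul_eq_iff, (h _).2 (H.le_of_fix ht hs)],
    fun hs => by rw [mul_smul, inv_smul_eq_iff, (h _).1 hs]⟩

/-- A root of a product of two elements that live on the two sides of a point can be cut. -/
lemma cut_root (T : ThreeProp G) (T2 : TwoProp G) (P : Germ G X) (P' : Germ G Xᵒᵈ) {x y t : G}
    {α : X} (h0 : ⊥ < α) (h1 : α < ⊤) (x1 : ∀ s, α ≤ s → x • s = s) (x2 : ¬ IdL x α)
    (y1 : ∀ s ≤ α, y • s = s) (y2 : ¬ IdR y α) (tx : Commute t x) (ty : Commute t y) :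
    ∃ σ : G, ∀ s, (s ≤ α → σ • s = t • s) ∧ (α ≤ s → σ • s = s) := by
  have x2' : ¬ IdR x (OrderDual.toDual α) := fun ⟨c, k1, k2⟩ => x2 ⟨c, k1, fun s r1 r2 => k2 s r2 r1⟩
  have xy : Commute x y := commute_of_disj H.faith fun s : X =>
    (le_total α s).imp (x1 s) (y1 s)
  have sep : ∀ u v : G, (∀ s, α ≤ s → u • s = s) → (∀ s ≤ α, v • s = s) → u * v = 1 →
      u = 1 ∧ v = 1 := fun u v k1 k2 k3 => by
    have : u = 1 := H.faith u fun s => (le_total α s).elim (k1 s) fun r => by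
      rw [← k2 s r, ← mul_smul, k3, one_smul, k2 s r]
    exact ⟨this, by rwa [this, one_mul] at k3⟩
  have tf : ∀ (u : G) (n : ℤ), n ≠ 0 → u ^ n = 1 → u = 1 := fun u n hn h =>
    H.faith u fun s => H.fix_of_zpow hn (by rw [h, one_smul])
  obtain ⟨a, b, hab, h | ⟨L, Q, cp, hn⟩⟩ := T2 x y xy
  · obtain ⟨k1, k2⟩ := sep _ _ (fun s r => fix_zpow (x1 s r) a) (fun s r => fix_zpow (y1 s r) b) h
    rcases hab with h | h
    · exact absurd ⟨⊥, h0, fun s _ _ => by rw [tf x a h k1, one_smul]⟩ x2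
    · exact absurd ⟨⊤, h1, fun s _ _ => by rw [tf y b h k2, one_smul]⟩ y2
  obtain ⟨l, hl, q, hq, e1⟩ := cp.factor x
    (((Commute.refl x).zpow_right a).mul_right (xy.zpow_right b))
  obtain ⟨l', hl', q', hq', e2⟩ := cp.factor y
    ((xy.symm.zpow_right a).mul_right ((Commute.refl y).zpow_right b))
  have c1 : Commute q x := e1 ▸ (cp.comm l hl q hq).symm.mul_right (Commute.refl q)
  have c2 : Commute q' y := e2 ▸ (cp.comm l' hl' q' hq').symm.mul_right (Commute.refl q')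
  have q1 : ∀ s, α ≤ s → q • s = s :=
    H.fix_ge (H.dual.fix_point (α := OrderDual.toDual α) x1 x2' c1) fun f hf =>
      cp.sum l hl q hq f (e1 ▸ commute_of_disj H.faith fun s : X =>
        (le_total s α).imp (fun r => hf s (Or.inl r)) (x1 s))
  have q2 : ∀ s ≤ α, q' • s = s :=
    H.dual.fix_ge (α := OrderDual.toDual α) (H.fix_point y1 y2 c2) fun f hf =>
      cp.sum l' hl' q' hq' f (e2 ▸ commute_of_disj H.faith fun s : X =>
        (le_total α s).imp (fun r => hf s (Or.inl r)) (y1 s))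
  have l1 : ∀ s, α ≤ s → l • s = s := fun s r => by
    have := x1 s r
    rwa [e1, mul_smul, q1 s r] at this
  have l2 : ∀ s ≤ α, l' • s = s := fun s r => by
    have := y1 s r
    rwa [e2, mul_smul, q2 s r] at this
  have m1 : l ^ a * l' ^ b ∈ L := L.mul_mem (L.zpow_mem hl a) (L.zpow_mem hl' b)
  have m2 : l ^ a * l' ^ b ∈ Q := by
    have := Q.mul_mem cp.mem (Q.inv_mem (Q.mul_mem (Q.zpow_mem hq a) (Q.zpow_mem hq' b)))
    convert this using 1
    rw [eq_mul_inv_iff_mul_eq]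
    conv_rhs => rw [e1, e2, (cp.comm l hl q hq).mul_zpow, (cp.comm l' hl' q' hq').mul_zpow]
    rw [mul_assoc, mul_assoc, ← mul_assoc (l' ^ b), ((cp.comm l' hl' q hq).zpow_zpow b a).eq,
      mul_assoc]
  have m3 : l ^ a * l' ^ b = 1 := H.faith _ fun s =>
    H.fix_ge (H.fix_bot _) (fun f _ => cp.sum _ (L.inv_mem m1) _ m2 f (by simp)) s bot_le
  obtain ⟨k1, k2⟩ := sep _ _ (fun s r => fix_zpow (l1 s r) a) (fun s r => fix_zpow (l2 s r) b) m3
  by_cases hl1 : l = 1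
  · have hl2 : l' ≠ 1 := fun h => hn ⟨by rwa [e1, hl1, one_mul], by rwa [e2, h, one_mul]⟩
    obtain rfl : b = 0 := by_contra fun h => hl2 (tf _ _ h k2)
    rw [zpow_zero, mul_one] at cp
    have ha : a ≠ 0 := hab.resolve_right fun h => h rfl
    obtain ⟨σ, hσ⟩ := H.dual.cut_step T P' (α := OrderDual.toDual α) h0 cp
      (fun s r => fix_zpow (x1 s r) a) (fun h => x2' (H.dual.idR_zpow ha h)) hl'
      (fun h => hl2 (H.faith l' fun s => (le_total s α).elim (l2 s) (h s))) (tx.zpow_right a)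
    exact ⟨_, H.other (H.fix_point y1 y2 ty) hσ⟩
  · obtain rfl : a = 0 := by_contra fun h => hl1 (tf _ _ h k1)
    rw [zpow_zero, one_mul] at cp
    have hb : b ≠ 0 := hab.resolve_left fun h => h rfl
    exact H.cut_step T P h1 cp (fun s r => fix_zpow (y1 s r) b)
      (fun h => y2 (H.idR_zpow hb h)) hl
      (fun h => hl1 (H.faith l fun s => (le_total s α).elim (h s) (l1 s))) (ty.zpow_right b)

lemma cut_side (T : ThreeProp G) (P : Germ G X) {t : G} {α : X} (h : IdL t α ∨ IdR t α) :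
    ∃ σ : G, ∀ s, (s ≤ α → σ • s = t • s) ∧ (α ≤ s → σ • s = s) := by
  rcases h with ⟨c, h1, h2⟩ | ⟨d, h1, h2⟩
  · obtain ⟨σ, hσ⟩ := H.gap T P h1 h2
    refine ⟨σ, fun s => ⟨fun r => ?_, fun r => (hσ s).2 (h1.le.trans r)⟩⟩
    exact (le_total s c).elim (hσ s).1 fun r' => by rw [(hσ s).2 r', h2 s r' r]
  · exact H.gap T P h1 h2

lemma cut_half (T : ThreeProp G) (T2 : TwoProp G) (P : Germ G X) (P' : Germ G Xᵒᵈ) {k t : G}
    {α : X} (h0 : ⊥ < α) (h1 : α < ⊤) (k1 : IdR k α) (k2 : ¬ IdL k α) (ht : t • α = α) :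
    ∃ σ : G, ∀ s, (s ≤ α → σ • s = t • s) ∧ (α ≤ s → σ • s = s) := by
  by_cases h : IdL t α ∨ IdR t α
  · exact H.cut_side T P h
  obtain ⟨t1, t2⟩ := not_or.1 h
  have hk : k • α = α := k1.choose_spec.2 α le_rfl k1.choose_spec.1.le
  obtain ⟨n, r, hnr, c, c1, c2⟩ := P' k t (OrderDual.toDual α) (OrderDual.toDual ⊥) hk ht h0
  have hn : n ≠ 0 := by
    rintro rfl
    refine k2 ⟨c, c1, fun s r1 r2 => H.fix_of_zpow (hnr.resolve_left fun h => h rfl) ?_⟩
    have := c2 s r2 r1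
    rw [zpow_zero, one_smul] at this
    exact this.symm
  obtain ⟨u, hu⟩ := H.cut_side T P (t := (k ^ r)⁻¹ * t ^ n) (α := α) (Or.inl ⟨c, c1,
    fun s r1 r2 => by rw [mul_smul, inv_smul_eq_iff]; exact c2 s r2 r1⟩)
  obtain ⟨v, hv⟩ := H.cut_side T P (t := k ^ r) (α := α) (Or.inr (k1.imp fun d hd =>
    ⟨hd.1, fun s r1 r2 => fix_zpow (hd.2 s r1 r2) r⟩))
  have x0 : ∀ s ≤ α, (v * u) • s = t ^ n • s := fun s hs => by
    rw [mul_smul, (hv _).1 (H.le_of_fix ((hu α).2 le_rfl) hs), (hu s).1 hs, mul_smul,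
      smul_inv_smul]
  have x1 : ∀ s, α ≤ s → (v * u) • s = s := fun s hs => by rw [mul_smul, (hu s).2 hs, (hv s).2 hs]
  generalize v * u = x at x0 x1
  have tx : Commute t x := by
    have : (x * t)⁻¹ * (t * x) = 1 := H.faith _ fun s => by
      rw [mul_smul, inv_smul_eq_iff, mul_smul, mul_smul]
      rcases le_total s α with r | r
      · rw [x0 s r, x0 _ (H.le_of_fix ht r), ((Commute.refl t).zpow_right n).smul_comm']
      · rw [x1 s r, x1 _ (H.ge_of_fix ht r)]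
    exact (inv_mul_eq_one.1 this).symm
  refine H.cut_root T T2 P P' (x := x) (y := x⁻¹ * t ^ n) h0 h1 x1 ?_ (fun s hs => ?_) ?_ tx
    (tx.inv_right.mul_right ((Commute.refl t).zpow_right n))
  · rintro ⟨d, d1, d2⟩
    exact t1 ⟨d, d1, fun s r1 r2 => H.fix_of_zpow hn (by rw [← x0 s r2, d2 s r1 r2])⟩
  · rw [mul_smul, inv_smul_eq_iff, x0 s hs]
  · rintro ⟨d, d1, d2⟩
    refine t2 ⟨d, d1, fun s r1 r2 => H.fix_of_zpow hn ?_⟩
    have := d2 s r1 r2
    rwa [mul_smul, inv_smul_eq_iff, x1 s r1] at this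

/-- At a point where some element has a one-sided germ, every element can be cut. -/
theorem cut_at (T : ThreeProp G) (T2 : TwoProp G) (P : Germ G X) (P' : Germ G Xᵒᵈ) {k t : G}
    {α : X} (h0 : ⊥ < α) (h1 : α < ⊤) (hk : ¬ (IdL k α ↔ IdR k α)) (ht : t • α = α) :
    ∃ σ : G, ∀ s, (s ≤ α → σ • s = t • s) ∧ (α ≤ s → σ • s = s) := by
  by_cases h : IdR k α
  · exact H.cut_half T T2 P P' h0 h1 h (fun h' => hk (iff_of_true h' h)) ht
  · obtain ⟨c, c1, c2⟩ : IdL k α := by_contra fun h' => hk (iff_of_false h' h)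
    obtain ⟨σ, hσ⟩ := H.dual.cut_half T T2 P' P (α := OrderDual.toDual α) (k := k) (t := t) h1 h0
      ⟨c, c1, fun s r1 r2 => c2 s r2 r1⟩ (fun ⟨d, d1, d2⟩ => h ⟨d, d1, fun s r1 r2 => d2 s r2 r1⟩) ht
    exact ⟨_, H.other ht hσ⟩

end LM

open unitInterval in
theorem germF' : Germ ThompsonF Iᵒᵈ := by
  intro g l c d0 hg hl hc
  have h1 : (0 : I) < OrderDual.ofDual c := lt_of_le_of_lt (OrderDual.ofDual d0).2.1 hc
  have key : ∀ s r : ℤ, sl false (OrderDual.ofDual c) (l ^ s) =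
      sl false (OrderDual.ofDual c) (g ^ r) →
      ∃ d, c < d ∧ ∀ y, c ≤ y → y ≤ d → l ^ s • y = g ^ r • y := fun s r h => by
    obtain ⟨d, d1, d2⟩ := agree_left h1 ((fix_zpow hl s).trans (fix_zpow hg r).symm) h
    exact ⟨d, d1, fun y r1 r2 => d2 y r2 r1⟩
  by_cases h : sl false (OrderDual.ofDual c) g = 0 ∧ sl false (OrderDual.ofDual c) l = 0
  · exact ⟨1, 1, Or.inl one_ne_zero, key _ _ (by rw [zpow_one, zpow_one, h.1, h.2])⟩
  · exact ⟨_, _, not_and_or.1 h, key _ _ (by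
      rw [sl_zpow (nb_left h1) hg, sl_zpow (nb_left h1) hl, mul_comm])⟩

end Pool.Agent.Lib.MP_24b811_al.Gc
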