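import Pool.Agent.Lib.MP_24b811_al.FrNode
import Pool.Agent.Lib.MP_24b811_al.FrTwo

/-!
# Level functions at the points where a subgroup of F cannot be cut
-/

set_option autoImplicit false

namespace Pool.Agent.Lib.MP_24b811_al.Fr

open unitInterval Gc

/-- The left component of `t` at `a` lies in `H`. -/
def Cut (H : Subgroup ThompsonF) (t : ThompsonF) (a : I) : Prop :=
  ∃ s ∈ H, ∀ y : I, (y ≤ a → s • y = t • y) ∧ (a ≤ y → s • y = y)

/-- The condition on `H`. -/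
def Cond (H : Subgroup ThompsonF) : Prop :=
  ∀ t ∈ H, ∀ a : I, t • a = a → (IdR t a ∨ ∃ k ∈ H, ¬ (IdL k a ↔ IdR k a)) → Cut H t a

/-- Level functions. -/
structure Lev (H : Subgroup ThompsonF) where
  A : I → ℤ
  B : I → ℤ
  C : I → ℤ
  A_nonneg : ∀ a, 0 ≤ A a
  zero : ∀ a, A a = 0 → B a = 0 ∧ C a = 0
  A0 : A 0 = 0
  A1 : A 1 = 0
  A_smul : ∀ h ∈ H, ∀ a, A (h • a) = A a
  B_smul : ∀ h ∈ H, ∀ a, B (h • a) = B a
  C_smul : ∀ h ∈ H, ∀ a, 0 < a → a < 1 →
    C (h • a) = C a + A a * sl false a h + B a * sl true a h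
  glue : ∀ g ∈ H, ∀ h ∈ H, ∀ a, a < 1 → g • a = h • a → B a * sl true a g = B a * sl true a h →
    ∃ s ∈ H, ∀ y : I, (y ≤ a → s • y = g • y) ∧ (a ≤ y → s • y = h • y)

variable {H : Subgroup ThompsonF}

lemma idR_iff {t : ThompsonF} {a : I} (h1 : a < 1) (ht : t • a = a) :
    IdR t a ↔ sl true a t = 0 := by
  constructor
  · rintro ⟨d, d1, d2⟩
    exact (gm_right le_rfl d1 fun z r1 r2 => by rw [d2 z r1 r2, ht]; simp).sl_eq (nb_right h1)
  · intro h
    obtain ⟨d, d1, d2⟩ := agree_right h1 (ht.trans (one_smul _ a).symm)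
      (h.trans (sl_one (nb_right h1)).symm)
    exact ⟨d, d1, fun y r1 r2 => (d2 y r1 r2).trans (one_smul _ y)⟩

lemma idL_iff {t : ThompsonF} {a : I} (h0 : 0 < a) (ht : t • a = a) :
    IdL t a ↔ sl false a t = 0 := by
  constructor
  · rintro ⟨d, d1, d2⟩
    exact (gm_left d1 le_rfl fun z r1 r2 => by
      rw [d2 z r1 r2, d2 d le_rfl d1.le]; simp).sl_eq (nb_left h0)
  · intro h
    obtain ⟨d, d1, d2⟩ := agree_left h0 (ht.trans (one_smul _ a).symm)
      (h.trans (sl_one (nb_left h0)).symm)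
    exact ⟨d, d1, fun y r1 r2 => (d2 y r1 r2).trans (one_smul _ y)⟩

/-- Every element of `H` that fixes the point can be cut there. -/
def Good (H : Subgroup ThompsonF) (a : I) : Prop := ∀ t ∈ H, t • a = a → Cut H t a

lemma Good.smul {a : I} (h : Good H a) {g : ThompsonF} (hg : g ∈ H) : Good H (g • a) := by
  intro t ht hta
  obtain ⟨s, s1, s2⟩ := h (g⁻¹ * t * g) (H.mul_mem (H.mul_mem (H.inv_mem hg) ht) hg)
    (by rw [mul_smul, mul_smul, hta, inv_smul_smul])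
  refine ⟨g * s * g⁻¹, H.mul_mem (H.mul_mem hg s1) (H.inv_mem hg), fun y => ⟨fun hy => ?_,
    fun hy => ?_⟩⟩
  · rw [mul_smul, mul_smul, (s2 _).1 (by rwa [← lmF.le_iff g, smul_inv_smul]), mul_smul, mul_smul,
      smul_inv_smul, smul_inv_smul]
  · rw [mul_smul, mul_smul, (s2 _).2 (by rwa [← lmF.le_iff g, smul_inv_smul]), smul_inv_smul]

lemma good_zero : Good H 0 := fun t _ ht => ⟨1, H.one_mem, fun y =>
  ⟨fun hy => by rw [le_antisymm hy y.2.1, ht, one_smul], fun _ => one_smul _ y⟩⟩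

lemma good_one : Good H 1 := fun t ht h1 => ⟨t, ht, fun y =>
  ⟨fun _ => rfl, fun hy => by rw [show y = 1 from le_antisymm y.2.2 hy, h1]⟩⟩

lemma sl_inv {s : Bool} {c : I} (hn : (nb s c).NeBot) {g : ThompsonF} (hg : g • c = c) :
    sl s c g⁻¹ = -sl s c g := by
  have := sl_zpow hn hg (-1)
  rw [zpow_neg_one] at this
  rw [this]
  ring

lemma exists_AB (hH : Cond H) (a : I) : ∃ A B : ℤ, (Good H a ∧ A = 0 ∧ B = 0) ∨
    (0 < a ∧ a < 1 ∧ 0 < A ∧ B ≠ 0 ∧
      ∀ t ∈ H, t • a = a → A * sl false a t + B * sl true a t = 0) := by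
  by_cases hg : Good H a
  · exact ⟨0, 0, Or.inl ⟨hg, rfl, rfl⟩⟩
  have h0 : 0 < a := lt_of_le_of_ne a.2.1 fun h => hg (h ▸ good_zero)
  have h1 : a < 1 := lt_of_le_of_ne a.2.2 fun h => hg (h ▸ good_one)
  obtain ⟨t, ht, ta, hc⟩ : ∃ t ∈ H, t • a = a ∧ ¬ Cut H t a := by
    by_contra h
    exact hg fun t ht ta => by_contra fun k => h ⟨t, ht, ta, k⟩
  obtain ⟨k1, k2⟩ := not_or.1 fun h => hc (hH t ht a ta h)
  have k3 : ∀ k ∈ H, k • a = a → (sl false a k = 0 ↔ sl true a k = 0) := fun k hk ka => by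
    rw [← idL_iff h0 ka, ← idR_iff h1 ka]
    exact by_contra fun h => k2 ⟨k, hk, h⟩
  rw [idR_iff h1 ta] at k1
  have k4 : sl false a t ≠ 0 := fun h => k1 ((k3 t ht ta).1 h)
  have k5 : ∀ k ∈ H, k • a = a → sl true a t * sl false a k - sl false a t * sl true a k = 0 :=
    fun k hk ka => by
      have f1 := fix_zpow ta (-sl true a k)
      have := (k3 (k ^ sl true a t * t ^ (-sl true a k))
        (H.mul_mem (H.zpow_mem hk _) (H.zpow_mem ht _))
        (by rw [mul_smul, f1, fix_zpow ka])).2 (by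
          rw [sl_mul (nb_right h1), f1, sl_zpow (nb_right h1) ka, sl_zpow (nb_right h1) ta]
          ring)
      rw [sl_mul (nb_left h0), f1, sl_zpow (nb_left h0) ka, sl_zpow (nb_left h0) ta] at this
      linarith
  rcases lt_or_gt_of_ne k1 with h | h
  · exact ⟨-sl true a t, sl false a t, Or.inr ⟨h0, h1, by omega, k4, fun k hk ka => by
      linarith [k5 k hk ka]⟩⟩
  · exact ⟨sl true a t, -sl false a t, Or.inr ⟨h0, h1, h, by omega, fun k hk ka => by
      linarith [k5 k hk ka]⟩⟩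

theorem exists_lev (hH : Cond H) : Nonempty (Lev H) := by
  choose A B hAB using exists_AB hH
  let b : I → I := fun a => (Quotient.mk (MulAction.orbitRel H I) a).out
  have hb : ∀ a, ∃ g ∈ H, g • b a = a := fun a => by
    obtain ⟨g, hg⟩ : (MulAction.orbitRel H I) a (b a) :=
      (MulAction.orbitRel H I).symm (Quotient.mk_out (s := MulAction.orbitRel H I) a)
    exact ⟨g.1, g.2, hg⟩
  have b_smul : ∀ h ∈ H, ∀ a, b (h • a) = b a := fun h hh a =>
    congrArg Quotient.out (Quotient.sound (s := MulAction.orbitRel H I) ⟨⟨h, hh⟩, rfl⟩)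
  choose g g1 g2 using hb
  have fx : ∀ a, (∀ f : ThompsonF, f • a = a) → b a = a := fun a h =>
    (inv_smul_eq_iff.2 (g2 a).symm).symm.trans (h _)
  refine ⟨⟨fun a => A (b a), fun a => B (b a),
    fun a => A (b a) * sl false (b a) (g a) + B (b a) * sl true (b a) (g a), fun a => ?_,
    fun a h => ?_, ?_, ?_, fun h hh a => by rw [b_smul h hh], fun h hh a => by rw [b_smul h hh],
    fun h hh a _ _ => ?_, fun f hf h hh a h1 e he => ?_⟩⟩
  · rcases hAB (b a) with h | h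
    exacts [h.2.1.ge, h.2.2.1.le]
  · rcases hAB (b a) with k | k
    · simp [k.2.1, k.2.2]
    · exact absurd h k.2.2.1.ne'
  · rw [fx 0 fix_zero]
    exact (hAB 0).elim (·.2.1) fun h => absurd h.1 (lt_irrefl _)
  · rw [fx 1 fix_one]
    exact (hAB 1).elim (·.2.1) fun h => absurd h.2.1 (lt_irrefl _)
  · rw [b_smul h hh]
    rcases hAB (b a) with k | ⟨k0, k1, -, -, k⟩
    · simp [k.2.1, k.2.2]
    have e0 : g (h • a) • b a = h • a := by rw [← b_smul h hh a, g2]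
    have e1 : ((g (h • a))⁻¹ * (h * g a)) • b a = b a := by
      rw [mul_smul, mul_smul, g2, inv_smul_eq_iff, e0]
    have e2 := k _ (H.mul_mem (H.inv_mem (g1 _)) (H.mul_mem hh (g1 a))) e1
    have e3 : ∀ s : Bool, (nb s (b a)).NeBot → sl s (b a) ((g (h • a))⁻¹ * (h * g a)) =
        sl s a h + sl s (b a) (g a) - sl s (b a) (g (h • a)) := fun s hn => by
      have := sl_mul hn (g (h • a)) ((g (h • a))⁻¹ * (h * g a))
      rw [mul_inv_cancel_left, e1, sl_mul hn, g2] at this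
      linarith
    rw [e3 _ (nb_left k0), e3 _ (nb_right k1)] at e2
    linarith
  · have t1 : (h⁻¹ * f) • a = a := by rw [mul_smul, e, inv_smul_smul]
    have t2 := H.mul_mem (H.inv_mem hh) hf
    obtain ⟨s, s1, s2⟩ : Cut H (h⁻¹ * f) a := by
      rcases hAB (b a) with k | k
      · exact (g2 a ▸ k.1.smul (g1 a)) _ t2 t1
      · refine hH _ t2 a t1 (Or.inl ((idR_iff h1 t1).2 ?_))
        have := sl_mul (nb_right h1) h (h⁻¹ * f)
        rw [mul_inv_cancel_left, t1, mul_left_cancel₀ k.2.2.2.1 he] at this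
        linarith
    exact ⟨h * s, H.mul_mem hh s1, fun y => ⟨fun hy => by
      rw [mul_smul, (s2 y).1 hy, mul_smul, smul_inv_smul],
      fun hy => by rw [mul_smul, (s2 y).2 hy]⟩⟩

lemma pt_lt (u : Nd) : pt u 0 < pt u 1 :=
  show (pt u 0 : ℝ) < pt u 1 from div_lt_div_of_pos_right (by simp) (by positivity)

lemma exists_pt {u : Nd} {x : I} (h0 : pt u 0 ≤ x) (h1 : x ≤ pt u 1) : ∃ τ, x = pt u τ := by
  have hp : (0 : ℝ) < 2 ^ u.n := by positivity
  have a0 : (pt u 0 : ℝ) ≤ x := h0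
  have a1 : (x : ℝ) ≤ pt u 1 := h1
  rw [pt_val, div_le_iff₀ hp] at a0
  rw [pt_val, le_div_iff₀ hp] at a1
  simp only [Set.Icc.coe_zero, add_zero, Set.Icc.coe_one] at a0 a1
  exact ⟨⟨x * 2 ^ u.n - u.k, by linarith, by linarith⟩, Subtype.ext (by
    rw [pt_val]
    field_simp
    ring)⟩

lemma sl_aff {g : ThompsonF} {u v : Nd} (h : ∀ τ, g • pt u τ = pt v τ) :
    sl true (pt u 0) g = u.n - v.n ∧ sl false (pt u 1) g = u.n - v.n := by
  have key : ∀ z, pt u 0 ≤ z → z ≤ pt u 1 → ((g • z : I) : ℝ) =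
      (g • pt u 0 : I) + (2 : ℝ) ^ ((u.n : ℤ) - v.n) * ((z : ℝ) - pt u 0) := fun z r1 r2 => by
    obtain ⟨τ, rfl⟩ := exists_pt r1 r2
    rw [h, h, pt_val, pt_val, pt_val, pt_val, zpow_sub₀ (by norm_num), zpow_natCast, zpow_natCast]
    field_simp
    ring
  exact ⟨(gm_right le_rfl (pt_lt u) key).sl_eq (nb_right ((pt_lt u).trans_le (pt u 1).2.2)),
    (gm_left (pt_lt u) le_rfl key).sl_eq (nb_left (lt_of_le_of_lt (pt u 0).2.1 (pt_lt u)))⟩

end Pool.Agent.Lib.MP_24b811_al.Fr
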