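import Pool.Agent.Lib.MP_24b811_al.GcJump

/-!
# Dyadic piecewise linear maps of the line and the maps that expand one unit interval
-/

set_option autoImplicit false

namespace Pool.Agent.Lib.MP_24b811_al.Fr

/-- Increasing dyadic piecewise linear bijections of the line with finitely many breakpoints. -/
def IsPL (g : Equiv.Perm ℝ) : Prop :=
  StrictMono g ∧ (∀ x, IsDyadic (g x) ↔ IsDyadic x) ∧ ∃ B : Finset ℝ, (∀ b ∈ B, IsDyadic b) ∧
    ∀ x y : ℝ, x < y → (∀ b ∈ B, ¬ (x < b ∧ b < y)) →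
      ∃ k : ℤ, ∀ z, x ≤ z → z ≤ y → g z = g x + (2 : ℝ) ^ k * (z - x)

lemma IsPL.mul {f g : Equiv.Perm ℝ} (hf : IsPL f) (hg : IsPL g) : IsPL (f * g) := by
  classical
  obtain ⟨fm, fd, Bf, hBf, hlf⟩ := hf
  obtain ⟨gm, gd, Bg, hBg, hlg⟩ := hg
  refine ⟨fm.comp gm, fun x => (fd _).trans (gd x), Bg ∪ Bf.image g.symm, ?_, ?_⟩
  · intro b hb
    rcases Finset.mem_union.1 hb with hb | hb
    · exact hBg b hb
    · obtain ⟨b', hb', rfl⟩ := Finset.mem_image.1 hb
      rw [← gd, Equiv.apply_symm_apply]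
      exact hBf b' hb'
  · intro x y hxy hB
    obtain ⟨k, hk⟩ := hlg x y hxy fun b hb => hB b (Finset.mem_union_left _ hb)
    obtain ⟨l, hl⟩ := hlf (g x) (g y) (gm hxy) (by
      rintro b hb ⟨h1, h2⟩
      refine hB _ (Finset.mem_union_right _ (Finset.mem_image_of_mem _ hb)) ⟨?_, ?_⟩
      · rwa [← gm.lt_iff_lt, Equiv.apply_symm_apply]
      · rwa [← gm.lt_iff_lt, Equiv.apply_symm_apply])
    refine ⟨l + k, fun z hxz hzy => ?_⟩
    rw [Equiv.Perm.mul_apply, Equiv.Perm.mul_apply, hl (g z) (gm.monotone hxz) (gm.monotone hzy),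
      hk z hxz hzy, zpow_add₀ (by norm_num : (2 : ℝ) ≠ 0)]
    ring

lemma IsPL.inv {g : Equiv.Perm ℝ} (hg : IsPL g) : IsPL g⁻¹ := by
  classical
  obtain ⟨gm, gd, B, hB, hl⟩ := hg
  have sm : StrictMono g.symm := fun x y h => by
    rwa [← gm.lt_iff_lt, Equiv.apply_symm_apply, Equiv.apply_symm_apply]
  refine ⟨sm, fun x => ?_, B.image g, ?_, ?_⟩
  · rw [← gd]
    exact iff_of_eq (congrArg _ (g.apply_symm_apply x))
  · intro b hb
    obtain ⟨b', hb', rfl⟩ := Finset.mem_image.1 hb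
    exact (gd _).2 (hB b' hb')
  · intro x y hxy hBxy
    obtain ⟨k, hk⟩ := hl (g.symm x) (g.symm y) (sm hxy) (by
      rintro b hb ⟨h1, h2⟩
      refine hBxy _ (Finset.mem_image_of_mem _ hb) ⟨?_, ?_⟩
      · rwa [← sm.lt_iff_lt, Equiv.symm_apply_apply]
      · rwa [← sm.lt_iff_lt, Equiv.symm_apply_apply])
    refine ⟨-k, fun z hxz hzy => ?_⟩
    have h1 := hk (g.symm z) (sm.monotone hxz) (sm.monotone hzy)
    rw [Equiv.apply_symm_apply, Equiv.apply_symm_apply] at h1
    change g.symm z = g.symm x + _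
    have h2 : z - x = (2 : ℝ) ^ k * (g.symm z - g.symm x) := by linarith
    have : (2 : ℝ) ^ k ≠ 0 := by positivity
    rw [h2, zpow_neg, inv_mul_cancel_left₀ this]
    ring

/-- The group of these maps. -/
def PL : Subgroup (Equiv.Perm ℝ) where
  carrier := {g | IsPL g}
  one_mem' := ⟨fun _ _ h => h, fun _ => Iff.rfl, ∅, by simp,
    fun x y _ _ => ⟨0, fun z _ _ => by simp⟩⟩
  mul_mem' := IsPL.mul
  inv_mem' := IsPL.inv

/-- The map that doubles the interval from `i` to `i + 1`. -/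
noncomputable def xe (i : ℕ) : Equiv.Perm ℝ where
  toFun t := max t (min (2 * t - i) (t + 1))
  invFun t := min t (max ((t + i) / 2) (t - 1))
  left_inv t := by
    simp only [max_def, min_def]
    split_ifs <;> linarith
  right_inv t := by
    simp only [max_def, min_def]
    split_ifs <;> linarith

lemma xe_def (i : ℕ) (t : ℝ) : xe i t = max t (min (2 * t - i) (t + 1)) := rfl

lemma xe_1 {i : ℕ} {t : ℝ} (h : t ≤ i) : xe i t = t :=
  max_eq_left (min_le_of_left_le (by linarith))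

lemma xe_2 {i : ℕ} {t : ℝ} (h : (i : ℝ) ≤ t) (h' : t ≤ i + 1) : xe i t = 2 * t - i := by
  rw [xe_def, min_eq_left (by linarith), max_eq_right (by linarith)]

lemma xe_3 {i : ℕ} {t : ℝ} (h : (i : ℝ) + 1 ≤ t) : xe i t = t + 1 := by
  rw [xe_def, min_eq_right (by linarith), max_eq_right (by linarith)]

lemma xe_exp (i : ℕ) {s t : ℝ} (h : s ≤ t) : t - s ≤ xe i t - xe i s := by
  simp only [xe_def, max_def, min_def]
  split_ifs <;> linarith

lemma lt_xe {i : ℕ} {t : ℝ} (h : (i : ℝ) < t) : t < xe i t :=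
  lt_max_of_lt_right (lt_min (by linarith) (by linarith))

lemma dy_nat (i : ℕ) : IsDyadic (i : ℝ) := ⟨i, 0, by simp⟩

lemma dy_one : IsDyadic 1 := ⟨1, 0, by simp⟩

lemma xe_mem (i : ℕ) : xe i ∈ PL := by
  classical
  refine ⟨fun s t h => ?_, fun t => ?_, {(i : ℝ), (i : ℝ) + 1}, ?_, ?_⟩
  · have := xe_exp i h.le
    linarith
  · rcases le_total t i with h | h
    · rw [xe_1 h]
    rcases le_total t (i + 1) with h' | h'
    · rw [xe_2 h h', ← Gc.dy_iff (x := t) 1 (dy_nat i).neg, zpow_one, sub_eq_add_neg]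
    · rw [xe_3 h', ← Gc.dy_iff (x := t) 0 dy_one, zpow_zero, one_mul]
  · intro b hb
    simp only [Finset.mem_insert, Finset.mem_singleton] at hb
    rcases hb with rfl | rfl
    exacts [dy_nat i, (dy_nat i).add dy_one]
  · intro x y hxy hB
    have k1 := hB i (by simp)
    have k2 := hB (i + 1) (by simp)
    simp only [not_and_or, not_lt] at k1 k2
    rcases k1 with k1 | k1
    · rcases k2 with k2 | k2
      · exact ⟨0, fun z r1 r2 => by rw [xe_3 k2, xe_3 (k2.trans r1), zpow_zero]; ring⟩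
      · refine ⟨1, fun z r1 r2 => ?_⟩
        rw [xe_2 k1 (by linarith), xe_2 (k1.trans r1) (by linarith), zpow_one]
        ring
    · exact ⟨0, fun z r1 r2 => by rw [xe_1 (t := x) (by linarith), xe_1 (by linarith)]; simp⟩

lemma xe_rel {i j : ℕ} (h : i < j) : xe (j + 1) * xe i = xe i * xe j := by
  have hij : (i : ℝ) + 1 ≤ j := by exact_mod_cast h
  ext t
  simp only [Equiv.Perm.mul_apply, xe_def, max_def, min_def, Nat.cast_add, Nat.cast_one]
  split_ifs <;> linarith

/-- The map that expands the interval from `i` to `i + 1` to one of length `m + 1`. -/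
noncomputable def yy : ℕ → ℕ → Equiv.Perm ℝ
  | 0, _ => 1
  | m + 1, i => yy m (i + 1) * xe i

lemma yy_mem (m i : ℕ) : yy m i ∈ PL := by
  induction m generalizing i with
  | zero => exact PL.one_mem
  | succ m ih => exact PL.mul_mem (ih _) (xe_mem i)

lemma yy_1 (m : ℕ) {i : ℕ} {t : ℝ} (h : t ≤ i) : yy m i t = t := by
  induction m generalizing i with
  | zero => rfl
  | succ m ih =>
    rw [yy, Equiv.Perm.mul_apply, xe_1 h, ih]
    push_cast
    linarith

lemma yy_3 (m : ℕ) {i : ℕ} {t : ℝ} (h : (i : ℝ) + 1 ≤ t) : yy m i t = t + m := by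
  induction m generalizing i t with
  | zero => simp [yy]
  | succ m ih =>
    rw [yy, Equiv.Perm.mul_apply, xe_3 h, ih]
    · push_cast
      ring
    · push_cast
      linarith

lemma yy_exp (m i : ℕ) {s t : ℝ} (h : s ≤ t) : t - s ≤ yy m i t - yy m i s := by
  induction m generalizing i s t with
  | zero => exact le_rfl
  | succ m ih =>
    have h1 := xe_exp i h
    exact h1.trans (ih (i + 1) (by linarith))

lemma yy_two (m i : ℕ) {s t : ℝ} (h1 : (i : ℝ) ≤ s) (h : s ≤ t) (h2 : t ≤ i + 1) :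
    2 * (t - s) ≤ yy (m + 1) i t - yy (m + 1) i s := by
  have h3 := yy_exp m (i + 1) (s := xe i s) (t := xe i t) (by linarith [xe_exp i h])
  rw [xe_2 h1 (by linarith), xe_2 (by linarith) h2] at h3
  rw [yy, Equiv.Perm.mul_apply, Equiv.Perm.mul_apply, xe_2 h1 (by linarith),
    xe_2 (by linarith) h2]
  linarith

lemma le_yy (m i : ℕ) (t : ℝ) : t ≤ yy m i t := by
  rcases le_total t i with h | h
  · rw [yy_1 m h]
  · have := yy_exp m i h
    rw [yy_1 m (t := i) le_rfl] at this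
    linarith

lemma lt_yy (m : ℕ) {i : ℕ} {t : ℝ} (h : (i : ℝ) < t) : t < yy (m + 1) i t :=
  (lt_xe h).trans_le (le_yy m (i + 1) _)

lemma yy_xe (m : ℕ) {i j : ℕ} (h : i < j) : yy m (j + 1) * xe i = xe i * yy m j := by
  induction m generalizing j with
  | zero => simp [yy]
  | succ m ih => rw [yy, yy, mul_assoc, xe_rel h, ← mul_assoc, ih (by omega), mul_assoc]

lemma yy_rel' (m n : ℕ) {i j : ℕ} (h : i < j) : yy m (j + n) * yy n i = yy n i * yy m j := by
  induction n generalizing i j with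
  | zero => simp [yy]
  | succ n ih =>
    rw [yy, ← mul_assoc, show j + (n + 1) = j + 1 + n by omega, ih (by omega), mul_assoc,
      yy_xe m h, mul_assoc]

end Pool.Agent.Lib.MP_24b811_al.Fr
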