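import Pool.Agent.Lib.MP_24b811_al.FrTok

/-!
# Canonical words of subdivisions
-/

set_option autoImplicit false

namespace Pool.Agent.Lib.MP_24b811_al.Fr

open CategoryTheory unitInterval Gc List

universe u

variable {H : Subgroup ThompsonF} (Λ : Lev H)

/-- There is a diagram between the words with the given map. -/
def Mo (w w' : List (Lz.{u} H)) (g : Equiv.Perm ℝ) : Prop :=
  ∃ (h : w ≠ []) (h' : w' ≠ []) (φ : vtx (P := prez Λ) ⟨w, h⟩ ⟶ vtx ⟨w', h'⟩), vz φ = g

variable {Λ} {w w' w'' a b x y : List (Lz.{u} H)} {g g' : Equiv.Perm ℝ} {v : Nd}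

lemma Mo.refl (h : w ≠ []) : Mo Λ w w 1 := ⟨h, h, 𝟙 _, vz_id _⟩

lemma Mo.trans (h : Mo Λ w w' g) (h' : Mo Λ w' w'' g') : Mo Λ w w'' (g' * g) := by
  obtain ⟨_, _, φ, rfl⟩ := h
  obtain ⟨_, _, ψ, rfl⟩ := h'
  exact ⟨_, _, φ ≫ ψ, vz_comp _ _⟩

lemma Mo.symm (h : Mo Λ w w' g) : Mo Λ w' w g⁻¹ := by
  obtain ⟨_, _, φ, rfl⟩ := h
  exact ⟨_, _, Groupoid.inv φ, vz_inv _⟩

lemma Mo.tr (h : Mo Λ w w' g) (h' : Mo Λ w' w'' 1) : Mo Λ w w'' g := by
  simpa using h.trans h'

lemma Mo.sy (h : Mo Λ w w' 1) : Mo Λ w' w 1 := by simpa using h.symm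

lemma Mo.cast {s s' : List (Lz.{u} H)} (h : Mo Λ w w' g) (e : s = w) (e' : s' = w') :
    Mo Λ s s' g := e ▸ e' ▸ h

lemma Mo.edge (a b : List (Lz.{u} H)) (r : (prez.{u} Λ).rels) :
    Mo Λ (a ++ r.1.1 ++ b) (a ++ r.1.2 ++ b) (yv r (nt a)) :=
  ⟨by simp [(prez Λ).lhs_ne_nil _ r.2], by simp [(prez Λ).rhs_ne_nil _ r.2],
    edgeHom ⟨⟨a, r, b⟩, rfl, rfl⟩, vz_edge _⟩

lemma mo_S (a b : List (Lz.{u} H)) (v : Nd) :
    Mo Λ (a ++ T H v :: b) (a ++ rhs Λ v ++ b) (xe (nt a)) := by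
  simpa [rS, yv] using Mo.edge a b (rS Λ v)

lemma mo_1 (a b : List (Lz.{u} H)) : Mo Λ (a ++ .e :: .M :: .eb :: b) (a ++ .M :: b) 1 := by
  simpa [r1, yv] using Mo.edge a b (r1 Λ)

lemma mo_2 (a b : List (Lz.{u} H)) : Mo Λ (a ++ .M :: .f :: b) (a ++ .e :: .M :: b) 1 := by
  simpa [r2, yv] using Mo.edge a b (r2 Λ)

lemma mo_k (k : ℕ) (a b : List (Lz.{u} H)) :
    Mo Λ (a ++ (replicate k .e ++ .M :: (replicate k .eb ++ b))) (a ++ .M :: b) 1 := by
  induction k with
  | zero => exact .refl (by simp)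
  | succ k ih =>
    refine ((mo_1 (a ++ replicate k .e) (replicate k .eb ++ b)).cast ?_ ?_).tr ih
    · rw [replicate_succ' (a := Lz.e), replicate_succ (a := Lz.eb)]
      simp only [append_assoc, cons_append, nil_append]
    · simp only [append_assoc]

lemma mo_s (s : ℕ) (a b : List (Lz.{u} H)) :
    Mo Λ (a ++ .M :: (replicate s .f ++ b)) (a ++ (replicate s .e ++ .M :: b)) 1 := by
  induction s generalizing a with
  | zero => exact .refl (by simp)
  | succ s ih =>
    refine (mo_2 a (replicate s .f ++ b)).tr ((ih (a ++ [.e])).cast ?_ ?_) <;>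
      simp only [append_assoc, cons_append, nil_append, replicate_succ]

/-- A block of counters. -/
def bk (p k s : ℕ) (b : List (Lz.{u} H)) : List (Lz.{u} H) :=
  replicate p .e ++ .M :: (replicate k .eb ++ (replicate s .f ++ b))

lemma mo_bk {p k s q : ℕ} (h : k ≤ p) (h' : p + s = q + k) (a b : List (Lz.{u} H)) :
    Mo Λ (a ++ bk p k s b) (a ++ (replicate q .e ++ .M :: b)) 1 := by
  obtain ⟨p, rfl⟩ := Nat.exists_eq_add_of_le' h
  obtain rfl : q = p + s := by omega
  refine ((mo_k k (a ++ replicate p .e) _).tr (mo_s s (a ++ replicate p .e) b)).cast ?_ ?_ <;>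
    simp only [bk, replicate_add, append_assoc]

lemma pump (n : ℕ) : ∀ {v : Nd} {x y : List (Lz.{u} H)}, 0 < Λ.A (pt v 1) →
    (∀ a, Mo Λ (a ++ (replicate n .e ++ x)) (a ++ (replicate n .e ++ y)) 1) →
    ∀ a, Mo Λ (a ++ T H v :: x) (a ++ T H v :: y) 1 := by
  induction n with
  | zero => exact fun {v _ _} _ h a => (h (a ++ [T H v])).cast (by simp) (by simp)
  | succ n ih =>
    intro v x y hA h a
    obtain ⟨m, hm⟩ : ∃ m, (Λ.A (pt v 1)).toNat = m + 1 := ⟨(Λ.A (pt v 1)).toNat - 1, by omega⟩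
    have e : pt (c1 v) 1 = pt v 1 := by
      rw [pt_c1]
      exact congrArg _ (Subtype.ext (by simp [hf1]))
    obtain ⟨p, hp⟩ : ∃ p, rhs.{u} Λ v = p ++ T H (c1 v) :: replicate (m + 1) .e :=
      ⟨_, by rw [rhs, hm, ← cons_append, ← append_assoc, ← cons_append, ← append_assoc]⟩
    have k := ih (v := c1 v) (x := replicate (m + 1) .e ++ x) (y := replicate (m + 1) .e ++ y)
      (e ▸ hA) (fun a => (h (a ++ replicate m .e)).cast ?_ ?_) (a ++ p)
    · have := (((mo_S a x v).tr (k.cast ?_ ?_)).trans (mo_S a y v).symm)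
      · simpa using this
      all_goals simp only [hp, append_assoc, cons_append]
    all_goals
      simp only [append_assoc, ← append_assoc (replicate _ _), ← replicate_add]
      rw [show n + (m + 1) = m + (n + 1) by omega]

lemma mo_lev {p k s p' k' s' : ℕ} (hA : 0 < Λ.A (pt v 1)) (h : p + s + k' = p' + s' + k)
    (a b : List (Lz.{u} H)) : Mo Λ (a ++ T H v :: bk p k s b) (a ++ T H v :: bk p' k' s' b) 1 := by
  refine pump (k + k') hA (fun a => ?_) a
  refine ((mo_bk (p := k + k' + p) (k := k) (s := s) (q := k' + p + s) (by omega) (by omega)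
    a b).tr (mo_bk (p := k + k' + p') (k := k') (s := s') (by omega) (by omega) a b).sy).cast
    ?_ ?_ <;> simp only [bk, replicate_add, append_assoc]

/-- The depth of the first interval. -/
def hd (m : ℕ) : List Nd → ℕ
  | [] => m
  | u :: _ => u.n

variable (Λ) in
/-- The level after an interval. -/
noncomputable def lev (u : Nd) (m : ℕ) : ℤ := Λ.A (pt u 1) * u.n + Λ.B (pt u 1) * m + Λ.C (pt u 1)

variable (Λ) in
/-- Classes and levels of a subdivision. -/
noncomputable def sig (m : ℕ) : List Nd → List (Lt.{u} H × ℤ)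
  | [] => []
  | u :: us => (cls H u, lev Λ u (hd m us)) :: sig m us

/-- The canonical word. -/
def enc : List (Lt.{u} H × ℤ) → List (Lz.{u} H)
  | [] => []
  | p :: l => .tile p.1 :: bk p.2.toNat (-p.2).toNat 0 (enc l)

lemma sig_append (m : ℕ) (a b : List Nd) :
    sig.{u} Λ m (a ++ b) = sig Λ (hd m b) a ++ sig Λ m b := by
  induction a with
  | nil => rfl
  | cons u a ih => cases a <;> simp_all [sig, hd]

lemma enc_append (a b : List (Lt.{u} H × ℤ)) : enc (a ++ b) = enc a ++ enc b := by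
  induction a with
  | nil => rfl
  | cons u a ih => simp [enc, bk, ih]

lemma nt_enc (m : ℕ) (a : List Nd) : nt (enc (sig.{u} Λ m a)) = a.length := by
  induction a with
  | nil => rfl
  | cons u a ih =>
    change nt (T H u :: _) = _
    simp [bk, ih]

/-- The intervals are consecutive from `x` to `1`. -/
def Ch : I → List Nd → Prop
  | x, [] => x = 1
  | x, u :: us => pt u 0 = x ∧ Ch (pt u 1) us

/-- The intervals are mapped to consecutive unit intervals. -/
def Ti (D : Equiv.Perm ℝ) : ℕ → List Nd → Prop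
  | _, [] => True
  | j, u :: us => (∀ τ : I, D (pt u τ) = j + τ) ∧ Ti D (j + 1) us

lemma pt_c0_0 (u : Nd) : pt (c0 u) 0 = pt u 0 := by
  rw [pt_c0]
  exact congrArg _ (Subtype.ext (by simp [hf0]))

lemma pt_c1_1 (u : Nd) : pt (c1 u) 1 = pt u 1 := by
  rw [pt_c1]
  exact congrArg _ (Subtype.ext (by simp [hf1]))

lemma Ch.drop {x : I} {a b : List Nd} (h : Ch x (a ++ b)) : ∃ x', Ch x' b := by
  induction a generalizing x with
  | nil => exact ⟨x, h⟩
  | cons u a ih => exact ih h.2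

lemma Ch.up {x : I} {a b : List Nd} {u : Nd} (h : Ch x (a ++ u :: b)) :
    Ch x (a ++ c0 u :: c1 u :: b) := by
  induction a generalizing x with
  | nil => exact ⟨(pt_c0_0 u).trans h.1, (pt_mid u).symm, (pt_c1_1 u).symm ▸ h.2⟩
  | cons v a ih => exact ⟨h.1, ih h.2⟩

lemma Ti.sh {D : Equiv.Perm ℝ} {i j : ℕ} {b : List Nd} (h : Ti D j b) (hi : i < j) :
    Ti (xe i * D) (j + 1) b := by
  induction b generalizing j with
  | nil => trivial
  | cons u b ih =>
    have : (i : ℝ) + 1 ≤ j := by exact_mod_cast hi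
    refine ⟨fun τ => ?_, ih h.2 (by omega)⟩
    rw [Equiv.Perm.mul_apply, h.1, xe_3 (by linarith [τ.2.1])]
    push_cast
    ring

lemma Ti.up {D : Equiv.Perm ℝ} {j : ℕ} {a b : List Nd} {u : Nd} (h : Ti D j (a ++ u :: b)) :
    Ti (xe (j + a.length) * D) j (a ++ c0 u :: c1 u :: b) := by
  induction a generalizing j with
  | nil =>
    refine ⟨fun τ => ?_, fun τ => ?_, h.2.sh (Nat.lt_succ_self j)⟩
    · rw [Equiv.Perm.mul_apply, pt_c0, h.1, length_nil, add_zero,
        xe_2 (by linarith [(hf0 τ).2.1]) (by linarith [(hf0 τ).2.2])]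
      simp only [hf0]
      ring
    · rw [Equiv.Perm.mul_apply, pt_c1, h.1, length_nil, add_zero,
        xe_2 (by linarith [(hf1 τ).2.1]) (by linarith [(hf1 τ).2.2])]
      simp only [hf1]
      push_cast
      ring
  | cons v a ih =>
    refine ⟨fun τ => ?_, ?_⟩
    · rw [Equiv.Perm.mul_apply, h.1, xe_1]
      have : (0 : ℝ) ≤ a.length := Nat.cast_nonneg _
      rw [length_cons]
      push_cast
      linarith [τ.2.2]
    · rw [length_cons, ← add_assoc, add_right_comm]
      exact ih h.2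

lemma lev_c0 (u : Nd) : lev Λ (c0 u) (c1 u).n = cr Λ u := by
  rw [lev, cr, pt_mid]
  simp only [c0, c1]
  push_cast
  ring

lemma lev_c1 (u : Nd) (m : ℕ) : lev Λ (c1 u) m = lev Λ u m + Λ.A (pt u 1) := by
  rw [lev, lev, pt_c1_1]
  simp only [c1]
  push_cast
  ring

lemma lev_succ (u : Nd) (m : ℕ) : lev Λ u (m + 1) = lev Λ u m + Λ.B (pt u 1) := by
  rw [lev, lev]
  push_cast
  ring

/-- Halving an interval in a canonical word. -/
lemma mo_up {a b : List Nd} {u : Nd} (h : Ch 0 (a ++ u :: b)) :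
    Mo Λ (enc (sig.{u} Λ 0 (a ++ u :: b))) (enc (sig Λ 0 (a ++ c0 u :: c1 u :: b)))
      (xe a.length) := by
  have k1 : ∀ y : List (Lz.{u} H), y ≠ [] → Mo Λ (enc (sig Λ u.n a) ++
      (replicate (-Λ.B (pt u 0)).toNat .eb ++ (replicate (Λ.B (pt u 0)).toNat .f ++ y)))
      (enc (sig Λ (u.n + 1) a) ++ y) 1 := fun y hy => by
    rcases eq_nil_or_concat a with rfl | ⟨a, p, rfl⟩
    · rw [show pt u 0 = 0 from h.1, (Λ.zero _ Λ.A0).1]
      exact .refl hy
    rw [concat_eq_append] at h ⊢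
    rw [append_assoc] at h
    obtain ⟨_, -, e, -⟩ := h.drop
    rw [sig_append, sig_append, enc_append, enc_append, e]
    simp only [sig, hd, lev_succ]
    rcases (Λ.A_nonneg (pt p 1)).eq_or_lt with r | r
    · rw [(Λ.zero _ r.symm).1, add_zero]
      exact .refl (by simp [hy])
    refine (mo_lev (v := p) (p := (lev Λ p u.n).toNat) (s := (Λ.B (pt p 1)).toNat)
      (k := (-lev Λ p u.n).toNat + (-Λ.B (pt p 1)).toNat)
      (p' := (lev Λ p u.n + Λ.B (pt p 1)).toNat) (s' := 0)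
      (k' := (-(lev Λ p u.n + Λ.B (pt p 1))).toNat) r (by omega) (enc (sig Λ p.n a)) y).cast
      ?_ ?_ <;>
      simp only [enc, bk, T, replicate_add, append_assoc, cons_append, replicate_zero, nil_append,
        append_nil]
  have k2 : ∀ (x y : List (Lz.{u} H)) (l : ℤ), Mo Λ (x ++ T H (c1 u) ::
      (replicate (Λ.A (pt u 1)).toNat .e ++ bk l.toNat (-l).toNat 0 y))
      (x ++ T H (c1 u) :: bk (l + Λ.A (pt u 1)).toNat (-(l + Λ.A (pt u 1))).toNat 0 y) 1 :=
    fun x y l => by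
    rcases (Λ.A_nonneg (pt u 1)).eq_or_lt with r | r
    · rw [← r, add_zero]
      exact .refl (by simp)
    refine (mo_lev (p := (Λ.A (pt u 1)).toNat + l.toNat) (s := 0) (k := (-l).toNat)
      (by rwa [pt_c1_1]) (by omega) x y).cast ?_ rfl
    simp only [bk, replicate_add, append_assoc]
  rw [sig_append, sig_append, enc_append, enc_append, ← nt_enc (Λ := Λ) u.n a]
  refine (mo_S _ _ u).tr (((k1 (T H (c0 u) :: bk (cr Λ u).toNat (-cr Λ u).toNat 0 (T H (c1 u) ::
    (replicate (Λ.A (pt u 1)).toNat .e ++ bk (lev Λ u (hd 0 b)).toNat (-lev Λ u (hd 0 b)).toNat 0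
      (enc (sig Λ 0 b))))) (by simp)).cast ?_ rfl).tr ((k2 (enc (sig Λ (u.n + 1) a) ++
        T H (c0 u) :: bk (cr Λ u).toNat (-cr Λ u).toNat 0 []) (enc (sig Λ 0 b))
          (lev Λ u (hd 0 b))).cast ?_ ?_))
  · simp only [rhs, bk, append_assoc, cons_append, replicate_zero, nil_append]
    rfl
  · simp only [bk, append_assoc, cons_append, replicate_zero, nil_append, append_nil]
  · simp only [sig, hd, enc, lev_c0, lev_c1, T, bk, append_assoc, cons_append, replicate_zero,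
      nil_append, append_nil]
    rfl

end Pool.Agent.Lib.MP_24b811_al.Fr
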