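import Pool.Agent.Lib.MP_24b811_al.GcSlope

/-!
# Subgroups of F that contain a nontrivial normal subgroup
-/

set_option autoImplicit false

namespace Pool.Agent.Lib.MP_24b811_al.Gc

open unitInterval Filter Topology Set

lemma fix_zero (f : ThompsonF) : f • (0 : I) = 0 := lmF.fix_bot f

lemma fix_one (f : ThompsonF) : f • (1 : I) = 1 := lmF.dual.fix_bot f

/-- The logarithm of the slope at an end point, as a homomorphism. -/
noncomputable def chi (s : Bool) : ThompsonF →* Multiplicative ℤ :=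
  MonoidHom.mk' (fun f => Multiplicative.ofAdd (sl s (bif s then 0 else 1) f)) fun f g => by
    rw [← ofAdd_add]
    cases s
    · exact congrArg _ ((sl_mul (nb_left zero_lt_one) f g).trans (by rw [fix_one]; rfl))
    · exact congrArg _ ((sl_mul (nb_right zero_lt_one) f g).trans (by rw [fix_zero]; rfl))

lemma exists_gen {G : Type} [Group G] (H : Subgroup G) (φ : G →* Multiplicative ℤ) :
    ∃ a : ℤ, ∀ p : ℤ, a ∣ p ↔ ∃ h ∈ H, (φ h).toAdd = p := by
  obtain ⟨a, ha⟩ := Int.subgroup_cyclic (Subgroup.toAddSubgroup' (H.map φ))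
  refine ⟨a, fun p => ?_⟩
  have h1 : a ∣ p ↔ p ∈ Subgroup.toAddSubgroup' (H.map φ) := by
    rw [ha, AddSubgroup.mem_closure_singleton]
    exact ⟨fun ⟨n, hn⟩ => ⟨n, by rw [hn, smul_eq_mul, mul_comm]⟩,
      fun ⟨n, hn⟩ => ⟨n, by rw [← hn, smul_eq_mul, mul_comm]⟩⟩
  rw [h1]
  exact ⟨fun ⟨h, k1, k2⟩ => ⟨h, k1, congrArg Multiplicative.toAdd k2⟩,
    fun ⟨h, k1, k2⟩ => ⟨h, k1, congrArg Multiplicative.ofAdd k2⟩⟩

theorem rect {K : Subgroup ThompsonF} (lm : LM K I) {H N : Subgroup K} [N.Normal] (h1 : N ≠ ⊥)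
    (h2 : N ≤ H) (T : ThreeProp H) :
    ∃ a b : ℤ, ∀ f : K, f ∈ H ↔ a ∣ sl true 0 f.1 ∧ b ∣ sl false 1 f.1 := by
  have hK := (lm.normal_comm h1).trans h2
  have key : ∀ f ∈ H, ∀ f₀ : K, sl true 0 f₀.1 = sl true 0 f.1 → sl false 1 f₀.1 = 0 →
      f₀ ∈ H := by
    intro f hf f₀ k1 k2
    obtain ⟨α, a1, a2⟩ := agree_right zero_lt_one ((fix_zero f₀.1).trans (fix_zero f.1).symm) k1
    obtain ⟨β, b1, b2⟩ := agree_left zero_lt_one ((fix_one f₀.1).trans (fix_one 1).symm)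
      (k2.trans (sl_one (nb_left zero_lt_one)).symm)
    exact lm.component (germF.sub K) hK T hf a1 b1 (fun y hy => a2 y y.2.1 hy)
      fun y hy => (b2 y hy y.2.2).trans (one_smul _ y)
  obtain ⟨a, ha⟩ := exists_gen H ((chi true).comp K.subtype)
  obtain ⟨b, hb⟩ := exists_gen H ((chi false).comp K.subtype)
  refine ⟨a, b, fun f => ⟨fun hf => ⟨(ha _).2 ⟨f, hf, rfl⟩, (hb _).2 ⟨f, hf, rfl⟩⟩, ?_⟩⟩
  rintro ⟨k1, k2⟩
  obtain ⟨h, k3, k4⟩ := (ha _).1 k1
  obtain ⟨h', k5, k6⟩ := (hb _).1 k2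
  change sl true 0 h.1 = _ at k4
  change sl false 1 h'.1 = _ at k6
  have k7 : f * h'⁻¹ ∈ H := by
    refine key (h * h'⁻¹) (H.mul_mem k3 (H.inv_mem k5)) _ ?_ ?_
    · rw [Subgroup.coe_mul, Subgroup.coe_mul, sl_mul (nb_right zero_lt_one),
        sl_mul (nb_right zero_lt_one), fix_zero, k4]
    · have := sl_mul (nb_left zero_lt_one) h'.1 h'.1⁻¹
      rw [mul_inv_cancel, sl_one (nb_left zero_lt_one), fix_one] at this
      rw [Subgroup.coe_mul, Subgroup.coe_inv, sl_mul (nb_left zero_lt_one), fix_one, ← k6, this]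
  simpa using H.mul_mem k7 k5

lemma sl_of_eps {f : ThompsonF} {p q : ℤ} {ε : ℝ} (hε : 0 < ε)
    (h : ∀ x : I, ((x : ℝ) ≤ ε → (f.1 x : ℝ) = 2 ^ p * x) ∧
      (1 - ε ≤ x → 1 - (f.1 x : ℝ) = 2 ^ q * (1 - x))) :
    sl true 0 f = p ∧ sl false 1 f = q := by
  constructor
  · refine Gm.sl_eq (nb_right zero_lt_one) ?_
    have : ∀ᶠ y : I in 𝓝 0, (y : ℝ) ≤ ε :=
      continuous_subtype_val.continuousAt.eventually (eventually_le_nhds hε)
    filter_upwards [mem_nhdsWithin_of_mem_nhds this] with y hy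
    rw [fix_zero, smul_def, (h y).1 hy]
    simp
  · refine Gm.sl_eq (nb_left zero_lt_one) ?_
    have : ∀ᶠ y : I in 𝓝 1, 1 - ε ≤ (y : ℝ) :=
      continuous_subtype_val.continuousAt.eventually (eventually_ge_nhds (sub_lt_self _ hε))
    filter_upwards [mem_nhdsWithin_of_mem_nhds this] with y hy
    have := (h y).2 hy
    rw [fix_one, smul_def]
    simp only [Icc.coe_one]
    linarith

end Pool.Agent.Lib.MP_24b811_al.Gc
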