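import Pool.Agent.Lib.MP_24b811_al.FrDiagram
import Pool.Agent.Lib.MP_24b811_al.GcRect

/-!
# Standard dyadic intervals
-/

set_option autoImplicit false

namespace Pool.Agent.Lib.MP_24b811_al.Fr

open unitInterval Gc

/-- The standard dyadic interval from `k / 2 ^ n` to `(k + 1) / 2 ^ n`. -/
structure Nd where
  k : ℕ
  n : ℕ
  lt : k < 2 ^ n

/-- The affine parametrisation of a standard dyadic interval. -/
noncomputable def pt (u : Nd) (τ : I) : I :=
  ⟨(u.k + τ) / 2 ^ u.n, div_nonneg (add_nonneg (Nat.cast_nonneg _) τ.2.1) (by positivity), by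
    rw [div_le_one (by positivity)]
    have : ((u.k + 1 : ℕ) : ℝ) ≤ (2 ^ u.n : ℕ) := by exact_mod_cast u.lt
    push_cast at this
    linarith [τ.2.2]⟩

lemma pt_val (u : Nd) (τ : I) : (pt u τ : ℝ) = (u.k + τ) / 2 ^ u.n := rfl

/-- The whole interval. -/
def root : Nd := ⟨0, 0, by simp⟩

lemma pt_root (τ : I) : pt root τ = τ := Subtype.ext (by simp [pt_val, root])

/-- The left half. -/
def c0 (u : Nd) : Nd := ⟨2 * u.k, u.n + 1, by have := u.lt; rw [pow_succ]; omega⟩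

/-- The right half. -/
def c1 (u : Nd) : Nd := ⟨2 * u.k + 1, u.n + 1, by have := u.lt; rw [pow_succ]; omega⟩

/-- Half of a parameter. -/
noncomputable def hf0 (τ : I) : I := ⟨τ / 2, by linarith [τ.2.1], by linarith [τ.2.2]⟩

/-- The midpoint of a parameter and `1`. -/
noncomputable def hf1 (τ : I) : I := ⟨(1 + τ) / 2, by linarith [τ.2.1], by linarith [τ.2.2]⟩

lemma pt_c0 (u : Nd) (τ : I) : pt (c0 u) τ = pt u (hf0 τ) := Subtype.ext (by
  simp only [pt_val, c0, hf0, pow_succ]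
  push_cast
  field_simp)

lemma pt_c1 (u : Nd) (τ : I) : pt (c1 u) τ = pt u (hf1 τ) := Subtype.ext (by
  simp only [pt_val, c1, hf1, pow_succ]
  push_cast
  field_simp
  ring)

lemma hf_cases (τ : I) : (∃ ν, τ = hf0 ν) ∨ ∃ ν, τ = hf1 ν := by
  rcases le_total (τ : ℝ) (1 / 2) with h | h
  · exact Or.inl ⟨⟨2 * τ, by linarith [τ.2.1], by linarith⟩, Subtype.ext (by simp [hf0])⟩
  · exact Or.inr ⟨⟨2 * τ - 1, by linarith, by linarith [τ.2.2]⟩, Subtype.ext (by simp [hf1])⟩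

lemma pt_mono (u : Nd) {ν τ : I} (h : ν ≤ τ) : pt u ν ≤ pt u τ :=
  div_le_div_of_nonneg_right (add_le_add_right (show (ν : ℝ) ≤ τ from h) _) (by positivity)

lemma pt_mid (u : Nd) : pt (c0 u) 1 = pt (c1 u) 0 := by
  rw [pt_c0, pt_c1]
  exact congrArg _ (Subtype.ext (by simp [hf0, hf1]))

lemma dy_pt0 (u : Nd) : IsDyadic (pt u 0) := ⟨u.k, u.n, by simp [pt_val]⟩

/-- A subgroup of F is closed if it contains the components of its elements at dyadic points. -/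
def Closed (H : Subgroup ThompsonF) : Prop :=
  ∀ t ∈ H, ∀ a : I, IsDyadic a → t • a = a →
    ∃ s ∈ H, ∀ y : I, (y ≤ a → s • y = t • y) ∧ (a ≤ y → s • y = y)

lemma Closed.glue {H : Subgroup ThompsonF} (hH : Closed H) {g h : ThompsonF} (hg : g ∈ H)
    (hh : h ∈ H) {a : I} (ha : IsDyadic a) (e : g • a = h • a) :
    ∃ s ∈ H, ∀ y : I, (y ≤ a → s • y = g • y) ∧ (a ≤ y → s • y = h • y) := by
  obtain ⟨s, s1, s2⟩ := hH (h⁻¹ * g) (H.mul_mem (H.inv_mem hh) hg) a ha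
    (by rw [mul_smul, e, inv_smul_smul])
  exact ⟨h * s, H.mul_mem hh s1, fun y => ⟨fun hy => by
    rw [mul_smul, (s2 y).1 hy, mul_smul, smul_inv_smul], fun hy => by rw [mul_smul, (s2 y).2 hy]⟩⟩

lemma Closed.glue' {H : Subgroup ThompsonF} (hH : Closed H) {g h : ThompsonF} (hg : g ∈ H)
    (hh : h ∈ H) {u : Nd} (e : g • pt (c0 u) 1 = h • pt (c1 u) 0) :
    ∃ s ∈ H, (∀ τ, s • pt (c0 u) τ = g • pt (c0 u) τ) ∧ ∀ τ, s • pt (c1 u) τ = h • pt (c1 u) τ := by
  obtain ⟨s, s1, s2⟩ := hH.glue hg hh (dy_pt0 (c1 u)) (by rwa [← pt_mid, pt_mid] at e)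
  exact ⟨s, s1, fun τ => (s2 _).1 (pt_mid u ▸ pt_mono _ τ.2.2), fun τ => (s2 _).2 (pt_mono _ τ.2.1)⟩

/-- Intervals that an element of `H` maps affinely to one another. -/
def sd (H : Subgroup ThompsonF) : Setoid Nd where
  r u v := ∃ h ∈ H, ∀ τ, h • pt u τ = pt v τ
  iseqv := ⟨fun _ => ⟨1, H.one_mem, fun _ => one_smul _ _⟩,
    fun ⟨h, k1, k2⟩ => ⟨h⁻¹, H.inv_mem k1, fun τ => by rw [← k2, inv_smul_smul]⟩,
    fun ⟨h, k1, k2⟩ ⟨g, k3, k4⟩ => ⟨g * h, H.mul_mem k3 k1, fun τ => by rw [mul_smul, k2, k4]⟩⟩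

lemma sd_c0 {H : Subgroup ThompsonF} {u v : Nd} (h : sd H u v) : sd H (c0 u) (c0 v) :=
  h.imp fun _ k => ⟨k.1, fun τ => by rw [pt_c0, pt_c0, k.2]⟩

lemma sd_c1 {H : Subgroup ThompsonF} {u v : Nd} (h : sd H u v) : sd H (c1 u) (c1 v) :=
  h.imp fun _ k => ⟨k.1, fun τ => by rw [pt_c1, pt_c1, k.2]⟩

lemma Closed.sd_up {H : Subgroup ThompsonF} (hH : Closed H) {u v : Nd}
    (h0 : sd H (c0 u) (c0 v)) (h1 : sd H (c1 u) (c1 v)) : sd H u v := by
  obtain ⟨g, g1, g2⟩ := h0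
  obtain ⟨h, k1, k2⟩ := h1
  obtain ⟨s, s1, s2, s3⟩ := hH.glue' g1 k1 (u := u) (by rw [g2, k2, pt_mid])
  refine ⟨s, s1, fun τ => ?_⟩
  rcases hf_cases τ with ⟨ν, rfl⟩ | ⟨ν, rfl⟩
  · rw [← pt_c0, ← pt_c0, s2, g2]
  · rw [← pt_c1, ← pt_c1, s3, k2]

/-- A finite subdivision all of whose pieces have the property `p`. -/
inductive Sub (p : Nd → Prop) : Nd → Prop
  | base {u : Nd} : p u → Sub p u
  | node {u : Nd} : Sub p (c0 u) → Sub p (c1 u) → Sub p u

lemma desc {R : Nd → Prop} (hR : ∀ u, R (c0 u) → R (c1 u) → R u) (s : ℕ) : ∀ u : Nd,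
    (∀ v : Nd, v.n = u.n + s → u.k * 2 ^ s ≤ v.k → v.k < (u.k + 1) * 2 ^ s → R v) → R u := by
  induction s with
  | zero => exact fun u h => h u rfl (by simp) (by simp)
  | succ s ih =>
    intro u h
    refine hR u (ih _ fun v h1 h2 h3 => h v ?_ ?_ ?_) (ih _ fun v h1 h2 h3 => h v ?_ ?_ ?_) <;>
      simp only [c0, c1, pow_succ] at * <;> first | omega | nlinarith [Nat.zero_le (2 ^ s)]

/-- `g` maps `v` affinely to a standard interval of depth `N`. -/
def Af (g : ThompsonF) (N : ℕ) (v : Nd) : Prop := ∃ v' : Nd, v'.n = N ∧ ∀ τ, g • pt v τ = pt v' τ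

lemma sub_of_lin (g : ThompsonF) (u : Nd) {e : ℤ} (h : ∀ z : I, pt u 0 ≤ z → z ≤ pt u 1 →
    ((g • z : I) : ℝ) = (g • pt u 0 : I) + (2 : ℝ) ^ e * ((z : ℝ) - pt u 0)) :
    ∃ N0, ∀ N, N0 ≤ N → Sub (Af g N) u := by
  obtain ⟨c, r, hc⟩ := IsThompsonF.dyadic_apply g.2 _ (dy_pt0 u)
  change ((g • pt u 0 : I) : ℝ) = _ at hc
  refine ⟨max r (u.n - e).toNat, fun N hN => ?_⟩
  obtain ⟨a, rfl⟩ := Nat.exists_eq_add_of_le ((le_max_left _ _).trans hN)
  obtain ⟨s, hs⟩ : ∃ s : ℕ, e = u.n + s - (r + a : ℕ) := ⟨(r + a + e - u.n).toNat, by omega⟩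
  refine desc (fun _ => Sub.node) s u fun v h1 h2 h3 => .base ?_
  obtain ⟨j, hj⟩ := Nat.exists_eq_add_of_le h2
  have hj' : ((j + 1 : ℕ) : ℝ) ≤ (2 ^ s : ℕ) := by
    rw [hj, add_mul, one_mul, add_lt_add_iff_left] at h3
    exact_mod_cast h3
  push_cast at hj'
  have key : ∀ τ : I, ((g • pt v τ : I) : ℝ) = (c * 2 ^ a + j + τ) / 2 ^ (r + a) := fun τ => by
    have e1 : (pt v τ : ℝ) = (u.k + (j + τ) / 2 ^ s) / 2 ^ u.n := by
      rw [pt_val, h1, hj, pow_add]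
      push_cast
      field_simp
      ring
    have e2 : (0 : ℝ) ≤ (j + τ) / 2 ^ s := div_nonneg (by linarith [τ.2.1]) (by positivity)
    have e3 : ((j : ℝ) + τ) / 2 ^ s ≤ 1 := by
      rw [div_le_one (by positivity)]
      linarith [τ.2.2]
    rw [h, hc, e1, pt_val, hs, zpow_sub₀ (by norm_num), zpow_add₀ (by norm_num), zpow_natCast,
      zpow_natCast, zpow_natCast, pow_add]
    · simp only [Set.Icc.coe_zero, add_zero]
      field_simp
      ring
    · change (pt u 0 : ℝ) ≤ pt v τ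
      rw [e1, pt_val]
      exact div_le_div_of_nonneg_right (by simpa using e2) (by positivity)
    · change (pt v τ : ℝ) ≤ pt u 1
      rw [e1, pt_val]
      exact div_le_div_of_nonneg_right (by simpa using e3) (by positivity)
  have k0 : (0 : ℤ) ≤ c * 2 ^ a + j := by
    have := (g • pt v 0).2.1
    rw [key, le_div_iff₀ (by positivity)] at this
    simp only [Set.Icc.coe_zero, add_zero, zero_mul] at this
    exact_mod_cast this
  obtain ⟨K, hK⟩ := Int.eq_ofNat_of_zero_le k0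
  have hK' : (c : ℝ) * 2 ^ a + j = K := by exact_mod_cast hK
  have k1 : K < 2 ^ (r + a) := by
    have := (g • pt v 1).2.2
    rw [key, div_le_one (by positivity), hK'] at this
    simp only [Set.Icc.coe_one] at this
    exact_mod_cast this
  exact ⟨⟨K, r + a, k1⟩, rfl, fun τ => Subtype.ext (by rw [key, hK']; rfl)⟩

lemma common_depth (B : Finset ℝ) (hB : ∀ b ∈ B, IsDyadic b) :
    ∃ n : ℕ, ∀ b ∈ B, ∃ m : ℤ, b = m / 2 ^ n := by
  classical
  induction B using Finset.induction_on with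
  | empty => exact ⟨0, by simp⟩
  | insert b B _ ih =>
    obtain ⟨n, hn⟩ := ih fun x hx => hB x (Finset.mem_insert_of_mem hx)
    obtain ⟨m, k, rfl⟩ := hB b (Finset.mem_insert_self _ _)
    refine ⟨n + k, fun x hx => ?_⟩
    rcases Finset.mem_insert.1 hx with rfl | hx
    · exact ⟨m * 2 ^ n, by rw [pow_add]; push_cast; field_simp⟩
    · obtain ⟨m', rfl⟩ := hn x hx
      exact ⟨m' * 2 ^ k, by rw [pow_add]; push_cast; field_simp⟩

theorem sub_root (g : ThompsonF) : ∃ N0, ∀ N, N0 ≤ N → Sub (Af g N) root := by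
  obtain ⟨-, B, hB, hl⟩ := g.2
  obtain ⟨n, hn⟩ := common_depth B hB
  refine desc (R := fun u => ∃ N0, ∀ N, N0 ≤ N → Sub (Af g N) u) ?_ n root fun v h1 _ _ => ?_
  · rintro u ⟨a, ha⟩ ⟨b, hb⟩
    exact ⟨max a b, fun N hN => .node (ha N (le_of_max_le_left hN)) (hb N (le_of_max_le_right hN))⟩
  · have hv : v.n = n := by simpa [root] using h1
    obtain ⟨e, he⟩ := hl (pt v 0) (pt v 1) (show (pt v 0 : ℝ) < pt v 1 from
      div_lt_div_of_pos_right (by simp) (by positivity)) (by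
        rintro b hb ⟨r1, r2⟩
        obtain ⟨m, rfl⟩ := hn b hb
        rw [pt_val, hv, div_lt_div_iff_of_pos_right (by positivity)] at r1 r2
        simp only [Set.Icc.coe_zero, add_zero, Set.Icc.coe_one] at r1 r2
        have a1 : (v.k : ℤ) < m := by exact_mod_cast r1
        have a2 : m < (v.k : ℤ) + 1 := by exact_mod_cast r2
        omega)
    exact sub_of_lin g v he

end Pool.Agent.Lib.MP_24b811_al.Fr
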