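import Pool.Agent.Lib.MP_24b811_al.FrDiagram

/-!
# The commutator subgroup of this diagram group is simple
-/

set_option autoImplicit false

namespace Pool.Agent.Lib.MP_24b811_al.Fr

open unitInterval Gc
open scoped commutatorElement

/-- On the side `s` of `c` the map `g` is affine of slope `2 ^ k`. -/
def GG (s : ℝ) (g : Equiv.Perm ℝ) (c : ℝ) (k : ℤ) : Prop :=
  ∃ ε : ℝ, 0 < ε ∧ ∀ u, 0 ≤ u → u ≤ ε → g (c + s * u) = g c + s * ((2 : ℝ) ^ k * u)

lemma GG.mul {s c : ℝ} {f g : Equiv.Perm ℝ} {k l : ℤ} (hf : GG s f (g c) k) (hg : GG s g c l) :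
    GG s (f * g) c (k + l) := by
  obtain ⟨ε, h1, h2⟩ := hf
  obtain ⟨δ, h3, h4⟩ := hg
  have hl : (0 : ℝ) < 2 ^ l := by positivity
  refine ⟨min δ (ε / 2 ^ l), lt_min h3 (div_pos h1 hl), fun u u1 u2 => ?_⟩
  obtain ⟨u3, u4⟩ := le_min_iff.1 u2
  rw [le_div_iff₀' hl] at u4
  rw [Equiv.Perm.mul_apply, Equiv.Perm.mul_apply, h4 u u1 u3, h2 _ (by positivity) u4,
    zpow_add₀ (by norm_num : (2 : ℝ) ≠ 0), mul_assoc]

lemma GG.inv {s c : ℝ} {g : Equiv.Perm ℝ} {k : ℤ} (hg : GG s g c k) : GG s g⁻¹ (g c) (-k) := by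
  obtain ⟨ε, h1, h2⟩ := hg
  have hk : (0 : ℝ) < 2 ^ k := by positivity
  refine ⟨2 ^ k * ε, mul_pos hk h1, fun u u1 u2 => ?_⟩
  rw [Equiv.Perm.inv_eq_iff_eq, Equiv.Perm.coe_inv, Equiv.symm_apply_apply, zpow_neg,
    h2 _ (by positivity) ((inv_mul_le_iff₀ hk).2 u2), mul_inv_cancel_left₀ hk.ne']

lemma gg_one (s c : ℝ) : GG s 1 c 0 := ⟨1, one_pos, fun u _ _ => by simp⟩

lemma GG.zpow {s c : ℝ} {g : Equiv.Perm ℝ} {k : ℤ} (hc : g c = c) (hg : GG s g c k) (n : ℤ) :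
    GG s (g ^ n) c (k * n) := by
  have fx : ∀ n : ℤ, (g ^ n) c = c := Equiv.Perm.zpow_apply_eq_self_of_apply_eq_self hc
  induction n using Int.induction_on with
  | zero => simpa using gg_one s c
  | succ n ih =>
    rw [add_comm, zpow_add, zpow_one, mul_add, mul_one]
    exact GG.mul (by rwa [fx]) ih
  | pred n ih =>
    have h1 := hg.inv
    rw [hc] at h1
    rw [sub_eq_add_neg, add_comm, zpow_add, zpow_neg_one, mul_add, mul_neg, mul_one]
    exact GG.mul (by rwa [fx]) ih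

lemma gg_yy_left (m i : ℕ) {c : ℝ} (h : (i : ℝ) + 2 ≤ c) : GG (-1) (yy m i) c 0 :=
  ⟨1, one_pos, fun u u1 u2 => by
    rw [yy_3 _ (by linarith), yy_3 _ (by linarith), zpow_zero]
    ring⟩

lemma gg_yy_last (m i : ℕ) : GG (-1) (yy m i) (i + 1) m := by
  induction m generalizing i with
  | zero => exact gg_one _ _
  | succ m ih =>
    have h1 : GG (-1) (xe i) (i + 1) 1 := ⟨1, one_pos, fun u u1 u2 => by
      rw [xe_2 (by linarith) (by linarith), xe_2 (by linarith) le_rfl, zpow_one]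
      ring⟩
    have h2 := ih (i + 1)
    rw [Nat.cast_add, Nat.cast_one, ← xe_3 (i := i) le_rfl] at h2
    exact h2.mul h1

lemma gg_yy_right (m i : ℕ) : GG 1 (yy m (i + 1)) 0 0 :=
  ⟨1, one_pos, fun u u1 u2 => by
    have : (0 : ℝ) ≤ i := Nat.cast_nonneg i
    rw [yy_1 _ (by push_cast; linarith), yy_1 _ (by push_cast; linarith), zpow_zero]
    ring⟩

lemma gg_yy_first (m : ℕ) : GG 1 (yy (m + 1) 0) 0 1 := by
  have h1 : GG 1 (xe 0) 0 1 := ⟨1, one_pos, fun u u1 u2 => by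
    rw [xe_2 (by simpa) (by simpa), xe_1 (by simp), zpow_one]
    simp⟩
  have h2 := gg_yy_right m 0
  rw [← xe_1 (i := 0) (t := 0) (by simp)] at h2
  simpa [yy] using h2.mul h1

namespace Fo

variable {m : ℕ} {Z : Type} (F : Fo (m + 1) Z)

lemma ev_zero (z : Z) : F.ev z 0 = 0 := (F.ev_prop z).2.1 0 le_rfl

lemma ev_one (z : Z) : F.ev z 1 = F.len z := by simpa using (F.ev_prop z).2.2 1 le_rfl

lemma gg_iff {s c : ℝ} {z : Z} {i : ℕ} (hi : i < F.len z) {k : ℤ}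
    (h : GG s (yy (m + 1) i) (F.ev z c) k) (l : ℤ) :
    GG s (F.ev z) c l ↔ GG s (F.ev (F.up i z)) c (k + l) := by
  rw [F.ev_up hi]
  refine ⟨h.mul, fun h' => ?_⟩
  simpa using GG.mul (g := yy (m + 1) i * F.ev z) h.inv h'

lemma gg_zero (z : Z) : ∃ k, GG 1 (F.ev z) 0 k := by
  refine F.conn (fun z => ∃ k, GG 1 (F.ev z) 0 k) ⟨0, F.ev0 ▸ gg_one _ _⟩ (fun i z hi => ?_) z
  obtain ⟨k, hk⟩ : ∃ k, GG 1 (yy (m + 1) i) (F.ev z 0) k := by
    rw [F.ev_zero]
    cases i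
    exacts [⟨_, gg_yy_first m⟩, ⟨_, gg_yy_right _ _⟩]
  exact ⟨fun ⟨l, h⟩ => ⟨_, (F.gg_iff hi hk l).1 h⟩,
    fun ⟨l, h⟩ => ⟨l - k, (F.gg_iff hi hk _).2 (by rwa [add_sub_cancel])⟩⟩

lemma gg_one' (z : Z) : ∃ k : ℤ, GG (-1) (F.ev z) 1 ((m + 1 : ℕ) * k) := by
  refine F.conn (fun z => ∃ k : ℤ, GG (-1) (F.ev z) 1 ((m + 1 : ℕ) * k))
    ⟨0, by rw [F.ev0, mul_zero]; exact gg_one _ _⟩ (fun i z hi => ?_) z
  obtain ⟨k, hk⟩ : ∃ k : ℤ, GG (-1) (yy (m + 1) i) (F.ev z 1) ((m + 1 : ℕ) * k) := by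
    rw [F.ev_one]
    rcases (Nat.succ_le_of_lt hi).eq_or_lt with h | h
    · refine ⟨1, ?_⟩
      rw [← h, mul_one, Nat.cast_succ]
      exact gg_yy_last _ _
    · exact ⟨0, by rw [mul_zero]; exact gg_yy_left _ _ (by exact_mod_cast h)⟩
  exact ⟨fun ⟨l, h⟩ => ⟨k + l, by rw [mul_add]; exact (F.gg_iff hi hk _).1 h⟩,
    fun ⟨l, h⟩ => ⟨l - k, (F.gg_iff hi hk _).2 (by rwa [← mul_add, add_sub_cancel])⟩⟩

lemma fine' {a : ℝ} (ha : 0 < a) : ∃ z, ∀ s t : ℝ, 0 ≤ s → s + a ≤ t → t ≤ 1 →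
    2 ≤ F.ev z t - F.ev z s := by
  obtain ⟨n, hn⟩ := pow_unbounded_of_one_lt (2 / a) (one_lt_two (α := ℝ))
  rw [div_lt_iff₀ ha] at hn
  obtain ⟨z, hz⟩ := F.fine n
  refine ⟨z, fun s t h1 h2 h3 => (hn.le.trans ?_).trans (hz s t h1 (by linarith) h3)⟩
  exact mul_le_mul_of_nonneg_left (by linarith) (by positivity)

end Fo

variable {m : ℕ} {P : SemigroupPresentation Unit}
  (hP : P.rels = {([()], List.replicate (m + 1 + 1) ())}) (w : SqVertex P) (hw : w.word = [()])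

include hw in
lemma exists_pair (z : Pt w) {i : ℕ} (hi : i + 1 < z.1.word.length) : ∃ f : DiagramGroup P w,
    lin hP w f = ((fo hP w hw).ev (up hP (i + 1) z))⁻¹ * (fo hP w hw).ev (up hP i z) ∧
    ∀ t, (fo hP w hw).ev z t ≤ i ∨ (i : ℝ) + 2 ≤ (fo hP w hw).ev z t → lin hP w f t = t := by
  have hi' : i < z.1.word.length := by omega
  obtain ⟨f, hf⟩ := exists_elt hP (up hP i z) (up hP (i + 1) z)
    (by rw [(up_spec hP hi).1, (up_spec hP hi').1])
  refine ⟨f, hf _ _, fun t ht => ?_⟩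
  rw [lin, hf, (up_spec hP hi).2, (up_spec hP hi').2, Equiv.Perm.mul_apply,
    Equiv.Perm.inv_eq_iff_eq]
  change yy (m + 1) i ((fo hP w hw).ev z t) = yy (m + 1) (i + 1) ((fo hP w hw).ev z t)
  rcases ht with ht | ht
  · rw [yy_1 _ ht, yy_1 _ (by push_cast; linarith)]
  · rw [yy_3 _ (by linarith), yy_3 _ (by push_cast; linarith)]

include hw in
lemma exists_alpha {a : ℝ} (h0 : 0 < a) (h1 : a ≤ 1) : ∃ f : DiagramGroup P w,
    (∀ t, a ≤ t → lin hP w f t = t) ∧ GG 1 (lin hP w f) 0 1 := by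
  obtain ⟨z, hz⟩ := (fo hP w hw).fine' h0
  have k1 := hz 0 a le_rfl (by simp) h1
  have k2 := hz 0 1 le_rfl (by simpa) le_rfl
  rw [Fo.ev_zero, sub_zero] at k1 k2
  rw [Fo.ev_one] at k2
  have k3 : 0 + 1 < (fo hP w hw).len z := by exact_mod_cast k2
  obtain ⟨f, f1, f2⟩ := exists_pair hP w hw z k3
  refine ⟨f, fun t ht => f2 t (Or.inr ?_), ?_⟩
  · simpa using k1.trans (((fo hP w hw).ev_prop z).1.1.monotone ht)
  · obtain ⟨l, hl⟩ := (fo hP w hw).gg_zero z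
    have e1 := ((fo hP w hw).gg_iff (i := 0) (by omega) (by
      rw [Fo.ev_zero]; exact gg_yy_first m) l).1 hl
    have e2 := (((fo hP w hw).gg_iff k3 (by rw [Fo.ev_zero]; exact gg_yy_right _ _) l).1 hl).inv
    rw [Fo.ev_zero, ← (fo hP w hw).ev_zero ((fo hP w hw).up 0 z)] at e2
    have e3 := e2.mul e1
    rw [show -(0 + l) + (1 + l) = 1 by ring] at e3
    rw [f1]
    exact e3

include hw in
lemma exists_beta {b : ℝ} (h0 : 0 ≤ b) (h1 : b < 1) : ∃ f : DiagramGroup P w,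
    (∀ t, t ≤ b → lin hP w f t = t) ∧ GG (-1) (lin hP w f) 1 (-(m + 1 : ℕ)) := by
  obtain ⟨z, hz⟩ := (fo hP w hw).fine' (sub_pos.2 h1)
  have k1 := hz b 1 h0 (by simp) le_rfl
  have k2 := hz 0 1 le_rfl (by simpa) le_rfl
  rw [Fo.ev_zero, sub_zero] at k2
  rw [Fo.ev_one] at k1 k2
  obtain ⟨i, hi⟩ : ∃ i, (fo hP w hw).len z = i + 2 :=
    Nat.exists_eq_add_of_le' (by exact_mod_cast k2)
  have hi' : ((fo hP w hw).len z : ℝ) = i + 2 := by exact_mod_cast hi
  have k3 : i + 1 < (fo hP w hw).len z := by omega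
  have k4 : i < (fo hP w hw).len z := by omega
  obtain ⟨f, f1, f2⟩ := exists_pair hP w hw z k3
  refine ⟨f, fun t ht => f2 t (Or.inl ?_), ?_⟩
  · linarith [((fo hP w hw).ev_prop z).1.1.monotone ht]
  · obtain ⟨l, hl⟩ := (fo hP w hw).gg_one' z
    have e1 := ((fo hP w hw).gg_iff k4 (by
      rw [Fo.ev_one]; exact gg_yy_left _ _ hi'.ge) _).1 hl
    have e2 := (((fo hP w hw).gg_iff k3 (by
      rw [Fo.ev_one, hi', show (i : ℝ) + 2 = (i + 1 : ℕ) + 1 by push_cast; ring]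
      exact gg_yy_last _ _) _).1 hl).inv
    rw [Fo.ev_one, (fo hP w hw).len_up k3, ← (fo hP w hw).len_up k4, ← Fo.ev_one] at e2
    have e3 := e2.mul e1
    rw [show -(((m + 1 : ℕ) : ℤ) + (m + 1 : ℕ) * l) + (0 + (m + 1 : ℕ) * l) = -(m + 1 : ℕ) by ring]
      at e3
    rw [f1]
    exact e3

lemma gg_fix {s c a : ℝ} {g : Equiv.Perm ℝ} (ha : 0 < a)
    (h : ∀ u, 0 ≤ u → u ≤ a → g (c + s * u) = c + s * u) : GG s g c 0 :=
  ⟨a, ha, fun u u1 u2 => by
    have := h 0 le_rfl ha.le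
    rw [mul_zero, add_zero] at this
    rw [h u u1 u2, this, zpow_zero, one_mul]⟩

/-- Every element is a compactly supported one times powers of two elements near the ends. -/
lemma decomp {a b : I} (ha : a < 1) (hb : 0 < b) {α β : DiagramGroup P w}
    (a1 : ∀ t, (a : ℝ) ≤ t → lin hP w α t = t) (a2 : GG 1 (lin hP w α) 0 1)
    (b1 : ∀ t, t ≤ (b : ℝ) → lin hP w β t = t) (b2 : GG (-1) (lin hP w β) 1 (-(m + 1 : ℕ)))
    (f : DiagramGroup P w) :
    ∃ k l : ℤ, imgEquiv hP w hw (f * α ^ k * β ^ l) ∈ cpt (img hP w hw) I := by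
  obtain ⟨k, hk⟩ := (fo hP w hw).gg_zero ⟨w, f⟩
  obtain ⟨l, hl⟩ := (fo hP w hw).gg_one' ⟨w, f⟩
  change GG 1 (lin hP w f) 0 k at hk
  change GG (-1) (lin hP w f) 1 _ at hl
  have z0 := fun g => (lin_prop hP w hw g).2.1 0 le_rfl
  have z1 := fun g => (lin_prop hP w hw g).2.2 1 le_rfl
  have a3 : GG (-1) (lin hP w α) 1 0 :=
    gg_fix (sub_pos.2 (show (a : ℝ) < 1 from ha)) fun u _ u2 => a1 _ (by linarith)
  have b3 : GG 1 (lin hP w β) 0 0 :=
    gg_fix (show (0 : ℝ) < b from hb) fun u _ u2 => b1 _ (by linarith)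
  have key : ∀ {s c : ℝ} {p q r : ℤ}, (∀ g, lin hP w g c = c) → GG s (lin hP w f) c p →
      GG s (lin hP w α) c q → GG s (lin hP w β) c r → p + q * -k + r * l = 0 →
      ∃ ε : ℝ, 0 < ε ∧ ∀ u, 0 ≤ u → u ≤ ε →
        lin hP w (f * α ^ (-k) * β ^ l) (c + s * u) = c + s * u := by
    intro s c p q r h0 h1 h2 h3 h4
    have h5 := h2.zpow (h0 _) (-k)
    have h6 := h3.zpow (h0 _) l
    rw [← map_zpow] at h5 h6
    have h7 := GG.mul (f := lin hP w f) (k := p) (by rwa [h0]) h5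
    rw [← map_mul] at h7
    have h8 := GG.mul (f := lin hP w (f * α ^ (-k))) (k := p + q * -k) (by rwa [h0]) h6
    rw [← map_mul, h4] at h8
    obtain ⟨ε, e1, e2⟩ := h8
    exact ⟨ε, e1, fun u u1 u2 => by rw [e2 u u1 u2, h0, zpow_zero, one_mul]⟩
  obtain ⟨ε, e1, e2⟩ := key z0 hk a2 b3 (by ring)
  obtain ⟨δ, d1, d2⟩ := key z1 hl a3 b2 (by ring)
  refine ⟨-k, l, ⟨min ε 1, (lt_min e1 one_pos).le, min_le_right _ _⟩,
    ⟨max (1 - δ) 0, le_max_right _ _, max_le (by linarith) zero_le_one⟩,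
    show (0 : ℝ) < min ε 1 from lt_min e1 one_pos,
    show max (1 - δ) 0 < (1 : ℝ) from max_lt (by linarith) one_pos, fun y hy => Subtype.ext ?_⟩
  change lin hP w (f * α ^ (-k) * β ^ l) y = y
  rcases hy with hy | hy
  · simpa using e2 y y.2.1 (le_trans hy (min_le_left _ _))
  · have h1 : 1 - δ ≤ (y : ℝ) := le_trans (le_max_left _ _) hy
    simpa using d2 (1 - y) (sub_nonneg.2 y.2.2) (by linarith)

lemma comm_cpt (h c : img hP w hw) (hc : c ∈ cpt (img hP w hw) I) :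
    ⁅h, c⁆ ∈ ⁅cpt (img hP w hw) I, cpt (img hP w hw) I⁆ := by
  obtain ⟨a, b, h1, h2, h3⟩ := id hc
  obtain ⟨a', r1, r2⟩ := exists_between (lt_min h1 (zero_lt_one (α := I)))
  obtain ⟨b', r3, r4⟩ := exists_between (max_lt h2 (zero_lt_one (α := I)))
  obtain ⟨α, a1, a2⟩ := exists_alpha hP w hw (a := a') r1 a'.2.2
  obtain ⟨β, b1, b2⟩ := exists_beta hP w hw (b := b') b'.2.1 r4
  obtain ⟨f, rfl⟩ := (imgEquiv hP w hw).surjective h
  obtain ⟨k, l, hkl⟩ := decomp hP w hw (r2.trans_le (min_le_right _ _))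
    ((le_max_right _ _).trans_lt r3) a1 a2 b1 b2 f
  have c1 : Commute (imgEquiv hP w hw α) c := commute_of_disj (lm_range hP w hw).faith
    fun y : I => (le_total a' y).imp (fun h => Subtype.ext (a1 y h))
      fun h => h3 y (Or.inl (h.trans (r2.le.trans (min_le_left _ _))))
  have c2 : Commute (imgEquiv hP w hw β) c := commute_of_disj (lm_range hP w hw).faith
    fun y : I => (le_total y b').imp (fun h => Subtype.ext (b1 y h))
      fun h => h3 y (Or.inr (((le_max_left _ _).trans r3.le).trans h))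
  have c3 := (c1.zpow_left k).mul_left (c2.zpow_left l)
  have c4 := Subgroup.commutator_mem_commutator hkl hc
  rw [map_mul, map_mul, map_zpow, map_zpow, mul_assoc] at c4
  generalize imgEquiv hP w hw α ^ k * imgEquiv hP w hw β ^ l = u at c3 c4
  convert c4 using 1
  rw [commutatorElement_def, commutatorElement_def, mul_assoc _ u, c3.eq]
  group

theorem commutator_eq :
    commutator (img hP w hw) = ⁅cpt (img hP w hw) I, cpt (img hP w hw) I⁆ := by
  refine le_antisymm ?_ (Subgroup.commutator_mono le_top le_top)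
  have := (lm_range hP w hw).cpt_normal
  obtain ⟨a, r1, r2⟩ := exists_between (zero_lt_one (α := I))
  obtain ⟨α, a1, a2⟩ := exists_alpha hP w hw (a := a) r1 a.2.2
  obtain ⟨β, b1, b2⟩ := exists_beta hP w hw (b := a) a.2.1 r2
  let π := QuotientGroup.mk' ⁅cpt (img hP w hw) I, cpt (img hP w hw) I⁆
  have k1 : ∀ h c, c ∈ cpt (img hP w hw) I → Commute (π h) (π c) := fun h c hc => by
    rw [← commutatorElement_eq_one_iff_commute, ← map_commutatorElement]
    exact (QuotientGroup.eq_one_iff _).2 (comm_cpt hP w hw h c hc)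
  have k2 : Commute (imgEquiv hP w hw α) (imgEquiv hP w hw β) :=
    commute_of_disj (lm_range hP w hw).faith fun y : I =>
      (le_total a y).imp (fun h => Subtype.ext (a1 y h)) fun h => Subtype.ext (b1 y h)
  have k3 : ∀ g h, Commute g (π (imgEquiv hP w hw α)) → Commute g (π (imgEquiv hP w hw β)) →
      Commute g (π h) := fun g h h1 h2 => by
    obtain ⟨g, rfl⟩ := QuotientGroup.mk'_surjective _ g
    obtain ⟨f, rfl⟩ := (imgEquiv hP w hw).surjective h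
    obtain ⟨k, l, hkl⟩ := decomp hP w hw r2 r1 a1 a2 b1 b2 f
    have h3 := ((k1 g _ hkl).mul_right (h2.zpow_right (-l))).mul_right (h1.zpow_right (-k))
    simpa only [map_mul, map_zpow, zpow_neg, mul_inv_cancel_right] using h3
  refine (Subgroup.commutator_le ..).2 fun g _ h _ => (QuotientGroup.eq_one_iff _).1 ?_
  change π ⁅g, h⁆ = 1
  rw [map_commutatorElement, commutatorElement_eq_one_iff_commute]
  exact k3 _ _ (k3 _ _ (Commute.refl _) (k2.map π)).symm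
    (k3 _ _ (k2.map π).symm (Commute.refl _)).symm

theorem simple_range : IsSimpleGroup (commutator (img hP w hw)) := by
  have H : LM (cpt (img hP w hw) I) I :=
    (lm_range hP w hw).lm_of_le (Subgroup.commutator_le_self _)
  have := H.simple (eq_top_iff.2 fun g _ => g.2)
  have e := (commutator (cpt (img hP w hw) I)).equivMapOfInjective _
    (cpt (img hP w hw) I).subtype_injective
  rw [Subgroup.map_subtype_commutator, ← commutator_eq] at e
  exact e.symm.isSimpleGroup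

end Pool.Agent.Lib.MP_24b811_al.Fr
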