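import Pool.Agent.Lib.MP_24b811_al.FrClosed
import Pool.Agent.Lib.MP_24b811_al.FrLev
import Pool.Agent.Lib.MP_24b811_al.FrForest2

/-!
# A presentation with intervals, counters and markers
-/

set_option autoImplicit false

namespace Pool.Agent.Lib.MP_24b811_al.Fr

open CategoryTheory unitInterval Gc List

universe u

/-- The letters: classes of intervals, three counters and a marker. -/
inductive Lz (H : Subgroup ThompsonF) : Type u
  | tile : Lt.{u} H → Lz H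
  | e : Lz H
  | eb : Lz H
  | f : Lz H
  | M : Lz H

variable {H : Subgroup ThompsonF}

/-- The letter of an interval. -/
def T (H : Subgroup ThompsonF) (v : Nd) : Lz.{u} H := .tile (cls H v)

/-- Interval letters. -/
def Lz.isT : Lz.{u} H → Bool
  | .tile _ => true
  | _ => false

/-- The number of interval letters. -/
def nt (l : List (Lz.{u} H)) : ℕ := l.countP Lz.isT

@[simp] lemma nt_nil : nt ([] : List (Lz.{u} H)) = 0 := rfl
@[simp] lemma nt_append (a b : List (Lz.{u} H)) : nt (a ++ b) = nt a + nt b := countP_append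
@[simp] lemma nt_T (v : Nd) (l : List (Lz.{u} H)) : nt (T H v :: l) = nt l + 1 := by
  simp [nt, T, Lz.isT]
@[simp] lemma nt_e (l : List (Lz.{u} H)) : nt (.e :: l) = nt l := by simp [nt, Lz.isT]
@[simp] lemma nt_eb (l : List (Lz.{u} H)) : nt (.eb :: l) = nt l := by simp [nt, Lz.isT]
@[simp] lemma nt_f (l : List (Lz.{u} H)) : nt (.f :: l) = nt l := by simp [nt, Lz.isT]
@[simp] lemma nt_M (l : List (Lz.{u} H)) : nt (.M :: l) = nt l := by simp [nt, Lz.isT]
@[simp] lemma nt_re (n : ℕ) : nt (replicate n (.e : Lz.{u} H)) = 0 := by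
  simp [nt, Lz.isT, countP_replicate]
@[simp] lemma nt_reb (n : ℕ) : nt (replicate n (.eb : Lz.{u} H)) = 0 := by
  simp [nt, Lz.isT, countP_replicate]
@[simp] lemma nt_rf (n : ℕ) : nt (replicate n (.f : Lz.{u} H)) = 0 := by
  simp [nt, Lz.isT, countP_replicate]

lemma splitT {l : List (Lz.{u} H)} {i : ℕ} (h : i < nt l) :
    ∃ a v b, l = a ++ T H v :: b ∧ nt a = i := by
  induction l generalizing i with
  | nil => simp at h
  | cons x l ih =>
    have key : nt (x :: l) = nt l → nt [x] = 0 → ∃ a v b, x :: l = a ++ T H v :: b ∧ nt a = i :=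
      fun h1 h2 => by
        obtain ⟨a, v, b, rfl, rfl⟩ := ih (h1 ▸ h)
        exact ⟨[x] ++ a, v, b, rfl, by rw [nt_append, h2, zero_add]⟩
    cases x with
    | tile s =>
      obtain ⟨v, rfl⟩ := cls_surj s
      cases i with
      | zero => exact ⟨[], v, l, rfl, rfl⟩
      | succ i =>
        obtain ⟨a, v', b, rfl, rfl⟩ := ih (i := i) (by
          change i + 1 < nt (T H v :: l) at h
          simpa using h)
        exact ⟨T H v :: a, v', b, rfl, by simp⟩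
    | _ => exact key (by simp) (by simp)

lemma split_mem {a b a' b' x : List (Lz.{u} H)} {v : Nd} (h : a ++ x ++ b = a' ++ T H v :: b')
    (hx : nt x = 0) : (∃ m, a = a' ++ T H v :: m ∧ b' = m ++ x ++ b) ∨
      ∃ m, b = m ++ T H v :: b' ∧ a' = a ++ x ++ m := by
  rcases append_eq_append_iff.1 h with ⟨m, h1, h2⟩ | ⟨m, h1, h2⟩
  · exact Or.inr ⟨m, h2, h1⟩
  rcases m with _ | ⟨y, m⟩
  · exact Or.inr ⟨[], by simpa using h2.symm, by simpa using h1.symm⟩
  obtain ⟨rfl, rfl⟩ := cons.inj h2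
  rcases append_eq_append_iff.1 h1 with ⟨n, h3, h4⟩ | ⟨n, h3, h4⟩
  · rw [h4] at hx
    simp at hx
  rcases n with _ | ⟨y, n⟩
  · rw [← nil_append x, ← h4] at hx
    simp at hx
  obtain ⟨rfl, rfl⟩ := cons.inj h4
  exact Or.inl ⟨n, h3, rfl⟩

lemma uniqT {a b a' b' : List (Lz.{u} H)} {v v' : Nd} (h : a ++ T H v :: b = a' ++ T H v' :: b')
    (hn : nt a = nt a') : a = a' ∧ cls.{u} H v = cls H v' ∧ b = b' := by
  have key : a = a' := by
    rcases append_eq_append_iff.1 h with ⟨m, h1, h2⟩ | ⟨m, h1, h2⟩ <;>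
      rcases m with _ | ⟨y, m⟩
    · simpa using h1.symm
    · rw [h1, ← (cons.inj h2).1] at hn
      simp at hn
    · simpa using h1
    · rw [h1, ← (cons.inj h2).1] at hn
      simp at hn
  subst key
  obtain ⟨h1, h2⟩ := cons.inj (append_cancel_left h)
  exact ⟨rfl, Lz.tile.inj h1, h2⟩

variable (Λ : Lev H)

/-- The level at the midpoint when an interval is halved. -/
noncomputable def cr (v : Nd) : ℤ :=
  (Λ.A (pt (c1 v) 0) + Λ.B (pt (c1 v) 0)) * (v.n + 1) + Λ.C (pt (c1 v) 0)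

/-- The word that replaces the letter of an interval. -/
noncomputable def rhs (v : Nd) : List (Lz.{u} H) :=
  replicate (-Λ.B (pt v 0)).toNat .eb ++ replicate (Λ.B (pt v 0)).toNat .f ++ T H (c0 v) ::
    (replicate (cr Λ v).toNat .e ++ .M :: (replicate (-cr Λ v).toNat .eb ++ T H (c1 v) ::
      replicate (Λ.A (pt v 1)).toNat .e))

lemma mid_pos (v : Nd) : 0 < pt (c1 v) 0 :=
  pt_mid v ▸ lt_of_le_of_lt (pt (c0 v) 0).2.1 (pt_lt (c0 v))

lemma left_lt (v : Nd) : pt v 0 < 1 := (pt_lt v).trans_le (pt v 1).2.2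

lemma rhs_congr {v v' : Nd} (h : cls.{u} H v = cls H v') : rhs.{u} Λ v = rhs Λ v' := by
  have h0 := cls_eq.{u}.2 (sd_c0 (cls_eq.1 h))
  have h1 := cls_eq.{u}.2 (sd_c1 (cls_eq.1 h))
  obtain ⟨g, hg, e⟩ := cls_eq.1 h
  have e0 : ∀ τ, g • pt (c0 v) τ = pt (c0 v') τ := fun τ => by rw [pt_c0, pt_c0, e]
  have e1 : ∀ τ, g • pt (c1 v) τ = pt (c1 v') τ := fun τ => by rw [pt_c1, pt_c1, e]
  have k : cr Λ v = cr Λ v' := by
    have a0 := (sl_aff e0).2
    have a1 := (sl_aff e1).1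
    rw [pt_mid] at a0
    rw [cr, cr, ← e1, Λ.A_smul g hg, Λ.B_smul g hg, Λ.C_smul g hg _ (mid_pos v) (left_lt _), a0, a1]
    simp only [c0, c1]
    push_cast
    ring
  rw [rhs, rhs, T, T, T, T, h0, h1, k, ← e, ← e, Λ.A_smul g hg, Λ.B_smul g hg]

/-- The presentation. -/
def prez : SemigroupPresentation (Lz.{u} H) where
  rels := {r | (∃ v, r = ([T H v], rhs Λ v)) ∨ r = ([.e, .M, .eb], [.M]) ∨
    r = ([.M, .f], [.e, .M])}
  lhs_ne_nil := by rintro _ (⟨v, rfl⟩ | rfl | rfl) <;> simp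
  rhs_ne_nil := by rintro _ (⟨v, rfl⟩ | rfl | rfl) <;> simp [rhs]

/-- The relation of an interval. -/
noncomputable def rS (v : Nd) : (prez.{u} Λ).rels := ⟨_, Or.inl ⟨v, rfl⟩⟩

/-- The cancelling relation. -/
def r1 : (prez.{u} Λ).rels := ⟨_, Or.inr (Or.inl rfl)⟩

/-- The shifting relation. -/
def r2 : (prez.{u} Λ).rels := ⟨_, Or.inr (Or.inr rfl)⟩

/-- The base word. -/
def wz : SqVertex (prez.{u} Λ) := ⟨[T H root, .M], by simp⟩

variable {Λ}

lemma rel_cases (r : (prez.{u} Λ).rels) : (∃ v, r = rS Λ v) ∨ r = r1 Λ ∨ r = r2 Λ := by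
  obtain ⟨_, ⟨v, rfl⟩ | rfl | rfl⟩ := r
  exacts [Or.inl ⟨v, rfl⟩, Or.inr (Or.inl rfl), Or.inr (Or.inr rfl)]

lemma nt_rhs (v : Nd) : nt (rhs.{u} Λ v) = 2 := by simp [rhs]

lemma rel_nt (r : (prez.{u} Λ).rels) :
    (nt r.1.1 = 1 ∧ nt r.1.2 = 2) ∨ (nt r.1.1 = 0 ∧ nt r.1.2 = 0) := by
  rcases rel_cases r with ⟨v, rfl⟩ | rfl | rfl
  · exact Or.inl ⟨by simp [rS], nt_rhs v⟩
  · exact Or.inr ⟨by simp [r1], by simp [r1]⟩
  · exact Or.inr ⟨by simp [r2], by simp [r2]⟩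

lemma rS_congr {v v' : Nd} (h : cls.{u} H v = cls H v') : rS.{u} Λ v = rS Λ v' :=
  Subtype.ext (by simp only [rS, T, h, rhs_congr Λ h])

/-- The map of a relation. -/
noncomputable def yv (r : (prez.{u} Λ).rels) (i : ℕ) : Equiv.Perm ℝ :=
  if nt r.1.1 = 0 then 1 else xe i

variable (Λ) in
/-- The maps of the edges. -/
noncomputable def preZ : SqVertex (prez.{u} Λ) ⥤q SingleObj (Equiv.Perm ℝ) where
  obj _ := SingleObj.star _
  map e := yv e.1.rel (nt e.1.left)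

lemma lift_preZ {v w : SqVertex (prez.{u} Λ)} (e : v ⟶ w) :
    (Quiver.FreeGroupoid.lift (preZ Λ)).map
      ((Quiver.FreeGroupoid.of (SqVertex (prez Λ))).map e) = yv e.1.rel (nt e.1.left) :=
  congrArg (fun F : SqVertex (prez Λ) ⥤q SingleObj (Equiv.Perm ℝ) =>
    (show Equiv.Perm ℝ from F.map e)) (Quiver.FreeGroupoid.lift_spec (preZ Λ))

variable (Λ) in
/-- The functor to the maps of the line. -/
noncomputable def evZ : SquierGroupoid (prez.{u} Λ) ⥤ SingleObj (Equiv.Perm ℝ) :=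
  CategoryTheory.Quotient.lift _ (Quiver.FreeGroupoid.lift (preZ Λ)) (by
    rintro _ _ _ _ ⟨a, b, d, r, s, v₁, v₂, v₃, v₄, e₁, e₂, e₃, e₄, h₁, h₂, h₃, h₄⟩
    rw [Functor.map_comp, Functor.map_comp]
    rw [lift_preZ, lift_preZ, lift_preZ, lift_preZ]
    change yv _ _ * yv _ _ = yv _ _ * yv _ _
    rw [h₁, h₂, h₃, h₄]
    have := xe_rel (i := nt a) (j := nt a + 1 + nt b) (by omega)
    rw [show nt a + 1 + nt b + 1 = nt a + 2 + nt b by omega] at this
    rcases rel_nt r with k | k <;> rcases rel_nt s with k' | k' <;>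
      simp [yv, k.1, k.2, k'.1, ← add_assoc, this])

/-- The value on a morphism. -/
noncomputable def vz {X Y : SquierGroupoid (prez.{u} Λ)} (f : X ⟶ Y) : Equiv.Perm ℝ :=
  (evZ Λ).map f

lemma vz_comp {X Y Z : SquierGroupoid (prez.{u} Λ)} (f : X ⟶ Y) (g : Y ⟶ Z) :
    vz (f ≫ g) = vz g * vz f := (evZ Λ).map_comp f g

lemma vz_id (X : SquierGroupoid (prez.{u} Λ)) : vz (𝟙 X) = 1 := (evZ Λ).map_id X

lemma vz_edge {v w : SqVertex (prez.{u} Λ)} (e : v ⟶ w) :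
    vz (edgeHom e) = yv e.1.rel (nt e.1.left) := lift_preZ e

lemma vz_inv {X Y : SquierGroupoid (prez.{u} Λ)} (f : X ⟶ Y) :
    vz (Groupoid.inv f) = (vz f)⁻¹ := by
  rw [eq_inv_iff_mul_eq_one, ← vz_comp, Groupoid.comp_inv, vz_id]

/-- A relation applied from left to right. -/
noncomputable def fw (z : Pt (wz.{u} Λ)) (a : List (Lz H)) (r : (prez.{u} Λ).rels) : Pt (wz Λ) :=
  pext z (a.length, (r, true))

variable {z z' : Pt (wz.{u} Λ)} {a b c : List (Lz.{u} H)} {r s : (prez.{u} Λ).rels} {v : Nd}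

lemma fw_wd (h : z.1.word = a ++ r.1.1 ++ b) : (fw z a r).1.word = a ++ r.1.2 ++ b :=
  (ptSet _).wd_ext (m := (r, true)) trivial h

lemma fw_ev (h : z.1.word = a ++ r.1.1 ++ b) : vz (fw z a r).2 = yv r (nt a) * vz z.2 := by
  rw [fw, pext_eq z (m := (r, true)) rfl h (nv a b _) rfl]
  exact (vz_comp _ _).trans (congrArg (· * _) (vz_edge _))

lemma fw_sq (h : z.1.word = a ++ r.1.1 ++ b ++ s.1.1 ++ c) :
    fw (fw z a r) (a ++ r.1.2 ++ b) s = fw (fw z (a ++ r.1.1 ++ b) s) a r := by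
  have := (ptSet (wz Λ)).square (m := (r, true)) (m' := (s, true)) trivial h
  simp only [fw, length_append]
  exact this

lemma fw_inj (h : z.1.word = a ++ r.1.1 ++ b) (h' : z'.1.word = a ++ r.1.1 ++ b)
    (e : fw z a r = fw z' a r) : z = z' :=
  ((ptSet _).cancel (m := (r, true)) trivial h).symm.trans
    ((congrArg (fun x => pext x _) e).trans ((ptSet _).cancel (m := (r, true)) trivial h'))

open Classical in
/-- Halving of the interval number `i`. -/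
noncomputable def uz (i : ℕ) (z : Pt (wz.{u} Λ)) : Pt (wz Λ) :=
  if h : ∃ p : List (Lz H) × Nd × List (Lz H), z.1.word = p.1 ++ T H p.2.1 :: p.2.2 ∧ nt p.1 = i
  then fw z h.choose.1 (rS Λ h.choose.2.1) else z

lemma uz_eq (h : z.1.word = a ++ T H v :: b) : uz (nt a) z = fw z a (rS Λ v) := by
  have h1 : ∃ p : List (Lz H) × Nd × List (Lz H),
      z.1.word = p.1 ++ T H p.2.1 :: p.2.2 ∧ nt p.1 = nt a := ⟨(a, v, b), h, rfl⟩
  obtain ⟨k1, k2, -⟩ := uniqT (h1.choose_spec.1.symm.trans h) h1.choose_spec.2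
  rw [uz, dif_pos h1, k1, rS_congr k2]

lemma wS (h : z.1.word = a ++ T H v :: b) : z.1.word = a ++ (rS Λ v).1.1 ++ b := by
  simp [h, rS]

lemma uz_wd (h : z.1.word = a ++ T H v :: b) : (uz (nt a) z).1.word = a ++ rhs Λ v ++ b := by
  rw [uz_eq h, fw_wd (wS h)]
  rfl

lemma uz_ev (h : z.1.word = a ++ T H v :: b) : vz (uz (nt a) z).2 = xe (nt a) * vz z.2 := by
  rw [uz_eq h, fw_ev (wS h)]
  simp [yv, rS]

/-- A move of counters. -/
def Rz (z y : Pt (wz.{u} Λ)) : Prop :=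
  ∃ a b r, nt r.1.1 = 0 ∧ z.1.word = a ++ r.1.1 ++ b ∧ y = fw z a r

lemma cases0 (h : nt r.1.1 = 0) : r = r1 Λ ∨ r = r2 Λ :=
  (rel_cases r).resolve_left (by rintro ⟨v, rfl⟩; simp [rS] at h)

lemma uz_conn (Q : Pt (wz.{u} Λ) → Prop) (h0 : Q ⟨wz Λ, 𝟙 _⟩)
    (h : ∀ i z, i < nt z.1.word → (Q z ↔ Q (uz i z))) (h' : ∀ z y, Rz z y → (Q z ↔ Q y))
    (z : Pt (wz Λ)) : Q z := by
  have ed : ∀ {v v' : SqVertex (prez.{u} Λ)} (e : v ⟶ v') (g : vtx (wz Λ) ⟶ vtx v),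
      Q ⟨v, g⟩ ↔ Q ⟨v', g ≫ edgeHom e⟩ := by
    intro v v' e g
    have e1 : fw ⟨v, g⟩ e.1.left e.1.rel = ⟨v', g ≫ edgeHom e⟩ :=
      pext_eq (⟨v, g⟩ : Pt _) (m := (e.1.rel, true)) rfl e.2.1.symm v' e.2.2.symm
    have e2 : v.word = e.1.left ++ e.1.rel.1.1 ++ e.1.right := e.2.1.symm
    rw [← e1]
    rcases rel_cases e.1.rel with ⟨x, hx⟩ | hx
    · have e3 : v.word = e.1.left ++ T H x :: e.1.right := by simpa [hx, rS] using e2
      rw [hx, ← uz_eq (z := ⟨v, g⟩) e3]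
      exact h _ _ (by have := congrArg nt e3; simp at this; dsimp only; omega)
    · exact h' _ _ ⟨_, _, _, by rcases hx with hx | hx <;> simp [hx, r1, r2], e2, rfl⟩
  have key : ∀ {X Y : SquierGroupoid (prez.{u} Λ)} (f : X ⟶ Y) (g : vtx (wz Λ) ⟶ X),
      Q ⟨X.as.as, g⟩ → Q ⟨Y.as.as, g ≫ f⟩ := by
    intro X Y f
    induction f using hom_induction with
    | hid X =>
      exact fun g k => (congrArg (fun f => Q ⟨X.as.as, f⟩) (Category.comp_id g)).mpr k
    | hpos X v v' f e ih =>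
      intro g k
      have := (ed e (g ≫ f)).1 (ih g k)
      rwa [Category.assoc] at this
    | hneg X v v' f e ih =>
      intro g k
      refine (ed e (g ≫ f ≫ Groupoid.inv (edgeHom e))).2 ?_
      rw [Category.assoc, Category.assoc, Groupoid.inv_comp, Category.comp_id]
      exact ih g k
  have := key z.2 (𝟙 _) h0
  rwa [Category.id_comp] at this

lemma uz_sq {i j : ℕ} (h : i < j) (hj : j < nt z.1.word) :
    uz (j + 1) (uz i z) = uz i (uz j z) := by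
  obtain ⟨a', v', c, h1, rfl⟩ := splitT hj
  obtain ⟨a, v, b, rfl, rfl⟩ := splitT h
  have h2 : z.1.word = a ++ T H v :: (b ++ T H v' :: c) := by simp [h1]
  have e3 := uz_eq (z := uz (nt a) z) (a := a ++ rhs Λ v ++ b) (b := c) (v := v')
    (by rw [uz_wd h2]; simp)
  have e4 := uz_eq (z := uz (nt (a ++ T H v :: b)) z) (a := a) (b := b ++ rhs Λ v' ++ c) (v := v)
    (by rw [uz_wd h1]; simp)
  rw [show nt (a ++ T H v :: b) + 1 = nt (a ++ rhs Λ v ++ b) by simp [nt_rhs]; omega, e3, e4,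
    uz_eq h1, uz_eq h2]
  have := fw_sq (z := z) (a := a) (b := b) (c := c) (r := rS Λ v) (s := rS Λ v')
    (by simp [h1, rS])
  simpa [rS] using this

/-- A measure that decreases under the moves of counters. -/
def mz : List (Lz.{u} H) → ℕ
  | [] => 0
  | .M :: l => l.length + mz l
  | _ :: l => mz l

lemma mz_lt {x y : List (Lz.{u} H)} (h1 : y.length ≤ x.length) (h2 : mz y < mz x)
    (a : List (Lz.{u} H)) : mz (a ++ y) < mz (a ++ x) := by
  induction a with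
  | nil => exact h2
  | cons t a ih =>
    cases t <;> simp only [cons_append, mz, length_append] <;> omega

lemma Rz.len {y : Pt (wz.{u} Λ)} (h : Rz z y) :
    nt y.1.word = nt z.1.word ∧ vz y.2 = vz z.2 ∧ mz y.1.word < mz z.1.word := by
  obtain ⟨a, b, r, h1, h2, rfl⟩ := h
  refine ⟨?_, by rw [fw_ev h2, yv, if_pos h1, one_mul], ?_⟩ <;> rw [fw_wd h2, h2]
  · rcases cases0 h1 with rfl | rfl <;> simp [r1, r2]
  · rw [append_assoc, append_assoc]
    rcases cases0 h1 with rfl | rfl <;> exact mz_lt (by simp [r1, r2]) (by simp [r1, r2, mz]) a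

lemma Rz.up {y : Pt (wz.{u} Λ)} {i : ℕ} (h : Rz z y) (hi : i < nt z.1.word) :
    Rz (uz i z) (uz i y) := by
  obtain ⟨a, b, r, h1, h2, rfl⟩ := h
  obtain ⟨a', v, b', h3, rfl⟩ := splitT hi
  have h4 : nt r.1.2 = 0 := by rcases rel_nt r with k | k <;> omega
  rcases split_mem (h2.symm.trans h3) h1 with ⟨m, rfl, rfl⟩ | ⟨m, rfl, rfl⟩
  · refine ⟨a' ++ rhs Λ v ++ m, b, r, h1, by rw [uz_wd h3]; simp, ?_⟩
    rw [uz_eq (b := m ++ r.1.2 ++ b) (v := v) (by rw [fw_wd h2]; simp), uz_eq h3]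
    have := fw_sq (z := z) (a := a') (b := m) (c := b) (r := rS Λ v) (s := r) (by simp [h2, rS])
    simpa [rS] using this.symm
  · refine ⟨a, m ++ rhs Λ v ++ b', r, h1, by rw [uz_wd h3]; simp, ?_⟩
    rw [uz_eq h3, show nt (a ++ r.1.1 ++ m) = nt (a ++ r.1.2 ++ m) by simp [h1, h4],
      uz_eq (b := b') (v := v) (by rw [fw_wd h2]; simp)]
    exact fw_sq (c := b') (by simp [h2, rS])

lemma ovl {m b b' : List (Lz.{u} H)} (hr : nt r.1.1 = 0) (hs : nt s.1.1 = 0)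
    (h : r.1.1 ++ b = m ++ (s.1.1 ++ b')) : (m = [] ∧ r = s) ∨ ∃ m', m = r.1.1 ++ m' := by
  rcases cases0 hr with rfl | rfl <;> rcases cases0 hs with rfl | rfl <;>
    rcases m with _ | ⟨_, _ | ⟨_, _ | ⟨_, m⟩⟩⟩ <;> simp_all [r1, r2]

lemma Rz.dia {x y : Pt (wz.{u} Λ)} (h : Rz z x) (h' : Rz z y) :
    x = y ∨ ∃ c, Rz x c ∧ Rz y c := by
  have key : ∀ {a b m b' : List (Lz.{u} H)} {r s : (prez.{u} Λ).rels}, nt r.1.1 = 0 →
      nt s.1.1 = 0 → z.1.word = a ++ r.1.1 ++ b → r.1.1 ++ b = m ++ (s.1.1 ++ b') →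
      fw z a r = fw z (a ++ m) s ∨ ∃ c, Rz (fw z a r) c ∧ Rz (fw z (a ++ m) s) c := by
    intro a b m b' r s h1 h2 h3 h4
    rcases ovl h1 h2 h4 with ⟨rfl, rfl⟩ | ⟨m', rfl⟩
    · simp
    obtain rfl : b = m' ++ (s.1.1 ++ b') := by simpa using h4
    refine Or.inr ⟨_, ⟨a ++ r.1.2 ++ m', b', s, h2, by rw [fw_wd h3]; simp, rfl⟩,
      a, m' ++ s.1.2 ++ b', r, h1, by rw [fw_wd (b := b') (by simp [h3])]; simp, ?_⟩
    rw [← append_assoc]
    exact fw_sq (c := b') (by simp [h3])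
  obtain ⟨a, b, r, h1, h2, rfl⟩ := h
  obtain ⟨a', b', s, h3, h4, rfl⟩ := h'
  have h5 := h2.symm.trans h4
  rw [append_assoc, append_assoc] at h5
  rcases append_eq_append_iff.1 h5 with ⟨m, rfl, k⟩ | ⟨m, rfl, k⟩
  · exact key h1 h3 h2 k
  · exact (key h3 h1 h4 k).imp Eq.symm fun ⟨c, k1, k2⟩ => ⟨c, k2, k1⟩

variable (Λ) in
/-- The universal cover with its moves. -/
noncomputable def fz : Fp (Pt (wz.{u} Λ)) (List (Lz.{u} H)) where
  wd z := z.1.word
  len := nt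
  mu := mz
  up := uz
  R := Rz
  ev z := vz z.2
  len_up h := by
    obtain ⟨a, v, b, e, rfl⟩ := splitT h
    rw [uz_wd e, e]
    simp [nt_rhs]
    omega
  sq := uz_sq
  inj := fun {i z z'} h hw => by
    obtain ⟨a, v, b, e, rfl⟩ := splitT h
    have e' := hw ▸ e
    exact ⟨by rw [uz_wd e, uz_wd e'], fun k => fw_inj (wS e) (wS e') (by
      rwa [← uz_eq e, ← uz_eq e'])⟩
  ev_up h := by
    obtain ⟨a, v, b, e, rfl⟩ := splitT h
    exact uz_ev e
  R_len := Rz.len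
  R_up := Rz.up
  R_dia := Rz.dia
  R_wd := by
    rintro z z' _ hw ⟨a, b, r, h1, h2, rfl⟩
    have h3 := hw ▸ h2
    exact ⟨_, ⟨a, b, r, h1, h3, rfl⟩, by rw [fw_wd h2, fw_wd h3], fw_inj h2 h3⟩
  z0 := ⟨wz Λ, 𝟙 _⟩
  len0 := by simp [wz]
  ev0 := vz_id _
  conn := uz_conn

end Pool.Agent.Lib.MP_24b811_al.Fr
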