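import Pool.Agent.Lib.MP_24b811_al.GcSplit

/-!
# Lengths, and conjugation of a loop to a loop all of whose powers are geodesic
-/

set_option autoImplicit false

namespace Pool.Agent.Lib.MP_24b811_al.Gc

open List

universe u

variable {S M : Type u} {R : Sys S M}

variable (R) in
/-- The number of cells of the reduced form of a path. -/
noncomputable def len (w : List S) (p : Path M) : ℕ := (srun R (base M w, ∅) p).2.card

lemma Hty.len {w : List S} {p q : Path M} (h : Hty R w p q) : len R w p = len R w q := by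
  unfold Gc.len
  rw [h.srun (x := (base M w, ∅)) (gen_base w).wf (lab_base w)]

lemma len_le (w : List S) (p : Path M) : len R w p ≤ p.length := by
  have h := card_symmDiff_run (R := R) (base M w, ∅) p
  rwa [show ∀ K : Finset (Cell S M), symmDiff ∅ K = K from bot_symmDiff] at h

lemma exists_geo {w w' : List S} {p : Path M} (h : Valid R w p w') :
    ∃ q, Valid R w q w' ∧ Hty R w p q ∧ q.length = len R w p := by
  obtain ⟨q, q1, q2⟩ := Cre.reach (gen_base w) (p := p) (by simpa using h)
  have h1 := q1.valid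
  rw [(srun_ok h (x := (base M w, ∅)) (gen_base w).wf (lab_base w)).2, lab_base] at h1
  exact ⟨q, h1, by simpa using q2, (q1.card (gen_base w)).symm⟩

/-- The distance of two states is intrinsic. -/
lemma dist_eq {s0 : List (Tm S M)} (hg : Gen s0) {w w' : List S} {q r : Path M}
    (hq : Valid R (lab s0) q w) (hr : Valid R w r w') :
    (symmDiff (srun R (s0, ∅) q).2 (srun R (s0, ∅) (q ++ r)).2).card = len R w r := by
  have k := srun_ok hq (x := (s0, ∅)) hg.wf rfl
  refine le_antisymm ?_ ?_
  · obtain ⟨r0, -, r2, r3⟩ := exists_geo hr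
    rw [srun_append, r2.srun k.1 k.2, ← r3]
    exact card_symmDiff_run _ _
  · obtain ⟨a, a1, -⟩ := Cre.reach hg hq
    obtain ⟨b, b1, -⟩ := Cre.reach hg (hq.append hr)
    obtain ⟨r1, c1, c2, c3⟩ := Cre.exists_path hg _ a1 b1 rfl
    rw [k.2] at c1
    have h1 : Hty R w r1 r := Hty.cancel_left hq (hty_of_run hg (hq.append c1) (hq.append hr)
      (by rw [srun_append]; exact congrArg Prod.fst c2))
    rw [← c3, ← h1.len]
    exact len_le _ _

lemma sub_of_card {α : Type u} [DecidableEq α] {A B : Finset α}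
    (h : (symmDiff A B).card + A.card ≤ B.card) : A ⊆ B := by
  have h1 : (symmDiff A B).card = (A \ B).card + (B \ A).card := by
    rw [symmDiff_def, Finset.sup_eq_union, Finset.card_union_of_disjoint disjoint_sdiff_sdiff]
  have h2 := Finset.card_sdiff_add_card_inter A B
  have h3 := Finset.card_sdiff_add_card_inter B A
  rw [Finset.inter_comm] at h3
  exact Finset.sdiff_eq_empty_iff_subset.1 (Finset.card_eq_zero.1 (by omega))

lemma card_symmDiff_single {α : Type u} [DecidableEq α] (c : α) (A : Finset α) :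
    (c ∈ A ∧ (symmDiff {c} A).card + 1 = A.card) ∨
      (c ∉ A ∧ (symmDiff {c} A).card = A.card + 1) := by
  by_cases h : c ∈ A
  · refine Or.inl ⟨h, ?_⟩
    rw [← Finset.card_erase_add_one h]
    congr 2
    ext d
    by_cases hd : d = c <;> simp [Finset.mem_symmDiff, hd, h]
  · refine Or.inr ⟨h, ?_⟩
    rw [← Finset.card_insert_of_notMem h]
    congr 1
    ext d
    by_cases hd : d = c <;> simp [Finset.mem_symmDiff, hd, h]

/-- The first `k` moves of the periodic path. -/
def per : Path M → ℕ → Path M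
  | _, 0 => []
  | [], _ + 1 => []
  | e :: r, k + 1 => e :: per (r ++ [e]) k

lemma per_append (a b : Path M) (k : ℕ) : per (a ++ b) (k + a.length) = a ++ per (b ++ a) k := by
  induction a generalizing b with
  | nil => simp
  | cons e a ih =>
    rw [length_cons, ← add_assoc, cons_append, per, append_assoc, ih]
    simp

lemma per_period (p : Path M) (k : ℕ) : per p (k + p.length) = p ++ per p k := by
  simpa using per_append p [] k

lemma per_le (p : Path M) {k : ℕ} (h : k ≤ p.length) : per p k = p.take k := by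
  have := per_append (p.take k) (p.drop k) 0
  rw [take_append_drop, length_take, min_eq_left h, zero_add] at this
  simp [this, per]

lemma per_valid {w : List S} {p : Path M} (h : Valid R w p w) (k : ℕ) :
    ∃ w', Valid R w (per p k) w' := by
  induction k generalizing w p with
  | zero => exact ⟨w, by rw [per]; exact .nil _⟩
  | succ k ih =>
    rcases p with _ | ⟨e, r⟩
    · exact ⟨w, .nil _⟩
    · obtain ⟨w1, h1, h2⟩ := Valid.of_append (p := [e]) h
      obtain ⟨w', h3⟩ := ih (h2.append h1)
      exact ⟨w', h1.append h3⟩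

lemma per_length {p : Path M} (h : p ≠ []) (k : ℕ) : (per p k).length = k := by
  induction k generalizing p with
  | zero => simp [per]
  | succ k ih =>
    obtain ⟨e, r, rfl⟩ := exists_cons_of_ne_nil h
    simp [per, ih]

lemma per_succ (e0 : ℕ × M) (r : Path M) (k : ℕ) : ∃ e, per (e0 :: r) (k + 1) =
    per (e0 :: r) k ++ [e] ∧ (k % (e0 :: r).length = 0 → e = e0) := by
  induction k using Nat.strong_induction_on with
  | _ k ih =>
    by_cases h : k < (e0 :: r).length
    · refine ⟨(e0 :: r)[k], by rw [per_le _ h, per_le _ h.le, take_succ_eq_append_getElem],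
        fun h1 => ?_⟩
      rw [Nat.mod_eq_of_lt h] at h1
      subst h1
      rfl
    · obtain ⟨k', rfl⟩ := Nat.exists_eq_add_of_le' (not_lt.1 h)
      obtain ⟨e, h1, h2⟩ := ih k' (by simp)
      refine ⟨e, ?_, fun h3 => h2 (by simpa using h3)⟩
      rw [add_right_comm, per_period, per_period, h1, append_assoc]

lemma per_swap {w : List S} {e0 e1 f0 f1 : ℕ × M} {r : Path M}
    (hv : Valid R w (f0 :: f1 :: r) w) (h : Hty R w [e0, e1] [f0, f1]) (k : ℕ)
    (hk : k % (r.length + 2) ≠ 1) :
    Hty R w (per (e0 :: e1 :: r) k) (per (f0 :: f1 :: r) k) := by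
  induction k using Nat.strong_induction_on with
  | _ k ih =>
    by_cases h1 : k < r.length + 2
    · rw [per_le _ (by simpa using h1.le), per_le _ (by simpa using h1.le)]
      rw [Nat.mod_eq_of_lt h1] at hk
      rcases k with _ | _ | k
      · exact .refl _ _
      · exact absurd rfl hk
      · exact h.append_right (r.take k)
    · obtain ⟨k', rfl⟩ := Nat.exists_eq_add_of_le' (not_lt.1 h1)
      have a1 := per_period (e0 :: e1 :: r) k'
      have a2 := per_period (f0 :: f1 :: r) k'
      simp only [length_cons] at a1 a2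
      rw [a1, a2]
      exact ((h.append_right r).append_right _).trans
        (Hty.append_left hv (ih k' (by omega) (by simpa using hk)))

variable (R) in
/-- The loop `p'` at `w'` is conjugate to the loop `p` at `w`. -/
def Cj (w : List S) (p : Path M) (w' : List S) (p' : Path M) : Prop :=
  ∃ α, Valid R w α w' ∧ Valid R w' p' w' ∧ Hty R w (p ++ α) (α ++ p')

lemma Cj.hty {w w' : List S} {p p' q : Path M} (h : Cj R w p w' p') (hq : Valid R w' q w')
    (h1 : Hty R w' p' q) : Cj R w p w' q := by
  obtain ⟨α, a1, -, a3⟩ := h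
  exact ⟨α, a1, hq, a3.trans (h1.append_left a1)⟩

lemma Cj.rot {w w' w1 : List S} {p r : Path M} {e : ℕ × M} (h : Cj R w p w' (e :: r))
    (h1 : Valid R w' [e] w1) : Cj R w p w1 (r ++ [e]) := by
  obtain ⟨α, a1, a2, a3⟩ := h
  obtain ⟨w2, b1, b2⟩ := Valid.of_append (p := [e]) a2
  obtain rfl := h1.det b1
  exact ⟨α ++ [e], a1.append h1, b2.append h1, by simpa using a3.append_right [e]⟩

/-- One move from a reachable state creates a new cell or removes a cell. -/
lemma step_cases {s0 s : List (Tm S M)} {H : Finset (Cell S M)} {q : Path M} (hg : Gen s0)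
    (h : Cre R s0 q s H) {e : ℕ × M} {w : List S} (he : Valid R (lab s) [e] w) :
    (∃ A T B, s = A ++ T ++ B ∧ e.1 = A.length ∧ lab T = R.src e.2 ∧ ¬ Undo R T e.2 ∧
      (T, e.2) ∉ H ∧ step R (s, H) e = (A ++ bot R (T, e.2) ++ B, insert (T, e.2) H)) ∨
    ∃ A c B, s = A ++ bot R c ++ B ∧ e = (A.length, R.inv c.2) ∧ c ∈ H ∧
      step R (s, H) e = (A ++ c.1 ++ B, H.erase c) := by
  obtain ⟨a, b, m, h1, rfl, -⟩ := he.of_single
  obtain ⟨A, T, B, rfl, rfl, h4, rfl⟩ := lab_split h1
  rw [step_eq A T B H (by simp) h4]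
  by_cases hu : Undo R T m
  · obtain ⟨c, rfl, rfl⟩ := hu.eq_bot
    obtain ⟨t, ht⟩ := exists_mem_of_ne_nil _ (bot_ne (R := R) c)
    have hc := (h.inv hg).mem_of_bot ht (by simp [ht])
    exact Or.inr ⟨A, c, B, rfl, by simp, hc, by rw [rw_bot, tog_bot, symmDiff_old hc]⟩
  · have hn := (h.inv hg).new h4
    exact Or.inl ⟨A, T, B, rfl, by simp, h4, hu, hn, by
      rw [rw_new hu, tog_new hu, symmDiff_new hn]⟩

lemma mod_succ_eq_one {a n : ℕ} (h : (a + 1) % (n + 2) = 1) : a % (n + 2) = 0 := by
  have h1 : a + 1 ≡ 0 + 1 [MOD n + 2] := by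
    rw [Nat.ModEq, h, Nat.mod_eq_of_lt (by omega)]
  exact Nat.ModEq.add_right_cancel' 1 h1

lemma per_geo {w0 : List S} {p0 : Path M} {m : ℕ}
    (hmin : ∀ w p, Cj R w0 p0 w p → m ≤ p.length) (k : ℕ) :
    ∀ w p, Cj R w0 p0 w p → p.length = m → p ≠ [] → len R w (per p k) = k := by
  induction k with
  | zero => intro w p _ _ _; simp [per, len]
  | succ k ih =>
    intro w p hc hm hne
    have hv : Valid R w p w := hc.choose_spec.2.1
    have hg := gen_base (M := M) w
    have hd : ∀ {q r : Path M} {w1 w2 : List S}, Valid R w q w1 → Valid R w1 r w2 →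
        (symmDiff (srun R (base M w, ∅) q).2 (srun R (base M w, ∅) (q ++ r)).2).card =
          len R w1 r := fun h1 h2 => dist_eq hg (by simpa using h1) h2
    have hpre : ∀ j ≤ m, len R w (p.take j) = j := by
      intro j hj
      obtain ⟨q, q1, q2, q3⟩ := exists_geo hv
      have h1 := hmin _ _ (hc.hty q1 q2)
      have h2 := card_symmDiff_run (R := R) (srun R (base M w, ∅) (p.take j)) (p.drop j)
      rw [← srun_append, take_append_drop, length_drop] at h2
      have h3 := len_le (R := R) w (p.take j)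
      have h4 := Finset.card_le_card (le_symmDiff_sup_right
        (srun R (base M w, ∅) p).2 (srun R (base M w, ∅) (p.take j)).2)
      have h5 := Finset.card_union_le (symmDiff (srun R (base M w, ∅) p).2
        (srun R (base M w, ∅) (p.take j)).2) (srun R (base M w, ∅) (p.take j)).2
      rw [symmDiff_comm] at h2
      rw [length_take] at h3
      simp only [len, Finset.sup_eq_union] at *
      omega
    by_cases hk : k + 1 ≤ m
    · rw [per_le _ (hm ▸ hk), hpre _ hk]
    obtain ⟨e0, r0, rfl⟩ := exists_cons_of_ne_nil hne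
    obtain ⟨e, he, he0⟩ := per_succ e0 r0 k
    obtain ⟨w3, v3⟩ := per_valid hv (k + 1)
    obtain ⟨wk, vk, ve⟩ := Valid.of_append (he ▸ v3)
    obtain ⟨qk, ck, -⟩ := Cre.reach hg (p := per (e0 :: r0) k) (by simpa using vk)
    have hk0 := ih w _ hc hm hne
    have lk := (srun_ok vk (x := (base M w, ∅)) hg.wf (lab_base w)).2
    have hx : srun R (base M w, ∅) (per (e0 :: r0) (k + 1)) =
        step R (srun R (base M w, ∅) (per (e0 :: r0) k)) e := by rw [he, srun_append]; rfl
    unfold len at hk0 ⊢
    rcases step_cases hg ck (lk ▸ ve) with ⟨A, T, B, -, -, -, -, h5, h6⟩ | ⟨A, c, B, h1, h2, h3, h4⟩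
    · rw [hx, h6, Finset.card_insert_of_notMem h5, hk0]
    exfalso
    obtain ⟨w1, v1, v1'⟩ := Valid.of_append (p := [e0]) hv
    rcases step_cases hg .nil (by simpa using v1) with
      ⟨A0, T0, B0, a1, a2, a3, a4, -, a6⟩ | ⟨_, _, _, -, -, a3, -⟩
    swap
    · simp at a3
    have hm1 : 1 ≤ k := by simp at hm; omega
    obtain ⟨k', rfl⟩ := Nat.exists_eq_add_of_le' hm1
    have x1 : srun R (base M w, ∅) [e0] = (A0 ++ bot R (T0, e0.2) ++ B0, {(T0, e0.2)}) := a6
    have hrot := hc.rot v1
    have hH : (srun R (base M w, ∅) (per (e0 :: r0) (k' + 1 + 1))).2 =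
        (srun R (base M w, ∅) (per (e0 :: r0) (k' + 1))).2.erase c := by rw [hx, h4]
    have hcard := Finset.card_erase_add_one h3
    have c0 : (T0, e0.2) ∈ (srun R (base M w, ∅) (per (e0 :: r0) (k' + 1))).2 := by
      have h7 := card_symmDiff_run (R := R) (srun R (base M w, ∅) [e0]) (per (r0 ++ [e0]) k')
      rw [← srun_append, x1, per_length (by simp)] at h7
      rcases card_symmDiff_single (T0, e0.2) (srun R (base M w, ∅) (per (e0 :: r0) (k' + 1))).2
        with h8 | h8
      · exact h8.1
      · have h9 := h8.2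
        change (symmDiff {(T0, e0.2)} (srun R (base M w, ∅) (per (e0 :: r0) (k' + 1))).2).card ≤ _
          at h7
        omega
    have cc : c = (T0, e0.2) := by
      obtain ⟨w4, v4⟩ := per_valid hrot.choose_spec.2.1 (k' + 1)
      have h7 := hd v1 v4
      rw [ih _ _ hrot (by simpa using hm) (by simp), x1] at h7
      change (symmDiff {(T0, e0.2)}
        (srun R (base M w, ∅) (per (e0 :: r0) (k' + 1 + 1))).2).card = _ at h7
      rw [hH] at h7
      rcases card_symmDiff_single (T0, e0.2)
        ((srun R (base M w, ∅) (per (e0 :: r0) (k' + 1))).2.erase c) with h8 | h8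
      · have := h8.2; omega
      · by_contra h9
        exact h8.1 (Finset.mem_erase.2 ⟨Ne.symm h9, c0⟩)
    subst cc
    have hmod : (k' + 1) % (e0 :: r0).length ≠ 0 := fun h7 =>
      R.inv_ne e0.2 (by rw [he0 h7] at h2; exact (congrArg Prod.snd h2).symm)
    rcases r0 with _ | ⟨e1, r⟩
    · exact hmod (Nat.mod_one _)
    simp only [length_cons] at hm hmod
    obtain ⟨k'', rfl⟩ := Nat.exists_eq_add_of_le' (show 1 ≤ k' by omega)
    obtain ⟨w2, v2, v2'⟩ := Valid.of_append (p := [e1]) v1'
    have cr1 : Cre R (base M w) ([] ++ [(A0.length, e0.2)]) _ _ :=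
      .snoc A0 T0 B0 e0.2 a1 .nil a3 a4
    have l1 := (srun_ok v1 (x := (base M w, ∅)) hg.wf (lab_base w)).2
    rw [x1] at l1
    have x2 : srun R (base M w, ∅) [e0, e1] =
        step R (A0 ++ bot R (T0, e0.2) ++ B0, insert (T0, e0.2) ∅) e1 := by
      rw [show [e0, e1] = [e0] ++ [e1] from rfl, srun_append, x1]; rfl
    have g2 : (srun R (base M w, ∅) [e0, e1]).2.card = 2 := hpre 2 (by omega)
    rcases step_cases hg cr1 (l1 ▸ v2) with
      ⟨A1, T1, B1, b1, b2, b3, b4, b5, b6⟩ | ⟨_, c, _, -, -, b3, b4⟩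
    swap
    · rw [x2, b4] at g2
      have := Finset.card_erase_add_one b3
      simp only [insert_empty_eq, Finset.card_singleton] at this g2
      omega
    have c1 : (T1, e1.2) ∈ (srun R (base M w, ∅) (per (e0 :: e1 :: r) (k'' + 1 + 1))).2 := by
      have h7 := card_symmDiff_run (R := R) (srun R (base M w, ∅) [e0, e1])
        (per (r ++ [e0] ++ [e1]) k'')
      rw [← srun_append, per_length (by simp)] at h7
      refine sub_of_card (A := (srun R (base M w, ∅) [e0, e1]).2) ?_ (by rw [x2, b6]; simp)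
      change (symmDiff _ (srun R (base M w, ∅) (per (e0 :: e1 :: r) (k'' + 1 + 1))).2).card ≤ _
        at h7
      omega
    have hsw : ∃ f0 f1 w5, Valid R w [f0] w5 ∧ Valid R w5 [f1] w2 ∧ Hty R w [e0, e1] [f0, f1] ∧
        (srun R (base M w, ∅) [f0]).2 = {(T1, e1.2)} := by
      have l2 := (srun_ok (v1.append v2) (x := (base M w, ∅)) hg.wf (lab_base w)).2
      rw [show [e0] ++ [e1] = [e0, e1] from rfl, x2, b6] at l2
      have lw := lab_base (M := M) w
      have e3 : (bot R (T0, e0.2)).length = (R.src (R.inv e0.2)).length := by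
        rw [← lab_bot (T0, e0.2)]; simp
      obtain ⟨n0, m0⟩ := e0
      obtain ⟨n1, m1⟩ := e1
      dsimp only at a2 a3 a4 b1 b2 b3 b4 l2 e3 ⊢
      subst a2 b2
      rcases split_disj b1 (bot_ne _) (ne_nil_of_lab b3) (fun t t1 t2 =>
        (ck.inv hg).gone _ c1 t t2 (by rw [h1]; simp [t1])) with ⟨C, rfl, rfl⟩ | ⟨C, rfl, rfl⟩
      · rw [a1] at lw
        refine ⟨((A0 ++ T0 ++ C).length, m1), (A0.length, m0), _,
          .cons (lab (A0 ++ T0 ++ C)) (lab B1) m1 (by simp [← lw, b3]) (by simp) (.nil _),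
          .cons (lab A0) (lab C ++ R.src (R.inv m1) ++ lab B1) m0 (by simp [a3]) (by simp)
            (by rw [← l2]; simpa [lab_bot] using Valid.nil _),
          Hty.square (p := []) (a := lab A0) (b := lab C) (c := lab B1)
            (by rw [← lw]; simpa [a3, b3] using Valid.nil _) (by simp) (by simp [e3, add_assoc])
            (by simp [← a3, add_assoc]), ?_⟩
        rw [a1, show A0 ++ T0 ++ (C ++ T1 ++ B1) = A0 ++ T0 ++ C ++ T1 ++ B1 by simp, srun_cons,
          step_eq _ T1 B1 _ rfl b3, tog_new b4]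
        exact bot_symmDiff _
      · rw [a1] at lw
        refine ⟨(A1.length, m1), ((A1 ++ bot R (T1, m1) ++ C).length, m0), _,
          .cons (lab A1) (lab C ++ lab T0 ++ lab B0) m1 (by simp [← lw, b3]) (by simp) (.nil _),
          .cons (lab (A1 ++ bot R (T1, m1) ++ C)) (lab B0) m0 (by simp [a3, lab_bot]) (by simp)
            (by rw [← l2]; simpa [lab_bot] using Valid.nil _),
          (Hty.square (p := []) (a := lab A1) (b := lab C) (c := lab B0)
            (by rw [← lw]; simpa [a3, b3] using Valid.nil _) (by simp)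
            (by simp [← lab_bot (T1, m1), add_assoc]) (by simp [← b3, add_assoc])).symm, ?_⟩
        rw [a1, show A1 ++ T1 ++ C ++ T0 ++ B0 = A1 ++ T1 ++ (C ++ T0 ++ B0) by simp, srun_cons,
          step_eq _ T1 _ _ rfl b3, tog_new b4]
        exact bot_symmDiff _
    obtain ⟨f0, f1, w5, u1, u2, u3, u4⟩ := hsw
    have hv' : Valid R w (f0 :: f1 :: r) w := u1.append (u2.append v2')
    have hc' := (hc.hty hv' (u3.append_right r)).rot u1
    obtain ⟨w6, v6⟩ := per_valid hc'.choose_spec.2.1 (k'' + 1 + 1)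
    have h7 := hd u1 v6
    rw [ih _ _ hc' (by simpa using hm) (by simp), u4] at h7
    change (symmDiff {(T1, e1.2)}
      (srun R (base M w, ∅) (per (f0 :: f1 :: r) (k'' + 1 + 1 + 1))).2).card = _ at h7
    rw [← (per_swap hv' u3 _ (fun h8 => hmod (mod_succ_eq_one h8))).srun hg.wf (lab_base w),
      hH] at h7
    rcases card_symmDiff_single (T1, e1.2)
      ((srun R (base M w, ∅) (per (e0 :: e1 :: r) (k'' + 1 + 1))).2.erase (T0, e0.2)) with h8 | h8
    · have := h8.2; omega
    · exact h8.1 (Finset.mem_erase.2 ⟨fun h9 => b5 (by simp [h9]), c1⟩)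

/-- Powers of a loop. -/
def pw (p : Path M) : ℕ → Path M
  | 0 => []
  | n + 1 => p ++ pw p n

lemma pw_valid {w : List S} {p : Path M} (h : Valid R w p w) (n : ℕ) : Valid R w (pw p n) w := by
  induction n with
  | zero => exact .nil _
  | succ n ih => exact h.append ih

lemma per_mul (p : Path M) (n : ℕ) : per p (n * p.length) = pw p n := by
  induction n with
  | zero => simp [per, pw]
  | succ n ih => rw [Nat.succ_mul, per_period, ih, pw]

/-- Every loop is conjugate to a loop all of whose powers are geodesic. -/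
theorem exists_ar {w : List S} {p : Path M} (h : Valid R w p w) :
    ∃ w' p', Cj R w p w' p' ∧ ∀ n, len R w' (pw p' n) = n * p'.length := by
  classical
  have hex : ∃ m, ∃ w' p', Cj R w p w' p' ∧ p'.length = m :=
    ⟨_, w, p, ⟨[], .nil _, h, by simpa using Hty.refl _ _⟩, rfl⟩
  obtain ⟨w', p', h1, h2⟩ := Nat.find_spec hex
  refine ⟨w', p', h1, fun n => ?_⟩
  by_cases hne : p' = []
  · subst hne
    have : ∀ n, pw ([] : Path M) n = [] := fun n => by induction n <;> simp [pw, *]
    simp [this, len]
  · rw [← per_mul]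
    exact per_geo (fun w'' p'' h3 => Nat.find_min' hex ⟨w'', p'', h3, rfl⟩) _ w' p' h1 h2 hne

end Pool.Agent.Lib.MP_24b811_al.Gc
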