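import Pool.Agent.Lib.MP_24b811_al.GcCover

/-!
# Rewriting to the left and to the right of a cut
-/

set_option autoImplicit false

namespace Pool.Agent.Lib.MP_24b811_al.Gc

open List

universe u v

variable {S M : Type u} {R : Sys S M} {G : Type v} [Group G]

namespace Cover

variable (C : Cover R G)

/-- `y'` is obtained from `y` by rewriting the first `i` letters to `j` letters. -/
def PL (y : C.X.Z) (i : ℕ) (y' : C.X.Z) (j : ℕ) : Prop :=
  ∃ u q u' r, C.X.wd y = u ++ q ∧ u.length = i ∧ u'.length = j ∧ Valid R u r u' ∧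
    y' = C.X.run y r

/-- `y'` is obtained from `y` by rewriting after the first `i` letters. -/
def PQ (y : C.X.Z) (i : ℕ) (y' : C.X.Z) : Prop :=
  ∃ u q q' r, C.X.wd y = u ++ q ∧ u.length = i ∧ Valid R q r q' ∧ y' = C.X.run y (shift i r)

/-- No cell crosses the cut. -/
def Spl (y : C.X.Z) (i : ℕ) (y' : C.X.Z) (j : ℕ) : Prop := ∃ y1, C.PL y i y1 j ∧ C.PQ y1 j y'

variable {C} {z y y' y'' : C.X.Z} {i j k : ℕ}

lemma st_blk (z : C.X.Z) {A s B : List (Tm S M)} {r : Path M} {x : List S}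
    (h : C.L z y = A ++ s ++ B) (hr : Valid R (lab s) r x) (hk : k = A.length) :
    C.st z (C.X.run y (shift k r)) =
      (A ++ (srun R (s, ∅) r).1 ++ B, symmDiff (C.H z y) (srun R (s, ∅) r).2) := by
  have h1 := hr.whisk (lab A) (lab B)
  rw [length_map, ← hk, ← map_append, ← map_append, ← h,
    show map Tm.lab (C.L z y) = _ from lab_L z y] at h1
  rw [st_run' z h1, show C.st z y = (A ++ s ++ B, C.H z y) from Prod.ext h rfl]
  exact srun_whisk hr (fun t ht => (inv z y).wf t (by simp [h, ht])) rfl A B _ hk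

lemma st_left (z : C.X.Z) {A B : List (Tm S M)} {r : Path M} {x : List S}
    (h : C.L z y = A ++ B) (hr : Valid R (lab A) r x) :
    C.st z (C.X.run y r) = ((srun R (A, ∅) r).1 ++ B, symmDiff (C.H z y) (srun R (A, ∅) r).2) := by
  simpa using st_blk z (A := []) (k := 0) (by simpa using h) hr rfl

lemma st_right (z : C.X.Z) {A B : List (Tm S M)} {r : Path M} {x : List S}
    (h : C.L z y = A ++ B) (hr : Valid R (lab B) r x) (hk : k = A.length) :
    C.st z (C.X.run y (shift k r)) =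
      (A ++ (srun R (B, ∅) r).1, symmDiff (C.H z y) (srun R (B, ∅) r).2) := by
  simpa using st_blk z (B := []) (by simpa using h) hr hk

lemma L_split (z : C.X.Z) {u q : List S} (h : C.X.wd y = u ++ q) :
    ∃ A B, C.L z y = A ++ B ∧ lab A = u ∧ lab B = q :=
  map_eq_append_iff.1 ((lab_L z y).trans h)

lemma length_srun {A : List (Tm S M)} {r : Path M} {x : List S} (hA : ∀ t ∈ A, WF R t)
    (hr : Valid R (lab A) r x) : (srun R (A, ∅) r).1.length = x.length := by
  rw [← (srun_ok hr (x := (A, ∅)) hA rfl).2]; simp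

lemma interchange {u q u' q' : List S} {r t : Path M} (h : C.X.wd y = u ++ q)
    (hr : Valid R u r u') (ht : Valid R q t q') :
    C.X.run y (r ++ shift u'.length t) = C.X.run y (shift u.length t ++ r) := by
  obtain ⟨A, B, h1, rfl, rfl⟩ := L_split y h
  have hA : ∀ t ∈ A, WF R t := fun t ht => (inv y y).wf t (by simp [h1, ht])
  refine inj (z := y) ?_
  rw [C.X.run_append, C.X.run_append]
  exact (congrArg Prod.fst (st_right y (congrArg Prod.fst (st_left y h1 hr)) ht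
    (length_srun hA hr).symm)).trans (congrArg Prod.fst
      (st_left y (congrArg Prod.fst (st_right y h1 ht (by simp))) hr)).symm

lemma PL.le (h : C.PL y i y' j) : i ≤ (C.X.wd y).length := by
  obtain ⟨u, q, u', r, h1, rfl, -⟩ := h
  simp [h1]

lemma PQ.le (h : C.PQ y i y') : i ≤ (C.X.wd y).length := by
  obtain ⟨u, q, u', r, h1, rfl, -⟩ := h
  simp [h1]

lemma PL.refl (h : i ≤ (C.X.wd y).length) : C.PL y i y i :=
  ⟨_, _, _, [], (take_append_drop i _).symm, by simp [h], by simp [h], .nil _, rfl⟩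

lemma PQ.refl (h : i ≤ (C.X.wd y).length) : C.PQ y i y :=
  ⟨_, _, _, [], (take_append_drop i _).symm, by simp [h], .nil _, rfl⟩

lemma PL.all (y y' : C.X.Z) : C.PL y (C.X.wd y).length y' (C.X.wd y').length := by
  obtain ⟨r, h1, h2⟩ := C.conn y y'
  exact ⟨_, [], _, r, by simp, rfl, rfl, h1, h2.symm⟩

lemma PQ.all (y y' : C.X.Z) : C.PQ y 0 y' := by
  obtain ⟨r, h1, h2⟩ := C.conn y y'
  exact ⟨[], _, _, r, rfl, rfl, h1, by simpa using h2.symm⟩

lemma PL.symm (h : C.PL y i y' j) : C.PL y' j y i := by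
  obtain ⟨u, q, u', r, h1, h2, h3, h4, rfl⟩ := h
  have h5 := h1 ▸ h4.whiskR q
  exact ⟨u', q, u, pinv R r, wd_run h5, h3, h2, h4.inv, (C.X.run_pinv h5 (C.ok y) rfl).symm⟩

lemma PQ.symm (h : C.PQ y i y') : C.PQ y' i y := by
  obtain ⟨u, q, q', r, h1, rfl, h4, rfl⟩ := h
  have h5 := h1 ▸ h4.whiskL u
  refine ⟨u, q', q, pinv R r, wd_run h5, rfl, h4.inv, ?_⟩
  rw [show shift u.length (pinv R r) = pinv R (shift u.length r) by simp [shift, pinv]]
  exact (C.X.run_pinv h5 (C.ok y) rfl).symm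

lemma PL.trans (h : C.PL y i y' j) (h' : C.PL y' j y'' k) : C.PL y i y'' k := by
  obtain ⟨u, q, u', r, h1, h2, h3, h4, rfl⟩ := h
  obtain ⟨u2, q2, u3, r', a1, a2, a3, a4, rfl⟩ := h'
  rw [wd_run (h1 ▸ h4.whiskR q)] at a1
  obtain ⟨rfl, rfl⟩ := append_inj a1 (h3.trans a2.symm)
  exact ⟨u, q, u3, r ++ r', h1, h2, a3, h4.append a4, (C.X.run_append _ _ _).symm⟩

lemma PQ.trans (h : C.PQ y i y') (h' : C.PQ y' i y'') : C.PQ y i y'' := by
  obtain ⟨u, q, q', r, h1, rfl, h4, rfl⟩ := h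
  obtain ⟨u2, q2, q3, r', a1, a2, a4, rfl⟩ := h'
  rw [wd_run (h1 ▸ h4.whiskL u)] at a1
  obtain ⟨rfl, rfl⟩ := append_inj a1 a2.symm
  exact ⟨u, q, q3, r ++ r', h1, rfl, h4.append a4, by rw [shift_append, C.X.run_append]⟩

lemma PL.smul (h : C.PL y i y' j) (γ : G) : C.PL (γ • y) i (γ • y') j := by
  obtain ⟨u, q, u', r, h1, h2, h3, h4, rfl⟩ := h
  exact ⟨u, q, u', r, by rw [C.wd_act, h1], h2, h3, h4, C.run_act γ (h1 ▸ h4.whiskR q)⟩

lemma PQ.smul (h : C.PQ y i y') (γ : G) : C.PQ (γ • y) i (γ • y') := by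
  obtain ⟨u, q, q', r, h1, rfl, h4, rfl⟩ := h
  exact ⟨u, q, q', r, by rw [C.wd_act, h1], rfl, h4, C.run_act γ (h1 ▸ h4.whiskL u)⟩

lemma PQ.mono (h : C.PQ y i y') (hk : k ≤ i) : C.PQ y k y' := by
  obtain ⟨u, q, q', r, h1, rfl, h4, rfl⟩ := h
  refine ⟨u.take k, u.drop k ++ q, _, _, by rw [← append_assoc, take_append_drop, h1],
    by simp [hk], h4.whiskL (u.drop k), ?_⟩
  rw [shift_shift, length_drop, Nat.add_sub_cancel' hk]

lemma PL.mono (h : C.PL y i y' i) (hk : i ≤ k) (hk' : k ≤ (C.X.wd y).length) : C.PL y k y' k := by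
  obtain ⟨u, q, u', r, h1, rfl, h3, h4, rfl⟩ := h
  rw [h1, length_append] at hk'
  exact ⟨u ++ q.take (k - u.length), q.drop (k - u.length), _, r,
    by rw [append_assoc, take_append_drop, h1], by simp; omega, by simp; omega, h4.whiskR _, rfl⟩

lemma PQ.take (h : C.PQ y i y') (z : C.X.Z) : (C.L z y').take i = (C.L z y).take i := by
  obtain ⟨u, q, q', r, h1, rfl, h4, rfl⟩ := h
  obtain ⟨A, B, h2, rfl, rfl⟩ := L_split z h1
  rw [show C.L z _ = _ from congrArg Prod.fst (st_right z h2 h4 (by simp)), h2]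
  simp

lemma PL.drop (h : C.PL y i y' j) (z : C.X.Z) : (C.L z y').drop j = (C.L z y).drop i := by
  obtain ⟨u, q, u', r, h1, rfl, rfl, h4, rfl⟩ := h
  obtain ⟨A, B, h2, rfl, rfl⟩ := L_split z h1
  have hA : ∀ t ∈ A, WF R t := fun t ht => (inv z y).wf t (by simp [h2, ht])
  rw [show C.L z _ = _ from congrArg Prod.fst (st_left z h2 h4), h2, ← length_srun hA h4]
  simp

lemma eq_of_PL_PQ (h : C.PL y i y' i) (h' : C.PQ y i y') : y' = y := by
  refine inj (z := y) ?_
  rw [← take_append_drop i (C.L y y'), h.drop, h'.take, take_append_drop]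

lemma PQ.swap (h : C.PQ y i y') (h' : C.PL y' i y'' j) : C.Spl y i y'' j := by
  obtain ⟨u, q, q', t, h1, rfl, h4, rfl⟩ := h
  obtain ⟨u2, q2, u', r, a1, a2, rfl, a4, rfl⟩ := h'
  rw [wd_run (h1 ▸ h4.whiskL u)] at a1
  obtain ⟨rfl, rfl⟩ := append_inj a1 a2.symm
  refine ⟨_, ⟨u, q, u', r, h1, rfl, rfl, a4, rfl⟩, u', q, _, t, wd_run (h1 ▸ a4.whiskR q), rfl,
    h4, ?_⟩
  rw [← C.X.run_append, ← C.X.run_append, interchange h1 a4 h4]

lemma Spl.symm (h : C.Spl y i y' j) : C.Spl y' j y i := by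
  obtain ⟨y1, h1, h2⟩ := h
  exact h2.symm.swap h1.symm

lemma Spl.trans (h : C.Spl y i y' j) (h' : C.Spl y' j y'' k) : C.Spl y i y'' k := by
  obtain ⟨y1, h1, h2⟩ := h
  obtain ⟨y2, h3, h4⟩ := h'
  obtain ⟨y3, h5, h6⟩ := h2.swap h3
  exact ⟨y3, h1.trans h5, h6.trans h4⟩

lemma Spl.smul (h : C.Spl y i y' j) (γ : G) : C.Spl (γ • y) i (γ • y') j := by
  obtain ⟨y1, h1, h2⟩ := h
  exact ⟨_, h1.smul γ, h2.smul γ⟩

lemma Spl.zpow {g : G} (h : C.Spl z i (g • z) i) (n : ℤ) : C.Spl z i (g ^ n • z) i := by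
  induction n using Int.induction_on with
  | zero =>
    have := h.choose_spec.1.le
    exact ⟨z, PL.refl this, by simpa using PQ.refl this⟩
  | succ n ih => rw [zpow_add_one, mul_smul]; exact ih.trans (h.smul _)
  | pred n ih =>
    refine ih.trans ?_
    have := (h.smul (g ^ (-(n : ℤ) - 1))).symm
    rwa [← mul_smul, ← zpow_add_one, sub_add_cancel] at this

lemma PL.move {γ : G} (h : C.PL z i (γ • z) i) (h' : C.PQ z i y) : C.PL y i (γ • y) i := by
  obtain ⟨u, q, u', r, h1, rfl, h3, h4, h5⟩ := h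
  obtain ⟨u2, q2, q', t, a1, a2, a4, rfl⟩ := h'
  obtain ⟨rfl, rfl⟩ := append_inj (h1.symm.trans a1) a2.symm
  refine ⟨u, q', u', r, wd_run (h1 ▸ a4.whiskL u), rfl, h3, h4, ?_⟩
  rw [C.run_act γ (h1 ▸ a4.whiskL u), h5, ← C.X.run_append, ← C.X.run_append,
    ← interchange h1 h4 a4, h3]

lemma PQ.move {γ : G} (h : C.PQ z i (γ • z)) (h' : C.PL z i y j) : C.PQ y j (γ • y) := by
  obtain ⟨u, q, q', t, h1, rfl, h4, h5⟩ := h
  obtain ⟨u2, q2, u', r, a1, a2, rfl, a4, rfl⟩ := h'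
  obtain ⟨rfl, rfl⟩ := append_inj (h1.symm.trans a1) a2.symm
  refine ⟨u', q, q', t, wd_run (h1 ▸ a4.whiskR q), rfl, h4, ?_⟩
  rw [C.run_act γ (h1 ▸ a4.whiskR q), h5, ← C.X.run_append, ← C.X.run_append,
    interchange h1 a4 h4]

lemma PL.move' {γ : G} (h : C.PL z i (γ • z) i) (h' : C.PL z i y j) : C.PL y j (γ • y) j :=
  (h'.symm.trans h).trans (h'.smul γ)

lemma PQ.move' {γ : G} (h : C.PQ z i (γ • z)) (h' : C.PQ z i y) : C.PQ y i (γ • y) :=
  (h'.symm.trans h).trans (h'.smul γ)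

lemma commute_of {l g : G} (h : C.PL z i (l • z) i) (h' : C.PQ z i (g • z)) : Commute l g := by
  obtain ⟨u, q, u', r, h1, rfl, h3, h4, h5⟩ := h
  obtain ⟨u2, q2, q', t, a1, a2, a4, a5⟩ := h'
  obtain ⟨rfl, rfl⟩ := append_inj (h1.symm.trans a1) a2.symm
  have : (l * g) • z = (g * l) • z := by
    rw [mul_smul, mul_smul, a5, C.run_act l (h1 ▸ a4.whiskL u), h5,
      C.run_act g (h1 ▸ h4.whiskR q), a5, ← C.X.run_append, ← C.X.run_append,
      ← interchange h1 h4 a4, h3]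
  have h6 := C.free ((g * l)⁻¹ * (l * g)) z (by rw [mul_smul, this, inv_smul_smul])
  exact (inv_mul_eq_one.1 h6).symm

lemma cre_srun {A : List (Tm S M)} (hg : Gen A) {r : Path M} {x : List S}
    (hr : Valid R (lab A) r x) : ∃ q, Cre R A q (srun R (A, ∅) r).1 (srun R (A, ∅) r).2 :=
  (Cre.reach hg hr).imp fun _ h => h.1

lemma Spl.letters (h : C.Spl z i y j) {s1 s2 : List (Tm S M)} (hb : base M (C.X.wd z) = s1 ++ s2)
    (hi : s1.length = i) : ∃ p1 p2 A B H1 H2, Cre R s1 p1 A H1 ∧ Cre R s2 p2 B H2 ∧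
      C.L z y = A ++ B ∧ A.length = j ∧ C.H z y = symmDiff H1 H2 := by
  obtain ⟨y1, ⟨u, q, u', r, h1, h2, rfl, h4, rfl⟩, u2, q2, q', t, a1, a2, a4, rfl⟩ := h
  rw [wd_run (h1 ▸ h4.whiskR q)] at a1
  obtain ⟨rfl, rfl⟩ := append_inj a1 a2.symm
  have hg := hb ▸ gen_base (M := M) (C.X.wd z)
  have h5 := lab_base (M := M) (C.X.wd z)
  rw [hb, h1, lab, map_append] at h5
  obtain ⟨rfl, rfl⟩ := append_inj h5 (by simp [hi, h2])
  have e0 := length_srun hg.left.wf h4
  have e1 := st_left z ((L_self z).trans hb) h4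
  have e2 := st_right z (congrArg Prod.fst e1) a4 e0.symm
  obtain ⟨p1, c1⟩ := cre_srun hg.left h4
  obtain ⟨p2, c2⟩ := cre_srun hg.right a4
  refine ⟨p1, p2, _, _, _, _, c1, c2, congrArg Prod.fst e2, e0, (congrArg Prod.snd e2).trans ?_⟩
  rw [show C.H z (C.X.run z r) = _ from congrArg Prod.snd e1, H_self]
  exact congrArg (symmDiff · _) (bot_symmDiff _)

lemma spl_of_cre {s1 s2 A B : List (Tm S M)} {p1 p2 : Path M} {H1 H2 : Finset (Cell S M)}
    (hb : base M (C.X.wd z) = s1 ++ s2) (c1 : Cre R s1 p1 A H1) (c2 : Cre R s2 p2 B H2)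
    (h : C.L z y = A ++ B) : C.Spl z s1.length y A.length := by
  have hg := hb ▸ gen_base (M := M) (C.X.wd z)
  have h5 := (lab_base (M := M) (C.X.wd z)).symm
  rw [hb, lab, map_append] at h5
  have e1 := st_left z ((L_self z).trans hb) c1.valid
  rw [c1.run hg.left] at e1
  have e2 := st_right z (congrArg Prod.fst e1) c2.valid rfl
  rw [c2.run hg.right] at e2
  exact ⟨_, ⟨_, _, _, p1, h5, by simp, by simp, c1.valid, rfl⟩, lab A, _, _, p2,
    wd_run (h5 ▸ c1.valid.whiskR _), by simp, c2.valid,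
    inj (z := z) (h.trans (congrArg Prod.fst e2).symm)⟩

lemma Spl.mono {i' j' : ℕ} (h : C.Spl z i y j) (h' : C.Spl z i' y j') (hi : i ≤ i') : j ≤ j' := by
  have l1 := h.choose_spec.1.le
  have l2 := h'.choose_spec.1.le
  obtain ⟨_, _, A, B, _, _, c1, -, e1, rfl, -⟩ :=
    h.letters (take_append_drop i _).symm (by simp [l1])
  obtain ⟨_, _, A', B', _, _, -, c2, e2, rfl, -⟩ :=
    h'.letters (take_append_drop i' _).symm (by simp [l2])
  by_contra hn
  rcases append_eq_append_iff.1 (e1.symm.trans e2) with ⟨D, rfl, -⟩ | ⟨D, rfl, rfl⟩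
  · simp at hn
  rcases D with _ | ⟨t, D⟩
  · simp at hn
  refine Rt.disj (R := R) (s1 := (base M (C.X.wd z)).take i) (s2 := (base M (C.X.wd z)).drop i)
    (by rw [take_append_drop]; exact gen_base _) ((inv z y).wf t (by simp [e1]))
    (c1.rt.1 t (by simp)) ((c2.rt.1 t (by simp)).mono ?_)
  obtain ⟨n, rfl⟩ := Nat.exists_eq_add_of_le hi
  rw [← drop_drop]
  exact drop_subset _ _

lemma persist {s1 s2 s3 : List (Tm S M)} (hb : base M (C.X.wd z) = s1 ++ s2 ++ s3)
    (h1 : ∀ t ∈ s1, t ∈ C.L z y) (h3 : ∀ t ∈ s3, t ∈ C.L z y) :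
    ∃ r x, Valid R (lab s2) r x ∧ y = C.X.run z (shift s1.length r) := by
  have hg := hb ▸ gen_base (M := M) (C.X.wd z)
  obtain ⟨q, q1, -⟩ := cre z y
  obtain ⟨r, B, K, c1, h4⟩ := (hb ▸ q1).persist hg h1 h3
  have e := st_blk z ((L_self z).trans hb) c1.valid rfl
  rw [c1.run hg.left.right] at e
  exact ⟨r, _, c1.valid, inj (z := z) (h4.trans (congrArg Prod.fst e).symm)⟩

lemma keep {y1 : C.X.Z} {s1 s2 : List (Tm S M)} {ρ : Tm S M} (h : C.PL z i y1 j)
    (h' : C.PQ y1 j y) (hb : base M (C.X.wd z) = s1 ++ ρ :: s2) (hi : s1.length = i)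
    (hρ : ρ ∈ C.L z y) : C.PQ y1 (j + 1) y := by
  have hg := hb ▸ gen_base (M := M) (C.X.wd z)
  obtain ⟨p1, p2, A, B, H1, H2, c1, c2, e1, rfl, -⟩ := Spl.letters ⟨y1, h, h'⟩ hb hi
  have h1 : ρ ∈ B := (mem_append.1 (e1 ▸ hρ)).resolve_left fun h2 =>
    Rt.disj (R := R) hg (hg.wf ρ (by simp)) (c1.rt.1 ρ h2) (.base (by simp))
  obtain ⟨r, B', K, c3, rfl⟩ := Cre.persist (s1 := [ρ]) (s2 := s2) (s3 := [])
    (by simpa using hg.right) (by simpa using c2) (by simpa using h1) (by simp)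
  have e2 : C.L z y1 = A ++ [ρ] ++ s2 := by
    rw [← take_append_drop A.length (C.L z y1), ← h'.take, h.drop, e1, L_self, hb, ← hi]
    simp
  have e3 := st_right z e2 c3.valid (k := A.length + 1) (by simp)
  rw [c3.run (hg.right.sub (sublist_cons_self _ _))] at e3
  exact ⟨lab (A ++ [ρ]), lab s2, _, r, by rw [← lab_L z y1, e2]; simp, by simp, c3.valid,
    inj (z := z) (by rw [e1, show C.L z _ = _ from congrArg Prod.fst e3]; simp)⟩

lemma d_blk {a x b x' : List S} {r : Path M} (h : C.X.wd z = a ++ x ++ b) (hr : Valid R x r x') :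
    C.d z (C.X.run z (shift a.length r)) = len R x r := by
  obtain ⟨A, s, B, h1, rfl, rfl, rfl⟩ := lab_split ((lab_L z z).trans h)
  have hg : Gen s := Gen.right (Gen.left ((L_self z).symm.trans h1 ▸ gen_base _))
  have h2 := dist_eq hg (q := []) (.nil _) hr
  rw [d, show C.H z _ = _ from congrArg Prod.snd (st_blk z h1 hr (by simp)), H_self]
  exact h2

lemma d_add {l g : G} (h : C.PL z i (l • z) i) (h' : C.PQ z i (g • z)) :
    C.d z ((l * g) • z) = C.d z (l • z) + C.d z (g • z) := by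
  have hb := (take_append_drop i (base M (C.X.wd z))).symm
  have hi : ((base M (C.X.wd z)).take i).length = i := by simp [h.le]
  have hg := hb ▸ gen_base (M := M) (C.X.wd z)
  obtain ⟨p1, p2, A, B, H1, H2, c1, c2, e1, e2, e3⟩ :=
    Spl.letters ⟨_, h, (mul_smul l g z).symm ▸ h'.smul l⟩ hb hi
  obtain ⟨q1, q2, -⟩ := cre z (l • z)
  obtain ⟨q3, q4, -⟩ := cre z (g • z)
  have a1 : C.L z (l • z) = A ++ (base M (C.X.wd z)).drop i := by
    rw [← take_append_drop i (C.L z (l • z)), h.drop, ← (h'.smul l).take, ← mul_smul, e1, L_self,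
      ← e2]
    simp
  have a2 : C.L z (g • z) = (base M (C.X.wd z)).take i ++ B := by
    rw [← take_append_drop i (C.L z (g • z)), h'.take, ← (h.smul g).drop, ← mul_smul,
      ← (commute_of h h').eq, e1, L_self, ← e2]
    simp
  have b1 := st_left z ((L_self z).trans hb) c1.valid
  have b2 := st_right z ((L_self z).trans hb) c2.valid rfl
  rw [c1.run hg.left] at b1
  rw [c2.run hg.right] at b2
  rw [← inj (a1.trans (congrArg Prod.fst b1).symm)] at b1
  rw [← inj (a2.trans (congrArg Prod.fst b2).symm)] at b2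
  rw [d, d, d, e3, show C.H z (l • z) = _ from congrArg Prod.snd b1,
    show C.H z (g • z) = _ from congrArg Prod.snd b2, H_self]
  have hd : Disjoint H1 H2 := Finset.disjoint_left.2 fun c k1 k2 => by
    obtain ⟨_, _, _, _, -, -, k3, -⟩ := c1.find k1
    obtain ⟨t, ht⟩ := exists_mem_of_ne_nil _ (ne_nil_of_lab k3)
    exact Rt.disj hg ((c1.inv hg.left).cwf c k1 t ht) (c1.rt.2 c k1 t ht) (c2.rt.2 c k2 t ht)
  rw [hd.symmDiff_eq_sup, Finset.sup_eq_union, Finset.card_union_of_disjoint hd]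
  exact congrArg₂ (· + ·) (congrArg _ (bot_symmDiff _).symm) (congrArg _ (bot_symmDiff _).symm)

lemma PL.d_move {γ : G} (h : C.PL z i (γ • z) i) (h' : C.PQ z i y) :
    C.d y (γ • y) = C.d z (γ • z) := by
  obtain ⟨u, q, u', r, h1, rfl, h3, h4, h5⟩ := h
  obtain ⟨u2, q2, q', t, a1, a2, a4, rfl⟩ := h'
  obtain ⟨rfl, rfl⟩ := append_inj (h1.symm.trans a1) a2.symm
  have e1 := d_blk (a := []) (by simpa using h1) h4
  have e2 := d_blk (a := []) (by simpa using wd_run (h1 ▸ a4.whiskL u)) h4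
  rw [length_nil, shift_zero] at e1 e2
  rw [C.run_act γ (h1 ▸ a4.whiskL u), h5, e1, ← e2, ← C.X.run_append, ← C.X.run_append,
    ← interchange h1 h4 a4, h3]

/-- Change of the base point inside a block, to a point on an axis. -/
lemma rebase {γ : G} (hQ : C.PQ z k (γ • z)) (hL : C.PL z i (γ • z) i) (hk : k ≤ i) :
    ∃ z' i', C.PQ z k z' ∧ C.PL z i z' i' ∧ C.AR z' γ := by
  have hi := hL.le
  obtain ⟨n, rfl⟩ := Nat.exists_eq_add_of_le hk
  have hb : base M (C.X.wd z) = (base M (C.X.wd z)).take k ++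
      ((base M (C.X.wd z)).drop k).take n ++ (base M (C.X.wd z)).drop (k + n) := by
    rw [← take_add, take_append_drop]
  obtain ⟨p, x', p1, p2⟩ := persist (y := γ • z) hb
    (fun t ht => mem_of_mem_take (by rwa [hQ.take, L_self]))
    (fun t ht => mem_of_mem_drop (by rwa [hL.drop, L_self]))
  have hw := (lab_base (M := M) (C.X.wd z)).symm
  rw [hb, lab, map_append, map_append] at hw
  have l1 : ((base M (C.X.wd z)).take k).length = k := by simp; omega
  have l2 : (((base M (C.X.wd z)).drop k).take n).length = n := by simp; omega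
  rw [l1] at p2
  unfold lab at p1
  generalize ha : map Tm.lab ((base M (C.X.wd z)).take k) = a at hw
  generalize hx : map Tm.lab (((base M (C.X.wd z)).drop k).take n) = x at hw p1
  generalize map Tm.lab ((base M (C.X.wd z)).drop (k + n)) = b at hw
  obtain rfl : a.length = k := by rw [← ha, length_map, l1]
  obtain rfl : x.length = n := by rw [← hx, length_map, l2]
  obtain rfl : x = x' := by
    have := wd_run (hw ▸ p1.whisk a b)
    rw [← p2, C.wd_act, hw, append_assoc, append_assoc, append_cancel_left_eq,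
      append_cancel_right_eq] at this
    exact this
  obtain ⟨x2, p', ⟨α, a1, a2, a3⟩, a4⟩ := exists_ar p1
  have w2 := wd_run (hw ▸ a1.whisk a b)
  have e1 : γ • C.X.run z (shift a.length α) =
      C.X.run (C.X.run z (shift a.length α)) (shift a.length p') := by
    rw [C.run_act γ (hw ▸ a1.whisk a b), p2, ← C.X.run_append, ← C.X.run_append, ← shift_append,
      ← shift_append]
    obtain ⟨A, s, B, h1, rfl, rfl, rfl⟩ := lab_split ((lab_L z z).trans hw)
    refine inj (z := z) ?_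
    rw [L, L, st_blk z h1 (p1.append a1) (by simp), st_blk z h1 (a1.append a2) (by simp),
      a3.srun (x := (s, ∅)) (fun t ht => (inv z z).wf t (by simp [h1, ht])) rfl]
  refine ⟨C.X.run z (shift a.length α), (a ++ x2).length,
    ⟨a, x ++ b, _, α, by simp [hw], rfl, a1.whiskR b, rfl⟩,
    ⟨a ++ x, b, _, _, hw, by simp, rfl, a1.whiskL a, rfl⟩, p'.length, fun n => ?_⟩
  rw [← a4, ← d_blk w2 (pw_valid a2 n)]
  congr 1
  induction n with
  | zero => simp [pw]
  | succ n ih =>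
    rw [pow_succ', mul_smul, ih, C.run_act γ (w2 ▸ (pw_valid a2 n).whisk a b), e1, pw,
      shift_append, C.X.run_append]

end Cover

end Pool.Agent.Lib.MP_24b811_al.Gc
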