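import Pool.Agent.Lib.MP_24b811_al.GcAxis

/-!
# The universal cover, its metric and its halfspaces
-/

set_option autoImplicit false

namespace Pool.Agent.Lib.MP_24b811_al.Gc

open List

universe u v

variable {S M : Type u} {R : Sys S M} {G : Type v} [Group G]

variable (R G) in
/-- A connected and simply connected Squier set with its group of deck transformations. -/
structure Cover where
  X : SqSet R
  act : MulAction G X.Z
  ok : ∀ z, X.ok z
  conn : ∀ z y, ∃ p, Valid R (X.wd z) p (X.wd y) ∧ X.run z p = y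
  univ : ∀ {z p p' w w'}, Valid R (X.wd z) p w → Valid R (X.wd z) p' w' →
    X.run z p = X.run z p' → Hty R (X.wd z) p p'
  wd_act : ∀ (γ : G) z, X.wd (γ • z) = X.wd z
  run_act : ∀ (γ : G) {z p w}, Valid R (X.wd z) p w → γ • X.run z p = X.run (γ • z) p
  free : ∀ (γ : G) (z : X.Z), γ • z = z → γ = 1
  trans : ∀ z y, X.wd z = X.wd y → ∃ γ : G, γ • z = y

namespace Cover

variable (C : Cover R G)

instance : MulAction G C.X.Z := C.act

/-- The state of `y` seen from `z`. -/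
noncomputable def st (z y : C.X.Z) : St S M :=
  srun R (base M (C.X.wd z), ∅) (C.conn z y).choose

/-- The letters of `y` seen from `z`. -/
noncomputable def L (z y : C.X.Z) : List (Tm S M) := (C.st z y).1

/-- The history of `y` seen from `z`. -/
noncomputable def H (z y : C.X.Z) : Finset (Cell S M) := (C.st z y).2

/-- The distance. -/
noncomputable def d (z y : C.X.Z) : ℕ := (C.H z y).card

variable {C}

lemma wd_run {z : C.X.Z} {p : Path M} {w : List S} (h : Valid R (C.X.wd z) p w) :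
    C.X.wd (C.X.run z p) = w := (C.X.run_ok h (C.ok z) rfl).2

lemma run_hty {z : C.X.Z} {p q : Path M} (h : Hty R (C.X.wd z) p q) :
    C.X.run z p = C.X.run z q := h _ z (C.ok z) rfl

lemma st_run {z : C.X.Z} {p : Path M} {w : List S} (h : Valid R (C.X.wd z) p w) :
    C.st z (C.X.run z p) = srun R (base M (C.X.wd z), ∅) p :=
  (C.univ (C.conn z _).choose_spec.1 h (C.conn z _).choose_spec.2).srun (gen_base _).wf
    (lab_base _)

lemma st_self (z : C.X.Z) : C.st z z = (base M (C.X.wd z), ∅) := st_run (p := []) (.nil _)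

lemma L_self (z : C.X.Z) : C.L z z = base M (C.X.wd z) := congrArg Prod.fst (st_self z)

lemma H_self (z : C.X.Z) : C.H z z = ∅ := congrArg Prod.snd (st_self z)

lemma st_run' (z : C.X.Z) {y : C.X.Z} {p : Path M} {w : List S} (h : Valid R (C.X.wd y) p w) :
    C.st z (C.X.run y p) = srun R (C.st z y) p := by
  obtain ⟨q, q1, rfl⟩ := C.conn z y
  rw [← C.X.run_append, st_run (q1.append h), st_run q1, srun_append]

lemma cre (z y : C.X.Z) :
    ∃ q, Cre R (base M (C.X.wd z)) q (C.L z y) (C.H z y) ∧ C.X.run z q = y := by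
  obtain ⟨h1, h2⟩ := (C.conn z y).choose_spec
  obtain ⟨q, q1, q2⟩ := Cre.reach (gen_base (C.X.wd z)) (p := (C.conn z y).choose)
    (by simpa using h1)
  exact ⟨q, q1, (run_hty (by simpa using q2)).symm.trans h2⟩

lemma inv (z y : C.X.Z) : Inv R (C.L z y) (C.H z y) := (cre z y).choose_spec.1.inv (gen_base _)

lemma lab_L (z y : C.X.Z) : lab (C.L z y) = C.X.wd y :=
  (srun_ok (C.conn z y).choose_spec.1 (x := (base M (C.X.wd z), ∅)) (gen_base _).wf
    (lab_base _)).2

lemma length_L (z y : C.X.Z) : (C.L z y).length = (C.X.wd y).length := by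
  rw [← lab_L z y]; simp

lemma inj {z y y' : C.X.Z} (h : C.L z y = C.L z y') : y = y' := by
  obtain ⟨h1, h2⟩ := (C.conn z y).choose_spec
  obtain ⟨h3, h4⟩ := (C.conn z y').choose_spec
  have := hty_of_run (gen_base (C.X.wd z)) (p := (C.conn z y).choose)
    (p' := (C.conn z y').choose) (by simpa using h1) (by simpa using h3) h
  exact h2.symm.trans ((run_hty (by simpa using this)).trans h4)

lemma st_smul (γ : G) (z y : C.X.Z) : C.st (γ • z) (γ • y) = C.st z y := by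
  obtain ⟨q, q1, rfl⟩ := C.conn z y
  rw [C.run_act γ q1, st_run q1, st_run (by rwa [C.wd_act]), C.wd_act]

lemma d_smul (γ : G) (z y : C.X.Z) : C.d (γ • z) (γ • y) = C.d z y := by
  simp only [d, H, st_smul]

lemma d_run {z : C.X.Z} {p : Path M} {w : List S} (h : Valid R (C.X.wd z) p w) :
    C.d z (C.X.run z p) = len R (C.X.wd z) p := by
  simp only [d, H, st_run h, len]

lemma d_eq (z y y' : C.X.Z) : (symmDiff (C.H z y) (C.H z y')).card = C.d y y' := by
  obtain ⟨q, q1, rfl⟩ := C.conn z y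
  obtain ⟨r, r1, r2⟩ := C.conn (C.X.run z q) y'
  rw [← r2, d_run r1, H, H, ← C.X.run_append, st_run q1, st_run (q1.append r1)]
  exact dist_eq (gen_base _) (by simpa using q1) r1

/-- The halfspace of an edge. -/
def half (y : C.X.Z) (e : ℕ × M) : Set C.X.Z := {x | C.d x (C.X.ext y e) < C.d x y}

lemma st_ext (z : C.X.Z) {y : C.X.Z} {A T B : List (Tm S M)} {m : M}
    (h : C.L z y = A ++ T ++ B) (h1 : lab T = R.src m) :
    C.st z (C.X.ext y (A.length, m)) =
      (A ++ rw R T m ++ B, symmDiff (C.H z y) {tog R T m}) := by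
  have h2 : Valid R (C.X.wd y) [(A.length, m)] (lab A ++ R.src (R.inv m) ++ lab B) :=
    .cons (lab A) (lab B) m (by rw [← lab_L z y, h]; simp [h1]) (by simp) (.nil _)
  have h3 := st_run' z h2
  rw [show C.st z y = (A ++ T ++ B, C.H z y) from Prod.ext h rfl, srun_cons,
    step_eq A T B _ rfl h1] at h3
  exact h3

lemma mem_half (z : C.X.Z) {y : C.X.Z} {A T B : List (Tm S M)} {m : M}
    (h : C.L z y = A ++ T ++ B) (h1 : lab T = R.src m) (x : C.X.Z) :
    x ∈ half y (A.length, m) ↔ ¬ (tog R T m ∈ C.H z x ↔ tog R T m ∈ C.H z y) := by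
  have h2 : C.H z (C.X.ext y (A.length, m)) = _ := congrArg Prod.snd (st_ext z h h1)
  change C.d _ _ < C.d _ _ ↔ _
  rw [← d_eq z, ← d_eq z, h2, ← symmDiff_assoc, symmDiff_comm]
  rcases card_symmDiff_single (tog R T m) (symmDiff (C.H z x) (C.H z y)) with h3 | h3 <;>
    rw [Finset.mem_symmDiff] at h3
  · exact iff_of_true (by omega) (by tauto)
  · exact iff_of_false (by omega) (by tauto)

variable (C) in
/-- Halfspaces. -/
def Half (h : Set C.X.Z) : Prop :=
  ∃ y a m b, C.X.wd y = a ++ R.src m ++ b ∧ h = half y (a.length, m)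

lemma Half.cell {h : Set C.X.Z} (hh : C.Half h) (z : C.X.Z) :
    ∃ c, h = {x | c ∈ C.H z x} ∨ h = {x | c ∉ C.H z x} := by
  obtain ⟨y, a, m, b, h1, rfl⟩ := hh
  obtain ⟨A, T, B, h2, rfl, h4, rfl⟩ := lab_split ((lab_L z y).trans h1)
  refine ⟨tog R T m, ?_⟩
  rw [length_map]
  by_cases h5 : tog R T m ∈ C.H z y
  · exact Or.inr (Set.ext fun x => by rw [mem_half z h2 h4]; simp [h5])
  · exact Or.inl (Set.ext fun x => by rw [mem_half z h2 h4]; simp [h5])

lemma half_compl {y : C.X.Z} {a b : List S} {m : M} (h1 : C.X.wd y = a ++ R.src m ++ b) :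
    half (C.X.ext y (a.length, m)) (a.length, R.inv m) = (half y (a.length, m))ᶜ := by
  obtain ⟨A, T, B, h2, rfl, h4, rfl⟩ := lab_split ((lab_L y y).trans h1)
  obtain ⟨-, k2, -, k4⟩ := rw_spec (fun t ht => (inv y y).wf t (by simp [h2, ht])) h4
  have h3 := st_ext y h2 h4
  ext x
  rw [length_map, Set.mem_compl_iff, mem_half y h2 h4, mem_half y (congrArg Prod.fst h3) k2, k4,
    show C.H y (C.X.ext y (A.length, m)) = _ from congrArg Prod.snd h3]
  simp [H_self, Finset.mem_symmDiff]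

lemma Half.compl {h : Set C.X.Z} (hh : C.Half h) : C.Half hᶜ := by
  obtain ⟨y, a, m, b, h1, rfl⟩ := hh
  exact ⟨_, a, R.inv m, b, C.X.wd_ext (C.ok y) h1, (half_compl h1).symm⟩

lemma half_smul (γ : G) {y : C.X.Z} {a b : List S} {m : M} (h1 : C.X.wd y = a ++ R.src m ++ b) :
    {x | γ • x ∈ half y (a.length, m)} = half (γ⁻¹ • y) (a.length, m) := by
  ext x
  have h2 := C.run_act γ⁻¹ (z := y) (h1 ▸ Valid.single a b m)
  change C.d _ _ < C.d _ _ ↔ C.d _ _ < C.d _ _
  rw [← d_smul γ⁻¹, ← d_smul γ⁻¹ (γ • x) y, inv_smul_smul]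
  exact iff_of_eq (congrArg (fun t => C.d x t < _) h2)

lemma Half.smul {h : Set C.X.Z} (hh : C.Half h) (γ : G) : C.Half {x | γ • x ∈ h} := by
  obtain ⟨y, a, m, b, h1, rfl⟩ := hh
  exact ⟨γ⁻¹ • y, a, m, b, by rw [C.wd_act, h1], half_smul γ h1⟩

lemma exists_edge {z y : C.X.Z} {c : Cell S M} (hc : c ∈ C.H z y) :
    ∃ y' A B, C.L z y' = A ++ c.1 ++ B ∧ C.H z y' ⊆ C.H z y ∧ lab c.1 = R.src c.2 ∧
      half y' (A.length, c.2) = {x | c ∈ C.H z x} := by
  obtain ⟨q, q1, -⟩ := cre z y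
  obtain ⟨r, A, B, K, r1, r0, r2, r3⟩ := q1.find hc
  have h1 := st_run (C := C) (z := z) (by simpa using r1.valid)
  rw [r1.run (gen_base _)] at h1
  have h2 : C.L z (C.X.run z r) = _ := congrArg Prod.fst h1
  have h4 : C.H z (C.X.run z r) = K := congrArg Prod.snd h1
  refine ⟨_, A, B, h2, h4 ▸ r0, r2, Set.ext fun x => ?_⟩
  have h3 : c ∉ C.H z (C.X.run z r) := by
    rw [h4]
    exact (r1.inv (gen_base _)).new r2
  rw [mem_half z h2 r2, tog_new r3]
  simp [h3]

lemma half_of_mem {z y : C.X.Z} {c : Cell S M} (hc : c ∈ C.H z y) :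
    C.Half {x | c ∈ C.H z x} := by
  obtain ⟨y', A, B, h1, -, h2, h3⟩ := exists_edge hc
  exact ⟨y', lab A, c.2, lab B, by rw [← lab_L z y', h1]; simp [h2], by simpa using h3.symm⟩

lemma finite_sep (x x' : C.X.Z) : {h | C.Half h ∧ ¬ (x ∈ h ↔ x' ∈ h)}.Finite := by
  refine (((C.H x x').finite_toSet.image fun c => {y | c ∈ C.H x y}).union
    ((C.H x x').finite_toSet.image fun c => {y | c ∉ C.H x y})).subset ?_
  rintro h ⟨h1, h2⟩
  obtain ⟨c, rfl | rfl⟩ := h1.cell x
  · exact Or.inl ⟨c, by simpa [H_self] using h2, rfl⟩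
  · exact Or.inr ⟨c, by simpa [H_self] using h2, rfl⟩

variable (C) in
/-- The point lies on an axis of `g`. -/
def AR (y : C.X.Z) (g : G) : Prop := ∃ m, ∀ n : ℕ, C.d y (g ^ n • y) = n * m

lemma AR.smul {y : C.X.Z} {g h : G} (a : C.AR y g) (hc : Commute h g) : C.AR (h • y) g := by
  obtain ⟨m, hm⟩ := a
  refine ⟨m, fun n => ?_⟩
  rw [← mul_smul, ← (hc.pow_right n).eq, mul_smul, d_smul, hm]

lemma AR.conv {y : C.X.Z} {g : G} (ar : C.AR y g) {h : Set C.X.Z} (hh : C.Half h) {a b c : ℤ}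
    (h1 : a ≤ b) (h2 : b ≤ c) (h3 : g ^ a • y ∈ h ↔ g ^ c • y ∈ h) :
    g ^ b • y ∈ h ↔ g ^ a • y ∈ h := by
  obtain ⟨m, hm⟩ := ar
  have hd : ∀ (a : ℤ) (n : ℕ), C.d (g ^ a • y) (g ^ (a + n) • y) = n * m := fun a n => by
    rw [zpow_add, mul_smul, d_smul, zpow_natCast, hm]
  obtain ⟨k, rfl⟩ := Int.le.dest h1
  obtain ⟨l, rfl⟩ := Int.le.dest h2
  have e1 := hd a k
  have e2 := hd (a + k) l
  have e3 := hd a (k + l)
  rw [Nat.cast_add, ← add_assoc, add_mul, ← e1, ← e2, ← d_eq y, ← d_eq y, ← d_eq y] at e3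
  generalize hA : C.H y (g ^ a • y) = A at e3
  generalize hB : C.H y (g ^ (a + k) • y) = B at e3
  generalize hD : C.H y (g ^ (a + k + l) • y) = D at e3
  have key : ∀ c, (c ∈ A ↔ c ∈ D) → (c ∈ B ↔ c ∈ A) := by
    intro c hc
    by_contra hn
    have h4 : symmDiff A D ⊆ (symmDiff A B).erase c ∪ symmDiff B D := fun t ht => by
      by_cases h5 : t = c
      · subst h5
        simp only [Finset.mem_symmDiff] at ht
        tauto
      · simp only [Finset.mem_symmDiff, Finset.mem_union, Finset.mem_erase] at ht ⊢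
        tauto
    have h5 := (Finset.card_le_card h4).trans (Finset.card_union_le _ _)
    have h6 := Finset.card_erase_add_one (s := symmDiff A B) (a := c) (by
      simp only [Finset.mem_symmDiff]; tauto)
    omega
  obtain ⟨c, rfl | rfl⟩ := hh.cell y <;> simp only [Set.mem_ofPred_eq, hA, hB, hD] at h3 ⊢
  · exact key c h3
  · exact not_congr (key c (not_iff_not.1 h3))

lemma periodic {y y' : C.X.Z} {g : G} {h : Set C.X.Z} (hh : C.Half h) {I : Set ℤ}
    (hI : I.Infinite) (h1 : ∀ n ∈ I, ¬ (g ^ n • y ∈ h ↔ g ^ n • y' ∈ h)) :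
    ∃ p : ℤ, 0 < p ∧ ∀ (k : ℤ) x, g ^ (k * p) • x ∈ h ↔ x ∈ h := by
  obtain ⟨a, -, b, -, hab, h2⟩ := hI.exists_lt_map_eq_of_mapsTo
    (f := fun n => {x | g ^ n • x ∈ h}) (fun n hn => And.intro (hh.smul _) (h1 n hn)) (finite_sep y y')
  have h3 : ∀ x, g ^ (b - a) • x ∈ h ↔ x ∈ h := fun x => by
    have := Set.ext_iff.1 h2 (g ^ (-a) • x)
    simp only [Set.mem_ofPred_eq, ← mul_smul, ← zpow_add] at this
    rw [sub_eq_add_neg, ← this]
    simp
  refine ⟨b - a, by omega, fun k => ?_⟩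
  induction k using Int.induction_on with
  | zero => simp
  | succ k ih => intro x; rw [add_mul, one_mul, zpow_add, mul_smul, ih, h3]
  | pred k ih =>
    intro x
    rw [← h3, ← mul_smul, ← zpow_add, ← ih x]
    congr! 3
    ring

variable (C) in
/-- The axis through `y` enters the halfspace. -/
def Up (y : C.X.Z) (g : G) (h : Set C.X.Z) : Prop :=
  ∃ a b : ℤ, (∀ n ≤ a, g ^ n • y ∉ h) ∧ ∀ n, b ≤ n → g ^ n • y ∈ h

lemma AR.up {y : C.X.Z} {g : G} (ar : C.AR y g) {h : Set C.X.Z} (hh : C.Half h) {a b : ℤ}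
    (hab : a ≤ b) (h1 : g ^ a • y ∉ h) (h2 : g ^ b • y ∈ h) : C.Up y g h :=
  ⟨a, b, fun _ hn h3 => h1 ((ar.conv hh hn hab (iff_of_true h3 h2)).2 h3),
    fun _ hn => by_contra fun h3 => h1 ((ar.conv hh hab hn (iff_of_false h1 h3)).1 h2)⟩

lemma Up.transfer {y y' : C.X.Z} {g : G} {h : Set C.X.Z} (u : C.Up y g h) (ar : C.AR y' g)
    (hh : C.Half h) : C.Up y' g h := by
  obtain ⟨a, b, h1, h2⟩ := u
  have key : ∀ I : Set ℤ, I.Infinite → ¬ ∀ n ∈ I, ¬ (g ^ n • y ∈ h ↔ g ^ n • y' ∈ h) := by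
    intro I hI h3
    obtain ⟨p, hp, h4⟩ := periodic hh hI h3
    exact h1 (-|a| * p) (by nlinarith [neg_abs_le a, abs_nonneg a])
      ((h4 _ _).2 ((h4 _ _).1 (h2 (|b| * p) (by nlinarith [le_abs_self b, abs_nonneg b]))))
  have k1 : ∃ n : ℤ, g ^ n • y' ∈ h := by
    by_contra h3
    exact key _ (Set.Ici_infinite b) fun n hn h4 => h3 ⟨n, h4.1 (h2 n hn)⟩
  obtain ⟨b', hb'⟩ := k1
  have k2 : ∃ n ≤ b', g ^ n • y' ∉ h := by
    by_contra h3
    push Not at h3
    exact key _ (Set.Iic_infinite (min a b')) fun n hn h4 =>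
      h1 n (le_trans hn (min_le_left _ _)) (h4.2 (h3 n (le_trans hn (min_le_right _ _))))
  obtain ⟨a', ha', h3⟩ := k2
  exact ar.up hh ha' h3 hb'

/-- A halfspace that misses one axis contains every axis that it meets. -/
lemma AR.stay {y y' : C.X.Z} {g : G} (ar : C.AR y g) (ar' : C.AR y' g) {h : Set C.X.Z}
    (hh : C.Half h) (h1 : ∀ n : ℤ, g ^ n • y ∉ h) (h2 : y' ∈ h) (n : ℤ) : g ^ n • y' ∈ h := by
  by_contra h3
  have h0 : g ^ (0 : ℤ) • y' ∈ h := by simpa using h2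
  rcases le_total n 0 with hn | hn
  · obtain ⟨a, b, -, h4⟩ := (ar'.up hh hn h3 h0).transfer ar hh
    exact h1 b (h4 b le_rfl)
  · obtain ⟨a, b, h4, -⟩ := (ar'.up hh.compl hn (fun h => h h0) h3).transfer ar hh.compl
    exact h4 a le_rfl (h1 a)

end Cover

end Pool.Agent.Lib.MP_24b811_al.Gc
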