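import Pool.Agent.Lib.MP_24b811_al.GcTerm

/-!
# Creation sequences: normal forms, histories and distances
-/

set_option autoImplicit false

namespace Pool.Agent.Lib.MP_24b811_al.Gc

open List

universe u

variable {S M : Type u} {R : Sys S M}

/-- A list of distinct atoms. -/
def Gen (s : List (Tm S M)) : Prop := s.Nodup ∧ ∀ t ∈ s, ∃ i a, t = .atom i a

variable (R) in
/-- Paths in which every move creates a cell, with end state and history. -/
inductive Cre (s0 : List (Tm S M)) : Path M → List (Tm S M) → Finset (Cell S M) → Prop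
  | nil : Cre s0 [] s0 ∅
  | snoc {p : Path M} {s : List (Tm S M)} {H : Finset (Cell S M)} (A T B : List (Tm S M)) (m : M)
      (hs : s = A ++ T ++ B) (h : Cre s0 p s H) (h1 : lab T = R.src m) (h2 : ¬ Undo R T m) :
      Cre s0 (p ++ [(A.length, m)]) (A ++ bot R (T, m) ++ B) (insert (T, m) H)

variable (R) in
/-- The invariants of a state with its history. -/
structure Inv (s : List (Tm S M)) (H : Finset (Cell S M)) : Prop where
  nodup : s.Nodup
  mem : ∀ {T m j a}, Tm.out T m j a ∈ s → (T, m) ∈ H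
  gone : ∀ c ∈ H, ∀ t ∈ c.1, t ∉ s
  disj : ∀ c ∈ H, ∀ d ∈ H, ∀ t ∈ c.1, t ∈ d.1 → c = d
  anc : ∀ c ∈ H, ∀ {T m j a}, Tm.out T m j a ∈ c.1 → (T, m) ∈ H
  wf : ∀ t ∈ s, WF R t
  cwf : ∀ c ∈ H, ∀ t ∈ c.1, WF R t

variable {s0 s s' : List (Tm S M)} {H H' : Finset (Cell S M)} {p p' : Path M}

lemma ne_nil_of_lab {T : List (Tm S M)} {m : M} (h : lab T = R.src m) : T ≠ [] := fun h1 =>
  R.src_ne m (by rw [← h, h1]; rfl)

lemma Inv.new {A T B : List (Tm S M)} {m : M} (I : Inv R (A ++ T ++ B) H)
    (h1 : lab T = R.src m) : (T, m) ∉ H := fun h => by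
  obtain ⟨t, ht⟩ := exists_mem_of_ne_nil _ (ne_nil_of_lab h1)
  exact I.gone _ h t ht (by simp [ht])

lemma Inv.mem_of_bot (I : Inv R s H) {c : Cell S M} {t : Tm S M} (h : t ∈ bot R c) (ht : t ∈ s) :
    c ∈ H := by
  obtain ⟨j, a, rfl⟩ := mem_bot h
  exact I.mem ht

lemma Inv.anc_of_bot (I : Inv R s H) {c d : Cell S M} {t : Tm S M} (h : t ∈ bot R c) (hd : d ∈ H)
    (ht : t ∈ d.1) : c ∈ H := by
  obtain ⟨j, a, rfl⟩ := mem_bot h
  exact I.anc d hd ht

lemma Cre.inv (hg : Gen s0) (h : Cre R s0 p s H) : Inv R s H := by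
  induction h with
  | nil =>
    refine ⟨hg.1, fun h => ?_, by simp, by simp, by simp, fun t ht => ?_, by simp⟩
    · obtain ⟨i, a, h1⟩ := hg.2 _ h
      cases h1
    · obtain ⟨i, a, rfl⟩ := hg.2 _ ht
      exact .atom i a
  | @snoc p s H A T B m hs _ h1 h2 I =>
    subst hs
    have hn := I.new h1
    have hnd := I.nodup
    simp only [nodup_append, mem_append] at hnd
    have hT : ∀ t ∈ T, t ∈ A ++ T ++ B := fun t ht => by simp [ht]
    have hb : ∀ t ∈ bot R (T, m), t ∉ A ++ T ++ B := fun t ht h => hn (I.mem_of_bot ht h)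
    refine ⟨?_, fun {T' m' j a} h => ?_, fun c hc t ht h => ?_, fun c hc d hd t ht ht' => ?_,
      fun c hc T' m' j a h => ?_, fun t ht => ?_, fun c hc t ht => ?_⟩
    · simp only [nodup_append, mem_append]
      refine ⟨⟨hnd.1.1, bot_nodup _, ?_⟩, hnd.2.1, ?_⟩
      · rintro a ha b hb' rfl
        exact hb a hb' (by simp [ha])
      · rintro a (ha | ha) b hb' rfl
        exacts [hnd.2.2 a (Or.inl ha) a hb' rfl, hb a ha (by simp [hb'])]
    · simp only [mem_append] at h
      rcases h with (h | h) | h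
      · exact Finset.mem_insert_of_mem (I.mem (j := j) (a := a) (by simp [h]))
      · obtain ⟨j', a', h3⟩ := mem_bot h
        obtain ⟨h4, h5, -⟩ := Tm.out_inj h3
        simp [h4, h5]
      · exact Finset.mem_insert_of_mem (I.mem (j := j) (a := a) (by simp [h]))
    · simp only [mem_append] at h
      rcases Finset.mem_insert.1 hc with rfl | hc
      · rcases h with (h | h) | h
        exacts [hnd.1.2.2 t h t ht rfl, hb t h (hT t ht), hnd.2.2 t (Or.inr ht) t h rfl]
      · rcases h with (h | h) | h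
        exacts [I.gone c hc t ht (by simp [h]), hn (I.anc_of_bot h hc ht),
          I.gone c hc t ht (by simp [h])]
    · rcases Finset.mem_insert.1 hc with rfl | hc <;> rcases Finset.mem_insert.1 hd with rfl | hd
      exacts [rfl, absurd (hT t ht) (I.gone d hd t ht'), absurd (hT t ht') (I.gone c hc t ht),
        I.disj c hc d hd t ht ht']
    · refine Finset.mem_insert_of_mem ?_
      rcases Finset.mem_insert.1 hc with rfl | hc
      exacts [I.mem (hT _ h), I.anc c hc h]
    · simp only [mem_append] at ht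
      rcases ht with (h | h) | h
      · exact I.wf t (by simp [h])
      · obtain ⟨j, a, rfl⟩ := mem_bot h
        exact .out j a (fun t ht => I.wf t (hT t ht)) h1 h2
      · exact I.wf t (by simp [h])
    · rcases Finset.mem_insert.1 hc with rfl | hc
      exacts [I.wf t (hT t ht), I.cwf c hc t ht]

lemma Gen.wf (hg : Gen s0) : ∀ t ∈ s0, WF R t := (Cre.inv (R := R) hg .nil).wf

lemma Cre.valid (h : Cre R s0 p s H) : Valid R (lab s0) p (lab s) := by
  induction h with
  | nil => exact .nil _
  | snoc A T B m hs _ h1 h2 ih =>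
    subst hs
    refine ih.append ?_
    have := Valid.single (R := R) (lab A) (lab B) m
    simpa [h1, lab_bot] using this

lemma symmDiff_new {c : Cell S M} (h : c ∉ H) : symmDiff H {c} = insert c H := by
  ext d
  by_cases hd : d = c <;> simp [Finset.mem_symmDiff, hd, h]

lemma symmDiff_old {c : Cell S M} (h : c ∈ H) : symmDiff H {c} = H.erase c := by
  ext d
  by_cases hd : d = c <;> simp [Finset.mem_symmDiff, hd, h]

lemma Cre.run (hg : Gen s0) (h : Cre R s0 p s H) : srun R (s0, ∅) p = (s, H) := by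
  induction h with
  | nil => rfl
  | snoc A T B m hs h h1 h2 ih =>
    subst hs
    rw [srun_append, ih]
    change step R _ _ = _
    rw [step_eq A T B _ rfl h1, rw_new h2, tog_new h2, symmDiff_new ((h.inv hg).new h1)]

lemma Cre.card (hg : Gen s0) (h : Cre R s0 p s H) : H.card = p.length := by
  induction h with
  | nil => rfl
  | snoc A T B m hs h h1 h2 ih =>
    subst hs
    rw [Finset.card_insert_of_notMem ((h.inv hg).new h1), ih]
    simp

lemma split_disj {α : Type u} {A X B A' Y B' : List α} (h : A ++ X ++ B = A' ++ Y ++ B')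
    (hX : X ≠ []) (hY : Y ≠ []) (hd : ∀ t ∈ X, t ∉ Y) :
    (∃ C, A' = A ++ X ++ C ∧ B = C ++ Y ++ B') ∨ ∃ C, A = A' ++ Y ++ C ∧ B' = C ++ X ++ B := by
  have key : ∀ {A X B A' Y B' C : List α}, X ≠ [] → Y ≠ [] → (∀ t ∈ X, t ∉ Y) → A' = A ++ C →
      X ++ B = C ++ (Y ++ B') → ∃ C, A' = A ++ X ++ C ∧ B = C ++ Y ++ B' := by
    intro A X B A' Y B' C hX hY hd h1 h2
    rcases append_eq_append_iff.1 h2 with ⟨D, h3, h4⟩ | ⟨D, h3, h4⟩
    · exact ⟨D, by simp [h1, h3], by simp [h4]⟩
    · rcases D with _ | ⟨d, D⟩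
      · exact ⟨[], by simpa [h3] using h1, by simpa using h4.symm⟩
      · obtain ⟨y, Y', rfl⟩ := exists_cons_of_ne_nil hY
        simp only [cons_append, cons.injEq] at h4
        exact absurd (by simp [h4.1]) (hd d (by simp [h3]))
  rw [append_assoc, append_assoc] at h
  rcases append_eq_append_iff.1 h with ⟨C, h1, h2⟩ | ⟨C, h1, h2⟩
  · exact Or.inl (key hX hY hd h1 h2)
  · exact Or.inr (key hY hX (fun t a b => hd t b a) h1 h2)

lemma split_same {α : Type u} {A X B A' B' : List α} (h : A ++ X ++ B = A' ++ X ++ B')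
    (hX : X ≠ []) (hn : (A ++ X ++ B).Nodup) : A = A' ∧ B = B' := by
  obtain ⟨x, X', rfl⟩ := exists_cons_of_ne_nil hX
  have h1 : A.length = A'.length := by
    have hn' := h ▸ hn
    simp only [append_assoc, cons_append] at h hn hn'
    have a1 : x ∉ A := fun hx => (nodup_append.1 hn).2.2 x hx x (by simp) rfl
    have a2 : x ∉ A' := fun hx => (nodup_append.1 hn').2.2 x hx x (by simp) rfl
    classical
    have := congrArg (idxOf x) h
    rwa [idxOf_append_of_notMem a1, idxOf_append_of_notMem a2, idxOf_cons_self,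
      idxOf_cons_self, add_zero, add_zero] at this
  exact ⟨(blk_unique h h1 rfl).1, (blk_unique h h1 rfl).2.2⟩

lemma Hty.square {w a b c : List S} {m m' : M} {n n1 n2 : ℕ}
    (h : Valid R w p (a ++ R.src m ++ b ++ R.src m' ++ c)) (h0 : n = a.length)
    (h1 : n1 = a.length + (R.src (R.inv m)).length + b.length)
    (h2 : n2 = a.length + (R.src m).length + b.length) :
    Hty R w (p ++ [(n, m)] ++ [(n1, m')]) (p ++ [(n2, m')] ++ [(n, m)]) := fun X z k1 k2 => by
  subst h0 h1 h2
  simp only [SqSet.run_append, SqSet.run_cons, SqSet.run_nil]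
  exact X.square (X.run_ok h k1 k2).1 (X.run_ok h k1 k2).2

/-- A cell whose bottom is present can be taken as the last one created. -/
lemma Cre.undo (hg : Gen s0) (h : Cre R s0 p s H) {A B : List (Tm S M)} {c : Cell S M}
    (hs : s = A ++ bot R c ++ B) :
    ∃ q, Cre R s0 q (A ++ c.1 ++ B) (H.erase c) ∧ Hty R (lab s0) p (q ++ [(A.length, c.2)]) := by
  induction h generalizing A B with
  | nil =>
    obtain ⟨t, ht⟩ := exists_mem_of_ne_nil _ (bot_ne (R := R) c)
    exact absurd ((Cre.inv hg .nil).mem_of_bot ht (by simp [hs, ht])) (by simp)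
  | @snoc p s H A' T B' m hs' h h1 h2 ih =>
    subst hs'
    have I := (Cre.snoc A' T B' m rfl h h1 h2).inv hg
    by_cases hc : c = (T, m)
    · subst hc
      obtain ⟨rfl, rfl⟩ := split_same hs (bot_ne _) I.nodup
      rw [Finset.erase_insert ((h.inv hg).new h1)]
      exact ⟨p, h, .refl _ _⟩
    have k2 : lab c.1 = R.src c.2 := (wf_bot fun t ht => I.wf t (by simp [hs, ht])).2.1
    have e1 : T.length = (R.src m).length := by rw [← h1]; simp
    have e2 : c.1.length = (R.src c.2).length := by rw [← k2]; simp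
    have e3 : ∀ d : Cell S M, (bot R d).length = (R.src (R.inv d.2)).length := fun d => by
      rw [← lab_bot]; simp
    rw [Finset.erase_insert_of_ne (Ne.symm hc)]
    rcases split_disj hs (bot_ne _) (bot_ne _) (fun t a b => hc (eq_of_mem_bot b a)) with
      ⟨C, rfl, rfl⟩ | ⟨C, rfl, rfl⟩
    · obtain ⟨q, q1, q2⟩ := ih (A := A' ++ T ++ C) (B := B) (by simp)
      refine ⟨_, by simpa using Cre.snoc A' T (C ++ c.1 ++ B) m (by simp) q1 h1 h2, ?_⟩
      refine (q2.append_right _).trans (Hty.square (a := lab A') (b := lab C) (c := lab B)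
        (by simpa [h1, k2] using q1.valid) (by simp) (by simp [e3, add_assoc])
        (by simp [e1, add_assoc])).symm
    · obtain ⟨q, q1, q2⟩ := ih (A := A) (B := C ++ T ++ B') (by simp)
      refine ⟨_, by simpa using Cre.snoc (A ++ c.1 ++ C) T B' m (by simp) q1 h1 h2, ?_⟩
      refine (q2.append_right _).trans (Hty.square (a := lab A) (b := lab C) (c := lab B')
        (by simpa [h1, k2] using q1.valid) (by simp) (by simp [e3, add_assoc])
        (by simp [e2, add_assoc]))

lemma Valid.of_single {w w' : List S} {e : ℕ × M} (h : Valid R w [e] w') :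
    ∃ a b m, w = a ++ R.src m ++ b ∧ e = (a.length, m) ∧ w' = a ++ R.src (R.inv m) ++ b := by
  cases h with
  | cons a b m hw he h =>
    cases h
    exact ⟨a, b, m, hw, he, rfl⟩

/-- Normal form: every path is homotopic to a creation sequence. -/
lemma exists_cre (hg : Gen s0) {w : List S} (h : Valid R (lab s0) p w) :
    ∃ q s H, Cre R s0 q s H ∧ Hty R (lab s0) p q := by
  induction p using reverseRecOn generalizing w with
  | nil => exact ⟨[], _, _, .nil, .refl _ _⟩
  | append_singleton p e ih =>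
    obtain ⟨w', h1, h2⟩ := h.of_append
    obtain ⟨q, s, H, q1, q2⟩ := ih h1
    obtain ⟨a, b, m, rfl, rfl, rfl⟩ := h2.of_single
    have h3 : lab s = a ++ R.src m ++ b := by
      have := (srun_ok h1 (x := (s0, ∅)) hg.wf rfl).2
      rwa [q2.srun hg.wf rfl, q1.run hg] at this
    obtain ⟨A, T, B, rfl, rfl, h4, rfl⟩ := lab_split h3
    rw [length_map]
    by_cases hu : Undo R T m
    · obtain ⟨c, rfl, rfl⟩ := hu.eq_bot
      obtain ⟨r, r1, r2⟩ := q1.undo hg rfl
      refine ⟨r, _, _, r1, ((q2.trans r2).append_right _).trans fun X z k1 k2 => ?_⟩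
      have k3 := X.run_ok r1.valid k1 k2
      have k4 : lab c.1 = R.src c.2 :=
        (wf_bot fun t ht => (q1.inv hg).wf t (by simp [ht])).2.1
      simp only [SqSet.run_append, SqSet.run_cons, SqSet.run_nil]
      simpa using X.cancel (a := lab A) (b := lab B) (m := c.2) k3.1 (by simpa [k4] using k3.2)
    · exact ⟨_, _, _, .snoc A T B m rfl q1 h4 hu, q2.append_right _⟩

lemma Cre.reach (hg : Gen s0) {w : List S} (h : Valid R (lab s0) p w) :
    ∃ q, Cre R s0 q (srun R (s0, ∅) p).1 (srun R (s0, ∅) p).2 ∧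
      Hty R (lab s0) p q := by
  obtain ⟨q, s, H, q1, q2⟩ := exists_cre hg h
  refine ⟨q, ?_, q2⟩
  rw [q2.srun hg.wf rfl, q1.run hg]
  exact q1

lemma Cre.uniq (hg : Gen s0) (h : Cre R s0 p s H) (h' : Cre R s0 p' s H') :
    Hty R (lab s0) p p' := by
  induction h generalizing p' H' with
  | nil =>
    generalize hs : s0 = s1 at h'
    rw [← hs]
    have h'' : Cre R s0 p' s1 H' := hs ▸ (hs ▸ h' : Cre R s0 p' s0 H')
    clear h'
    cases h'' with
    | nil => exact .refl _ _
    | snoc A T B m _ _ _ _ =>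
      obtain ⟨t, ht⟩ := exists_mem_of_ne_nil _ (bot_ne (R := R) (T, m))
      exact absurd ((Cre.inv hg .nil).mem_of_bot ht (by simp [hs, ht])) (by simp)
  | snoc A T B m hs _ _ _ ih =>
    subst hs
    obtain ⟨q, q1, q2⟩ := h'.undo hg rfl
    exact ((ih q1).append_right _).trans q2.symm

/-- Two paths with the same end state are homotopic. -/
theorem hty_of_run (hg : Gen s0) {w w' : List S} (h : Valid R (lab s0) p w)
    (h' : Valid R (lab s0) p' w')
    (e : (srun R (s0, ∅) p).1 = (srun R (s0, ∅) p').1) : Hty R (lab s0) p p' := by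
  obtain ⟨q, q1, q2⟩ := Cre.reach hg h
  obtain ⟨q', q1', q2'⟩ := Cre.reach hg h'
  rw [← e] at q1'
  exact (q2.trans (q1.uniq hg q1')).trans q2'.symm

/-- A maximal cell has its whole bottom in the state. -/
lemma Cre.bot_of_max (h : Cre R s0 p s H) {c : Cell S M} (hc : c ∈ H)
    (hm : ∀ d ∈ H, ∀ t ∈ d.1, t ∉ bot R c) : ∃ A B, s = A ++ bot R c ++ B := by
  induction h with
  | nil => simp at hc
  | snoc A T B m hs _ h1 _ ih =>
    rcases Finset.mem_insert.1 hc with rfl | hc'
    · exact ⟨A, B, rfl⟩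
    obtain ⟨A', B', h3⟩ := ih hc' fun d hd => hm d (Finset.mem_insert_of_mem hd)
    rcases split_disj (hs.symm.trans h3) (ne_nil_of_lab h1) (bot_ne _)
      (hm (T, m) (Finset.mem_insert_self _ _)) with ⟨C, rfl, rfl⟩ | ⟨C, rfl, rfl⟩
    · exact ⟨A ++ bot R (T, m) ++ C, B', by simp⟩
    · exact ⟨A', C ++ bot R (T, m) ++ B, by simp⟩

lemma Cre.eq_of_hist (hg : Gen s0) (h : Cre R s0 p s H) (h' : Cre R s0 p' s' H) : s = s' := by
  induction h generalizing p' s' with
  | nil =>
    have h1 := h'.card hg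
    rw [Finset.card_empty, eq_comm, length_eq_zero_iff] at h1
    subst h1
    exact congrArg Prod.fst (h'.run hg)
  | @snoc p s H A T B m hs h h1 h2 ih =>
    subst hs
    have I := (Cre.snoc A T B m rfl h h1 h2).inv hg
    obtain ⟨A', B', rfl⟩ := h'.bot_of_max (Finset.mem_insert_self (T, m) H)
      fun d hd t ht hb => I.gone d hd t ht (by simp [hb])
    obtain ⟨q, q1, -⟩ := h'.undo hg rfl
    rw [Finset.erase_insert ((h.inv hg).new h1)] at q1
    obtain ⟨rfl, rfl⟩ := split_same (ih q1) (ne_nil_of_lab h1) (h.inv hg).nodup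
    rfl

lemma Cre.exists_max (hg : Gen s0) (h : Cre R s0 p s H) (I : Inv R s' H') (hn : ¬ H ⊆ H') :
    ∃ c ∈ H, c ∉ H' ∧ ∀ d ∈ H, ∀ t ∈ d.1, t ∉ bot R c := by
  induction h with
  | nil => simp at hn
  | @snoc p s H A T B m hs h h1 h2 ih =>
    by_cases hd : (T, m) ∈ H'
    · obtain ⟨c, c1, c2, c3⟩ := ih fun h3 => hn (Finset.insert_subset hd h3)
      refine ⟨c, Finset.mem_insert_of_mem c1, c2, fun d hd' t ht hb => ?_⟩
      rcases Finset.mem_insert.1 hd' with rfl | hd'
      exacts [c2 (I.anc_of_bot hb hd ht), c3 d hd' t ht hb]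
    · exact ⟨_, Finset.mem_insert_self _ _, hd, fun d hd' t ht hb =>
        ((Cre.snoc A T B m hs h h1 h2).inv hg).gone d hd' t ht (by simp [hb])⟩

/-- The histories give an upper bound for the distance of two states. -/
lemma Cre.exists_path (hg : Gen s0) (n : ℕ) : ∀ {p p' : Path M} {s s' : List (Tm S M)}
    {H H' : Finset (Cell S M)}, Cre R s0 p s H → Cre R s0 p' s' H' → (symmDiff H H').card = n →
    ∃ r, Valid R (lab s) r (lab s') ∧ srun R (s, H) r = (s', H') ∧ r.length = n := by
  induction n with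
  | zero =>
    intro p p' s s' H H' h h' hn
    obtain rfl : H = H' := symmDiff_eq_bot.1 (Finset.card_eq_zero.1 hn)
    obtain rfl := h.eq_of_hist hg h'
    exact ⟨[], .nil _, rfl, rfl⟩
  | succ n ih =>
    have key : ∀ {p p' : Path M} {s s' : List (Tm S M)} {H H' : Finset (Cell S M)},
        Cre R s0 p s H → Cre R s0 p' s' H' → (symmDiff H H').card = n + 1 → ¬ H ⊆ H' →
        ∃ r, Valid R (lab s) r (lab s') ∧ srun R (s, H) r = (s', H') ∧
          r.length = n + 1 := by
      intro p p' s s' H H' h h' hn hs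
      obtain ⟨c, c1, c2, c3⟩ := h.exists_max hg (h'.inv hg) hs
      obtain ⟨A, B, rfl⟩ := h.bot_of_max c1 c3
      obtain ⟨q, q1, -⟩ := h.undo hg rfl
      have k2 : lab c.1 = R.src c.2 :=
        (wf_bot fun t ht => (h.inv hg).wf t (by simp [ht])).2.1
      obtain ⟨r, r1, r2, r3⟩ := ih q1 h' (by
        have : symmDiff (H.erase c) H' = (symmDiff H H').erase c := by
          ext d
          by_cases hd : d = c <;> simp [Finset.mem_symmDiff, hd, c2]
        rw [this, Finset.card_erase_of_mem (by simp [Finset.mem_symmDiff, c1, c2]), hn]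
        rfl)
      refine ⟨(A.length, R.inv c.2) :: r, .cons (lab A) (lab B) (R.inv c.2) (by simp [lab_bot])
        (by simp) (by simpa [R.inv_inv, k2] using r1), ?_, by simp [r3]⟩
      rw [srun_cons, step_eq A _ B H rfl (lab_bot c), rw_bot, tog_bot, symmDiff_old c1, r2]
    intro p p' s s' H H' h h' hn
    by_cases hs : H ⊆ H'
    · obtain ⟨r, r1, r2, r3⟩ := key h' h (by rwa [symmDiff_comm]) fun h1 => by
        rw [Finset.Subset.antisymm hs h1] at hn
        simp at hn
      refine ⟨pinv R r, r1.inv, ?_, by simp [r3]⟩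
      rw [← r2]
      exact srun_pinv r1 (h'.inv hg).wf rfl
    · exact key h h' hn hs

lemma card_symmDiff_run (x : St S M) (r : Path M) :
    (symmDiff x.2 (srun R x r).2).card ≤ r.length := by
  induction r generalizing x with
  | nil => simp
  | cons e r ih =>
    refine le_trans (Finset.card_le_card (symmDiff_triangle x.2 (step R x e).2 _)) ?_
    refine (Finset.card_union_le _ _).trans ?_
    have h1 : (symmDiff x.2 (step R x e).2).card = 1 := by
      simp [step, symmDiff_symmDiff_cancel_left]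
    have h2 := ih (step R x e)
    rw [h1, length_cons, add_comm]
    exact Nat.succ_le_succ h2

end Pool.Agent.Lib.MP_24b811_al.Gc
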