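import Pool.Agent.Lib.MP_24b811_al.GcBlock

/-!
# Centralisers respect the cut at the first letter that is rewritten
-/

set_option autoImplicit false

namespace Pool.Agent.Lib.MP_24b811_al.Gc

open List

universe u v

variable {S M : Type u} {R : Sys S M} {G : Type v} [Group G]

namespace Cover

variable {C : Cover R G} {z y : C.X.Z} {i j k : ℕ} {g h l : G}

variable (C) in
/-- `g` splits at the cut `i` and rewrites the first letter after the cut. -/
def Touch (z : C.X.Z) (g : G) (i : ℕ) : Prop :=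
  C.Spl z i (g • z) i ∧ ∃ s1 ρ s2, base M (C.X.wd z) = s1 ++ ρ :: s2 ∧ s1.length = i ∧
    ρ ∉ C.L z (g • z)

lemma consumed {ρ : Tm S M} (h1 : ρ ∈ base M (C.X.wd z)) (h2 : ρ ∉ C.L z y) :
    ∃ d ∈ C.H z y, ρ ∈ d.1 := (cre z y).choose_spec.1.consumed h1 h2

lemma up_first {ρ : Tm S M} (ar : C.AR z g) (ar' : C.AR y g) (h1 : ρ ∈ base M (C.X.wd z))
    (h2 : ρ ∉ C.L z (g • z)) : ∃ (d : Cell S M) (a b : ℤ), ρ ∈ d.1 ∧ d ∉ C.H z (g ^ a • y) ∧
      d ∈ C.H z (g ^ b • y) := by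
  obtain ⟨d, d1, d2⟩ := consumed h1 h2
  have hh := half_of_mem d1
  obtain ⟨a, b, k1, k2⟩ := (ar.up hh zero_le_one (by simp [H_self]) (by simpa using d1)).transfer
    ar' hh
  exact ⟨d, a, b, d2, k1 a le_rfl, k2 b le_rfl⟩

lemma not_stay {ρ : Tm S M} (ar : C.AR z g) (ar' : C.AR y g) (h1 : ρ ∈ base M (C.X.wd z))
    (h2 : ρ ∉ C.L z (g • z)) {c : Cell S M} {μ : Tm S M} (hμ : μ ∈ c.1) (hl : Lm ρ μ) :
    ¬ ∀ n : ℤ, c ∈ C.H z (g ^ n • y) := by
  intro hc
  obtain ⟨d, a, b, d1, d2, d3⟩ := up_first ar ar' h1 h2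
  have k0 : ∀ d' : Cell S M, ρ ∈ d'.1 → ¬ ∀ n : ℤ, d' ∈ C.H z (g ^ n • y) := fun d' k1 k2 =>
    d2 ((inv z _).disj _ (k2 b) _ d3 ρ k1 d1 ▸ k2 a)
  rcases hl.root R with rfl | ⟨d', k1, k2⟩
  exacts [k0 c hμ hc, k0 d' k1 fun n => k2 _ _ (inv z _) (Or.inr ⟨c, hc n, hμ⟩)]

lemma not_stay' {ρ : Tm S M} (ar : C.AR z g) (ar' : C.AR y g) (h1 : ρ ∈ base M (C.X.wd z))
    (h2 : ρ ∉ C.L z (g • z)) {μ : Tm S M} (hl : Lm ρ μ) : ¬ ∀ n : ℤ, μ ∈ C.L z (g ^ n • y) := by
  intro hc
  rcases hl.root R with rfl | ⟨d', k1, k2⟩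
  · obtain ⟨d, a, b, d1, -, d3⟩ := up_first ar ar' h1 h2
    exact (inv z _).gone d d3 μ d1 (hc b)
  · exact not_stay ar ar' h1 h2 k1 .base fun n => k2 _ _ (inv z _) (Or.inl (hc n))

lemma letter_zpow (hK : ∀ x, (C.L x (g • z))[j]? = (C.L x z)[j]?) (n : ℤ) :
    ∀ x, (C.L x (g ^ n • z))[j]? = (C.L x z)[j]? := by
  have h1 : ∀ (γ : G) x, (C.L x (γ • g • z))[j]? = (C.L x (γ • z))[j]? := fun γ x => by
    have := hK (γ⁻¹ • x)
    rwa [L, L, ← st_smul γ, ← st_smul γ _ z, smul_inv_smul] at this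
  induction n using Int.induction_on with
  | zero => simp
  | succ n ih => intro x; rw [zpow_add_one, mul_smul, h1, ih]
  | pred n ih => intro x; rw [← h1, ← mul_smul, ← zpow_add_one, sub_add_cancel, ih]

theorem cut (ar : C.AR z g) (ht : C.Touch z g i) (hc : Commute h g) :
    ∃ j, C.Spl z i (h • z) j ∧ C.Touch z g j := by
  obtain ⟨hs, s1, ρ, s2, hb, rfl, hρ⟩ := ht
  have hg := hb ▸ gen_base (M := M) (C.X.wd z)
  have ar' := ar.smul hc
  have m1 : ρ ∈ base M (C.X.wd z) := by simp [hb]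
  obtain ⟨q, q1, -⟩ := cre z (h • z)
  obtain ⟨p1, p2, A, B, H1, H2, c1, c2, e1⟩ := (hb ▸ q1).split hg (by
    intro c hc' t ht μ hμ r1 r2 hl
    by_cases hn : ∃ n : ℤ, c ∈ C.H z (g ^ n • z)
    · obtain ⟨n, hn⟩ := hn
      obtain ⟨_, _, _, _, _, _, k1, k2, -, -, k3⟩ := (hs.zpow n).letters hb rfl
      rw [k3, Finset.mem_symmDiff] at hn
      rcases hn with hn | hn
      · exact Rt.disj hg ((inv z _).cwf c hc' μ hμ) (k1.rt.2 c hn.1 μ hμ) r2
      · exact Rt.disj hg ((inv z _).cwf c hc' t ht) r1 (k2.rt.2 c hn.1 t ht)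
    · exact not_stay ar ar' m1 hρ hμ hl
        (ar.stay ar' (half_of_mem hc') (fun n k => hn ⟨n, k⟩) hc'))
  have sp := spl_of_cre hb c1 c2 e1
  obtain ⟨μ, B', rfl, k1, -⟩ := c2.lm hg.right
  have hs' : C.Spl z A.length (g • z) A.length := by
    have := ((sp.symm.trans hs).trans (sp.smul g)).smul h⁻¹
    rwa [inv_smul_smul, ← mul_smul g, ← hc.eq, mul_smul, inv_smul_smul] at this
  have hj : A.length < (base M (C.X.wd z)).length := by
    have := length_L z (h • z)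
    rw [e1, C.wd_act] at this
    simp [← this]
  refine ⟨_, sp, hs', _, _, _, (take_append_drop A.length _).symm.trans
    (by rw [drop_eq_getElem_cons hj]), by rw [length_take, min_eq_left hj.le], fun hm => ?_⟩
  obtain ⟨y1, y2, y3⟩ := hs'
  have y4 := keep y2 y3 ((take_append_drop A.length _).symm.trans
    (by rw [drop_eq_getElem_cons hj])) (by rw [length_take, min_eq_left hj.le]) hm
  have hK : ∀ x, (C.L x (g • z))[A.length]? = (C.L x z)[A.length]? := fun x => by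
    have a1 := congrArg (·[A.length]?) (y4.take x)
    have a2 := congrArg (·[0]?) (y2.drop x)
    simp only [getElem?_take, Nat.lt_succ_self, if_true, getElem?_drop, add_zero] at a1 a2
    exact a1.trans a2
  refine not_stay' ar ar' m1 hρ k1 fun n => ?_
  have a1 := letter_zpow hK n (h⁻¹ • z)
  rw [L, L, ← st_smul h, ← st_smul h _ z, smul_inv_smul, ← mul_smul, (hc.zpow_right n).eq,
    mul_smul] at a1
  refine mem_of_getElem? (a1.trans ?_)
  rw [show (C.st z (h • z)).1 = _ from e1]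
  simp

lemma Touch.lt (ht : C.Touch z g i) : i < (C.X.wd z).length := by
  obtain ⟨-, s1, ρ, s2, hb, rfl, -⟩ := ht
  rw [← length_base (M := M) (C.X.wd z), hb]
  simp

lemma not_lt_cut (ar : C.AR z g) (hc : Commute h g) (ht : C.Touch z g j)
    (hs : C.Spl z i (h • z) j) : ¬ i < j := by
  intro hij
  have key : ∀ n, ∃ i j, C.Touch z g j ∧ C.Spl z i (h • z) j ∧ i < j ∧ n ≤ j := by
    intro n
    induction n with
    | zero => exact ⟨i, j, ht, hs, hij, Nat.zero_le _⟩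
    | succ n ih =>
      obtain ⟨a, b, k1, k2, k3, k4⟩ := ih
      obtain ⟨c, k5, k6⟩ := cut ar k1 hc
      have : b < c := lt_of_not_ge fun k7 => absurd (k5.symm.mono k2.symm k7) (by omega)
      exact ⟨b, c, k6, k5, this, by omega⟩
  obtain ⟨a, b, k1, -, -, k4⟩ := key (C.X.wd z).length
  exact absurd k1.lt (by omega)

theorem cut_fix (ar : C.AR z g) (ht : C.Touch z g i) (hc : Commute h g) :
    C.Spl z i (h • z) i := by
  obtain ⟨j, h1, h2⟩ := cut ar ht hc
  have h3 := h1.symm.smul h⁻¹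
  rw [inv_smul_smul] at h3
  have a1 := not_lt_cut ar hc h2 h1
  have a2 := not_lt_cut ar hc.inv_left ht h3
  rwa [show j = i by omega] at h1

lemma Spl.factor (hs : C.Spl z i (h • z) i) :
    ∃ l q, C.PL z i (l • z) i ∧ C.PQ z i (q • z) ∧ h = l * q := by
  obtain ⟨y1, h1, h2⟩ := hs
  obtain ⟨l, rfl⟩ := C.trans z y1 (by
    have a1 := congrArg lab (h1.drop z)
    have a2 := congrArg lab (h2.take z)
    simp only [lab, map_take, map_drop] at a1 a2
    rw [show map Tm.lab _ = _ from lab_L z y1, show map Tm.lab _ = _ from lab_L z _] at a1 a2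
    rw [← take_append_drop i (C.X.wd y1), a1, ← a2, C.wd_act, take_append_drop])
  exact ⟨l, l⁻¹ * h, h1, by simpa [mul_smul] using h2.smul l⁻¹, by simp⟩

lemma PL.mul {l' : G} (h1 : C.PL z i (l • z) i) (h2 : C.PL z i (l' • z) i) :
    C.PL z i ((l * l') • z) i := by rw [mul_smul]; exact h1.trans (h2.smul l)

lemma PL.inv (h1 : C.PL z i (l • z) i) : C.PL z i (l⁻¹ • z) i := by
  simpa using h1.symm.smul l⁻¹

lemma PQ.mul {l' : G} (h1 : C.PQ z i (l • z)) (h2 : C.PQ z i (l' • z)) :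
    C.PQ z i ((l * l') • z) := by rw [mul_smul]; exact h1.trans (h2.smul l)

lemma PQ.inv (h1 : C.PQ z i (l • z)) : C.PQ z i (l⁻¹ • z) := by
  simpa using h1.symm.smul l⁻¹

lemma eq_one_of (h1 : C.PL z i (l • z) i) (h2 : C.PQ z k (l • z)) (hk : i ≤ k) : l = 1 :=
  C.free l z (eq_of_PL_PQ h1 (h2.mono hk))

variable (C) in
/-- The subgroup to the left of a cut. -/
def Lg (z : C.X.Z) (i : ℕ) (hi : i ≤ (C.X.wd z).length) : Subgroup G where
  carrier := {γ | C.PL z i (γ • z) i}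
  one_mem' := by simpa using PL.refl hi
  mul_mem' := PL.mul
  inv_mem' := PL.inv

variable (C) in
/-- The subgroup to the right of a cut. -/
def Qg (z : C.X.Z) (i : ℕ) (hi : i ≤ (C.X.wd z).length) : Subgroup G where
  carrier := {γ | C.PQ z i (γ • z)}
  one_mem' := by simpa using PQ.refl hi
  mul_mem' := PQ.mul
  inv_mem' := PQ.inv

lemma exists_touch (hl : C.PL z i (l • z) i) (hq : C.PQ z i (g • z)) (hne : g ≠ 1) :
    ∃ j, C.PL z j (l • z) j ∧ C.PQ z j (g • z) ∧ ¬ C.PQ z (j + 1) (g • z) ∧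
      C.Touch z (l * g) j := by
  classical
  have hex : ∃ n, ¬ C.PQ z (i + n + 1) (g • z) :=
    ⟨(C.X.wd z).length, fun h => absurd h.le (by omega)⟩
  have h1 := Nat.find_spec hex
  have h2 : C.PQ z (i + Nat.find hex) (g • z) := by
    rcases h0 : Nat.find hex with _ | n
    · exact hq
    · exact not_not.1 (Nat.find_min hex (by omega : n < Nat.find hex))
  generalize hj : i + Nat.find hex = j at h1 h2
  have h3 := hl.mono (by omega) h2.le
  have h4 : j < (base M (C.X.wd z)).length := by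
    rw [length_base]
    refine lt_of_le_of_ne h2.le fun h5 => hne (eq_one_of ?_ h2 le_rfl)
    simpa [h5, C.wd_act] using PL.all z (g • z)
  have hb : base M (C.X.wd z) = _ ++ _ :: _ :=
    (take_append_drop j _).symm.trans (by rw [drop_eq_getElem_cons h4])
  have h5 : C.PQ (l • z) j ((l * g) • z) := (mul_smul l g z).symm ▸ h2.smul l
  refine ⟨j, h3, h2, h1, ⟨_, h3, h5⟩, _, _, _, hb, by rw [length_take, min_eq_left h4.le],
    fun hm => h1 ?_⟩
  simpa [mul_smul] using (keep h3 h5 hb (by rw [length_take, min_eq_left h4.le]) hm).smul l⁻¹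

lemma commute_right (ar : C.AR z (l * g)) (hl : C.PL z i (l • z) i) (hq : C.PQ z i (g • z))
    (hc : Commute h (l * g)) : Commute h g := by
  by_cases hne : g = 1
  · simp [hne]
  obtain ⟨j, h1, h2, -, h4⟩ := exists_touch hl hq hne
  obtain ⟨a, b, a1, a2, rfl⟩ := (cut_fix ar h4 hc).factor
  have c1 := commute_of a1 h2
  have c2 := commute_of h1 a2
  have c3 := commute_of a1 a2
  have e : (l * a)⁻¹ * (a * l) = g * b * (b * g)⁻¹ := by
    have e1 : a * l * (b * g) = l * a * (g * b) := by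
      calc a * l * (b * g) = a * b * (l * g) := by
            rw [mul_assoc, mul_assoc, ← mul_assoc l, c2.eq, mul_assoc]
        _ = l * g * (a * b) := hc.eq
        _ = l * a * (g * b) := by rw [mul_assoc, mul_assoc, ← mul_assoc g, ← c1.eq, mul_assoc]
    rw [inv_mul_eq_iff_eq_mul, ← mul_assoc, ← e1, mul_inv_cancel_right]
  have e2 : g * b * (b * g)⁻¹ = 1 :=
    eq_one_of (e ▸ (h1.mul a1).inv.mul (a1.mul h1)) ((h2.mul a2).mul (a2.mul h2).inv) le_rfl
  exact c1.mul_left (mul_inv_eq_one.1 e2).symm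

/-- An element that commutes with a sum commutes with the right summand. -/
theorem commute_of_sum (hl : C.PL z i (l • z) i) (hq : C.PQ z i (g • z))
    (hc : Commute h (l * g)) : Commute h g := by
  obtain ⟨z1, i1, -, a2, m1, a3⟩ := rebase (PQ.all z _) hl (Nat.zero_le _)
  have hl1 := hl.move' a2
  have hq1 := hq.move a2
  obtain ⟨z2, i2, b1, -, m2, b3⟩ := rebase hq1 (by simpa [C.wd_act] using PL.all z1 (g • z1)) hq1.le
  have hl2 := hl1.move b1
  have hq2 := hq1.move' b1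
  refine commute_right ⟨m1 + m2, fun n => ?_⟩ hl2 hq2 hc
  rw [(commute_of hl2 hq2).mul_pow, d_add ((C.Lg z2 i1 hl2.le).pow_mem hl2 n)
    ((C.Qg z2 i1 hl2.le).pow_mem hq2 n), PL.d_move ((C.Lg z1 i1 hl1.le).pow_mem hl1 n) b1, a3, b3,
    mul_add]

end Cover

end Pool.Agent.Lib.MP_24b811_al.Gc
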