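import Pool.Agent.Lib.MP_24b811_al.GcGap

/-!
# Consequences of the gap theorem for subgroups that contain many commutators
-/

set_option autoImplicit false

namespace Pool.Agent.Lib.MP_24b811_al.Gc

open scoped commutatorElement

universe u v

variable {G : Type v} {X : Type u} [Group G] [MulAction G X] [CompleteLinearOrder X]

variable (G X) in
/-- The elements that are trivial near both end points. -/
def cpt [Nontrivial X] : Subgroup G where
  carrier := {g | ∃ a b : X, ⊥ < a ∧ b < ⊤ ∧ Sup g a b}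
  one_mem' := ⟨⊤, ⊥, bot_lt_top, bot_lt_top, Sup.one _ _⟩
  mul_mem' := by
    rintro f g ⟨a, b, h1, h2, h3⟩ ⟨a', b', k1, k2, k3⟩
    exact ⟨min a a', max b b', lt_min h1 k1, max_lt h2 k2,
      (h3.mono (min_le_left _ _) (le_max_left _ _)).mul
        (k3.mono (min_le_right _ _) (le_max_right _ _))⟩
  inv_mem' := by
    rintro f ⟨a, b, h1, h2, h3⟩
    exact ⟨a, b, h1, h2, h3.inv⟩

lemma Germ.sub (P : Germ G X) (K : Subgroup G) : Germ K X := fun g l c d h1 h2 h3 => by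
  obtain ⟨s, r, k1, d, k2, k3⟩ := P g l c d h1 h2 h3
  exact ⟨s, r, k1, d, k2, k3⟩

namespace LM

variable (H : LM G X)
include H

lemma sub (K : Subgroup G)
    (hm : ∀ a x b : X, a < x → x < b → ∃ h ∈ K, Sup h a b ∧ h • x ≠ x) : LM K X where
  mono g _ _ h := H.mono g h
  faith g h := Subtype.ext (H.faith g h)
  move a x b h1 h2 := by
    obtain ⟨h, k1, k2⟩ := hm a x b h1 h2
    exact ⟨⟨h, k1⟩, k2⟩

lemma up' {a x b v : X} (h2 : a < x) (h3 : v < b) : ∃ h : G, Sup h a b ∧ v < h • x := by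
  obtain ⟨h, k1, k2⟩ := H.dual.down (a := OrderDual.toDual b) (b := OrderDual.toDual a)
    (x := OrderDual.toDual x) (v := OrderDual.toDual v) h2 h3
  exact ⟨h, fun y hy => k1 y hy.symm, k2⟩

lemma cpt_normal [Nontrivial X] : (cpt G X).Normal := ⟨by
  rintro f ⟨a, b, h1, h2, h3⟩ k
  exact ⟨k • a, k • b, H.gt_of_fix (H.fix_bot k) h1, H.lt_of_fix (H.dual.fix_bot k) h2,
    H.sup_conj h3 k⟩⟩

variable [DenselyOrdered X] [Nontrivial X]

lemma normal_comm {N : Subgroup G} [hN : N.Normal] (h : N ≠ ⊥) : ⁅cpt G X, cpt G X⁆ ≤ N := by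
  obtain ⟨n, hn, x, hx⟩ : ∃ n ∈ N, ∃ x : X, x < n • x := by
    obtain ⟨n, hn, h1⟩ := (Subgroup.bot_or_exists_ne_one N).resolve_left h
    obtain ⟨x, hx⟩ := not_forall.1 fun h2 => h1 (H.faith n h2)
    exact (H.up hx).elim (fun k => ⟨n, hn, x, k⟩) fun k => ⟨n⁻¹, N.inv_mem hn, x, k⟩
  rw [Subgroup.commutator_le]
  rintro f ⟨a, b, h1, h2, h3⟩ g ⟨a', b', k1, k2, k3⟩
  obtain ⟨m, m1, m2⟩ := exists_between hx
  obtain ⟨s, s1, s2⟩ := H.down (a := ⊥) m1 (lt_min h1 k1)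
  obtain ⟨t, t1, t2⟩ := H.up' (b := ⊤) m2 (max_lt h2 k2)
  have e1 : (s * t) • x < min a a' := by rwa [mul_smul, t1 x (Or.inl m1.le)]
  have e2 : max b b' < (s * t * n * (s * t)⁻¹) • (s * t) • x := by
    rwa [mul_smul _ (s * t)⁻¹, inv_smul_smul, mul_smul, mul_smul,
      s1 _ (Or.inr (H.ge_of_fix (t1 m (Or.inl le_rfl)) m2.le))]
  have e3 := hN.conj_mem n hn (s * t)
  have e4 : (s * t) • x < (s * t * n * (s * t)⁻¹) • (s * t) • x := by
    rw [mul_smul _ (s * t)⁻¹, inv_smul_smul, mul_smul _ n]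
    exact H.mono _ hx
  generalize s * t * n * (s * t)⁻¹ = n' at e2 e3 e4
  generalize (s * t) • x = x' at e1 e2 e4
  have f1 : Sup f x' (n' • x') :=
    h3.mono (e1.le.trans (min_le_left _ _)) ((le_max_left _ _).trans e2.le)
  have g1 : Sup g x' (n' • x') :=
    k3.mono (e1.le.trans (min_le_right _ _)) ((le_max_right _ _).trans e2.le)
  have c1 : Commute (n' * f⁻¹ * n'⁻¹) g := commute_of_disj H.faith fun y : X =>
    (le_total y (n' • x')).imp (fun h => H.sup_conj f1.inv n' y (Or.inl h))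
      fun h => g1 y (Or.inr h)
  have c2 : f * (n' * f⁻¹ * n'⁻¹) ∈ N := by
    have := N.mul_mem (hN.conj_mem n' e3 f) (N.inv_mem e3)
    convert this using 1
    group
  generalize n' * f⁻¹ * n'⁻¹ = p at c1 c2
  have c3 := N.mul_mem c2 (hN.conj_mem _ (N.inv_mem c2) g)
  convert c3 using 1
  rw [commutatorElement_def, mul_inv_rev, ← mul_assoc g p⁻¹, ← c1.inv_left.eq]
  group

lemma move_comm {a x b : X} (h1 : a < x) (h2 : x < b) :
    ∃ h ∈ ⁅cpt G X, cpt G X⁆, Sup h a b ∧ h • x ≠ x := by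
  obtain ⟨a', a1, a2⟩ := exists_between h1
  obtain ⟨u, u1, u2⟩ := exists_between a2
  obtain ⟨b', b1, b2⟩ := exists_between h2
  obtain ⟨v, v1, v2⟩ := exists_between b1
  obtain ⟨h, k1, k2⟩ := H.up' u1 v2
  obtain ⟨f, f1, f2⟩ := H.move u x v u2 v1
  have f3 := f1.mono u1.le v2.le
  refine ⟨⁅f, h⁆, Subgroup.commutator_mem_commutator
    ⟨a', b', bot_lt_of_lt a1, lt_top_of_lt b2, f3⟩ ⟨a', b', bot_lt_of_lt a1, lt_top_of_lt b2, k1⟩,
    (f3.comm k1).mono a1.le b2.le, ?_⟩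
  have e : ⁅f, h⁆ = f * (h * f⁻¹ * h⁻¹) := by rw [commutatorElement_def]; group
  rwa [e, mul_smul, H.sup_conj f1.inv h x (Or.inl (v1.trans k2).le)]

lemma lm_of_le {K : Subgroup G} (h : ⁅cpt G X, cpt G X⁆ ≤ K) : LM K X :=
  H.sub K fun _ _ _ h1 h2 => by
    obtain ⟨f, k1, k2⟩ := H.move_comm h1 h2
    exact ⟨f, h k1, k2⟩

/-- The component near the left end point. -/
theorem component (P : Germ G X) {K : Subgroup G} (hK : ⁅cpt G X, cpt G X⁆ ≤ K)
    (T : ThreeProp K) {f f₀ : G} (hf : f ∈ K) {α β : X} (hα : ⊥ < α) (hβ : β < ⊤)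
    (h1 : ∀ y ≤ α, f₀ • y = f • y) (h2 : ∀ y, β ≤ y → f₀ • y = y) : f₀ ∈ K := by
  have := H.cpt_normal
  obtain ⟨a, a1, a2⟩ := exists_between hα
  obtain ⟨b, b1, b2⟩ := exists_between hβ
  obtain ⟨a', a3, a4⟩ := exists_between a1
  obtain ⟨k, k1, k2⟩ := H.down b1 a2
  obtain ⟨h, k3, k4⟩ := H.up' a4 b1
  have c1 : Commute (h * k * h⁻¹) f₀ := commute_of_disj H.faith fun y : X =>
    (le_total y β).imp (fun h' => H.sup_conj k1 h y (Or.inl (h'.trans k4.le))) (h2 y)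
  have c2 : ⁅h, k⁆ ∈ ⁅cpt G X, cpt G X⁆ :=
    Subgroup.commutator_mem_commutator ⟨a', b, a3, b2, k3⟩ ⟨a, b, a1, b2, k1⟩
  have c3 : ⁅k, f₀⁆ ∈ ⁅cpt G X, cpt G X⁆ := by
    have c4 := Subgroup.mul_mem _ (Subgroup.inv_mem _ c2)
      ((inferInstance : ⁅cpt G X, cpt G X⁆.Normal).conj_mem _ c2 f₀)
    convert c4 using 1
    have e : ⁅h, k⁆ = h * k * h⁻¹ * k⁻¹ := commutatorElement_def _ _
    rw [e, commutatorElement_def]
    generalize h * k * h⁻¹ = p at c1
    rw [← mul_assoc f₀, ← c1.eq]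
    group
  have e1 : ∀ y, k • β ≤ y → (k * f₀ * k⁻¹) • y = y := fun y hy => by
    rw [mul_smul, mul_smul, h2, smul_inv_smul]
    rwa [← H.le_iff k, smul_inv_smul]
  have e2 : ∀ y ≤ α, (⁅k, f₀⁆ * f) • y = (k * f₀ * k⁻¹) • y := fun y hy => by
    rw [commutatorElement_def, mul_smul, mul_smul _ f₀⁻¹, ← h1 y hy, inv_smul_smul]
  obtain ⟨σ, hσ⟩ := (H.lm_of_le hK).gap T (P.sub K) k2
    (τ := ⟨⁅k, f₀⁆ * f, K.mul_mem (hK c3) hf⟩) fun y r1 r2 => (e2 y r2).trans (e1 y r1)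
  have e3 : (k * f₀ * k⁻¹)⁻¹ * σ = 1 := H.faith _ fun y => by
    rw [mul_smul, inv_smul_eq_iff]
    rcases le_total y (k • β) with r | r
    · exact ((hσ y).1 r).trans (e2 y (r.trans k2.le))
    · exact ((hσ y).2 r).trans (e1 y r).symm
  have c5 := K.mul_mem (K.inv_mem (hK c3)) σ.2
  convert c5 using 1
  rw [← inv_mul_eq_one.1 e3, commutatorElement_def]
  group

lemma commutator_le (hc : cpt G X = ⊤) {N : Subgroup G} [N.Normal] (h : N ≠ ⊥) :
    commutator G ≤ N := by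
  have := H.normal_comm h
  rwa [hc] at this

omit H [DenselyOrdered X] in
lemma cpt_sub (hc : cpt G X = ⊤) (K : Subgroup G) : cpt K X = ⊤ :=
  eq_top_iff.2 fun g _ => show g.1 ∈ cpt G X from hc ▸ Subgroup.mem_top _

lemma commutator_ne (hc : cpt G X = ⊤) : commutator G ≠ ⊥ := by
  obtain ⟨x, h1, h2⟩ := exists_between (bot_lt_top (α := X))
  obtain ⟨f, k1, -, k2⟩ := H.move_comm h1 h2
  rw [hc] at k1
  intro h
  rw [(Subgroup.eq_bot_iff_forall _).1 h f k1] at k2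
  exact k2 (one_smul G x)

/-- The commutator subgroup of a compactly supported locally moving group is simple. -/
theorem simple (hc : cpt G X = ⊤) : IsSimpleGroup (commutator G) := by
  have H' : LM (commutator G) X := H.lm_of_le (by rw [hc]; exact le_rfl)
  have hc' := cpt_sub hc (commutator G)
  have h1 : commutator (commutator G) = ⊤ := by
    have h2 : (commutator (commutator G)).map (commutator G).subtype ≠ ⊥ := fun h =>
      H'.commutator_ne hc'
        ((Subgroup.map_eq_bot_iff_of_injective _ (commutator G).subtype_injective).1 h)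
    refine eq_top_iff.2 fun g _ => ?_
    obtain ⟨g', k1, k2⟩ := H.commutator_le hc h2 g.2
    exact Subtype.ext k2 ▸ k1
  have := (Subgroup.nontrivial_iff_ne_bot _).2 (H.commutator_ne hc)
  refine ⟨fun N hN => or_iff_not_imp_left.2 fun h => eq_top_iff.2 ?_⟩
  rw [← h1]
  exact H'.commutator_le hc' h

end LM

end Pool.Agent.Lib.MP_24b811_al.Gc
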