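import Pool.Agent.Lib.MP_24b811_al.GcInterval

/-!
# The gap theorem
-/

set_option autoImplicit false

namespace Pool.Agent.Lib.MP_24b811_al.Gc

open scoped commutatorElement

universe u v

variable {G : Type v} {X : Type u} [Group G] [MulAction G X] [CompleteLinearOrder X]

variable (G X) in
/-- Two elements with a common fixed point have powers that agree to the right of it. -/
def Germ : Prop := ∀ (g l : G) (c d0 : X), g • c = c → l • c = c → c < d0 →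
  ∃ s r : ℤ, (s ≠ 0 ∨ r ≠ 0) ∧ ∃ d, c < d ∧ ∀ y, c ≤ y → y ≤ d → l ^ s • y = g ^ r • y

namespace LM

variable (H : LM G X)
include H

lemma fix_sInf {h : G} {S : Set X} (h1 : ∀ y ∈ S, h • y ∈ S) (h2 : ∀ y ∈ S, h⁻¹ • y ∈ S) :
    h • sInf S = sInf S := by
  refine le_antisymm (le_sInf fun y hy => ?_) ?_
  · rw [← smul_inv_smul h y, H.le_iff]
    exact sInf_le (h2 y hy)
  · rw [← H.le_iff h⁻¹, inv_smul_smul]
    refine le_sInf fun y hy => ?_
    rw [← inv_smul_smul h y, H.le_iff]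
    exact sInf_le (h1 y hy)

lemma limit {k : G} {x : X} (hx : x < k • x) :
    ∃ c, c < x ∧ k • c = c ∧ (∀ h, Commute h k → h • x = x → h • c = c) ∧
      (∀ a, k • a = a → a ≤ x → a ≤ c) ∧ (∀ n : ℤ, c ≤ k ^ n • x) ∧
      ∀ d, c < d → ∃ n : ℤ, k ^ n • x < d := by
  refine ⟨sInf (Set.range fun n : ℤ => k ^ n • x), ?_, H.fix_sInf ?_ ?_, fun h hc hh => ?_,
    fun a ha hax => le_sInf ?_, fun n => sInf_le ⟨n, rfl⟩, fun d hd => ?_⟩
  · exact lt_of_le_of_lt (sInf_le ⟨-1, by simp⟩) (H.inv_lt.2 hx)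
  · rintro _ ⟨n, rfl⟩
    exact ⟨1 + n, by simp [zpow_add, mul_smul]⟩
  · rintro _ ⟨n, rfl⟩
    exact ⟨-1 + n, by simp [zpow_add, mul_smul]⟩
  · have : ∀ n : ℤ, h • k ^ n • x = k ^ n • x := fun n => by
      rw [(hc.zpow_right n).smul_comm', hh]
    refine H.fix_sInf ?_ ?_
    · rintro _ ⟨n, rfl⟩
      exact ⟨n, (this n).symm⟩
    · rintro _ ⟨n, rfl⟩
      exact ⟨n, (fix_inv (this n)).symm⟩
  · rintro _ ⟨n, rfl⟩
    exact H.ge_of_fix (fix_zpow ha n) hax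
  · obtain ⟨_, ⟨n, rfl⟩, h⟩ := sInf_lt_iff.1 hd
    exact ⟨n, h⟩

omit H [CompleteLinearOrder X] in
lemma unfix {k l : G} {x : X} (hc : Commute l k) (n : ℤ) (h : l • k ^ n • x = k ^ n • x) :
    l • x = x := by
  rw [(hc.zpow_right n).smul_comm'] at h
  exact smul_left_cancel _ h

variable [DenselyOrdered X]

lemma mid_fix (P : Germ G X) {g l q : G} {L Q : Subgroup G} {a b x : X} (cp : CutPair g L Q)
    (ha : ∀ h, Commute h g → h • a = a) (hb : ∀ h, Commute h g → h • b = b) (hl : l ∈ L)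
    (hq : q ∈ Q) (hlq : ∀ y, a ≤ y → y ≤ b → l • q • y = y) (h1 : a ≤ x) (h2 : x ≤ b)
    (hg : g • x = x) : ¬ x < l • x := by
  intro hx
  have lg := cp.comm l hl g cp.mem
  obtain ⟨c, c1, c2, c3, c4, c5, c6⟩ := H.limit hx
  obtain ⟨s, r, hsr, d, d1, d2⟩ := P g l c x (c3 g lg.symm hg) c2 c1
  obtain ⟨n, hn⟩ := c6 d d1
  have gy : g • l ^ n • x = l ^ n • x := by rw [(lg.symm.zpow_right n).smul_comm', hg]
  have hs : s = 0 := by
    by_contra hs
    have := (d2 _ (c5 n) hn.le).trans (fix_zpow gy r)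
    exact hx.ne' (unfix (Commute.refl l) n (H.fix_of_zpow hs this))
  subst hs
  have hr : r ≠ 0 := hsr.resolve_left fun h => h rfl
  have gi : ∀ y, c ≤ y → y ≤ d → g • y = y := fun y k1 k2 =>
    H.fix_of_zpow hr (by rw [← d2 y k1 k2]; simp)
  have e1 : l • l ^ (n - 1) • x = l ^ n • x := by
    rw [← mul_smul, ← zpow_one_add]; congr 2; ring
  have e2 : l ^ (n - 1) • x < l • l ^ (n - 1) • x := by
    rw [((Commute.refl l).zpow_right (n - 1)).smul_comm']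
    exact H.mono _ hx
  obtain ⟨f, f1, z, -, -, f2⟩ := H.exists_ne e2
  have fg : Commute f g := commute_of_disj H.faith fun y : X => by
    by_cases h : y ≤ l ^ (n - 1) • x ∨ l • l ^ (n - 1) • x ≤ y
    · exact Or.inl (f1 y h)
    · push Not at h
      exact Or.inr (gi y ((c5 _).trans h.1.le) (h.2.le.trans (e1 ▸ hn.le)))
  obtain ⟨l', hl', q', hq', rfl⟩ := cp.pair.factor f fg
  have inv : ∀ h, Commute h g → ∀ y, a ≤ y ∧ y ≤ b → a ≤ h • y ∧ h • y ≤ b := fun h hc y hy =>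
    ⟨H.ge_of_fix (ha h hc) hy.1, H.le_of_fix (hb h hc) hy.2⟩
  have lq : ∀ y, a ≤ y ∧ y ≤ b → l • y = q⁻¹ • y := fun y hy => by
    rw [eq_inv_smul_iff, ← (cp.comm l hl q hq).smul_comm', hlq y hy.1 hy.2]
  refine f2 ?_
  rw [H.nc f1 fun y k1 k2 => ?_, one_smul]
  have hy : a ≤ y ∧ y ≤ b := ⟨((c4 a (ha l lg) h1).trans (c5 _)).trans k1.le,
    k2.le.trans (e1 ▸ H.le_of_fix (fix_zpow (hb l lg) n) h2)⟩
  have hz := inv q' (cp.pair.cB q' hq') y hy
  rw [mul_smul, mul_smul, ← (cp.comm l hl q' hq'.1).smul_comm', lq _ hz,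
    lq _ (inv l' (cp.pair.cA l' hl') _ hz), (cp.comm l' hl' q⁻¹ (Q.inv_mem hq)).smul_comm']

lemma mid (P : Germ G X) {g l q : G} {L Q : Subgroup G} {a b x : X} (cp : CutPair g L Q)
    (ha : ∀ h, Commute h g → h • a = a) (hb : ∀ h, Commute h g → h • b = b) (hl : l ∈ L)
    (hq : q ∈ Q) (hlq : ∀ y, a ≤ y → y ≤ b → l • q • y = y) (h1 : a ≤ x) (h2 : x ≤ b) :
    l • x = x := by
  have lg := cp.comm l hl g cp.mem
  have step : ∀ x, a ≤ x → x ≤ b → g • x = x → l • x = x := fun x h1 h2 hg => by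
    by_contra h
    refine (H.up h).elim (H.mid_fix P cp ha hb hl hq hlq h1 h2 hg)
      (H.mid_fix P cp ha hb (L.inv_mem hl) (Q.inv_mem hq) (fun y k1 k2 => ?_) h1 h2 hg)
    rw [inv_smul_eq_iff, inv_smul_eq_iff, ← (cp.comm l hl q hq).smul_comm', hlq y k1 k2]
  by_contra hlx
  obtain ⟨k, hk, kg, lk, hx⟩ : ∃ k ∈ Q, (∀ y : X, k • y = y ↔ g • y = y) ∧ Commute l k ∧
      x < k • x := by
    rcases H.up fun h => hlx (step x h1 h2 h) with h | h
    · exact ⟨g, cp.mem, fun _ => Iff.rfl, lg, h⟩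
    · exact ⟨g⁻¹, Q.inv_mem cp.mem, fun y => inv_smul_eq_iff.trans eq_comm, lg.inv_right, h⟩
  obtain ⟨c, c1, c2, -, c4, c5, c6⟩ := H.limit hx
  have lc := step c (c4 a ((kg a).2 (ha g (Commute.refl g))) h1) (c1.le.trans h2) ((kg c).1 c2)
  obtain ⟨s, r, hsr, d, d1, d2⟩ := P k l c x c2 lc c1
  obtain ⟨n, hn⟩ := c6 d d1
  by_cases hr : r = 0
  · subst hr
    refine hlx (unfix lk n (H.fix_of_zpow (hsr.resolve_right fun h => h rfl) ?_))
    rw [d2 _ (c5 n) hn.le]; simp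
  have h3 : k ^ r • k ^ n • x ≠ k ^ n • x := fun h =>
    hx.ne' (unfix (Commute.refl k) n (H.fix_of_zpow hr h))
  obtain ⟨m, hm, hc⟩ : ∃ m : G, k ^ n • x < m • k ^ n • x ∧
      ∀ f, Commute f (k ^ r)⁻¹ → Commute f m :=
    (H.up h3).elim (fun h => ⟨_, h, fun f hf => Commute.inv_right_iff.1 hf⟩)
      fun h => ⟨_, h, fun f hf => hf⟩
  obtain ⟨f, f1, z, -, -, f2⟩ := H.exists_ne (lt_min hm hn)
  have h4 : Commute f (l ^ s * (k ^ r)⁻¹) := commute_of_disj H.faith fun y : X => by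
    by_cases h : y ≤ k ^ n • x ∨ d ≤ y
    · exact Or.inl (f1.mono le_rfl (min_le_right _ _) y h)
    · push Not at h
      refine Or.inr ?_
      rw [((lk.zpow_zpow s r).inv_right).eq, mul_smul, d2 y ((c5 n).trans h.1.le) h.2.le,
        inv_smul_smul]
  have h5 := hc f (cp.sum _ (L.zpow_mem hl s) _ (Q.inv_mem (Q.zpow_mem hk r)) f h4)
  refine f2 ?_
  rw [H.nc (f1.mono le_rfl (min_le_left _ _)) fun y _ _ => h5.smul_comm' y, one_smul]

/-- The gap theorem. -/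
theorem gap (T : ThreeProp G) (P : Germ G X) {α β : X} (h : α < β) {τ : G}
    (hτ : ∀ y, α ≤ y → y ≤ β → τ • y = y) :
    ∃ σ : G, ∀ y, (y ≤ α → σ • y = τ • y) ∧ (α ≤ y → σ • y = y) := by
  obtain ⟨g, L, Q, a, b, cp, h1, h2, h3, h4, h5, h6⟩ := H.exists_cut T h
  have hc : Commute τ g := commute_of_disj H.faith fun y : X => by
    by_cases h : y ≤ a ∨ b ≤ y
    · exact Or.inr (h3 y h)
    · push Not at h
      exact Or.inl (hτ y (h1.trans h.1.le) (h.2.le.trans h2))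
  obtain ⟨l, hl, q, hq, rfl⟩ := cp.pair.factor τ hc
  have qg := cp.pair.cB q hq
  have hm : ∀ y, a ≤ y → y ≤ b → l • y = y := fun y k1 k2 =>
    H.mid P cp h4 h5 hl hq.1 (fun z r1 r2 => by
      rw [← mul_smul]; exact hτ z (h1.trans r1) (r2.trans h2)) k1 k2
  rcases h6 with ⟨t1, t2⟩ | ⟨t1, t2⟩
  · have e : ∀ y ≤ b, q • y = (l * q) • y := fun y hy => by
      rw [(cp.comm l hl q hq.1).eq, mul_smul]
      rcases le_total y a with k | k
      · rw [t1 l hl y k]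
      · rw [hm y k hy]
    refine ⟨q, fun y => ⟨fun hy => ?_, fun hy => ?_⟩⟩
    · rw [(cp.comm l hl q hq.1).eq, mul_smul, t1 l hl y (hy.trans h1)]
    · rcases le_total y b with k | k
      · rw [e y k, hτ y hy (k.trans h2)]
      · exact t2 q hq.1 qg y k
  · have e : ∀ y ≤ a, l • y = (l * q) • y := fun y hy => by rw [mul_smul, t1 q hq.1 qg y hy]
    refine ⟨l, fun y => ⟨fun hy => e y (hy.trans h1), fun hy => ?_⟩⟩
    rcases le_total y b with k | k
    · rcases le_total y a with k' | k'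
      · rw [e y k', hτ y hy (k.trans h2)]
      · exact hm y k' k
    · exact t2 l hl y k

end LM

end Pool.Agent.Lib.MP_24b811_al.Gc
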