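import Pool.Agent.Lib.MP_24b811_al.GcDerived
import Pool.Agent.Lib.MP_24b811_al.Elements

/-!
# One-sided slopes of elements of F, and bumps
-/

set_option autoImplicit false

namespace Pool.Agent.Lib.MP_24b811_al.Gc

open unitInterval Filter Topology Set

instance actF : MulAction ThompsonF I := thompsonAction

lemma smul_def (f : ThompsonF) (x : I) : f • x = f.1 x := rfl

/-- One-sided neighbourhoods. -/
def nb (s : Bool) (c : I) : Filter I := bif s then 𝓝[>] c else 𝓝[<] c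

/-- `f` is affine with slope `2 ^ k` on one side of `c`. -/
def Gm (s : Bool) (c : I) (f : ThompsonF) (k : ℤ) : Prop :=
  ∀ᶠ y in nb s c, ((f • y : I) : ℝ) = (f • c : I) + (2 : ℝ) ^ k * ((y : ℝ) - c)

/-- `f` is affine between points of `B`. -/
def Lin (f : ThompsonF) (B : Finset ℝ) : Prop :=
  ∀ x y : I, x < y → (∀ b ∈ B, ¬ ((x : ℝ) < b ∧ b < (y : ℝ))) →
    ∃ k : ℤ, ∀ z : I, x ≤ z → z ≤ y → ((f • z : I) : ℝ) = (f • x : I) + (2 : ℝ) ^ k * ((z : ℝ) - x)

lemma tendsto_nb (f : ThompsonF) (s : Bool) (c : I) :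
    Tendsto (fun y : I => f • y) (nb s c) (nb s (f • c)) := by
  cases s
  · exact tendsto_nhdsWithin_iff.2 ⟨f.1.continuous.continuousAt.tendsto.mono_left
      nhdsWithin_le_nhds, eventually_nhdsWithin_of_forall fun y hy => f.2.1 hy⟩
  · exact tendsto_nhdsWithin_iff.2 ⟨f.1.continuous.continuousAt.tendsto.mono_left
      nhdsWithin_le_nhds, eventually_nhdsWithin_of_forall fun y hy => f.2.1 hy⟩

lemma Gm.mul {s : Bool} {c : I} {f g : ThompsonF} {k m : ℤ} (hf : Gm s (g • c) f k)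
    (hg : Gm s c g m) : Gm s c (f * g) (k + m) := by
  filter_upwards [(tendsto_nb g s c).eventually hf, hg] with y h1 h2
  rw [mul_smul, mul_smul, h1, h2, zpow_add₀ (by norm_num : (2 : ℝ) ≠ 0)]
  ring

lemma gm_right {f : ThompsonF} {x y c : I} {k : ℤ} (h1 : x ≤ c) (h2 : c < y)
    (h : ∀ z : I, x ≤ z → z ≤ y → ((f • z : I) : ℝ) = (f • x : I) + (2 : ℝ) ^ k * ((z : ℝ) - x)) :
    Gm true c f k := by
  filter_upwards [Ioc_mem_nhdsGT h2] with z hz
  rw [h z (h1.trans hz.1.le) hz.2, h c h1 h2.le]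
  ring

lemma gm_left {f : ThompsonF} {x y c : I} {k : ℤ} (h1 : x < c) (h2 : c ≤ y)
    (h : ∀ z : I, x ≤ z → z ≤ y → ((f • z : I) : ℝ) = (f • x : I) + (2 : ℝ) ^ k * ((z : ℝ) - x)) :
    Gm false c f k := by
  filter_upwards [Ico_mem_nhdsLT h1] with z hz
  rw [h z hz.1 (hz.2.le.trans h2), h c h1.le h2]
  ring

lemma notMem_nhds (B : Finset ℝ) {c : I} (h : (c : ℝ) ∉ B) : {y : I | (y : ℝ) ∉ B} ∈ 𝓝 c :=
  continuous_subtype_val.continuousAt.preimage_mem_nhds
    (B.finite_toSet.isClosed.isOpen_compl.mem_nhds h)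

lemma no_break {B : Finset ℝ} {x y : I} (h : ∀ z, x < z → z < y → (z : ℝ) ∉ B) :
    ∀ b ∈ B, ¬ ((x : ℝ) < b ∧ b < (y : ℝ)) := fun b hb ⟨h1, h2⟩ =>
  h ⟨b, x.2.1.trans h1.le, h2.le.trans y.2.2⟩ h1 h2 hb

lemma exists_gm (s : Bool) (c : I) (f : ThompsonF) : ∃ k, Gm s c f k := by
  classical
  obtain ⟨-, B, -, hB⟩ := f.2
  have hU := notMem_nhds (B.erase c) (c := c) (by simp)
  cases s
  · by_cases hc : ∃ b, b < c
    · obtain ⟨p, h1, h2⟩ := (nhdsLT_basis_of_exists_lt hc).mem_iff.1 (mem_nhdsWithin_of_mem_nhds hU)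
      obtain ⟨k, hk⟩ := hB p c h1 (no_break fun z k1 k2 hz =>
        h2 ⟨k1, k2⟩ (Finset.mem_erase.2 ⟨fun e => k2.ne (Subtype.ext e), hz⟩))
      exact ⟨k, gm_left h1 le_rfl hk⟩
    · exact ⟨0, eventually_nhdsWithin_of_forall fun y hy => absurd ⟨y, hy⟩ hc⟩
  · by_cases hc : ∃ b, c < b
    · obtain ⟨p, h1, h2⟩ := (nhdsGT_basis_of_exists_gt hc).mem_iff.1 (mem_nhdsWithin_of_mem_nhds hU)
      obtain ⟨k, hk⟩ := hB c p h1 (no_break fun z k1 k2 hz =>
        h2 ⟨k1, k2⟩ (Finset.mem_erase.2 ⟨fun e => k1.ne' (Subtype.ext e), hz⟩))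
      exact ⟨k, gm_right le_rfl h1 hk⟩
    · exact ⟨0, eventually_nhdsWithin_of_forall fun y hy => absurd ⟨y, hy⟩ hc⟩

lemma nb_right {c : I} (h : c < 1) : (nb true c).NeBot := nhdsGT_neBot_of_exists_gt ⟨1, h⟩

lemma nb_left {c : I} (h : 0 < c) : (nb false c).NeBot := nhdsLT_neBot_of_exists_lt ⟨0, h⟩

lemma Gm.unique {s : Bool} {c : I} {f : ThompsonF} {k m : ℤ} (hn : (nb s c).NeBot)
    (h1 : Gm s c f k) (h2 : Gm s c f m) : k = m := by
  have h3 : ∀ᶠ y in nb s c, y ≠ c := by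
    cases s
    · exact eventually_nhdsWithin_of_forall fun y hy => ne_of_lt hy
    · exact eventually_nhdsWithin_of_forall fun y hy => ne_of_gt hy
  obtain ⟨y, k1, k2, k3⟩ := (h1.and (h2.and h3)).exists
  have k4 : (y : ℝ) - c ≠ 0 := sub_ne_zero.2 fun e => k3 (Subtype.ext e)
  exact zpow_right_injective₀ (by norm_num : (0 : ℝ) < 2) (by norm_num)
    (mul_right_cancel₀ k4 (add_left_cancel (k1.symm.trans k2)))

/-- The logarithm of a one-sided slope. -/
noncomputable def sl (s : Bool) (c : I) (f : ThompsonF) : ℤ := (exists_gm s c f).choose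

lemma gm_sl (s : Bool) (c : I) (f : ThompsonF) : Gm s c f (sl s c f) :=
  (exists_gm s c f).choose_spec

lemma Gm.sl_eq {s : Bool} {c : I} {f : ThompsonF} {k : ℤ} (hn : (nb s c).NeBot)
    (h : Gm s c f k) : sl s c f = k := (gm_sl s c f).unique hn h

lemma sl_mul {s : Bool} {c : I} (hn : (nb s c).NeBot) (f g : ThompsonF) :
    sl s c (f * g) = sl s (g • c) f + sl s c g := ((gm_sl _ _ _).mul (gm_sl _ _ _)).sl_eq hn

lemma sl_one {s : Bool} {c : I} (hn : (nb s c).NeBot) : sl s c 1 = 0 :=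
  Gm.sl_eq hn (Eventually.of_forall fun y => by simp)

lemma sl_zpow {s : Bool} {c : I} (hn : (nb s c).NeBot) {g : ThompsonF} (hg : g • c = c) (n : ℤ) :
    sl s c (g ^ n) = n * sl s c g := by
  induction n using Int.induction_on with
  | zero => simp [sl_one hn]
  | succ n ih => rw [zpow_add_one, sl_mul hn, hg, ih]; ring
  | pred n ih =>
    have := sl_mul hn (g ^ (-(n : ℤ) - 1)) g
    rw [← zpow_add_one, sub_add_cancel, hg, ih] at this
    linarith

lemma agree {s : Bool} {c : I} {f g : ThompsonF} (h1 : f • c = g • c) (h2 : sl s c f = sl s c g) :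
    ∀ᶠ y in nb s c, f • y = g • y := by
  filter_upwards [gm_sl s c f, gm_sl s c g] with y k1 k2
  exact Subtype.ext (by rw [k1, k2, h1, h2])

lemma agree_right {c : I} (hc : c < 1) {f g : ThompsonF} (h1 : f • c = g • c)
    (h2 : sl true c f = sl true c g) : ∃ d, c < d ∧ ∀ y, c ≤ y → y ≤ d → f • y = g • y := by
  obtain ⟨p, k1, k2⟩ := (nhdsGT_basis_of_exists_gt ⟨1, hc⟩).mem_iff.1 (agree h1 h2)
  obtain ⟨d, d1, d2⟩ := exists_between k1
  exact ⟨d, d1, fun y r1 r2 => r1.eq_or_lt.elim (fun e => e ▸ h1) fun r => k2 ⟨r, r2.trans_lt d2⟩⟩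

lemma agree_left {c : I} (hc : 0 < c) {f g : ThompsonF} (h1 : f • c = g • c)
    (h2 : sl false c f = sl false c g) : ∃ d, d < c ∧ ∀ y, d ≤ y → y ≤ c → f • y = g • y := by
  obtain ⟨p, k1, k2⟩ := (nhdsLT_basis_of_exists_lt ⟨0, hc⟩).mem_iff.1 (agree h1 h2)
  obtain ⟨d, d1, d2⟩ := exists_between k1
  exact ⟨d, d2, fun y r1 r2 => r2.eq_or_lt.elim (fun e => e ▸ h1) fun r => k2 ⟨d1.trans_le r1, r⟩⟩

theorem germF : Germ ThompsonF I := by
  intro g l c d0 hg hl hc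
  have h1 : c < 1 := hc.trans_le d0.2.2
  by_cases h : sl true c g = 0 ∧ sl true c l = 0
  · refine ⟨1, 1, Or.inl one_ne_zero, agree_right h1 ?_ ?_⟩
    · rw [zpow_one, zpow_one, hg, hl]
    · rw [zpow_one, zpow_one, h.1, h.2]
  · refine ⟨sl true c g, sl true c l, not_and_or.1 h, agree_right h1 ?_ ?_⟩
    · rw [fix_zpow hg, fix_zpow hl]
    · rw [sl_zpow (nb_right h1) hg, sl_zpow (nb_right h1) hl, mul_comm]

lemma Lin.jump {f : ThompsonF} {B : Finset ℝ} (h : Lin f B) {c : I} (h0 : 0 < c) (h1 : c < 1)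
    (hc : (c : ℝ) ∉ B) : sl true c f = sl false c f := by
  obtain ⟨p, q, ⟨k1, k2⟩, k3⟩ :=
    (mem_nhds_iff_exists_Ioo_subset' ⟨0, h0⟩ ⟨1, h1⟩).1 (notMem_nhds B hc)
  obtain ⟨k, hk⟩ := h p q (k1.trans k2) (no_break fun z r1 r2 => k3 ⟨r1, r2⟩)
  rw [(gm_right k1.le k2 hk).sl_eq (nb_right h1), (gm_left k1 k2.le hk).sl_eq (nb_left h0)]

/-- A bump with slopes `n` and `1 / n`. -/
noncomputable def bf (n c e x : ℝ) : ℝ :=
  max x (min (c + n * (x - c)) (c + (n + 1) * e + (x - (c + (n + 1) * e)) / n))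

section bump

variable {n c e x : ℝ} (hn : n = 2 ∨ n = 4) (he : 0 < e)
include hn

lemma bf_mono : StrictMono (bf n c e) := fun x y h => by
  rcases hn with rfl | rfl <;> exact max_lt_max h (min_lt_min (by linarith) (by linarith))

lemma bf_1 (h : x ≤ c) : bf n c e x = x := by
  rcases hn with rfl | rfl <;> exact max_eq_left ((min_le_left _ _).trans (by linarith))

lemma bf_2 (h : c ≤ x) (h' : x ≤ c + e) : bf n c e x = c + n * (x - c) := by
  unfold bf
  rcases hn with rfl | rfl <;> rw [min_eq_left (by linarith), max_eq_right (by linarith)]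

lemma bf_3 (h : c + e ≤ x) (h' : x ≤ c + (n + 1) * e) :
    bf n c e x = c + (n + 1) * e + (x - (c + (n + 1) * e)) / n := by
  unfold bf
  rcases hn with rfl | rfl <;> rw [min_eq_right (by linarith), max_eq_right (by linarith)]

lemma bf_4 (h : c + (n + 1) * e ≤ x) : bf n c e x = x := by
  rcases hn with rfl | rfl <;> exact max_eq_left ((min_le_right _ _).trans (by linarith))

lemma lt_bf (h : c < x) (h' : x < c + (n + 1) * e) : x < bf n c e x := by
  rcases hn with rfl | rfl <;> exact lt_max_of_lt_right (lt_min (by linarith) (by linarith))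

include he

lemma exists_bump (hc : IsDyadic c) (hd : IsDyadic e) (h0 : 0 ≤ c) (h1 : c + (n + 1) * e ≤ 1) :
    ∃ f : ThompsonF, (∀ x : I, ((f • x : I) : ℝ) = bf n c e x) ∧
      Lin f {c, c + e, c + (n + 1) * e} := by
  obtain ⟨j, hj⟩ : ∃ j : ℤ, (2 : ℝ) ^ j = n := by
    rcases hn with rfl | rfl
    exacts [⟨1, by norm_num⟩, ⟨2, by norm_num⟩]
  have hp : 0 < n := by rcases hn with rfl | rfl <;> norm_num
  have he' : e ≤ (n + 1) * e := by nlinarith
  have hl : ∀ x y : I, x < y → (∀ b ∈ ({c, c + e, c + (n + 1) * e} : Finset ℝ),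
      ¬ ((x : ℝ) < b ∧ b < (y : ℝ))) → ∃ k : ℤ, ∀ z : I, x ≤ z → z ≤ y →
        bf n c e z = bf n c e x + (2 : ℝ) ^ k * ((z : ℝ) - x) := by
    intro x y hxy hB
    have hxy' : (x : ℝ) < y := hxy
    have k1 := hB c (by simp)
    have k2 := hB (c + e) (by simp)
    have k3 := hB (c + (n + 1) * e) (by simp)
    simp only [not_and_or, not_lt] at k1 k2 k3
    simp only [← Subtype.coe_le_coe]
    rcases k1 with k1 | k1
    · rcases k2 with k2 | k2
      · rcases k3 with k3 | k3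
        · exact ⟨0, fun z r1 r2 => by rw [bf_4 hn k3, bf_4 hn (k3.trans r1)]; simp⟩
        · refine ⟨-j, fun z r1 r2 => ?_⟩
          rw [bf_3 hn k2 (by linarith), bf_3 hn (k2.trans r1) (by linarith), zpow_neg, hj]
          field_simp
          ring
      · refine ⟨j, fun z r1 r2 => ?_⟩
        rw [bf_2 hn k1 (by linarith), bf_2 hn (k1.trans r1) (by linarith), hj]
        ring
    · exact ⟨0, fun z r1 r2 => by
        rw [bf_1 hn (x := x) (by linarith), bf_1 hn (x := z) (by linarith)]; simp⟩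
  refine ⟨⟨mkHomeo (bf n c e) (bf_mono hn) (by unfold bf; fun_prop) (bf_1 hn h0) (bf_4 hn h1),
    fun _ _ h => bf_mono hn h, _, ?_, hl⟩, fun _ => rfl, hl⟩
  intro b hb
  simp only [Finset.mem_insert, Finset.mem_singleton] at hb
  rcases hb with rfl | rfl | rfl
  · exact hc
  · exact hc.add hd
  · rw [add_mul, one_mul, ← hj]
    exact hc.add ((hd.zpow_mul j).add hd)

end bump

lemma exists_dyadic {a x b : ℝ} (h1 : a < x) (h2 : x < b) :
    ∃ c e : ℝ, IsDyadic c ∧ IsDyadic e ∧ 0 < e ∧ a < c ∧ c < x ∧ x < c + 2 * e ∧ c + 5 * e < b := by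
  obtain ⟨n, hn⟩ := exists_pow_lt_of_lt_one (lt_min (by linarith : 0 < (x - a) / 2)
    (by linarith : 0 < (b - x) / 4)) (by norm_num : (1 / 2 : ℝ) < 1)
  have he : (0 : ℝ) < (1 / 2) ^ n := by positivity
  have k1 := hn.trans_le (min_le_left _ _)
  have k2 := hn.trans_le (min_le_right _ _)
  have hd : IsDyadic ((1 / 2 : ℝ) ^ n) := ⟨1, n, by simp⟩
  have hc : IsDyadic (((⌊x / (1 / 2) ^ n⌋ - 1 : ℤ) : ℝ) * (1 / 2) ^ n) :=
    ⟨⌊x / (1 / 2) ^ n⌋ - 1, n, by simp [div_eq_mul_inv]⟩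
  generalize (1 / 2 : ℝ) ^ n = e at *
  have k3 := (le_div_iff₀ he).1 (Int.floor_le (x / e))
  have k4 := (div_lt_iff₀ he).1 (Int.lt_floor_add_one (x / e))
  refine ⟨_, e, hc, hd, he, ?_, ?_, ?_, ?_⟩ <;> push_cast <;> linarith

lemma exists_move {a x b : I} (h1 : a < x) (h2 : x < b) :
    ∃ (f : ThompsonF) (c e : ℝ), IsDyadic c ∧ IsDyadic e ∧ 0 < e ∧ a < c ∧ c + 5 * e < b ∧
      (∀ x : I, ((f • x : I) : ℝ) = bf 4 c e x) ∧ f • x ≠ x := by
  obtain ⟨c, e, k1, k2, k3, k4, k5, k6, k7⟩ := exists_dyadic (a := a) (x := x) (b := b) h1 h2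
  obtain ⟨f, f1, -⟩ := exists_bump (Or.inr rfl) k3 k1 k2 (a.2.1.trans k4.le)
    (by linarith [b.2.2])
  refine ⟨f, c, e, k1, k2, k3, k4, k7, f1, fun h => ?_⟩
  have := lt_bf (Or.inr rfl) (e := e) k5 (by linarith)
  rw [← f1, h] at this
  exact lt_irrefl _ this

lemma sup_of_bf {f : ThompsonF} {n c e : ℝ} (hn : n = 2 ∨ n = 4)
    (hf : ∀ x : I, ((f • x : I) : ℝ) = bf n c e x) {a b : I} (ha : (a : ℝ) ≤ c)
    (hb : c + (n + 1) * e ≤ b) : Sup f a b := fun y hy => Subtype.ext (by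
  rw [hf]
  exact hy.elim (fun h => bf_1 hn (le_trans h ha)) fun h => bf_4 hn (hb.trans h))

theorem lmF : LM ThompsonF I where
  mono g _ _ h := g.2.1 h
  faith g h := Subtype.ext (Homeomorph.ext h)
  move a x b h1 h2 := by
    obtain ⟨f, c, e, -, -, -, k1, k2, k3, k4⟩ := exists_move h1 h2
    exact ⟨f, sup_of_bf (Or.inr rfl) k3 k1.le (by linarith), k4⟩

end Pool.Agent.Lib.MP_24b811_al.Gc
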