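import Pool.Agent.Lib.MP_24b811_al.GcCre

/-!
# Roots, leftmost letters, and splitting of creation sequences
-/

set_option autoImplicit false

namespace Pool.Agent.Lib.MP_24b811_al.Gc

open List

universe u

variable {S M : Type u} {R : Sys S M}
variable {s0 s1 s2 s3 s s' : List (Tm S M)} {H H' : Finset (Cell S M)} {p p' : Path M}

/-- The list of atoms of a word. -/
def base (M : Type u) (w : List S) : List (Tm S M) := w.zipIdx.map fun x => Tm.atom x.2 x.1

@[simp] lemma lab_base (w : List S) : lab (base M w) = w := by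
  simp only [base, lab, map_map]
  exact zipIdx_map_fst 0 _

@[simp] lemma length_base (w : List S) : (base M w).length = w.length := by simp [base]

lemma gen_base (w : List S) : Gen (base M w) := by
  refine ⟨Nodup.map_on ?_ (nodup_zipIdx_map_snd _).of_map, fun t ht => ?_⟩
  · intro x _ y _ h
    injection h with h3 h4
    exact Prod.ext h4 h3
  · obtain ⟨x, -, rfl⟩ := mem_map.1 ht
    exact ⟨_, _, rfl⟩

lemma Gen.sub (h : Gen s0) (h1 : s1 <+ s0) : Gen s1 :=
  ⟨h.1.sublist h1, fun t ht => h.2 t (h1.subset ht)⟩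

lemma Gen.left (h : Gen (s1 ++ s2)) : Gen s1 := h.sub (sublist_append_left _ _)

lemma Gen.right (h : Gen (s1 ++ s2)) : Gen s2 := h.sub (sublist_append_right _ _)

/-- The letter descends from letters of `s1` only. -/
inductive Rt (s1 : List (Tm S M)) : Tm S M → Prop
  | base {t : Tm S M} (h : t ∈ s1) : Rt s1 t
  | out {T : List (Tm S M)} (m : M) (j : ℕ) (a : S) (h : ∀ t ∈ T, Rt s1 t) : Rt s1 (.out T m j a)

lemma Rt.inv {t : Tm S M} (h : Rt s1 t) :
    t ∈ s1 ∨ ∃ T m j a, t = .out T m j a ∧ ∀ t ∈ T, Rt s1 t := by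
  cases h with
  | base h => exact Or.inl h
  | out m j a h => exact Or.inr ⟨_, _, _, _, rfl, h⟩

lemma Rt.mono (h1 : s1 ⊆ s2) {t : Tm S M} (h : Rt s1 t) : Rt s2 t := by
  induction h with
  | base h => exact .base (h1 h)
  | out m j a _ ih => exact .out m j a ih

lemma Cre.rt (h : Cre R s1 p s H) : (∀ t ∈ s, Rt s1 t) ∧ ∀ c ∈ H, ∀ t ∈ c.1, Rt s1 t := by
  induction h with
  | nil => exact ⟨fun t ht => .base ht, by simp⟩
  | snoc A T B m hs _ _ _ ih =>
    subst hs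
    have hT : ∀ t ∈ T, Rt s1 t := fun t ht => ih.1 t (by simp [ht])
    refine ⟨fun t ht => ?_, fun c hc => ?_⟩
    · simp only [mem_append] at ht
      rcases ht with (h | h) | h
      · exact ih.1 t (by simp [h])
      · obtain ⟨j, a, rfl⟩ := mem_bot h
        exact .out m j a hT
      · exact ih.1 t (by simp [h])
    · rcases Finset.mem_insert.1 hc with rfl | hc
      exacts [hT, ih.2 c hc]

lemma Rt.disj (hg : Gen (s1 ++ s2)) {t : Tm S M} (h : WF R t) (h1 : Rt s1 t) (h2 : Rt s2 t) :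
    False := by
  induction h with
  | atom i a =>
    rcases h1.inv with h1 | ⟨_, _, _, _, e, -⟩
    · rcases h2.inv with h2 | ⟨_, _, _, _, e, -⟩
      · exact (nodup_append.1 hg.1).2.2 _ h1 _ h2 rfl
      · exact Tm.out_ne e.symm
    · exact Tm.out_ne e.symm
  | out j a _ k2 _ ih =>
    obtain ⟨t, ht⟩ := exists_mem_of_ne_nil _ (ne_nil_of_lab k2)
    rcases h1.inv with h1 | ⟨_, _, _, _, e, h1⟩
    · obtain ⟨_, _, h3⟩ := hg.2 _ (mem_append_left _ h1)
      exact Tm.out_ne h3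
    · rcases h2.inv with h2 | ⟨_, _, _, _, e', h2⟩
      · obtain ⟨_, _, h3⟩ := hg.2 _ (mem_append_right _ h2)
        exact Tm.out_ne h3
      · obtain ⟨rfl, -⟩ := Tm.out_inj e
        obtain ⟨rfl, -⟩ := Tm.out_inj e'
        exact ih t ht (h1 t ht) (h2 t ht)

/-- The letters on the left boundary below `ρ`. -/
inductive Lm (ρ : Tm S M) : Tm S M → Prop
  | base : Lm ρ ρ
  | out {t : Tm S M} (T : List (Tm S M)) (m : M) (a : S) (h : Lm ρ t) : Lm ρ (.out (t :: T) m 0 a)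

lemma Lm.inv {ρ t : Tm S M} (h : Lm ρ t) :
    t = ρ ∨ ∃ t' T m a, t = .out (t' :: T) m 0 a ∧ Lm ρ t' := by
  cases h with
  | base => exact Or.inl rfl
  | out T m a h => exact Or.inr ⟨_, _, _, _, rfl, h⟩

lemma Cre.lm {ρ : Tm S M} (hg : Gen (ρ :: s1)) (h : Cre R (ρ :: s1) p s H) :
    ∃ μ B, s = μ :: B ∧ Lm ρ μ ∧ ∀ t ∈ B, ¬ Lm ρ t := by
  obtain ⟨i, a0, rfl⟩ := hg.2 ρ mem_cons_self
  induction h with
  | nil =>
    refine ⟨_, _, rfl, .base, fun t ht h => ?_⟩
    obtain ⟨i', a', rfl⟩ := hg.2 t (mem_cons_of_mem _ ht)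
    rcases h.inv with e | ⟨_, _, _, _, e, -⟩
    · exact (nodup_cons.1 hg.1).1 (e ▸ ht)
    · exact Tm.out_ne e.symm
  | snoc A T B m hs _ h1 _ ih =>
    obtain ⟨μ, B', rfl, k1, k2⟩ := ih
    rcases A with _ | ⟨x, A⟩
    · obtain ⟨t, T', rfl⟩ := exists_cons_of_ne_nil (ne_nil_of_lab h1)
      simp only [nil_append, cons_append, cons.injEq] at hs
      obtain ⟨rfl, rfl⟩ := hs
      obtain ⟨a, l, e1, e2⟩ := bot_eq_cons (R := R) (μ :: T', m)
      refine ⟨_, l ++ B, by rw [e1]; rfl, .out T' m a k1, fun t ht h => ?_⟩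
      rcases mem_append.1 ht with ht | ht
      · obtain ⟨j, a', rfl⟩ := mem_bot (R := R) (c := (μ :: T', m)) (e1 ▸ mem_cons_of_mem _ ht)
        rcases h.inv with e | ⟨_, _, _, _, e, -⟩
        exacts [Tm.out_ne e, e2 _ ht _ _ _ e]
      · exact k2 t (by simp [ht]) h
    · simp only [cons_append, cons.injEq] at hs
      obtain ⟨rfl, rfl⟩ := hs
      refine ⟨_, A ++ bot R (T, m) ++ B, by simp, k1, fun t ht h => ?_⟩
      simp only [mem_append] at ht
      rcases ht with (ht | ht) | ht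
      · exact k2 t (by simp [ht]) h
      · obtain ⟨j, a', rfl⟩ := mem_bot ht
        rcases h.inv with e | ⟨_, _, _, _, e, h⟩
        · exact Tm.out_ne e
        · obtain ⟨e1, -⟩ := Tm.out_inj e
          dsimp only at e1
          exact k2 _ (by simp [e1]) h
      · exact k2 t (by simp [ht]) h

variable (R) in
lemma Lm.root {ρ μ : Tm S M} (h : Lm ρ μ) : μ = ρ ∨ ∃ d : Cell S M, ρ ∈ d.1 ∧
    ∀ s H, Inv R s H → (μ ∈ s ∨ ∃ c ∈ H, μ ∈ c.1) → d ∈ H := by
  induction h with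
  | base => exact Or.inl rfl
  | @out t T m a _ ih =>
    have key : ∀ s H, Inv R s H → (Tm.out (t :: T) m 0 a ∈ s ∨
        ∃ c ∈ H, Tm.out (t :: T) m 0 a ∈ c.1) → (t :: T, m) ∈ H := by
      rintro s H I (h | ⟨c, hc, h⟩)
      exacts [I.mem h, I.anc c hc h]
    rcases ih with rfl | ⟨d, d1, d2⟩
    · exact Or.inr ⟨(t :: T, m), mem_cons_self, key⟩
    · exact Or.inr ⟨d, d1, fun s H I h => d2 s H I (Or.inr ⟨_, key s H I h, mem_cons_self⟩)⟩

/-- A creation sequence without a cell across the cut is a sum. -/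
lemma Cre.split {ρ : Tm S M} (hg : Gen (s1 ++ ρ :: s2)) (h : Cre R (s1 ++ ρ :: s2) p s H)
    (hx : ∀ c ∈ H, ∀ t ∈ c.1, ∀ μ ∈ c.1, Rt s1 t → Rt (ρ :: s2) μ → Lm ρ μ → False) :
    ∃ p1 p2 A B H1 H2, Cre R s1 p1 A H1 ∧ Cre R (ρ :: s2) p2 B H2 ∧ s = A ++ B := by
  induction h with
  | nil => exact ⟨_, _, _, _, _, _, .nil, .nil, rfl⟩
  | snoc A0 T B0 m hs _ h1 h2 ih =>
    obtain ⟨p1, p2, A, B, H1, H2, c1, c2, rfl⟩ :=
      ih fun c hc => hx c (Finset.mem_insert_of_mem hc)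
    rcases append_eq_append_iff.1 hs.symm with ⟨C, rfl, rfl⟩ | ⟨C, e1, rfl⟩
    · exact ⟨_, _, _, _, _, _, .snoc A0 T C m rfl c1 h1 h2, c2, by simp⟩
    rcases append_eq_append_iff.1 e1 with ⟨D, rfl, rfl⟩ | ⟨D, rfl, rfl⟩
    · rcases C with _ | ⟨μ, C⟩
      · exact ⟨_, _, _, _, _, _, .snoc A0 (D ++ []) [] m (by simp) c1 h1 h2, c2, by simp⟩
      rcases D with _ | ⟨t, D⟩
      · exact ⟨_, _, _, _, _, _, c1, .snoc [] ([] ++ μ :: C) B0 m (by simp) c2 h1 h2, by simp⟩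
      obtain ⟨μ', B', e2, k1, -⟩ := c2.lm hg.right
      simp only [cons_append, cons.injEq] at e2
      exact (hx _ (Finset.mem_insert_self _ _) t (by simp) μ (by simp) (c1.rt.1 t (by simp))
        (c2.rt.1 μ (by simp)) (e2.1 ▸ k1)).elim
    · exact ⟨_, _, _, _, _, _, c1, .snoc D T B0 m rfl c2 h1 h2, by simp⟩

lemma split_mid {α : Type u} {A T B X Y Z : List α} (h : X ++ Y ++ Z = A ++ T ++ B) (hT : T ≠ [])
    (h1 : ∀ t ∈ T, t ∉ X) (h2 : ∀ t ∈ T, t ∉ Z) :
    ∃ A' B', A = X ++ A' ∧ Y = A' ++ T ++ B' ∧ B = B' ++ Z := by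
  have k1 : ∃ A', A = X ++ A' ∧ Y ++ Z = A' ++ T ++ B := by
    rw [append_assoc, append_assoc] at h
    rcases append_eq_append_iff.1 h with ⟨C, e1, e2⟩ | ⟨C, e1, e2⟩
    · exact ⟨C, e1, by simpa using e2⟩
    · rcases C with _ | ⟨x, C⟩
      · exact ⟨[], by simpa using e1.symm, by simpa using e2.symm⟩
      · obtain ⟨t, T', rfl⟩ := exists_cons_of_ne_nil hT
        simp only [cons_append, cons.injEq] at e2
        exact absurd (by simp [e1, e2.1]) (h1 t (by simp))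
  obtain ⟨A', rfl, k2⟩ := k1
  rcases append_eq_append_iff.1 k2 with ⟨C, e1, e2⟩ | ⟨C, e1, e2⟩
  · rcases eq_nil_or_concat C with rfl | ⟨C', x, rfl⟩
    · exact ⟨A', [], rfl, by simpa using e1.symm, by simpa using e2.symm⟩
    · obtain ⟨T', t, rfl⟩ := (eq_nil_or_concat T).resolve_left hT
      simp only [concat_eq_append, ← append_assoc] at e1
      have := (append_inj' e1 rfl).2
      simp only [cons.injEq, and_true] at this
      exact absurd (by simp [e2, this]) (h2 t (by simp))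
  · exact ⟨A', C, rfl, e1, e2⟩

/-- If the letters of two outer blocks survive, only the middle block is rewritten. -/
lemma Cre.persist (hg : Gen (s1 ++ s2 ++ s3)) (h : Cre R (s1 ++ s2 ++ s3) p s H)
    (k1 : ∀ t ∈ s1, t ∈ s) (k3 : ∀ t ∈ s3, t ∈ s) :
    ∃ q B K, Cre R s2 q B K ∧ s = s1 ++ B ++ s3 := by
  have hx : ∀ c ∈ H, ∀ t ∈ c.1, t ∉ s1 ∧ t ∉ s3 := fun c hc t ht =>
    ⟨fun h1 => (h.inv hg).gone c hc t ht (k1 t h1), fun h1 => (h.inv hg).gone c hc t ht (k3 t h1)⟩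
  clear k1 k3
  induction h with
  | nil => exact ⟨_, _, _, .nil, rfl⟩
  | snoc A T B0 m hs _ h1 h2 ih =>
    obtain ⟨q, B, K, c1, rfl⟩ := ih fun c hc => hx c (Finset.mem_insert_of_mem hc)
    obtain ⟨A', B', rfl, rfl, rfl⟩ := split_mid hs (ne_nil_of_lab h1)
      (fun t ht => (hx _ (Finset.mem_insert_self _ _) t ht).1)
      (fun t ht => (hx _ (Finset.mem_insert_self _ _) t ht).2)
    exact ⟨_, _, _, .snoc A' T B' m rfl c1 h1 h2, by simp⟩

/-- The move that creates a given cell. -/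
lemma Cre.find (h : Cre R s0 p s H) {c : Cell S M} (hc : c ∈ H) :
    ∃ q A B K, Cre R s0 q (A ++ c.1 ++ B) K ∧ K ⊆ H ∧ lab c.1 = R.src c.2 ∧
      ¬ Undo R c.1 c.2 := by
  induction h with
  | nil => simp at hc
  | snoc A T B m hs h h1 h2 ih =>
    rcases Finset.mem_insert.1 hc with rfl | hc
    · exact ⟨_, A, B, _, hs ▸ h, Finset.subset_insert _ _, h1, h2⟩
    · obtain ⟨q, A', B', K, k1, k2, k3⟩ := ih hc
      exact ⟨q, A', B', K, k1, k2.trans (Finset.subset_insert _ _), k3⟩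

/-- An atom that has disappeared lies in the top of a cell. -/
lemma Cre.consumed (h : Cre R s0 p s H) {t : Tm S M} (h1 : t ∈ s0) (h2 : t ∉ s) :
    ∃ c ∈ H, t ∈ c.1 := by
  induction h with
  | nil => exact absurd h1 h2
  | @snoc p s H A T B m hs _ _ _ ih =>
    by_cases ht : t ∈ s
    · refine ⟨_, Finset.mem_insert_self _ _, ?_⟩
      simp only [hs, mem_append, not_or] at ht h2
      tauto
    · obtain ⟨c, c1, c2⟩ := ih ht
      exact ⟨c, Finset.mem_insert_of_mem c1, c2⟩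

end Pool.Agent.Lib.MP_24b811_al.Gc
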