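import Mathlib

/-!
# Rewriting moves, paths, and the model of letters with history
-/

set_option autoImplicit false

namespace Pool.Agent.Lib.MP_24b811_al.Gc

open List

universe u

/-- A symmetric system of rewriting moves. -/
structure Sys (S M : Type u) where
  src : M → List S
  inv : M → M
  inv_inv : ∀ m, inv (inv m) = m
  inv_ne : ∀ m, inv m ≠ m
  src_ne : ∀ m, src m ≠ []

/-- A path is a list of moves with positions. -/
abbrev Path (M : Type u) := List (ℕ × M)

variable {S M : Type u} (R : Sys S M)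

/-- Valid paths between words. -/
inductive Valid : List S → Path M → List S → Prop
  | nil (w : List S) : Valid w [] w
  | cons {w w' : List S} {p : Path M} {e : ℕ × M} (a b : List S) (m : M)
      (hw : w = a ++ R.src m ++ b) (he : e = (a.length, m))
      (h : Valid (a ++ R.src (R.inv m) ++ b) p w') : Valid w (e :: p) w'

/-- The inverse path. -/
def pinv (p : Path M) : Path M := (p.map fun e => (e.1, R.inv e.2)).reverse

/-- A path moved to the right. -/
def shift (k : ℕ) (p : Path M) : Path M := p.map fun e => (k + e.1, e.2)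

variable {R}

@[simp] lemma pinv_nil : pinv R [] = [] := rfl

@[simp] lemma pinv_cons (e : ℕ × M) (p : Path M) :
    pinv R (e :: p) = pinv R p ++ [(e.1, R.inv e.2)] := by simp [pinv]

@[simp] lemma pinv_length (p : Path M) : (pinv R p).length = p.length := by simp [pinv]

@[simp] lemma shift_nil (k : ℕ) : shift k ([] : Path M) = [] := rfl

@[simp] lemma shift_cons (k : ℕ) (e : ℕ × M) (p : Path M) :
    shift k (e :: p) = (k + e.1, e.2) :: shift k p := rfl

@[simp] lemma shift_append (k : ℕ) (p q : Path M) :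
    shift k (p ++ q) = shift k p ++ shift k q := by simp [shift]

@[simp] lemma shift_zero (p : Path M) : shift 0 p = p := by simp [shift]

lemma shift_shift (k l : ℕ) (p : Path M) : shift k (shift l p) = shift (k + l) p := by
  simp [shift, add_assoc]

@[simp] lemma shift_length (k : ℕ) (p : Path M) : (shift k p).length = p.length := by
  simp [shift]

lemma Valid.single (a b : List S) (m : M) :
    Valid R (a ++ R.src m ++ b) [(a.length, m)] (a ++ R.src (R.inv m) ++ b) :=
  .cons a b m rfl rfl (.nil _)

lemma Valid.append {w w' w'' : List S} {p q : Path M} (h : Valid R w p w')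
    (h' : Valid R w' q w'') : Valid R w (p ++ q) w'' := by
  induction h with
  | nil w => exact h'
  | cons a b m hw he _ ih => exact .cons a b m hw he (ih h')

lemma Valid.inv {w w' : List S} {p : Path M} (h : Valid R w p w') : Valid R w' (pinv R p) w := by
  induction h with
  | nil w => exact .nil _
  | cons a b m hw he _ ih =>
    subst hw he
    rw [pinv_cons]
    refine ih.append ?_
    have := Valid.single (R := R) a b (R.inv m)
    rwa [R.inv_inv] at this

lemma Valid.of_append {w w'' : List S} {p q : Path M} (h : Valid R w (p ++ q) w'') :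
    ∃ w', Valid R w p w' ∧ Valid R w' q w'' := by
  induction p generalizing w with
  | nil => exact ⟨w, .nil _, h⟩
  | cons e p ih =>
    rw [cons_append] at h
    cases h with
    | cons a b m hw he h =>
      obtain ⟨w', h1, h2⟩ := ih h
      exact ⟨w', .cons a b m hw he h1, h2⟩

lemma blk_unique {α : Type u} {a b x a' b' x' : List α} (h : a ++ x ++ b = a' ++ x' ++ b')
    (h1 : a.length = a'.length) (h2 : x.length = x'.length) : a = a' ∧ x = x' ∧ b = b' := by
  rw [append_assoc, append_assoc] at h
  obtain ⟨h3, h4⟩ := append_inj h h1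
  obtain ⟨h5, h6⟩ := append_inj h4 h2
  exact ⟨h3, h5, h6⟩

lemma Valid.det {w w' w'' : List S} {p : Path M} (h : Valid R w p w') (h' : Valid R w p w'') :
    w' = w'' := by
  induction h with
  | nil w => cases h'; rfl
  | cons a b m hw he _ ih =>
    cases h' with
    | cons a' b' m' hw' he' h' =>
      obtain ⟨h1, rfl⟩ := Prod.mk.inj (he.symm.trans he')
      obtain ⟨rfl, -, rfl⟩ := blk_unique (hw.symm.trans hw') h1 rfl
      exact ih h'

lemma Valid.whisk {w w' : List S} {p : Path M} (h : Valid R w p w') (u v : List S) :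
    Valid R (u ++ w ++ v) (shift u.length p) (u ++ w' ++ v) := by
  induction h with
  | nil w => exact .nil _
  | cons a b m hw he _ ih =>
    subst hw he
    exact .cons (u ++ a) (b ++ v) m (by simp) (by simp) (by simpa [shift] using ih)

lemma Valid.whiskR {w w' : List S} {p : Path M} (h : Valid R w p w') (v : List S) :
    Valid R (w ++ v) p (w' ++ v) := by simpa using h.whisk [] v

lemma Valid.whiskL {w w' : List S} {p : Path M} (h : Valid R w p w') (u : List S) :
    Valid R (u ++ w) (shift u.length p) (u ++ w') := by simpa using h.whisk u []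

lemma Valid.ne_nil {w w' : List S} {p : Path M} (h : Valid R w p w') (hw : w ≠ []) : w' ≠ [] := by
  induction h with
  | nil w => exact hw
  | cons a b m _ _ _ ih => exact ih (by simp [R.src_ne])

variable (R) in
/-- A set on which the moves act, with the relations of the Squier complex. -/
structure SqSet where
  Z : Type u
  ok : Z → Prop
  wd : Z → List S
  ext : Z → ℕ × M → Z
  ok_ext : ∀ {z a b m}, ok z → wd z = a ++ R.src m ++ b → ok (ext z (a.length, m))
  wd_ext : ∀ {z a b m}, ok z → wd z = a ++ R.src m ++ b →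
    wd (ext z (a.length, m)) = a ++ R.src (R.inv m) ++ b
  cancel : ∀ {z a b m}, ok z → wd z = a ++ R.src m ++ b →
    ext (ext z (a.length, m)) (a.length, R.inv m) = z
  square : ∀ {z a b c m m'}, ok z → wd z = a ++ R.src m ++ b ++ R.src m' ++ c →
    ext (ext z (a.length, m)) (a.length + (R.src (R.inv m)).length + b.length, m') =
      ext (ext z (a.length + (R.src m).length + b.length, m')) (a.length, m)

/-- The end point of a path. -/
def SqSet.run (X : SqSet R) (z : X.Z) (p : Path M) : X.Z := p.foldl X.ext z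

@[simp] lemma SqSet.run_nil (X : SqSet R) (z : X.Z) : X.run z [] = z := rfl

@[simp] lemma SqSet.run_cons (X : SqSet R) (z : X.Z) (e : ℕ × M) (p : Path M) :
    X.run z (e :: p) = X.run (X.ext z e) p := rfl

lemma SqSet.run_append (X : SqSet R) (z : X.Z) (p q : Path M) :
    X.run z (p ++ q) = X.run (X.run z p) q := by simp [SqSet.run]

lemma SqSet.run_ok (X : SqSet R) {w w' : List S} {p : Path M} (h : Valid R w p w') {z : X.Z}
    (hz : X.ok z) (hw : X.wd z = w) : X.ok (X.run z p) ∧ X.wd (X.run z p) = w' := by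
  induction h generalizing z with
  | nil w => exact ⟨hz, hw⟩
  | cons a b m hw' he _ ih =>
    subst hw' he
    exact ih (X.ok_ext hz hw) (X.wd_ext hz hw)

lemma SqSet.run_pinv (X : SqSet R) {w w' : List S} {p : Path M} (h : Valid R w p w') {z : X.Z}
    (hz : X.ok z) (hw : X.wd z = w) : X.run (X.run z p) (pinv R p) = z := by
  induction h generalizing z with
  | nil w => rfl
  | cons a b m hw' he _ ih =>
    subst hw' he
    rw [pinv_cons, X.run_cons, X.run_append, ih (X.ok_ext hz hw) (X.wd_ext hz hw)]
    exact X.cancel hz hw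

lemma SqSet.pinv_run (X : SqSet R) {w w' : List S} {p : Path M} (h : Valid R w p w') {z : X.Z}
    (hz : X.ok z) (hw : X.wd z = w') : X.run (X.run z (pinv R p)) p = z := by
  have h1 := X.run_pinv h.inv hz hw
  have h2 : pinv R (pinv R p) = p := by
    simp only [pinv, map_reverse, reverse_reverse, map_map]
    conv_rhs => rw [← map_id p]
    exact map_congr_left fun e _ => by simp [R.inv_inv]
  rwa [h2] at h1

variable (R) in
/-- Homotopy of paths that start at `w`. -/
def Hty (w : List S) (p q : Path M) : Prop :=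
  ∀ (X : SqSet R) (z : X.Z), X.ok z → X.wd z = w → X.run z p = X.run z q

lemma Hty.refl (w : List S) (p : Path M) : Hty R w p p := fun _ _ _ _ => rfl

lemma Hty.symm {w : List S} {p q : Path M} (h : Hty R w p q) : Hty R w q p :=
  fun X z h1 h2 => (h X z h1 h2).symm

lemma Hty.trans {w : List S} {p q r : Path M} (h : Hty R w p q) (h' : Hty R w q r) :
    Hty R w p r := fun X z h1 h2 => (h X z h1 h2).trans (h' X z h1 h2)

lemma Hty.append_right {w : List S} {p q : Path M} (h : Hty R w p q) (r : Path M) :
    Hty R w (p ++ r) (q ++ r) := fun X z h1 h2 => by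
  rw [X.run_append, X.run_append, h X z h1 h2]

lemma Hty.append_left {w w' : List S} {p q r : Path M} (hr : Valid R w r w') (h : Hty R w' p q) :
    Hty R w (r ++ p) (r ++ q) := fun X z h1 h2 => by
  rw [X.run_append, X.run_append, h X _ (X.run_ok hr h1 h2).1 (X.run_ok hr h1 h2).2]

lemma Hty.cancel_left {w w' : List S} {p q r : Path M} (hr : Valid R w r w')
    (h : Hty R w (r ++ p) (r ++ q)) : Hty R w' p q := fun X z h1 h2 => by
  have := h X _ (X.run_ok hr.inv h1 h2).1 (X.run_ok hr.inv h1 h2).2
  rwa [X.run_append, X.run_append, X.pinv_run hr h1 h2] at this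

/-! ### Letters with history -/

/-- A letter is an atom or the `j`-th letter of the bottom of a cell. -/
inductive Tm (S M : Type u) : Type u
  | atom (i : ℕ) (a : S)
  | out' (n : ℕ) (top : Fin n → Tm S M) (m : M) (j : ℕ) (a : S)

/-- The `j`-th letter of the bottom of the cell with top `T` and move `m`. -/
def Tm.out (T : List (Tm S M)) (m : M) (j : ℕ) (a : S) : Tm S M := .out' T.length T.get m j a

/-- The top of the cell above a letter. -/
def Tm.top : Tm S M → List (Tm S M)
  | .atom _ _ => []
  | .out' _ f _ _ _ => ofFn f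

lemma Tm.out_inj {T T' : List (Tm S M)} {m m' : M} {j j' : ℕ} {a a' : S}
    (h : Tm.out T m j a = Tm.out T' m' j' a') : T = T' ∧ m = m' ∧ j = j' ∧ a = a' := by
  have h1 : ofFn T.get = ofFn T'.get := congrArg Tm.top h
  rw [ofFn_get, ofFn_get] at h1
  unfold Tm.out at h
  injection h with _ _ h2 h3 h4
  exact ⟨h1, h2, h3, h4⟩

lemma Tm.out_ne {T : List (Tm S M)} {m : M} {j i : ℕ} {a a' : S} :
    Tm.out T m j a ≠ Tm.atom i a' := fun h => by cases h

/-- The label of a letter. -/
def Tm.lab : Tm S M → S
  | .atom _ a => a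
  | .out' _ _ _ _ a => a

/-- A cell is its top and its move. -/
abbrev Cell (S M : Type u) := List (Tm S M) × M

noncomputable instance : DecidableEq (Cell S M) := Classical.decEq _

/-- The word of a list of letters. -/
abbrev lab (s : List (Tm S M)) : List S := s.map Tm.lab

variable (R) in
/-- The bottom of a cell. -/
def bot (c : Cell S M) : List (Tm S M) :=
  (R.src (R.inv c.2)).zipIdx.map fun x => Tm.out c.1 c.2 x.2 x.1

lemma lab_bot (c : Cell S M) : lab (bot R c) = R.src (R.inv c.2) := by
  simp only [bot, lab, map_map]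
  exact zipIdx_map_fst 0 _

lemma bot_ne (c : Cell S M) : bot R c ≠ [] := fun h => R.src_ne _ (by
  rw [← lab_bot c, h]; rfl)

lemma mem_bot {c : Cell S M} {t : Tm S M} (h : t ∈ bot R c) : ∃ j a, t = .out c.1 c.2 j a := by
  obtain ⟨x, -, rfl⟩ := mem_map.1 h
  exact ⟨_, _, rfl⟩

lemma eq_of_mem_bot {c d : Cell S M} {t : Tm S M} (h : t ∈ bot R c) (h' : t ∈ bot R d) :
    c = d := by
  obtain ⟨j, a, rfl⟩ := mem_bot h
  obtain ⟨j', a', h1⟩ := mem_bot h'
  obtain ⟨h2, h3, -⟩ := Tm.out_inj h1
  exact Prod.ext h2 h3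

lemma bot_inj {c d : Cell S M} (h : bot R c = bot R d) : c = d := by
  obtain ⟨t, ht⟩ := exists_mem_of_ne_nil _ (bot_ne (R := R) c)
  exact eq_of_mem_bot ht (h ▸ ht)

lemma bot_nodup (c : Cell S M) : (bot R c).Nodup := by
  refine Nodup.map_on ?_ (nodup_zipIdx_map_snd _).of_map
  intro x hx y hy h
  obtain ⟨-, -, h3, h4⟩ := Tm.out_inj h
  exact Prod.ext h4 h3

lemma bot_eq_cons (c : Cell S M) :
    ∃ a l, bot R c = .out c.1 c.2 0 a :: l ∧ ∀ t ∈ l, ∀ T m a', t ≠ .out T m 0 a' := by
  obtain ⟨a, l, h⟩ := exists_cons_of_ne_nil (R.src_ne (R.inv c.2))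
  refine ⟨a, (l.zipIdx 1).map fun x => Tm.out c.1 c.2 x.2 x.1, by simp [bot, h], ?_⟩
  intro t ht T m a' h1
  obtain ⟨x, hx, rfl⟩ := mem_map.1 ht
  obtain ⟨-, -, h3, -⟩ := Tm.out_inj h1
  have := (mem_zipIdx hx).1
  omega

variable (R) in
/-- The move `m` on the block `T` removes a cell. -/
def Undo (T : List (Tm S M)) (m : M) : Prop := ∃ T', T = bot R (T', R.inv m)

open Classical in
variable (R) in
/-- The cell that is created or removed. -/
noncomputable def tog (T : List (Tm S M)) (m : M) : Cell S M :=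
  if h : Undo R T m then (h.choose, R.inv m) else (T, m)

open Classical in
variable (R) in
/-- The new block. -/
noncomputable def rw (T : List (Tm S M)) (m : M) : List (Tm S M) :=
  if h : Undo R T m then h.choose else bot R (T, m)

lemma tog_new {T : List (Tm S M)} {m : M} (h : ¬ Undo R T m) : tog R T m = (T, m) := dif_neg h

lemma rw_new {T : List (Tm S M)} {m : M} (h : ¬ Undo R T m) : rw R T m = bot R (T, m) :=
  dif_neg h

lemma undo_bot (c : Cell S M) : Undo R (bot R c) (R.inv c.2) := ⟨c.1, by rw [R.inv_inv]⟩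

lemma rw_bot (c : Cell S M) : rw R (bot R c) (R.inv c.2) = c.1 := by
  have h := undo_bot (R := R) c
  rw [rw, dif_pos h]
  exact (congrArg Prod.fst (bot_inj h.choose_spec)).symm

lemma tog_bot (c : Cell S M) : tog R (bot R c) (R.inv c.2) = c := by
  have h := undo_bot (R := R) c
  rw [tog, dif_pos h]
  exact (bot_inj h.choose_spec).symm

lemma Undo.eq_bot {T : List (Tm S M)} {m : M} (h : Undo R T m) :
    ∃ c : Cell S M, T = bot R c ∧ m = R.inv c.2 := by
  obtain ⟨T', h⟩ := h
  exact ⟨_, h, by rw [R.inv_inv]⟩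

variable (R) in
/-- Well-formed letters. -/
inductive WF : Tm S M → Prop
  | atom (i : ℕ) (a : S) : WF (.atom i a)
  | out {T : List (Tm S M)} {m : M} (j : ℕ) (a : S) (h1 : ∀ t ∈ T, WF t) (h2 : lab T = R.src m)
      (h3 : ¬ Undo R T m) : WF (.out T m j a)

lemma wf_bot {c : Cell S M} (h : ∀ t ∈ bot R c, WF R t) :
    (∀ t ∈ c.1, WF R t) ∧ lab c.1 = R.src c.2 ∧ ¬ Undo R c.1 c.2 := by
  obtain ⟨t, ht⟩ := exists_mem_of_ne_nil _ (bot_ne (R := R) c)
  have h1 := h t ht
  obtain ⟨j, a, e⟩ := mem_bot ht
  cases h1 with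
  | atom => exact absurd e.symm Tm.out_ne
  | out _ _ h1 h2 h3 =>
    obtain ⟨e1, e2, -⟩ := Tm.out_inj e
    exact e1 ▸ e2 ▸ ⟨h1, h2, h3⟩

lemma rw_spec {T : List (Tm S M)} {m : M} (h1 : ∀ t ∈ T, WF R t) (h2 : lab T = R.src m) :
    (∀ t ∈ rw R T m, WF R t) ∧ lab (rw R T m) = R.src (R.inv m) ∧
      rw R (rw R T m) (R.inv m) = T ∧ tog R (rw R T m) (R.inv m) = tog R T m := by
  by_cases h : Undo R T m
  · obtain ⟨c, rfl, rfl⟩ := h.eq_bot
    obtain ⟨k1, k2, k3⟩ := wf_bot h1
    rw [rw_bot, tog_bot, R.inv_inv]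
    exact ⟨k1, k2, rw_new k3, tog_new k3⟩
  · rw [rw_new h, tog_new h]
    refine ⟨fun t ht => ?_, lab_bot _, rw_bot (T, m), tog_bot (T, m)⟩
    obtain ⟨j, a, rfl⟩ := mem_bot ht
    exact .out j a h1 h2 h

/-- A state is a list of letters and a set of cells. -/
abbrev St (S M : Type u) := List (Tm S M) × Finset (Cell S M)

variable (R) in
/-- One move on a state. -/
noncomputable def step (x : St S M) (e : ℕ × M) : St S M :=
  (x.1.take e.1 ++ rw R ((x.1.drop e.1).take (R.src e.2).length) e.2 ++
      x.1.drop (e.1 + (R.src e.2).length),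
    symmDiff x.2 {tog R ((x.1.drop e.1).take (R.src e.2).length) e.2})

lemma step_eq (A T B : List (Tm S M)) (H : Finset (Cell S M)) {n : ℕ} {m : M}
    (hn : n = A.length) (h : lab T = R.src m) :
    step R (A ++ T ++ B, H) (n, m) = (A ++ rw R T m ++ B, symmDiff H {tog R T m}) := by
  have h1 : (R.src m).length = T.length := by rw [← h]; simp
  subst hn
  simp [step, h1]

lemma lab_split {s : List (Tm S M)} {a x b : List S} (h : lab s = a ++ x ++ b) :
    ∃ A T B, s = A ++ T ++ B ∧ lab A = a ∧ lab T = x ∧ lab B = b := by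
  obtain ⟨l1, B, rfl, h1, h2⟩ := map_eq_append_iff.1 h
  obtain ⟨A, T, rfl, h3, h4⟩ := map_eq_append_iff.1 h1
  exact ⟨A, T, B, rfl, h3, h4, h2⟩

variable (R) in
/-- The states form a Squier set. -/
noncomputable def states : SqSet R where
  Z := St S M
  ok x := ∀ t ∈ x.1, WF R t
  wd x := lab x.1
  ext := step R
  ok_ext := by
    rintro ⟨s, H⟩ a b m h1 h2
    obtain ⟨A, T, B, rfl, rfl, h4, rfl⟩ := lab_split h2
    rw [step_eq A T B H (by simp) h4]
    simp only [mem_append] at h1 ⊢
    rintro t ((h | h) | h)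
    exacts [h1 t (by simp [h]), (rw_spec (fun t h => h1 t (by simp [h])) h4).1 t h,
      h1 t (by simp [h])]
  wd_ext := by
    rintro ⟨s, H⟩ a b m h1 h2
    obtain ⟨A, T, B, rfl, rfl, h4, rfl⟩ := lab_split h2
    rw [step_eq A T B H (by simp) h4, ← (rw_spec (fun t h => h1 t (by simp [h])) h4).2.1]
    simp
  cancel := by
    rintro ⟨s, H⟩ a b m h1 h2
    obtain ⟨A, T, B, rfl, rfl, h4, rfl⟩ := lab_split h2
    obtain ⟨-, k2, k3, k4⟩ := rw_spec (fun t h => h1 t (by simp [h])) h4
    rw [step_eq A T B H (by simp) h4, step_eq A _ B _ (by simp) k2, k3, k4,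
      symmDiff_symmDiff_cancel_right]
  square := by
    rintro ⟨s, H⟩ a b c m m' h1 h2
    obtain ⟨A', T', C, rfl, h3, h4', rfl⟩ := lab_split h2
    obtain ⟨A, T, B, rfl, rfl, h4, rfl⟩ := lab_split h3
    obtain ⟨-, k2, -, -⟩ := rw_spec (fun t h => h1 t (by simp [h])) h4
    have e1 : A ++ T ++ B ++ T' ++ C = A ++ T ++ (B ++ T' ++ C) := by simp
    have e2 : A ++ rw R T m ++ (B ++ T' ++ C) = A ++ rw R T m ++ B ++ T' ++ C := by simp
    have e3 : A ++ T ++ B ++ rw R T' m' ++ C = A ++ T ++ (B ++ rw R T' m' ++ C) := by simp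
    rw [step_eq (A ++ T ++ B) T' C H (by simp [← h4, add_assoc]) h4', e3,
      step_eq A T _ _ (by simp) h4, e1, step_eq A T _ _ (by simp) h4, e2,
      step_eq _ T' C _ (by simp [← k2, add_assoc]) h4', symmDiff_right_comm]
    simp

variable (R) in
/-- The end state of a path. -/
noncomputable def srun (x : St S M) (p : Path M) : St S M := p.foldl (step R) x

@[simp] lemma srun_nil (x : St S M) : srun R x [] = x := rfl

lemma srun_cons (x : St S M) (e : ℕ × M) (p : Path M) :
    srun R x (e :: p) = srun R (step R x e) p := rfl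

lemma srun_append (x : St S M) (p q : Path M) : srun R x (p ++ q) = srun R (srun R x p) q :=
  (states R).run_append x p q

lemma srun_ok {w w' : List S} {p : Path M} (h : Valid R w p w') {x : St S M}
    (hz : ∀ t ∈ x.1, WF R t) (hw : lab x.1 = w) :
    (∀ t ∈ (srun R x p).1, WF R t) ∧ lab (srun R x p).1 = w' := (states R).run_ok h hz hw

lemma srun_pinv {w w' : List S} {p : Path M} (h : Valid R w p w') {x : St S M}
    (hz : ∀ t ∈ x.1, WF R t) (hw : lab x.1 = w) : srun R (srun R x p) (pinv R p) = x :=
  (states R).run_pinv h hz hw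

lemma Hty.srun {w : List S} {p q : Path M} (h : Hty R w p q) {x : St S M}
    (hz : ∀ t ∈ x.1, WF R t) (hw : lab x.1 = w) : srun R x p = srun R x q :=
  h (states R) x hz hw

/-- The letters do not depend on the set of cells, and a path acts inside its block. -/
lemma srun_whisk {w w' : List S} {p : Path M} (h : Valid R w p w') {s : List (Tm S M)}
    (hz : ∀ t ∈ s, WF R t) (hw : lab s = w) (A B : List (Tm S M)) (H : Finset (Cell S M))
    {k : ℕ} (hk : k = A.length) :
    srun R (A ++ s ++ B, H) (shift k p) =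
      (A ++ (srun R (s, ∅) p).1 ++ B, symmDiff H (srun R (s, ∅) p).2) := by
  subst hk
  have key : ∀ K : Finset (Cell S M), srun R (A ++ s ++ B, symmDiff H K) (shift A.length p) =
      (A ++ (srun R (s, K) p).1 ++ B, symmDiff H (srun R (s, K) p).2) := by
    induction h generalizing s with
    | nil w => exact fun _ => rfl
    | cons a b m hw' he _ ih =>
      subst hw' he
      intro K
      obtain ⟨A', T, B', rfl, rfl, h4, rfl⟩ := lab_split hw
      obtain ⟨k1, k2, -, -⟩ := rw_spec (fun t h => hz t (by simp [h])) h4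
      have e1 : A ++ (A' ++ T ++ B') ++ B = A ++ A' ++ T ++ (B' ++ B) := by simp
      have e2 : A ++ A' ++ rw R T m ++ (B' ++ B) = A ++ (A' ++ rw R T m ++ B') ++ B := by simp
      rw [shift_cons, srun_cons, srun_cons, e1, step_eq _ T _ _ (by simp) h4,
        step_eq A' T B' K (by simp) h4, e2, symmDiff_assoc]
      refine ih (fun t ht => ?_) (by simp [← k2]) _
      simp only [mem_append] at ht
      rcases ht with (h | h) | h
      exacts [hz t (by simp [h]), k1 t h, hz t (by simp [h])]
  have h1 := key ∅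
  rwa [show symmDiff H ∅ = H from symmDiff_bot H] at h1

end Pool.Agent.Lib.MP_24b811_al.Gc
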