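import Pool.Agent.Lib.MP_24b811_al.GcCut

/-!
# Counting leftmost cells along an axis, and the lemma on three commuting elements
-/

set_option autoImplicit false

namespace Pool.Agent.Lib.MP_24b811_al.Gc

open List
open scoped commutatorElement

universe u v

variable {S M : Type u} {R : Sys S M} {G : Type v} [Group G]

namespace Cover

variable {C : Cover R G} {z y : C.X.Z} {i j k : ℕ} {g h l : G}

variable (C) in
/-- The halfspaces of edges just after the cut that the axis enters. -/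
def Bd (z : C.X.Z) (i : ℕ) (g : G) (h : Set C.X.Z) : Prop :=
  (∃ y a m b, C.PQ z i y ∧ C.X.wd y = a ++ R.src m ++ b ∧ a.length = i ∧ h = half y (i, m)) ∧
    C.Up z g h

lemma Bd.isHalf {s : Set C.X.Z} (hb : C.Bd z i g s) : C.Half s := by
  obtain ⟨⟨y, a, m, b, -, h2, rfl, h4⟩, -⟩ := hb
  exact ⟨y, a, m, b, h2, h4⟩

lemma Bd.smul {s : Set C.X.Z} (hb : C.Bd z i g s) (ar : C.AR z g) (hq : C.PQ z i (h • z))
    (hc : Commute h g) : C.Bd z i g {x | h • x ∈ s} := by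
  obtain ⟨a', b', k1, k2⟩ := hb.2.transfer (ar.smul hc) hb.isHalf
  obtain ⟨⟨y, a, m, b, h1, h2, rfl, rfl⟩, -⟩ := hb
  refine ⟨⟨h⁻¹ • y, a, m, b, hq.inv.trans (h1.smul _), by rw [C.wd_act, h2], rfl,
    half_smul h h2⟩, a', b', fun n hn => ?_, fun n hn => ?_⟩
  · rw [Set.mem_ofPred_eq, ← mul_smul, (hc.zpow_right n).eq, mul_smul]; exact k1 n hn
  · rw [Set.mem_ofPred_eq, ← mul_smul, (hc.zpow_right n).eq, mul_smul]; exact k2 n hn

lemma PQ.head {s1 s2 : List (Tm S M)} {ρ : Tm S M} (hq : C.PQ z i y)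
    (hb : base M (C.X.wd z) = s1 ++ ρ :: s2) (hi : s1.length = i) :
    ∃ μ B, C.L z y = s1 ++ μ :: B ∧ Lm ρ μ ∧ ∀ t ∈ B, ¬ Lm ρ t := by
  obtain ⟨_, _, A, B, _, _, -, c2, e1, e2, -⟩ := Spl.letters ⟨z, PL.refl hq.le, hq⟩ hb hi
  obtain ⟨μ, B', rfl, k⟩ := c2.lm (hb ▸ gen_base (M := M) (C.X.wd z)).right
  refine ⟨μ, B', ?_, k⟩
  have := hq.take z
  rw [e1, L_self, hb, take_left' e2, take_left' hi] at this
  rw [e1, this]

lemma Bd.cell {s : Set C.X.Z} {s1 s2 : List (Tm S M)} {ρ : Tm S M} (h : C.Bd z i g s)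
    (hb : base M (C.X.wd z) = s1 ++ ρ :: s2) (hi : s1.length = i) :
    ∃ c d : Cell S M, (s = {x | c ∈ C.H z x} ∨ s = {x | c ∉ C.H z x}) ∧ ρ ∈ d.1 ∧
      ∀ x, c ∈ C.H z x → d ∈ C.H z x := by
  obtain ⟨⟨y, a, m, b, h1, h2, rfl, rfl⟩, -⟩ := h
  obtain ⟨A, T, B, h3, rfl, h4, rfl⟩ := lab_split ((lab_L z y).trans h2)
  obtain ⟨μ, B', e1, k1, -⟩ := h1.head hb hi
  rw [length_map] at hi ⊢
  obtain ⟨t, T', rfl⟩ := exists_cons_of_ne_nil (ne_nil_of_lab h4)
  obtain rfl : t = μ := by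
    have := (append_inj ((append_assoc _ _ _).symm.trans (h3.symm.trans e1)) hi.symm).2
    exact (cons.inj this).1
  have k2 : ∃ t' ∈ (tog R (t :: T') m).1, Lm ρ t' := by
    by_cases hu : Undo R (t :: T') m
    · obtain ⟨c, e2, rfl⟩ := hu.eq_bot
      obtain ⟨j, a, e3⟩ := mem_bot (R := R) (c := c) (t := t) (e2 ▸ mem_cons_self)
      rw [e2, tog_bot]
      obtain ⟨i0, a0, rfl⟩ := (gen_base (M := M) (C.X.wd z)).2 ρ (by simp [hb])
      obtain ⟨c1, c2⟩ := c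
      subst e3
      rcases k1.inv with e | ⟨_, _, _, _, e, k1⟩
      · exact absurd e Tm.out_ne
      · obtain ⟨e1, -⟩ := Tm.out_inj e
        exact ⟨_, e1 ▸ mem_cons_self, k1⟩
    · rw [tog_new hu]
      exact ⟨t, mem_cons_self, k1⟩
  obtain ⟨t', t1, t2⟩ := k2
  have k3 : half y (A.length, m) = {x | tog R (t :: T') m ∈ C.H z x} ∨
      half y (A.length, m) = {x | tog R (t :: T') m ∉ C.H z x} := by
    by_cases h5 : tog R (t :: T') m ∈ C.H z y
    · exact Or.inr (Set.ext fun x => by rw [mem_half z h3 h4]; simp [h5])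
    · exact Or.inl (Set.ext fun x => by rw [mem_half z h3 h4]; simp [h5])
  rcases t2.root R with rfl | ⟨d, d1, d2⟩
  · exact ⟨_, _, k3, t1, fun _ h => h⟩
  · exact ⟨_, d, k3, d1, fun x hx => d2 _ _ (inv z x) (Or.inr ⟨_, hx, t1⟩)⟩

lemma edge_first {s1 s2 : List (Tm S M)} {ρ : Tm S M} (hq : C.PQ z i y)
    (hb : base M (C.X.wd z) = s1 ++ ρ :: s2) (hi : s1.length = i) {d : Cell S M}
    (hd : d ∈ C.H z y) (hρ : ρ ∈ d.1) : ∃ y' a b, C.PQ z i y' ∧ C.X.wd y' = a ++ R.src d.2 ++ b ∧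
      a.length = i ∧ half y' (i, d.2) = {x | d ∈ C.H z x} := by
  obtain ⟨y', A, B, h1, h2, h3, h4⟩ := exists_edge hd
  have k0 : ∀ t ∈ s1, t ∈ C.L z y := fun t ht => mem_of_mem_take (i := i) (by
    rw [hq.take, L_self, hb, take_left' hi]; exact ht)
  obtain ⟨r, x, r1, r2⟩ := persist (y := y') (s1 := s1) (s2 := ρ :: s2) (s3 := [])
    (by simpa using hb) (fun t ht => by_contra fun h5 => by
      obtain ⟨c, c1, c2⟩ := consumed (by simp [hb, ht]) h5
      exact (inv z y).gone c (h2 c1) t c2 (k0 t ht)) (by simp)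
  have k1 : C.PQ z i y' := ⟨lab s1, _, _, r, by rw [← lab_base (M := M) (C.X.wd z), hb]; simp,
    by simp [hi], r1, hi ▸ r2⟩
  obtain ⟨μ, B', e1, -, k2⟩ := k1.head hb hi
  obtain ⟨A', B'', rfl, e2, -⟩ := split_mid (X := s1) (Y := μ :: B') (Z := [])
    (by simpa using e1.symm.trans h1) (ne_nil_of_lab h3)
    (fun t ht h5 => (inv z y).gone d hd t ht (k0 t h5)) (by simp)
  obtain rfl : A' = [] := by
    rcases A' with _ | ⟨a, A'⟩
    · rfl
    · simp only [cons_append, cons.injEq] at e2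
      exact absurd .base (k2 ρ (by simp [e2.2, hρ]))
  exact ⟨y', lab s1, lab B, k1, by rw [← lab_L z y', h1]; simp [h3], by simp [hi],
    by simpa [hi] using h4⟩

open Classical in
variable (C) in
/-- The signed number of boundary halfspaces between two points. -/
noncomputable def kap (z : C.X.Z) (i : ℕ) (g : G) (x x' : C.X.Z) : ℤ :=
  ∑ᶠ s : {s // C.Bd z i g s}, ((if x' ∈ s.1 then 1 else 0) - (if x ∈ s.1 then 1 else 0))

open Classical in
lemma kap_fin (x x' : C.X.Z) : Function.HasFiniteSupport fun s : {s // C.Bd z i g s} =>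
    ((if x' ∈ s.1 then 1 else 0) - (if x ∈ s.1 then 1 else 0) : ℤ) := by
  refine ((finite_sep x x').preimage Subtype.val_injective.injOn).subset fun s hs =>
    ⟨s.2.isHalf, fun h => hs ?_⟩
  simp [h]

lemma kap_add (x x' x'' : C.X.Z) :
    C.kap z i g x x' + C.kap z i g x' x'' = C.kap z i g x x'' := by
  unfold kap
  rw [← finsum_add_distrib (kap_fin _ _) (kap_fin _ _)]
  exact finsum_congr fun s => by ring

lemma kap_self (x : C.X.Z) : C.kap z i g x x = 0 := by simp [kap]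

open Classical in
lemma kap_smul (ar : C.AR z g) (hq : C.PQ z i (h • z)) (hc : Commute h g) (x x' : C.X.Z) :
    C.kap z i g (h • x) (h • x') = C.kap z i g x x' := by
  let e : {s // C.Bd z i g s} ≃ {s // C.Bd z i g s} :=
    ⟨fun s => ⟨_, s.2.smul ar hq hc⟩, fun s => ⟨_, s.2.smul ar hq.inv hc.inv_left⟩,
      fun s => Subtype.ext (by simp), fun s => Subtype.ext (by simp)⟩
  unfold kap
  rw [← finsum_comp_equiv e
    (f := fun s => ((if x' ∈ s.1 then 1 else 0) - (if x ∈ s.1 then 1 else 0) : ℤ))]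
  rfl

lemma kap_pos {x x' : C.X.Z} (h1 : ∀ s, C.Bd z i g s → x ∈ s → x' ∈ s) {s : Set C.X.Z}
    (hs : C.Bd z i g s) (h2 : x ∉ s) (h3 : x' ∈ s) : C.kap z i g x x' ≠ 0 := by
  classical
  have := single_le_finsum (⟨s, hs⟩ : {s // C.Bd z i g s}) (kap_fin x x') fun t => by
    have := h1 t.1 t.2
    split_ifs <;> simp_all
  simp only [h2, h3, if_true, if_false] at this
  unfold kap
  omega

lemma kap_ne {s1 s2 : List (Tm S M)} {ρ : Tm S M} (ar : C.AR z g)
    (hb : base M (C.X.wd z) = s1 ++ ρ :: s2) (hi : s1.length = i) (hρ : ρ ∉ C.L z (g • z))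
    (hq : C.PQ z i (h • z)) (hc : Commute h g) (hn : ρ ∉ C.L z (h • z)) :
    C.kap z i g z (h • z) ≠ 0 := by
  have m1 : ρ ∈ base M (C.X.wd z) := by simp [hb]
  obtain ⟨d, d1, d2⟩ := consumed m1 hn
  have hh := half_of_mem d1
  obtain ⟨n, hn'⟩ : ∃ n : ℤ, d ∈ C.H z (g ^ n • z) := by_contra fun h1 =>
    not_stay ar (ar.smul hc) m1 hρ d2 .base (ar.stay (ar.smul hc) hh (fun n k => h1 ⟨n, k⟩) d1)
  obtain ⟨y', a, b, e1, e2, e3, e4⟩ := edge_first hq hb hi d1 d2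
  have h0 : g ^ (0 : ℤ) • z ∉ {x | d ∈ C.H z x} := by simp [H_self]
  rcases le_total 0 n with h1 | h1
  · have u := ar.up hh h1 h0 hn'
    refine kap_pos (fun s hs k1 => by_contra fun k2 => ?_) ⟨⟨y', a, _, b, e1, e2, e3, e4.symm⟩, u⟩
      (by simp [H_self]) d1
    obtain ⟨c, d', rfl | rfl, c1, c2⟩ := hs.cell hb hi
    · simp [H_self] at k1
    obtain rfl := (inv z _).disj _ (c2 _ (not_not.1 k2)) _ d1 ρ c1 d2
    obtain ⟨a1, -, u1, -⟩ := u
    obtain ⟨a2, -, u2, -⟩ := hs.2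
    exact u1 _ (min_le_left a1 a2) (c2 _ (not_not.1 (u2 _ (min_le_right a1 a2))))
  · have u := ar.up hh.compl h1 (fun k => k hn') h0
    have e5 := half_compl e2
    rw [e3, e4] at e5
    have e6 : C.PQ y' i (C.X.ext y' (i, d.2)) :=
      ⟨a, _, _, _, by simp [e2], e3, Valid.single [] b d.2, rfl⟩
    have := kap_pos (x := h • z) (x' := z) (fun s hs k1 => by_contra fun k2 => ?_)
      ⟨⟨_, a, _, b, e1.trans e6, e3 ▸ C.X.wd_ext (C.ok y') e2, e3, e5.symm⟩, u⟩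
      (fun k => k d1) (by simp [H_self])
    · have a1 := kap_add (z := z) (i := i) (g := g) z (h • z) z
      rw [kap_self] at a1
      omega
    obtain ⟨c, d', rfl | rfl, c1, c2⟩ := hs.cell hb hi
    swap
    · simp [H_self] at k2
    obtain rfl := (inv z _).disj _ (c2 _ k1) _ d1 ρ c1 d2
    obtain ⟨-, a1, -, u1⟩ := u
    obtain ⟨-, a2, -, u2⟩ := hs.2
    exact u1 _ (le_max_left a1 a2) (c2 _ (u2 _ (le_max_right a1 a2)))

lemma kap_comm {f f' : G} (ar : C.AR z g) (h1 : C.PQ z i (f • z)) (c1 : Commute f g)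
    (h2 : C.PQ z i (f' • z)) (c2 : Commute f' g) : C.kap z i g z (⁅f, f'⁆ • z) = 0 := by
  have km : ∀ a b : G, C.PQ z i (a • z) → Commute a g →
      C.kap z i g z ((a * b) • z) = C.kap z i g z (a • z) + C.kap z i g z (b • z) :=
    fun a b k1 k2 => by rw [← kap_smul ar k1 k2 z (b • z), kap_add, mul_smul]
  have a1 := km f f⁻¹ h1 c1
  have a2 := km f' f'⁻¹ h2 c2
  rw [mul_inv_cancel, one_smul, kap_self] at a1 a2
  rw [commutatorElement_def, mul_assoc, mul_assoc, km _ _ h1 c1, km _ _ h2 c2,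
    km _ _ h1.inv c1.inv_left]
  omega

theorem exists_type (ar : C.AR z g) (hne : g ≠ 1) : ∃ i, C.PQ z i (g • z) ∧
    ¬ C.PQ z (i + 1) (g • z) ∧
    (∀ h, Commute h g → ∃ l q, C.PL z i (l • z) i ∧ C.PQ z i (q • z) ∧ h = l * q) ∧
    ∀ f f', Commute f g → Commute f' g → C.PQ z i (⁅f, f'⁆ • z) →
      C.PQ z (i + 1) (⁅f, f'⁆ • z) := by
  obtain ⟨i, -, h2, h3, h4⟩ := exists_touch (l := 1) (i := 0)
    (by simpa using PL.refl (Nat.zero_le _)) (PQ.all z _) hne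
  rw [one_mul] at h4
  have h5 := fun h (hc : Commute h g) => (cut_fix ar h4 hc).factor
  refine ⟨i, h2, h3, h5, fun f f' c1 c2 hq => ?_⟩
  obtain ⟨l, q, a1, a2, rfl⟩ := h5 f c1
  obtain ⟨l', q', b1, b2, rfl⟩ := h5 f' c2
  have d1 : Commute q g := by simpa using (commute_of a1 h2).inv_left.mul_left c1
  have d2 : Commute q' g := by simpa using (commute_of b1 h2).inv_left.mul_left c2
  have m1 : C.PQ z i (⁅q, q'⁆ • z) := ((a2.mul b2).mul a2.inv).mul b2.inv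
  have m2 : C.PL z i (⁅l, l'⁆ • z) i := ((a1.mul b1).mul a1.inv).mul b1.inv
  have e : ⁅l * q, l' * q'⁆ = ⁅l, l'⁆ * ⁅q, q'⁆ := by
    let φ : C.Lg z i h2.le × C.Qg z i h2.le →* G := MonoidHom.noncommCoprod (Subgroup.subtype _)
      (Subgroup.subtype _) fun a b => commute_of a.2 b.2
    exact (map_commutatorElement φ (⟨l, a1⟩, ⟨q, a2⟩) (⟨l', b1⟩, ⟨q', b2⟩)).symm
  have e1 : ⁅l, l'⁆ = 1 := eq_one_of m2 (by
    have := hq.mul m1.inv
    rwa [e, mul_inv_cancel_right] at this) le_rfl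
  rw [e, e1, one_mul]
  obtain ⟨-, s1, ρ, s2, hb, hi, hρ⟩ := h4
  exact keep (PL.refl h2.le) m1 hb hi (by_contra fun hn => kap_ne ar hb hi hρ m1
    (((d1.mul_left d2).mul_left d1.inv_left).mul_left d2.inv_left) hn (kap_comm ar a2 d1 b2 d2))

end Cover

/-- A pair of commuting subgroups through which the centraliser of `g` factors. -/
structure CutPair (g : G) (L Q : Subgroup G) : Prop where
  comm : ∀ l ∈ L, ∀ q ∈ Q, Commute l q
  sum : ∀ l ∈ L, ∀ q ∈ Q, ∀ h, Commute h (l * q) → Commute h q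
  mem : g ∈ Q
  factor : ∀ h, Commute h g → ∃ l ∈ L, ∃ q ∈ Q, h = l * q

variable (G) in
/-- The property of diagram groups that is used. -/
def ThreeProp : Prop := ∀ g : Fin 3 → G, (∀ a, g a ≠ 1) →
  (∀ a b, a ≠ b → ∃ f f', Commute f (g a) ∧ Commute f' (g a) ∧ g b = ⁅f, f'⁆) →
  ∃ a L Q, CutPair (g a) L Q ∧ ¬ (∀ b, a ≠ b → g b ∈ L) ∧ ¬ ∀ b, a ≠ b → g b ∈ Q

open Cover in
theorem Cover.three (C : Cover R G) (z0 : C.X.Z) : ThreeProp G := by
  intro g hne hcm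
  by_contra hcon
  have T : ∀ a z, C.AR z (g a) → ∃ i, C.PQ z i (g a • z) ∧ ¬ C.PQ z (i + 1) (g a • z) ∧
      ((∀ b, a ≠ b → C.PL z i (g b • z) i) ∨ ∀ b, a ≠ b → C.PQ z (i + 1) (g b • z)) := by
    intro a z ar
    obtain ⟨i, h1, h2, h3, h4⟩ := exists_type ar (hne a)
    refine ⟨i, h1, h2, ?_⟩
    by_cases h5 : ∀ b, a ≠ b → C.PL z i (g b • z) i
    · exact Or.inl h5
    refine Or.inr fun b hb => ?_
    have h6 : ∀ b, a ≠ b → g b ∈ C.Qg z i h1.le := by_contra fun h6 =>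
      hcon ⟨a, C.Lg z i h1.le, C.Qg z i h1.le, ⟨fun l hl q hq => commute_of hl hq,
        fun l hl q hq h hc => commute_of_sum hl hq hc, h1, fun h hc => by
          obtain ⟨l, q, k1, k2, k3⟩ := h3 h hc
          exact ⟨l, k1, q, k2, k3⟩⟩, h5, h6⟩
    obtain ⟨f, f', c1, c2, e⟩ := hcm a b hb
    have h7 : C.PQ z i (g b • z) := h6 b hb
    rw [e] at h7 ⊢
    exact h4 f f' c1 c2 h7
  have A : ∀ a b c, b ≠ a → b ≠ c → c ≠ a → ∀ z k, ¬ C.PQ z k (g a • z) → C.PQ z k (g b • z) →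
      C.PQ z k (g c • z) → False := by
    intro a b c n1 n2 n3 z k h1 h2 h3
    obtain ⟨z2, -, a1, -, a3⟩ := rebase h2 (by simpa [C.wd_act] using PL.all z (g b • z)) h2.le
    have k1 : ¬ C.PQ z2 k (g a • z2) := fun h => h1 (h.move' a1.symm)
    obtain ⟨i, b1, b2, b3 | b3⟩ := T b z2 a3
    swap
    · exact k1 ((b3 a n1).mono (by_contra fun h => b2 ((h2.move' a1).mono (by omega))))
    have hk : k ≤ i := by_contra fun h => b2 ((h2.move' a1).mono (by omega))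
    obtain ⟨z3, i', c1, c2, c3⟩ := rebase (h3.move' a1) (b3 c n2) hk
    obtain ⟨j, d1, d2, d3 | d3⟩ := T c z3 c3
    · have hj : j ≤ i' := by_contra fun h =>
        hne c (eq_one_of ((b3 c n2).move' c2) d1 (by omega))
      exact hne b (eq_one_of (d3 b n2.symm) (b1.move c2) hj)
    · refine k1 (((d3 a n3).mono (by_contra fun h => d2 ?_)).move' c1.symm)
      exact ((h3.move' a1).move' c1).mono (by omega)
  obtain ⟨z, -, -, -, a3⟩ := rebase (PQ.all z0 _)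
    (by simpa [C.wd_act] using PL.all z0 (g 0 • z0)) (Nat.zero_le _)
  obtain ⟨i, b1, b2, b3 | b3⟩ := T 0 z a3
  swap
  · exact A 0 1 2 (by decide) (by decide) (by decide) z _ b2 (b3 1 (by decide)) (b3 2 (by decide))
  obtain ⟨z', i', -, c2, c3⟩ := rebase (PQ.all z _) (b3 1 (by decide)) (Nat.zero_le _)
  obtain ⟨j, d1, d2, d3 | d3⟩ := T 1 z' c3
  · have hj : j ≤ i' := by_contra fun h =>
      hne 1 (eq_one_of ((b3 1 (by decide)).move' c2) d1 (by omega))
    exact hne 0 (eq_one_of (d3 0 (by decide)) (b1.move c2) hj)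
  · exact A 1 0 2 (by decide) (by decide) (by decide) z' _ d2 (d3 0 (by decide))
      (d3 2 (by decide))

end Pool.Agent.Lib.MP_24b811_al.Gc
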