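import Mathlib

/-!
# Piecewise linear homeomorphisms of the unit interval; almost finitely presented groups
-/

set_option autoImplicit false

namespace Pool.Agent.Lib.MP_24b811_al

/-- A homeomorphism `g` of `[0,1]` is an orientation preserving piecewise linear map if it is
increasing and there is a finite set `B` of breakpoints such that on every interval `[x, y]` with
no point of `B` strictly inside, `g` is affine. Slopes and breakpoints are arbitrary reals. -/
def IsPL (g : unitInterval ≃ₜ unitInterval) : Prop :=
  StrictMono g ∧ ∃ B : Finset ℝ,
    ∀ x y : unitInterval, x < y → (∀ b ∈ B, ¬ ((x : ℝ) < b ∧ b < (y : ℝ))) →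
      ∃ k : ℝ, ∀ z : unitInterval, x ≤ z → z ≤ y →
        (g z : ℝ) = (g x : ℝ) + k * ((z : ℝ) - (x : ℝ))

/-- A group is almost finitely presented if it is the quotient of a free group of finite rank by a
normal subgroup `N` that contains a finite set `R` such that every homomorphism from `N` to the
integers that kills the normal closure of `R` is trivial. Finitely presented groups, and groups of
type `FP₂` over any nonzero ring, have this property. -/
def AlmostFP (G : Type) [Group G] : Prop :=
  ∃ (n : ℕ) (φ : FreeGroup (Fin n) →* G) (R : Set (FreeGroup (Fin n))),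
    Function.Surjective φ ∧ R.Finite ∧ (∀ r ∈ R, r ∈ φ.ker) ∧
      ∀ f : φ.ker →* Multiplicative ℤ,
        (∀ x : φ.ker, x.1 ∈ Subgroup.normalClosure R → f x = 1) → f = 1

end Pool.Agent.Lib.MP_24b811_al
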