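import Pool.Agent.Lib.MP_24b811_al.FpBS
import Pool.Agent.Lib.MP_24b811_al.PlDefs

/-!
# The theorem of Bieri and Strebel for almost finitely presented groups
-/

set_option autoImplicit false

namespace Pool.Agent.Lib.MP_24b811_al.Fp

open HNNExtension Multiplicative

variable {H : Type} [Group H]

/-- The edge group, as a subgroup of the ambient group. -/
def edge (B : Subgroup H) (s : H) : Subgroup H := (asso B s⁻¹).map B.subtype

lemma mem_edge {B : Subgroup H} {s x : H} : x ∈ edge B s ↔ x ∈ B ∧ s⁻¹ * x * s⁻¹⁻¹ ∈ B :=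
  ⟨fun ⟨y, h, e⟩ => e ▸ ⟨y.2, mem_asso.1 h⟩, fun h => ⟨⟨x, h.1⟩, mem_asso.2 h.2, rfl⟩⟩

/-- The base coset. -/
def base (B : Subgroup H) (s : H) : H ⧸ edge B s := ((1 : H) : H ⧸ edge B s)

lemma smul_base {B : Subgroup H} {s x : H} : x • base B s = base B s ↔ x ∈ edge B s := by
  change ((x * 1 : H) : H ⧸ edge B s) = ((1 : H) : H ⧸ edge B s) ↔ _
  rw [QuotientGroup.eq, mul_one, mul_one, inv_mem_iff]

open Classical in
/-- The indicator of the base coset. -/
noncomputable def ind (B : Subgroup H) (s : H) (y : H ⧸ edge B s) : ℤ :=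
  if y = base B s then 1 else 0

/-- The action of the stable letter: it counts passages through the base coset. -/
noncomputable def shear (B : Subgroup H) (s : H) : Equiv.Perm ((H ⧸ edge B s) × ℤ) where
  toFun p := (s • p.1, p.2 + ind B s (s • p.1))
  invFun p := (s⁻¹ • p.1, p.2 - ind B s p.1)
  left_inv p := by simp
  right_inv p := by simp

/-- The action of the base group. -/
def flat (B : Subgroup H) (s : H) : B →* Equiv.Perm ((H ⧸ edge B s) × ℤ) where
  toFun b := Equiv.prodCongr (MulAction.toPerm b.1) (Equiv.refl ℤ)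
  map_one' := by ext p <;> simp
  map_mul' b c := by ext p <;> simp [mul_smul]

/-- The counting action of the extension. -/
noncomputable def act (B : Subgroup H) (s : H) : HN B s →* Equiv.Perm ((H ⧸ edge B s) × ℤ) :=
  HNNExtension.lift (flat B s) (shear B s) fun a => by
    refine Equiv.ext fun p => ?_
    have e : s • a.1.1 • p.1 = (s * a.1.1 * s⁻¹) • s • p.1 := by
      rw [mul_smul, mul_smul, inv_smul_smul]
    have m : s * a.1.1 * s⁻¹ ∈ edge B s := mem_edge.2 ⟨a.2, by simp [mul_assoc]⟩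
    change (s • a.1.1 • p.1, p.2 + ind B s (s • a.1.1 • p.1)) =
      ((s * a.1.1 * s⁻¹) • s • p.1, p.2 + ind B s (s • p.1))
    rw [e]
    congr 2
    unfold ind
    by_cases h : s • p.1 = base B s
    · rw [if_pos h, if_pos (by rw [h, smul_base.2 m])]
    · rw [if_neg h, if_neg fun r => h (smul_left_cancel _ (r.trans (smul_base.2 m).symm))]

/-- The signed number of passages. -/
noncomputable def cnt {B : Subgroup H} {s : H} (x : HN B s) (y : H ⧸ edge B s) : ℤ :=
  (act B s x (y, 0)).2

variable {B : Subgroup H} {s : H}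

lemma act_apply (x : HN B s) : ∀ (y : H ⧸ edge B s) (n : ℤ),
    act B s x (y, n) = (proj B s x • y, n + cnt x y) := by
  suffices ∃ c : H ⧸ edge B s → ℤ, ∀ y n, act B s x (y, n) = (proj B s x • y, n + c y) by
    obtain ⟨c, hc⟩ := this
    intro y n
    rw [cnt, hc, hc, zero_add]
  induction x using HNNExtension.induction_on with
  | of g => exact ⟨0, fun y n => by rw [act, lift_of, proj_of]; simp [flat]⟩
  | t => exact ⟨fun y => ind B s (s • y), fun y n => by rw [act, lift_t, proj_t]; rfl⟩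
  | mul x y hx hy =>
    obtain ⟨c, hc⟩ := hx
    obtain ⟨d, hd⟩ := hy
    refine ⟨fun z => d z + c (proj B s y • z), fun z n => ?_⟩
    rw [map_mul, Equiv.Perm.mul_apply, hd, hc, map_mul, mul_smul, add_assoc]
  | inv x hx =>
    obtain ⟨c, hc⟩ := hx
    refine ⟨fun z => -c ((proj B s x)⁻¹ • z), fun z n => ?_⟩
    rw [map_inv, Equiv.Perm.inv_def, Equiv.symm_apply_eq, hc, map_inv, smul_inv_smul]
    simp

lemma cnt_mul (x x' : HN B s) (y : H ⧸ edge B s) :
    cnt (x * x') y = cnt x (proj B s x' • y) + cnt x' y := by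
  rw [cnt, map_mul, Equiv.Perm.mul_apply, act_apply x', act_apply x]
  simp [add_comm]

lemma cnt_of (b : B) (y : H ⧸ edge B s) : cnt (of b : HN B s) y = 0 := by
  rw [cnt, act, lift_of]
  simp [flat]

lemma cnt_t (y : H ⧸ edge B s) : cnt (t : HN B s) y = ind B s (s • y) := by
  rw [cnt, act, lift_t]
  exact zero_add _

lemma cnt_inv_t (y : H ⧸ edge B s) : cnt (t⁻¹ : HN B s) y = -ind B s y := by
  rw [cnt, map_inv, act, lift_t]
  exact zero_sub _

/-- The element spelled by a list of letters. -/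
def val (L : List (Bool × B)) : HN B s := (L.map fun p => cond p.1 t t⁻¹ * of p.2).prod

lemma val_cons (p : Bool × B) (L : List (Bool × B)) :
    (val (p :: L) : HN B s) = cond p.1 t t⁻¹ * (of p.2 * val L) := by
  simp [val, mul_assoc]

lemma val_append (L L' : List (Bool × B)) : (val (L ++ L') : HN B s) = val L * val L' := by
  simp [val]

lemma exists_val (x : HN B s) : ∃ (b : B) (L : List (Bool × B)), x = of b * val L := by
  suffices ∀ (b : B) (L : List (Bool × B)), (∃ (b' : B) (L' : List (Bool × B)),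
      x * (of b * val L) = of b' * val L') ∧ ∃ (b' : B) (L' : List (Bool × B)),
      x⁻¹ * (of b * val L) = of b' * val L' by simpa [val] using (this 1 []).1
  induction x using HNNExtension.induction_on with
  | of g => exact fun b L => ⟨⟨g * b, L, by rw [map_mul, mul_assoc]⟩,
      g⁻¹ * b, L, by rw [map_mul, map_inv, mul_assoc]⟩
  | t => exact fun b L => ⟨⟨1, (true, b) :: L, by simp [val_cons]⟩,
      1, (false, b) :: L, by simp [val_cons]⟩
  | mul x y hx hy =>
    intro b L
    obtain ⟨b1, L1, e1⟩ := (hy b L).1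
    obtain ⟨b2, L2, e2⟩ := (hx b L).2
    exact ⟨by rw [mul_assoc, e1]; exact (hx _ _).1,
      by rw [mul_inv_rev, mul_assoc, e2]; exact (hy _ _).2⟩
  | inv x hx => exact fun b L => ⟨(hx b L).2, by rw [inv_inv]; exact (hx b L).1⟩

lemma ind_cases (y : H ⧸ edge B s) : ind B s y = 0 ∨ (ind B s y = 1 ∧ y = base B s) := by
  unfold ind
  split_ifs with h
  exacts [Or.inr ⟨rfl, h⟩, Or.inl rfl]

lemma split_pos' (y : H ⧸ edge B s) (L : List (Bool × B)) (h : 0 < cnt (val L : HN B s) y) :
    ∃ L1 q L2, L = L1 ++ (true, q) :: L2 ∧ s • proj B s (of q * val L2) • y = base B s := by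
  induction L with
  | nil => simp [val, cnt] at h
  | cons p L ih =>
    rw [val_cons, cnt_mul, cnt_mul, cnt_of, zero_add] at h
    by_cases r : 0 < cnt (val L : HN B s) y
    · obtain ⟨L1, q, L2, e1, e2⟩ := ih r
      exact ⟨p :: L1, q, L2, by rw [e1]; rfl, e2⟩
    · obtain ⟨_ | _, q⟩ := p
      · simp only [cond_false, cnt_inv_t] at h
        rcases ind_cases (proj B s (of q * val L) • y) with k | k <;> omega
      · simp only [cond_true, cnt_t] at h
        rcases ind_cases (s • proj B s (of q * val L) • y) with k | k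
        exacts [by omega, ⟨[], q, L, rfl, k.2⟩]

lemma split_neg' (y : H ⧸ edge B s) (L : List (Bool × B)) (h : cnt (val L : HN B s) y < 0) :
    ∃ L1 q L2, L = L1 ++ (false, q) :: L2 ∧ proj B s (of q * val L2) • y = base B s := by
  induction L with
  | nil => simp [val, cnt] at h
  | cons p L ih =>
    rw [val_cons, cnt_mul, cnt_mul, cnt_of, zero_add] at h
    by_cases r : cnt (val L : HN B s) y < 0
    · obtain ⟨L1, q, L2, e1, e2⟩ := ih r
      exact ⟨p :: L1, q, L2, by rw [e1]; rfl, e2⟩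
    · obtain ⟨_ | _, q⟩ := p
      · simp only [cond_false, cnt_inv_t] at h
        rcases ind_cases (proj B s (of q * val L) • y) with k | k
        exacts [by omega, ⟨[], q, L, rfl, k.2⟩]
      · simp only [cond_true, cnt_t] at h
        rcases ind_cases (s • proj B s (of q * val L) • y) with k | k <;> omega

theorem proj_inj (h : ∀ x : HN B s, proj B s x = 1 → ∀ y, cnt x y = 0) :
    Function.Injective (proj B s) := by
  have key : ∀ (n : ℕ) (L : List (Bool × B)), L.length = n → ∀ b b' : B,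
      proj B s (of b * val L) = b' → (of b * val L : HN B s) = of b' := by
    intro n
    induction n using Nat.strong_induction_on with
    | _ n ih =>
    intro L hL b b' e
    have z : ∀ y, cnt (val L : HN B s) y = 0 := fun y => by
      have := h (of (b'⁻¹ * b) * val L) (by
        rw [map_mul of, mul_assoc, map_mul, e, proj_of]; simp) y
      rwa [cnt_mul, cnt_of, zero_add] at this
    obtain _ | ⟨⟨_ | _, p⟩, L⟩ := L
    · have : b = b' := Subtype.ext (by simpa [val, proj_of] using e)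
      simp [val, this]
    · have z1 := z ((proj B s (of p * val L))⁻¹ • base B s)
      rw [val_cons, cnt_mul] at z1
      simp only [cond_false] at z1
      rw [cnt_inv_t, smul_inv_smul, cnt_mul, cnt_of, zero_add, ind, if_pos rfl] at z1
      obtain ⟨L1, q, L2, rfl, e2⟩ := split_pos'
        ((proj B s (of p * val L))⁻¹ • base B s) L (by omega)
      have u : proj B s (of p * val L1) ∈ edge B s := by
        rw [← inv_mem_iff, ← smul_base]
        rw [← mul_smul, ← mul_smul] at e2
        refine Eq.trans ?_ e2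
        congr 1
        simp only [val_append, val_cons, map_mul, cond_true, proj_t]
        group
      obtain ⟨u1, u2⟩ := mem_edge.1 u
      have k := ih _ (by rw [← hL]; simp) L1 rfl p ⟨_, u1⟩ rfl
      have k2 := equiv_symm_eq_conj (φ := assoEquiv B s) ⟨⟨_, u1⟩, mem_asso.2 u2⟩
      have k3 : (of b * val ((false, p) :: (L1 ++ (true, q) :: L2)) : HN B s) =
          of (b * (assoEquiv B s).symm ⟨⟨_, u1⟩, mem_asso.2 u2⟩ * q) * val L2 := by
        rw [map_mul, map_mul, k2, ← k, val_cons, val_append, val_cons]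
        simp only [cond_true, cond_false, mul_assoc]
      rw [k3] at e ⊢
      exact ih _ (by rw [← hL]; simp; omega) L2 rfl _ _ e
    · have z1 := z ((s * proj B s (of p * val L))⁻¹ • base B s)
      rw [val_cons, cnt_mul] at z1
      simp only [cond_true] at z1
      rw [cnt_t, ← mul_smul, ← mul_smul, mul_inv_cancel, one_smul, cnt_mul, cnt_of,
        zero_add, ind, if_pos rfl] at z1
      obtain ⟨L1, q, L2, rfl, e2⟩ := split_neg'
        ((s * proj B s (of p * val L))⁻¹ • base B s) L (by omega)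
      have u : s * proj B s (of p * val L1) * s⁻¹ ∈ edge B s := by
        rw [← inv_mem_iff, ← smul_base]
        rw [← mul_smul] at e2
        refine Eq.trans ?_ e2
        congr 1
        simp only [val_append, val_cons, map_mul, map_inv, cond_false, proj_t]
        group
      obtain ⟨u2, u1⟩ := mem_edge.1 u
      have u1' : proj B s (of p * val L1) ∈ B := by simpa [mul_assoc] using u1
      have k := ih _ (by rw [← hL]; simp) L1 rfl p ⟨_, u1'⟩ rfl
      have k2 := equiv_eq_conj (φ := assoEquiv B s) ⟨⟨_, u1'⟩, mem_asso.2 u2⟩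
      have k3 : (of b * val ((true, p) :: (L1 ++ (false, q) :: L2)) : HN B s) =
          of (b * assoEquiv B s ⟨⟨_, u1'⟩, mem_asso.2 u2⟩ * q) * val L2 := by
        rw [map_mul, map_mul, k2, ← k, val_cons, val_append, val_cons]
        simp only [cond_true, cond_false, mul_assoc]
      rw [k3] at e ⊢
      exact ih _ (by rw [← hL]; simp; omega) L2 rfl _ _ e
  refine (injective_iff_map_eq_one _).2 fun x hx => ?_
  obtain ⟨b, L, rfl⟩ := exists_val x
  rw [key _ L rfl b 1 hx, map_one]

lemma almostFP_of_fp (hH : Group.IsFinitelyPresented H) : AlmostFP H := by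
  obtain ⟨n, φ, hφ, R, hR, hk⟩ := hH
  exact ⟨n, φ, R, hφ, hR, fun r hr => hk ▸ Subgroup.subset_normalClosure hr,
    fun f hf => MonoidHom.ext fun x => hf x (hk.symm ▸ x.2)⟩

/-- The theorem of Bieri and Strebel, for groups without free subgroups of rank two. -/
theorem bieri_strebel' (hH : AlmostFP H) (deg : H →* Multiplicative ℤ) {s : H}
    (hs : deg s = ofAdd 1) (hf : ∀ f : FreeGroup Bool →* H, ¬ Function.Injective f) :
    ∃ (τ : H) (S : Set H), deg τ ≠ 1 ∧ S.Finite ∧ (∀ x ∈ S, deg x = 1) ∧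
      (∀ b ∈ Subgroup.closure S, τ * b * τ⁻¹ ∈ Subgroup.closure S) ∧
      ∀ h, deg h = 1 → ∃ n : ℕ, τ ^ n * h * (τ ^ n)⁻¹ ∈ Subgroup.closure S := by
  obtain ⟨n, φ, R, hφ, hR, hRk, hk⟩ := hH
  obtain ⟨w0, rfl⟩ := hφ s
  choose m hm using psi_mem φ deg (φ w0)
  obtain ⟨M, hM⟩ := ((hR.insert w0).image m).bddAbove
  have hM' : ∀ w ∈ insert w0 R, m w ≤ M := fun w hw => hM (Set.mem_image_of_mem m hw)
  let S : Set H := (fun p : Fin n × ℤ => φ w0 ^ p.2 * ga φ deg (φ w0) p.1 * φ w0 ^ (-p.2)) ''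
    (Set.univ ×ˢ Set.Icc (-(M : ℤ)) M)
  have hS : S.Finite := (Set.finite_univ.prod (Set.finite_Icc _ _)).image _
  let B := Subgroup.closure S
  have hB : ∀ i (j : ℤ), |j| ≤ M → φ w0 ^ j * ga φ deg (φ w0) i * φ w0 ^ (-j) ∈ B :=
    fun i j hj => Subgroup.subset_closure ⟨(i, j), ⟨trivial, abs_le.1 hj⟩, rfl⟩
  have ha : ∀ i, ga φ deg (φ w0) i ∈ B := fun i => by simpa using hB i 0 (by simp)
  have hd : ∀ x ∈ S, deg x = 1 := by
    rintro _ ⟨⟨i, j⟩, -, rfl⟩
    apply toAdd.injective
    simp [ga, hs]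
  have hd' : ∀ x ∈ B, deg x = 1 := fun x hx =>
    (Subgroup.closure_le deg.ker).2 (fun y hy => hd y hy) hx
  have h1 : deg (φ w0) ≠ 1 := by rw [hs]; decide
  by_cases c1 : asso B (φ w0) = ⊤
  · have c : ∀ b ∈ B, φ w0 * b * (φ w0)⁻¹ ∈ B := fun b hb =>
      mem_asso.1 (show (⟨b, hb⟩ : B) ∈ asso B (φ w0) from c1 ▸ trivial)
    exact ⟨_, S, h1, hS, hd, c, asc φ hφ deg h1 hd' c fun i => ⟨_, ha i⟩⟩
  by_cases c2 : asso B (φ w0)⁻¹ = ⊤
  · have c : ∀ b ∈ B, (φ w0)⁻¹ * b * (φ w0)⁻¹⁻¹ ∈ B := fun b hb =>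
      mem_asso.1 (show (⟨b, hb⟩ : B) ∈ asso B (φ w0)⁻¹ from c2 ▸ trivial)
    have h2 : deg (φ w0)⁻¹ ≠ 1 := by rwa [map_inv, inv_ne_one]
    refine ⟨_, S, h2, hS, hd, c, asc φ hφ deg h2 hd' c fun i =>
      ⟨-(deg (φ (FreeGroup.of i))).toAdd, ?_⟩⟩
    have := ha i
    rwa [neg_neg, inv_zpow']
  exfalso
  obtain ⟨g, g1, g2⟩ : ∃ g : B, g ∉ asso B (φ w0) ∧ g ∉ asso B (φ w0)⁻¹ := by
    obtain ⟨p, hp⟩ := not_forall.1 (mt (Subgroup.eq_top_iff' _).2 c1)
    obtain ⟨q, hq⟩ := not_forall.1 (mt (Subgroup.eq_top_iff' _).2 c2)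
    by_cases d1 : p ∈ asso B (φ w0)⁻¹
    · by_cases d2 : q ∈ asso B (φ w0)
      · exact ⟨p * q, fun e => hp ((Subgroup.mul_mem_cancel_right _ d2).1 e),
          fun e => hq ((Subgroup.mul_mem_cancel_left _ d1).1 e)⟩
      · exact ⟨q, d2, hq⟩
    · exact ⟨p, hp, d1⟩
  have key : ∀ w ∈ insert w0 R,
      psi φ deg (φ w0) B ha w * t ^ (-(deg (φ w)).toAdd) = 1 ∨
        φ w * φ w0 ^ (-(deg (φ w)).toAdd) ≠ 1 := by
    intro w hw
    obtain ⟨b, hb⟩ := hm w B ha 0 fun i j hj => hB i j (hj.trans (by simpa using hM' w hw))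
    rw [neg_zero, zpow_zero, one_mul, mul_one] at hb
    have := congrArg (proj B (φ w0)) hb
    rw [map_mul, proj_psi, map_zpow, proj_t, proj_of] at this
    refine or_iff_not_imp_right.2 fun e => ?_
    rw [hb, show b = 1 from Subtype.ext (this.symm.trans (not_not.1 e)), map_one]
  have hker : Subgroup.normalClosure R ≤ (psi φ deg (φ w0) B ha).ker := by
    refine Subgroup.normalClosure_le_normal fun r hr => ?_
    have e : φ r = 1 := hRk r hr
    simpa [e] using key r (Set.mem_insert_of_mem _ hr)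
  have pt : t ∈ (psi φ deg (φ w0) B ha).range := ⟨w0, by
    simpa [hs, mul_inv_eq_one] using key w0 (Set.mem_insert _ _)⟩
  have pa : ∀ i, of ⟨_, ha i⟩ ∈ (psi φ deg (φ w0) B ha).range := fun i => by
    have := mul_mem (⟨FreeGroup.of i, rfl⟩ : _ ∈ (psi φ deg (φ w0) B ha).range)
      (zpow_mem pt (-(deg (φ (FreeGroup.of i))).toAdd))
    simpa [psi] using this
  have pb : ∀ b (hb : b ∈ B), of ⟨b, hb⟩ ∈ (psi φ deg (φ w0) B ha).range := by
    intro b hb
    induction hb using Subgroup.closure_induction with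
    | mem x hx =>
      obtain ⟨⟨i, j⟩, ⟨-, hj⟩, rfl⟩ := hx
      have := mul_mem (mul_mem (zpow_mem pt j) (pa i)) (zpow_mem pt (-j))
      rwa [conj_of j (fun k hk => hB i k (hk.trans (abs_le.2 hj))) (ha i)] at this
    | one => exact ⟨1, by rw [map_one]; exact (map_one of).symm⟩
    | mul x y hx hy ihx ihy =>
      have := mul_mem ihx ihy
      rwa [← map_mul] at this
    | inv x hx ih =>
      have := inv_mem ih
      rwa [← map_inv of] at this
  have sur : ∀ x, x ∈ (psi φ deg (φ w0) B ha).range := fun x => by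
    induction x using HNNExtension.induction_on with
    | of g => exact pb g.1 g.2
    | t => exact pt
    | mul x y hx hy => exact mul_mem hx hy
    | inv x hx => exact inv_mem hx
  have inj := proj_inj (B := B) (s := φ w0) fun x hx y => by
    obtain ⟨w, rfl⟩ := sur x
    rw [proj_psi] at hx
    have := hk (MonoidHom.mk' (fun v => ofAdd (cnt (psi φ deg (φ w0) B ha v.1) y)) fun u v => by
      rw [← ofAdd_add, Subgroup.coe_mul, map_mul, cnt_mul, proj_psi, show φ v.1 = 1 from v.2,
        one_smul]) fun v hv => by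
          change ofAdd (cnt _ y) = 1
          rw [show psi φ deg (φ w0) B ha v.1 = 1 from hker hv, ← map_one of, cnt_of, ofAdd_zero]
    exact ofAdd_eq_one.1 (DFunLike.congr_fun this ⟨w, hx⟩)
  exact hf ((proj B (φ w0)).comp _) (inj.comp (free_hnn (assoEquiv B (φ w0)) g1 g2))

end Pool.Agent.Lib.MP_24b811_al.Fp
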