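import Pool.Agent.Lib.MP_24b811_al.PlReal

/-!
# Ascending extensions that act by piecewise linear maps are abelian or contain a copy of F
-/

set_option autoImplicit false

namespace Pool.Agent.Lib.MP_24b811_al.Fp

open unitInterval Gc Multiplicative

variable {G : Type} [Group G] [MulAction G I]

/-- `h` is affine from a point of the orbit of `c` below `x` to a point above `x`. -/
def Good (c : I) (h : G) (x : I) : Prop :=
  ∃ o : I, (∃ k : G, k • c = o) ∧ o < x ∧ ∃ e, x < e ∧ Aff h o e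

lemma Good.mul (H : Inc G I) {c x : I} {f k : G} (hf : Good c f (k • x)) (hk : Good c k x) :
    Good c (f * k) x := by
  obtain ⟨o, ⟨m, rfl⟩, o1, e, e1, e2⟩ := hf
  obtain ⟨o', ⟨m', rfl⟩, o1', e', e1', e2'⟩ := hk
  have a1 : max (k⁻¹ • m • c) (m' • c) < x := max_lt (H.inv_lt.2 o1) o1'
  have a2 : x < min (k⁻¹ • e) e' := lt_min (H.lt_inv.2 e1) e1'
  refine ⟨_, ?_, a1, _, a2, Aff.mul H (e2.mono (H.inv_le.1 (le_max_left _ _))
    ((H.le_iff k).2 (a1.trans a2).le) (H.le_inv.1 (min_le_left _ _)))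
    (e2'.mono (le_max_right _ _) (a1.trans a2).le (min_le_right _ _))⟩
  rcases max_choice (k⁻¹ • m • c) (m' • c) with r | r
  exacts [⟨k⁻¹ * m, by rw [r, mul_smul]⟩, ⟨m', r.symm⟩]

lemma Good.inv (H : Inc G I) {c x : I} {k : G} (hk : Good c k x) : Good c k⁻¹ (k • x) := by
  obtain ⟨o, ⟨m, rfl⟩, o1, e, e1, e2⟩ := hk
  exact ⟨_, ⟨k * m, mul_smul _ _ _⟩, H _ _ _ o1, _, H _ _ _ e1, e2.inv H (o1.trans e1)⟩

lemma Mv.conj (H : Inc G I) {g k : G} {s : I} (h : Mv g s) : Mv (k * g * k⁻¹) (k • s) := by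
  obtain ⟨e, e1, e2⟩ := h
  refine ⟨k • e, H _ _ _ e1, fun y y1 y2 r => e2 _ (H.lt_inv.2 y1) (H.inv_le.2 y2) ?_⟩
  rw [mul_smul, mul_smul] at r
  exact eq_inv_smul_iff.2 r

namespace PLG

variable (P : PLG G)
include P

lemma bad_finite {a c q : I} (hacc : ∀ e, q < e → ∃ k : G, q < k • c ∧ k • c < e) (q1 : q < 1)
    (hlow : ∃ k : G, k • c < q) (ha : ∀ k : G, a < k • c) (h : G) :
    {x | (∃ k : G, k • q = x) ∧ ¬ Good c h x}.Finite := by
  have H := P.inc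
  obtain ⟨B, hB⟩ := P.pl h
  refine (B.finite_toSet.biUnion (t := fun b => {x : I | (∃ k : G, k • q = x) ∧
    ((sSup {o | (∃ k : G, k • c = o) ∧ o < x} : I) : ℝ) ≤ b ∧ b ≤ x}) fun b _ => ?_).subset ?_
  · have key : ∀ x x' : I, (∃ k : G, k • q = x) → b ≤ x →
        ((sSup {o | (∃ k : G, k • c = o) ∧ o < x'} : I) : ℝ) ≤ b → ¬ x < x' := by
      rintro _ x' ⟨k, rfl⟩ h1 h2 h3
      obtain ⟨m, m1, m2⟩ := hacc _ (H.lt_inv.2 h3)
      have r1 : k • m • c ≤ sSup {o | (∃ k : G, k • c = o) ∧ o < x'} :=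
        le_sSup ⟨⟨k * m, mul_smul _ _ _⟩, H.lt_inv.1 m2⟩
      have r2 : ((k • q : I) : ℝ) < (sSup {o | (∃ k : G, k • c = o) ∧ o < x'} : I) :=
        (H k _ _ m1).trans_le r1
      linarith
    exact Set.Subsingleton.finite fun x hx x' hx' => le_antisymm
      (not_lt.1 (key x' x hx'.1 hx'.2.2 hx.2.1)) (not_lt.1 (key x x' hx.1 hx.2.2 hx'.2.1))
  · rintro _ ⟨⟨k, rfl⟩, hx⟩
    by_contra hn
    simp only [Set.mem_iUnion, Set.mem_setOf_eq, not_exists, not_and] at hn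
    obtain ⟨m, hm⟩ := hlow
    have r1 : k • m • c ≤ sSup {o | (∃ k : G, k • c = o) ∧ o < k • q} :=
      le_sSup ⟨⟨k * m, mul_smul _ _ _⟩, H _ _ _ hm⟩
    obtain ⟨d, d1, d2⟩ := gapL B ((ha (k * m)).trans_le ((mul_smul k m c).le.trans r1))
    obtain ⟨e, e1, -, e2⟩ := gapR B (H k _ _ q1)
    obtain ⟨o, ⟨o1, o2⟩, o3⟩ := lt_sSup_iff.1 d1
    refine hx ⟨o, o1, o2, e, e1, hB o e (o2.trans e1) fun b hb r => ?_⟩
    have o4 : (d : ℝ) < o := o3
    exact hn b hb ⟨k, rfl⟩ (not_lt.1 fun w => d2 b hb ⟨o4.trans r.1, w⟩)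
      (not_lt.1 fun w => e2 b hb ⟨w, r.2⟩)

lemma balanced (hF : NoF G) {a c : I} {t h : G} (ta : t • a = a) (hac : a < c) (tc : t • c = c)
    (ht : ∀ y, a < y → y < c → y < t • y) (ha : h • a = a) (hc : h • c = c) (h0 : TrR h a) :
    TrL h c :=
  P.pla.trL hF (K := Subgroup.closure {t, h}) ⟨hac,
    fx_closure (by rintro _ (rfl | rfl); exacts [ta, ha]),
    fx_closure (by rintro _ (rfl | rfl); exacts [tc, hc]),
    fun y y1 y2 r => (ht y y1 y2).ne' (r t (Subgroup.subset_closure (by simp)))⟩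
    (Subgroup.subset_closure (by simp)) h0

theorem core (hF : NoF G) {deg : G →* Multiplicative ℤ} {a c : I} {t g : G} {S : Set G}
    (hS : S.Finite) (fa : ∀ k : G, k • a = a) (hdeg : ∀ k, deg k = 1 ↔ TrR k a) (td : deg t ≠ 1)
    (b0 : ∀ b ∈ Subgroup.closure S, deg b = 1)
    (b1 : ∀ b ∈ Subgroup.closure S, t * b * t⁻¹ ∈ Subgroup.closure S) (hac : a < c)
    (tc : t • c = c) (ht : ∀ y, a < y → y < c → y < t • y) (hg : g ∈ Subgroup.closure S)
    (gc : g • c < c) : False := by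
  have H := P.inc
  have ha : ∀ k : G, a < k • c := fun k => H.gt_of_fix (fa k) hac
  obtain ⟨η, η1, η2⟩ := (hdeg g).1 (b0 g hg)
  have hno : ∀ x, a < x → x < c → t • x ≠ x := fun x x1 x2 => (ht x x1 x2).ne'
  have Minv : ∀ k : G, (∀ z : I, k • z = z → g • z = z) → (∀ z : I, g • k • z = k • g • z) →
      ∀ x ∈ {x : I | (∃ k : G, k • c = x) ∧ g • x ≠ x},
        sInf {x : I | (∃ k : G, k • c = x) ∧ g • x ≠ x} ≤ k • x := by
    rintro k - hk _ ⟨⟨m, rfl⟩, hm⟩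
    exact sInf_le ⟨⟨k * m, mul_smul _ _ _⟩, fun r => hm (smul_left_cancel k (by rw [← hk, r]))⟩
  have gq := H.fix_sInf (Minv g (fun _ => id) fun _ => rfl) (Minv g⁻¹
    (fun z r => (inv_smul_eq_iff.1 r).symm) fun z => by rw [smul_inv_smul, inv_smul_smul])
  have aq : a < sInf {x : I | (∃ k : G, k • c = x) ∧ g • x ≠ x} := η1.trans_le (le_sInf (by
    rintro _ ⟨⟨m, rfl⟩, hm⟩
    exact not_lt.1 fun r => hm (η2 _ (ha m).le r.le)))
  have bel : ∀ k : G, g • k • c ≠ k • c →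
      sInf {x : I | (∃ k : G, k • c = x) ∧ g • x ≠ x} ≤ k • c := fun k r => sInf_le ⟨⟨k, rfl⟩, r⟩
  have acc0 : ∀ e, sInf {x : I | (∃ k : G, k • c = x) ∧ g • x ≠ x} < e →
      ∃ k : G, g • k • c ≠ k • c ∧ k • c < e := fun e he => by
    obtain ⟨_, ⟨⟨k, rfl⟩, k1⟩, k2⟩ := sInf_lt_iff.1 he
    exact ⟨k, k1, k2⟩
  generalize sInf {x : I | (∃ k : G, k • c = x) ∧ g • x ≠ x} = q at gq aq bel acc0
  clear Minv
  have bel' : ∀ k : G, g • k • c ≠ k • c → q < k • c := fun k r =>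
    lt_of_le_of_ne (bel k r) fun w => r (w ▸ gq)
  have qc : q < c := by simpa using bel' 1 (by simpa using gc.ne)
  have q1 : q < 1 := qc.trans_le c.2.2
  have acc : ∀ e, q < e → ∃ k : G, q < k • c ∧ k • c < e := fun e he =>
    (acc0 e he).imp fun k hk => ⟨bel' k hk.1, hk.2⟩
  have ntr : ¬ TrR g q := by
    rintro ⟨e, e1, e2⟩
    obtain ⟨k, k1, k2⟩ := acc0 e e1
    exact k1 (e2 _ (bel k k1) k2.le)
  have low : ∃ k : G, k • c < q := by
    obtain ⟨l, hl⟩ := H.dual.cof (t := t⁻¹) (y := g • c) (c := a) (w := q)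
      (H.inv_le.2 (ht _ (ha g) gc).le)
      (fun v v1 v2 e => hno v v2 (lt_of_le_of_lt v1 gc) (inv_smul_eq_iff.1 e).symm) aq
    exact ⟨t⁻¹ ^ l * g, by rw [mul_smul]; exact hl⟩
  have pw : ∀ n : ℕ, t ^ n * g * (t ^ n)⁻¹ ∈ Subgroup.closure S := fun n => by
    induction n with
    | zero => simpa using hg
    | succ n ih =>
      have := b1 _ ih
      rwa [show t * (t ^ n * g * (t ^ n)⁻¹) * t⁻¹ = t ^ (n + 1) * g * (t ^ (n + 1))⁻¹ by group]
        at this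
  obtain ⟨u, uq, ud⟩ : ∃ u : G, u • q = q ∧ deg u ≠ 1 := by
    by_contra hu
    push Not at hu
    let T : I → Prop := fun x => (∃ k : G, k • q = x) ∧
      ∀ m : G, deg m = 1 → ∀ s ∈ S, Good c s (m • x)
    have Tinv : ∀ m : G, deg m = 1 → ∀ x, T x → T (m • x) := by
      rintro m hm _ ⟨⟨k, rfl⟩, hx⟩
      refine ⟨⟨m * k, mul_smul _ _ _⟩, fun m' hm' s hs => ?_⟩
      rw [← mul_smul]
      exact hx _ (by rw [map_mul, hm, hm', mul_one]) s hs
    have good : ∀ b ∈ Subgroup.closure S, ∀ x, T x → Good c b x := by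
      intro b hb
      induction hb using Subgroup.closure_induction with
      | mem s hs => exact fun x hx => by simpa using hx.2 1 (map_one _) s hs
      | one =>
        rintro _ ⟨⟨k, rfl⟩, -⟩
        obtain ⟨m, hm⟩ := low
        exact ⟨_, ⟨k * m, mul_smul _ _ _⟩, H _ _ _ hm, _, H k _ _ q1, 1, fun z _ _ => by simp⟩
      | mul f k _ hk ihf ihk =>
        exact fun x hx => (ihf _ (Tinv k (b0 k hk) x hx)).mul H (ihk x hx)
      | inv k hk ih =>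
        intro x hx
        simpa using (ih _ (Tinv k⁻¹ (b0 _ (inv_mem hk)) x hx)).inv H
    obtain ⟨n, hn⟩ : ∃ n : ℕ, T (t ^ n • q) := by
      by_contra hn
      have : ∀ n : ℕ, ∃ m : G, deg m = 1 ∧ ∃ s ∈ S, ¬ Good c s (m • t ^ n • q) := fun n => by
        by_contra r
        push Not at r
        exact hn ⟨n, ⟨_, rfl⟩, r⟩
      choose m m1 m2 using this
      refine Set.infinite_of_injective_forall_mem (f := fun n : ℕ => m n • t ^ n • q)
        (fun i j e => ?_) (fun n => ?_) (hS.biUnion fun s _ => P.bad_finite acc q1 low ha s)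
      · have := hu ((m j * t ^ j)⁻¹ * (m i * t ^ i)) (by
          rw [mul_smul, inv_smul_eq_iff, mul_smul, mul_smul]; exact e)
        rw [map_mul, map_inv, inv_mul_eq_one, map_mul, map_mul, m1, m1, one_mul, one_mul, map_pow,
          map_pow] at this
        have k := congrArg toAdd this
        rw [toAdd_pow, toAdd_pow, nsmul_eq_mul, nsmul_eq_mul] at k
        exact_mod_cast (mul_right_cancel₀ (fun r => td (toAdd_eq_zero.1 r)) k).symm
      · obtain ⟨s, hs, r⟩ := m2 n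
        exact Set.mem_biUnion hs ⟨⟨m n * t ^ n, mul_smul _ _ _⟩, r⟩
    obtain ⟨_, ⟨k, rfl⟩, o1, e, e1, e2⟩ := good _ (pw n) _ hn
    have f1 : g • (t ^ n)⁻¹ • k • c = (t ^ n)⁻¹ • k • c := by
      by_contra r
      rw [← mul_smul _ k] at r
      exact (H.inv_lt.2 o1).not_ge (by simpa only [mul_smul] using bel _ r)
    refine ntr ⟨(t ^ n)⁻¹ • e, H.lt_inv.2 e1, fun y y1 y2 => ?_⟩
    have := e2.fix (by rw [mul_smul, mul_smul, f1, smul_inv_smul])
      (by rw [mul_smul, mul_smul, inv_smul_smul, gq]) o1 e1.le (t ^ n • y)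
      (o1.le.trans ((H.le_iff _).2 y1)) (H.le_inv.1 y2)
    rw [mul_smul, mul_smul, inv_smul_smul] at this
    exact smul_left_cancel _ this
  obtain ⟨s0, s1, s2, s3, s4⟩ : ∃ s0, a < s0 ∧ s0 < c ∧ (∀ z, a ≤ z → z ≤ s0 → g • z = z) ∧
      Mv g s0 := by
    have f0 : g • sInf {z : I | a < z ∧ g • z ≠ z} = sInf {z : I | a < z ∧ g • z ≠ z} :=
      H.fix_sInf (fun x hx => sInf_le ⟨H.gt_of_fix (fa g) hx.1,
        fun r => hx.2 (smul_left_cancel g r)⟩) fun x hx => sInf_le ⟨H.gt_of_fix (fa _) hx.1,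
          fun r => hx.2 (by rw [smul_inv_smul] at r; exact (eq_inv_smul_iff.1 r))⟩
    have f1 : ∀ z, a ≤ z → z ≤ sInf {z : I | a < z ∧ g • z ≠ z} → g • z = z := fun z z1 z2 => by
      by_contra r
      have z3 : a < z := lt_of_le_of_ne z1 fun w => r (w ▸ fa g)
      exact r ((le_antisymm z2 (sInf_le ⟨z3, r⟩)).symm ▸ f0)
    have f2 : sInf {z : I | a < z ∧ g • z ≠ z} < c := not_le.1 fun r => gc.ne (f1 c hac.le r)
    refine ⟨_, η1.trans_le (le_sInf fun x hx => not_lt.1 fun r => hx.2 (η2 x hx.1.le r.le)), f2,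
      f1, (P.pla.isoR g _ c f0 f2).resolve_left fun ⟨e, e1, e2⟩ => ?_⟩
    obtain ⟨z, z1, z2⟩ := sInf_lt_iff.1 e1
    exact z1.2 (e2 z (sInf_le z1) z2.le)
  obtain ⟨dq, d1, -⟩ := P.cyc hF (K := MulAction.stabilizer G q) (fun k hk => hk) q1
    fun e he => by
      obtain ⟨h, h1, h2⟩ := acc e he
      obtain ⟨n, hn⟩ := H.cof (ht s0 s1 s2).le (fun v v1 v2 => hno v (s1.trans_le v1) v2)
        (H.inv_lt.2 h1)
      have r1 : q < (h * t ^ n) • s0 := by rw [mul_smul]; exact H.inv_lt.1 hn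
      have r2 : ∀ z, q ≤ z → z ≤ (h * t ^ n) • s0 →
          (h * t ^ n * g * (h * t ^ n)⁻¹) • z = z := fun z z1 z2 => by
        rw [mul_smul, mul_smul, s3 _ (H.ge_of_fix (fa _) (aq.le.trans z1)) (H.inv_le.2 z2),
          smul_inv_smul]
      refine ⟨_, r2 q le_rfl r1.le, _, r1, lt_trans ?_ h2, r2, s4.conj H⟩
      rw [mul_smul]
      exact H _ _ _ (H.lt_of_fix (by simpa using fix_zpow tc n) s2)
  have i0 : (dq ⟨g, gq⟩).toAdd ≠ 0 := fun r => ntr ((d1 ⟨g, gq⟩).1 (toAdd_eq_zero.1 r))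
  obtain ⟨e, e1, e2⟩ := (d1 (⟨u, uq⟩ ^ (dq ⟨g, gq⟩).toAdd * ⟨g, gq⟩ ^ (-(dq ⟨u, uq⟩).toAdd))).1 (by
    apply toAdd.injective
    simp only [map_mul, map_zpow, toAdd_mul, toAdd_zpow, toAdd_one, smul_eq_mul]
    ring)
  have wd : deg (u ^ (dq ⟨g, gq⟩).toAdd * g ^ (-(dq ⟨u, uq⟩).toAdd)) ≠ 1 := by
    rw [map_mul, map_zpow, map_zpow, b0 g hg, one_zpow, mul_one]
    intro r
    have k := congrArg toAdd r
    rw [toAdd_zpow, toAdd_one, smul_eq_mul] at k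
    exact ud (toAdd_eq_zero.1 ((mul_eq_zero.1 k).resolve_left i0))
  change ∀ y : I, q ≤ y → y ≤ e →
    (u ^ (dq ⟨g, gq⟩).toAdd * g ^ (-(dq ⟨u, uq⟩).toAdd)) • y = y at e2
  generalize u ^ (dq ⟨g, gq⟩).toAdd * g ^ (-(dq ⟨u, uq⟩).toAdd) = w at e2 wd
  obtain ⟨h, h1, h2⟩ := acc e e1
  have w1 : ∀ y, h⁻¹ • q ≤ y → y ≤ c → (h⁻¹ * w * h) • y = y := fun y y1 y2 => by
    rw [mul_smul, mul_smul, e2 _ (H.inv_le.1 y1) (((H.le_iff h).2 y2).trans h2.le), inv_smul_smul]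
  have w0 : h⁻¹ • q < c := H.inv_lt.2 h1
  obtain ⟨v, v1, v2⟩ := P.balanced hF (fa t) hac tc ht
    (h := t ^ (deg w).toAdd * (h⁻¹ * w * h) ^ (-(deg t).toAdd)) (fa _)
    (by rw [mul_smul, fix_zpow (w1 c w0.le le_rfl), fix_zpow tc]) ((hdeg _).1 (by
      apply toAdd.injective
      simp only [map_mul, map_zpow, map_inv, toAdd_mul, toAdd_zpow, toAdd_inv, toAdd_one,
        smul_eq_mul]
      ring))
  obtain ⟨y, y1, y2⟩ := exists_between (max_lt (max_lt v1 w0) hac)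
  rw [max_lt_iff, max_lt_iff] at y1
  have := v2 y y1.1.1.le y2.le
  rw [mul_smul, fix_zpow (w1 y y1.1.2.le y2.le)] at this
  exact hno y y1.2 y2 (H.fix_of_zpow (fun r => wd (toAdd_eq_zero.1 r)) this)

theorem comm_of_asc (hF : NoF G) (hfg : Group.FG G)
    (hBS : ∀ (deg : G →* Multiplicative ℤ) (s : G), deg s = ofAdd 1 →
      ∃ (τ : G) (S : Set G), deg τ ≠ 1 ∧ S.Finite ∧ (∀ x ∈ S, deg x = 1) ∧
        (∀ b ∈ Subgroup.closure S, τ * b * τ⁻¹ ∈ Subgroup.closure S) ∧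
        ∀ h, deg h = 1 → ∃ n : ℕ, τ ^ n * h * (τ ^ n)⁻¹ ∈ Subgroup.closure S) (x y : G) :
    x * y = y * x := by
  have I' := P.inc
  by_contra hxy
  let Z : Set I := {z | ∃ f g : G, (f * g * f⁻¹ * g⁻¹) • z ≠ z}
  have Zinv : ∀ k : G, ∀ z ∈ Z, k • z ∈ Z := by
    rintro k z ⟨f, g, hz⟩
    refine ⟨k * f * k⁻¹, k * g * k⁻¹, fun e => hz ?_⟩
    rw [show k * f * k⁻¹ * (k * g * k⁻¹) * (k * f * k⁻¹)⁻¹ * (k * g * k⁻¹)⁻¹ =
      k * (f * g * f⁻¹ * g⁻¹) * k⁻¹ by group, mul_smul, mul_smul, inv_smul_smul] at e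
    exact smul_left_cancel k e
  have fa : ∀ k : G, k • sInf Z = sInf Z := fun k => I'.fix_sInf
    (fun z hz => sInf_le (Zinv k z hz)) fun z hz => sInf_le (Zinv _ z hz)
  have aZ : ∀ z ∈ Z, sInf Z < z := fun z hz => lt_of_le_of_ne (sInf_le hz) fun e => by
    obtain ⟨f, g, hz⟩ := hz
    exact hz (e ▸ fa _)
  have low : ∀ e, sInf Z < e → ∃ z ∈ Z, z < e := fun e he => sInf_lt_iff.1 he
  obtain ⟨z0, hz0⟩ : Z.Nonempty := by
    by_contra hne
    refine hxy ?_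
    have : x * y * x⁻¹ * y⁻¹ = 1 := P.faith _ fun z => by_contra fun r => hne ⟨z, _, _, r⟩
    rwa [mul_inv_eq_one, mul_inv_eq_iff_eq_mul] at this
  have a1 : sInf Z < 1 := (aZ z0 hz0).trans_le z0.2.2
  generalize sInf Z = a at fa aZ low a1
  have ctr : ∀ f g : G, TrR (f * g * f⁻¹ * g⁻¹) a := fun f g => by
    obtain ⟨e, e1, e2⟩ := P.pla.comR f⁻¹ g⁻¹ a 1 (fa _) (fa _) a1
    exact ⟨e, e1, fun y y1 y2 => by
      rw [mul_smul, mul_smul, mul_smul, e2 y y1 y2, smul_inv_smul, smul_inv_smul]⟩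
  obtain ⟨d0, d1, d2⟩ := P.cyc hF (K := ⊤) (q := a) (fun k _ => fa k) a1 fun e he => by
    obtain ⟨z, hz, z1⟩ := low e he
    have z0 := aZ z hz
    obtain ⟨f, g, z2⟩ := hz
    obtain ⟨η, η1, η2⟩ := ctr f g
    generalize f * g * f⁻¹ * g⁻¹ = g at z2 η2
    have f0 : g • sInf {z : I | a < z ∧ g • z ≠ z} = sInf {z : I | a < z ∧ g • z ≠ z} :=
      I'.fix_sInf (fun x hx => sInf_le ⟨I'.gt_of_fix (fa g) hx.1,
        fun r => hx.2 (smul_left_cancel g r)⟩) fun x hx => sInf_le ⟨I'.gt_of_fix (fa _) hx.1,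
          fun r => hx.2 (by rw [smul_inv_smul] at r; exact (eq_inv_smul_iff.1 r))⟩
    have f1 : ∀ z, a ≤ z → z ≤ sInf {z : I | a < z ∧ g • z ≠ z} → g • z = z := fun z z1 z2 => by
      by_contra r
      have z3 : a < z := lt_of_le_of_ne z1 fun w => r (w ▸ fa g)
      exact r ((le_antisymm z2 (sInf_le ⟨z3, r⟩)).symm ▸ f0)
    have f2 : sInf {z : I | a < z ∧ g • z ≠ z} < e := lt_of_le_of_lt (sInf_le ⟨z0, z2⟩) z1
    refine ⟨g, trivial, _,
      η1.trans_le (le_sInf fun x hx => not_lt.1 fun r => hx.2 (η2 x hx.1.le r.le)), f2,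
      f1, (P.pla.isoR g _ e f0 f2).resolve_left fun ⟨e, e1, e2⟩ => ?_⟩
    obtain ⟨z, z1, z2⟩ := sInf_lt_iff.1 e1
    exact z1.2 (e2 z (sInf_le z1) z2.le)
  let deg : G →* Multiplicative ℤ := d0.comp Subgroup.topEquiv.symm.toMonoidHom
  have hdeg : ∀ k : G, deg k = 1 ↔ TrR k a := fun k => d1 ⟨k, trivial⟩
  obtain ⟨s, hs⟩ := d2 (by
    by_contra r
    push Not at r
    obtain ⟨S, hS⟩ := hfg.out
    obtain ⟨e, e1, e2⟩ := unifR S.finite_toSet a1 fun g _ => (d1 ⟨g, trivial⟩).1 (r _)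
    obtain ⟨z, hz, z1⟩ := low e e1
    obtain ⟨f, g, z2⟩ := id hz
    exact z2 (e2 z (aZ z hz).le z1.le _ (hS ▸ trivial)))
  obtain ⟨t, S, t1, hS, s1, b1, b2⟩ := hBS deg s.1 hs
  have b0 : ∀ b ∈ Subgroup.closure S, deg b = 1 := fun b hb =>
    (Subgroup.closure_le deg.ker).2 (fun y hy => s1 y hy) hb
  have ta := fa t
  have fw : ∀ (n : ℕ) (y : I), ¬ Fx (Subgroup.closure S) y →
      ¬ Fx (Subgroup.closure S) (t ^ n • y) := by
    intro n y hy
    induction n with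
    | zero => simpa using hy
    | succ n ih =>
      refine fun h => ih fun b hb => ?_
      have := h _ (b1 b hb)
      rw [pow_succ', mul_smul, mul_smul, mul_smul, inv_smul_smul] at this
      exact smul_left_cancel t this
  obtain ⟨d, d1, d2⟩ := (P.pla.isoR t a 1 ta a1).resolve_left (mt (hdeg t).2 t1)
  have tc : t • sInf {x | a < x ∧ t • x = x} = sInf {x | a < x ∧ t • x = x} := I'.fix_sInf
    (fun x hx => by rw [hx.2]; exact sInf_le hx) fun x hx => by rw [fix_inv hx.2]; exact sInf_le hx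
  have hac : a < sInf {x | a < x ∧ t • x = x} :=
    d1.trans_le (le_sInf fun x hx => not_lt.1 fun r => d2 x hx.1 r.le hx.2)
  have hno : ∀ x, a < x → x < sInf {x | a < x ∧ t • x = x} → t • x ≠ x := fun x x1 x2 e =>
    x2.not_ge (sInf_le ⟨x1, e⟩)
  generalize sInf {x | a < x ∧ t • x = x} = c at tc hac hno
  obtain ⟨y, y1, y2, y3⟩ : ∃ y, a < y ∧ y < c ∧ ¬ Fx (Subgroup.closure S) y := by
    obtain ⟨z, hz, z1⟩ := low c hac
    obtain ⟨f, g, z2⟩ := id hz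
    obtain ⟨n, hn⟩ := b2 _ ((hdeg _).2 (ctr f g))
    refine ⟨t ^ n • z, I'.gt_of_fix (fa _) (aZ z hz),
      I'.lt_of_fix (by simpa using fix_zpow tc n) z1, fun h => z2 ?_⟩
    have := h _ hn
    rw [mul_smul, mul_smul, inv_smul_smul] at this
    exact smul_left_cancel _ this
  obtain ⟨e, e1, e2⟩ := unifR hS a1 fun g hg => (hdeg g).1 (s1 g hg)
  have ty : y < t • y := lt_of_le_of_ne (not_lt.1 fun r => by
    obtain ⟨n, hn⟩ := I'.dual.cof (t := t) (y := y) (c := a) (w := e) r.le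
      (fun v v1 v2 => hno v v2 (lt_of_le_of_lt v1 y2)) e1
    exact fw n y y3 (e2 _ (I'.ge_of_fix (fa _) y1.le) (le_of_lt hn))) (hno y y1 y2).symm
  have ht : ∀ x, a < x → x < c → x < t • x := fun x x1 x2 => I'.sign hno y1 y2 ty x1 x2
  by_cases hc : Fx (Subgroup.closure S) c
  · obtain ⟨v, v1, v2⟩ := unifL hS hac fun g hg => P.balanced hF ta hac tc ht (fa g)
      (hc g (Subgroup.subset_closure hg)) ((hdeg g).1 (s1 g hg))
    obtain ⟨n, hn⟩ := I'.cof ty.le (fun v v1 v2 => hno v (y1.trans_le v1) v2) v1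
    exact fw n y y3 (v2 _ hn.le (I'.le_of_fix (by simpa using fix_zpow tc n) y2.le))
  · obtain ⟨β, hβ, β1⟩ : ∃ β ∈ Subgroup.closure S, β • c < c := by
      unfold Fx at hc
      push Not at hc
      obtain ⟨g, g1, g2⟩ := hc
      rcases lt_or_gt_of_ne g2 with r | r
      exacts [⟨g, g1, r⟩, ⟨g⁻¹, inv_mem g1, I'.inv_lt.2 r⟩]
    exact P.core hF hS fa hdeg t1 b0 b1 hac tc ht hβ β1

end PLG

end Pool.Agent.Lib.MP_24b811_al.Fp
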