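import Pool.Agent.Lib.MP_24b811_al.PlDefs
import Pool.Agent.Lib.MP_24b811_al.PlMain
import Pool.Agent.Lib.MP_24b811_al.PlBS
import Pool.Agent.Lib.MP_24b811_al.FpEmb
import Pool.Agent.Lib.MP_24b811_al.FpZn

/-!
# Quotients of almost finitely presented groups without free subgroups in the piecewise linear group
-/

set_option autoImplicit false

namespace Pool.Agent.Lib.MP_24b811_al.Fp

open unitInterval Gc Multiplicative

universe u

/-- The action of a group of homeomorphisms on the interval. -/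
@[reducible] def homAct (H : Subgroup (I ≃ₜ I)) : MulAction H I where
  smul g x := g.1 x
  one_smul _ := rfl
  mul_smul _ _ _ := rfl

lemma plg (H : Subgroup (I ≃ₜ I)) (hH : ∀ g ∈ H, IsPL g) : @PLG H _ (homAct H) :=
  letI := homAct H
  ⟨fun g _ _ h => (hH g.1 g.2).1 h, fun _ h => Subtype.ext (Homeomorph.ext h),
    fun g => (hH g.1 g.2).2⟩

variable {G : Type} [Group G] [MulAction G I]

theorem PLG.comm_of_cover (P : PLG G) (hF : NoF G) {Γ : Type} [Group Γ]
    (hΓ : AlmostFP Γ) (π : Γ →* G) (hπ : Function.Surjective π)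
    (hf : ∀ f : FreeGroup Bool →* Γ, ¬ Function.Injective f) :
    Group.FG G ∧ ∀ x y : G, x * y = y * x := by
  have hfg : Group.FG G := by
    obtain ⟨n, φ, -, hφ, -⟩ := hΓ
    exact Group.fg_of_surjective (f := π.comp φ) (hπ.comp hφ)
  refine ⟨hfg, P.comm_of_asc hF hfg fun deg s hs => ?_⟩
  obtain ⟨s, rfl⟩ := hπ s
  obtain ⟨τ, S, t1, hS, s1, s2, s3⟩ := bieri_strebel' hΓ (deg.comp π) (s := s) hs hf
  refine ⟨π τ, π '' S, t1, hS.image _, ?_, fun b hb => ?_, fun h hh => ?_⟩
  · rintro _ ⟨x, hx, rfl⟩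
    exact s1 x hx
  · rw [← MonoidHom.map_closure] at hb ⊢
    obtain ⟨b, hb, rfl⟩ := hb
    exact ⟨_, s2 b hb, by simp⟩
  · obtain ⟨h, rfl⟩ := hπ h
    rw [← MonoidHom.map_closure]
    exact (s3 h hh).imp fun n hn => ⟨_, hn, by simp⟩

theorem PLG.abelian_case (P : PLG G) (hfg : Group.FG G) (hc : ∀ x y : G, x * y = y * x) :
    (∃ n : ℕ, Nonempty (G ≃* Multiplicative (Fin n → ℤ))) ∧
      ∃ (S : Type u) (Q : SemigroupPresentation S) (w : SqVertex Q),
        Nonempty (G ≃* DiagramGroup Q w) := by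
  letI : CommGroup G := { (inferInstance : Group G) with mul_comm := hc }
  haveI : Module.Finite ℤ (Additive G) := Module.Finite.iff_addGroup_fg.2 inferInstance
  haveI : NoZeroSMulDivisors ℤ (Additive G) := ⟨fun {k x} h => or_iff_not_imp_left.2 fun hk => by
    have h1 : x.toMul ^ k = 1 := congrArg Additive.toMul h
    exact congrArg Additive.ofMul (P.faith _ fun y =>
      P.inc.fix_of_zpow hk (by rw [h1, one_smul]) : x.toMul = 1)⟩
  let e : G ≃* Multiplicative (Fin (Module.finrank ℤ (Additive G)) → ℤ) :=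
    AddEquiv.toMultiplicativeRight (Module.finBasis ℤ (Additive G)).equivFun.toAddEquiv
  obtain ⟨S, Q, w, ⟨f⟩⟩ := zn_diagram.{u} (Module.finrank ℤ (Additive G))
  exact ⟨⟨_, ⟨e⟩⟩, S, Q, w, ⟨e.trans f⟩⟩

end Pool.Agent.Lib.MP_24b811_al.Fp
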