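import Pool.Agent.Lib.MP_24b811_al.PlUb

/-!
# Piecewise linear actions on the unit interval: germs, slopes, cyclic germ groups
-/

set_option autoImplicit false

namespace Pool.Agent.Lib.MP_24b811_al.Fp

open unitInterval Gc

variable {G : Type} [Group G] [MulAction G I]

/-- `g` is affine on `[x, y]`. -/
def Aff (g : G) (x y : I) : Prop :=
  ∃ k : ℝ, ∀ z : I, x ≤ z → z ≤ y → ((g • z : I) : ℝ) = (g • x : I) + k * ((z : ℝ) - x)

variable (G) in
/-- A faithful action by increasing piecewise linear maps. -/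
structure PLG : Prop where
  inc : Inc G I
  faith : ∀ g : G, (∀ x : I, g • x = x) → g = 1
  pl : ∀ g : G, ∃ B : Finset ℝ, ∀ x y : I, x < y →
    (∀ b ∈ B, ¬ ((x : ℝ) < b ∧ b < (y : ℝ))) → Aff g x y

lemma Aff.mono {g : G} {x y x' y' : I} (h : Aff g x y) (h1 : x ≤ x') (h0 : x' ≤ y') (h2 : y' ≤ y) :
    Aff g x' y' := by
  obtain ⟨k, hk⟩ := h
  refine ⟨k, fun z z1 z2 => ?_⟩
  rw [hk z (h1.trans z1) (z2.trans h2), hk x' h1 (h0.trans h2)]
  ring

lemma Aff.fix {g : G} {x y p : I} (h : Aff g x y) (h1 : g • x = x) (h2 : g • p = p) (p1 : x < p)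
    (p2 : p ≤ y) (z : I) (z1 : x ≤ z) (z2 : z ≤ y) : g • z = z := by
  obtain ⟨k, hk⟩ := h
  have e := hk p p1.le p2
  rw [h1, h2] at e
  have hp : (p : ℝ) - x ≠ 0 := sub_ne_zero.2 fun r => p1.ne' (Subtype.ext r)
  have k1 : k = 1 := mul_right_cancel₀ hp (by linarith)
  apply Subtype.ext
  rw [hk z z1 z2, h1, k1]
  ring

lemma Aff.mul (H : Inc G I) {f g : G} {x y : I} (hf : Aff f (g • x) (g • y)) (hg : Aff g x y) :
    Aff (f * g) x y := by
  obtain ⟨k, hk⟩ := hf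
  obtain ⟨l, hl⟩ := hg
  refine ⟨k * l, fun z z1 z2 => ?_⟩
  rw [mul_smul, mul_smul, hk _ ((H.le_iff g).2 z1) ((H.le_iff g).2 z2), hl z z1 z2]
  ring

lemma Aff.inv (H : Inc G I) {g : G} {x y : I} (hxy : x < y) (hg : Aff g x y) :
    Aff g⁻¹ (g • x) (g • y) := by
  obtain ⟨k, hk⟩ := hg
  have k0 : k ≠ 0 := fun r => (H _ _ _ hxy).ne' (Subtype.ext (by rw [hk y hxy.le le_rfl, r]; ring))
  refine ⟨k⁻¹, fun z z1 z2 => ?_⟩
  have := hk (g⁻¹ • z) (H.le_inv.2 z1) (H.inv_le.2 z2)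
  rw [smul_inv_smul] at this
  rw [inv_smul_smul, this]
  field_simp
  ring

lemma gapR (B : Finset ℝ) {c d : I} (h : c < d) :
    ∃ e : I, c < e ∧ e ≤ d ∧ ∀ b ∈ B, ¬ ((c : ℝ) < b ∧ b < e) := by
  classical
  induction B using Finset.induction_on with
  | empty => exact ⟨d, h, le_rfl, by simp⟩
  | insert b B _ ih =>
    obtain ⟨e, e1, e2, e3⟩ := ih
    by_cases hb : (c : ℝ) < b ∧ b < e
    · refine ⟨⟨b, c.2.1.trans hb.1.le, hb.2.le.trans e.2.2⟩, hb.1, le_trans hb.2.le e2,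
        fun x hx r => ?_⟩
      rcases Finset.mem_insert.1 hx with rfl | hx
      exacts [lt_irrefl _ r.2, e3 x hx ⟨r.1, r.2.trans hb.2⟩]
    · refine ⟨e, e1, e2, fun x hx => ?_⟩
      rcases Finset.mem_insert.1 hx with rfl | hx
      exacts [hb, e3 x hx]

lemma gapL (B : Finset ℝ) {c d : I} (h : d < c) :
    ∃ e : I, e < c ∧ ∀ b ∈ B, ¬ ((e : ℝ) < b ∧ b < c) := by
  classical
  induction B using Finset.induction_on with
  | empty => exact ⟨d, h, by simp⟩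
  | insert b B _ ih =>
    obtain ⟨e, e1, e3⟩ := ih
    by_cases hb : (e : ℝ) < b ∧ b < c
    · refine ⟨⟨b, e.2.1.trans hb.1.le, hb.2.le.trans c.2.2⟩, hb.2, fun x hx r => ?_⟩
      rcases Finset.mem_insert.1 hx with rfl | hx
      exacts [lt_irrefl _ r.1, e3 x hx ⟨hb.1.trans r.1, r.2⟩]
    · refine ⟨e, e1, fun x hx => ?_⟩
      rcases Finset.mem_insert.1 hx with rfl | hx
      exacts [hb, e3 x hx]

/-- `g` is linear with slope `k` just to the right of the fixed point `q`. -/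
def SR (g : G) (q : I) (k : ℝ) : Prop :=
  ∃ e, q < e ∧ ∀ z : I, q ≤ z → z ≤ e → ((g • z : I) : ℝ) = q + k * ((z : ℝ) - q)

lemma SR.uniq {g : G} {q : I} {k l : ℝ} (h1 : SR g q k) (h2 : SR g q l) : k = l := by
  obtain ⟨e, e1, e2⟩ := h1
  obtain ⟨d, d1, d2⟩ := h2
  have m := lt_min e1 d1
  have a := e2 _ m.le (min_le_left _ _)
  rw [d2 _ m.le (min_le_right _ _)] at a
  have hp : ((min e d : I) : ℝ) - q ≠ 0 := sub_ne_zero.2 fun r => m.ne' (Subtype.ext r)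
  exact mul_right_cancel₀ hp (by linarith)

lemma SR.fix {g : G} {q : I} {k : ℝ} (h : SR g q k) : g • q = q := by
  obtain ⟨e, e1, e2⟩ := h
  exact Subtype.ext (by rw [e2 q le_rfl e1.le]; ring)

lemma SR.mul (H : Inc G I) {f g : G} {q : I} {k l : ℝ} (hf : SR f q k) (hg : SR g q l) :
    SR (f * g) q (k * l) := by
  have gq := hg.fix
  obtain ⟨e, e1, e2⟩ := hf
  obtain ⟨d, d1, d2⟩ := hg
  refine ⟨min (g⁻¹ • e) d, lt_min (H.gt_of_fix (fix_inv gq) e1) d1, fun z z1 z2 => ?_⟩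
  rw [mul_smul, e2 _ (H.ge_of_fix gq z1) (H.le_inv.1 (z2.trans (min_le_left _ _))),
    d2 z z1 (z2.trans (min_le_right _ _))]
  ring

lemma sr_one {g : G} {q : I} : SR g q 1 ↔ TrR g q :=
  exists_congr fun _ => and_congr_right fun _ => forall₃_congr fun z _ _ =>
    ⟨fun h => Subtype.ext (by rw [h]; ring), fun h => by rw [h]; ring⟩

lemma SR.mv {g : G} {q : I} {k : ℝ} (h : SR g q k) (hk : k ≠ 1) : Mv g q := by
  obtain ⟨e, e1, e2⟩ := h
  refine ⟨e, e1, fun y y1 y2 r => hk ?_⟩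
  have a := e2 y y1.le y2
  rw [r] at a
  have hp : (y : ℝ) - q ≠ 0 := sub_ne_zero.2 fun r => y1.ne' (Subtype.ext r)
  exact mul_right_cancel₀ hp (by linarith)

namespace PLG

variable (P : PLG G)
include P

lemma affR (g : G) {c d : I} (h : c < d) : ∃ e, c < e ∧ Aff g c e := by
  obtain ⟨B, hB⟩ := P.pl g
  obtain ⟨e, e1, -, e3⟩ := gapR B h
  exact ⟨e, e1, hB c e e1 e3⟩

lemma sr {g : G} {c d : I} (hg : g • c = c) (h : c < d) : ∃ k, 0 < k ∧ SR g c k := by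
  obtain ⟨e, e1, k, hk⟩ := P.affR g h
  rw [hg] at hk
  refine ⟨k, ?_, e, e1, hk⟩
  have a : (c : ℝ) < (g • e : I) := P.inc.gt_of_fix hg e1
  rw [hk e e1.le le_rfl] at a
  have b : (0 : ℝ) < (e : ℝ) - c := sub_pos.2 e1
  exact (mul_pos_iff_of_pos_right b).1 (by linarith)

lemma sleft {g : G} {c d : I} (hg : g • c = c) (h : d < c) : ∃ (k : ℝ) (e : I), e < c ∧
    ∀ z : I, e ≤ z → z ≤ c → ((g • z : I) : ℝ) = c + k * ((z : ℝ) - c) := by
  obtain ⟨B, hB⟩ := P.pl g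
  obtain ⟨e, e1, e3⟩ := gapL B h
  obtain ⟨k, hk⟩ := hB e c e1 e3
  refine ⟨k, e, e1, fun z z1 z2 => ?_⟩
  have := hk c e1.le le_rfl
  rw [hg] at this
  rw [hk z z1 z2]
  linarith

theorem pla : PLA G I where
  inc := P.inc
  faith := P.faith
  isoR g c d hg h := by
    obtain ⟨k, -, hk⟩ := P.sr hg h
    exact (em (k = 1)).imp (fun r : k = 1 => sr_one.1 (r ▸ hk)) hk.mv
  isoL g c d hg h := by
    obtain ⟨k, e, e1, e2⟩ := P.sleft hg h
    refine (em (k = 1)).imp (fun r => ⟨e, e1, fun y y1 y2 => Subtype.ext ?_⟩)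
      fun r => ⟨e, e1, fun y y1 y2 w => r ?_⟩
    · rw [e2 y y1 y2, r]; ring
    · have a := e2 y y1 y2.le
      rw [w] at a
      have hp : (y : ℝ) - c ≠ 0 := sub_ne_zero.2 fun r => y2.ne (Subtype.ext r)
      exact mul_right_cancel₀ hp (by linarith)
  comR f g c d hf hg h := by
    obtain ⟨k, -, hk⟩ := P.sr hf h
    obtain ⟨l, -, hl⟩ := P.sr hg h
    obtain ⟨e, e1, e2⟩ := hk.mul P.inc hl
    obtain ⟨e', e1', e2'⟩ := hl.mul P.inc hk
    refine ⟨min e e', lt_min e1 e1', fun y y1 y2 => Subtype.ext ?_⟩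
    rw [← mul_smul, ← mul_smul, e2 y y1 (y2.trans (min_le_left _ _)),
      e2' y y1 (y2.trans (min_le_right _ _)), mul_comm k]
  comL f g c d hf hg h := by
    have H := P.inc
    obtain ⟨k, e, e1, e2⟩ := P.sleft hf h
    obtain ⟨l, e', e1', e2'⟩ := P.sleft hg h
    refine ⟨max (max e e') (max (g⁻¹ • e) (f⁻¹ • e')), max_lt (max_lt e1 e1')
      (max_lt (H.lt_of_fix (fix_inv hg) e1) (H.lt_of_fix (fix_inv hf) e1')),
      fun y y1 y2 => Subtype.ext ?_⟩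
    rw [max_le_iff, max_le_iff, max_le_iff] at y1
    rw [e2 _ (H.inv_le.1 y1.2.1) (H.le_of_fix hg y2), e2' _ (H.inv_le.1 y1.2.2) (H.le_of_fix hf y2),
      e2 y y1.1.1 y2, e2' y y1.1.2 y2]
    ring
  fin g := by
    classical
    obtain ⟨B, hB⟩ := P.pl g
    have key : ∀ p q : I, g • p = p ∧ Mv g p → g • q = q → p < q →
        B.filter (fun b => b ≤ (p : ℝ)) ≠ B.filter (fun b => b ≤ (q : ℝ)) := by
      rintro p q ⟨h1, e, e1, e2⟩ h2 h3 h4
      have hk := hB p q h3 fun b hb ⟨r1, r2⟩ => by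
        have : b ∈ B.filter (fun b => b ≤ (q : ℝ)) := Finset.mem_filter.2 ⟨hb, r2.le⟩
        rw [← h4, Finset.mem_filter] at this
        exact r1.not_ge this.2
      exact e2 (min e q) (lt_min e1 h3) (min_le_left _ _)
        (hk.fix h1 h2 h3 le_rfl _ (lt_min e1 h3).le (min_le_right _ _))
    refine Set.Finite.of_finite_image (f := fun p : I => B.filter (fun b => b ≤ (p : ℝ)))
      (B.powerset.finite_toSet.subset ?_) fun p hp q hq e => ?_
    · rintro _ ⟨p, -, rfl⟩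
      exact Finset.mem_powerset.2 (Finset.filter_subset _ _)
    · rcases lt_trichotomy p q with r | r | r
      exacts [absurd e (key p q hp hq.1 r), r, absurd e.symm (key q p hq hp.1 r)]

/-- One linear zone serves all slopes. -/
lemma zone {K : Subgroup G} {q e : I} {f w : G} (hf : f ∈ K) (hw : w ∈ K) {μ ρ : ℝ} (μ0 : 0 < μ)
    (μ1 : μ < 1) (hfe : ∀ z : I, q ≤ z → z ≤ e → ((f • z : I) : ℝ) = q + μ * ((z : ℝ) - q))
    (hρ : SR w q ρ) : ∃ v ∈ K, ∀ x x' : I, q ≤ x → x ≤ e → q ≤ x' → x' ≤ e →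
      (x' : ℝ) - q = ρ * (x - q) → v • x = x' := by
  have pw : ∀ (n : ℕ) (z : I), q ≤ z → z ≤ e →
      ((f ^ n • z : I) : ℝ) = q + μ ^ n * ((z : ℝ) - q) := by
    intro n z z1 z2
    induction n with
    | zero => simp
    | succ n ih =>
      have a : (0 : ℝ) ≤ (z : ℝ) - q := sub_nonneg.2 z1
      have b : μ ^ n * ((z : ℝ) - q) ≤ 1 * ((z : ℝ) - q) :=
        mul_le_mul_of_nonneg_right (pow_le_one₀ μ0.le μ1.le) a
      have c : (z : ℝ) ≤ e := z2
      rw [pow_succ', mul_smul, hfe _ (show (q : ℝ) ≤ _ by rw [ih]; nlinarith [pow_pos μ0 n])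
        (show _ ≤ (e : ℝ) by rw [ih]; linarith), ih]
      ring
  obtain ⟨d, d1, d2⟩ := hρ
  obtain ⟨n, hn⟩ := exists_pow_lt_of_lt_one (show (0 : ℝ) < (d : ℝ) - q from sub_pos.2 d1) μ1
  refine ⟨(f ^ n)⁻¹ * w * f ^ n, K.mul_mem (K.mul_mem (K.inv_mem (K.pow_mem hf n)) hw)
    (K.pow_mem hf n), fun x x' x1 x2 y1 y2 h => ?_⟩
  have a : (0 : ℝ) ≤ (x : ℝ) - q := sub_nonneg.2 x1
  have b : (x : ℝ) - q ≤ 1 := by linarith [x.2.2, q.2.1]
  have c := pow_pos μ0 n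
  rw [mul_smul, mul_smul, inv_smul_eq_iff]
  apply Subtype.ext
  rw [d2 _ (show (q : ℝ) ≤ _ by rw [pw n x x1 x2]; nlinarith)
    (show _ ≤ (d : ℝ) by rw [pw n x x1 x2]; nlinarith), pw n x x1 x2, pw n x' y1 y2, h]
  ring

/-- Without a copy of the presented group the germs at a fixed point form a cyclic group. -/
theorem cyc (hF : NoF G) {K : Subgroup G} {q : I} (hq : Fx K q) (q1 : q < 1)
    (hκ : ∀ e, q < e → ∃ κ ∈ K, ∃ s, q < s ∧ s < e ∧ (∀ z, q ≤ z → z ≤ s → κ • z = z) ∧ Mv κ s) :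
    ∃ deg : K →* Multiplicative ℤ, (∀ g : K, deg g = 1 ↔ TrR g.1 q) ∧
      ((∃ g : K, deg g ≠ 1) → ∃ s, deg s = Multiplicative.ofAdd 1) := by
  have H := P.inc
  choose k k0 hk using fun g : K => P.sr (hq g.1 g.2) q1
  have km : ∀ f g : K, k (f * g) = k f * k g := fun f g => (hk _).uniq ((hk f).mul H (hk g))
  let sg : K →* Multiplicative ℝ := MonoidHom.mk' (fun g => Multiplicative.ofAdd (Real.log (k g)))
    fun f g => by rw [← ofAdd_add, km, Real.log_mul (k0 f).ne' (k0 g).ne']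
  have sg1 : ∀ g : K, Real.log (k g) = 0 ↔ TrR g.1 q := fun g =>
    ⟨fun h => sr_one.1 (Real.eq_one_of_pos_of_log_eq_zero (k0 g) h ▸ hk g),
      fun h => by rw [(hk g).uniq (sr_one.2 h), Real.log_one]⟩
  have mem : ∀ x : ℝ, x ∈ Subgroup.toAddSubgroup' sg.range ↔ ∃ g : K, Real.log (k g) = x :=
    fun x => ⟨fun ⟨g, hg⟩ => ⟨g, congrArg Multiplicative.toAdd hg⟩,
      fun ⟨g, hg⟩ => ⟨g, congrArg Multiplicative.ofAdd hg⟩⟩
  rcases (Subgroup.toAddSubgroup' sg.range).dense_or_cyclic with hd | ⟨a, ha⟩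
  · exfalso
    have dn : ∀ u v : ℝ, 0 < u → u < v → ∃ g : K, u < k g ∧ k g < v := fun u v u0 uv => by
      obtain ⟨x, x1, x2⟩ := hd.exists_between (Real.log_lt_log u0 uv)
      obtain ⟨g, rfl⟩ := (mem x).1 x1
      exact ⟨g, (Real.log_lt_log_iff u0 (k0 g)).1 x2.1,
        (Real.log_lt_log_iff (k0 g) (u0.trans uv)).1 x2.2⟩
    obtain ⟨f, -, f1⟩ := dn (1 / 2) 1 (by norm_num) (by norm_num)
    obtain ⟨e, e1, e2⟩ := hk f
    have fm : ∀ y, q < y → y ≤ e → ¬ Fx K y := fun y y1 y2 r => by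
      have a := e2 y y1.le y2
      rw [r f.1 f.2] at a
      have : (0 : ℝ) < (y : ℝ) - q := sub_pos.2 y1
      nlinarith
    obtain ⟨⟨o, r⟩, o1, o2, o3⟩ := H.exists_orb (fm e e1 le_rfl)
    obtain rfl : o = q := by
      rcases lt_trichotomy o q with h | h | h
      exacts [absurd hq (o1.2.2.2 q h (e1.trans o3)), h, absurd o1.2.1 (fm o h o2.le)]
    obtain ⟨κ, κ0, s, s1, s2, κ1, κ2⟩ := hκ e e1
    refine P.pla.not_loc hF o1 e1 (fun x y x1 x2 y2 => ?_) κ0 s1 (s2.trans o3) κ1 κ2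
    obtain ⟨d, d1, d2⟩ := κ2
    have m1 : s < min d e := lt_min d1 s2
    have a1 : (0 : ℝ) < (s : ℝ) - o := sub_pos.2 s1
    have a2 : (s : ℝ) - o < (min d e : I) - o := sub_lt_sub_right (Subtype.coe_lt_coe.2 m1) _
    have a3 : (0 : ℝ) < (x : ℝ) - o := sub_pos.2 x1
    have a4 : (x : ℝ) - o < y - o := sub_lt_sub_right (Subtype.coe_lt_coe.2 x2) _
    obtain ⟨w, w1, w2⟩ := dn (max ((x - o) / (s - o)) ((y - o) / ((min d e : I) - o)))
      ((y - o) / (s - o)) (lt_max_of_lt_left (div_pos a3 a1))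
      (max_lt (div_lt_div_of_pos_right a4 a1) (div_lt_div_of_pos_left (a3.trans a4) a1 a2))
    rw [max_lt_iff, div_lt_iff₀ a1, div_lt_iff₀ (a1.trans a2)] at w1
    rw [lt_div_iff₀ a1] at w2
    have ρ0 := k0 w
    obtain ⟨v, v1, v2⟩ := P.zone f.2 w.2 (k0 f) f1 e2 (hk w)
    have b1 : (s : ℝ) < o + (y - o) / k w := by
      rw [← sub_lt_iff_lt_add', lt_div_iff₀ ρ0]; linarith
    have b2 : o + (y - o) / k w ≤ (min d e : I) := by
      rw [← le_sub_iff_add_le', div_le_iff₀ ρ0]; linarith [w1.2]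
    let y0 : I := ⟨o + (y - o) / k w, s.2.1.trans b1.le, b2.trans (min d e).2.2⟩
    let s0 : I := ⟨o + k w * (s - o), by linarith [w1.1, x.2.1], by linarith [y.2.2]⟩
    have c1 : s < y0 := b1
    have c2 : y0 ≤ min d e := b2
    have c3 : x ≤ s0 := show (x : ℝ) ≤ o + k w * (s - o) by linarith [w1.1]
    have c4 : s0 ≤ y := show o + k w * (s - o) ≤ (y : ℝ) by linarith
    have vy : v • y0 = y := v2 y0 y (s1.trans c1).le (c2.trans (min_le_right _ _))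
      (x1.trans x2).le y2.le (by simp only [y0]; field_simp; ring)
    have vs : v • s = s0 := v2 s s0 s1.le s2.le (x1.le.trans c3) (c4.trans y2.le)
      (by simp only [s0]; ring)
    refine ⟨v * κ * v⁻¹, K.mul_mem (K.mul_mem v1 κ0) (K.inv_mem v1), fun z z1 z2 => ?_,
      fun r => d2 y0 c1 (c2.trans (min_le_left _ _)) ?_⟩
    · rw [mul_smul, mul_smul, κ1 _ (H.ge_of_fix (fix_inv (hq v v1)) z1)
        (H.inv_le.2 (vs ▸ z2.trans c3)), smul_inv_smul]
    · rw [← vy, mul_smul, mul_smul, inv_smul_smul] at r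
      exact smul_left_cancel v r
  · have ex : ∀ g : K, ∃ n : ℤ, n • a = Real.log (k g) := fun g =>
      AddSubgroup.mem_closure_singleton.1 (ha ▸ (mem _).2 ⟨g, rfl⟩)
    by_cases a0 : a = 0
    · refine ⟨1, fun g => ⟨fun _ => (sg1 g).1 ?_, fun _ => rfl⟩, fun ⟨g, hg⟩ => absurd rfl hg⟩
      obtain ⟨n, hn⟩ := ex g
      rw [← hn, a0, smul_zero]
    choose n hn using ex
    have inj : ∀ i j : ℤ, i • a = j • a → i = j := fun i j h => by
      rw [zsmul_eq_mul, zsmul_eq_mul] at h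
      exact_mod_cast mul_right_cancel₀ a0 h
    refine ⟨MonoidHom.mk' (fun g => Multiplicative.ofAdd (n g)) fun f g => ?_, fun g => ?_,
      fun _ => ?_⟩
    · rw [← ofAdd_add]
      refine congrArg _ (inj _ _ ?_)
      rw [add_smul, hn, hn, hn, km, Real.log_mul (k0 f).ne' (k0 g).ne']
    · change Multiplicative.ofAdd (n g) = 1 ↔ _
      rw [ofAdd_eq_one, ← sg1, ← hn]
      exact ⟨fun h => by rw [h, zero_smul], fun h => inj _ _ (by rw [h, zero_smul])⟩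
    · obtain ⟨g, hg⟩ := (mem a).1 (ha ▸ AddSubgroup.subset_closure rfl)
      exact ⟨g, congrArg Multiplicative.ofAdd (inj _ _ (by rw [hn, hg, one_smul]))⟩

end PLG

end Pool.Agent.Lib.MP_24b811_al.Fp
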