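import Pool.Agent.Lib.MP_24b811_al.FpUb

/-!
# The ubiquity theorem of Brin on an arbitrary orbital
-/

set_option autoImplicit false

namespace Pool.Agent.Lib.MP_24b811_al.Fp

open Gc

variable {G X : Type} [Group G] [CompleteLinearOrder X] [MulAction G X]

/-- `g` is the identity just to the right of `a`. -/
def TrR (g : G) (a : X) : Prop := ∃ e, a < e ∧ ∀ y, a ≤ y → y ≤ e → g • y = y

/-- `g` is the identity just to the left of `c`. -/
def TrL (g : G) (c : X) : Prop := ∃ e, e < c ∧ ∀ y, e ≤ y → y ≤ c → g • y = y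

variable (G) in
/-- The group contains no copy of the presented group. -/
def NoF : Prop := ∀ f : MP_3e9be7_al.ThompsonF →* G, ¬ Function.Injective f

lemma TrR.inv {g : G} {a : X} (h : TrR g a) : TrR g⁻¹ a :=
  h.imp fun _ he => ⟨he.1, fun y y1 y2 => fix_inv (he.2 y y1 y2)⟩

lemma TrL.inv {g : G} {a : X} (h : TrL g a) : TrL g⁻¹ a :=
  h.imp fun _ he => ⟨he.1, fun y y1 y2 => fix_inv (he.2 y y1 y2)⟩

lemma TrR.not_mv [DenselyOrdered X] {g : G} {a : X} (h : TrR g a) : ¬ Mv g a := by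
  rintro ⟨d, d1, d2⟩
  obtain ⟨e, e1, e2⟩ := h
  obtain ⟨y, y1, y2⟩ := exists_between (lt_min d1 e1)
  exact d2 y y1 (y2.le.trans (min_le_left _ _)) (e2 y y1.le (y2.le.trans (min_le_right _ _)))

lemma unifR {S : Set G} (hS : S.Finite) {a d : X} (ha : a < d) (h : ∀ g ∈ S, TrR g a) :
    ∃ e, a < e ∧ ∀ y, a ≤ y → y ≤ e → Fx (Subgroup.closure S) y := by
  suffices ∃ e, a < e ∧ ∀ y, a ≤ y → y ≤ e → ∀ g ∈ S, g • y = y from
    this.imp fun e he => ⟨he.1, fun y y1 y2 => fx_closure (he.2 y y1 y2)⟩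
  induction S, hS using Set.Finite.induction_on with
  | empty => exact ⟨d, ha, by simp⟩
  | @insert g S _ _ ih =>
    obtain ⟨e, e1, e2⟩ := ih fun k hk => h k (Set.mem_insert_of_mem _ hk)
    obtain ⟨d, d1, d2⟩ := h g (by simp)
    refine ⟨min e d, lt_min e1 d1, fun y y1 y2 k hk => ?_⟩
    rcases hk with rfl | hk
    exacts [d2 y y1 (y2.trans (min_le_right _ _)), e2 y y1 (y2.trans (min_le_left _ _)) k hk]

lemma unifL {S : Set G} (hS : S.Finite) {a d : X} (ha : d < a) (h : ∀ g ∈ S, TrL g a) :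
    ∃ e, e < a ∧ ∀ y, e ≤ y → y ≤ a → Fx (Subgroup.closure S) y :=
  (unifR (X := Xᵒᵈ) (a := a) (d := d) hS ha fun g hg => (h g hg).imp fun _ he =>
    ⟨he.1, fun y y1 y2 => he.2 y y2 y1⟩).imp fun _ he => ⟨he.1, fun y y1 y2 => he.2 y y2 y1⟩

namespace Inc

variable (H : Inc G X)
include H

lemma sign_aux {g : G} {s c x y : X} (hno : ∀ z, s < z → z < c → g • z ≠ z) (y1 : s < y)
    (x2 : x < c) (hyx : y ≤ x) (hy : y < g • y) : x < g • x := by
  refine lt_of_le_of_ne (not_lt.1 fun r => ?_) (hno x (y1.trans_le hyx) x2).symm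
  obtain ⟨n, hn⟩ := H.cof hy.le (fun v v1 v2 => hno v (y1.trans_le v1) v2) x2
  have k2 : g ^ n • x ≤ x := H.dual.le_pow (x := x) r.le n
  exact lt_irrefl _ ((hn.trans_le ((H.le_iff _).2 hyx)).trans_le k2)

lemma sign {g : G} {s c x y : X} (hno : ∀ z, s < z → z < c → g • z ≠ z) (y1 : s < y) (y2 : y < c)
    (hy : y < g • y) (x1 : s < x) (x2 : x < c) : x < g • x := by
  rcases le_total y x with r | r
  · exact H.sign_aux hno y1 x2 r hy
  · refine lt_of_le_of_ne (not_lt.1 fun k => ?_) (hno x x1 x2).symm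
    have := H.sign_aux (g := g⁻¹) (fun z z1 z2 e => hno z z1 z2 (inv_smul_eq_iff.1 e).symm) x1 y2 r
      (H.lt_inv.2 k)
    exact lt_asymm hy (H.lt_inv.1 this)

lemma orb_up {K : Subgroup G} {a c u v : X} (ho : Orb K (a, c)) (hu : a < u) (hv : v < c) :
    ∃ g ∈ K, v < g • u :=
  H.orbit_up (fun x x1 x2 => by simpa [Fx] using ho.2.2.2 x x1 x2) hu hv

lemma orb_down {K : Subgroup G} {a c u v : X} (ho : Orb K (a, c)) (hu : u < c) (hv : a < v) :
    ∃ g ∈ K, g • u < v :=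
  H.dual.orbit_up (p := c) (q := a) (u := u) (v := v)
    (fun x x1 x2 => by
      by_contra r
      exact ho.2.2.2 x x2 x1 fun g hg => by_contra fun w => r ⟨g, hg, w⟩) hu hv

end Inc

namespace PLA

variable [DenselyOrdered X] (H : PLA G X) (hF : NoF G)
include H hF

lemma no_ubiq {t β : G} {a c r0 s0 : X}
    (ta : t • a = a) (tc : t • c = c) (ht : ∀ y, a < y → y < c → y < t • y) (hac : a < c)
    (hr : r0 < c) (hs : a < s0) (h1 : ∀ y, r0 ≤ y → y ≤ c → β • y = t • y)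
    (h2 : ∀ y, a ≤ y → y ≤ s0 → β • y = y) : False := by
  obtain ⟨f, hf⟩ := H.ubiq (K := ⊤) (t := t) (β := β) trivial trivial ta tc ht hac hr hs h1 h2
  exact hF ((⊤ : Subgroup G).subtype.comp f) (Subtype.val_injective.comp hf)

lemma trL_aux {K : Subgroup G} {a c e : X} (ho : Orb K (a, c)) {h : G} (hh : h ∈ K)
    (h0 : TrR h a) (e1 : e < c) (e2 : ∀ y, e ≤ y → y < c → h • y ≠ y) (e3 : e < h • e) :
    False := by
  have I := H.inc
  obtain ⟨η, η1, η2⟩ := h0
  have hc : h • c = c := ho.2.2.1 h hh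
  have fs : h • sSup {x | x < c ∧ h • x = x} = sSup {x | x < c ∧ h • x = x} := I.fix_sSup
    (fun x hx => by rw [hx.2]; exact le_sSup hx) fun x hx => by rw [fix_inv hx.2]; exact le_sSup hx
  have se : sSup {x | x < c ∧ h • x = x} ≤ e :=
    sSup_le fun x hx => not_lt.1 fun r => e2 x r.le hx.1 hx.2
  have hno : ∀ z, sSup {x | x < c ∧ h • x = x} < z → z < c → h • z ≠ z := fun z z1 z2 r =>
    z1.not_ge (le_sSup ⟨z2, r⟩)
  obtain ⟨m, m1, m2⟩ := exists_between (lt_min η1 ho.1)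
  have as : a < sSup {x | x < c ∧ h • x = x} := m1.trans_le
    (le_sSup ⟨m2.trans_le (min_le_right _ _), η2 m m1.le (m2.le.trans (min_le_left _ _))⟩)
  generalize sSup {x | x < c ∧ h • x = x} = s at fs se hno as
  have se' : s < e := lt_of_le_of_ne se fun r => by
    rw [← r, fs] at e3
    exact lt_irrefl _ e3
  obtain ⟨k, hk, k1⟩ := I.orb_down ho (se'.trans e1) η1
  have kc : k • c = c := ho.2.2.1 k hk
  have k2 : a < k • s := I.gt_of_fix (ho.2.1 k hk) as
  obtain ⟨d, d1, d2⟩ := H.comL k h c a kc hc ho.1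
  refine H.no_ubiq hF (t := k * h * k⁻¹) (β := h) (a := k • s) (c := c) (r0 := k • d) (s0 := η)
    (by rw [mul_smul, mul_smul, inv_smul_smul, fs])
    (by rw [mul_smul, mul_smul, fix_inv kc, hc, kc]) (fun y y1 y2 => ?_)
    (I.lt_of_fix kc (se'.trans e1)) (I.lt_of_fix kc d1) k1 (fun y y1 y2 => ?_)
    fun y y1 y2 => η2 y (k2.le.trans y1) y2
  · rw [mul_smul, mul_smul]
    exact I.inv_lt.1 (I.sign hno se' e1 e3 (I.lt_inv.2 y1) (I.lt_of_fix (fix_inv kc) y2))
  · rw [mul_smul, mul_smul, d2 _ (I.le_inv.2 y1) (I.le_of_fix (fix_inv kc) y2), smul_inv_smul]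

/-- An element that is trivial near the left end of an orbital is trivial near the right end. -/
theorem trL {K : Subgroup G} {a c : X} (ho : Orb K (a, c)) {h : G} (hh : h ∈ K)
    (h0 : TrR h a) : TrL h c := by
  refine (H.isoL h c a (ho.2.2.1 h hh) ho.1).elim id fun ⟨e, e1, e2⟩ => ?_
  exfalso
  rcases lt_or_gt_of_ne (e2 e le_rfl e1) with r | r
  · exact H.trL_aux hF ho (K.inv_mem hh) h0.inv e1
      (fun y y1 y2 k => e2 y y1 y2 (inv_smul_eq_iff.1 k).symm) (H.inc.lt_inv.2 r)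
  · exact H.trL_aux hF ho hh h0 e1 e2 r

lemma trR_aux {K : Subgroup G} {a c e : X} (ho : Orb K (a, c)) {h : G} (hh : h ∈ K)
    (h0 : TrL h c) (e1 : a < e) (e2 : ∀ y, a < y → y ≤ e → h • y ≠ y) (e3 : e < h • e) :
    False := by
  have I := H.inc
  obtain ⟨η, η1, η2⟩ := h0
  have ha : h • a = a := ho.2.1 h hh
  have hc : h • c = c := ho.2.2.1 h hh
  have fs : h • sInf {x | a < x ∧ h • x = x} = sInf {x | a < x ∧ h • x = x} := I.fix_sInf
    (fun x hx => by rw [hx.2]; exact sInf_le hx) fun x hx => by rw [fix_inv hx.2]; exact sInf_le hx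
  have se : e ≤ sInf {x | a < x ∧ h • x = x} :=
    le_sInf fun x hx => not_lt.1 fun r => e2 x hx.1 r.le hx.2
  have hno : ∀ z, a < z → z < sInf {x | a < x ∧ h • x = x} → h • z ≠ z := fun z z1 z2 r =>
    z2.not_ge (sInf_le ⟨z1, r⟩)
  obtain ⟨m, m1, m2⟩ := exists_between (max_lt η1 ho.1)
  have sc : sInf {x | a < x ∧ h • x = x} < c := lt_of_le_of_lt
    (sInf_le ⟨(le_max_right _ _).trans_lt m1, η2 m ((le_max_left _ _).trans m1.le) m2.le⟩) m2
  generalize sInf {x | a < x ∧ h • x = x} = s at fs se hno sc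
  have se' : e < s := lt_of_le_of_ne se fun r => by
    rw [r, fs] at e3
    exact lt_irrefl _ e3
  obtain ⟨k, hk, k1⟩ := I.orb_up ho (e1.trans se') η1
  have ka : k • a = a := ho.2.1 k hk
  have kc : k • c = c := ho.2.2.1 k hk
  have k2 : k • s < c := I.lt_of_fix kc sc
  obtain ⟨d, d1, d2⟩ := H.comR k h a c ka ha ho.1
  have pos : ∀ y, a < y → y < k • s → y < (k * h * k⁻¹) • y := fun y y1 y2 => by
    rw [mul_smul, mul_smul]
    exact I.inv_lt.1 (I.sign hno e1 se' e3 (I.gt_of_fix (fix_inv ka) y1) (I.inv_lt.2 y2))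
  have ts : (k * h * k⁻¹) • k • s = k • s := by rw [mul_smul, mul_smul, inv_smul_smul, fs]
  have ks : a < k • s := I.gt_of_fix ka (e1.trans se')
  refine H.no_ubiq hF (t := k * h * k⁻¹) (β := h⁻¹ * (k * h * k⁻¹)) (a := a) (c := k • s)
    (r0 := max η (k • e)) (s0 := k • d)
    (by rw [mul_smul, mul_smul, fix_inv ka, ha, ka]) ts pos ks
    (max_lt k1 (I _ _ _ se')) (I.gt_of_fix ka d1) (fun y y1 y2 => ?_)
    fun y y1 y2 => ?_
  · have y3 : η ≤ y := (le_max_left _ _).trans y1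
    have y4 : a < y := (I.gt_of_fix ka e1).trans_le ((le_max_right _ _).trans y1)
    have y5 : y ≤ (k * h * k⁻¹) • y := by
      rcases y2.eq_or_lt with r | r
      · rw [r, ts]
      · exact (pos y y4 r).le
    rw [mul_smul]
    exact fix_inv (η2 _ (y3.trans y5) ((I.le_of_fix ts y2).trans k2.le))
  · rw [mul_smul, mul_smul, mul_smul, d2 _ (I.ge_of_fix (fix_inv ka) y1) (I.inv_le.2 y2),
      smul_inv_smul, inv_smul_smul]

/-- An element that is trivial near the right end of an orbital is trivial near the left end. -/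
theorem trR {K : Subgroup G} {a c : X} (ho : Orb K (a, c)) {h : G} (hh : h ∈ K)
    (h0 : TrL h c) : TrR h a := by
  refine (H.isoR h a c (ho.2.1 h hh) ho.1).elim id fun ⟨e, e1, e2⟩ => ?_
  exfalso
  rcases lt_or_gt_of_ne (e2 e e1 le_rfl) with r | r
  · exact H.trR_aux hF ho (K.inv_mem hh) h0.inv e1
      (fun y y1 y2 k => e2 y y1 y2 (inv_smul_eq_iff.1 k).symm) (H.inc.lt_inv.2 r)
  · exact H.trR_aux hF ho hh h0 e1 e2 r

/-- No orbital has, near its left end, elements that start to move at almost every place. -/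
theorem not_loc {K : Subgroup G} {q r e s : X} (ho : Orb K (q, r)) (e1 : q < e)
    (hl : ∀ x y, q < x → x < y → y < e →
      ∃ k ∈ K, (∀ z, q ≤ z → z ≤ x → k • z = z) ∧ k • y ≠ y)
    {κ : G} (hκ : κ ∈ K) (s1 : q < s) (s2 : s < r) (κ1 : ∀ z, q ≤ z → z ≤ s → κ • z = z)
    (κ2 : Mv κ s) : False := by
  have I := H.inc
  have o2 : Orb (K ⊓ MulAction.stabilizer G s) (s, r) := by
    refine ⟨s2, fun g hg => hg.2, fun g hg => ho.2.2.1 g hg.1, fun y y1 y2 hy => ?_⟩
    obtain ⟨m, hm, m1⟩ := I.orb_down ho y2 e1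
    have mq : m • q = q := ho.2.1 m hm
    obtain ⟨k, hk, k1, k2⟩ := hl (m • s) (m • y) (I.gt_of_fix mq s1) (I _ _ _ y1) m1
    refine k2 ?_
    have := hy (m⁻¹ * k * m) ⟨K.mul_mem (K.mul_mem (K.inv_mem hm) hk) hm, by
      change _ • s = s
      rw [mul_smul, mul_smul, k1 _ (I.ge_of_fix mq s1.le) le_rfl, inv_smul_smul]⟩
    rwa [mul_smul, mul_smul, inv_smul_eq_iff] at this
  exact (H.trR hF o2 ⟨hκ, κ1 s s1.le le_rfl⟩ (H.trL hF ho hκ ⟨s, s1, κ1⟩)).not_mv κ2

end PLA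

end Pool.Agent.Lib.MP_24b811_al.Fp
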