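import Pool.Agent.Lib.MP_24b811_al.TcPot
import Pool.Agent.Lib.MP_24b811_al.GcCut

/-!
# Coordinates on the universal cover that depend on an orientation of the edges
-/

set_option autoImplicit false

namespace Pool.Agent.Lib.MP_24b811_al.Tc

open List Gc Fr

universe u v

open Classical in
/-- The map of a move from `p` letters to `q` letters, forward or backward. -/
noncomputable def wv (b : Prop) (p q n : ℕ) : Equiv.Perm ℝ :=
  if b then fw (p - 1) (q - 1) n else (fw (q - 1) (p - 1) n)⁻¹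

lemma wv_mem (b : Prop) (p q n : ℕ) : wv b p q n ∈ PL := by
  unfold wv
  split_ifs
  exacts [fw_mem _ _ _, PL.inv_mem (fw_mem _ _ _)]

lemma wv_lo (b : Prop) (p q : ℕ) {n : ℕ} {t : ℝ} (h : t ≤ n) : wv b p q n t = t := by
  unfold wv
  split_ifs
  exacts [fw_lo _ _ h, Equiv.Perm.inv_eq_iff_eq.2 (fw_lo _ _ h).symm]

lemma wv_hi (b : Prop) {p q n : ℕ} (hp : p ≠ 0) (hq : q ≠ 0) {t : ℝ} (h : (n : ℝ) + p ≤ t) :
    wv b p q n t = t - p + q := by
  obtain ⟨p, rfl⟩ := Nat.exists_eq_succ_of_ne_zero hp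
  obtain ⟨q, rfl⟩ := Nat.exists_eq_succ_of_ne_zero hq
  unfold wv
  push_cast at h ⊢
  split_ifs
  · rw [fw_hi _ _ (by linarith)]
    ring
  · rw [Equiv.Perm.inv_eq_iff_eq, fw_hi _ _ (by linarith)]
    ring

lemma wv_shift (b : Prop) (p q n k : ℕ) (t : ℝ) : wv b p q (n + k) (t + k) = wv b p q n t + k := by
  unfold wv
  split_ifs
  · exact fw_shift _ _ _ _ _
  · rw [Equiv.Perm.inv_eq_iff_eq, fw_shift]
    simp

lemma wv_sq (b b' : Prop) {p q : ℕ} (hp : p ≠ 0) (hq : q ≠ 0) (p' q' n k : ℕ) :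
    wv b' p' q' (n + q + k) * wv b p q n = wv b p q n * wv b' p' q' (n + p + k) := by
  ext t
  have hk : (0 : ℝ) ≤ k := k.cast_nonneg
  simp only [Equiv.Perm.mul_apply]
  rcases le_total t (n + p + k : ℕ) with h | h
  · rw [wv_lo b' _ _ h, wv_lo b']
    have h1 := (wv_mem b p q n).1.monotone h
    rw [wv_hi b hp hq (t := (n + p + k : ℕ)) (by push_cast; linarith)] at h1
    push_cast at h1 ⊢
    linarith
  · have h1 := (wv_mem b' p' q' (n + p + k)).1.monotone h
    rw [wv_lo b' _ _ le_rfl] at h1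
    have h2 := wv_shift b' p' q' (n + k) p (t - p)
    have h3 := wv_shift b' p' q' (n + k) q (t - p)
    rw [add_right_comm n k, sub_add_cancel] at h2
    rw [add_right_comm n k] at h3
    push_cast at h h1
    rw [wv_hi b hp hq (by linarith), wv_hi b hp hq (by linarith), h2, h3]
    ring

variable {S M : Type u} {R : Sys S M} {G : Type v} [Group G]

/-- The number of letters that a move removes. -/
abbrev ln (R : Sys S M) (m : M) : ℕ := (R.src m).length

lemma ln_ne (m : M) : ln R m ≠ 0 := fun h => R.src_ne m (length_eq_zero_iff.1 h)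

variable (C : Cover R G)

/-- The move applies. -/
def Ed (y : C.X.Z) (n : ℕ) (m : M) : Prop :=
  ∃ a b, C.X.wd y = a ++ R.src m ++ b ∧ a.length = n

/-- Invariant orientations of the edges that are constant along squares. -/
structure Orn (o : C.X.Z → ℕ → M → Prop) : Prop where
  smul : ∀ (g : G) {y n m}, Ed C y n m → (o (g • y) n m ↔ o y n m)
  flip : ∀ {y n m}, Ed C y n m → (o (C.X.ext y (n, m)) n (R.inv m) ↔ ¬ o y n m)
  sq : ∀ {y a b c m m'}, C.X.wd y = a ++ R.src m ++ b ++ R.src m' ++ c →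
    (o (C.X.ext y (a.length, m)) (a.length + ln R (R.inv m) + b.length) m' ↔
      o y (a.length + ln R m + b.length) m') ∧
    (o (C.X.ext y (a.length + ln R m + b.length, m')) a.length m ↔ o y a.length m)

/-- Coordinates. -/
structure Crd (o : C.X.Z → ℕ → M → Prop) where
  π : C.X.Z → Equiv.Perm ℝ
  φ : G →* Equiv.Perm ℝ
  mem : ∀ y, π y ∈ PL
  smul : ∀ (g : G) y, π (g • y) = φ g * π y
  zero : ∀ y, π y 0 = 0
  one : ∀ y, π y (C.X.wd y).length = 1
  step : ∀ {y n m}, Ed C y n m →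
    π (C.X.ext y (n, m)) = π y * (wv (o y n m) (ln R m) (ln R (R.inv m)) n)⁻¹

variable {C} {o : C.X.Z → ℕ → M → Prop}

variable (o) in
/-- The map of a path. -/
noncomputable def wt : C.X.Z → Path M → Equiv.Perm ℝ
  | _, [] => 1
  | y, e :: p => (wv (o y e.1 e.2) (ln R e.2) (ln R (R.inv e.2)) e.1)⁻¹ * wt (C.X.ext y e) p

/-- States with a map form a Squier set. -/
noncomputable def big (ho : Orn C o) : SqSet R where
  Z := C.X.Z × Equiv.Perm ℝ
  ok _ := True
  wd z := C.X.wd z.1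
  ext z e := (C.X.ext z.1 e, z.2 * (wv (o z.1 e.1 e.2) (ln R e.2) (ln R (R.inv e.2)) e.1)⁻¹)
  ok_ext _ _ := trivial
  wd_ext := fun _ h => C.X.wd_ext (C.ok _) h
  cancel := fun {z a b m} _ h => by
    refine Prod.ext (C.X.cancel (C.ok _) h) ?_
    have := ho.flip ⟨a, b, h, rfl⟩
    dsimp only
    rw [R.inv_inv, mul_assoc, ← mul_inv_rev, wv, wv]
    by_cases h1 : o z.1 a.length m
    · rw [if_pos h1, if_neg (fun h2 => this.1 h2 h1)]
      simp
    · rw [if_neg h1, if_pos (this.2 h1)]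
      simp
  square := fun {z a b c m m'} _ h => by
    refine Prod.ext (C.X.square (C.ok _) h) ?_
    dsimp only
    rw [mul_assoc, mul_assoc, ← mul_inv_rev, ← mul_inv_rev, (ho.sq h).1, (ho.sq h).2,
      wv_sq _ _ (ln_ne m) (ln_ne _)]

lemma big_run (ho : Orn C o) (p : Path M) (y : C.X.Z) (f : Equiv.Perm ℝ) :
    (big ho).run (y, f) p = (C.X.run y p, f * wt o y p) := by
  induction p generalizing y f with
  | nil => exact Prod.ext rfl (mul_one f).symm
  | cons e p ih => exact (ih _ _).trans (by rw [wt, mul_assoc]; rfl)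

lemma wt_append (y : C.X.Z) (p q : Path M) :
    wt o y (p ++ q) = wt o y p * wt o (C.X.run y p) q := by
  induction p generalizing y with
  | nil => simp [wt]
  | cons e p ih => rw [cons_append, wt, wt, ih, mul_assoc]; rfl

lemma wt_eq (ho : Orn C o) {y : C.X.Z} {p p' : Path M} {w w' : List S}
    (h : Valid R (C.X.wd y) p w) (h' : Valid R (C.X.wd y) p' w')
    (e : C.X.run y p = C.X.run y p') : wt o y p = wt o y p' := by
  have := C.univ h h' e (big ho) (y, 1) trivial rfl
  rw [big_run, big_run, one_mul, one_mul] at this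
  exact congrArg Prod.snd this

lemma wt_prop (ho : Orn C o) {p : Path M} {w w' : List S} (h : Valid R w p w') {y : C.X.Z}
    (hy : C.X.wd y = w) : wt o y p ∈ PL ∧ wt o y p 0 = 0 ∧ wt o y p w'.length = w.length ∧
      ∀ g : G, wt o (g • y) p = wt o y p := by
  induction h generalizing y with
  | nil w => exact ⟨PL.one_mem, rfl, rfl, fun _ => rfl⟩
  | cons a b m hw he _ ih =>
    subst hw he
    obtain ⟨k1, k2, k3, k4⟩ := ih (C.X.wd_ext (C.ok y) hy)
    refine ⟨PL.mul_mem (PL.inv_mem (wv_mem _ _ _ _)) k1, ?_, ?_, fun g => ?_⟩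
    · rw [wt, Equiv.Perm.mul_apply, k2, Equiv.Perm.inv_eq_iff_eq, wv_lo _ _ _ (by positivity)]
    · rw [wt, Equiv.Perm.mul_apply, k3, Equiv.Perm.inv_eq_iff_eq,
        wv_hi _ (ln_ne _) (ln_ne _) (by simp)]
      simp
      ring
    · rw [wt, wt, ho.smul g ⟨a, b, hy, rfl⟩, ← k4 g]
      congr 2
      exact (C.run_act g (z := y) (hy ▸ Valid.single a b m)).symm

theorem exists_crd (ho : Orn C o) (z : C.X.Z) (hz : C.X.wd z ≠ []) : Nonempty (Crd C o) := by
  obtain ⟨n, hn⟩ := Nat.exists_eq_succ_of_ne_zero (length_pos_iff.2 hz).ne'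
  let π : C.X.Z → Equiv.Perm ℝ := fun y => (yy n 0)⁻¹ * wt o z (C.conn z y).choose
  have hv := fun y => (C.conn z y).choose_spec
  have hr : ∀ {y p w}, Valid R (C.X.wd y) p w → π (C.X.run y p) = π y * wt o y p := by
    intro y p w h
    have h1 := wt_append (o := o) z (C.conn z y).choose p
    rw [(hv y).2] at h1
    simp only [π]
    rw [mul_assoc, ← h1, wt_eq ho (hv _).1 ((hv y).1.append h)]
    rw [(hv _).2, C.X.run_append, (hv _).2]
  have hs : ∀ (g : G) y, π (g • y) = π (g • z) * (π z)⁻¹ * π y := fun g y => by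
    have h1 := hr (hv y).1
    have h2 := hr (y := g • z) (by rw [C.wd_act]; exact (hv y).1)
    rw [← C.run_act g (hv y).1, (wt_prop ho (hv y).1 rfl).2.2.2] at h2
    rw [(hv y).2] at h1 h2
    rw [h2, h1]
    group
  refine ⟨⟨π, MonoidHom.mk' (fun g => π (g • z) * (π z)⁻¹) fun g h => ?_, fun y => ?_, hs,
    fun y => ?_, fun y => ?_, fun {y n m} h => ?_⟩⟩
  · rw [mul_smul, hs g (h • z)]
    group
  · exact PL.mul_mem (PL.inv_mem (yy_mem _ _)) (wt_prop ho (hv y).1 rfl).1
  · simp only [π]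
    rw [Equiv.Perm.mul_apply, (wt_prop ho (hv y).1 rfl).2.1, Equiv.Perm.inv_eq_iff_eq,
      yy_1 n (by simp)]
  · simp only [π]
    rw [Equiv.Perm.mul_apply, (wt_prop ho (hv y).1 rfl).2.2.1, Equiv.Perm.inv_eq_iff_eq,
      yy_3 n (by simp), hn]
    push_cast
    ring
  · obtain ⟨a, b, h1, rfl⟩ := h
    exact (hr (h1 ▸ Valid.single a b m)).trans (by rw [wt, wt, mul_one])

end Pool.Agent.Lib.MP_24b811_al.Tc
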