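import Pool.Agent.Lib.MP_24b811_al.TcOri

/-!
# No halfspace has a conflict on both sides
-/

set_option autoImplicit false

namespace Pool.Agent.Lib.MP_24b811_al.Tc

universe u v

variable {G : Type v} [Group G] {X : Type u} [MulAction G X]

/-- A family of halfspaces with a real coordinate for their left ends. -/
structure Ends (F : Set (Set X)) (phi : G →* Equiv.Perm ℝ) (Lo : ℝ → Set X → Prop) : Prop where
  smul : ∀ h ∈ F, ∀ g : G, {x | g • x ∈ h} ∈ F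
  compl : ∀ h ∈ F, hᶜ ∈ F
  ne : ∀ h ∈ F, h.Nonempty
  fin : ∀ x x' : X, {h | h ∈ F ∧ ¬ (x ∈ h ↔ x' ∈ h)}.Finite
  ri : ∀ h ∈ F, ∀ (g : G) (p : ℕ), 0 < p → (∀ x, g ^ p • x ∈ h ↔ x ∈ h) → ∀ x, g • x ∈ h ↔ x ∈ h
  mono : ∀ g, StrictMono (phi g)
  germ : ∀ (u v : G) (e : ℝ), phi u e = e → phi v e = e →
    ∃ d, e < d ∧ ∀ t, e ≤ t → t ≤ d → (phi u * phi v * (phi u)⁻¹ * (phi v)⁻¹) t = t
  ex : ∀ h ∈ F, ∃ a, Lo a h
  nonneg : ∀ h ∈ F, ∀ a, Lo a h → 0 ≤ a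
  uniq : ∀ h ∈ F, ∀ a b, Lo a h → Lo b h → a = b
  act : ∀ h ∈ F, ∀ (g : G) (a : ℝ), Lo (phi g a) h → Lo a {x | g • x ∈ h}
  nc : ∀ h ∈ F, ∀ h' ∈ F, ∀ a, Lo a h → Lo a h' → ∀ z w, z ∉ h → z ∉ h' → w ∈ h → w ∈ h' →
    h ⊆ h' ∨ h' ⊆ h

variable {F : Set (Set X)} {phi : G →* Equiv.Perm ℝ} {Lo : ℝ → Set X → Prop}

/-- If `g` maps a halfspace strictly into itself, every point enters it. -/
lemma evt (hs : ∀ h ∈ F, ∀ g : G, {x | g • x ∈ h} ∈ F)
    (hf : ∀ x x' : X, {h | h ∈ F ∧ ¬ (x ∈ h ↔ x' ∈ h)}.Finite) {j : Set X} (hj : j ∈ F) {g : G}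
    (h1 : ∀ x ∈ j, g • x ∈ j) (h2 : ∃ y, y ∉ j ∧ g • y ∈ j) (x : X) :
    ∃ N : ℕ, ∀ n : ℕ, N ≤ n → g ^ n • x ∈ j := by
  have hm : ∀ (n : ℕ), ∀ z ∈ j, g ^ n • z ∈ j := fun n => by
    induction n with
    | zero => simp
    | succ n ih => intro z hz; rw [pow_succ', mul_smul]; exact h1 _ (ih z hz)
  obtain ⟨y, y1, y2⟩ := h2
  by_cases h3 : ∃ n : ℕ, g ^ n • x ∈ j
  · obtain ⟨N, hN⟩ := h3
    refine ⟨N, fun n hn => ?_⟩
    obtain ⟨k, rfl⟩ := Nat.exists_eq_add_of_le' hn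
    rw [pow_add, mul_smul]
    exact hm k _ hN
  exfalso
  push Not at h3
  obtain ⟨a, -, b, -, hab, h4⟩ := (Set.infinite_univ (α := ℕ)).exists_lt_map_eq_of_mapsTo
    (f := fun n : ℕ => {z | g ^ n • z ∈ j}) (t := {h | h ∈ F ∧ ¬ (x ∈ h ↔ g • y ∈ h)})
    (fun n _ => ⟨hs j hj _, fun h => h3 n (h.2 (hm n _ y2))⟩) (hf x (g • y))
  obtain ⟨k, rfl⟩ := Nat.exists_eq_add_of_lt hab
  have h5 := Set.ext_iff.1 h4 ((g ^ a)⁻¹ • y)
  simp only [Set.mem_ofPred_eq, smul_inv_smul] at h5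
  refine y1 (h5.2 ?_)
  rw [show g ^ (a + k + 1) = g ^ k * g * g ^ a by rw [← pow_succ, ← pow_add]; congr 1; omega,
    mul_smul, mul_smul, smul_inv_smul]
  exact hm k _ y2

/-- An element that fixes the left end of a halfspace does not move it off itself. -/
lemma Ends.conf (E : Ends F phi Lo) (hG : NoF2 G) {j : Set X} (hj : j ∈ F) {a : ℝ} (ha : Lo a j)
    {g k : G} (hg : phi g a = a) (h1 : ∀ x ∈ j, g • x ∉ j) (h3 : ∀ x ∉ j, k • x ∈ j) : False := by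
  obtain ⟨y, hy⟩ := E.ne j hj
  by_cases h2 : ∀ x ∈ j, g • g • x ∉ j
  · exact pp hG ⟨y, hy⟩ h1 h2 h3
  push Not at h2
  obtain ⟨w, w1, w2⟩ := h2
  have key : ∀ g : G, (∀ x ∈ j, g • x ∉ j) → (∀ x ∈ j, g • g • x ∈ j) → False := by
    intro g h1 h4
    by_cases h5 : ∃ y, y ∉ j ∧ (g * g) • y ∈ j
    · obtain ⟨N, hN⟩ := evt E.smul E.fin hj (g := g * g) (by simpa [mul_smul] using h4) h5 y
      obtain ⟨N', hN'⟩ := evt E.smul E.fin hj (g := g * g) (by simpa [mul_smul] using h4) h5 (g • y)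
      refine h1 _ (hN (max N N') (le_max_left _ _)) ?_
      have h6 := hN' (max N N') (le_max_right _ _)
      rwa [← mul_smul, ((Commute.refl g).mul_left (Commute.refl g)).pow_left _ |>.eq,
        mul_smul] at h6
    · push Not at h5
      have h6 := E.ri j hj g 2 two_pos fun x => by
        rw [pow_two]
        exact ⟨fun h => by_contra fun h' => h5 x h' h, fun h => by simpa [mul_smul] using h4 x h⟩
      exact h1 y hy ((h6 y).2 hy)
  have hg2 : Lo a {x | (g * g) • x ∈ j} := E.act j hj _ a (by simpa [hg] using ha)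
  have h1' : ∀ x ∈ j, g⁻¹ • x ∉ j := fun x hx h => h1 _ h (by simpa using hx)
  rcases E.nc j hj _ (E.smul j hj (g * g)) a ha hg2 (g⁻¹ • y) w (h1' y hy)
    (by simpa [mul_smul] using h1 y hy) w1 (by simpa [mul_smul] using w2) with h4 | h4
  · exact key g h1 fun x hx => by simpa [mul_smul] using h4 hx
  · exact key g⁻¹ h1' fun x hx => h4 (by simpa [mul_smul] using hx)

/-- No halfspace has a conflict on both sides. -/
theorem Ends.gnc (E : Ends F phi Lo) (hG : NoF2 G) {h : Set X} (hh : h ∈ F) (u v : G)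
    (hu : ∀ x ∉ h, u • x ∈ h) (hv : ∀ x ∈ h, v • x ∉ h) : False := by
  have hu' : ∀ x ∉ h, u⁻¹ • x ∈ h := fun x hx => by_contra fun h1 => hx (by simpa using hu _ h1)
  have hv' : ∀ x ∈ h, v⁻¹ • x ∉ h := fun x hx h1 => hv _ h1 (by simpa using hx)
  obtain ⟨s, hs⟩ := E.ex h hh
  have lo : ∀ W : G, Lo (phi W s) {x | W⁻¹ • x ∈ h} := fun W =>
    E.act h hh W⁻¹ _ (by simpa using hs)
  set A : Set ℝ := {a | ∃ W : G, (∀ x ∈ h, W • x ∈ h) ∧ phi W s = a} with hA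
  have A0 : A.Nonempty := ⟨s, 1, by simp, by simp⟩
  have Ab : BddBelow A := ⟨0, by
    rintro a ⟨W, -, rfl⟩
    exact E.nonneg _ (E.smul h hh _) _ (lo W)⟩
  have hk : ∀ W : G, ∀ x ∉ {x | W⁻¹ • x ∈ h}, (W * u * W⁻¹) • x ∈ {x | W⁻¹ • x ∈ h} :=
    fun W x hx => by simpa [mul_smul] using hu _ hx
  have sub : ∀ W : G, (∀ x ∈ h, W • x ∈ h) → ∀ x ∈ {x | W⁻¹ • x ∈ h}, x ∈ h :=
    fun W hW x hx => by simpa using hW _ hx
  have nofix : ∀ a ∈ A, phi v a ≠ a := by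
    rintro a ⟨W, hW, rfl⟩ h1
    exact E.conf hG (E.smul h hh W⁻¹) (lo W) h1
      (fun x hx h2 => hv x (sub W hW x hx) (sub W hW _ h2)) (hk W)
  set e := sInf A with he
  have up : ∀ W : G, (∀ x ∈ h, W • x ∈ h) → phi W⁻¹ e ≤ e := fun W hW => by
    refine le_csInf A0 ?_
    rintro a ⟨W', hW', rfl⟩
    have h1 : e ≤ phi (W * W') s :=
      csInf_le Ab ⟨W * W', fun x hx => by rw [mul_smul]; exact hW _ (hW' x hx), rfl⟩
    simpa using (E.mono W⁻¹).monotone h1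
  have up2 : ∀ u v : G, (∀ x ∉ h, u • x ∈ h) → (∀ x ∈ h, v • x ∉ h) → phi u⁻¹ e ≤ phi v e :=
    fun u v hu hv => by
      have h1 := up (u * v) fun x hx => by rw [mul_smul]; exact hu _ (hv x hx)
      simpa using (E.mono v).monotone h1
  have dich : ∀ g : G, (phi g e ≤ e ∧ e ≤ phi g⁻¹ e) ∨ (e ≤ phi g e ∧ phi g⁻¹ e ≤ e) := fun g => by
    rcases le_total (phi g e) e with h1 | h1
    · exact Or.inl ⟨h1, by simpa using (E.mono g⁻¹).monotone h1⟩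
    · exact Or.inr ⟨h1, by simpa using (E.mono g⁻¹).monotone h1⟩
  have both : ∀ g : G, phi g⁻¹ e = e → phi g e = e := fun g h1 => by
    have := congrArg (phi g) h1
    simpa using this.symm
  have a1 := up2 u v hu hv
  have a2 := up2 u v⁻¹ hu hv'
  have a3 := up2 u⁻¹ v hu' hv
  have a4 := up2 u⁻¹ v⁻¹ hu' hv'
  rw [inv_inv] at a3 a4
  have fu : phi u e = e := by
    rcases dich u with ⟨b1, b2⟩ | ⟨b1, b2⟩ <;> rcases dich v with ⟨c1, c2⟩ | ⟨c1, c2⟩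
    exacts [both u (by linarith), both u (by linarith), by linarith, by linarith]
  have fv : phi v e = e := by
    rcases dich u with ⟨b1, b2⟩ | ⟨b1, b2⟩ <;> rcases dich v with ⟨c1, c2⟩ | ⟨c1, c2⟩
    exacts [by linarith, both v (by linarith), by linarith, both v (by linarith)]
  have eA : e ∉ A := fun h1 => nofix e h1 fv
  obtain ⟨d, hd, hgerm⟩ := E.germ u v e fu fv
  obtain ⟨γ, hγ⟩ : ∃ γ : G, γ = u * v * u⁻¹ * v⁻¹ := ⟨_, rfl⟩
  have g0 : ∀ t, e ≤ t → t ≤ d → phi γ t = t := fun t h1 h2 => by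
    simpa [hγ] using hgerm t h1 h2
  have g1 : ∀ x ∈ h, γ • x ∈ h := fun x hx => by
    simp only [hγ, mul_smul]
    exact hu _ (hv _ (hu' _ (hv' x hx)))
  have g2 : ∃ y ∈ h, γ⁻¹ • y ∉ h := by
    by_contra h1
    push Not at h1
    have h2 : ∀ y ∈ h, u⁻¹ • y ∉ h := fun y hy h3 => by
      have h4 := h1 y hy
      simp only [hγ, mul_inv_rev, inv_inv, mul_smul] at h4
      have h5 := hv' _ h4
      rw [inv_smul_smul] at h5
      exact h5 (hu _ (hv' _ h3))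
    have h3 : ∀ x, u⁻¹ • x ∈ h ↔ x ∉ h := fun x => ⟨fun a b => h2 x b a, hu' x⟩
    have h4 := E.ri h hh u⁻¹ 2 two_pos fun x => by rw [pow_two, mul_smul, h3, h3, not_not]
    obtain ⟨y, hy⟩ := E.ne h hh
    exact h2 y hy ((h4 y).2 hy)
  have g3 : ∀ x, ∃ N : ℕ, ∀ n : ℕ, N ≤ n → γ⁻¹ ^ n • x ∉ h := fun x => by
    obtain ⟨y, y1, y2⟩ := g2
    exact evt E.smul E.fin (E.compl h hh) (g := γ⁻¹)
      (fun x hx h1 => hx (by simpa using g1 _ h1)) ⟨y, fun h1 => h1 y1, y2⟩ x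
  obtain ⟨z, hz⟩ := E.ne _ (E.compl h hh)
  have B0 : {a | ∃ j ∈ {h | h ∈ F ∧ ¬ (z ∈ h ↔ γ • z ∈ h)}, Lo a j}.Finite := by
    refine ((E.fin z (γ • z)).biUnion (t := fun j => {a | Lo a j}) fun j hj => ?_).subset
      fun a ⟨j, h1, h2⟩ => Set.mem_biUnion h1 h2
    exact Set.Subsingleton.finite fun a ha b hb => E.uniq j hj.1 a b ha hb
  have B1 : A ∩ Set.Iic d ⊆ {a | ∃ j ∈ {h | h ∈ F ∧ ¬ (z ∈ h ↔ γ • z ∈ h)}, Lo a j} := by
    rintro a ⟨ha, had⟩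
    have ga : phi γ a = a := g0 a (csInf_le Ab ha) had
    obtain ⟨W, hW, rfl⟩ := ha
    have hj := E.smul h hh W⁻¹
    have l1 := lo W
    have s1 := sub W hW
    have k1 := hk W
    generalize {x | W⁻¹ • x ∈ h} = j at hj l1 s1 k1
    generalize phi W s = a at ga l1 ⊢
    have ga' : ∀ n : ℤ, phi (γ ^ n) a = a := fun n => by
      rw [map_zpow]
      exact Equiv.Perm.zpow_apply_eq_self_of_apply_eq_self ga n
    have l2 : ∀ n : ℤ, Lo a {x | γ ^ n • x ∈ j} := fun n => E.act j hj _ a (by rwa [ga'])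
    have out : ¬ ∀ x ∈ j, γ⁻¹ • x ∈ j := fun h1 => by
      obtain ⟨y, hy⟩ := E.ne j hj
      obtain ⟨N, hN⟩ := g3 y
      refine hN N le_rfl (s1 _ ?_)
      clear hN
      induction N with
      | zero => simpa using hy
      | succ n ih => rw [pow_succ', mul_smul]; exact h1 _ ih
    have j1 : ∀ x ∈ j, γ • x ∈ j := by
      by_cases h1 : ∀ x ∈ j, γ • x ∉ j
      · exact (E.conf hG hj l1 ga h1 k1).elim
      push Not at h1
      obtain ⟨w, w1, w2⟩ := h1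
      rcases E.nc j hj _ (E.smul j hj (γ ^ (-1 : ℤ))) a l1 (l2 (-1)) z (γ • w)
        (fun h1 => hz (s1 _ h1))
        (fun h1 => hz (by simpa using g1 _ (s1 _ h1))) w2 (by simpa using w1) with h2 | h2
      · exact (out fun x hx => by simpa using h2 hx).elim
      · exact fun x hx => h2 (by simpa using hx)
    push Not at out
    obtain ⟨y, y1, y2⟩ := out
    obtain ⟨N, hN⟩ := evt E.smul E.fin hj j1 ⟨_, y2, by simpa using y1⟩ z
    have hex : ∃ n : ℕ, γ ^ n • z ∈ j := ⟨N, hN N le_rfl⟩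
    classical
    have h0 : Nat.find hex ≠ 0 := fun h1 => by
      have := Nat.find_spec hex
      rw [h1] at this
      exact hz (s1 _ (by simpa using this))
    obtain ⟨m, hm⟩ := Nat.exists_eq_succ_of_ne_zero h0
    have m1 : γ ^ m • z ∉ j := Nat.find_min hex (by omega)
    have m2 : γ ^ (m + 1) • z ∈ j := by
      have := Nat.find_spec hex
      rwa [hm] at this
    refine ⟨_, ⟨E.smul j hj (γ ^ (m : ℤ)), fun h1 => m1 ?_⟩, l2 m⟩
    simpa using h1.2 (by simpa [← mul_smul, ← pow_succ] using m2)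
  have B2 : (A ∩ Set.Iic d).Nonempty := by
    obtain ⟨a, a1, a2⟩ := exists_lt_of_csInf_lt A0 hd
    exact ⟨a, a1, a2.le⟩
  obtain ⟨a, ⟨a1, a2⟩, a3⟩ := Set.exists_min_image _ id (B0.subset B1) B2
  refine eA ((le_antisymm (csInf_le Ab a1) (le_csInf A0 fun b hb => ?_) : e = a) ▸ a1)
  rcases le_total b d with h1 | h1
  exacts [a3 b ⟨hb, h1⟩, le_trans a2 h1]

end Pool.Agent.Lib.MP_24b811_al.Tc
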