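import Pool.Agent.Lib.MP_24b811_al.TcMain
import Pool.Agent.Lib.MP_24b811_al.TcGnc

/-!
# A diagram group with no free subgroup of rank two is a closed subgroup of F
-/

set_option autoImplicit false

namespace Pool.Agent.Lib.MP_24b811_al.Tc

open Gc Gc.Cover Fr

universe u v

variable {S M : Type u} {R : Sys S M} {G : Type v} [Group G] {C : Cover R G}
  {o : C.X.Z → ℕ → M → Prop}

lemma Crd.ends (K : Crd C o) (z : C.X.Z) : Ends {h | C.Half h} K.φ K.Lf where
  smul _ hh g := Half.smul hh g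
  compl _ hh := Half.compl hh
  ne _ hh := by
    obtain ⟨y, n, m, h1, rfl⟩ := half_ed hh
    exact ⟨_, h1.not_mem.2⟩
  fin := finite_sep
  ri _ hh _ _ hp H := ri K hh hp H
  mono g := (K.φ_mem z g).1
  germ u v _ h1 h2 := comm_germ (K.φ_mem z u) (K.φ_mem z v) h1 h2
  ex _ hh := by
    obtain ⟨y, n, m, h1, rfl⟩ := half_ed hh
    exact ⟨_, y, n, m, h1, rfl, rfl⟩
  nonneg := by
    rintro _ - _ ⟨y, n, m, -, -, rfl⟩
    exact (K.zero y).ge.trans ((K.mono y).monotone n.cast_nonneg)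
  uniq _ _ _ _ := Crd.Lf.uniq
  act _ _ _ _ := Crd.Lf.smul
  nc _ _ _ _ _ H H' _ _ := Crd.nc H.cov H'.cov

theorem exists_closed (C : Cover R G) (z : C.X.Z) (hz : C.X.wd z ≠ []) (hG : NoF2 G) :
    ∃ ρ : G →* ThompsonF, Function.Injective ρ ∧ Closed ρ.range := by
  obtain ⟨K⟩ := exists_crd (orn_zero C) z hz
  obtain ⟨O, h1, h2, h3⟩ := ori (G := G) {h | C.Half h} fun _ hh => (K.ends z).gnc hG hh
  exact Con.closed ⟨h1, h2, h3⟩ z hz

theorem closed_of_equiv {P : SemigroupPresentation S} {w : SqVertex P}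
    (e : G ≃* DiagramGroup P w) (hG : NoF2 G) :
    ∃ ρ : G →* ThompsonF, Function.Injective ρ ∧ Closed ρ.range :=
  exists_closed (cover e) ⟨w, CategoryTheory.CategoryStruct.id _⟩ w.2 hG

end Pool.Agent.Lib.MP_24b811_al.Tc
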