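import Pool.Agent.Lib.MP_24b811_al.TcRI
import Pool.Agent.Lib.MP_24b811_al.FrClosed

/-!
# A consistent invariant orientation gives a closed subgroup of F
-/

set_option autoImplicit false

namespace Pool.Agent.Lib.MP_24b811_al.Tc

open List Gc Gc.Cover Fr

universe u v

variable {S M : Type u} {R : Sys S M} {G : Type v} [Group G] {C : Cover R G}
  {o : C.X.Z → ℕ → M → Prop} {x y y' : C.X.Z} {n i j : ℕ} {m : M} {g : G}

lemma orn_zero (C : Cover R G) : Orn C fun _ _ m => WellOrderingRel m (R.inv m) where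
  smul _ _ _ _ _ := Iff.rfl
  flip := fun {_ _ m} _ => by
    rw [R.inv_inv]
    exact ⟨fun h h' => asymm h h', fun h =>
      ((trichotomous_of WellOrderingRel m (R.inv m)).resolve_left h).resolve_left (R.inv_ne m).symm⟩
  sq _ := ⟨Iff.rfl, Iff.rfl⟩

lemma half_sq {a b c : List S} {m' : M} (h : C.X.wd y = a ++ R.src m ++ b ++ R.src m' ++ c) :
    half (C.X.ext y (a.length, m)) (a.length + ln R (R.inv m) + b.length, m') =
      half y (a.length + ln R m + b.length, m') ∧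
    half (C.X.ext y (a.length + ln R m + b.length, m')) (a.length, m) = half y (a.length, m) := by
  obtain ⟨A', T', D, h1, h3, h4', rfl⟩ := lab_split ((lab_L y y).trans h)
  obtain ⟨A, T, B, rfl, rfl, h4, rfl⟩ := lab_split h3
  have h2 : C.L y y = A ++ T ++ (B ++ T' ++ D) := by simp [h1]
  obtain ⟨a1, -, -, a2⟩ := new_step h2 h4 (not_undo h2)
  obtain ⟨b1, -, -, b2⟩ := new_step h1 h4' (not_undo h1)
  have c1 := (new_step (A := A ++ bot R (T, m) ++ B) (B := D) (a1.trans (by simp)) h4'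
    (not_undo h1)).2.2.2
  have c2 := (new_step (A := A) (B := B ++ bot R (T', m') ++ D) (b1.trans (by simp)) h4
    (not_undo h2)).2.2.2
  simp only [length_append, len_bot, len_lab h4, length_map] at c1 c2 b2 ⊢
  exact ⟨c1.trans b2.symm, c2.trans a2.symm⟩

variable (C) in
/-- Consistent invariant orientations of the halfspaces. -/
structure Con (O : Set (Set C.X.Z)) : Prop where
  smul : ∀ h ∈ O, ∀ g : G, {x | g • x ∈ h} ∈ O
  meet : ∀ h ∈ O, ∀ h' ∈ O, ∃ x, x ∈ h ∧ x ∈ h'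
  tot : ∀ h, C.Half h → h ∈ O ∨ hᶜ ∈ O

variable {O : Set (Set C.X.Z)}

lemma Con.orn (hO : Con C O) : Orn C fun y n m => half y (n, m) ∈ O where
  smul g y n m h := by
    refine ⟨fun h1 => ?_, fun h1 => ?_⟩
    · simpa [(h.smul g).half_smul] using hO.smul _ h1 g
    · simpa [h.half_smul] using hO.smul _ h1 g⁻¹
  flip h := by
    rw [h.compl]
    exact ⟨fun h1 h2 => (hO.meet _ h1 _ h2).elim fun _ k => k.1 k.2,
      (hO.tot _ h.isHalf).resolve_left⟩
  sq h := by rw [(half_sq h).1, (half_sq h).2]; exact ⟨Iff.rfl, Iff.rfl⟩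

lemma Ed.pq (h : Ed C y n m) (hj : j ≤ n) : C.PQ y j (C.X.ext y (n, m)) := by
  obtain ⟨a, b, h1, rfl⟩ := h
  exact PQ.mono ⟨a, R.src m ++ b, _, [(0, m)], by simp [h1], rfl,
    by simpa using Valid.single (R := R) [] b m, rfl⟩ hj

lemma Ed.pl (h : Ed C y n m) {k : ℕ} (hk : n + ln R m + k ≤ (C.X.wd y).length) :
    C.PL y (n + ln R m + k) (C.X.ext y (n, m)) (n + ln R (R.inv m) + k) := by
  obtain ⟨a, b, h1, rfl⟩ := h
  have : k ≤ b.length := by
    simp only [h1, length_append, ln] at hk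
    omega
  exact ⟨_, b.drop k, _, _, by rw [append_assoc _ (b.take k), take_append_drop, h1],
    by simp [this, add_assoc], by simp [this, add_assoc], Valid.single a (b.take k) m, rfl⟩

lemma pot_wv (b : Prop) {p q : ℕ} (hp : p ≠ 0) (hq : q ≠ 0) {r : ℝ} (hr : IsDyadic r)
    (h1 : (n : ℝ) < r) (h2 : r < n + p) :
    (b → pot r < pot (wv b p q n r)) ∧ (¬ b → pot (wv b p q n r) < pot r) := by
  have k0 := wv_mem b p q n
  have k1 := k0.1 h1
  have k2 := k0.1 h2
  have k3 := (k0.2.1 r).2 hr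
  rw [wv_lo _ _ _ le_rfl] at k1
  rw [wv_hi _ hp hq le_rfl] at k2
  obtain ⟨p, rfl⟩ := Nat.exists_eq_succ_of_ne_zero hp
  obtain ⟨q, rfl⟩ := Nat.exists_eq_succ_of_ne_zero hq
  push_cast at h2 k2
  refine ⟨fun hb => ?_, fun hb => ?_⟩
  · rw [wv, if_pos hb]
    exact pot_fw _ _ hr h1 (by simpa [add_assoc] using h2)
  · rw [wv, if_neg hb] at k1 k2 k3 ⊢
    simpa using pot_fw q p k3 k1 (k2.trans_eq (by ring))

namespace Crd

variable (K : Crd C o)

lemma pq (h : C.PQ y i y') {t : ℝ} (ht : t ≤ i) : K.π y' t = K.π y t := by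
  obtain ⟨u, q, q', r, h1, rfl, h4, rfl⟩ := h
  induction h4 generalizing y with
  | nil => rfl
  | cons a b m hw he _ ih =>
    subst hw he
    have h2 : C.X.wd y = u ++ a ++ R.src m ++ b := by simp [h1]
    have h3 := C.X.wd_ext (C.ok y) h2
    rw [length_append] at h3
    rw [shift_cons, SqSet.run_cons, ih (h3.trans (by simp)),
      K.lo ⟨u ++ a, b, h2, by simp⟩ (ht.trans (by simp))]

lemma pl (h : C.PL y i y' j) {t : ℝ} (ht : 0 ≤ t) : K.π y' (j + t) = K.π y (i + t) := by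
  obtain ⟨u, q, u', r, h1, rfl, rfl, h4, rfl⟩ := h
  induction h4 generalizing y with
  | nil => rfl
  | cons a b m hw he _ ih =>
    subst hw he
    have h2 : C.X.wd y = a ++ R.src m ++ (b ++ q) := by simp [h1]
    rw [SqSet.run_cons, ih ((C.X.wd_ext (C.ok y) h2).trans (by simp))]
    simpa [add_assoc] using K.hi ⟨a, _, h2, rfl⟩ (t := b.length + t) (by positivity)

variable {K}

lemma coh (hO : Con C O) (ar : C.AR x g) {a : ℝ} (ha : K.φ g a = a) {h h' : Set C.X.Z}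
    (H : K.Cov a h) (H' : K.Cov a h') (h1 : x ∉ h) (h2 : g • x ∈ h) (h3 : x ∉ h')
    (h4 : g • x ∈ h') (h5 : h ∈ O) : h' ∈ O := by
  refine (hO.tot _ H'.isHalf).resolve_right fun h6 => ?_
  have a1 : K.Cov a {y | g⁻¹ • y ∈ h} := Cov.smul (by
    rwa [map_inv, Equiv.Perm.inv_eq_iff_eq.2 ha.symm])
  have a2 : g⁻¹ • x ∉ h := fun k => h1 (by
    simpa [k] using ar.conv H.isHalf (a := -1) (b := 0) (c := 1) (by omega) (by omega)
      (by simp [k, h2]))
  have a3 : g • g • x ∈ h' := by_contra fun k => h3 (by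
    simpa [h4] using ar.conv H'.isHalf (a := 0) (b := 1) (c := 2) (by omega) (by omega)
      (by rw [zpow_two]; simp [k, h3, mul_smul]))
  rcases nc a1 H' a2 h3 (w := g • g • x) (by simpa using h2) a3 with k | k
  · obtain ⟨y, y1, y2⟩ := hO.meet _ (hO.smul _ h5 g⁻¹) _ h6
    exact y2 (k y1)
  · exact h1 (by simpa using k h4)

/-- No move on a creation path covers the point. -/
lemma split {θ : ℝ} (h0 : 0 ≤ θ) (h1 : θ < 1) (hd : IsDyadic (i + θ))
    (hi : i ≤ (C.X.wd x).length) (ha : K.φ g (K.π x (i + θ)) = K.π x (i + θ)) (b : Prop)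
    (hb : ∀ y n m, Ed C y n m → K.Cov (K.π x (i + θ)) (half y (n, m)) → x ∉ half y (n, m) →
      g • x ∈ half y (n, m) → (o y n m ↔ b)) :
    C.Spl x i (g • x) i ∧ (∀ t, 0 ≤ t → t ≤ θ → K.π (g • x) (i + t) = K.π x (i + t)) ∧
      (0 < θ → (C.L x (g • x))[i]? = (C.L x x)[i]?) := by
  classical
  let σ : ℤ := if b then 1 else -1
  have key := cre_ind (P := fun y => ∀ r, K.π y r = K.π x (i + θ) →
      σ * pot (i + θ) < σ * pot r ∨ (pot r = pot (i + θ) ∧ ∃ j : ℕ, C.Spl x i y j ∧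
        (∀ t, 0 ≤ t → t ≤ θ → K.π y (j + t) = K.π x (i + t)) ∧
        (0 < θ → (C.L x y)[j]? = (C.L x x)[i]?))) x (g • x)
    (fun r hr => Or.inr ⟨by rw [(K.π x).injective hr], i, ⟨x, PL.refl hi, PQ.refl hi⟩,
      fun _ _ _ => rfl, fun _ => rfl⟩) fun y A T B m e1 e2 e3 e4 ih r' hr' => ?_
  · rcases key _ ((K.smul' _ _ _).trans ha) with k | ⟨-, j, k1, k2, k3⟩
    · exact absurd k (lt_irrefl _)
    · obtain rfl : j = i := by
        have := (K.π _).injective ((k2 θ h0 le_rfl).trans ((K.smul' _ _ _).trans ha).symm)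
        exact_mod_cast add_right_cancel this
      exact ⟨k1, k2, k3⟩
  have ed := ed_of e1 e2
  obtain ⟨k1, -, -, k4⟩ := new_step e1 e2 e3
  obtain ⟨r, rfl⟩ := (wv (o y A.length m) (ln R m) (ln R (R.inv m)) A.length).surjective r'
  rw [K.step' ed] at hr'
  have hj : ∀ j : ℕ, (∀ t, 0 ≤ t → t ≤ θ → K.π y (j + t) = K.π x (i + t)) → r = j + θ :=
    fun j k => (K.π y).injective (hr'.trans (k θ h0 le_rfl).symm)
  rcases le_or_gt r A.length with c1 | c1
  · rw [wv_lo _ _ _ c1]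
    refine (ih r hr').imp_right fun ⟨a1, j, a2, a3, a4⟩ => ⟨a1, j, ?_, fun t t1 t2 => ?_, fun t => ?_⟩
    · have : j ≤ A.length := by
        have : (j : ℝ) ≤ A.length := by linarith [hj j a3]
        exact_mod_cast this
      exact a2.trans ⟨y, PL.refl (ed.pq this).le, ed.pq this⟩
    · rw [K.lo ed (by linarith [hj j a3]), a3 t t1 t2]
    · have : j < A.length := by
        have : (j : ℝ) < A.length := by linarith [hj j a3]
        exact_mod_cast this
      rw [← a4 t, k1, e1]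
      simp [getElem?_append_left, this]
  rcases le_or_gt ((A.length : ℝ) + ln R m) r with c2 | c2
  · have e : pot (r - ln R m + ln R (R.inv m)) = pot r := by
      rw [← pot_add r (-(ln R m) + ln R (R.inv m))]
      congr 1
      push_cast
      ring
    rw [wv_hi _ (ln_ne _) (ln_ne _) c2, e]
    refine (ih r hr').imp_right fun ⟨a1, j, a2, a3, a4⟩ => ⟨a1, ?_⟩
    obtain ⟨k, rfl⟩ : ∃ k, j = A.length + ln R m + k := Nat.exists_eq_add_of_le (by
      have : ((A.length + ln R m : ℕ) : ℝ) < (j + 1 : ℕ) := by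
        push_cast
        linarith [hj j a3]
      exact Nat.lt_succ_iff.1 (by exact_mod_cast this))
    have a5 := ed.pl a2.symm.choose_spec.1.le
    refine ⟨_, a2.trans ⟨_, a5, PQ.refl a5.symm.le⟩, fun t t1 t2 => ?_, fun t => ?_⟩
    · rw [K.pl a5 t1, a3 t t1 t2]
    · rw [← a4 t, k1, e1, ← len_bot (T, m), ← len_lab e2]
      simp [getElem?_append_right, add_assoc]
  · have c3 := hb y _ m ed ⟨y, _, m, ed, rfl, hr' ▸ (K.mono y c1).le, hr' ▸ K.mono y c2⟩
      (by simp [k4, H_self]) (by rwa [k4])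
    have c4 := pot_wv (o y A.length m) (ln_ne m) (ln_ne (R := R) (R.inv m))
      (((K.mem y).2.1 r).1 (hr' ▸ ((K.mem x).2.1 _).2 hd)) c1 c2
    have c5 : σ * pot r < σ * pot (wv (o y A.length m) (ln R m) (ln R (R.inv m)) A.length r) := by
      by_cases h : b
      · simpa [σ, h] using c4.1 (c3.2 h)
      · simpa [σ, h] using c4.2 (mt c3.1 h)
    exact Or.inl ((ih r hr').elim (fun k => k.trans c5) fun k => k.1 ▸ c5)

end Crd

lemma Con.split (hO : Con C O) (K : Crd C fun y n m => half y (n, m) ∈ O) (ar : C.AR x g) {θ : ℝ}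
    (h0 : 0 ≤ θ) (h1 : θ < 1) (hd : IsDyadic (i + θ)) (hi : i ≤ (C.X.wd x).length)
    (ha : K.φ g (K.π x (i + θ)) = K.π x (i + θ)) :
    C.Spl x i (g • x) i ∧ (∀ t, 0 ≤ t → t ≤ θ → K.π (g • x) (i + t) = K.π x (i + t)) ∧
      (0 < θ → (C.L x (g • x))[i]? = (C.L x x)[i]?) :=
  Crd.split h0 h1 hd hi ha (∃ h ∈ O, K.Cov (K.π x (i + θ)) h ∧ x ∉ h ∧ g • x ∈ h)
    fun _ _ _ _ k1 k2 k3 => ⟨fun k => ⟨_, k, k1, k2, k3⟩,
      fun ⟨_, a1, a2, a3, a4⟩ => Crd.coh hO ar ha a2 k1 a3 a4 k2 k3 a1⟩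

theorem Con.closed (hO : Con C O) (z : C.X.Z) (hz : C.X.wd z ≠ []) :
    ∃ ρ : G →* ThompsonF, Function.Injective ρ ∧ Closed ρ.range := by
  obtain ⟨K⟩ := exists_crd hO.orn z hz
  have f0 : ∀ g, K.φ g 0 = 0 := fun g => by rw [← K.zero z, ← K.smul', K.zero, K.zero]
  have f1 : ∀ g, K.φ g 1 = 1 := fun g => by
    rw [← K.one z, ← K.smul', K.one, ← C.wd_act g, K.one]
  let ρ : G →* ThompsonF := MonoidHom.mk' (fun g => toF (K.φ g) (K.φ_mem z g) (f0 g) (f1 g))
    fun f g => Subtype.ext (Homeomorph.ext fun x => Subtype.ext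
      (congrArg (fun p : Equiv.Perm ℝ => p x) (K.φ.map_mul f g)))
  have hρ : ∀ g (t : unitInterval), ((ρ g • t : unitInterval) : ℝ) = K.φ g t := fun _ _ => rfl
  refine ⟨ρ, (injective_iff_map_eq_one _).2 fun g hg => ?_, ?_⟩
  · obtain ⟨x, ar⟩ := exists_ar z g
    refine C.free g x (inj (z := x) (ext_getElem? fun i => ?_))
    rcases lt_or_ge i (C.X.wd x).length with hi | hi
    · have h1 : (i : ℝ) + 1 ≤ (C.X.wd x).length := by exact_mod_cast hi
      refine (hO.split K ar (θ := 1 / 2) (by norm_num) (by norm_num)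
        ((dy_nat i).add ⟨1, 1, by norm_num⟩) hi.le ?_).2.2 (by norm_num)
      rw [← hρ g ⟨_, (K.zero x).ge.trans ((K.mono x).monotone (by positivity)),
        ((K.mono x).monotone (by linarith)).trans (K.one x).le⟩, hg, one_smul]
    · rw [getElem?_eq_none (by rwa [length_L, C.wd_act]), getElem?_eq_none (by rwa [length_L])]
  · rintro _ ⟨g, rfl⟩ a hd ha
    obtain ⟨x, ar⟩ := exists_ar z g
    obtain ⟨r, hr⟩ := (K.π x).surjective a
    have r0 : 0 ≤ r := (K.mono x).le_iff_le.1 (by rw [K.zero, hr]; exact a.2.1)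
    have r1 : r ≤ (C.X.wd x).length := (K.mono x).le_iff_le.1 (by rw [K.one, hr]; exact a.2.2)
    have r2 := Nat.floor_le r0
    obtain ⟨k1, k2, -⟩ := hO.split K ar (i := ⌊r⌋₊) (θ := r - ⌊r⌋₊) (by linarith)
      (by linarith [Nat.lt_floor_add_one r])
      (by rw [add_sub_cancel, ← (K.mem x).2.1, hr]; exact hd) (Nat.floor_le_of_le r1)
      (by rw [add_sub_cancel, hr, ← hρ, ha])
    obtain ⟨l, q, l1, q1, rfl⟩ := k1.factor
    have l2 : ∀ s : ℝ, (⌊r⌋₊ : ℝ) ≤ s → K.φ l (K.π x s) = K.π x s := fun s hs => by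
      simpa [K.smul'] using K.pl l1 (sub_nonneg.2 hs)
    refine ⟨_, ⟨l, rfl⟩, fun y => ⟨fun hy => Subtype.ext ?_, fun hy => Subtype.ext ?_⟩⟩ <;>
      obtain ⟨s, hs⟩ := (K.π x).surjective y
    · have s1 : s ≤ r := (K.mono x).le_iff_le.1 (by rw [hs, hr]; exact hy)
      rw [hρ, hρ, ← hs]
      rcases le_total s ⌊r⌋₊ with h | h
      · rw [map_mul, Equiv.Perm.mul_apply, ← K.smul' q, K.pq q1 h]
      · rw [l2 s h, ← K.smul']
        simpa using (k2 (s - ⌊r⌋₊) (by linarith) (by linarith)).symm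
    · rw [hρ, ← hs, l2 s (r2.trans ((K.mono x).le_iff_le.1 (by rw [hs, hr]; exact hy)))]

end Pool.Agent.Lib.MP_24b811_al.Tc
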