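import Pool.Agent.Lib.MP_24b811_al.TcCrd

/-!
# Spans of halfspaces; halfspaces that cover one point do not cross
-/

set_option autoImplicit false

namespace Pool.Agent.Lib.MP_24b811_al.Tc

open List Gc Gc.Cover Fr

universe u v

variable {S M : Type u} {R : Sys S M} {G : Type v} [Group G] {C : Cover R G}
  {o : C.X.Z → ℕ → M → Prop} {z y y' w : C.X.Z} {n n' : ℕ} {m m' : M} {A T B : List (Tm S M)}

lemma ed_of (h : C.L z y = A ++ T ++ B) (h1 : lab T = R.src m) : Ed C y A.length m :=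
  ⟨lab A, lab B, by rw [← lab_L z y, h]; simp [h1], by simp⟩

lemma Ed.split (h : Ed C y n m) (z : C.X.Z) :
    ∃ A T B, C.L z y = A ++ T ++ B ∧ A.length = n ∧ lab T = R.src m := by
  obtain ⟨a, b, h1, rfl⟩ := h
  obtain ⟨A, T, B, h2, rfl, h4, rfl⟩ := lab_split ((lab_L z y).trans h1)
  exact ⟨A, T, B, h2, by simp, h4⟩

lemma Ed.isHalf (h : Ed C y n m) : C.Half (half y (n, m)) := by
  obtain ⟨a, b, h1, rfl⟩ := h
  exact ⟨y, a, m, b, h1, rfl⟩

lemma half_ed {h : Set C.X.Z} (hh : C.Half h) : ∃ y n m, Ed C y n m ∧ h = half y (n, m) := by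
  obtain ⟨y, a, m, b, h1, rfl⟩ := hh
  exact ⟨y, _, m, ⟨a, b, h1, rfl⟩, rfl⟩

lemma Ed.ext (h : Ed C y n m) : Ed C (C.X.ext y (n, m)) n (R.inv m) := by
  obtain ⟨a, b, h1, rfl⟩ := h
  exact ⟨a, b, C.X.wd_ext (C.ok y) h1, rfl⟩

lemma Ed.compl (h : Ed C y n m) : half (C.X.ext y (n, m)) (n, R.inv m) = (half y (n, m))ᶜ := by
  obtain ⟨a, b, h1, rfl⟩ := h
  exact half_compl h1

lemma Ed.smul (h : Ed C y n m) (g : G) : Ed C (g • y) n m := by
  obtain ⟨a, b, h1, rfl⟩ := h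
  exact ⟨a, b, by rw [C.wd_act, h1], rfl⟩

lemma Ed.half_smul (h : Ed C y n m) (g : G) :
    {x | g • x ∈ half y (n, m)} = half (g⁻¹ • y) (n, m) := by
  obtain ⟨a, b, h1, rfl⟩ := h
  exact Cover.half_smul g h1

lemma Ed.smul_ext (h : Ed C y n m) (g : G) : g • C.X.ext y (n, m) = C.X.ext (g • y) (n, m) := by
  obtain ⟨a, b, h1, rfl⟩ := h
  exact C.run_act g (z := y) (h1 ▸ Valid.single a b m)

lemma len_lab (h1 : lab T = R.src m) : T.length = ln R m := by rw [ln, ← h1]; simp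

lemma len_bot (c : Cell S M) : (bot R c).length = ln R (R.inv c.2) := len_lab (lab_bot c)

/-- A move that creates a cell. -/
lemma new_step (h : C.L z y = A ++ T ++ B) (h1 : lab T = R.src m) (h2 : ¬ Undo R T m) :
    C.L z (C.X.ext y (A.length, m)) = A ++ bot R (T, m) ++ B ∧
      C.H z (C.X.ext y (A.length, m)) = insert (T, m) (C.H z y) ∧ (T, m) ∉ C.H z y ∧
      half y (A.length, m) = {x | (T, m) ∈ C.H z x} := by
  have h3 := st_ext z h h1
  have h4 : (T, m) ∉ C.H z y := (h ▸ Cover.inv z y).new h1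
  rw [rw_new h2, tog_new h2, symmDiff_new h4] at h3
  refine ⟨congrArg Prod.fst h3, congrArg Prod.snd h3, h4, Set.ext fun x => ?_⟩
  rw [mem_half z h h1, tog_new h2]
  simp [h4]

lemma not_undo (h : C.L y y = A ++ T ++ B) : ¬ Undo R T m := fun hu => by
  obtain ⟨c, rfl, -⟩ := hu.eq_bot
  obtain ⟨t, ht⟩ := exists_mem_of_ne_nil _ (bot_ne (R := R) c)
  simpa [H_self] using (Cover.inv y y).mem_of_bot ht (by simp [h, ht])

lemma Ed.not_mem (h : Ed C y n m) : y ∉ half y (n, m) ∧ C.X.ext y (n, m) ∈ half y (n, m) := by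
  obtain ⟨A, T, B, h1, rfl, h2⟩ := h.split y
  obtain ⟨-, k2, k3, k4⟩ := new_step h1 h2 (not_undo h1)
  rw [k4]
  exact ⟨k3, by simp [k2]⟩

/-- Induction along a creation path. -/
lemma cre_ind {P : C.X.Z → Prop} (z w : C.X.Z) (h0 : P z)
    (hs : ∀ y A T B m, C.L z y = A ++ T ++ B → lab T = R.src m → ¬ Undo R T m →
      (T, m) ∈ C.H z w → P y → P (C.X.ext y (A.length, m))) : P w := by
  obtain ⟨q, q1, q2⟩ := cre z w
  have key : ∀ {q s K}, Cre R (base M (C.X.wd z)) q s K → K ⊆ C.H z w → P (C.X.run z q) := by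
    intro q s K h
    induction h with
    | nil => exact fun _ => h0
    | snoc A T B m e h h1 h2 ih =>
      intro hK
      have h3 := st_run (C := C) (z := z) (by simpa using h.valid)
      rw [h.run (gen_base _)] at h3
      rw [C.X.run_append]
      exact hs _ A T B m ((congrArg Prod.fst h3).trans e) h1 h2 (hK (Finset.mem_insert_self _ _))
        (ih ((Finset.subset_insert _ _).trans hK))
  exact q2 ▸ key q1 (Finset.Subset.refl _)

lemma idx_cases {α : Type u} {A U B : List α} (T : List α) {j : ℕ} {t : α}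
    (h : (A ++ U ++ B)[j]? = some t) :
    (j < A.length ∧ (A ++ T ++ B)[j]? = some t) ∨
      (A.length ≤ j ∧ j < A.length + U.length ∧ t ∈ U) ∨
      ∃ k, j = A.length + U.length + k ∧ (A ++ T ++ B)[A.length + T.length + k]? = some t := by
  rcases lt_or_ge j A.length with h1 | h1
  · rw [append_assoc, getElem?_append_left h1] at h
    exact Or.inl ⟨h1, by rw [append_assoc, getElem?_append_left h1, h]⟩
  rcases lt_or_ge j (A.length + U.length) with h2 | h2
  · rw [getElem?_append_left (by simpa using h2), getElem?_append_right h1] at h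
    exact Or.inr (Or.inl ⟨h1, h2, mem_of_getElem? h⟩)
  · obtain ⟨k, rfl⟩ := Nat.exists_eq_add_of_le h2
    rw [getElem?_append_right (by simp)] at h
    refine Or.inr (Or.inr ⟨k, rfl, ?_⟩)
    rw [getElem?_append_right (by simp)]
    simpa using h

/-- Equal halfspaces have the same move and the same letters. -/
lemma edge2 (h : Ed C y n m) (h' : Ed C y' n' m') (e : half y (n, m) = half y' (n', m')) :
    m' = m ∧ ∃ A T B A' B', C.L y y = A ++ T ++ B ∧ A.length = n ∧ lab T = R.src m ∧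
      C.L y y' = A' ++ T ++ B' ∧ A'.length = n' := by
  obtain ⟨A, T, B, h1, rfl, h2⟩ := h.split y
  obtain ⟨A', T', B', a1, rfl, a2⟩ := h'.split y
  obtain ⟨-, -, -, k4⟩ := new_step h1 h2 (not_undo h1)
  obtain ⟨b1, b2⟩ := h'.not_mem
  rw [← e, k4] at b1 b2
  have b3 : C.H y _ = _ := congrArg Prod.snd (st_ext y a1 a2)
  simp only [Set.mem_ofPred_eq, b3, Finset.mem_symmDiff, Finset.mem_singleton] at b1 b2
  have b4 : (T, m) = tog R T' m' := by tauto
  by_cases hu : Undo R T' m'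
  · obtain ⟨c, rfl, rfl⟩ := hu.eq_bot
    obtain ⟨t, ht⟩ := exists_mem_of_ne_nil _ (bot_ne (R := R) c)
    rw [tog_bot] at b4
    exact absurd (b4 ▸ (Cover.inv y y').mem_of_bot ht (by simp [a1, ht])) b1
  · rw [tog_new hu] at b4
    obtain ⟨rfl, rfl⟩ := Prod.mk.inj b4
    exact ⟨rfl, A, T, B, A', B', h1, rfl, h2, a1, rfl⟩

namespace Crd

variable (K : Crd C o)

lemma mono (y : C.X.Z) : StrictMono (K.π y) := (K.mem y).1

lemma φ_mem (z : C.X.Z) (g : G) : K.φ g ∈ PL := by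
  rw [eq_mul_inv_of_mul_eq (K.smul g z).symm]
  exact PL.mul_mem (K.mem _) (PL.inv_mem (K.mem _))

lemma smul' (g : G) (y : C.X.Z) (t : ℝ) : K.π (g • y) t = K.φ g (K.π y t) := by
  rw [K.smul]; rfl

lemma step' (h : Ed C y n m) (t : ℝ) :
    K.π (C.X.ext y (n, m)) (wv (o y n m) (ln R m) (ln R (R.inv m)) n t) = K.π y t := by
  rw [K.step h]; simp

lemma lo (h : Ed C y n m) {t : ℝ} (ht : t ≤ n) : K.π (C.X.ext y (n, m)) t = K.π y t := by
  rw [← K.step' h, wv_lo _ _ _ ht]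

lemma hi (h : Ed C y n m) {t : ℝ} (ht : 0 ≤ t) :
    K.π (C.X.ext y (n, m)) (n + ln R (R.inv m) + t) = K.π y (n + ln R m + t) := by
  rw [← K.step' h, wv_hi _ (ln_ne _) (ln_ne _) (by linarith)]
  congr 1
  ring

/-- A letter that survives keeps its position. -/
lemma pos {i j : ℕ} {t : Tm S M} (h1 : (C.L z z)[i]? = some t) (h2 : (C.L z y)[j]? = some t)
    {θ : ℝ} (h3 : 0 ≤ θ) (h4 : θ ≤ 1) : K.π y (j + θ) = K.π z (i + θ) := by
  revert j
  refine cre_ind (P := fun y => ∀ {j : ℕ}, (C.L z y)[j]? = some t →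
    K.π y (j + θ) = K.π z (i + θ)) z y (fun {j} h => ?_) fun y A T B m e1 e2 e3 _ ih j h => ?_
  · rw [(getElem?_inj (List.getElem?_eq_some_iff.1 h).1 (Cover.inv z z).nodup).1 (h.trans h1.symm)]
  · rw [(new_step e1 e2 e3).1] at h
    rcases idx_cases T h with ⟨a1, a2⟩ | ⟨-, -, a1⟩ | ⟨k, rfl, a2⟩
    · rw [K.lo (ed_of e1 e2) (by have : (j : ℝ) + 1 ≤ A.length := by exact_mod_cast a1
                                 linarith), ih (e1 ▸ a2)]
    · obtain ⟨_, _, rfl⟩ := mem_bot a1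
      obtain ⟨_, _, e⟩ := (gen_base _).2 _ (L_self z ▸ mem_of_getElem? h1)
      exact absurd e Tm.out_ne
    · rw [← ih (e1 ▸ a2), len_bot, len_lab e2]
      push_cast
      rw [add_assoc _ (k : ℝ), add_assoc _ (k : ℝ), K.hi (ed_of e1 e2) (by positivity)]

lemma span (h : Ed C y n m) (h' : Ed C y' n' m') (e : half y (n, m) = half y' (n', m')) :
    K.π y' n' = K.π y n ∧ K.π y' (n' + ln R m') = K.π y (n + ln R m) := by
  obtain ⟨rfl, A, T, B, A', B', h1, rfl, h2, h3, rfl⟩ := edge2 h h' e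
  have key : ∀ k < T.length, ∀ θ : ℝ, 0 ≤ θ → θ ≤ 1 →
      K.π y' ((A'.length + k : ℕ) + θ) = K.π y ((A.length + k : ℕ) + θ) := fun k hk θ =>
    K.pos (t := T[k]) (by simp [h1, getElem?_append_left, getElem?_append_right, hk])
      (by simp [h3, getElem?_append_left, getElem?_append_right, hk])
  obtain ⟨p, hp⟩ := Nat.exists_eq_succ_of_ne_zero (ln_ne (R := R) m')
  have h4 := len_lab h2
  refine ⟨by simpa using key 0 (by omega) 0 le_rfl zero_le_one, ?_⟩
  simpa [hp, add_assoc] using key p (by omega) 1 zero_le_one le_rfl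

/-- The span of the halfspace covers the point. -/
def Cov (a : ℝ) (h : Set C.X.Z) : Prop :=
  ∃ y n m, Ed C y n m ∧ h = half y (n, m) ∧ K.π y n ≤ a ∧ a < K.π y (n + ln R m)

/-- The left end of the span. -/
def Lf (a : ℝ) (h : Set C.X.Z) : Prop := ∃ y n m, Ed C y n m ∧ h = half y (n, m) ∧ a = K.π y n

variable {K} {a : ℝ} {h h' : Set C.X.Z}

lemma Cov.isHalf (H : K.Cov a h) : C.Half h := by
  obtain ⟨y, n, m, h1, rfl, -⟩ := H
  exact h1.isHalf

lemma Cov.compl (H : K.Cov a h) : K.Cov a hᶜ := by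
  obtain ⟨y, n, m, h1, rfl, h2, h3⟩ := H
  refine ⟨_, n, _, h1.ext, h1.compl.symm, by rwa [K.lo h1 le_rfl], ?_⟩
  have := K.hi h1 le_rfl
  rw [add_zero, add_zero] at this
  rwa [this]

lemma Cov.smul {g : G} (H : K.Cov (K.φ g a) h) : K.Cov a {x | g • x ∈ h} := by
  obtain ⟨y, n, m, h1, rfl, h2, h3⟩ := H
  have := (K.φ_mem y g⁻¹).1
  refine ⟨_, n, m, h1.smul g⁻¹, h1.half_smul g, ?_, ?_⟩
  · simpa [K.smul'] using this.monotone h2
  · simpa [K.smul'] using this h3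

lemma Cov.edge (H : K.Cov a (half y (n, m))) (h1 : Ed C y n m) :
    K.π y n ≤ a ∧ a < K.π y (n + ln R m) := by
  obtain ⟨y', n', m', a1, a2, a3⟩ := H
  obtain ⟨b1, b2⟩ := K.span h1 a1 a2
  rwa [b1, b2] at a3

lemma Lf.cov (H : K.Lf a h) : K.Cov a h := by
  obtain ⟨y, n, m, h1, rfl, rfl⟩ := H
  exact ⟨y, n, m, h1, rfl, le_rfl, K.mono y (by simpa using (ln_ne m).pos)⟩

lemma Lf.smul {g : G} (H : K.Lf (K.φ g a) h) : K.Lf a {x | g • x ∈ h} := by
  obtain ⟨y, n, m, h1, rfl, h2⟩ := H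
  exact ⟨_, n, m, h1.smul g⁻¹, h1.half_smul g, by simp [K.smul', ← h2]⟩

lemma Lf.uniq {b : ℝ} (H : K.Lf a h) (H' : K.Lf b h) : a = b := by
  obtain ⟨y, n, m, h1, rfl, rfl⟩ := H
  obtain ⟨y', n', m', a1, a2, rfl⟩ := H'
  exact (K.span h1 a1 a2).1.symm

variable (K) in
/-- The letter lies over the point. -/
def At (z y : C.X.Z) (a : ℝ) (t : Tm S M) : Prop :=
  ∃ j : ℕ, (C.L z y)[j]? = some t ∧ K.π y j ≤ a ∧ a < K.π y (j + 1)

lemma exists_at (e : C.L z y = A ++ T ++ B) (h1 : K.π y A.length ≤ a)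
    (h2 : a < K.π y (A.length + T.length)) : ∃ t ∈ T, K.At z y a t := by
  obtain ⟨r, rfl⟩ := (K.π y).surjective a
  rw [(K.mono y).le_iff_le] at h1
  rw [(K.mono y).lt_iff_lt] at h2
  have h0 : 0 ≤ r := le_trans (by positivity) h1
  obtain ⟨k, hk⟩ := Nat.exists_eq_add_of_le (Nat.le_floor h1)
  have h3 : k < T.length := by
    have := (Nat.floor_lt h0).2 (show r < (A.length + T.length : ℕ) by simpa using h2)
    omega
  exact ⟨T[k], by simp, ⌊r⌋₊, by simp [e, hk, getElem?_append_left, getElem?_append_right, h3],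
    (K.mono y).monotone (Nat.floor_le h0), K.mono y (Nat.lt_floor_add_one r)⟩

variable (R) in
/-- The letter can only occur after the cell. -/
def Ds (c : Cell S M) (t : Tm S M) : Prop :=
  ∀ s H, Inv R s H → (t ∈ s ∨ ∃ d ∈ H, t ∈ d.1) → c ∈ H

lemma ds_bot {c : Cell S M} {t : Tm S M} (ht : t ∈ bot R c) : Ds R c t := by
  rintro s H I (h | ⟨d, h, h'⟩)
  exacts [I.mem_of_bot ht h, I.anc_of_bot ht h h']

lemma thread {c : Cell S M} (H : K.Cov a {x | c ∈ C.H z x}) (y : C.X.Z) :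
    c ∈ C.H z y → ∀ t, K.At z y a t → Ds R c t := by
  refine cre_ind (P := fun y => c ∈ C.H z y → ∀ t, K.At z y a t → Ds R c t) z y
    (by simp [H_self]) fun y A T B m e1 e2 e3 _ ih hc t ⟨j, h1, h2, h3⟩ => ?_
  obtain ⟨k1, k2, -, k4⟩ := new_step e1 e2 e3
  have ed := ed_of e1 e2
  have hi := K.hi ed le_rfl
  rw [add_zero, add_zero] at hi
  rw [k1] at h1
  rw [k2, Finset.mem_insert] at hc
  have hc' : ¬ (K.π y A.length ≤ a ∧ a < K.π y (A.length + ln R m)) → c ∈ C.H z y := fun hn =>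
    hc.resolve_left fun e => hn (Cov.edge (by rwa [k4, ← e]) ed)
  rcases idx_cases T h1 with ⟨a1, a2⟩ | ⟨a1, a2, a3⟩ | ⟨k, rfl, a2⟩
  · have a3 : (j : ℝ) + 1 ≤ A.length := by exact_mod_cast a1
    rw [K.lo ed (by linarith)] at h2
    rw [K.lo ed a3] at h3
    exact ih (hc' fun hn => absurd (h3.trans_le ((K.mono y).monotone a3)) hn.1.not_gt) t
      ⟨j, e1 ▸ a2, h2, h3⟩
  · rcases hc with rfl | hc
    · exact ds_bot a3
    rw [len_bot] at a2
    obtain ⟨t0, b1, b2⟩ := exists_at (K := K) (a := a) e1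
      (by rw [← K.lo ed le_rfl]; exact ((K.mono _).monotone (by exact_mod_cast a1)).trans h2)
      (by rw [len_lab e2, ← hi]; exact h3.trans_le ((K.mono _).monotone (by exact_mod_cast a2)))
    exact fun s H' I h => ih hc t0 b2 s H' I (Or.inr ⟨_, ds_bot a3 s H' I h, b1⟩)
  · rw [len_bot] at h2 h3
    push_cast at h2 h3
    rw [K.hi ed (by positivity)] at h2
    rw [add_assoc _ (k : ℝ), K.hi ed (by positivity)] at h3
    refine ih (hc' fun hn => absurd (((K.mono y).monotone (by simp)).trans h2) hn.2.not_ge) t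
      ⟨_, e1 ▸ a2, ?_, ?_⟩ <;> rw [len_lab e2] <;> push_cast
    exacts [h2, by rwa [add_assoc _ (k : ℝ)]]

lemma cell_of (hh : C.Half h) (hz : z ∉ h) : ∃ c, h = {x | c ∈ C.H z x} := by
  obtain ⟨c, rfl | rfl⟩ := hh.cell z
  exacts [⟨c, rfl⟩, absurd (by simp [H_self]) hz]

/-- Two halfspaces that cover one point do not cross. -/
theorem nc (H : K.Cov a h) (H' : K.Cov a h') (h1 : z ∉ h) (h2 : z ∉ h') (h3 : w ∈ h)
    (h4 : w ∈ h') : h ⊆ h' ∨ h' ⊆ h := by
  obtain ⟨c, rfl⟩ := cell_of H.isHalf h1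
  obtain ⟨c', rfl⟩ := cell_of H'.isHalf h2
  have key : ∀ {c c' : Cell S M}, K.Cov a {x | c ∈ C.H z x} → K.Cov a {x | c' ∈ C.H z x} →
      ∀ {y A B}, C.L z y = A ++ c'.1 ++ B → lab c'.1 = R.src c'.2 → ¬ Undo R c'.1 c'.2 →
      c ∈ C.H z y → {x | c' ∈ C.H z x} ⊆ {x | c ∈ C.H z x} := by
    intro c c' H H' y A B e1 e2 e3 hc x hx
    obtain ⟨b1, b2⟩ := Cov.edge (K := K) (a := a) (by rwa [(new_step e1 e2 e3).2.2.2]) (ed_of e1 e2)
    obtain ⟨t0, b3, b4⟩ := exists_at e1 b1 (by rwa [len_lab e2])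
    exact thread H y hc t0 b4 _ _ (Cover.inv z x) (Or.inr ⟨_, hx, b3⟩)
  refine cre_ind (P := fun y => c ∈ C.H z y → c' ∈ C.H z y → _) z w (by simp [H_self])
    (fun y A T B m e1 e2 e3 _ ih k1 k2 => ?_) h3 h4
  rw [(new_step e1 e2 e3).2.1, Finset.mem_insert] at k1 k2
  rcases k1 with rfl | k1 <;> rcases k2 with rfl | k2
  exacts [Or.inl le_rfl, Or.inl (key H' H e1 e2 e3 k2), Or.inr (key H H' e1 e2 e3 k1), ih k1 k2]

end Crd

end Pool.Agent.Lib.MP_24b811_al.Tc
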