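import Mathlib

/-!
# Ping-pong for one set, and invariant consistent orientations
-/

set_option autoImplicit false

namespace Pool.Agent.Lib.MP_24b811_al.Tc

universe u v

variable {G : Type v} [Group G] {X : Type u} [MulAction G X]

variable (G) in
/-- The group has no free subgroup of rank two. -/
def NoF2 : Prop := ∀ f : FreeGroup Bool →* G, ¬ Function.Injective f

/-- Ping-pong. -/
theorem pp (hG : NoF2 G) {j : Set X} {g k : G} (h0 : j.Nonempty) (h1 : ∀ x ∈ j, g • x ∉ j)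
    (h2 : ∀ x ∈ j, g • g • x ∉ j) (h3 : ∀ x ∉ j, k • x ∈ j) : False := by
  let c : Bool → G := fun b => cond b g g⁻¹
  have c1 : ∀ b, ∀ x, (c b)⁻¹ • x ∈ j → x ∉ j := by
    rintro (_ | _) x hx hj
    · exact h1 x hj (by simpa [c] using hx)
    · exact h1 _ hx (by simpa [c] using hj)
  have c2 : ∀ b b', b ≠ b' → ∀ x, (c b)⁻¹ • x ∈ j → (c b')⁻¹ • x ∈ j → False := by
    rintro (_ | _) (_ | _) hb x hx hx'
    · exact hb rfl
    · exact h2 _ hx' (by simpa [c] using hx)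
    · exact h2 _ hx (by simpa [c] using hx')
    · exact hb rfl
  have hX : ∀ b x, (c b)⁻¹ • x ∉ j → (c b)⁻¹ • k⁻¹ • (k * c b * k * (c b)⁻¹) • x ∈ j :=
    fun b x hx => by simpa [mul_smul] using h3 _ hx
  have inj := FreeGroup.injective_lift_of_ping_pong
    (fun b : ULift.{v} Bool => k * c b.down * k * (c b.down)⁻¹)
    (fun b => {x : X | (c b.down)⁻¹ • k⁻¹ • x ∈ j}) (fun b => {x : X | (c b.down)⁻¹ • x ∈ j})
    (fun b => ?_) (fun b b' hb => Set.disjoint_left.2 fun x hx hx' =>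
      c2 _ _ (fun e => hb (ULift.ext _ _ e)) _ hx hx')
    (fun b b' hb => Set.disjoint_left.2 fun x hx hx' =>
      c2 _ _ (fun e => hb (ULift.ext _ _ e)) _ hx hx')
    (fun b b' => Set.disjoint_left.2 fun x hx hx' => ?_) (fun b => ?_) (fun b => ?_)
  · exact hG ((FreeGroup.lift _).comp (FreeGroup.map ULift.up))
      (inj.comp (FreeGroup.map_injective ULift.up_injective))
  · obtain ⟨x, hx⟩ := h0
    exact ⟨k • c b.down • x, by simpa using hx⟩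
  · exact c1 _ x hx' (by simpa using h3 _ (c1 _ _ hx))
  · rintro _ ⟨x, hx, rfl⟩
    exact hX _ x hx
  · rintro _ ⟨x, hx, rfl⟩
    by_contra h
    exact hx (by simpa only [Pi.inv_apply, smul_inv_smul, Set.mem_ofPred_eq] using hX _ _ h)

/-- An invariant orientation whose members meet pairwise. -/
theorem ori (F : Set (Set X))
    (hn : ∀ h ∈ F, ∀ u v : G, (∀ x ∉ h, u • x ∈ h) → (∀ x ∈ h, v • x ∉ h) → False) :
    ∃ O : Set (Set X), (∀ h ∈ O, ∀ g : G, {x | g • x ∈ h} ∈ O) ∧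
      (∀ h ∈ O, ∀ h' ∈ O, ∃ x, x ∈ h ∧ x ∈ h') ∧ ∀ h ∈ F, h ∈ O ∨ hᶜ ∈ O := by
  obtain ⟨O, hO⟩ := zorn_subset {O : Set (Set X) | (∀ h ∈ O, ∀ g : G, {x | g • x ∈ h} ∈ O) ∧
      ∀ h ∈ O, ∀ h' ∈ O, ∃ x, x ∈ h ∧ x ∈ h'} fun c hc hch =>
    ⟨⋃₀ c, ⟨fun h ⟨O, hO, hh⟩ g => ⟨O, hO, (hc hO).1 h hh g⟩, fun h ⟨O, hO, hh⟩ h' ⟨O', hO', hh'⟩ =>
      (hch.total hO hO').elim (fun e => (hc hO').2 h (e hh) h' hh')
        fun e => (hc hO).2 h hh h' (e hh')⟩, fun s hs => Set.subset_sUnion_of_mem hs⟩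
  obtain ⟨hi, hm⟩ := hO.prop
  have key : ∀ h : Set X, h ∉ O → (∃ v : G, ∀ x ∈ h, v • x ∉ h) ∨ ∃ o ∈ O, ∀ x ∈ o, x ∉ h := by
    intro h hh
    by_contra hc
    push Not at hc
    obtain ⟨ha, hb⟩ := hc
    have mix : ∀ o ∈ O, ∀ g : G, ∃ x, x ∈ o ∧ g • x ∈ h := fun o ho g => by
      obtain ⟨x, hx, hx'⟩ := hb _ (hi o ho g⁻¹)
      exact ⟨g⁻¹ • x, hx, by simpa using hx'⟩
    refine hh (hO.le_of_ge (y := O ∪ Set.range fun g : G => {x | g • x ∈ h}) ⟨?_, ?_⟩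
      Set.subset_union_left (Or.inr ⟨1, by simp⟩))
    · rintro o (ho | ⟨g, rfl⟩) g'
      · exact Or.inl (hi o ho g')
      · exact Or.inr ⟨g * g', by simp [mul_smul]⟩
    · rintro o (ho | ⟨g, rfl⟩) o' (ho' | ⟨g', rfl⟩)
      · exact hm o ho o' ho'
      · exact mix o ho g'
      · obtain ⟨x, h1, h2⟩ := mix o' ho' g
        exact ⟨x, h2, h1⟩
      · obtain ⟨x, h1, h2⟩ := ha (g' * g⁻¹)
        exact ⟨g⁻¹ • x, by simpa using h1, by simpa [mul_smul] using h2⟩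
  refine ⟨O, hi, hm, fun h hF => ?_⟩
  by_contra hc
  push Not at hc
  rcases key h hc.1 with ⟨v, hv⟩ | ⟨o, ho, hv⟩ <;> rcases key hᶜ hc.2 with ⟨u, hu⟩ | ⟨o', ho', hu⟩
  · exact hn h hF u v (fun x hx => not_not.1 (hu x hx)) hv
  · obtain ⟨x, h1, h2⟩ := hm o' ho' _ (hi o' ho' v)
    exact hu _ h2 (hv x (not_not.1 (hu x h1)))
  · obtain ⟨x, h1, h2⟩ := hm o ho _ (hi o ho u)
    exact hu x (hv x h1) (hv _ h2)
  · obtain ⟨x, h1, h2⟩ := hm o ho o' ho'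
    exact hu x h2 (hv x h1)

end Pool.Agent.Lib.MP_24b811_al.Tc
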