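import Pool.Agent.Lib.MP_24b811_al.FrLine

/-!
# The maps of oriented moves and their potential
-/

set_option autoImplicit false

namespace Pool.Agent.Lib.MP_24b811_al.Tc

open Fr

lemma mu_left (n : ℝ) : Function.LeftInverse
    (fun t : ℝ => min t (max ((t + 3 * n) / 4) (max (t - 9 / 16) (4 * t - 3 * (n + 1)))))
    (fun t : ℝ => max t (min (4 * t - 3 * n) (min (t + 9 / 16) (t / 4 + 3 / 4 * (n + 1))))) := by
  intro t
  beta_reduce
  rcases le_total t n with h | h
  · rw [max_eq_left (min_le_of_left_le (by linarith)),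
      min_eq_left (le_max_of_le_left (by linarith))]
  rcases le_total t (n + 3 / 16) with h1 | h1
  · rw [min_eq_left (le_min (by linarith) (by linarith)), max_eq_right (by linarith),
      max_eq_left (max_le (by linarith) (by linarith)), min_eq_right (by linarith)]
    ring
  rcases le_total t (n + 1 / 4) with h2 | h2
  · rw [min_eq_left (a := t + 9 / 16) (by linarith), min_eq_right (b := t + 9 / 16) (by linarith),
      max_eq_right (a := t) (by linarith), max_eq_left (a := t + 9 / 16 - 9 / 16) (by linarith),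
      max_eq_right (by linarith), min_eq_right (by linarith)]
    ring
  rcases le_total t (n + 1) with h3 | h3
  · rw [min_eq_right (a := t + 9 / 16) (by linarith), min_eq_right (a := 4 * t - 3 * n) (by linarith),
      max_eq_right (a := t) (by linarith), ← max_assoc,
      max_eq_right (max_le (by linarith) (by linarith)), min_eq_right (by linarith)]
    ring
  · rw [max_eq_left (min_le_of_right_le (min_le_of_right_le (by linarith))),
      min_eq_left (le_max_of_le_right (le_max_of_le_right (by linarith)))]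

/-- A bump on the interval from `n` to `n + 1`. -/
noncomputable def mu (n : ℕ) : Equiv.Perm ℝ where
  toFun t := max t (min (4 * t - 3 * n) (min (t + 9 / 16) (t / 4 + 3 / 4 * (n + 1))))
  invFun t := min t (max ((t + 3 * n) / 4) (max (t - 9 / 16) (4 * t - 3 * (n + 1))))
  left_inv := mu_left n
  right_inv := (mu_left n).rightInverse_of_injective (StrictMono.injective fun s t h =>
    min_lt_min h (max_lt_max (by linarith) (max_lt_max (by linarith) (by linarith))))

/-- The map of a forward move from `p + 1` letters to `q + 1` letters at the position `n`. -/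
noncomputable def fw (p q n : ℕ) : Equiv.Perm ℝ :=
  (xe n * mu n) ^ q * mu n * (mu n * (xe n)⁻¹) ^ p

open Classical in
/-- The depth of a dyadic number. -/
noncomputable def dep (r : ℝ) : ℕ :=
  if h : ∃ k : ℕ, ∃ z : ℤ, 2 ^ k * r = z then Nat.find h else 0

/-- The potential. -/
noncomputable def pot (r : ℝ) : ℤ := if Int.fract r < 1 / 2 then -(dep r : ℤ) else dep r

lemma mu_def (n : ℕ) (t : ℝ) :
    mu n t = max t (min (4 * t - 3 * n) (min (t + 9 / 16) (t / 4 + 3 / 4 * (n + 1)))) := rfl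

lemma xe_inv (n : ℕ) (t : ℝ) : (xe n)⁻¹ t = min t (max ((t + n) / 2) (t - 1)) := rfl

lemma mu_1 {n : ℕ} {t : ℝ} (h : t ≤ n) : mu n t = t := by
  simp only [mu_def, max_def, min_def]
  split_ifs <;> linarith

lemma mu_2 {n : ℕ} {t : ℝ} (h : (n : ℝ) ≤ t) (h' : t ≤ n + 3 / 16) : mu n t = 4 * t - 3 * n := by
  simp only [mu_def, max_def, min_def]
  split_ifs <;> linarith

lemma mu_3 {n : ℕ} {t : ℝ} (h : (n : ℝ) + 3 / 16 ≤ t) (h' : t ≤ n + 1 / 4) :
    mu n t = t + 9 / 16 := by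
  simp only [mu_def, max_def, min_def]
  split_ifs <;> linarith

lemma mu_4 {n : ℕ} {t : ℝ} (h : (n : ℝ) + 1 / 4 ≤ t) (h' : t ≤ n + 1) :
    mu n t = t / 4 + 3 / 4 * (n + 1) := by
  simp only [mu_def, max_def, min_def]
  split_ifs <;> linarith

lemma mu_5 {n : ℕ} {t : ℝ} (h : (n : ℝ) + 1 ≤ t) : mu n t = t := by
  simp only [mu_def, max_def, min_def]
  split_ifs <;> linarith

lemma xi_1 {n : ℕ} {t : ℝ} (h : t ≤ n) : (xe n)⁻¹ t = t := by
  simp only [xe_inv, max_def, min_def]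
  split_ifs <;> linarith

lemma xi_2 {n : ℕ} {t : ℝ} (h : (n : ℝ) ≤ t) (h' : t ≤ n + 2) : (xe n)⁻¹ t = (t + n) / 2 := by
  simp only [xe_inv, max_def, min_def]
  split_ifs <;> linarith

lemma xi_3 {n : ℕ} {t : ℝ} (h : (n : ℝ) + 2 ≤ t) : (xe n)⁻¹ t = t - 1 := by
  simp only [xe_inv, max_def, min_def]
  split_ifs <;> linarith

lemma mu_mem (n : ℕ) : mu n ∈ PL := by
  classical
  have d1 : IsDyadic (3 / 16) := ⟨3, 4, by norm_num⟩
  have d2 : IsDyadic (1 / 4) := ⟨1, 2, by norm_num⟩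
  have d3 : IsDyadic (9 / 16) := ⟨9, 4, by norm_num⟩
  have d4 : IsDyadic (-(3 * n : ℝ)) := ⟨-(3 * n), 0, by simp⟩
  have d5 : IsDyadic (3 / 4 * (n + 1 : ℝ)) := ⟨3 * (n + 1), 2, by push_cast; ring⟩
  have e2 : (2 : ℝ) ^ (2 : ℤ) = 4 := by norm_num
  have e3 : (2 : ℝ) ^ (-2 : ℤ) = 1 / 4 := by norm_num
  refine ⟨fun s t h => ?_, fun t => ?_,
    {(n : ℝ), (n : ℝ) + 3 / 16, (n : ℝ) + 1 / 4, (n : ℝ) + 1}, ?_, ?_⟩
  · simp only [mu_def, max_def, min_def]
    split_ifs <;> linarith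
  · rcases le_total t n with h | h
    · rw [mu_1 h]
    rcases le_total t (n + 3 / 16) with h1 | h1
    · rw [mu_2 h h1, ← Gc.dy_iff (x := t) 2 d4, e2, sub_eq_add_neg]
    rcases le_total t (n + 1 / 4) with h2 | h2
    · rw [mu_3 h1 h2, ← Gc.dy_iff (x := t) 0 d3, zpow_zero, one_mul]
    rcases le_total t (n + 1) with h3 | h3
    · rw [mu_4 h2 h3, ← Gc.dy_iff (x := t) (-2) d5, e3, show 1 / 4 * t = t / 4 by ring]
    · rw [mu_5 h3]
  · intro b hb
    simp only [Finset.mem_insert, Finset.mem_singleton] at hb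
    rcases hb with rfl | rfl | rfl | rfl
    exacts [dy_nat n, (dy_nat n).add d1, (dy_nat n).add d2, (dy_nat n).add dy_one]
  · intro x y hxy hB
    have k1 := hB n (by simp)
    have k2 := hB (n + 3 / 16) (by simp)
    have k3 := hB (n + 1 / 4) (by simp)
    have k4 := hB (n + 1) (by simp)
    simp only [not_and_or, not_lt] at k1 k2 k3 k4
    rcases k1 with k1 | k1
    swap
    · exact ⟨0, fun z r1 r2 => by rw [mu_1 (t := x) (by linarith), mu_1 (by linarith)]; simp⟩
    rcases k2 with k2 | k2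
    swap
    · refine ⟨2, fun z r1 r2 => ?_⟩
      rw [mu_2 k1 (by linarith), mu_2 (k1.trans r1) (by linarith), e2]
      ring
    rcases k3 with k3 | k3
    swap
    · refine ⟨0, fun z r1 r2 => ?_⟩
      rw [mu_3 k2 (by linarith), mu_3 (k2.trans r1) (by linarith), zpow_zero]
      ring
    rcases k4 with k4 | k4
    · exact ⟨0, fun z r1 r2 => by rw [mu_5 k4, mu_5 (k4.trans r1)]; simp⟩
    · refine ⟨-2, fun z r1 r2 => ?_⟩
      rw [mu_4 k3 (by linarith), mu_4 (k3.trans r1) (by linarith), e3]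
      ring

lemma up_mem (n : ℕ) : xe n * mu n ∈ PL := PL.mul_mem (xe_mem n) (mu_mem n)

lemma dn_mem (n : ℕ) : mu n * (xe n)⁻¹ ∈ PL := PL.mul_mem (mu_mem n) (PL.inv_mem (xe_mem n))

lemma up_hi (q : ℕ) {n : ℕ} {t : ℝ} (h : (n : ℝ) + 1 ≤ t) : ((xe n * mu n) ^ q) t = t + q := by
  induction q generalizing t with
  | zero => simp
  | succ q ih =>
    rw [pow_succ, Equiv.Perm.mul_apply, Equiv.Perm.mul_apply, mu_5 h, xe_3 h, ih (by linarith)]
    push_cast
    ring

lemma dn_hi (p : ℕ) {n : ℕ} {t : ℝ} (h : (n : ℝ) + p + 1 ≤ t) :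
    ((mu n * (xe n)⁻¹) ^ p) t = t - p := by
  induction p generalizing t with
  | zero => simp
  | succ p ih =>
    push_cast at h
    have hp : (0 : ℝ) ≤ p := Nat.cast_nonneg p
    rw [pow_succ, Equiv.Perm.mul_apply, Equiv.Perm.mul_apply, xi_3 (by linarith),
      mu_5 (by linarith), ih (by linarith)]
    push_cast
    ring

lemma dn_lo (p : ℕ) {n : ℕ} {t : ℝ} (h : t ≤ n) : ((mu n * (xe n)⁻¹) ^ p) t = t :=
  Equiv.Perm.pow_apply_eq_self_of_apply_eq_self
    (by rw [Equiv.Perm.mul_apply, xi_1 h, mu_1 h]) p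

lemma pow_shift {a b : Equiv.Perm ℝ} {k : ℝ} (h : ∀ t, a (t + k) = b t + k) (m : ℕ) (t : ℝ) :
    (a ^ m) (t + k) = (b ^ m) t + k := by
  induction m generalizing t with
  | zero => rfl
  | succ m ih => rw [pow_succ, pow_succ, Equiv.Perm.mul_apply, Equiv.Perm.mul_apply, h, ih]

lemma dep_add (r : ℝ) (z : ℤ) : dep (r + z) = dep r := by
  classical
  have e : ∀ k : ℕ, (∃ w : ℤ, 2 ^ k * (r + z) = w) ↔ ∃ w : ℤ, 2 ^ k * r = w := fun k =>
    ⟨fun ⟨w, hw⟩ => ⟨w - 2 ^ k * z, by push_cast; linarith⟩,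
      fun ⟨w, hw⟩ => ⟨w + 2 ^ k * z, by push_cast; linarith⟩⟩
  unfold dep
  simp only [e]

lemma dep_lt {r s : ℝ} (hr : IsDyadic r) {m : ℤ} (h1 : (m : ℝ) < r) (h2 : r < m + 1) (k : ℕ)
    (z : ℤ) (hs : s = 2 ^ (k + 1) * r + z) : dep s < dep r := by
  classical
  obtain ⟨a, b, hab⟩ := hr
  have h : ∃ k : ℕ, ∃ z : ℤ, 2 ^ k * r = z := ⟨b, a, by rw [hab]; field_simp⟩
  obtain ⟨w, hw⟩ := Nat.find_spec h
  have h0 : Nat.find h ≠ 0 := fun e => by
    rw [e, pow_zero, one_mul] at hw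
    rw [hw] at h1 h2
    have a1 : m < w := by exact_mod_cast h1
    have a2 : w < m + 1 := by exact_mod_cast h2
    omega
  obtain ⟨d, hd⟩ := Nat.exists_eq_succ_of_ne_zero h0
  have h3 : ∃ y : ℤ, 2 ^ d * s = y := ⟨2 ^ k * w + 2 ^ d * z, by
    push_cast
    rw [hs, ← hw, hd, pow_succ, pow_succ]
    ring⟩
  unfold dep
  rw [dif_pos h, dif_pos ⟨d, h3⟩, hd]
  exact Nat.lt_succ_of_le (Nat.find_min' _ h3)

lemma pot_le (r : ℝ) : pot r ≤ dep r := by
  unfold pot
  split_ifs <;> omega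

lemma le_pot (r : ℝ) : -(dep r : ℤ) ≤ pot r := by
  unfold pot
  split_ifs <;> omega

lemma pot_lo {r : ℝ} (m : ℤ) (h1 : (m : ℝ) ≤ r) (h2 : r < m + 1 / 2) : pot r = -(dep r : ℤ) := by
  have : Int.fract r = r - m := Int.fract_eq_iff.2 ⟨by linarith, by linarith, m, by ring⟩
  rw [pot, if_pos (by linarith)]

lemma pot_hi {r : ℝ} (m : ℤ) (h1 : (m : ℝ) + 1 / 2 ≤ r) (h2 : r < m + 1) : pot r = dep r := by
  have : Int.fract r = r - m := Int.fract_eq_iff.2 ⟨by linarith, by linarith, m, by ring⟩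
  rw [pot, if_neg (by linarith)]

lemma pot_A {r s : ℝ} (hr : IsDyadic r) (m : ℤ) (h1 : (m : ℝ) < r) (h2 : r < m + 1 / 2) (k : ℕ)
    (z : ℤ) (hs : s = 2 ^ (k + 1) * r + z) : pot r < pot s := by
  have a1 := dep_lt hr h1 (by linarith) k z hs
  have a2 := le_pot s
  rw [pot_lo m h1.le h2]
  omega

lemma pot_B {r s : ℝ} (hr : IsDyadic r) (m m' : ℤ) (h1 : (m : ℝ) < r) (h2 : r < m + 1 / 2)
    (h3 : (m' : ℝ) + 1 / 2 ≤ s) (h4 : s < m' + 1) : pot r < pot s := by
  have a1 := dep_lt hr h1 (by linarith) 0 0 rfl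
  rw [pot_lo m h1.le h2, pot_hi m' h3 h4]
  omega

lemma pot_C {r s : ℝ} (hs : IsDyadic s) (m : ℤ) (h1 : (m : ℝ) + 1 / 2 ≤ s) (h2 : s < m + 1)
    (k : ℕ) (z : ℤ) (hr : r = 2 ^ (k + 1) * s + z) : pot r < pot s := by
  have a1 := dep_lt hs (m := m) (by linarith) h2 k z hr
  have a2 := pot_le r
  rw [pot_hi m h1 h2]
  omega

theorem fw_mem (p q n : ℕ) : fw p q n ∈ PL := by
  exact PL.mul_mem (PL.mul_mem (PL.pow_mem (up_mem n) q) (mu_mem n)) (PL.pow_mem (dn_mem n) p)

theorem fw_lo (p q : ℕ) {n : ℕ} {t : ℝ} (h : t ≤ n) : fw p q n t = t := by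
  rw [fw, Equiv.Perm.mul_apply, Equiv.Perm.mul_apply, dn_lo p h, mu_1 h]
  exact Equiv.Perm.pow_apply_eq_self_of_apply_eq_self
    (by rw [Equiv.Perm.mul_apply, mu_1 h, xe_1 h]) q

theorem fw_hi (p q : ℕ) {n : ℕ} {t : ℝ} (h : (n : ℝ) + p + 1 ≤ t) : fw p q n t = t - p + q := by
  rw [fw, Equiv.Perm.mul_apply, Equiv.Perm.mul_apply, dn_hi p h, mu_5 (by linarith),
    up_hi q (by linarith)]

theorem fw_shift (p q n k : ℕ) (t : ℝ) : fw p q (n + k) (t + k) = fw p q n t + k := by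
  have a1 : ∀ t : ℝ, mu (n + k) (t + k) = mu n t + k := fun t => by
    simp only [mu_def, max_def, min_def, Nat.cast_add]
    split_ifs <;> linarith
  have a2 : ∀ t : ℝ, xe (n + k) (t + k) = xe n t + k := fun t => by
    simp only [xe_def, max_def, min_def, Nat.cast_add]
    split_ifs <;> linarith
  have a3 : ∀ t : ℝ, (xe (n + k))⁻¹ (t + k) = (xe n)⁻¹ t + k := fun t => by
    simp only [xe_inv, max_def, min_def, Nat.cast_add]
    split_ifs <;> linarith
  simp only [fw, Equiv.Perm.mul_apply]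
  rw [pow_shift (b := mu n * (xe n)⁻¹) (fun t => by simp only [Equiv.Perm.mul_apply, a1, a3]), a1,
    pow_shift (b := xe n * mu n) (fun t => by simp only [Equiv.Perm.mul_apply, a1, a2])]

theorem pot_add (r : ℝ) (z : ℤ) : pot (r + z) = pot r := by
  rw [pot, pot, Int.fract_add_intCast, dep_add]

lemma pot_mu {n : ℕ} {r : ℝ} (hr : IsDyadic r) (h1 : (n : ℝ) < r) (h2 : r < n + 1) :
    pot r < pot (mu n r) := by
  have hs := ((mu_mem n).2.1 r).2 hr
  rcases le_total r (n + 3 / 16) with a | a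
  · rw [mu_2 h1.le a]
    exact pot_A hr n (by simpa using h1) (by push_cast; linarith) 1 (-(3 * n)) (by push_cast; ring)
  rcases le_total r (n + 1 / 4) with b | b
  · rw [mu_3 a b]
    exact pot_B hr n n (by simpa using h1) (by push_cast; linarith) (by push_cast; linarith)
      (by push_cast; linarith)
  · rw [mu_4 b h2.le] at hs ⊢
    exact pot_C hs n (by push_cast; linarith) (by push_cast; linarith) 1 (-(3 * (n + 1)))
      (by push_cast; ring)

lemma pot_up {n : ℕ} {r : ℝ} (hr : IsDyadic r) : pot r ≤ pot ((xe n * mu n) r) := by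
  have hs := ((up_mem n).2.1 r).2 hr
  rw [Equiv.Perm.mul_apply] at hs ⊢
  rcases le_or_gt r n with h1 | h1
  · rw [mu_1 h1, xe_1 h1]
  rcases le_or_gt (n + 1 : ℝ) r with h2 | h2
  · rw [mu_5 h2, xe_3 h2, ← Int.cast_one, pot_add]
  rcases le_total r (n + 3 / 16) with a | a
  · rw [mu_2 h1.le a, xe_2 (by linarith) (by linarith)]
    exact (pot_A hr n (by simpa using h1) (by push_cast; linarith) 2 (-(7 * n))
      (by push_cast; ring)).le
  rcases le_total r (n + 1 / 4) with b | b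
  · rw [mu_3 a b, xe_2 (by linarith) (by linarith)]
    exact (pot_B hr n (n + 1) (by simpa using h1) (by push_cast; linarith)
      (by push_cast; linarith) (by push_cast; linarith)).le
  · rw [mu_4 b h2.le, xe_2 (by linarith) (by linarith)] at hs ⊢
    exact (pot_C hs (n + 1) (by push_cast; linarith) (by push_cast; linarith) 0 (-(n + 3))
      (by push_cast; ring)).le

lemma pot_dn {n : ℕ} {r : ℝ} (hr : IsDyadic r) : pot r ≤ pot ((mu n * (xe n)⁻¹) r) := by
  have hs := ((dn_mem n).2.1 r).2 hr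
  rw [Equiv.Perm.mul_apply] at hs ⊢
  rcases le_or_gt r n with h1 | h1
  · rw [xi_1 h1, mu_1 h1]
  rcases le_or_gt (n + 2 : ℝ) r with h2 | h2
  · rw [xi_3 h2, mu_5 (by linarith), show r - 1 = r + ((-1 : ℤ) : ℝ) by push_cast; ring, pot_add]
  rw [xi_2 h1.le h2.le] at hs ⊢
  rcases le_total r (n + 3 / 8) with a | a
  · rw [mu_2 (n := n) (t := (r + n) / 2) (by linarith) (by linarith)]
    exact (pot_A hr n (by simpa using h1) (by push_cast; linarith) 0 (-n)
      (by push_cast; ring)).le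
  rcases lt_or_ge r (n + 1 / 2) with b | b
  · rw [mu_3 (n := n) (t := (r + n) / 2) (by linarith) (by linarith)]
    exact (pot_B hr n n (by simpa using h1) (by push_cast; linarith)
      (by push_cast; linarith) (by push_cast; linarith)).le
  · rw [mu_4 (n := n) (t := (r + n) / 2) (by linarith) (by linarith)] at hs ⊢
    exact (pot_C hs n (by push_cast; linarith) (by push_cast; linarith) 2 (-(7 * n + 6))
      (by push_cast; ring)).le

lemma pot_pow {f : Equiv.Perm ℝ} (hf : f ∈ PL) (h : ∀ r, IsDyadic r → pot r ≤ pot (f r)) (m : ℕ)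
    {r : ℝ} (hr : IsDyadic r) : pot r ≤ pot ((f ^ m) r) := by
  induction m generalizing r with
  | zero => exact le_rfl
  | succ m ih =>
    rw [pow_succ, Equiv.Perm.mul_apply]
    exact (h r hr).trans (ih ((hf.2.1 r).2 hr))

theorem pot_fw (p q : ℕ) {n : ℕ} {r : ℝ} (hr : IsDyadic r) (h1 : (n : ℝ) < r)
    (h2 : r < n + p + 1) : pot r < pot (fw p q n r) := by
  have hg := PL.pow_mem (dn_mem n) p
  have a1 := hg.1 h1
  have a2 := hg.1 h2
  rw [dn_lo p le_rfl] at a1
  rw [dn_hi p le_rfl] at a2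
  have a3 := (hg.2.1 r).2 hr
  rw [fw, Equiv.Perm.mul_apply, Equiv.Perm.mul_apply]
  exact ((pot_pow (dn_mem n) (fun _ => pot_dn) p hr).trans_lt
    (pot_mu a3 a1 (by linarith))).trans_le
    (pot_pow (up_mem n) (fun _ => pot_up) q (((mu_mem n).2.1 _).2 a3))

lemma germ {f : Equiv.Perm ℝ} (hf : f ∈ PL) {e : ℝ} (h : f e = e) :
    ∃ d a : ℝ, 0 < d ∧ 0 < a ∧ ∀ t, e ≤ t → t ≤ e + d → f t = e + a * (t - e) := by
  classical
  obtain ⟨-, -, B, -, hB⟩ := hf
  obtain ⟨y, hy, hm⟩ := (insert (e + 1) (B.filter (e < ·))).exists_min_image id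
    (Finset.insert_nonempty _ _)
  have h1 : e < y := by
    rcases Finset.mem_insert.1 hy with rfl | hy
    · linarith
    · exact (Finset.mem_filter.1 hy).2
  obtain ⟨k, hk⟩ := hB e y h1 fun b hb c =>
    (hm b (Finset.mem_insert_of_mem (Finset.mem_filter.2 ⟨hb, c.1⟩))).not_gt c.2
  exact ⟨y - e, 2 ^ k, by linarith, by positivity, fun t t1 t2 => by
    rw [hk t t1 (by linarith), h]⟩

/-- Two maps that fix a point commute just to the right of it. -/
theorem comm_germ {f g : Equiv.Perm ℝ} (hf : f ∈ PL) (hg : g ∈ PL) {e : ℝ} (h1 : f e = e)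
    (h2 : g e = e) : ∃ d, e < d ∧ ∀ t, e ≤ t → t ≤ d → (f * g * f⁻¹ * g⁻¹) t = t := by
  obtain ⟨d, a, hd, ha, k1⟩ := germ hf h1
  obtain ⟨d', b, hd', hb, k2⟩ := germ hg h2
  obtain ⟨c, hc, c1, c2⟩ : ∃ c : ℝ, 0 < c ∧ (1 + a + b) * c ≤ d ∧ (1 + a + b) * c ≤ d' :=
    ⟨min d d' / (1 + a + b), by positivity,
      by rw [mul_div_cancel₀ _ (by positivity)]; exact min_le_left _ _,
      by rw [mul_div_cancel₀ _ (by positivity)]; exact min_le_right _ _⟩
  have hm : StrictMono (g * f) := (PL.mul_mem hg hf).1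
  have he : (g * f) e = e := by rw [Equiv.Perm.mul_apply, h1, h2]
  refine ⟨(g * f) (e + c), he.ge.trans_lt (hm (by linarith)), fun t t1 t2 => ?_⟩
  obtain ⟨u, rfl⟩ := (g * f).surjective t
  have u1 : e ≤ u := hm.le_iff_le.1 (he.le.trans t1)
  have u2 : u ≤ e + c := hm.le_iff_le.1 t2
  have v1 := mul_nonneg ha.le (sub_nonneg.2 u1)
  have v2 := mul_nonneg hb.le (sub_nonneg.2 u1)
  have v3 := mul_le_mul_of_nonneg_left (show u - e ≤ c by linarith) ha.le
  have v4 := mul_le_mul_of_nonneg_left (show u - e ≤ c by linarith) hb.le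
  have v5 := mul_pos ha hc
  have v6 := mul_pos hb hc
  simp only [Equiv.Perm.mul_apply, Equiv.Perm.coe_inv, Equiv.symm_apply_apply]
  rw [k2 u u1 (by linarith), k1 u u1 (by linarith), k1 _ (by linarith) (by linarith),
    k2 _ (by linarith) (by linarith)]
  ring

end Pool.Agent.Lib.MP_24b811_al.Tc
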