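import Pool.Agent.Lib.MP_24b811_al.TcNc

/-!
# A halfspace fixed by a power is fixed
-/

set_option autoImplicit false

namespace Pool.Agent.Lib.MP_24b811_al.Tc

open List Gc Gc.Cover Fr

universe u v

variable {S M : Type u} {R : Sys S M} {G : Type v} [Group G] {C : Cover R G}
  {o : C.X.Z → ℕ → M → Prop}

lemma exists_ar (z : C.X.Z) (g : G) : ∃ x, C.AR x g := by
  obtain ⟨x, -, -, -, ar⟩ := rebase (PQ.all z _)
    (by simpa [C.wd_act] using PL.all z (g • z)) (Nat.zero_le _)
  exact ⟨x, ar⟩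

/-- The history of a nearest point of a halfspace lies in the history of each of its points. -/
lemma min_sub {x w y : C.X.Z} {c : Cell S M} (hw : c ∈ C.H x w)
    (hm : ∀ w', c ∈ C.H x w' → ¬ C.d x w' < C.d x w) (hy : c ∈ C.H x y) :
    C.H x w ⊆ C.H x y := by
  by_contra hn
  obtain ⟨q, q1, -⟩ := cre x w
  obtain ⟨c', c1, c2, c3⟩ := q1.exists_max (gen_base _) (Cover.inv x y) hn
  obtain ⟨A, B, e⟩ := q1.bot_of_max c1 c3
  obtain ⟨r, r1, -⟩ := q1.undo (gen_base _) e
  have h3 := st_run (C := C) (z := x) (by simpa using r1.valid)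
  rw [r1.run (gen_base _)] at h3
  have h4 : C.H x (C.X.run x r) = (C.H x w).erase c' := congrArg Prod.snd h3
  refine hm (C.X.run x r) (h4 ▸ Finset.mem_erase.2 ⟨fun e => c2 (e ▸ hy), hw⟩) ?_
  rw [Cover.d, Cover.d, h4]
  exact Finset.card_erase_lt_of_mem c1

/-- The first cell of a creation path. -/
lemma first_cell {x w : C.X.Z} (hne : w ≠ x) :
    ∃ A T B m, C.L x x = A ++ T ++ B ∧ lab T = R.src m ∧ (T, m) ∈ C.H x w := by
  refine (cre_ind (P := fun y => y = x ∨ ∃ A T B m, C.L x x = A ++ T ++ B ∧ lab T = R.src m ∧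
    (T, m) ∈ C.H x w) x w (Or.inl rfl) ?_).resolve_left hne
  rintro y A T B m e1 e2 - e4 (rfl | h)
  exacts [Or.inr ⟨A, T, B, m, e1, e2, e4⟩, Or.inr h]

lemma fix_of_pow {f : Equiv.Perm ℝ} (hf : StrictMono f) {a : ℝ} {n : ℕ} (hn : 0 < n)
    (h : (f ^ n) a = a) : f a = a := by
  rw [Equiv.Perm.coe_pow] at h
  rcases lt_trichotomy (f a) a with h1 | h1 | h1
  · exact absurd h (hf.strictAnti_iterate_of_map_lt h1 hn).ne
  · exact h1
  · exact absurd h (hf.strictMono_iterate_of_lt_map h1 hn).ne'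

lemma half_fix {x : C.X.Z} {n : ℕ} {m : M} (h : Ed C x n m) {γ : G} :
    half x (n, m) = half (γ • x) (n, m) ↔ ∀ y, γ • y ∈ half x (n, m) ↔ y ∈ half x (n, m) := by
  have h1 := h.half_smul γ⁻¹
  rw [inv_inv] at h1
  rw [← h1, Set.ext_iff]
  refine ⟨fun H y => by simpa using H (γ • y), fun H y => ?_⟩
  simpa using H (γ⁻¹ • y)

/-- Crossing an invariant edge does not change the displacement. -/
lemma d_cross {x : C.X.Z} {n : ℕ} {m : M} (h : Ed C x n m) {γ : G}
    (e : half x (n, m) = half (γ • x) (n, m)) :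
    C.d (C.X.ext x (n, m)) (γ • C.X.ext x (n, m)) = C.d x (γ • x) := by
  obtain ⟨-, A, T, B, A', B', h1, h0, h2, h3, h4⟩ := edge2 h (h.smul γ) e
  obtain ⟨-, k2, -, -⟩ := new_step h1 h2 (not_undo h1)
  obtain ⟨-, l2, l3, -⟩ := new_step h3 h2 (not_undo h1)
  rw [h0] at k2
  rw [h4] at l2
  rw [h.smul_ext, ← d_eq x, k2, l2, H_self, Cover.d]
  congr 1
  ext c
  by_cases hc : c = (T, m) <;> simp [Finset.mem_symmDiff, hc, l3]

/-- The halfspace of an edge at an axis point: fixed by a power implies fixed. -/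
lemma ri_edge (K : Crd C o) {x : C.X.Z} {n : ℕ} {m : M} (h : Ed C x n m) {g : G} (ar : C.AR x g)
    {P : ℕ} (hP : 0 < P) (e : half x (n, m) = half (g ^ P • x) (n, m)) :
    half x (n, m) = half (g • x) (n, m) := by
  obtain ⟨-, A, T, B, A', B', h1, h0, h2, h3, h4⟩ := edge2 h (h.smul _) e
  have key : ∀ i (hi : i < T.length), (C.L x (g • x))[n + i]? = some T[i] := by
    intro i hi
    have a1 : (C.L x x)[n + i]? = some T[i] := by
      simp [h1, ← h0, getElem?_append_left, getElem?_append_right, hi]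
    have a2 : (C.L x (g ^ P • x))[n + i]? = some T[i] := by
      simp [h3, ← h4, getElem?_append_left, getElem?_append_right, hi]
    have a3 : T[i] ∈ C.L x (g • x) := by
      by_contra hn
      obtain ⟨d, d1, d2⟩ := consumed (L_self x ▸ mem_of_getElem? a1) hn
      have d3 : d ∉ C.H x (g ^ P • x) := fun hd =>
        (Cover.inv x _).gone d hd _ d2 (mem_of_getElem? a2)
      have := ar.conv (half_of_mem d1) (a := 0) (b := 1) (c := P) zero_le_one (by omega)
        (by simpa [H_self] using d3)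
      simp [H_self, d1] at this
    obtain ⟨j, hj⟩ := getElem?_of_mem a3
    have b1 := K.pos a1 a2 le_rfl zero_le_one
    have b2 := K.pos a1 hj le_rfl zero_le_one
    rw [K.smul', map_pow] at b1
    rw [← fix_of_pow (K.φ_mem x g).1 hP b1, ← K.smul'] at b2
    have b3 := (K.π _).injective b2
    rw [add_zero, add_zero, Nat.cast_inj] at b3
    exact b3 ▸ hj
  have hl : n + T.length ≤ (C.L x (g • x)).length := by
    rw [length_L, C.wd_act, ← length_L x x, h1, ← h0]
    simp
  have e1 : C.L x (g • x) = (C.L x (g • x)).take n ++ T ++ (C.L x (g • x)).drop (n + T.length) := by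
    have : ((C.L x (g • x)).drop n).take T.length = T := by
      refine List.ext_getElem? fun i => ?_
      by_cases hi : i < T.length
      · rw [getElem?_take_of_lt hi, getElem?_drop, key i hi, getElem?_eq_getElem hi]
      · rw [getElem?_take_eq_none (not_lt.1 hi), getElem?_eq_none (not_lt.1 hi)]
    rw [← drop_drop, append_assoc]
    conv_rhs => rw [← this]
    rw [length_take, length_drop, min_eq_left (by omega), take_append_drop, take_append_drop]
  have e2 := (new_step e1 h2 (not_undo h1)).2.2.2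
  rw [length_take, min_eq_left (by omega)] at e2
  rw [e2, ← h0, (new_step h1 h2 (not_undo h1)).2.2.2]

lemma ri_aux (K : Crd C o) {h : Set C.X.Z} (hh : C.Half h) {g : G} {p : ℕ} (hp : 0 < p)
    (H : ∀ x, g ^ p • x ∈ h ↔ x ∈ h) (N : ℕ) : ∀ x, C.AR x g → x ∉ h →
      (∃ w ∈ h, C.d x w < N) → ∀ y, g • y ∈ h ↔ y ∈ h := by
  have H2 : ∀ (j : ℤ) x, g ^ (p * j) • x ∈ h ↔ x ∈ h := fun j => by
    induction j using Int.induction_on with
    | zero => simp
    | succ j ih => intro x; rw [mul_add, mul_one, zpow_add, mul_smul, ih, zpow_natCast, H]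
    | pred j ih =>
      intro x
      rw [← H, ← zpow_natCast, ← mul_smul, ← zpow_add, ← ih x]
      congr! 3
      ring
  induction N with
  | zero => simp
  | succ N ih =>
    rintro x ar hx ⟨w0, hw0, hd0⟩
    obtain ⟨w, hw, hm⟩ := (InvImage.wf (C.d x) wellFounded_lt).has_min h ⟨w0, hw0⟩
    have hd : C.d x w ≤ N := by
      have := not_lt.1 (hm w0 hw0)
      omega
    obtain ⟨c, hc⟩ := Crd.cell_of hh hx
    obtain ⟨A, T, B, m, e1, e2, e3⟩ := first_cell (x := x) (w := w) fun e => hx (e ▸ hw)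
    have ed := ed_of e1 e2
    obtain ⟨-, k2, -, k4⟩ := new_step e1 e2 (not_undo e1)
    have sub : h ⊆ half x (A.length, m) := fun y hy => by
      rw [k4]
      rw [hc] at hw hm hy
      exact min_sub hw hm hy e3
    have hI : ∃ s : ℤ, s ≠ 0 ∧ ∀ j : ℕ, g ^ (p * (s * j)) • x ∉ half x (A.length, m) := by
      by_cases h1 : ∀ k : ℤ, 0 ≤ k → g ^ k • x ∉ half x (A.length, m)
      · exact ⟨1, one_ne_zero, fun j => h1 _ (by positivity)⟩
      · push Not at h1
        obtain ⟨k, h1, h2⟩ := h1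
        refine ⟨-1, by norm_num, fun j h3 => ed.not_mem.1 ?_⟩
        have h4 : (0 : ℤ) ≤ p * j := by positivity
        simpa using (ar.conv ed.isHalf (b := 0) (by linarith) h1 (iff_of_true h3 h2)).2 h3
    obtain ⟨s, hs, hI⟩ := hI
    obtain ⟨P, hP, per⟩ := periodic (y := x) (y' := w) (g := g) ed.isHalf
      (I := Set.range fun j : ℕ => (p : ℤ) * (s * j))
      (Set.infinite_range_of_injective fun a b hab => by
        simpa [hp.ne', hs] using hab)
      (by
        rintro _ ⟨j, rfl⟩ h1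
        exact hI j (h1.2 (sub ((H2 _ _).2 hw))))
    obtain ⟨P, rfl⟩ := Int.eq_ofNat_of_zero_le hP.le
    have f1 := (half_fix ed).1 (ri_edge K ed ar (by omega : 0 < P)
      ((half_fix ed).2 fun y => by simpa using per 1 y))
    by_cases hx' : C.X.ext x (A.length, m) ∈ h
    · rw [hc, Set.mem_ofPred_eq, k2, H_self] at hx'
      obtain rfl : c = (T, m) := by simpa using hx'
      rwa [hc, ← k4]
    · refine ih _ ?_ hx' ⟨w, hw, ?_⟩
      · obtain ⟨a, ha⟩ := ar
        refine ⟨a, fun k => ?_⟩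
        rw [d_cross ed ((half_fix ed).2 ?_), ha]
        induction k with
        | zero => simp
        | succ k ik => intro y; rw [pow_succ, mul_smul, ik, f1]
      · rw [← d_eq x, k2, H_self]
        refine lt_of_lt_of_le ?_ hd
        rw [Cover.d]
        refine Finset.card_lt_card ⟨fun d hd' => ?_, fun h1 => ?_⟩
        · rcases Finset.mem_symmDiff.1 hd' with h1 | h1
          · obtain rfl : d = (T, m) := by simpa using h1.1
            exact e3
          · exact h1.1
        · simpa [Finset.mem_symmDiff, e3] using h1 e3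

theorem ri (K : Crd C o) {h : Set C.X.Z} (hh : C.Half h) {g : G} {p : ℕ} (hp : 0 < p)
    (H : ∀ x, g ^ p • x ∈ h ↔ x ∈ h) : ∀ x, g • x ∈ h ↔ x ∈ h := by
  obtain ⟨y, n, m, ed, e⟩ := half_ed hh
  obtain ⟨x, ar⟩ := exists_ar y g
  by_cases hx : x ∈ h
  · exact fun z => not_iff_not.1 (ri_aux K hh.compl hp (fun z => not_congr (H z)) _ x ar
      (fun h1 => h1 hx) ⟨y, e ▸ ed.not_mem.1, Nat.lt_succ_self _⟩ z)
  · exact ri_aux K hh hp H _ x ar hx ⟨_, e ▸ ed.not_mem.2, Nat.lt_succ_self _⟩

end Pool.Agent.Lib.MP_24b811_al.Tc
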