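import Pool.Agent.Lib.MP_24b811_al.Defs
import Pool.Agent.Lib.MP_24b811_al.Abelianisation
import Pool.Agent.Lib.MP_24b811_al.Elements

namespace Pool.Agent.Results.MP_24b811_al.NotDiagram

open Pool.Agent.Lib.MP_24b811_al

universe u

/-- Thompson's group F has a finitely generated subgroup that is not isomorphic to any diagram
group. -/
theorem result :
    ∃ H : Subgroup ThompsonF, H.FG ∧
      ∀ (S : Type u) (P : SemigroupPresentation S) (w : SqVertex P),
        IsEmpty (H ≃* DiagramGroup P w) := by
  obtain ⟨H, hH, φ, g, x, y, hg, hφ⟩ := exists_subgroup_thompson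
  refine ⟨H, hH, fun S P w => ⟨fun e => hφ ?_⟩⟩
  have h := diagramGroup_no_two_torsion w (φ.comp e.symm.toMonoidHom) (e g) (e x) (e y) (by
    rw [← map_mul, hg]
    simp only [map_mul, map_inv])
  simpa using h

end Pool.Agent.Results.MP_24b811_al.NotDiagram
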